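import Pool.Agent.Strip051.LC.E1.Ch.Fns

/-! # Rests near the full period: slopes of the functions of the rows -/

set_option linter.unusedVariables false

namespace Pool.Agent.Strip051.LC.E1.Ch

open Pool.Agent.Strip051.PB

attribute [local irreducible] padd psub pneg pmul psq pinv psqrt psqrtg pabs pps pmax pmin pphi plam
  pcase phf pnat prat pscale pnorm pdc pnc pone ppos pnn Enc

noncomputable def cc1_vc : Sl_vc cc1 := ⟨_, fun h1 h2 => (pr_sqrt (pr_csub (enc_pnc _ 1) (pr_scale 3 4 (pr_sq (pr_norm (pr_cadd (enc_pnc _ 1) (pr_cmul h2 h1)))))))⟩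
noncomputable def dd1_vc : Sl_vc dd1 := ⟨_, fun h1 h2 => (pr_norm (pr_scale 3 4 (pr_mul (pr_norm (pr_cadd (enc_pnc _ 2) (pr_cmul h2 h1))) (pr_nd (pr_inv (pr_cadd (enc_rat _ 1 2) (cc1_vc.snd h1 h2)))))))⟩
noncomputable def xi1_vc : Sl_vc xi1 := ⟨_, fun h1 h2 => (pr_norm (pr_neg (pr_mul h1 (dd1_vc.snd h1 h2))))⟩
noncomputable def qw_vc : Sl_vc qw := ⟨_, fun h1 h2 => (pr_sqrt (pr_csub (enc_pnc _ 1) (pr_scale 3 4 (pr_sq (pr_norm (pr_cmul h2 h1))))))⟩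
noncomputable def om_vc : Sl_vc om := ⟨_, fun h1 h2 => (pr_norm (pr_scale 3 4 (pr_mul (pr_nd (pr_sq h1)) (pr_nd (pr_inv (pr_cadd (enc_pnc _ 1) (qw_vc.snd h1 h2)))))))⟩
noncomputable def zx_vc : Sl_vc zx := ⟨_, fun h1 h2 => (pr_norm (pr_neg (pr_cmul h2 (om_vc.snd h1 h2))))⟩
noncomputable def u_T1_A_P1m_P1W_vvcc : Sl_vvcc u_T1_A_P1m_P1W := ⟨_, fun h1 h2 h3 h4 => (pr_norm (pr_sub (pr_sub (zx_vc.snd h1 h4) (xi1_vc.snd h2 h4)) (xi1_vc.snd (pr_norm (pr_add h1 h2)) h4)))⟩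
noncomputable def nff_T1_vvc : Sl_vvc nff_T1 := ⟨_, fun h1 h2 h3 => (pr_norm (pr_sub (pr_half h1) h2))⟩
noncomputable def nuf_T1_vvc : Sl_vvc nuf_T1 := ⟨_, fun h1 h2 h3 => (pr_norm (pr_scale 3 2 (pr_sub h2 (pr_half h1))))⟩
noncomputable def bs_T1_AP1mf_vvvccc : Sl_vvvccc bs_T1_AP1mf := ⟨_, fun h1 h2 h3 h4 h5 h6 => (pr_norm (pr_neg (pr_half (pr_add (pr_mul (om_vc.snd h1 h5) (pr_norm (pr_cadd (enc_pnc _ 1) (pr_cmul h5 h3)))) (pr_mul (pr_norm (pr_sub (zx_vc.snd h1 h5) (xi1_vc.snd h2 h5))) h1)))))⟩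
noncomputable def ku_41_vccc : Sl_vccc ku_41 := ⟨_, fun h1 h2 h3 h4 => (pr_cmul h3 (pr_norm (pr_cmul (enc_half (ku_5.enc h1.l h2 h3 h4)) h1)))⟩
noncomputable def ku_vccc : Sl_vccc ku := ⟨_, fun h1 h2 h3 h4 => (pr_norm (pr_add (pr_add (pr_add (pr_add (pr_sub (pr_mulc (pr_nd (pr_posh (pr_subc h1 h2))) (enc_norm (enc_add (u2k.enc h4) (ku_7.enc h1.l h2 h3 h4)))) (pr_mulc h1 (ku_7.enc h1.l h2 h3 h4))) (pr_mulc (pr_nd (pr_posh (pr_subc h1 (enc_scale 8 5 h2)))) (enc_norm (enc_sub (enc_neg (ku_10.enc h1.l h2 h3 h4)) (u2k.enc h4))))) (pr_mulc (pr_nd (pr_posh (pr_subc h1 (enc_scale 11 5 h2)))) (enc_norm (enc_add (u4k.enc h4) (ku_10.enc h1.l h2 h3 h4))))) (pr_mulc (pr_nd (pr_posh (pr_subc h1 (enc_scale 5 2 h2)))) (enc_norm (enc_sub (enc_neg (enc_scale 6303 3125 (ku_5.enc h1.l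 h2 h3 h4))) (u4k.enc h4))))) (pr_mulc (pr_norm (pr_sub (pr_scale 2753 2500 (pr_posh (pr_subr 1 10 (ku_41_vccc.snd h1 h2 h3 h4)))) (pr_scale 6894 3125 (pr_posh (pr_subr 1 16 (ku_41_vccc.snd h1 h2 h3 h4)))))) (enc_inv (enc_max h3 (enc_rat _ 1 100))))))⟩
noncomputable def ku_wp_zvvvccc : Sl_zvvvccc ku_wp := ⟨_, fun h1 z1 h2 h3 h4 h5 h6 h7 => (ku_vccc.snd h2 h5 h6 h7)⟩
noncomputable def ic1_vc : Sl_vc ic1 := ⟨_, fun h1 h2 => (pr_inv (pr_cadd (enc_pnc _ 1) (pr_add (pr_half (cc1_vc.snd h1 h2)) (pr_scale 3 4 (pr_cadd (enc_pnc _ 1) (pr_cmul h2 h1))))))⟩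
noncomputable def sg1_vc : Sl_vc sg1 := ⟨_, fun h1 h2 => (pr_norm (pr_mul h1 (pr_norm (pr_cadd (enc_rat _ 1 2) (dd1_vc.snd h1 h2)))))⟩
noncomputable def k1m_6_vccc : Sl_vccc k1m_6 := ⟨_, fun h1 h2 h3 h4 => (ku_vccc.snd (pr_nd (pr_neg (sg1_vc.snd h1 h3))) h2 h3 h4)⟩
noncomputable def k1m_vccc : Sl_vccc k1m := ⟨_, fun h1 h2 h3 h4 => (pr_norm (pr_sub (pr_half (k1m_6_vccc.snd h1 h2 h3 h4)) (pr_scale 3 4 (pr_mul (pr_norm (pr_mul (sg1_vc.snd h1 h3) (pr_nd (ic1_vc.snd h1 h3)))) (pr_norm (pr_cadd (enc_pnc _ 1) (pr_cmul h3 (k1m_6_vccc.snd h1 h2 h3 h4))))))))⟩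
noncomputable def k1m_zn_zvvvccc : Sl_zvvvccc k1m_zn := ⟨_, fun h1 z1 h2 h3 h4 h5 h6 h7 => (pr_neg (k1m_vccc.snd h3 h5 h6 h7))⟩
noncomputable def k1p_5_vccc : Sl_vccc k1p_5 := ⟨_, fun h1 h2 h3 h4 => (ku_vccc.snd (sg1_vc.snd h1 h3) h2 h3 h4)⟩
noncomputable def k1p_vccc : Sl_vccc k1p := ⟨_, fun h1 h2 h3 h4 => (pr_norm (pr_sub (pr_half (k1p_5_vccc.snd h1 h2 h3 h4)) (pr_scale 3 4 (pr_mul (pr_norm (pr_mul (sg1_vc.snd h1 h3) (pr_nd (ic1_vc.snd h1 h3)))) (pr_norm (pr_cadd (enc_pnc _ 1) (pr_cmul h3 (k1p_5_vccc.snd h1 h2 h3 h4))))))))⟩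
noncomputable def xiw_vc : Sl_vc xiw := ⟨_, fun h1 h2 => (pr_norm (pr_neg (pr_cmul h2 (om_vc.snd h1 h2))))⟩
noncomputable def kwu_vccc : Sl_vccc kwu := ⟨_, fun h1 h2 h3 h4 => (pr_norm (pr_add (xiw_vc.snd h1 h3) (pr_mul (pr_norm (pr_cadd (enc_rat _ 1 2) (pr_cmul h3 (xiw_vc.snd h1 h3)))) (pr_norm (pr_sub (pr_sub (pr_add (pr_sub (pr_scale 20923 2500 (pr_posh (pr_subc h1 (enc_half h2)))) (pr_scale 21419 2500 h1)) (pr_scale 7801 2500 (pr_posh (pr_subc h1 h2)))) (pr_scale 1461 500 (pr_posh (pr_subc h1 (enc_scale 5 2 h2))))) (pr_scale 2772 625 h1))))))⟩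
noncomputable def s1wk_6_vccc : Sl_vccc s1wk_6 := ⟨_, fun h1 h2 h3 h4 => (pr_cadd (enc_rat _ 1 2) (dd1_vc.snd h1 h3))⟩
noncomputable def s1wk_10_vccc : Sl_vccc s1wk_10 := ⟨_, fun h1 h2 h3 h4 => (pr_cmul h3 h1)⟩
noncomputable def s1wk_16_vccc : Sl_vccc s1wk_16 := ⟨_, fun h1 h2 h3 h4 => (pr_scale 3 4 (pr_mul (pr_norm (s1wk_10_vccc.snd h1 h2 h3 h4)) (pr_nd (pr_inv (pr_cadd (enc_pnc _ 1) (qw_vc.snd h1 h3))))))⟩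
noncomputable def s1wk_20_vccc : Sl_vccc s1wk_20 := ⟨_, fun h1 h2 h3 h4 => (pr_cmul (enc_scale 109997 100000 (enc_sqrt (enc_pnc _ 3))) (pr_norm (s1wk_6_vccc.snd h1 h2 h3 h4)))⟩
noncomputable def s1wk_vccc : Sl_vccc s1wk := ⟨_, fun h1 h2 h3 h4 => (pr_norm (pr_case (pr_subc h1 (enc_scale 2 5 h2)) (pr_mul (pr_norm (pr_sub (pr_sub (pr_neg (s1wk_16_vccc.snd h1 h2 h3 h4)) (pr_scale 32507 2500 (pr_csub (enc_rat _ 1 2) (pr_mul (pr_norm (s1wk_10_vccc.snd h1 h2 h3 h4)) (pr_norm (s1wk_16_vccc.snd h1 h2 h3 h4)))))) (pr_sub (pr_neg (pr_half (s1wk_20_vccc.snd h1 h2 h3 h4))) (pr_scale 3 4 (pr_mul (pr_norm (pr_mul (pr_norm (s1wk_6_vccc.snd h1 h2 h3 h4)) (pr_nd (ic1_vc.snd h1 h3)))) (pr_norm (pr_csub (enc_pnc _ 1) (pr_mul (pr_norm (s1wk_10_vccc.snd h1 h2 h3 h4)) (pr_norm (s1wk_20_vccc.snd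 h1 h2 h3 h4)))))))))) (pr_nd (pr_inv (pr_sub (dd1_vc.snd h1 h3) (s1wk_16_vccc.snd h1 h2 h3 h4))))) (pr_mul (pr_norm (pr_sub (kwu_vccc.snd h1 h2 h3 h4) (k1p_vccc.snd h1 h2 h3 h4))) (pr_nd (pr_inv (pr_sub (xiw_vc.snd h1 h3) (xi1_vc.snd h1 h3)))))))⟩
noncomputable def tkP1W_tp_zvvvccc : Sl_zvvvccc tkP1W_tp := ⟨_, fun h1 z1 h2 h3 h4 h5 h6 h7 => (pr_norm (pr_add (k1p_vccc.snd h4 h5 h6 h7) (pr_mz z1 h1 (s1wk_vccc.snd h4 h5 h6 h7))))⟩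
noncomputable def zr7_zvvvccc : Sl_zvvvccc zr7 := ⟨_, fun h1 z1 h2 h3 h4 h5 h6 h7 => pr_const ((enc_pnc _ 0))⟩
noncomputable def xwu_vccc : Sl_vccc xwu := ⟨_, fun h1 h2 h3 h4 => (pr_norm (pr_cmul (enc_scale 3097 10000 (lmf.enc h4)) (pr_nd (pr_posh (pr_subc h1 (enc_scale 5 2 h2))))))⟩
noncomputable def qa1_vccc : Sl_vccc qa1 := ⟨_, fun h1 h2 h3 h4 => (pr_norm (pr_case (pr_subc h1 (enc_scale 5 2 h2)) (pr_const (enc_pnc _ 0)) (pr_mul (xwu_vccc.snd h1 h2 h3 h4) (pr_nd (pr_inv (pr_sub (xiw_vc.snd h1 h3) (xi1_vc.snd h1 h3)))))))⟩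
noncomputable def taP1W_tp_zvvvccc : Sl_zvvvccc taP1W_tp := ⟨_, fun h1 z1 h2 h3 h4 h5 h6 h7 => (pr_norm (pr_mz z1 h1 (qa1_vccc.snd h4 h5 h6 h7)))⟩
noncomputable def lva_vccc : Sl_vccc lva := ⟨_, fun h1 h2 h3 h4 => (pr_norm (pr_cmul (lmf.enc h4) (pr_norm (pr_cmul (enc_norm (enc_sub (enc_rat _ 85937 100000) (enc_scale 10723 500 h4))) (pr_nd (pr_scale 3 4 (pr_sq (pr_norm (pr_mulc (pr_nd (pr_posh (pr_subc h1 (enc_scale 167 50 h2)))) (enc_inv (enc_sub (enc_rat _ 1 2) (enc_scale 167 50 (enc_mul (enc_half (enc_sqrt (enc_pnc _ 3))) h4)))))))))))))⟩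
noncomputable def lva_wp_zvvvccc : Sl_zvvvccc lva_wp := ⟨_, fun h1 z1 h2 h3 h4 h5 h6 h7 => (lva_vccc.snd h2 h5 h6 h7)⟩
noncomputable def lvm_24_vccc : Sl_vccc lvm_24 := ⟨_, fun h1 h2 h3 h4 => (pr_cmul h3 (pr_norm (pr_cmul (lvm_6.enc h1.l h2 h3 h4) h1)))⟩
noncomputable def lvm_vccc : Sl_vccc lvm := ⟨_, fun h1 h2 h3 h4 => (pr_norm (pr_cmul (lmf.enc h4) (pr_norm (pr_add (pr_add (pr_add (pr_cmul (enc_norm (enc_sub (enc_rat _ 2661 12500) (enc_scale 8863 1000 h4))) (pr_nd (pr_scale 3 4 (pr_sq (pr_norm (pr_mulc (pr_nd (pr_posh (pr_subc h1 (enc_scale 167 50 h2)))) (enc_inv (enc_sub (enc_rat _ 1 2) (enc_scale 167 50 (enc_mul (lvm_6.enc h1.l h2 h3 h4) h4)))))))))) (pr_cmul (enc_norm (enc_sub (enc_rat _ 14331 50000) (enc_scale 38949 1000 h4))) (pr_nd (pr_scale 160000 29241 (pr_sq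 (pr_norm (pr_mulc (pr_nd (pr_posh (pr_subr 29 400 (lvm_24_vccc.snd h1 h2 h3 h4)))) (lvm_27.enc h1.l h2 h3 h4)))))))) (pr_cmul (enc_norm (enc_subr 13849 25000 (enc_scale 1359 20 h4))) (pr_nd (pr_scale 10000 1681 (pr_sq (pr_norm (pr_mulc (pr_nd (pr_posh (pr_subr 9 100 (lvm_24_vccc.snd h1 h2 h3 h4)))) (lvm_27.enc h1.l h2 h3 h4)))))))) (pr_cmul (enc_norm (enc_sub (enc_rat _ 5519 50000) (enc_scale 25993 1000 h4))) (pr_nd (pr_scale 2500 361 (pr_sq (pr_norm (pr_mulc (pr_nd (pr_posh (pr_subr 3 25 (lvm_24_vccc.snd h1 h2 h3 h4)))) (lvm_27.enc h1.l h2 h3 h4)))))))))))⟩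
noncomputable def l1m_vccc : Sl_vccc l1m := ⟨_, fun h1 h2 h3 h4 => (lvm_vccc.snd (pr_nd (pr_neg (sg1_vc.snd h1 h3))) h2 h3 h4)⟩
noncomputable def l1m_zn_zvvvccc : Sl_zvvvccc l1m_zn := ⟨_, fun h1 z1 h2 h3 h4 h5 h6 h7 => (pr_neg (l1m_vccc.snd h3 h5 h6 h7))⟩
noncomputable def lvp_24_vccc : Sl_vccc lvp_24 := ⟨_, fun h1 h2 h3 h4 => (pr_cmul h3 (pr_norm (pr_cmul (lvp_6.enc h1.l h2 h3 h4) h1)))⟩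
noncomputable def lvp_vccc : Sl_vccc lvp := ⟨_, fun h1 h2 h3 h4 => (pr_norm (pr_cmul (lmf.enc h4) (pr_norm (pr_add (pr_add (pr_add (pr_cmul (enc_norm (enc_sub (enc_rat _ 64649 100000) (enc_scale 12583 1000 h4))) (pr_nd (pr_scale 3 4 (pr_sq (pr_norm (pr_mulc (pr_nd (pr_posh (pr_subc h1 (enc_scale 167 50 h2)))) (enc_inv (enc_sub (enc_rat _ 1 2) (enc_scale 167 50 (enc_mul (lvp_6.enc h1.l h2 h3 h4) h4)))))))))) (pr_cmul (enc_norm (enc_subr 15187 100000 (enc_neg (enc_scale 718 125 h4)))) (pr_nd (pr_scale 160000 29241 (pr_sq (pr_norm (pr_mulc (pr_nd (pr_posh (pr_subr 29 400 (lvp_24_vccc.snd h1 h2 h3 h4)))) (lvp_27.enc h1.l h2 h3 h4)))))))) (pr_cmul (enc_norm (enc_subr 1083 50000 (enc_scale 16679 500 h4))) (pr_nd (pr_scale 10000 1681 (pr_sq (pr_norm (pr_mulc (pr_nd (pr_posh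 (pr_subr 9 100 (lvp_24_vccc.snd h1 h2 h3 h4)))) (lvp_27.enc h1.l h2 h3 h4)))))))) (pr_cmul (enc_norm (enc_sub (enc_rat _ 3279 6250) (enc_scale 34967 1000 h4))) (pr_nd (pr_scale 2500 361 (pr_sq (pr_norm (pr_mulc (pr_nd (pr_posh (pr_subr 3 25 (lvp_24_vccc.snd h1 h2 h3 h4)))) (lvp_27.enc h1.l h2 h3 h4)))))))))))⟩
noncomputable def l1p_vccc : Sl_vccc l1p := ⟨_, fun h1 h2 h3 h4 => (lvp_vccc.snd (sg1_vc.snd h1 h3) h2 h3 h4)⟩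
noncomputable def qb1_vccc : Sl_vccc qb1 := ⟨_, fun h1 h2 h3 h4 => (pr_norm (pr_case (pr_subc (sg1_vc.snd h1 h3) (enc_scale 167 50 h2)) (pr_const (enc_pnc _ 0)) (pr_mul (pr_nd (l1p_vccc.snd h1 h2 h3 h4)) (pr_nd (pr_inv (pr_sub (xiw_vc.snd h1 h3) (xi1_vc.snd h1 h3)))))))⟩
noncomputable def tcP1W_tp_zvvvccc : Sl_zvvvccc tcP1W_tp := ⟨_, fun h1 z1 h2 h3 h4 h5 h6 h7 => (pr_norm (pr_sub (l1p_vccc.snd h4 h5 h6 h7) (pr_mz z1 h1 (qb1_vccc.snd h4 h5 h6 h7))))⟩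
noncomputable def lw_vvv : Sl_vvv lw := ⟨_, fun h1 h2 h3 => h1⟩
noncomputable def lt_vvv : Sl_vvv lt := ⟨_, fun h1 h2 h3 => h3⟩
noncomputable def lnz_vvv : Sl_vvv lnz := ⟨_, fun h1 h2 h3 => (pr_neg h2)⟩
noncomputable def nfn_T1_vvc : Sl_vvc nfn_T1 := ⟨_, fun h1 h2 h3 => (pr_norm (pr_neg (pr_cmul (bef.enc h3) (pr_norm (pr_sub h2 (pr_half h1))))))⟩
noncomputable def nun_T1_vvc : Sl_vvc nun_T1 := ⟨_, fun h1 h2 h3 => (pr_norm (pr_cmul (enc_norm (enc_add (enc_rat _ 1 2) (bef.enc h3))) (pr_norm (pr_sub h2 (pr_half h1)))))⟩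
noncomputable def bs_T1_AP1mn_vvvccc : Sl_vvvccc bs_T1_AP1mn := ⟨_, fun h1 h2 h3 h4 h5 h6 => (pr_norm (pr_neg (pr_cmul (n1f.enc h6) (pr_norm (pr_half (pr_add (pr_mul (om_vc.snd h1 h5) (pr_norm (pr_cadd (enc_pnc _ 1) (pr_cmul h5 h3)))) (pr_mul (pr_norm (pr_sub (zx_vc.snd h1 h5) (xi1_vc.snd h2 h5))) h1)))))))⟩
noncomputable def ku_wp_vvvvccc : Sl_vvvvccc ku_wp := ⟨_, fun h1 h2 h3 h4 h5 h6 h7 => (ku_vccc.snd h2 h5 h6 h7)⟩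
noncomputable def kv_37_vccc : Sl_vccc kv_37 := ⟨_, fun h1 h2 h3 h4 => (pr_cmul h3 (pr_norm (pr_cmul (enc_half (enc_sqrt (enc_pnc _ 3))) h1)))⟩
noncomputable def kv_vccc : Sl_vccc kv := ⟨_, fun h1 h2 h3 h4 => (pr_norm (pr_add (pr_add (pr_add (pr_add (pr_add (pr_mulc h1 (u1b.enc h4)) (pr_mulc (pr_nd (pr_posh (pr_subc h1 h2))) (enc_norm (enc_sub (u2b.enc h4) (u1b.enc h4))))) (pr_mulc (pr_nd (pr_posh (pr_subc h1 (enc_scale 8 5 h2)))) (enc_norm (enc_sub (u3b.enc h4) (u2b.enc h4))))) (pr_mulc (pr_nd (pr_posh (pr_subc h1 (enc_scale 11 5 h2)))) (enc_norm (enc_sub (u4b.enc h4) (u3b.enc h4))))) (pr_mulc (pr_nd (pr_posh (pr_subc h1 (enc_scale 5 2 h2)))) (enc_norm (enc_sub (u5b.enc h4) (u4b.enc h4))))) (pr_mulc (pr_norm (pr_add (pr_mulc (pr_nd (pr_posh (pr_subr 1 16 (kv_37_vccc.snd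 h1 h2 h3 h4)))) (enc_norm (enc_sub (kv_50.enc h1.l h2 h3 h4) (enc_sub (enc_rat _ 23151 3125) (enc_nat 2 (b0f.enc h4)))))) (pr_mulc (pr_nd (pr_posh (pr_subr 1 10 (kv_37_vccc.snd h1 h2 h3 h4)))) (enc_norm (enc_sub (enc_neg (enc_nat 10 (kv_45.enc h1.l h2 h3 h4))) (kv_50.enc h1.l h2 h3 h4)))))) (enc_inv (enc_max h3 (enc_rat _ 1 100))))))⟩
noncomputable def kv_wp_vvvvccc : Sl_vvvvccc kv_wp := ⟨_, fun h1 h2 h3 h4 h5 h6 h7 => (kv_vccc.snd h2 h5 h6 h7)⟩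
noncomputable def nkf_cvv : Sl_cvv nkf := ⟨_, fun h1 h2 h3 => (pr_norm (pr_add (pr_cmul (n1f.enc h1) h2) (pr_cmul (mu.enc h1) h3)))⟩
noncomputable def nku_wp_zvvvccc : Sl_zvvvccc nku_wp := ⟨_, fun h1 z1 h2 h3 h4 h5 h6 h7 => (nkf_cvv.snd h7 (pr_nd (ku_wp_vvvvccc.snd h1 h2 h3 h4 h5 h6 h7)) (pr_nd (kv_wp_vvvvccc.snd h1 h2 h3 h4 h5 h6 h7)))⟩
noncomputable def b1m_6_vccc : Sl_vccc b1m_6 := ⟨_, fun h1 h2 h3 h4 => (kv_vccc.snd (pr_nd (pr_neg (sg1_vc.snd h1 h3))) h2 h3 h4)⟩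
noncomputable def b1m_vccc : Sl_vccc b1m := ⟨_, fun h1 h2 h3 h4 => (pr_norm (pr_sub (pr_half (b1m_6_vccc.snd h1 h2 h3 h4)) (pr_scale 3 4 (pr_mul (pr_norm (pr_mul (sg1_vc.snd h1 h3) (pr_nd (ic1_vc.snd h1 h3)))) (pr_norm (pr_cadd (b0f.enc h4) (pr_cmul h3 (b1m_6_vccc.snd h1 h2 h3 h4))))))))⟩
noncomputable def b1m_zn_vvvvccc : Sl_vvvvccc b1m_zn := ⟨_, fun h1 h2 h3 h4 h5 h6 h7 => (pr_neg (b1m_vccc.snd h3 h5 h6 h7))⟩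
noncomputable def k1m_zn_vvvvccc : Sl_vvvvccc k1m_zn := ⟨_, fun h1 h2 h3 h4 h5 h6 h7 => (pr_neg (k1m_vccc.snd h3 h5 h6 h7))⟩
noncomputable def nk1m_zn_zvvvccc : Sl_zvvvccc nk1m_zn := ⟨_, fun h1 z1 h2 h3 h4 h5 h6 h7 => (nkf_cvv.snd h7 (pr_nd (k1m_zn_vvvvccc.snd h1 h2 h3 h4 h5 h6 h7)) (pr_nd (b1m_zn_vvvvccc.snd h1 h2 h3 h4 h5 h6 h7)))⟩
noncomputable def b1p_5_vccc : Sl_vccc b1p_5 := ⟨_, fun h1 h2 h3 h4 => (kv_vccc.snd (sg1_vc.snd h1 h3) h2 h3 h4)⟩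
noncomputable def b1p_vccc : Sl_vccc b1p := ⟨_, fun h1 h2 h3 h4 => (pr_norm (pr_sub (pr_half (b1p_5_vccc.snd h1 h2 h3 h4)) (pr_scale 3 4 (pr_mul (pr_norm (pr_mul (sg1_vc.snd h1 h3) (pr_nd (ic1_vc.snd h1 h3)))) (pr_norm (pr_cadd (b0f.enc h4) (pr_cmul h3 (b1p_5_vccc.snd h1 h2 h3 h4))))))))⟩
noncomputable def bwu_vccc : Sl_vccc bwu := ⟨_, fun h1 h2 h3 h4 => (pr_norm (pr_add (pr_cmul (b0f.enc h4) (xiw_vc.snd h1 h3)) (pr_mul (pr_norm (pr_cadd (enc_rat _ 1 2) (pr_cmul h3 (xiw_vc.snd h1 h3)))) (pr_norm (pr_add (pr_scale 4367 5000 h1) (pr_add (pr_add (pr_sub (pr_scale 55587 5000 h1) (pr_scale 24269 1250 (pr_posh (pr_subc h1 (enc_half h2))))) (pr_scale 110369 15000 (pr_posh (pr_subc h1 h2)))) (pr_scale 7049 7500 (pr_posh (pr_subc h1 (enc_scale 5 2 h2))))))))))⟩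
noncomputable def s1wb_6_vccc : Sl_vccc s1wb_6 := ⟨_, fun h1 h2 h3 h4 => (pr_cadd (enc_rat _ 1 2) (dd1_vc.snd h1 h3))⟩
noncomputable def s1wb_10_vccc : Sl_vccc s1wb_10 := ⟨_, fun h1 h2 h3 h4 => (pr_cmul h3 h1)⟩
noncomputable def s1wb_16_vccc : Sl_vccc s1wb_16 := ⟨_, fun h1 h2 h3 h4 => (pr_scale 3 4 (pr_mul (pr_norm (s1wb_10_vccc.snd h1 h2 h3 h4)) (pr_nd (pr_inv (pr_cadd (enc_pnc _ 1) (qw_vc.snd h1 h3))))))⟩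
noncomputable def s1wb_20_vccc : Sl_vccc s1wb_20 := ⟨_, fun h1 h2 h3 h4 => (pr_cmul (u1b.enc h4) (pr_norm (s1wb_6_vccc.snd h1 h2 h3 h4)))⟩
noncomputable def s1wb_vccc : Sl_vccc s1wb := ⟨_, fun h1 h2 h3 h4 => (pr_norm (pr_case (pr_subc h1 (enc_scale 2 5 h2)) (pr_mul (pr_norm (pr_sub (pr_sub (pr_scale 29977 2500 (pr_csub (enc_rat _ 1 2) (pr_mul (pr_norm (s1wb_10_vccc.snd h1 h2 h3 h4)) (pr_norm (s1wb_16_vccc.snd h1 h2 h3 h4))))) (pr_cmul (b0f.enc h4) (pr_norm (s1wb_16_vccc.snd h1 h2 h3 h4)))) (pr_sub (pr_half (s1wb_20_vccc.snd h1 h2 h3 h4)) (pr_scale 3 4 (pr_mul (pr_norm (pr_mul (pr_norm (s1wb_6_vccc.snd h1 h2 h3 h4)) (pr_nd (ic1_vc.snd h1 h3)))) (pr_norm (pr_cadd (b0f.enc h4) (pr_mul (pr_norm (s1wb_10_vccc.snd h1 h2 h3 h4)) (pr_norm (s1wb_20_vccc.snd h1 h2 h3 h4))))))))))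 (pr_nd (pr_inv (pr_sub (dd1_vc.snd h1 h3) (s1wb_16_vccc.snd h1 h2 h3 h4))))) (pr_mul (pr_norm (pr_sub (bwu_vccc.snd h1 h2 h3 h4) (b1p_vccc.snd h1 h2 h3 h4))) (pr_nd (pr_inv (pr_sub (xiw_vc.snd h1 h3) (xi1_vc.snd h1 h3)))))))⟩
noncomputable def tbP1W_tp_zvvvccc : Sl_zvvvccc tbP1W_tp := ⟨_, fun h1 z1 h2 h3 h4 h5 h6 h7 => (pr_norm (pr_add (b1p_vccc.snd h4 h5 h6 h7) (pr_mz z1 h1 (s1wb_vccc.snd h4 h5 h6 h7))))⟩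
noncomputable def ntkP1W_tp_zvvvccc : Sl_zvvvccc ntkP1W_tp := ⟨_, fun h1 z1 h2 h3 h4 h5 h6 h7 => (nkf_cvv.snd h7 (tkP1W_tp_zvvvccc.snd h1 z1 h2 h3 h4 h5 h6 h7) (tbP1W_tp_zvvvccc.snd h1 z1 h2 h3 h4 h5 h6 h7))⟩
noncomputable def u_T1_A_P1p_PW5_vvcc : Sl_vvcc u_T1_A_P1p_PW5 := ⟨_, fun h1 h2 h3 h4 => (pr_norm (pr_sub (pr_sub (zx_vc.snd h1 h4) (xi1_vc.snd h2 h4)) (xiw_vc.snd (pr_norm (pr_add h1 h2)) h4)))⟩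
noncomputable def bs_T1_AP1pf_vvvccc : Sl_vvvccc bs_T1_AP1pf := ⟨_, fun h1 h2 h3 h4 h5 h6 => (pr_norm (pr_neg (pr_half (pr_add (pr_mul (om_vc.snd h1 h5) (pr_norm (pr_cadd (enc_pnc _ 1) (pr_cmul h5 h3)))) (pr_mul (pr_norm (pr_sub (zx_vc.snd h1 h5) (xi1_vc.snd h2 h5))) h1)))))⟩
noncomputable def k1p_zn_zvvvccc : Sl_zvvvccc k1p_zn := ⟨_, fun h1 z1 h2 h3 h4 h5 h6 h7 => (pr_neg (k1p_vccc.snd h3 h5 h6 h7))⟩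
noncomputable def cc3_vc : Sl_vc cc3 := ⟨_, fun h1 h2 => (pr_sqrt (pr_csub (enc_pnc _ 3) (pr_scale 3 4 (pr_sq (pr_norm (pr_cadd (enc_pnc _ 1) (pr_cmul h2 h1)))))))⟩
noncomputable def dd3_vc : Sl_vc dd3 := ⟨_, fun h1 h2 => (pr_norm (pr_scale 3 4 (pr_mul (pr_norm (pr_cadd (enc_pnc _ 2) (pr_cmul h2 h1))) (pr_nd (pr_inv (pr_cadd (enc_rat _ 3 2) (cc3_vc.snd h1 h2)))))))⟩
noncomputable def xi3_vc : Sl_vc xi3 := ⟨_, fun h1 h2 => (pr_norm (pr_neg (pr_mul h1 (dd3_vc.snd h1 h2))))⟩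
noncomputable def dwu_vc : Sl_vc dwu := ⟨_, fun h1 h2 => (pr_norm (pr_cadd (enc_pnc _ 1) (pr_cmul h2 (pr_norm (pr_sub (xi3_vc.snd h1 h2) (xiw_vc.snd h1 h2))))))⟩
noncomputable def t5k_vc : Sl_vc t5k := ⟨_, fun h1 h2 => (pr_norm (pr_sub (pr_cadd (enc_rat _ 451 2000) (pr_scale 231 20 h1)) (pr_scale 1 400 (pr_posh (pr_subr 1 25 h1)))))⟩
noncomputable def s_W5k_10_vccc : Sl_vccc s_W5k_10 := ⟨_, fun h1 h2 h3 h4 => (pr_scale 3 20 (dwu_vc.snd h1 h3))⟩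
noncomputable def s_W5k_vccc : Sl_vccc s_W5k := ⟨_, fun h1 h2 h3 h4 => (pr_norm (pr_mul (pr_norm (pr_sub (pr_mul (pr_norm (pr_add (pr_cadd (enc_rat _ 1 2) (pr_cmul h3 (xiw_vc.snd h1 h3))) (s_W5k_10_vccc.snd h1 h2 h3 h4))) (t5k_vc.snd (pr_norm (pr_cmul h3 h1)) h4)) (pr_cadd (enc_rat _ 1 2) (pr_cmul h3 (kwu_vccc.snd h1 h2 h3 h4))))) (pr_nd (pr_inv (s_W5k_10_vccc.snd h1 h2 h3 h4)))))⟩
noncomputable def tkPW5_tp_zvvvccc : Sl_zvvvccc tkPW5_tp := ⟨_, fun h1 z1 h2 h3 h4 h5 h6 h7 => (pr_norm (pr_add (kwu_vccc.snd h4 h5 h6 h7) (pr_mz z1 h1 (s_W5k_vccc.snd h4 h5 h6 h7))))⟩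
noncomputable def t5x_vc : Sl_vc t5x := ⟨_, fun h1 h2 => (pr_norm (pr_add (pr_cadd (enc_subr 84283 100000 (enc_scale 1481 500 h2)) (pr_mulc h1 (enc_norm (enc_subr 817 4000 (enc_scale 349 8 h2))))) (pr_mulc (pr_nd (pr_posh (pr_subr 1 25 h1))) (enc_norm (enc_sub (enc_rat _ 1 4000) (enc_scale 1489 40 h2))))))⟩
noncomputable def s_W5x_10_vccc : Sl_vccc s_W5x_10 := ⟨_, fun h1 h2 h3 h4 => (pr_scale 3 20 (dwu_vc.snd h1 h3))⟩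
noncomputable def s_W5x_vccc : Sl_vccc s_W5x := ⟨_, fun h1 h2 h3 h4 => (pr_norm (pr_mul (pr_norm (pr_sub (pr_cmul (lmf.enc h4) (pr_norm (pr_addc (pr_mul (pr_norm (pr_add (pr_cadd (enc_rat _ 1 2) (pr_cmul h3 (xiw_vc.snd h1 h3))) (s_W5x_10_vccc.snd h1 h2 h3 h4))) (t5x_vc.snd (pr_norm (pr_cmul h3 h1)) h4)) (enc_rat _ 1 2)))) (pr_cmul h3 (xwu_vccc.snd h1 h2 h3 h4)))) (pr_nd (pr_inv (s_W5x_10_vccc.snd h1 h2 h3 h4)))))⟩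
noncomputable def taPW5_tp_zvvvccc : Sl_zvvvccc taPW5_tp := ⟨_, fun h1 z1 h2 h3 h4 h5 h6 h7 => (pr_norm (pr_add (xwu_vccc.snd h4 h5 h6 h7) (pr_mz z1 h1 (s_W5x_vccc.snd h4 h5 h6 h7))))⟩
noncomputable def l1p_zn_zvvvccc : Sl_zvvvccc l1p_zn := ⟨_, fun h1 z1 h2 h3 h4 h5 h6 h7 => (pr_neg (l1p_vccc.snd h3 h5 h6 h7))⟩
noncomputable def lz_vvv : Sl_vvv lz := ⟨_, fun h1 h2 h3 => h2⟩
noncomputable def bs_T1_AP1pn_vvvccc : Sl_vvvccc bs_T1_AP1pn := ⟨_, fun h1 h2 h3 h4 h5 h6 => (pr_norm (pr_neg (pr_cmul (n1f.enc h6) (pr_norm (pr_half (pr_add (pr_mul (om_vc.snd h1 h5) (pr_norm (pr_cadd (enc_pnc _ 1) (pr_cmul h5 h3)))) (pr_mul (pr_norm (pr_sub (zx_vc.snd h1 h5) (xi1_vc.snd h2 h5))) h1)))))))⟩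
noncomputable def b1p_zn_vvvvccc : Sl_vvvvccc b1p_zn := ⟨_, fun h1 h2 h3 h4 h5 h6 h7 => (pr_neg (b1p_vccc.snd h3 h5 h6 h7))⟩
noncomputable def k1p_zn_vvvvccc : Sl_vvvvccc k1p_zn := ⟨_, fun h1 h2 h3 h4 h5 h6 h7 => (pr_neg (k1p_vccc.snd h3 h5 h6 h7))⟩
noncomputable def nk1p_zn_zvvvccc : Sl_zvvvccc nk1p_zn := ⟨_, fun h1 z1 h2 h3 h4 h5 h6 h7 => (nkf_cvv.snd h7 (pr_nd (k1p_zn_vvvvccc.snd h1 h2 h3 h4 h5 h6 h7)) (pr_nd (b1p_zn_vvvvccc.snd h1 h2 h3 h4 h5 h6 h7)))⟩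
noncomputable def t5b_vc : Sl_vc t5b := ⟨_, fun h1 h2 => (pr_norm (pr_csub (enc_rat _ 6929 5000) (pr_scale 469 40 h1)))⟩
noncomputable def s_W5b_10_vccc : Sl_vccc s_W5b_10 := ⟨_, fun h1 h2 h3 h4 => (pr_scale 3 20 (dwu_vc.snd h1 h3))⟩
noncomputable def s_W5b_vccc : Sl_vccc s_W5b := ⟨_, fun h1 h2 h3 h4 => (pr_norm (pr_mul (pr_norm (pr_sub (pr_mul (pr_norm (pr_add (pr_cadd (enc_rat _ 1 2) (pr_cmul h3 (xiw_vc.snd h1 h3))) (s_W5b_10_vccc.snd h1 h2 h3 h4))) (t5b_vc.snd (pr_norm (pr_cmul h3 h1)) h4)) (pr_cadd (enc_half (b0f.enc h4)) (pr_cmul h3 (bwu_vccc.snd h1 h2 h3 h4))))) (pr_nd (pr_inv (s_W5b_10_vccc.snd h1 h2 h3 h4)))))⟩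
noncomputable def tbPW5_tp_zvvvccc : Sl_zvvvccc tbPW5_tp := ⟨_, fun h1 z1 h2 h3 h4 h5 h6 h7 => (pr_norm (pr_add (bwu_vccc.snd h4 h5 h6 h7) (pr_mz z1 h1 (s_W5b_vccc.snd h4 h5 h6 h7))))⟩
noncomputable def ntkPW5_tp_zvvvccc : Sl_zvvvccc ntkPW5_tp := ⟨_, fun h1 z1 h2 h3 h4 h5 h6 h7 => (nkf_cvv.snd h7 (tkPW5_tp_zvvvccc.snd h1 z1 h2 h3 h4 h5 h6 h7) (tbPW5_tp_zvvvccc.snd h1 z1 h2 h3 h4 h5 h6 h7))⟩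
noncomputable def u_T1_A_PW_PW5_vvcc : Sl_vvcc u_T1_A_PW_PW5 := ⟨_, fun h1 h2 h3 h4 => (pr_norm (pr_sub (pr_sub (zx_vc.snd h1 h4) (xiw_vc.snd h2 h4)) (xiw_vc.snd (pr_norm (pr_add h1 h2)) h4)))⟩
noncomputable def bs_T1_APWf_vvvccc : Sl_vvvccc bs_T1_APWf := ⟨_, fun h1 h2 h3 h4 h5 h6 => (pr_norm (pr_neg (pr_half (pr_add (pr_mul (om_vc.snd h1 h5) (pr_norm (pr_cadd (enc_pnc _ 1) (pr_cmul h5 h3)))) (pr_mul (pr_norm (pr_sub (zx_vc.snd h1 h5) (xiw_vc.snd h2 h5))) h1)))))⟩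
noncomputable def kwu_zn_zvvvccc : Sl_zvvvccc kwu_zn := ⟨_, fun h1 z1 h2 h3 h4 h5 h6 h7 => (pr_neg (kwu_vccc.snd h3 h5 h6 h7))⟩
noncomputable def xwu_zn_zvvvccc : Sl_zvvvccc xwu_zn := ⟨_, fun h1 z1 h2 h3 h4 h5 h6 h7 => (pr_neg (xwu_vccc.snd h3 h5 h6 h7))⟩
noncomputable def bs_T1_APWn_vvvccc : Sl_vvvccc bs_T1_APWn := ⟨_, fun h1 h2 h3 h4 h5 h6 => (pr_norm (pr_neg (pr_cmul (n1f.enc h6) (pr_norm (pr_half (pr_add (pr_mul (om_vc.snd h1 h5) (pr_norm (pr_cadd (enc_pnc _ 1) (pr_cmul h5 h3)))) (pr_mul (pr_norm (pr_sub (zx_vc.snd h1 h5) (xiw_vc.snd h2 h5))) h1)))))))⟩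
noncomputable def bwu_zn_vvvvccc : Sl_vvvvccc bwu_zn := ⟨_, fun h1 h2 h3 h4 h5 h6 h7 => (pr_neg (bwu_vccc.snd h3 h5 h6 h7))⟩
noncomputable def kwu_zn_vvvvccc : Sl_vvvvccc kwu_zn := ⟨_, fun h1 h2 h3 h4 h5 h6 h7 => (pr_neg (kwu_vccc.snd h3 h5 h6 h7))⟩
noncomputable def nkwu_zn_zvvvccc : Sl_zvvvccc nkwu_zn := ⟨_, fun h1 z1 h2 h3 h4 h5 h6 h7 => (nkf_cvv.snd h7 (pr_nd (kwu_zn_vvvvccc.snd h1 h2 h3 h4 h5 h6 h7)) (pr_nd (bwu_zn_vvvvccc.snd h1 h2 h3 h4 h5 h6 h7)))⟩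
noncomputable def u_T1_B_P1p_P12_vvcc : Sl_vvcc u_T1_B_P1p_P12 := ⟨_, fun h1 h2 h3 h4 => (pr_norm (pr_sub (pr_sub (zx_vc.snd h1 h4) (xi1_vc.snd (pr_norm (pr_add h1 h2)) h4)) (xi1_vc.snd h2 h4)))⟩
noncomputable def bs_T1_BP1pf_vvvccc : Sl_vvvccc bs_T1_BP1pf := ⟨_, fun h1 h2 h3 h4 h5 h6 => (pr_norm (pr_neg (pr_half (pr_add (pr_mul (om_vc.snd h1 h5) (pr_norm (pr_cadd (enc_pnc _ 1) (pr_cmul h5 h3)))) (pr_mul (xi1_vc.snd h3 h5) h1)))))⟩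
noncomputable def dwl_vc : Sl_vc dwl := ⟨_, fun h1 h2 => (pr_norm (pr_cadd (enc_pnc _ 1) (pr_cmul h2 (pr_norm (pr_sub (xiw_vc.snd h1 h2) (xi1_vc.snd h1 h2))))))⟩
noncomputable def t1k_vc : Sl_vc t1k := ⟨_, fun h1 h2 => (pr_norm (pr_csub (enc_rat _ 2981 5000) (pr_scale 1791 400 h1)))⟩
noncomputable def s_12k_11_vccc : Sl_vccc s_12k_11 := ⟨_, fun h1 h2 h3 h4 => (pr_scale 1 5 (dwl_vc.snd h1 h3))⟩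
noncomputable def s_12k_vccc : Sl_vccc s_12k := ⟨_, fun h1 h2 h3 h4 => (pr_norm (pr_mul (pr_norm (pr_sub (pr_mul (pr_norm (pr_add (pr_cadd (enc_rat _ 1 2) (pr_cmul h3 (xi1_vc.snd h1 h3))) (s_12k_11_vccc.snd h1 h2 h3 h4))) (t1k_vc.snd (pr_norm (pr_neg (pr_cmul h3 h1))) h4)) (pr_cadd (enc_rat _ 1 2) (pr_cmul h3 (k1m_vccc.snd h1 h2 h3 h4))))) (pr_nd (pr_inv (s_12k_11_vccc.snd h1 h2 h3 h4)))))⟩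
noncomputable def tkP12_zn_zvvvccc : Sl_zvvvccc tkP12_zn := ⟨_, fun h1 z1 h2 h3 h4 h5 h6 h7 => (pr_norm (pr_neg (pr_add (k1m_vccc.snd h3 h5 h6 h7) (pr_mz z1 h1 (s_12k_vccc.snd h3 h5 h6 h7)))))⟩
noncomputable def k1p_tp_zvvvccc : Sl_zvvvccc k1p_tp := ⟨_, fun h1 z1 h2 h3 h4 h5 h6 h7 => (k1p_vccc.snd h4 h5 h6 h7)⟩
noncomputable def t1x_vc : Sl_vc t1x := ⟨_, fun h1 h2 => (pr_norm (pr_add (pr_cadd (enc_subr 80349 100000 (enc_scale 669 250 h2)) (pr_mulc h1 (enc_norm (enc_sub (enc_rat _ 263 400) (enc_scale 371 10 h2))))) (pr_mulc (pr_nd (pr_posh (pr_subr 1 25 h1))) (enc_norm (enc_subr 17 25 (enc_scale 447 40 h2))))))⟩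
noncomputable def s_12x_11_vccc : Sl_vccc s_12x_11 := ⟨_, fun h1 h2 h3 h4 => (pr_scale 1 5 (dwl_vc.snd h1 h3))⟩
noncomputable def s_12x_vccc : Sl_vccc s_12x := ⟨_, fun h1 h2 h3 h4 => (pr_norm (pr_mul (pr_norm (pr_cmul (lmf.enc h4) (pr_norm (pr_addc (pr_mul (pr_norm (pr_add (pr_cadd (enc_rat _ 1 2) (pr_cmul h3 (xi1_vc.snd h1 h3))) (s_12x_11_vccc.snd h1 h2 h3 h4))) (t1x_vc.snd (pr_norm (pr_neg (pr_cmul h3 h1))) h4)) (enc_rat _ 1 2))))) (pr_nd (pr_inv (s_12x_11_vccc.snd h1 h2 h3 h4)))))⟩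
noncomputable def taP12_zn_zvvvccc : Sl_zvvvccc taP12_zn := ⟨_, fun h1 z1 h2 h3 h4 h5 h6 h7 => (pr_norm (pr_neg (pr_mz z1 h1 (s_12x_vccc.snd h3 h5 h6 h7))))⟩
noncomputable def tcP12_zn_zvvvccc : Sl_zvvvccc tcP12_zn := ⟨_, fun h1 z1 h2 h3 h4 h5 h6 h7 => (pr_norm (pr_sub (pr_mz z1 h1 (pr_norm (pr_mul (pr_norm (pr_cmul h6 (pr_nd (l1m_vccc.snd h3 h5 h6 h7)))) (pr_nd (pr_inv (pr_scale 1 5 (dwl_vc.snd h3 h6))))))) (l1m_vccc.snd h3 h5 h6 h7)))⟩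
noncomputable def l1p_tp_zvvvccc : Sl_zvvvccc l1p_tp := ⟨_, fun h1 z1 h2 h3 h4 h5 h6 h7 => (l1p_vccc.snd h4 h5 h6 h7)⟩
noncomputable def bs_T1_BP1pn_vvvccc : Sl_vvvccc bs_T1_BP1pn := ⟨_, fun h1 h2 h3 h4 h5 h6 => (pr_norm (pr_neg (pr_cmul (n1f.enc h6) (pr_norm (pr_half (pr_add (pr_mul (om_vc.snd h1 h5) (pr_norm (pr_cadd (enc_pnc _ 1) (pr_cmul h5 h3)))) (pr_mul (xi1_vc.snd h3 h5) h1)))))))⟩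
noncomputable def t1b_vc : Sl_vc t1b := ⟨_, fun h1 h2 => (pr_norm (pr_add (pr_csub (enc_rat _ 12483 10000) (pr_scale 993 200 h1)) (pr_scale 1 400 (pr_posh (pr_subr 1 25 h1)))))⟩
noncomputable def s_12b_11_vccc : Sl_vccc s_12b_11 := ⟨_, fun h1 h2 h3 h4 => (pr_scale 1 5 (dwl_vc.snd h1 h3))⟩
noncomputable def s_12b_vccc : Sl_vccc s_12b := ⟨_, fun h1 h2 h3 h4 => (pr_norm (pr_mul (pr_norm (pr_sub (pr_mul (pr_norm (pr_add (pr_cadd (enc_rat _ 1 2) (pr_cmul h3 (xi1_vc.snd h1 h3))) (s_12b_11_vccc.snd h1 h2 h3 h4))) (t1b_vc.snd (pr_norm (pr_neg (pr_cmul h3 h1))) h4)) (pr_cadd (enc_half (b0f.enc h4)) (pr_cmul h3 (b1m_vccc.snd h1 h2 h3 h4))))) (pr_nd (pr_inv (s_12b_11_vccc.snd h1 h2 h3 h4)))))⟩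
noncomputable def tbP12_zn_zvvvccc : Sl_zvvvccc tbP12_zn := ⟨_, fun h1 z1 h2 h3 h4 h5 h6 h7 => (pr_norm (pr_neg (pr_add (b1m_vccc.snd h3 h5 h6 h7) (pr_mz z1 h1 (s_12b_vccc.snd h3 h5 h6 h7)))))⟩
noncomputable def ntkP12_zn_zvvvccc : Sl_zvvvccc ntkP12_zn := ⟨_, fun h1 z1 h2 h3 h4 h5 h6 h7 => (nkf_cvv.snd h7 (tkP12_zn_zvvvccc.snd h1 z1 h2 h3 h4 h5 h6 h7) (tbP12_zn_zvvvccc.snd h1 z1 h2 h3 h4 h5 h6 h7))⟩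
noncomputable def b1p_tp_vvvvccc : Sl_vvvvccc b1p_tp := ⟨_, fun h1 h2 h3 h4 h5 h6 h7 => (b1p_vccc.snd h4 h5 h6 h7)⟩
noncomputable def k1p_tp_vvvvccc : Sl_vvvvccc k1p_tp := ⟨_, fun h1 h2 h3 h4 h5 h6 h7 => (k1p_vccc.snd h4 h5 h6 h7)⟩
noncomputable def nk1p_tp_zvvvccc : Sl_zvvvccc nk1p_tp := ⟨_, fun h1 z1 h2 h3 h4 h5 h6 h7 => (nkf_cvv.snd h7 (pr_nd (k1p_tp_vvvvccc.snd h1 h2 h3 h4 h5 h6 h7)) (pr_nd (b1p_tp_vvvvccc.snd h1 h2 h3 h4 h5 h6 h7)))⟩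
noncomputable def u_T1_B_P1p_PW5_vvcc : Sl_vvcc u_T1_B_P1p_PW5 := ⟨_, fun h1 h2 h3 h4 => (pr_norm (pr_sub (pr_sub (zx_vc.snd h1 h4) (xi1_vc.snd (pr_norm (pr_add h1 h2)) h4)) (xiw_vc.snd h2 h4)))⟩
noncomputable def tkPW5_zn_zvvvccc : Sl_zvvvccc tkPW5_zn := ⟨_, fun h1 z1 h2 h3 h4 h5 h6 h7 => (pr_norm (pr_neg (pr_add (kwu_vccc.snd h3 h5 h6 h7) (pr_mz z1 h1 (s_W5k_vccc.snd h3 h5 h6 h7)))))⟩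
noncomputable def taPW5_zn_zvvvccc : Sl_zvvvccc taPW5_zn := ⟨_, fun h1 z1 h2 h3 h4 h5 h6 h7 => (pr_norm (pr_neg (pr_add (xwu_vccc.snd h3 h5 h6 h7) (pr_mz z1 h1 (s_W5x_vccc.snd h3 h5 h6 h7)))))⟩
noncomputable def tbPW5_zn_zvvvccc : Sl_zvvvccc tbPW5_zn := ⟨_, fun h1 z1 h2 h3 h4 h5 h6 h7 => (pr_norm (pr_neg (pr_add (bwu_vccc.snd h3 h5 h6 h7) (pr_mz z1 h1 (s_W5b_vccc.snd h3 h5 h6 h7)))))⟩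
noncomputable def ntkPW5_zn_zvvvccc : Sl_zvvvccc ntkPW5_zn := ⟨_, fun h1 z1 h2 h3 h4 h5 h6 h7 => (nkf_cvv.snd h7 (tkPW5_zn_zvvvccc.snd h1 z1 h2 h3 h4 h5 h6 h7) (tbPW5_zn_zvvvccc.snd h1 z1 h2 h3 h4 h5 h6 h7))⟩
noncomputable def u_T1_B_PW_PW5_vvcc : Sl_vvcc u_T1_B_PW_PW5 := ⟨_, fun h1 h2 h3 h4 => (pr_norm (pr_sub (pr_sub (zx_vc.snd h1 h4) (xiw_vc.snd (pr_norm (pr_add h1 h2)) h4)) (xiw_vc.snd h2 h4)))⟩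
noncomputable def bs_T1_BPWf_vvvccc : Sl_vvvccc bs_T1_BPWf := ⟨_, fun h1 h2 h3 h4 h5 h6 => (pr_norm (pr_neg (pr_half (pr_add (pr_mul (om_vc.snd h1 h5) (pr_norm (pr_cadd (enc_pnc _ 1) (pr_cmul h5 h3)))) (pr_mul (xiw_vc.snd h3 h5) h1)))))⟩
noncomputable def kwu_tp_zvvvccc : Sl_zvvvccc kwu_tp := ⟨_, fun h1 z1 h2 h3 h4 h5 h6 h7 => (kwu_vccc.snd h4 h5 h6 h7)⟩
noncomputable def xwu_tp_zvvvccc : Sl_zvvvccc xwu_tp := ⟨_, fun h1 z1 h2 h3 h4 h5 h6 h7 => (xwu_vccc.snd h4 h5 h6 h7)⟩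
noncomputable def bs_T1_BPWn_vvvccc : Sl_vvvccc bs_T1_BPWn := ⟨_, fun h1 h2 h3 h4 h5 h6 => (pr_norm (pr_neg (pr_cmul (n1f.enc h6) (pr_norm (pr_half (pr_add (pr_mul (om_vc.snd h1 h5) (pr_norm (pr_cadd (enc_pnc _ 1) (pr_cmul h5 h3)))) (pr_mul (xiw_vc.snd h3 h5) h1)))))))⟩
noncomputable def bwu_tp_vvvvccc : Sl_vvvvccc bwu_tp := ⟨_, fun h1 h2 h3 h4 h5 h6 h7 => (bwu_vccc.snd h4 h5 h6 h7)⟩
noncomputable def kwu_tp_vvvvccc : Sl_vvvvccc kwu_tp := ⟨_, fun h1 h2 h3 h4 h5 h6 h7 => (kwu_vccc.snd h4 h5 h6 h7)⟩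
noncomputable def nkwu_tp_zvvvccc : Sl_zvvvccc nkwu_tp := ⟨_, fun h1 z1 h2 h3 h4 h5 h6 h7 => (nkf_cvv.snd h7 (pr_nd (kwu_tp_vvvvccc.snd h1 h2 h3 h4 h5 h6 h7)) (pr_nd (bwu_tp_vvvvccc.snd h1 h2 h3 h4 h5 h6 h7)))⟩
noncomputable def u_T2_A_QW_PW5_vvcc : Sl_vvcc u_T2_A_QW_PW5 := ⟨_, fun h1 h2 h3 h4 => (pr_norm (pr_sub (pr_sub (xiw_vc.snd h2 h4) (zx_vc.snd h1 h4)) (xiw_vc.snd (pr_norm (pr_add h1 h2)) h4)))⟩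
noncomputable def nff_T2_vvc : Sl_vvc nff_T2 := ⟨_, fun h1 h2 h3 => (pr_norm (pr_neg (pr_add h2 (pr_half h1))))⟩
noncomputable def nuf_T2_vvc : Sl_vvc nuf_T2 := ⟨_, fun h1 h2 h3 => (pr_norm (pr_scale 3 2 (pr_add h2 (pr_half h1))))⟩
noncomputable def bs_T2_AQWf_vvvccc : Sl_vvvccc bs_T2_AQWf := ⟨_, fun h1 h2 h3 h4 h5 h6 => (pr_norm (pr_neg (pr_half (pr_add (pr_mul (om_vc.snd h1 h5) (pr_norm (pr_cadd (enc_pnc _ 1) (pr_cmul h5 h3)))) (pr_mul (pr_norm (pr_sub (zx_vc.snd h1 h5) (xiw_vc.snd h2 h5))) h1)))))⟩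
noncomputable def kwl_4_vccc : Sl_vccc kwl_4 := ⟨_, fun h1 h2 h3 h4 => (pr_neg h1)⟩
noncomputable def kwl_vccc : Sl_vccc kwl := ⟨_, fun h1 h2 h3 h4 => (pr_norm (pr_add (xiw_vc.snd h1 h3) (pr_mul (pr_norm (pr_cadd (enc_rat _ 3 2) (pr_cmul h3 (xiw_vc.snd h1 h3)))) (pr_norm (pr_add (pr_nat 6 h1) (pr_add (pr_sub (pr_sub (pr_neg (pr_scale 21447 5000 h1)) (pr_scale 4719 5000 (pr_posh (pr_subc (kwl_4_vccc.snd h1 h2 h3 h4) (enc_half h2))))) (pr_scale 29453 5000 (pr_posh (pr_subc (kwl_4_vccc.snd h1 h2 h3 h4) h2)))) (pr_scale 509 200 (pr_posh (pr_subc (kwl_4_vccc.snd h1 h2 h3 h4) (enc_scale 5 2 h2))))))))))⟩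
noncomputable def kwl_zn_zvvvccc : Sl_zvvvccc kwl_zn := ⟨_, fun h1 z1 h2 h3 h4 h5 h6 h7 => (pr_neg (kwl_vccc.snd h3 h5 h6 h7))⟩
noncomputable def tkPW5_tn_zvvvccc : Sl_zvvvccc tkPW5_tn := ⟨_, fun h1 z1 h2 h3 h4 h5 h6 h7 => (pr_norm (pr_neg (pr_add (kwu_vccc.snd h4 h5 h6 h7) (pr_mz z1 h1 (s_W5k_vccc.snd h4 h5 h6 h7)))))⟩
noncomputable def xwl_vccc : Sl_vccc xwl := ⟨_, fun h1 h2 h3 h4 => (pr_norm (pr_neg (pr_cmul (enc_scale 559 2000 (lmf.enc h4)) (pr_nd (pr_posh (pr_subc (pr_neg h1) (enc_scale 5 2 h2)))))))⟩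
noncomputable def xwl_zn_zvvvccc : Sl_zvvvccc xwl_zn := ⟨_, fun h1 z1 h2 h3 h4 h5 h6 h7 => (pr_neg (xwl_vccc.snd h3 h5 h6 h7))⟩
noncomputable def taPW5_tn_zvvvccc : Sl_zvvvccc taPW5_tn := ⟨_, fun h1 z1 h2 h3 h4 h5 h6 h7 => (pr_norm (pr_neg (pr_add (xwu_vccc.snd h4 h5 h6 h7) (pr_mz z1 h1 (s_W5x_vccc.snd h4 h5 h6 h7)))))⟩
noncomputable def nfn_T2_vvc : Sl_vvc nfn_T2 := ⟨_, fun h1 h2 h3 => (pr_norm (pr_neg (pr_cmul (bef.enc h3) (pr_norm (pr_add h2 (pr_half h1))))))⟩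
noncomputable def nun_T2_vvc : Sl_vvc nun_T2 := ⟨_, fun h1 h2 h3 => (pr_norm (pr_cmul (enc_norm (enc_add (enc_rat _ 1 2) (bef.enc h3))) (pr_norm (pr_add h2 (pr_half h1)))))⟩
noncomputable def bs_T2_AQWn_vvvccc : Sl_vvvccc bs_T2_AQWn := ⟨_, fun h1 h2 h3 h4 h5 h6 => (pr_norm (pr_neg (pr_cmul (n1f.enc h6) (pr_norm (pr_half (pr_add (pr_mul (om_vc.snd h1 h5) (pr_norm (pr_cadd (enc_pnc _ 1) (pr_cmul h5 h3)))) (pr_mul (pr_norm (pr_sub (zx_vc.snd h1 h5) (xiw_vc.snd h2 h5))) h1)))))))⟩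
noncomputable def bwl_4_vccc : Sl_vccc bwl_4 := ⟨_, fun h1 h2 h3 h4 => (pr_neg h1)⟩
noncomputable def bwl_vccc : Sl_vccc bwl := ⟨_, fun h1 h2 h3 h4 => (pr_norm (pr_add (pr_cmul (b0f.enc h4) (xiw_vc.snd h1 h3)) (pr_mul (pr_norm (pr_cadd (enc_rat _ 3 2) (pr_cmul h3 (xiw_vc.snd h1 h3)))) (pr_norm (pr_sub (pr_sub (pr_add (pr_sub (pr_neg (pr_scale 51331 5000 h1)) (pr_scale 66087 2500 (pr_posh (pr_subc (bwl_4_vccc.snd h1 h2 h3 h4) (enc_half h2))))) (pr_scale 272041 15000 (pr_posh (pr_subc (bwl_4_vccc.snd h1 h2 h3 h4) h2)))) (pr_scale 3689 1875 (pr_posh (pr_subc (bwl_4_vccc.snd h1 h2 h3 h4) (enc_scale 5 2 h2))))) (pr_scale 40881 10000 h1))))))⟩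
noncomputable def bwl_zn_vvvvccc : Sl_vvvvccc bwl_zn := ⟨_, fun h1 h2 h3 h4 h5 h6 h7 => (pr_neg (bwl_vccc.snd h3 h5 h6 h7))⟩
noncomputable def kwl_zn_vvvvccc : Sl_vvvvccc kwl_zn := ⟨_, fun h1 h2 h3 h4 h5 h6 h7 => (pr_neg (kwl_vccc.snd h3 h5 h6 h7))⟩
noncomputable def nkwl_zn_zvvvccc : Sl_zvvvccc nkwl_zn := ⟨_, fun h1 z1 h2 h3 h4 h5 h6 h7 => (nkf_cvv.snd h7 (pr_nd (kwl_zn_vvvvccc.snd h1 h2 h3 h4 h5 h6 h7)) (pr_nd (bwl_zn_vvvvccc.snd h1 h2 h3 h4 h5 h6 h7)))⟩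
noncomputable def tbPW5_tn_zvvvccc : Sl_zvvvccc tbPW5_tn := ⟨_, fun h1 z1 h2 h3 h4 h5 h6 h7 => (pr_norm (pr_neg (pr_add (bwu_vccc.snd h4 h5 h6 h7) (pr_mz z1 h1 (s_W5b_vccc.snd h4 h5 h6 h7)))))⟩
noncomputable def ntkPW5_tn_zvvvccc : Sl_zvvvccc ntkPW5_tn := ⟨_, fun h1 z1 h2 h3 h4 h5 h6 h7 => (nkf_cvv.snd h7 (tkPW5_tn_zvvvccc.snd h1 z1 h2 h3 h4 h5 h6 h7) (tbPW5_tn_zvvvccc.snd h1 z1 h2 h3 h4 h5 h6 h7))⟩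
noncomputable def u_T2_A_Q3m_P12_vvcc : Sl_vvcc u_T2_A_Q3m_P12 := ⟨_, fun h1 h2 h3 h4 => (pr_norm (pr_sub (pr_sub (xi3_vc.snd h2 h4) (zx_vc.snd h1 h4)) (xi1_vc.snd (pr_norm (pr_add h1 h2)) h4)))⟩
noncomputable def bs_T2_AQ3mf_vvvccc : Sl_vvvccc bs_T2_AQ3mf := ⟨_, fun h1 h2 h3 h4 h5 h6 => (pr_norm (pr_neg (pr_half (pr_add (pr_mul (om_vc.snd h1 h5) (pr_norm (pr_cadd (enc_pnc _ 1) (pr_cmul h5 h3)))) (pr_mul (pr_norm (pr_sub (zx_vc.snd h1 h5) (xi3_vc.snd h2 h5))) h1)))))⟩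
noncomputable def ic3_vc : Sl_vc ic3 := ⟨_, fun h1 h2 => (pr_inv (pr_cadd (enc_pnc _ 1) (pr_add (pr_half (cc3_vc.snd h1 h2)) (pr_scale 1 4 (pr_cadd (enc_pnc _ 1) (pr_cmul h2 h1))))))⟩
noncomputable def sg3_vc : Sl_vc sg3 := ⟨_, fun h1 h2 => (pr_norm (pr_mul h1 (pr_norm (pr_cadd (enc_rat _ 1 2) (pr_scale 1 3 (dd3_vc.snd h1 h2))))))⟩
noncomputable def k3m_6_vccc : Sl_vccc k3m_6 := ⟨_, fun h1 h2 h3 h4 => (ku_vccc.snd (pr_nd (pr_neg (sg3_vc.snd h1 h3))) h2 h3 h4)⟩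
noncomputable def k3m_vccc : Sl_vccc k3m := ⟨_, fun h1 h2 h3 h4 => (pr_norm (pr_sub (pr_scale 3 2 (k3m_6_vccc.snd h1 h2 h3 h4)) (pr_scale 3 4 (pr_mul (pr_norm (pr_mul (sg3_vc.snd h1 h3) (pr_nd (ic3_vc.snd h1 h3)))) (pr_norm (pr_cadd (enc_pnc _ 1) (pr_cmul h3 (k3m_6_vccc.snd h1 h2 h3 h4))))))))⟩
noncomputable def k3m_zn_zvvvccc : Sl_zvvvccc k3m_zn := ⟨_, fun h1 z1 h2 h3 h4 h5 h6 h7 => (pr_neg (k3m_vccc.snd h3 h5 h6 h7))⟩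
noncomputable def tkP12_tn_zvvvccc : Sl_zvvvccc tkP12_tn := ⟨_, fun h1 z1 h2 h3 h4 h5 h6 h7 => (pr_norm (pr_neg (pr_add (k1m_vccc.snd h4 h5 h6 h7) (pr_mz z1 h1 (s_12k_vccc.snd h4 h5 h6 h7)))))⟩
noncomputable def taP12_tn_zvvvccc : Sl_zvvvccc taP12_tn := ⟨_, fun h1 z1 h2 h3 h4 h5 h6 h7 => (pr_norm (pr_neg (pr_mz z1 h1 (s_12x_vccc.snd h4 h5 h6 h7))))⟩
noncomputable def lvn_vccc : Sl_vccc lvn := ⟨_, fun h1 h2 h3 h4 => (pr_norm (pr_cmul (lmf.enc h4) (pr_norm (pr_cmul (enc_norm (enc_sub (enc_rat _ 4289 4000) (enc_scale 30309 1000 h4))) (pr_nd (pr_scale 3 4 (pr_sq (pr_norm (pr_mulc (pr_nd (pr_posh (pr_subc h1 (enc_scale 167 50 h2)))) (enc_inv (enc_sub (enc_rat _ 1 2) (enc_scale 167 50 (enc_mul (enc_half (enc_sqrt (enc_pnc _ 3))) h4)))))))))))))⟩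
noncomputable def l3m_vccc : Sl_vccc l3m := ⟨_, fun h1 h2 h3 h4 => (lvn_vccc.snd (pr_nd (pr_neg (sg3_vc.snd h1 h3))) h2 h3 h4)⟩
noncomputable def l3m_zn_zvvvccc : Sl_zvvvccc l3m_zn := ⟨_, fun h1 z1 h2 h3 h4 h5 h6 h7 => (pr_neg (l3m_vccc.snd h3 h5 h6 h7))⟩
noncomputable def tcP12_tn_zvvvccc : Sl_zvvvccc tcP12_tn := ⟨_, fun h1 z1 h2 h3 h4 h5 h6 h7 => (pr_norm (pr_sub (pr_mz z1 h1 (pr_norm (pr_mul (pr_norm (pr_cmul h6 (pr_nd (l1m_vccc.snd h4 h5 h6 h7)))) (pr_nd (pr_inv (pr_scale 1 5 (dwl_vc.snd h4 h6))))))) (l1m_vccc.snd h4 h5 h6 h7)))⟩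
noncomputable def lnt_vvv : Sl_vvv lnt := ⟨_, fun h1 h2 h3 => (pr_neg h3)⟩
noncomputable def bs_T2_AQ3mn_vvvccc : Sl_vvvccc bs_T2_AQ3mn := ⟨_, fun h1 h2 h3 h4 h5 h6 => (pr_norm (pr_neg (pr_cmul (n1f.enc h6) (pr_norm (pr_half (pr_add (pr_mul (om_vc.snd h1 h5) (pr_norm (pr_cadd (enc_pnc _ 1) (pr_cmul h5 h3)))) (pr_mul (pr_norm (pr_sub (zx_vc.snd h1 h5) (xi3_vc.snd h2 h5))) h1)))))))⟩
noncomputable def b3m_6_vccc : Sl_vccc b3m_6 := ⟨_, fun h1 h2 h3 h4 => (kv_vccc.snd (pr_nd (pr_neg (sg3_vc.snd h1 h3))) h2 h3 h4)⟩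
noncomputable def b3m_vccc : Sl_vccc b3m := ⟨_, fun h1 h2 h3 h4 => (pr_norm (pr_sub (pr_scale 3 2 (b3m_6_vccc.snd h1 h2 h3 h4)) (pr_scale 3 4 (pr_mul (pr_norm (pr_mul (sg3_vc.snd h1 h3) (pr_nd (ic3_vc.snd h1 h3)))) (pr_norm (pr_cadd (b0f.enc h4) (pr_cmul h3 (b3m_6_vccc.snd h1 h2 h3 h4))))))))⟩
noncomputable def b3m_zn_vvvvccc : Sl_vvvvccc b3m_zn := ⟨_, fun h1 h2 h3 h4 h5 h6 h7 => (pr_neg (b3m_vccc.snd h3 h5 h6 h7))⟩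
noncomputable def k3m_zn_vvvvccc : Sl_vvvvccc k3m_zn := ⟨_, fun h1 h2 h3 h4 h5 h6 h7 => (pr_neg (k3m_vccc.snd h3 h5 h6 h7))⟩
noncomputable def nk3m_zn_zvvvccc : Sl_zvvvccc nk3m_zn := ⟨_, fun h1 z1 h2 h3 h4 h5 h6 h7 => (nkf_cvv.snd h7 (pr_nd (k3m_zn_vvvvccc.snd h1 h2 h3 h4 h5 h6 h7)) (pr_nd (b3m_zn_vvvvccc.snd h1 h2 h3 h4 h5 h6 h7)))⟩
noncomputable def tbP12_tn_zvvvccc : Sl_zvvvccc tbP12_tn := ⟨_, fun h1 z1 h2 h3 h4 h5 h6 h7 => (pr_norm (pr_neg (pr_add (b1m_vccc.snd h4 h5 h6 h7) (pr_mz z1 h1 (s_12b_vccc.snd h4 h5 h6 h7)))))⟩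
noncomputable def ntkP12_tn_zvvvccc : Sl_zvvvccc ntkP12_tn := ⟨_, fun h1 z1 h2 h3 h4 h5 h6 h7 => (nkf_cvv.snd h7 (tkP12_tn_zvvvccc.snd h1 z1 h2 h3 h4 h5 h6 h7) (tbP12_tn_zvvvccc.snd h1 z1 h2 h3 h4 h5 h6 h7))⟩
noncomputable def u_T2_A_Q3m_PW5_vvcc : Sl_vvcc u_T2_A_Q3m_PW5 := ⟨_, fun h1 h2 h3 h4 => (pr_norm (pr_sub (pr_sub (xi3_vc.snd h2 h4) (zx_vc.snd h1 h4)) (xiw_vc.snd (pr_norm (pr_add h1 h2)) h4)))⟩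
noncomputable def u_T2_A_Q3p_P1W_vvcc : Sl_vvcc u_T2_A_Q3p_P1W := ⟨_, fun h1 h2 h3 h4 => (pr_norm (pr_sub (pr_sub (xi3_vc.snd h2 h4) (zx_vc.snd h1 h4)) (xi1_vc.snd (pr_norm (pr_add h1 h2)) h4)))⟩
noncomputable def bs_T2_AQ3pf_vvvccc : Sl_vvvccc bs_T2_AQ3pf := ⟨_, fun h1 h2 h3 h4 h5 h6 => (pr_norm (pr_neg (pr_half (pr_add (pr_mul (om_vc.snd h1 h5) (pr_norm (pr_cadd (enc_pnc _ 1) (pr_cmul h5 h3)))) (pr_mul (pr_norm (pr_sub (zx_vc.snd h1 h5) (xi3_vc.snd h2 h5))) h1)))))⟩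
noncomputable def k3p_5_vccc : Sl_vccc k3p_5 := ⟨_, fun h1 h2 h3 h4 => (ku_vccc.snd (sg3_vc.snd h1 h3) h2 h3 h4)⟩
noncomputable def k3p_vccc : Sl_vccc k3p := ⟨_, fun h1 h2 h3 h4 => (pr_norm (pr_sub (pr_scale 3 2 (k3p_5_vccc.snd h1 h2 h3 h4)) (pr_scale 3 4 (pr_mul (pr_norm (pr_mul (sg3_vc.snd h1 h3) (pr_nd (ic3_vc.snd h1 h3)))) (pr_norm (pr_cadd (enc_pnc _ 1) (pr_cmul h3 (k3p_5_vccc.snd h1 h2 h3 h4))))))))⟩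
noncomputable def k3p_zn_zvvvccc : Sl_zvvvccc k3p_zn := ⟨_, fun h1 z1 h2 h3 h4 h5 h6 h7 => (pr_neg (k3p_vccc.snd h3 h5 h6 h7))⟩
noncomputable def tkP1W_tn_zvvvccc : Sl_zvvvccc tkP1W_tn := ⟨_, fun h1 z1 h2 h3 h4 h5 h6 h7 => (pr_norm (pr_neg (pr_add (k1p_vccc.snd h4 h5 h6 h7) (pr_mz z1 h1 (s1wk_vccc.snd h4 h5 h6 h7)))))⟩
noncomputable def taP1W_tn_zvvvccc : Sl_zvvvccc taP1W_tn := ⟨_, fun h1 z1 h2 h3 h4 h5 h6 h7 => (pr_norm (pr_neg (pr_mz z1 h1 (qa1_vccc.snd h4 h5 h6 h7))))⟩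
noncomputable def lvq_vccc : Sl_vccc lvq := ⟨_, fun h1 h2 h3 h4 => (pr_norm (pr_cmul (lmf.enc h4) (pr_norm (pr_cmul (enc_norm (enc_sub (enc_rat _ 75293 50000) (enc_scale 34029 1000 h4))) (pr_nd (pr_scale 3 4 (pr_sq (pr_norm (pr_mulc (pr_nd (pr_posh (pr_subc h1 (enc_scale 167 50 h2)))) (enc_inv (enc_sub (enc_rat _ 1 2) (enc_scale 167 50 (enc_mul (enc_half (enc_sqrt (enc_pnc _ 3))) h4)))))))))))))⟩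
noncomputable def l3p_vccc : Sl_vccc l3p := ⟨_, fun h1 h2 h3 h4 => (lvq_vccc.snd (sg3_vc.snd h1 h3) h2 h3 h4)⟩
noncomputable def l3p_zn_zvvvccc : Sl_zvvvccc l3p_zn := ⟨_, fun h1 z1 h2 h3 h4 h5 h6 h7 => (pr_neg (l3p_vccc.snd h3 h5 h6 h7))⟩
noncomputable def tcP1W_tn_zvvvccc : Sl_zvvvccc tcP1W_tn := ⟨_, fun h1 z1 h2 h3 h4 h5 h6 h7 => (pr_norm (pr_sub (pr_mz z1 h1 (qb1_vccc.snd h4 h5 h6 h7)) (l1p_vccc.snd h4 h5 h6 h7)))⟩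
noncomputable def bs_T2_AQ3pn_vvvccc : Sl_vvvccc bs_T2_AQ3pn := ⟨_, fun h1 h2 h3 h4 h5 h6 => (pr_norm (pr_neg (pr_cmul (n1f.enc h6) (pr_norm (pr_half (pr_add (pr_mul (om_vc.snd h1 h5) (pr_norm (pr_cadd (enc_pnc _ 1) (pr_cmul h5 h3)))) (pr_mul (pr_norm (pr_sub (zx_vc.snd h1 h5) (xi3_vc.snd h2 h5))) h1)))))))⟩
noncomputable def b3p_5_vccc : Sl_vccc b3p_5 := ⟨_, fun h1 h2 h3 h4 => (kv_vccc.snd (sg3_vc.snd h1 h3) h2 h3 h4)⟩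
noncomputable def b3p_vccc : Sl_vccc b3p := ⟨_, fun h1 h2 h3 h4 => (pr_norm (pr_sub (pr_scale 3 2 (b3p_5_vccc.snd h1 h2 h3 h4)) (pr_scale 3 4 (pr_mul (pr_norm (pr_mul (sg3_vc.snd h1 h3) (pr_nd (ic3_vc.snd h1 h3)))) (pr_norm (pr_cadd (b0f.enc h4) (pr_cmul h3 (b3p_5_vccc.snd h1 h2 h3 h4))))))))⟩
noncomputable def b3p_zn_vvvvccc : Sl_vvvvccc b3p_zn := ⟨_, fun h1 h2 h3 h4 h5 h6 h7 => (pr_neg (b3p_vccc.snd h3 h5 h6 h7))⟩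
noncomputable def k3p_zn_vvvvccc : Sl_vvvvccc k3p_zn := ⟨_, fun h1 h2 h3 h4 h5 h6 h7 => (pr_neg (k3p_vccc.snd h3 h5 h6 h7))⟩
noncomputable def nk3p_zn_zvvvccc : Sl_zvvvccc nk3p_zn := ⟨_, fun h1 z1 h2 h3 h4 h5 h6 h7 => (nkf_cvv.snd h7 (pr_nd (k3p_zn_vvvvccc.snd h1 h2 h3 h4 h5 h6 h7)) (pr_nd (b3p_zn_vvvvccc.snd h1 h2 h3 h4 h5 h6 h7)))⟩
noncomputable def tbP1W_tn_zvvvccc : Sl_zvvvccc tbP1W_tn := ⟨_, fun h1 z1 h2 h3 h4 h5 h6 h7 => (pr_norm (pr_neg (pr_add (b1p_vccc.snd h4 h5 h6 h7) (pr_mz z1 h1 (s1wb_vccc.snd h4 h5 h6 h7)))))⟩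
noncomputable def ntkP1W_tn_zvvvccc : Sl_zvvvccc ntkP1W_tn := ⟨_, fun h1 z1 h2 h3 h4 h5 h6 h7 => (nkf_cvv.snd h7 (tkP1W_tn_zvvvccc.snd h1 z1 h2 h3 h4 h5 h6 h7) (tbP1W_tn_zvvvccc.snd h1 z1 h2 h3 h4 h5 h6 h7))⟩
noncomputable def u_T2_A_Q3p_PW5_vvcc : Sl_vvcc u_T2_A_Q3p_PW5 := ⟨_, fun h1 h2 h3 h4 => (pr_norm (pr_sub (pr_sub (xi3_vc.snd h2 h4) (zx_vc.snd h1 h4)) (xiw_vc.snd (pr_norm (pr_add h1 h2)) h4)))⟩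
noncomputable def u_T2_B_P1m_QW3_vvcc : Sl_vvcc u_T2_B_P1m_QW3 := ⟨_, fun h1 h2 h3 h4 => (pr_norm (pr_sub (xi3_vc.snd h2 h4) (pr_add (zx_vc.snd h1 h4) (xi1_vc.snd (pr_norm (pr_add h1 h2)) h4))))⟩
noncomputable def bs_T2_BP1mf_vvvccc : Sl_vvvccc bs_T2_BP1mf := ⟨_, fun h1 h2 h3 h4 h5 h6 => (pr_norm (pr_neg (pr_half (pr_sub (pr_mul (om_vc.snd h1 h5) (pr_norm (pr_cadd (enc_pnc _ 1) (pr_cmul h5 h3)))) (pr_mul (xi1_vc.snd h3 h5) h1)))))⟩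
noncomputable def sw3k_8_vccc : Sl_vccc sw3k_8 := ⟨_, fun h1 h2 h3 h4 => (pr_cadd (enc_rat _ 1 2) (pr_scale 1 3 (dd3_vc.snd h1 h3)))⟩
noncomputable def sw3k_12_vccc : Sl_vccc sw3k_12 := ⟨_, fun h1 h2 h3 h4 => (pr_cmul h3 h1)⟩
noncomputable def sw3k_20_vccc : Sl_vccc sw3k_20 := ⟨_, fun h1 h2 h3 h4 => (pr_scale 3 4 (pr_mul (pr_norm (sw3k_12_vccc.snd h1 h2 h3 h4)) (pr_nd (pr_inv (pr_cadd (enc_pnc _ 1) (qw_vc.snd h1 h3))))))⟩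
noncomputable def sw3k_25_vccc : Sl_vccc sw3k_25 := ⟨_, fun h1 h2 h3 h4 => (pr_cmul (enc_scale 109997 100000 (enc_sqrt (enc_pnc _ 3))) (pr_norm (sw3k_8_vccc.snd h1 h2 h3 h4)))⟩
noncomputable def sw3k_vccc : Sl_vccc sw3k := ⟨_, fun h1 h2 h3 h4 => (pr_norm (pr_case (pr_subc (pr_neg h1) (enc_scale 2 5 h2)) (pr_mul (pr_norm (pr_sub (pr_sub (pr_scale 3 4 (pr_mul (pr_norm (pr_mul (pr_norm (sw3k_8_vccc.snd h1 h2 h3 h4)) (pr_nd (ic3_vc.snd h1 h3)))) (pr_norm (pr_cadd (enc_pnc _ 1) (pr_mul (pr_norm (sw3k_12_vccc.snd h1 h2 h3 h4)) (pr_norm (sw3k_25_vccc.snd h1 h2 h3 h4))))))) (pr_scale 3 2 (sw3k_25_vccc.snd h1 h2 h3 h4))) (pr_sub (sw3k_20_vccc.snd h1 h2 h3 h4) (pr_scale 8553 5000 (pr_csub (enc_rat _ 3 2) (pr_mul (pr_norm (sw3k_12_vccc.snd h1 h2 h3 h4)) (pr_norm (sw3k_20_vccc.snd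 h1 h2 h3 h4)))))))) (pr_nd (pr_inv (pr_sub (dd3_vc.snd h1 h3) (sw3k_20_vccc.snd h1 h2 h3 h4))))) (pr_mul (pr_norm (pr_sub (k3m_vccc.snd h1 h2 h3 h4) (kwl_vccc.snd h1 h2 h3 h4))) (pr_nd (pr_inv (pr_sub (xi3_vc.snd h1 h3) (xiw_vc.snd h1 h3)))))))⟩
noncomputable def tkQW3_zn_zvvvccc : Sl_zvvvccc tkQW3_zn := ⟨_, fun h1 z1 h2 h3 h4 h5 h6 h7 => (pr_norm (pr_sub (pr_mz z1 h1 (sw3k_vccc.snd h3 h5 h6 h7)) (k3m_vccc.snd h3 h5 h6 h7)))⟩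
noncomputable def k1m_tn_zvvvccc : Sl_zvvvccc k1m_tn := ⟨_, fun h1 z1 h2 h3 h4 h5 h6 h7 => (pr_neg (k1m_vccc.snd h4 h5 h6 h7))⟩
noncomputable def qa3_vccc : Sl_vccc qa3 := ⟨_, fun h1 h2 h3 h4 => (pr_norm (pr_case (pr_subc (pr_neg h1) (enc_scale 5 2 h2)) (pr_const (enc_pnc _ 0)) (pr_mul (xwl_vccc.snd h1 h2 h3 h4) (pr_nd (pr_inv (pr_sub (xi3_vc.snd h1 h3) (xiw_vc.snd h1 h3)))))))⟩
noncomputable def taQW3_zn_zvvvccc : Sl_zvvvccc taQW3_zn := ⟨_, fun h1 z1 h2 h3 h4 h5 h6 h7 => (pr_norm (pr_neg (pr_mz z1 h1 (qa3_vccc.snd h3 h5 h6 h7))))⟩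
noncomputable def qb3_vccc : Sl_vccc qb3 := ⟨_, fun h1 h2 h3 h4 => (pr_norm (pr_case (pr_subc (pr_neg (sg3_vc.snd h1 h3)) (enc_scale 167 50 h2)) (pr_const (enc_pnc _ 0)) (pr_mul (pr_nd (l3m_vccc.snd h1 h2 h3 h4)) (pr_nd (pr_inv (pr_sub (xi3_vc.snd h1 h3) (xiw_vc.snd h1 h3)))))))⟩
noncomputable def tcQW3_zn_zvvvccc : Sl_zvvvccc tcQW3_zn := ⟨_, fun h1 z1 h2 h3 h4 h5 h6 h7 => (pr_norm (pr_sub (pr_mz z1 h1 (qb3_vccc.snd h3 h5 h6 h7)) (l3m_vccc.snd h3 h5 h6 h7)))⟩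
noncomputable def l1m_tn_zvvvccc : Sl_zvvvccc l1m_tn := ⟨_, fun h1 z1 h2 h3 h4 h5 h6 h7 => (pr_neg (l1m_vccc.snd h4 h5 h6 h7))⟩
noncomputable def bs_T2_BP1mn_vvvccc : Sl_vvvccc bs_T2_BP1mn := ⟨_, fun h1 h2 h3 h4 h5 h6 => (pr_norm (pr_neg (pr_cmul (n1f.enc h6) (pr_norm (pr_half (pr_sub (pr_mul (om_vc.snd h1 h5) (pr_norm (pr_cadd (enc_pnc _ 1) (pr_cmul h5 h3)))) (pr_mul (xi1_vc.snd h3 h5) h1)))))))⟩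
noncomputable def sw3b_8_vccc : Sl_vccc sw3b_8 := ⟨_, fun h1 h2 h3 h4 => (pr_cadd (enc_rat _ 1 2) (pr_scale 1 3 (dd3_vc.snd h1 h3)))⟩
noncomputable def sw3b_12_vccc : Sl_vccc sw3b_12 := ⟨_, fun h1 h2 h3 h4 => (pr_cmul h3 h1)⟩
noncomputable def sw3b_20_vccc : Sl_vccc sw3b_20 := ⟨_, fun h1 h2 h3 h4 => (pr_scale 3 4 (pr_mul (pr_norm (sw3b_12_vccc.snd h1 h2 h3 h4)) (pr_nd (pr_inv (pr_cadd (enc_pnc _ 1) (qw_vc.snd h1 h3))))))⟩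
noncomputable def sw3b_25_vccc : Sl_vccc sw3b_25 := ⟨_, fun h1 h2 h3 h4 => (pr_cmul (u1b.enc h4) (pr_norm (sw3b_8_vccc.snd h1 h2 h3 h4)))⟩
noncomputable def sw3b_vccc : Sl_vccc sw3b := ⟨_, fun h1 h2 h3 h4 => (pr_norm (pr_case (pr_subc (pr_neg h1) (enc_scale 2 5 h2)) (pr_mul (pr_norm (pr_sub (pr_add (pr_scale 3 2 (sw3b_25_vccc.snd h1 h2 h3 h4)) (pr_scale 3 4 (pr_mul (pr_norm (pr_mul (pr_norm (sw3b_8_vccc.snd h1 h2 h3 h4)) (pr_nd (ic3_vc.snd h1 h3)))) (pr_norm (pr_csub (b0f.enc h4) (pr_mul (pr_norm (sw3b_12_vccc.snd h1 h2 h3 h4)) (pr_norm (sw3b_25_vccc.snd h1 h2 h3 h4)))))))) (pr_add (pr_cmul (b0f.enc h4) (pr_norm (sw3b_20_vccc.snd h1 h2 h3 h4))) (pr_scale 143543 10000 (pr_csub (enc_rat _ 3 2) (pr_mul (pr_norm (sw3b_12_vccc.snd h1 h2 h3 h4)) (pr_norm (sw3b_20_vccc.snd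 h1 h2 h3 h4)))))))) (pr_nd (pr_inv (pr_sub (dd3_vc.snd h1 h3) (sw3b_20_vccc.snd h1 h2 h3 h4))))) (pr_mul (pr_norm (pr_sub (b3m_vccc.snd h1 h2 h3 h4) (bwl_vccc.snd h1 h2 h3 h4))) (pr_nd (pr_inv (pr_sub (xi3_vc.snd h1 h3) (xiw_vc.snd h1 h3)))))))⟩
noncomputable def tbQW3_zn_zvvvccc : Sl_zvvvccc tbQW3_zn := ⟨_, fun h1 z1 h2 h3 h4 h5 h6 h7 => (pr_norm (pr_sub (pr_mz z1 h1 (sw3b_vccc.snd h3 h5 h6 h7)) (b3m_vccc.snd h3 h5 h6 h7)))⟩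
noncomputable def ntkQW3_zn_zvvvccc : Sl_zvvvccc ntkQW3_zn := ⟨_, fun h1 z1 h2 h3 h4 h5 h6 h7 => (nkf_cvv.snd h7 (tkQW3_zn_zvvvccc.snd h1 z1 h2 h3 h4 h5 h6 h7) (tbQW3_zn_zvvvccc.snd h1 z1 h2 h3 h4 h5 h6 h7))⟩
noncomputable def b1m_tn_vvvvccc : Sl_vvvvccc b1m_tn := ⟨_, fun h1 h2 h3 h4 h5 h6 h7 => (pr_neg (b1m_vccc.snd h4 h5 h6 h7))⟩
noncomputable def k1m_tn_vvvvccc : Sl_vvvvccc k1m_tn := ⟨_, fun h1 h2 h3 h4 h5 h6 h7 => (pr_neg (k1m_vccc.snd h4 h5 h6 h7))⟩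
noncomputable def nk1m_tn_zvvvccc : Sl_zvvvccc nk1m_tn := ⟨_, fun h1 z1 h2 h3 h4 h5 h6 h7 => (nkf_cvv.snd h7 (pr_nd (k1m_tn_vvvvccc.snd h1 h2 h3 h4 h5 h6 h7)) (pr_nd (b1m_tn_vvvvccc.snd h1 h2 h3 h4 h5 h6 h7)))⟩
noncomputable def u_T2_B_P1p_Q6W_vvcc : Sl_vvcc u_T2_B_P1p_Q6W := ⟨_, fun h1 h2 h3 h4 => (pr_norm (pr_sub (xiw_vc.snd h2 h4) (pr_add (zx_vc.snd h1 h4) (xi1_vc.snd (pr_norm (pr_add h1 h2)) h4))))⟩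
noncomputable def bs_T2_BP1pf_vvvccc : Sl_vvvccc bs_T2_BP1pf := ⟨_, fun h1 h2 h3 h4 h5 h6 => (pr_norm (pr_neg (pr_half (pr_sub (pr_mul (om_vc.snd h1 h5) (pr_norm (pr_cadd (enc_pnc _ 1) (pr_cmul h5 h3)))) (pr_mul (xi1_vc.snd h3 h5) h1)))))⟩
noncomputable def t2k_vc : Sl_vc t2k := ⟨_, fun h1 h2 => (pr_norm (pr_add (pr_csub (enc_rat _ 1857 10000) (pr_scale 287 200 h1)) (pr_scale 1 400 (pr_posh (pr_subr 1 25 h1)))))⟩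
noncomputable def s_6Wk_11_vccc : Sl_vccc s_6Wk_11 := ⟨_, fun h1 h2 h3 h4 => (pr_scale 2 5 (dwl_vc.snd h1 h3))⟩
noncomputable def s_6Wk_vccc : Sl_vccc s_6Wk := ⟨_, fun h1 h2 h3 h4 => (pr_norm (pr_mul (pr_norm (pr_sub (pr_cadd (enc_rat _ 3 2) (pr_cmul h3 (kwl_vccc.snd h1 h2 h3 h4))) (pr_mul (pr_norm (pr_sub (pr_cadd (enc_rat _ 3 2) (pr_cmul h3 (xiw_vc.snd h1 h3))) (s_6Wk_11_vccc.snd h1 h2 h3 h4))) (t2k_vc.snd (pr_norm (pr_neg (pr_cmul h3 h1))) h4)))) (pr_nd (pr_inv (s_6Wk_11_vccc.snd h1 h2 h3 h4)))))⟩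
noncomputable def tkQ6W_zn_zvvvccc : Sl_zvvvccc tkQ6W_zn := ⟨_, fun h1 z1 h2 h3 h4 h5 h6 h7 => (pr_norm (pr_sub (pr_mz z1 h1 (s_6Wk_vccc.snd h3 h5 h6 h7)) (kwl_vccc.snd h3 h5 h6 h7)))⟩
noncomputable def k1p_tn_zvvvccc : Sl_zvvvccc k1p_tn := ⟨_, fun h1 z1 h2 h3 h4 h5 h6 h7 => (pr_neg (k1p_vccc.snd h4 h5 h6 h7))⟩
noncomputable def t2x_vc : Sl_vc t2x := ⟨_, fun h1 h2 => (pr_norm (pr_add (pr_cadd (enc_subr 102219 100000 (enc_neg (enc_scale 77 25 h2))) (pr_mulc h1 (enc_norm (enc_sub (enc_rat _ 2437 1000) (enc_scale 1191 20 h2))))) (pr_mulc (pr_nd (pr_posh (pr_subr 1 25 h1))) (enc_norm (enc_subr 1297 800 (enc_scale 1853 20 h2))))))⟩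
noncomputable def s_6Wx_11_vccc : Sl_vccc s_6Wx_11 := ⟨_, fun h1 h2 h3 h4 => (pr_scale 2 5 (dwl_vc.snd h1 h3))⟩
noncomputable def s_6Wx_vccc : Sl_vccc s_6Wx := ⟨_, fun h1 h2 h3 h4 => (pr_norm (pr_mul (pr_norm (pr_sub (pr_cmul h3 (xwl_vccc.snd h1 h2 h3 h4)) (pr_cmul (lmf.enc h4) (pr_norm (pr_addc (pr_mul (pr_norm (pr_sub (pr_cadd (enc_rat _ 3 2) (pr_cmul h3 (xiw_vc.snd h1 h3))) (s_6Wx_11_vccc.snd h1 h2 h3 h4))) (t2x_vc.snd (pr_norm (pr_neg (pr_cmul h3 h1))) h4)) (enc_rat _ 3 2)))))) (pr_nd (pr_inv (s_6Wx_11_vccc.snd h1 h2 h3 h4)))))⟩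
noncomputable def taQ6W_zn_zvvvccc : Sl_zvvvccc taQ6W_zn := ⟨_, fun h1 z1 h2 h3 h4 h5 h6 h7 => (pr_norm (pr_sub (pr_mz z1 h1 (s_6Wx_vccc.snd h3 h5 h6 h7)) (xwl_vccc.snd h3 h5 h6 h7)))⟩
noncomputable def l1p_tn_zvvvccc : Sl_zvvvccc l1p_tn := ⟨_, fun h1 z1 h2 h3 h4 h5 h6 h7 => (pr_neg (l1p_vccc.snd h4 h5 h6 h7))⟩
noncomputable def bs_T2_BP1pn_vvvccc : Sl_vvvccc bs_T2_BP1pn := ⟨_, fun h1 h2 h3 h4 h5 h6 => (pr_norm (pr_neg (pr_cmul (n1f.enc h6) (pr_norm (pr_half (pr_sub (pr_mul (om_vc.snd h1 h5) (pr_norm (pr_cadd (enc_pnc _ 1) (pr_cmul h5 h3)))) (pr_mul (xi1_vc.snd h3 h5) h1)))))))⟩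
noncomputable def t2b_vc : Sl_vc t2b := ⟨_, fun h1 h2 => (pr_norm (pr_csub (enc_rat _ 14411 5000) (pr_scale 2957 200 h1)))⟩
noncomputable def s_6Wb_11_vccc : Sl_vccc s_6Wb_11 := ⟨_, fun h1 h2 h3 h4 => (pr_scale 2 5 (dwl_vc.snd h1 h3))⟩
noncomputable def s_6Wb_vccc : Sl_vccc s_6Wb := ⟨_, fun h1 h2 h3 h4 => (pr_norm (pr_mul (pr_norm (pr_sub (pr_cadd (enc_scale 3 2 (b0f.enc h4)) (pr_cmul h3 (bwl_vccc.snd h1 h2 h3 h4))) (pr_mul (pr_norm (pr_sub (pr_cadd (enc_rat _ 3 2) (pr_cmul h3 (xiw_vc.snd h1 h3))) (s_6Wb_11_vccc.snd h1 h2 h3 h4))) (t2b_vc.snd (pr_norm (pr_neg (pr_cmul h3 h1))) h4)))) (pr_nd (pr_inv (s_6Wb_11_vccc.snd h1 h2 h3 h4)))))⟩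
noncomputable def tbQ6W_zn_zvvvccc : Sl_zvvvccc tbQ6W_zn := ⟨_, fun h1 z1 h2 h3 h4 h5 h6 h7 => (pr_norm (pr_sub (pr_mz z1 h1 (s_6Wb_vccc.snd h3 h5 h6 h7)) (bwl_vccc.snd h3 h5 h6 h7)))⟩
noncomputable def ntkQ6W_zn_zvvvccc : Sl_zvvvccc ntkQ6W_zn := ⟨_, fun h1 z1 h2 h3 h4 h5 h6 h7 => (nkf_cvv.snd h7 (tkQ6W_zn_zvvvccc.snd h1 z1 h2 h3 h4 h5 h6 h7) (tbQ6W_zn_zvvvccc.snd h1 z1 h2 h3 h4 h5 h6 h7))⟩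
noncomputable def b1p_tn_vvvvccc : Sl_vvvvccc b1p_tn := ⟨_, fun h1 h2 h3 h4 h5 h6 h7 => (pr_neg (b1p_vccc.snd h4 h5 h6 h7))⟩
noncomputable def k1p_tn_vvvvccc : Sl_vvvvccc k1p_tn := ⟨_, fun h1 h2 h3 h4 h5 h6 h7 => (pr_neg (k1p_vccc.snd h4 h5 h6 h7))⟩
noncomputable def nk1p_tn_zvvvccc : Sl_zvvvccc nk1p_tn := ⟨_, fun h1 z1 h2 h3 h4 h5 h6 h7 => (nkf_cvv.snd h7 (pr_nd (k1p_tn_vvvvccc.snd h1 h2 h3 h4 h5 h6 h7)) (pr_nd (b1p_tn_vvvvccc.snd h1 h2 h3 h4 h5 h6 h7)))⟩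
noncomputable def u_T2_B_P1p_Q63_vvcc : Sl_vvcc u_T2_B_P1p_Q63 := ⟨_, fun h1 h2 h3 h4 => (pr_norm (pr_sub (xi3_vc.snd h2 h4) (pr_add (zx_vc.snd h1 h4) (xi1_vc.snd (pr_norm (pr_add h1 h2)) h4))))⟩
noncomputable def t6k_vc : Sl_vc t6k := ⟨_, fun h1 h2 => (pr_norm (pr_csub (enc_rat _ 357 625) (pr_scale 13 50 h1)))⟩
noncomputable def s_63k_10_vccc : Sl_vccc s_63k_10 := ⟨_, fun h1 h2 h3 h4 => (pr_scale 2 5 (dwu_vc.snd h1 h3))⟩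
noncomputable def s_63k_vccc : Sl_vccc s_63k := ⟨_, fun h1 h2 h3 h4 => (pr_norm (pr_mul (pr_norm (pr_sub (pr_cadd (enc_rat _ 3 2) (pr_cmul h3 (k3p_vccc.snd h1 h2 h3 h4))) (pr_mul (pr_norm (pr_sub (pr_cadd (enc_rat _ 3 2) (pr_cmul h3 (xi3_vc.snd h1 h3))) (s_63k_10_vccc.snd h1 h2 h3 h4))) (t6k_vc.snd (pr_norm (pr_cmul h3 h1)) h4)))) (pr_nd (pr_inv (s_63k_10_vccc.snd h1 h2 h3 h4)))))⟩
noncomputable def tkQ63_zn_zvvvccc : Sl_zvvvccc tkQ63_zn := ⟨_, fun h1 z1 h2 h3 h4 h5 h6 h7 => (pr_norm (pr_sub (pr_mz z1 h1 (s_63k_vccc.snd h3 h5 h6 h7)) (k3p_vccc.snd h3 h5 h6 h7)))⟩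
noncomputable def t6x_vc : Sl_vc t6x := ⟨_, fun h1 h2 => (pr_norm (pr_add (pr_cadd (enc_subr 20753 20000 (enc_neg (enc_scale 727 250 h2))) (pr_mulc h1 (enc_norm (enc_subr 1407 4000 (enc_scale 1593 40 h2))))) (pr_mulc (pr_nd (pr_posh (pr_subr 1 25 h1))) (enc_norm (enc_sub (enc_rat _ 1451 4000) (enc_scale 1293 20 h2))))))⟩
noncomputable def s_63x_10_vccc : Sl_vccc s_63x_10 := ⟨_, fun h1 h2 h3 h4 => (pr_scale 2 5 (dwu_vc.snd h1 h3))⟩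
noncomputable def s_63x_vccc : Sl_vccc s_63x := ⟨_, fun h1 h2 h3 h4 => (pr_norm (pr_neg (pr_mul (pr_norm (pr_cmul (lmf.enc h4) (pr_norm (pr_addc (pr_mul (pr_norm (pr_sub (pr_cadd (enc_rat _ 3 2) (pr_cmul h3 (xi3_vc.snd h1 h3))) (s_63x_10_vccc.snd h1 h2 h3 h4))) (t6x_vc.snd (pr_norm (pr_cmul h3 h1)) h4)) (enc_rat _ 3 2))))) (pr_nd (pr_inv (s_63x_10_vccc.snd h1 h2 h3 h4))))))⟩
noncomputable def taQ63_zn_zvvvccc : Sl_zvvvccc taQ63_zn := ⟨_, fun h1 z1 h2 h3 h4 h5 h6 h7 => (pr_norm (pr_mz z1 h1 (s_63x_vccc.snd h3 h5 h6 h7)))⟩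
noncomputable def tcQ63_zn_zvvvccc : Sl_zvvvccc tcQ63_zn := ⟨_, fun h1 z1 h2 h3 h4 h5 h6 h7 => (pr_norm (pr_sub (pr_mz z1 h1 (pr_norm (pr_mul (pr_norm (pr_cmul h6 (pr_nd (l3p_vccc.snd h3 h5 h6 h7)))) (pr_nd (pr_inv (pr_scale 2 5 (dwu_vc.snd h3 h6))))))) (l3p_vccc.snd h3 h5 h6 h7)))⟩
noncomputable def t6b_vc : Sl_vc t6b := ⟨_, fun h1 h2 => (pr_norm (pr_add (pr_csub (enc_rat _ 13217 10000) (pr_scale 2221 400 h1)) (pr_scale 1 400 (pr_posh (pr_subr 1 25 h1)))))⟩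
noncomputable def s_63b_10_vccc : Sl_vccc s_63b_10 := ⟨_, fun h1 h2 h3 h4 => (pr_scale 2 5 (dwu_vc.snd h1 h3))⟩
noncomputable def s_63b_vccc : Sl_vccc s_63b := ⟨_, fun h1 h2 h3 h4 => (pr_norm (pr_mul (pr_norm (pr_sub (pr_cadd (enc_scale 3 2 (b0f.enc h4)) (pr_cmul h3 (b3p_vccc.snd h1 h2 h3 h4))) (pr_mul (pr_norm (pr_sub (pr_cadd (enc_rat _ 3 2) (pr_cmul h3 (xi3_vc.snd h1 h3))) (s_63b_10_vccc.snd h1 h2 h3 h4))) (t6b_vc.snd (pr_norm (pr_cmul h3 h1)) h4)))) (pr_nd (pr_inv (s_63b_10_vccc.snd h1 h2 h3 h4)))))⟩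
noncomputable def tbQ63_zn_zvvvccc : Sl_zvvvccc tbQ63_zn := ⟨_, fun h1 z1 h2 h3 h4 h5 h6 h7 => (pr_norm (pr_sub (pr_mz z1 h1 (s_63b_vccc.snd h3 h5 h6 h7)) (b3p_vccc.snd h3 h5 h6 h7)))⟩
noncomputable def ntkQ63_zn_zvvvccc : Sl_zvvvccc ntkQ63_zn := ⟨_, fun h1 z1 h2 h3 h4 h5 h6 h7 => (nkf_cvv.snd h7 (tkQ63_zn_zvvvccc.snd h1 z1 h2 h3 h4 h5 h6 h7) (tbQ63_zn_zvvvccc.snd h1 z1 h2 h3 h4 h5 h6 h7))⟩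
noncomputable def u_T2_B_PW_Q6W_vvcc : Sl_vvcc u_T2_B_PW_Q6W := ⟨_, fun h1 h2 h3 h4 => (pr_norm (pr_sub (xiw_vc.snd h2 h4) (pr_add (zx_vc.snd h1 h4) (xiw_vc.snd (pr_norm (pr_add h1 h2)) h4))))⟩
noncomputable def bs_T2_BPWf_vvvccc : Sl_vvvccc bs_T2_BPWf := ⟨_, fun h1 h2 h3 h4 h5 h6 => (pr_norm (pr_neg (pr_half (pr_sub (pr_mul (om_vc.snd h1 h5) (pr_norm (pr_cadd (enc_pnc _ 1) (pr_cmul h5 h3)))) (pr_mul (xiw_vc.snd h3 h5) h1)))))⟩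
noncomputable def kwu_tn_zvvvccc : Sl_zvvvccc kwu_tn := ⟨_, fun h1 z1 h2 h3 h4 h5 h6 h7 => (pr_neg (kwu_vccc.snd h4 h5 h6 h7))⟩
noncomputable def xwu_tn_zvvvccc : Sl_zvvvccc xwu_tn := ⟨_, fun h1 z1 h2 h3 h4 h5 h6 h7 => (pr_neg (xwu_vccc.snd h4 h5 h6 h7))⟩
noncomputable def bs_T2_BPWn_vvvccc : Sl_vvvccc bs_T2_BPWn := ⟨_, fun h1 h2 h3 h4 h5 h6 => (pr_norm (pr_neg (pr_cmul (n1f.enc h6) (pr_norm (pr_half (pr_sub (pr_mul (om_vc.snd h1 h5) (pr_norm (pr_cadd (enc_pnc _ 1) (pr_cmul h5 h3)))) (pr_mul (xiw_vc.snd h3 h5) h1)))))))⟩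
noncomputable def bwu_tn_vvvvccc : Sl_vvvvccc bwu_tn := ⟨_, fun h1 h2 h3 h4 h5 h6 h7 => (pr_neg (bwu_vccc.snd h4 h5 h6 h7))⟩
noncomputable def kwu_tn_vvvvccc : Sl_vvvvccc kwu_tn := ⟨_, fun h1 h2 h3 h4 h5 h6 h7 => (pr_neg (kwu_vccc.snd h4 h5 h6 h7))⟩
noncomputable def nkwu_tn_zvvvccc : Sl_zvvvccc nkwu_tn := ⟨_, fun h1 z1 h2 h3 h4 h5 h6 h7 => (nkf_cvv.snd h7 (pr_nd (kwu_tn_vvvvccc.snd h1 h2 h3 h4 h5 h6 h7)) (pr_nd (bwu_tn_vvvvccc.snd h1 h2 h3 h4 h5 h6 h7)))⟩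
noncomputable def u_T2_B_PW_Q63_vvcc : Sl_vvcc u_T2_B_PW_Q63 := ⟨_, fun h1 h2 h3 h4 => (pr_norm (pr_sub (xi3_vc.snd h2 h4) (pr_add (zx_vc.snd h1 h4) (xiw_vc.snd (pr_norm (pr_add h1 h2)) h4))))⟩
noncomputable def u_T2p_A_P1p_Q63_vvcc : Sl_vvcc u_T2p_A_P1p_Q63 := ⟨_, fun h1 h2 h3 h4 => (pr_norm (pr_sub (xi3_vc.snd (pr_norm (pr_add h1 h2)) h4) (pr_add (zx_vc.snd h1 h4) (xi1_vc.snd h2 h4))))⟩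
noncomputable def nff_T2p_vvc : Sl_vvc nff_T2p := ⟨_, fun h1 h2 h3 => (pr_norm (pr_sub (pr_scale 3 2 h1) h2))⟩
noncomputable def nuf_T2p_vvc : Sl_vvc nuf_T2p := ⟨_, fun h1 h2 h3 => (pr_norm (pr_scale 3 2 (pr_sub h2 (pr_scale 3 2 h1))))⟩
noncomputable def bs_T2p_AP1pf_vvvccc : Sl_vvvccc bs_T2p_AP1pf := ⟨_, fun h1 h2 h3 h4 h5 h6 => (pr_norm (pr_neg (pr_half (pr_add (pr_mul (om_vc.snd h1 h5) (pr_norm (pr_cadd (enc_pnc _ 1) (pr_cmul h5 h3)))) (pr_mul (pr_norm (pr_add (zx_vc.snd h1 h5) (xi1_vc.snd h2 h5))) h1)))))⟩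
noncomputable def k1p_zp_zvvvccc : Sl_zvvvccc k1p_zp := ⟨_, fun h1 z1 h2 h3 h4 h5 h6 h7 => (k1p_vccc.snd h3 h5 h6 h7)⟩
noncomputable def tkQ63_tp_zvvvccc : Sl_zvvvccc tkQ63_tp := ⟨_, fun h1 z1 h2 h3 h4 h5 h6 h7 => (pr_norm (pr_sub (k3p_vccc.snd h4 h5 h6 h7) (pr_mz z1 h1 (s_63k_vccc.snd h4 h5 h6 h7))))⟩
noncomputable def taQ63_tp_zvvvccc : Sl_zvvvccc taQ63_tp := ⟨_, fun h1 z1 h2 h3 h4 h5 h6 h7 => (pr_norm (pr_neg (pr_mz z1 h1 (s_63x_vccc.snd h4 h5 h6 h7))))⟩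
noncomputable def l1p_zp_zvvvccc : Sl_zvvvccc l1p_zp := ⟨_, fun h1 z1 h2 h3 h4 h5 h6 h7 => (l1p_vccc.snd h3 h5 h6 h7)⟩
noncomputable def tcQ63_tp_zvvvccc : Sl_zvvvccc tcQ63_tp := ⟨_, fun h1 z1 h2 h3 h4 h5 h6 h7 => (pr_norm (pr_sub (l3p_vccc.snd h4 h5 h6 h7) (pr_mz z1 h1 (pr_norm (pr_mul (pr_norm (pr_cmul h6 (pr_nd (l3p_vccc.snd h4 h5 h6 h7)))) (pr_nd (pr_inv (pr_scale 2 5 (dwu_vc.snd h4 h6)))))))))⟩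
noncomputable def nfn_T2p_vvc : Sl_vvc nfn_T2p := ⟨_, fun h1 h2 h3 => (pr_norm (pr_neg (pr_cmul (bef.enc h3) (pr_norm (pr_sub h2 (pr_scale 3 2 h1))))))⟩
noncomputable def nun_T2p_vvc : Sl_vvc nun_T2p := ⟨_, fun h1 h2 h3 => (pr_norm (pr_cmul (enc_norm (enc_add (enc_rat _ 1 2) (bef.enc h3))) (pr_norm (pr_sub h2 (pr_scale 3 2 h1)))))⟩
noncomputable def bs_T2p_AP1pn_vvvccc : Sl_vvvccc bs_T2p_AP1pn := ⟨_, fun h1 h2 h3 h4 h5 h6 => (pr_norm (pr_neg (pr_cmul (n1f.enc h6) (pr_norm (pr_half (pr_add (pr_mul (om_vc.snd h1 h5) (pr_norm (pr_cadd (enc_pnc _ 1) (pr_cmul h5 h3)))) (pr_mul (pr_norm (pr_add (zx_vc.snd h1 h5) (xi1_vc.snd h2 h5))) h1)))))))⟩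
noncomputable def b1p_zp_vvvvccc : Sl_vvvvccc b1p_zp := ⟨_, fun h1 h2 h3 h4 h5 h6 h7 => (b1p_vccc.snd h3 h5 h6 h7)⟩
noncomputable def k1p_zp_vvvvccc : Sl_vvvvccc k1p_zp := ⟨_, fun h1 h2 h3 h4 h5 h6 h7 => (k1p_vccc.snd h3 h5 h6 h7)⟩
noncomputable def nk1p_zp_zvvvccc : Sl_zvvvccc nk1p_zp := ⟨_, fun h1 z1 h2 h3 h4 h5 h6 h7 => (nkf_cvv.snd h7 (pr_nd (k1p_zp_vvvvccc.snd h1 h2 h3 h4 h5 h6 h7)) (pr_nd (b1p_zp_vvvvccc.snd h1 h2 h3 h4 h5 h6 h7)))⟩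
noncomputable def tbQ63_tp_zvvvccc : Sl_zvvvccc tbQ63_tp := ⟨_, fun h1 z1 h2 h3 h4 h5 h6 h7 => (pr_norm (pr_sub (b3p_vccc.snd h4 h5 h6 h7) (pr_mz z1 h1 (s_63b_vccc.snd h4 h5 h6 h7))))⟩
noncomputable def ntkQ63_tp_zvvvccc : Sl_zvvvccc ntkQ63_tp := ⟨_, fun h1 z1 h2 h3 h4 h5 h6 h7 => (nkf_cvv.snd h7 (tkQ63_tp_zvvvccc.snd h1 z1 h2 h3 h4 h5 h6 h7) (tbQ63_tp_zvvvccc.snd h1 z1 h2 h3 h4 h5 h6 h7))⟩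
noncomputable def u_T2p_B_Q3p_P1W_vvcc : Sl_vvcc u_T2p_B_Q3p_P1W := ⟨_, fun h1 h2 h3 h4 => (pr_norm (pr_sub (pr_sub (xi3_vc.snd (pr_norm (pr_add h1 h2)) h4) (zx_vc.snd h1 h4)) (xi1_vc.snd h2 h4)))⟩
noncomputable def bs_T2p_BQ3pf_vvvccc : Sl_vvvccc bs_T2p_BQ3pf := ⟨_, fun h1 h2 h3 h4 h5 h6 => (pr_norm (pr_neg (pr_half (pr_add (pr_mul (om_vc.snd h1 h5) (pr_norm (pr_cadd (enc_pnc _ 1) (pr_cmul h5 h3)))) (pr_mul (xi3_vc.snd h3 h5) h1)))))⟩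
noncomputable def tkP1W_zp_zvvvccc : Sl_zvvvccc tkP1W_zp := ⟨_, fun h1 z1 h2 h3 h4 h5 h6 h7 => (pr_norm (pr_add (k1p_vccc.snd h3 h5 h6 h7) (pr_mz z1 h1 (s1wk_vccc.snd h3 h5 h6 h7))))⟩
noncomputable def k3p_tp_zvvvccc : Sl_zvvvccc k3p_tp := ⟨_, fun h1 z1 h2 h3 h4 h5 h6 h7 => (k3p_vccc.snd h4 h5 h6 h7)⟩
noncomputable def taP1W_zp_zvvvccc : Sl_zvvvccc taP1W_zp := ⟨_, fun h1 z1 h2 h3 h4 h5 h6 h7 => (pr_norm (pr_mz z1 h1 (qa1_vccc.snd h3 h5 h6 h7)))⟩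
noncomputable def tcP1W_zp_zvvvccc : Sl_zvvvccc tcP1W_zp := ⟨_, fun h1 z1 h2 h3 h4 h5 h6 h7 => (pr_norm (pr_sub (l1p_vccc.snd h3 h5 h6 h7) (pr_mz z1 h1 (qb1_vccc.snd h3 h5 h6 h7))))⟩
noncomputable def l3p_tp_zvvvccc : Sl_zvvvccc l3p_tp := ⟨_, fun h1 z1 h2 h3 h4 h5 h6 h7 => (l3p_vccc.snd h4 h5 h6 h7)⟩
noncomputable def bs_T2p_BQ3pn_vvvccc : Sl_vvvccc bs_T2p_BQ3pn := ⟨_, fun h1 h2 h3 h4 h5 h6 => (pr_norm (pr_neg (pr_cmul (n1f.enc h6) (pr_norm (pr_half (pr_add (pr_mul (om_vc.snd h1 h5) (pr_norm (pr_cadd (enc_pnc _ 1) (pr_cmul h5 h3)))) (pr_mul (xi3_vc.snd h3 h5) h1)))))))⟩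
noncomputable def tbP1W_zp_zvvvccc : Sl_zvvvccc tbP1W_zp := ⟨_, fun h1 z1 h2 h3 h4 h5 h6 h7 => (pr_norm (pr_add (b1p_vccc.snd h3 h5 h6 h7) (pr_mz z1 h1 (s1wb_vccc.snd h3 h5 h6 h7))))⟩
noncomputable def ntkP1W_zp_zvvvccc : Sl_zvvvccc ntkP1W_zp := ⟨_, fun h1 z1 h2 h3 h4 h5 h6 h7 => (nkf_cvv.snd h7 (tkP1W_zp_zvvvccc.snd h1 z1 h2 h3 h4 h5 h6 h7) (tbP1W_zp_zvvvccc.snd h1 z1 h2 h3 h4 h5 h6 h7))⟩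
noncomputable def b3p_tp_vvvvccc : Sl_vvvvccc b3p_tp := ⟨_, fun h1 h2 h3 h4 h5 h6 h7 => (b3p_vccc.snd h4 h5 h6 h7)⟩
noncomputable def k3p_tp_vvvvccc : Sl_vvvvccc k3p_tp := ⟨_, fun h1 h2 h3 h4 h5 h6 h7 => (k3p_vccc.snd h4 h5 h6 h7)⟩
noncomputable def nk3p_tp_zvvvccc : Sl_zvvvccc nk3p_tp := ⟨_, fun h1 z1 h2 h3 h4 h5 h6 h7 => (nkf_cvv.snd h7 (pr_nd (k3p_tp_vvvvccc.snd h1 h2 h3 h4 h5 h6 h7)) (pr_nd (b3p_tp_vvvvccc.snd h1 h2 h3 h4 h5 h6 h7)))⟩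
noncomputable def u_T1_U_P1p_O1W_vvcc : Sl_vvcc u_T1_U_P1p_O1W := ⟨_, fun h1 h2 h3 h4 => (pr_norm (pr_sub (pr_add (xi1_vc.snd (pr_norm (pr_add h1 h2)) h4) (xi1_vc.snd h2 h4)) (zx_vc.snd h1 h4)))⟩
noncomputable def nu0_vvc : Sl_vvc nu0 := ⟨_, fun h1 h2 h3 => pr_const ((enc_pnc _ 0))⟩
noncomputable def bs_T1_Uf_vvvccc : Sl_vvvccc bs_T1_Uf := ⟨_, fun h1 h2 h3 h4 h5 h6 => (pr_norm (pr_sub (pr_half (pr_sub (pr_mul h3 (pr_norm (pr_add (xi1_vc.snd h3 h5) (xi1_vc.snd h2 h5)))) (pr_mul h1 (xi1_vc.snd h3 h5)))) (pr_half (pr_add (pr_add (pr_sq (xi1_vc.snd h3 h5)) (pr_sq (xi1_vc.snd h2 h5))) (pr_scale 3 4 (pr_add (pr_sq h3) (pr_sq h2)))))))⟩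
noncomputable def xw0p_vc : Sl_vc xw0p := ⟨_, fun h1 h2 => (pr_norm (pr_mul h1 (dd1_vc.snd (pr_nd (pr_neg h1)) h2)))⟩
noncomputable def kw0_vccc : Sl_vccc kw0 := ⟨_, fun h1 h2 h3 h4 => (pr_norm (pr_add (xw0p_vc.snd h1 h3) (pr_mul (pr_norm (pr_cadd (enc_pnc _ 1) (pr_cmul h3 (xw0p_vc.snd h1 h3)))) (pr_norm (pr_sub (pr_add (pr_add (pr_add (pr_scale 9207 2500 h1) (pr_mulc (pr_nd (pr_posh (pr_subc h1 (enc_half h2)))) (enc_norm (enc_subr 9207 2500 (kw0_10.enc h1.l h2 h3 h4))))) (pr_mulc (pr_nd (pr_posh (pr_subc h1 h2))) (enc_norm (enc_sub (enc_neg (kw0_11.enc h1.l h2 h3 h4)) (kw0_10.enc h1.l h2 h3 h4))))) (pr_mulc (pr_nd (pr_posh (pr_subc h1 (enc_scale 5 2 h2)))) (kw0_11.enc h1.l h2 h3 h4))) (pr_nat 6 h1))))))⟩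
noncomputable def s0wk_5_vccc : Sl_vccc s0wk_5 := ⟨_, fun h1 h2 h3 h4 => (dd1_vc.snd (pr_nd (pr_neg h1)) h3)⟩
noncomputable def s0wk_9_vccc : Sl_vccc s0wk_9 := ⟨_, fun h1 h2 h3 h4 => (pr_cmul h3 h1)⟩
noncomputable def s0wk_vccc : Sl_vccc s0wk := ⟨_, fun h1 h2 h3 h4 => (pr_norm (pr_case (pr_subc h1 (enc_scale 2 5 h2)) (pr_mul (pr_norm (pr_addc (pr_sub (s0wk_5_vccc.snd h1 h2 h3 h4) (pr_scale 5793 2500 (pr_cadd (enc_pnc _ 1) (pr_mul (pr_norm (s0wk_9_vccc.snd h1 h2 h3 h4)) (s0wk_5_vccc.snd h1 h2 h3 h4))))) (enc_scale 109997 100000 (enc_sqrt (enc_pnc _ 3))))) (pr_nd (pr_inv (pr_add (s0wk_5_vccc.snd h1 h2 h3 h4) (pr_scale 3 4 (pr_mul (pr_norm (s0wk_9_vccc.snd h1 h2 h3 h4)) (pr_nd (pr_inv (pr_cadd (enc_pnc _ 1) (qw_vc.snd h1 h3)))))))))) (pr_mul (pr_norm (pr_sub (kw0_vccc.snd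 h1 h2 h3 h4) (ku_vccc.snd h1 h2 h3 h4))) (pr_nd (pr_inv (pr_sub (xw0p_vc.snd h1 h3) (zx_vc.snd h1 h3)))))))⟩
noncomputable def tkO1W_wp_zvvvccc : Sl_zvvvccc tkO1W_wp := ⟨_, fun h1 z1 h2 h3 h4 h5 h6 h7 => (pr_norm (pr_add (ku_vccc.snd h2 h5 h6 h7) (pr_mz z1 h1 (s0wk_vccc.snd h2 h5 h6 h7))))⟩
noncomputable def xw0_vccc : Sl_vccc xw0 := ⟨_, fun h1 h2 h3 h4 => (pr_norm (pr_cmul (enc_scale 1 50 (lmf.enc h4)) (pr_nd (pr_posh (pr_subc h1 (enc_scale 5 2 h2))))))⟩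
noncomputable def qa0_vccc : Sl_vccc qa0 := ⟨_, fun h1 h2 h3 h4 => (pr_norm (pr_case (pr_subc h1 (enc_scale 5 2 h2)) (pr_const (enc_pnc _ 0)) (pr_mul (xw0_vccc.snd h1 h2 h3 h4) (pr_nd (pr_inv (pr_sub (xw0p_vc.snd h1 h3) (zx_vc.snd h1 h3)))))))⟩
noncomputable def taO1W_wp_zvvvccc : Sl_zvvvccc taO1W_wp := ⟨_, fun h1 z1 h2 h3 h4 h5 h6 h7 => (pr_norm (pr_mz z1 h1 (qa0_vccc.snd h2 h5 h6 h7)))⟩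
noncomputable def qb0_vccc : Sl_vccc qb0 := ⟨_, fun h1 h2 h3 h4 => (pr_norm (pr_case (pr_subc h1 (enc_scale 167 50 h2)) (pr_const (enc_pnc _ 0)) (pr_mul (lva_vccc.snd h1 h2 h3 h4) (pr_nd (pr_inv (pr_sub (xw0p_vc.snd h1 h3) (zx_vc.snd h1 h3)))))))⟩
noncomputable def tcO1W_wp_zvvvccc : Sl_zvvvccc tcO1W_wp := ⟨_, fun h1 z1 h2 h3 h4 h5 h6 h7 => (pr_norm (pr_sub (lva_vccc.snd h2 h5 h6 h7) (pr_mz z1 h1 (qb0_vccc.snd h2 h5 h6 h7))))⟩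
noncomputable def u_T1_U_P1p_O1w_vvcc : Sl_vvcc u_T1_U_P1p_O1w := ⟨_, fun h1 h2 h3 h4 => (pr_norm (pr_sub (xw0p_vc.snd h1 h4) (pr_add (xi1_vc.snd (pr_norm (pr_add h1 h2)) h4) (xi1_vc.snd h2 h4))))⟩
noncomputable def tkO1w_wp_vvvvccc : Sl_vvvvccc tkO1w_wp := ⟨_, fun h1 h2 h3 h4 h5 h6 h7 => (pr_norm (pr_sub (kw0_vccc.snd h2 h5 h6 h7) (pr_mul h1 (s0wk_vccc.snd h2 h5 h6 h7))))⟩
noncomputable def taO1w_wp_vvvvccc : Sl_vvvvccc taO1w_wp := ⟨_, fun h1 h2 h3 h4 h5 h6 h7 => (pr_norm (pr_sub (xw0_vccc.snd h2 h5 h6 h7) (pr_mul h1 (qa0_vccc.snd h2 h5 h6 h7))))⟩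
noncomputable def zr7_vvvvccc : Sl_vvvvccc zr7 := ⟨_, fun h1 h2 h3 h4 h5 h6 h7 => pr_const ((enc_pnc _ 0))⟩
noncomputable def tcO1w_wp_vvvvccc : Sl_vvvvccc tcO1w_wp := ⟨_, fun h1 h2 h3 h4 h5 h6 h7 => (pr_norm (pr_mul h1 (qb0_vccc.snd h2 h5 h6 h7)))⟩
noncomputable def l1m_zn_vvvvccc : Sl_vvvvccc l1m_zn := ⟨_, fun h1 h2 h3 h4 h5 h6 h7 => (pr_neg (l1m_vccc.snd h3 h5 h6 h7))⟩
noncomputable def l1p_tp_vvvvccc : Sl_vvvvccc l1p_tp := ⟨_, fun h1 h2 h3 h4 h5 h6 h7 => (l1p_vccc.snd h4 h5 h6 h7)⟩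
noncomputable def bs_T1_Un_vvvccc : Sl_vvvccc bs_T1_Un := ⟨_, fun h1 h2 h3 h4 h5 h6 => (pr_norm (pr_add (pr_cmul (n1f.enc h6) (pr_norm (pr_sub (pr_half (pr_sub (pr_mul h3 (pr_norm (pr_add (xi1_vc.snd h3 h5) (xi1_vc.snd h2 h5)))) (pr_mul h1 (xi1_vc.snd h3 h5)))) (pr_half (pr_add (pr_add (pr_sq (xi1_vc.snd h3 h5)) (pr_sq (xi1_vc.snd h2 h5))) (pr_scale 3 4 (pr_add (pr_sq h3) (pr_sq h2)))))))) (pr_cmul (enc_norm (enc_mul (enc_norm (enc_mul (mu.enc h6) (lmf.enc h6))) (enc_norm (enc_mul h4 (enc_norm (enc_mul (qo.enc h6) (enc_inv (enc_nat 2 (eh.enc h6))))))))) (pr_norm (pr_sub h3 (pr_half h1))))))⟩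
noncomputable def bw0_vccc : Sl_vccc bw0 := ⟨_, fun h1 h2 h3 h4 => (pr_norm (pr_add (pr_cmul (b0f.enc h4) (xw0p_vc.snd h1 h3)) (pr_mul (pr_norm (pr_cadd (enc_pnc _ 1) (pr_cmul h3 (xw0p_vc.snd h1 h3)))) (pr_norm (pr_add (pr_scale 25647 5000 h1) (pr_add (pr_add (pr_sub (pr_mulc (pr_nd (pr_posh (pr_subc h1 (enc_half h2)))) (enc_norm (enc_add (bw0_10.enc h1.l h2 h3 h4) (enc_rat _ 21201 5000)))) (pr_scale 21201 5000 h1)) (pr_mulc (pr_nd (pr_posh (pr_subc h1 h2))) (enc_norm (enc_sub (enc_neg (bw0_11.enc h1.l h2 h3 h4)) (bw0_10.enc h1.l h2 h3 h4))))) (pr_mulc (pr_nd (pr_posh (pr_subc h1 (enc_scale 5 2 h2)))) (bw0_11.enc h1.l h2 h3 h4))))))))⟩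
noncomputable def s0wb_5_vccc : Sl_vccc s0wb_5 := ⟨_, fun h1 h2 h3 h4 => (dd1_vc.snd (pr_nd (pr_neg h1)) h3)⟩
noncomputable def s0wb_9_vccc : Sl_vccc s0wb_9 := ⟨_, fun h1 h2 h3 h4 => (pr_cmul h3 h1)⟩
noncomputable def s0wb_vccc : Sl_vccc s0wb := ⟨_, fun h1 h2 h3 h4 => (pr_norm (pr_case (pr_subc h1 (enc_scale 2 5 h2)) (pr_mul (pr_norm (pr_subc (pr_add (pr_cmul (b0f.enc h4) (s0wb_5_vccc.snd h1 h2 h3 h4)) (pr_scale 2223 2500 (pr_cadd (enc_pnc _ 1) (pr_mul (pr_norm (s0wb_9_vccc.snd h1 h2 h3 h4)) (s0wb_5_vccc.snd h1 h2 h3 h4))))) (u1b.enc h4))) (pr_nd (pr_inv (pr_add (s0wb_5_vccc.snd h1 h2 h3 h4) (pr_scale 3 4 (pr_mul (pr_norm (s0wb_9_vccc.snd h1 h2 h3 h4)) (pr_nd (pr_inv (pr_cadd (enc_pnc _ 1) (qw_vc.snd h1 h3)))))))))) (pr_mul (pr_norm (pr_sub (bw0_vccc.snd h1 h2 h3 h4)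 (kv_vccc.snd h1 h2 h3 h4))) (pr_nd (pr_inv (pr_sub (xw0p_vc.snd h1 h3) (zx_vc.snd h1 h3)))))))⟩
noncomputable def tbO1W_wp_zvvvccc : Sl_zvvvccc tbO1W_wp := ⟨_, fun h1 z1 h2 h3 h4 h5 h6 h7 => (pr_norm (pr_add (kv_vccc.snd h2 h5 h6 h7) (pr_mz z1 h1 (s0wb_vccc.snd h2 h5 h6 h7))))⟩
noncomputable def ntkO1W_wp_zvvvccc : Sl_zvvvccc ntkO1W_wp := ⟨_, fun h1 z1 h2 h3 h4 h5 h6 h7 => (nkf_cvv.snd h7 (tkO1W_wp_zvvvccc.snd h1 z1 h2 h3 h4 h5 h6 h7) (tbO1W_wp_zvvvccc.snd h1 z1 h2 h3 h4 h5 h6 h7))⟩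
noncomputable def tbO1w_wp_vvvvccc : Sl_vvvvccc tbO1w_wp := ⟨_, fun h1 h2 h3 h4 h5 h6 h7 => (pr_norm (pr_sub (bw0_vccc.snd h2 h5 h6 h7) (pr_mul h1 (s0wb_vccc.snd h2 h5 h6 h7))))⟩
noncomputable def ntkO1w_wp_vvvvccc : Sl_vvvvccc ntkO1w_wp := ⟨_, fun h1 h2 h3 h4 h5 h6 h7 => (nkf_cvv.snd h7 (tkO1w_wp_vvvvccc.snd h1 h2 h3 h4 h5 h6 h7) (tbO1w_wp_vvvvccc.snd h1 h2 h3 h4 h5 h6 h7))⟩
noncomputable def nk1m_zn_vvvvccc : Sl_vvvvccc nk1m_zn := ⟨_, fun h1 h2 h3 h4 h5 h6 h7 => (nkf_cvv.snd h7 (pr_nd (k1m_zn_vvvvccc.snd h1 h2 h3 h4 h5 h6 h7)) (pr_nd (b1m_zn_vvvvccc.snd h1 h2 h3 h4 h5 h6 h7)))⟩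
noncomputable def nk1p_tp_vvvvccc : Sl_vvvvccc nk1p_tp := ⟨_, fun h1 h2 h3 h4 h5 h6 h7 => (nkf_cvv.snd h7 (pr_nd (k1p_tp_vvvvccc.snd h1 h2 h3 h4 h5 h6 h7)) (pr_nd (b1p_tp_vvvvccc.snd h1 h2 h3 h4 h5 h6 h7)))⟩
noncomputable def u_T1_U_P1m_OWq_vvcc : Sl_vvcc u_T1_U_P1m_OWq := ⟨_, fun h1 h2 h3 h4 => (pr_norm (pr_sub (pr_add (xi1_vc.snd (pr_norm (pr_add h1 h2)) h4) (xi1_vc.snd h2 h4)) (xw0p_vc.snd h1 h4)))⟩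
noncomputable def c3w_vc : Sl_vc c3w := ⟨_, fun h1 h2 => (pr_norm (pr_sub (pr_subn 1 (pr_sqrt (pr_csub (enc_pnc _ 3) (pr_scale 3 4 (pr_sq (pr_norm (pr_cmul h2 h1))))))) (pr_cmul h2 (xw0p_vc.snd h1 h2))))⟩
noncomputable def hbk_vc : Sl_vc hbk := ⟨_, fun h1 h2 => (pr_norm (pr_add (pr_sub (pr_add (pr_csub (enc_scale 8437 5000 h2) (pr_scale 41829 5000 h1)) (pr_scale 45263 2500 (pr_posh (pr_subc h1 (enc_half h2))))) (pr_scale 56611 5000 (pr_posh (pr_subc h1 h2)))) (pr_scale 3957 2500 (pr_posh (pr_subc h1 (enc_scale 5 2 h2))))))⟩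
noncomputable def swqk_vccc : Sl_vccc swqk := ⟨_, fun h1 h2 h3 h4 => (pr_norm (pr_mul (pr_norm (pr_sub (pr_case (pr_csub (enc_scale 5 2 h2) h1) (pr_const (enc_pnc _ 0)) (pr_scale 5 11 (pr_mulc (hbk_vc.snd h1 h2) (enc_inv h2)))) (pr_cadd (enc_pnc _ 1) (pr_cmul h3 (kw0_vccc.snd h1 h2 h3 h4))))) (pr_nd (pr_inv (c3w_vc.snd h1 h3)))))⟩
noncomputable def tkOWq_wp_zvvvccc : Sl_zvvvccc tkOWq_wp := ⟨_, fun h1 z1 h2 h3 h4 h5 h6 h7 => (pr_norm (pr_add (kw0_vccc.snd h2 h5 h6 h7) (pr_mz z1 h1 (swqk_vccc.snd h2 h5 h6 h7))))⟩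
noncomputable def tkOWq_wp_vvvvccc : Sl_vvvvccc tkOWq_wp := ⟨_, fun h1 h2 h3 h4 h5 h6 h7 => (pr_norm (pr_add (kw0_vccc.snd h2 h5 h6 h7) (pr_mul h1 (swqk_vccc.snd h2 h5 h6 h7))))⟩
noncomputable def k1m_tp_zvvvccc : Sl_zvvvccc k1m_tp := ⟨_, fun h1 z1 h2 h3 h4 h5 h6 h7 => (k1m_vccc.snd h4 h5 h6 h7)⟩
noncomputable def k1m_tp_vvvvccc : Sl_vvvvccc k1m_tp := ⟨_, fun h1 h2 h3 h4 h5 h6 h7 => (k1m_vccc.snd h4 h5 h6 h7)⟩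
noncomputable def taOWq_wp_zvvvccc : Sl_zvvvccc taOWq_wp := ⟨_, fun h1 z1 h2 h3 h4 h5 h6 h7 => (xw0_vccc.snd h2 h5 h6 h7)⟩
noncomputable def taOWq_wp_vvvvccc : Sl_vvvvccc taOWq_wp := ⟨_, fun h1 h2 h3 h4 h5 h6 h7 => (xw0_vccc.snd h2 h5 h6 h7)⟩
noncomputable def swqx_vccc : Sl_vccc swqx := ⟨_, fun h1 h2 h3 h4 => (pr_norm (pr_neg (pr_mul (pr_norm (pr_cmul (lmf.enc h4) (pr_nd (pr_scale 1571 10000 (pr_posh (pr_subc h1 (enc_scale 5 2 h2))))))) (pr_nd (pr_scale 20 3 (pr_inv (c3w_vc.snd h1 h3)))))))⟩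
noncomputable def tcOWq_wp_zvvvccc : Sl_zvvvccc tcOWq_wp := ⟨_, fun h1 z1 h2 h3 h4 h5 h6 h7 => (pr_norm (pr_mz z1 h1 (swqx_vccc.snd h2 h5 h6 h7)))⟩
noncomputable def tcOWq_wp_vvvvccc : Sl_vvvvccc tcOWq_wp := ⟨_, fun h1 h2 h3 h4 h5 h6 h7 => (pr_norm (pr_mul h1 (swqx_vccc.snd h2 h5 h6 h7)))⟩
noncomputable def l1m_tp_zvvvccc : Sl_zvvvccc l1m_tp := ⟨_, fun h1 z1 h2 h3 h4 h5 h6 h7 => (l1m_vccc.snd h4 h5 h6 h7)⟩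
noncomputable def l1m_tp_vvvvccc : Sl_vvvvccc l1m_tp := ⟨_, fun h1 h2 h3 h4 h5 h6 h7 => (l1m_vccc.snd h4 h5 h6 h7)⟩
noncomputable def hbb_vc : Sl_vc hbb := ⟨_, fun h1 h2 => (pr_norm (pr_add (pr_add (pr_sub (pr_cadd (enc_scale 1019 1250 h2) (pr_scale 4372 625 h1)) (pr_scale 63603 5000 (pr_posh (pr_subc h1 (enc_half h2))))) (pr_scale 3569 750 (pr_posh (pr_subc h1 h2)))) (pr_scale 14501 15000 (pr_posh (pr_subc h1 (enc_scale 5 2 h2))))))⟩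
noncomputable def swqb_vccc : Sl_vccc swqb := ⟨_, fun h1 h2 h3 h4 => (pr_norm (pr_mul (pr_norm (pr_sub (pr_case (pr_csub (enc_scale 5 2 h2) h1) (pr_const (enc_pnc _ 0)) (pr_scale 5 11 (pr_mulc (hbb_vc.snd h1 h2) (enc_inv h2)))) (pr_cadd (b0f.enc h4) (pr_cmul h3 (bw0_vccc.snd h1 h2 h3 h4))))) (pr_nd (pr_inv (c3w_vc.snd h1 h3)))))⟩
noncomputable def tbOWq_wp_zvvvccc : Sl_zvvvccc tbOWq_wp := ⟨_, fun h1 z1 h2 h3 h4 h5 h6 h7 => (pr_norm (pr_add (bw0_vccc.snd h2 h5 h6 h7) (pr_mz z1 h1 (swqb_vccc.snd h2 h5 h6 h7))))⟩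
noncomputable def ntkOWq_wp_zvvvccc : Sl_zvvvccc ntkOWq_wp := ⟨_, fun h1 z1 h2 h3 h4 h5 h6 h7 => (nkf_cvv.snd h7 (tkOWq_wp_zvvvccc.snd h1 z1 h2 h3 h4 h5 h6 h7) (tbOWq_wp_zvvvccc.snd h1 z1 h2 h3 h4 h5 h6 h7))⟩
noncomputable def tbOWq_wp_vvvvccc : Sl_vvvvccc tbOWq_wp := ⟨_, fun h1 h2 h3 h4 h5 h6 h7 => (pr_norm (pr_add (bw0_vccc.snd h2 h5 h6 h7) (pr_mul h1 (swqb_vccc.snd h2 h5 h6 h7))))⟩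
noncomputable def ntkOWq_wp_vvvvccc : Sl_vvvvccc ntkOWq_wp := ⟨_, fun h1 h2 h3 h4 h5 h6 h7 => (nkf_cvv.snd h7 (tkOWq_wp_vvvvccc.snd h1 h2 h3 h4 h5 h6 h7) (tbOWq_wp_vvvvccc.snd h1 h2 h3 h4 h5 h6 h7))⟩
noncomputable def b1m_tp_vvvvccc : Sl_vvvvccc b1m_tp := ⟨_, fun h1 h2 h3 h4 h5 h6 h7 => (b1m_vccc.snd h4 h5 h6 h7)⟩
noncomputable def nk1m_tp_zvvvccc : Sl_zvvvccc nk1m_tp := ⟨_, fun h1 z1 h2 h3 h4 h5 h6 h7 => (nkf_cvv.snd h7 (pr_nd (k1m_tp_vvvvccc.snd h1 h2 h3 h4 h5 h6 h7)) (pr_nd (b1m_tp_vvvvccc.snd h1 h2 h3 h4 h5 h6 h7)))⟩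
noncomputable def nk1m_tp_vvvvccc : Sl_vvvvccc nk1m_tp := ⟨_, fun h1 h2 h3 h4 h5 h6 h7 => (nkf_cvv.snd h7 (pr_nd (k1m_tp_vvvvccc.snd h1 h2 h3 h4 h5 h6 h7)) (pr_nd (b1m_tp_vvvvccc.snd h1 h2 h3 h4 h5 h6 h7)))⟩
noncomputable def xq0p_vcc : Sl_vcc xq0p := ⟨_, fun h1 h2 h3 => (pr_norm (pr_add (xw0p_vc.snd h1 h3) (pr_scale 11 5 (pr_cmul h2 (c3w_vc.snd h1 h3)))))⟩
noncomputable def u_T1_U_P1m_Oq5_vvcc : Sl_vvcc u_T1_U_P1m_Oq5 := ⟨_, fun h1 h2 h3 h4 => (pr_norm (pr_sub (pr_add (xi1_vc.snd (pr_norm (pr_add h1 h2)) h4) (xi1_vc.snd h2 h4)) (xq0p_vcc.snd h1 h3 h4)))⟩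
noncomputable def kq0_vccc : Sl_vccc kq0 := ⟨_, fun h1 h2 h3 h4 => (pr_norm (pr_add (pr_subc (pr_cmul (enc_norm (enc_sub (enc_pnc _ 1) (enc_scale 11 5 h4))) (kw0_vccc.snd h1 h2 h3 h4)) (enc_scale 11 5 h2)) (hbk_vc.snd h1 h2)))⟩
noncomputable def sq5k_vccc : Sl_vccc sq5k := ⟨_, fun h1 h2 h3 h4 => (pr_norm (pr_neg (pr_mul (pr_norm (pr_cadd (enc_pnc _ 1) (pr_cmul h3 (kq0_vccc.snd h1 h2 h3 h4)))) (pr_nd (pr_inv (pr_cmul (enc_norm (enc_sub (enc_pnc _ 1) (enc_scale 11 5 h4))) (c3w_vc.snd h1 h3)))))))⟩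
noncomputable def tkOq5_wp_zvvvccc : Sl_zvvvccc tkOq5_wp := ⟨_, fun h1 z1 h2 h3 h4 h5 h6 h7 => (pr_norm (pr_add (kq0_vccc.snd h2 h5 h6 h7) (pr_mz z1 h1 (sq5k_vccc.snd h2 h5 h6 h7))))⟩
noncomputable def xq0_vccc : Sl_vccc xq0 := ⟨_, fun h1 h2 h3 h4 => (pr_norm (pr_cmul (enc_norm (enc_mul (lmf.enc h4) (enc_norm (enc_sub (enc_rat _ 1 50) (enc_scale 17281 7500 h4))))) (pr_nd (pr_posh (pr_subc h1 (enc_scale 5 2 h2))))))⟩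
noncomputable def taOq5_wp_zvvvccc : Sl_zvvvccc taOq5_wp := ⟨_, fun h1 z1 h2 h3 h4 h5 h6 h7 => (xq0_vccc.snd h2 h5 h6 h7)⟩
noncomputable def tcOq5_wp_zvvvccc : Sl_zvvvccc tcOq5_wp := ⟨_, fun h1 z1 h2 h3 h4 h5 h6 h7 => (pr_norm (pr_mz z1 h1 (swqx_vccc.snd h2 h5 h6 h7)))⟩
noncomputable def bq0_vccc : Sl_vccc bq0 := ⟨_, fun h1 h2 h3 h4 => (pr_norm (pr_add (pr_subc (pr_cmul (enc_norm (enc_sub (enc_pnc _ 1) (enc_scale 11 5 h4))) (bw0_vccc.snd h1 h2 h3 h4)) (enc_scale 11 5 (enc_mul h2 (b0f.enc h4)))) (hbb_vc.snd h1 h2)))⟩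
noncomputable def sq5b_vccc : Sl_vccc sq5b := ⟨_, fun h1 h2 h3 h4 => (pr_norm (pr_neg (pr_mul (pr_norm (pr_cadd (b0f.enc h4) (pr_cmul h3 (bq0_vccc.snd h1 h2 h3 h4)))) (pr_nd (pr_inv (pr_cmul (enc_norm (enc_sub (enc_pnc _ 1) (enc_scale 11 5 h4))) (c3w_vc.snd h1 h3)))))))⟩
noncomputable def tbOq5_wp_zvvvccc : Sl_zvvvccc tbOq5_wp := ⟨_, fun h1 z1 h2 h3 h4 h5 h6 h7 => (pr_norm (pr_add (bq0_vccc.snd h2 h5 h6 h7) (pr_mz z1 h1 (sq5b_vccc.snd h2 h5 h6 h7))))⟩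
noncomputable def ntkOq5_wp_zvvvccc : Sl_zvvvccc ntkOq5_wp := ⟨_, fun h1 z1 h2 h3 h4 h5 h6 h7 => (nkf_cvv.snd h7 (tkOq5_wp_zvvvccc.snd h1 z1 h2 h3 h4 h5 h6 h7) (tbOq5_wp_zvvvccc.snd h1 z1 h2 h3 h4 h5 h6 h7))⟩
noncomputable def lnw_vvv : Sl_vvv lnw := ⟨_, fun h1 h2 h3 => (pr_neg h1)⟩

end Pool.Agent.Strip051.LC.E1.Ch
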