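import Pool.Agent.Strip051.LC.E1.Ch.Main
import Pool.Agent.Strip051.LC.E1.Ch.Sls

/-! # Rests near the full period: the rows -/

set_option linter.unusedVariables false

namespace Pool.Agent.Strip051.LC.E1.Ch

open Pool.Agent.Strip051.PB

noncomputable def R_t1a_c1_d_f : RowF :=
  ⟨u_T1_A_P1m_P1W, nff_T1, nuf_T1, bs_T1_AP1mf, ku_wp, k1m_zn, tkP1W_tp, zr7, zr7, taP1W_tp,
      lva_wp, l1m_zn, tcP1W_tp, vf1, vf2, lw, lt, lnz, gm2⟩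

noncomputable def S_t1a_c1_d_f_z : RowS R_t1a_c1_d_f true :=
  ⟨u_T1_A_P1m_P1W_vvcc, nff_T1_vvc, nuf_T1_vvc, bs_T1_AP1mf_vvvccc, slz ku_wp_zvvvccc, slz
      k1m_zn_zvvvccc, slz tkP1W_tp_zvvvccc, slz zr7_zvvvccc, slz zr7_zvvvccc, slz
      taP1W_tp_zvvvccc, slz lva_wp_zvvvccc, slz l1m_zn_zvvvccc, slz tcP1W_tp_zvvvccc,
      vf1_vvvccvvv, vf2_vvvccvvv, lw_vvv, lt_vvv, lnz_vvv, gm2_vvvvvv⟩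

noncomputable def R_t1a_c1_d_n : RowF :=
  ⟨u_T1_A_P1m_P1W, nfn_T1, nun_T1, bs_T1_AP1mn, nku_wp, nk1m_zn, ntkP1W_tp, zr7, zr7, taP1W_tp,
      lva_wp, l1m_zn, tcP1W_tp, ml1, ml2, lw, lt, lnz, gm2⟩

noncomputable def S_t1a_c1_d_n_z : RowS R_t1a_c1_d_n true :=
  ⟨u_T1_A_P1m_P1W_vvcc, nfn_T1_vvc, nun_T1_vvc, bs_T1_AP1mn_vvvccc, slz nku_wp_zvvvccc, slz
      nk1m_zn_zvvvccc, slz ntkP1W_tp_zvvvccc, slz zr7_zvvvccc, slz zr7_zvvvccc, slz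
      taP1W_tp_zvvvccc, slz lva_wp_zvvvccc, slz l1m_zn_zvvvccc, slz tcP1W_tp_zvvvccc,
      ml1_vvvccvvv, ml2_vvvccvvv, lw_vvv, lt_vvv, lnz_vvv, gm2_vvvvvv⟩

noncomputable def R_t1a_c1_u_f : RowF :=
  ⟨u_T1_A_P1p_PW5, nff_T1, nuf_T1, bs_T1_AP1pf, ku_wp, k1p_zn, tkPW5_tp, zr7, zr7, taPW5_tp,
      lva_wp, l1p_zn, zr7, vf1, vf2, lt, lw, lz, gm1⟩

noncomputable def S_t1a_c1_u_f_z : RowS R_t1a_c1_u_f true :=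
  ⟨u_T1_A_P1p_PW5_vvcc, nff_T1_vvc, nuf_T1_vvc, bs_T1_AP1pf_vvvccc, slz ku_wp_zvvvccc, slz
      k1p_zn_zvvvccc, slz tkPW5_tp_zvvvccc, slz zr7_zvvvccc, slz zr7_zvvvccc, slz
      taPW5_tp_zvvvccc, slz lva_wp_zvvvccc, slz l1p_zn_zvvvccc, slz zr7_zvvvccc, vf1_vvvccvvv,
      vf2_vvvccvvv, lt_vvv, lw_vvv, lz_vvv, gm1_vvvvvv⟩

noncomputable def R_t1a_c1_u_n : RowF :=
  ⟨u_T1_A_P1p_PW5, nfn_T1, nun_T1, bs_T1_AP1pn, nku_wp, nk1p_zn, ntkPW5_tp, zr7, zr7, taPW5_tp,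
      lva_wp, l1p_zn, zr7, ml1, ml2, lt, lw, lz, gm1⟩

noncomputable def S_t1a_c1_u_n_z : RowS R_t1a_c1_u_n true :=
  ⟨u_T1_A_P1p_PW5_vvcc, nfn_T1_vvc, nun_T1_vvc, bs_T1_AP1pn_vvvccc, slz nku_wp_zvvvccc, slz
      nk1p_zn_zvvvccc, slz ntkPW5_tp_zvvvccc, slz zr7_zvvvccc, slz zr7_zvvvccc, slz
      taPW5_tp_zvvvccc, slz lva_wp_zvvvccc, slz l1p_zn_zvvvccc, slz zr7_zvvvccc, ml1_vvvccvvv,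
      ml2_vvvccvvv, lt_vvv, lw_vvv, lz_vvv, gm1_vvvvvv⟩

noncomputable def R_t1a_W_f : RowF :=
  ⟨u_T1_A_PW_PW5, nff_T1, nuf_T1, bs_T1_APWf, ku_wp, kwu_zn, tkPW5_tp, zr7, xwu_zn, taPW5_tp,
      lva_wp, zr7, zr7, vf1, vf2, lt, lw, lz, gm1⟩

noncomputable def S_t1a_W_f_z : RowS R_t1a_W_f true :=
  ⟨u_T1_A_PW_PW5_vvcc, nff_T1_vvc, nuf_T1_vvc, bs_T1_APWf_vvvccc, slz ku_wp_zvvvccc, slz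
      kwu_zn_zvvvccc, slz tkPW5_tp_zvvvccc, slz zr7_zvvvccc, slz xwu_zn_zvvvccc, slz
      taPW5_tp_zvvvccc, slz lva_wp_zvvvccc, slz zr7_zvvvccc, slz zr7_zvvvccc, vf1_vvvccvvv,
      vf2_vvvccvvv, lt_vvv, lw_vvv, lz_vvv, gm1_vvvvvv⟩

noncomputable def R_t1a_W_n : RowF :=
  ⟨u_T1_A_PW_PW5, nfn_T1, nun_T1, bs_T1_APWn, nku_wp, nkwu_zn, ntkPW5_tp, zr7, xwu_zn, taPW5_tp,
      lva_wp, zr7, zr7, ml1, ml2, lt, lw, lz, gm1⟩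

noncomputable def S_t1a_W_n_z : RowS R_t1a_W_n true :=
  ⟨u_T1_A_PW_PW5_vvcc, nfn_T1_vvc, nun_T1_vvc, bs_T1_APWn_vvvccc, slz nku_wp_zvvvccc, slz
      nkwu_zn_zvvvccc, slz ntkPW5_tp_zvvvccc, slz zr7_zvvvccc, slz xwu_zn_zvvvccc, slz
      taPW5_tp_zvvvccc, slz lva_wp_zvvvccc, slz zr7_zvvvccc, slz zr7_zvvvccc, ml1_vvvccvvv,
      ml2_vvvccvvv, lt_vvv, lw_vvv, lz_vvv, gm1_vvvvvv⟩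

noncomputable def R_t1b_c1_d_f : RowF :=
  ⟨u_T1_B_P1p_P12, nff_T1, nuf_T1, bs_T1_BP1pf, ku_wp, tkP12_zn, k1p_tp, zr7, taP12_zn, zr7,
      lva_wp, tcP12_zn, l1p_tp, vf1, vf2, lw, lt, lnz, gm2⟩

noncomputable def S_t1b_c1_d_f_z : RowS R_t1b_c1_d_f true :=
  ⟨u_T1_B_P1p_P12_vvcc, nff_T1_vvc, nuf_T1_vvc, bs_T1_BP1pf_vvvccc, slz ku_wp_zvvvccc, slz
      tkP12_zn_zvvvccc, slz k1p_tp_zvvvccc, slz zr7_zvvvccc, slz taP12_zn_zvvvccc, slz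
      zr7_zvvvccc, slz lva_wp_zvvvccc, slz tcP12_zn_zvvvccc, slz l1p_tp_zvvvccc, vf1_vvvccvvv,
      vf2_vvvccvvv, lw_vvv, lt_vvv, lnz_vvv, gm2_vvvvvv⟩

noncomputable def R_t1b_c1_d_n : RowF :=
  ⟨u_T1_B_P1p_P12, nfn_T1, nun_T1, bs_T1_BP1pn, nku_wp, ntkP12_zn, nk1p_tp, zr7, taP12_zn, zr7,
      lva_wp, tcP12_zn, l1p_tp, ml1, ml2, lw, lt, lnz, gm2⟩

noncomputable def S_t1b_c1_d_n_z : RowS R_t1b_c1_d_n true :=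
  ⟨u_T1_B_P1p_P12_vvcc, nfn_T1_vvc, nun_T1_vvc, bs_T1_BP1pn_vvvccc, slz nku_wp_zvvvccc, slz
      ntkP12_zn_zvvvccc, slz nk1p_tp_zvvvccc, slz zr7_zvvvccc, slz taP12_zn_zvvvccc, slz
      zr7_zvvvccc, slz lva_wp_zvvvccc, slz tcP12_zn_zvvvccc, slz l1p_tp_zvvvccc, ml1_vvvccvvv,
      ml2_vvvccvvv, lw_vvv, lt_vvv, lnz_vvv, gm2_vvvvvv⟩

noncomputable def R_t1b_c1_u_f : RowF :=
  ⟨u_T1_B_P1p_PW5, nff_T1, nuf_T1, bs_T1_BP1pf, ku_wp, tkPW5_zn, k1p_tp, zr7, taPW5_zn, zr7,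
      lva_wp, zr7, l1p_tp, vf1, vf2, lt, lw, lz, gm1⟩

noncomputable def S_t1b_c1_u_f_z : RowS R_t1b_c1_u_f true :=
  ⟨u_T1_B_P1p_PW5_vvcc, nff_T1_vvc, nuf_T1_vvc, bs_T1_BP1pf_vvvccc, slz ku_wp_zvvvccc, slz
      tkPW5_zn_zvvvccc, slz k1p_tp_zvvvccc, slz zr7_zvvvccc, slz taPW5_zn_zvvvccc, slz
      zr7_zvvvccc, slz lva_wp_zvvvccc, slz zr7_zvvvccc, slz l1p_tp_zvvvccc, vf1_vvvccvvv,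
      vf2_vvvccvvv, lt_vvv, lw_vvv, lz_vvv, gm1_vvvvvv⟩

noncomputable def R_t1b_c1_u_n : RowF :=
  ⟨u_T1_B_P1p_PW5, nfn_T1, nun_T1, bs_T1_BP1pn, nku_wp, ntkPW5_zn, nk1p_tp, zr7, taPW5_zn, zr7,
      lva_wp, zr7, l1p_tp, ml1, ml2, lt, lw, lz, gm1⟩

noncomputable def S_t1b_c1_u_n_z : RowS R_t1b_c1_u_n true :=
  ⟨u_T1_B_P1p_PW5_vvcc, nfn_T1_vvc, nun_T1_vvc, bs_T1_BP1pn_vvvccc, slz nku_wp_zvvvccc, slz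
      ntkPW5_zn_zvvvccc, slz nk1p_tp_zvvvccc, slz zr7_zvvvccc, slz taPW5_zn_zvvvccc, slz
      zr7_zvvvccc, slz lva_wp_zvvvccc, slz zr7_zvvvccc, slz l1p_tp_zvvvccc, ml1_vvvccvvv,
      ml2_vvvccvvv, lt_vvv, lw_vvv, lz_vvv, gm1_vvvvvv⟩

noncomputable def R_t1b_W_f : RowF :=
  ⟨u_T1_B_PW_PW5, nff_T1, nuf_T1, bs_T1_BPWf, ku_wp, tkPW5_zn, kwu_tp, zr7, taPW5_zn, xwu_tp,
      lva_wp, zr7, zr7, vf1, vf2, lt, lw, lz, gm1⟩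

noncomputable def S_t1b_W_f_z : RowS R_t1b_W_f true :=
  ⟨u_T1_B_PW_PW5_vvcc, nff_T1_vvc, nuf_T1_vvc, bs_T1_BPWf_vvvccc, slz ku_wp_zvvvccc, slz
      tkPW5_zn_zvvvccc, slz kwu_tp_zvvvccc, slz zr7_zvvvccc, slz taPW5_zn_zvvvccc, slz
      xwu_tp_zvvvccc, slz lva_wp_zvvvccc, slz zr7_zvvvccc, slz zr7_zvvvccc, vf1_vvvccvvv,
      vf2_vvvccvvv, lt_vvv, lw_vvv, lz_vvv, gm1_vvvvvv⟩

noncomputable def R_t1b_W_n : RowF :=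
  ⟨u_T1_B_PW_PW5, nfn_T1, nun_T1, bs_T1_BPWn, nku_wp, ntkPW5_zn, nkwu_tp, zr7, taPW5_zn, xwu_tp,
      lva_wp, zr7, zr7, ml1, ml2, lt, lw, lz, gm1⟩

noncomputable def S_t1b_W_n_z : RowS R_t1b_W_n true :=
  ⟨u_T1_B_PW_PW5_vvcc, nfn_T1_vvc, nun_T1_vvc, bs_T1_BPWn_vvvccc, slz nku_wp_zvvvccc, slz
      ntkPW5_zn_zvvvccc, slz nkwu_tp_zvvvccc, slz zr7_zvvvccc, slz taPW5_zn_zvvvccc, slz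
      xwu_tp_zvvvccc, slz lva_wp_zvvvccc, slz zr7_zvvvccc, slz zr7_zvvvccc, ml1_vvvccvvv,
      ml2_vvvccvvv, lt_vvv, lw_vvv, lz_vvv, gm1_vvvvvv⟩

noncomputable def R_t2a_W_f : RowF :=
  ⟨u_T2_A_QW_PW5, nff_T2, nuf_T2, bs_T2_AQWf, ku_wp, kwl_zn, tkPW5_tn, zr7, xwl_zn, taPW5_tn,
      lva_wp, zr7, zr7, vf1, vf2, lw, lt, lnz, gm2⟩

noncomputable def S_t2a_W_f_z : RowS R_t2a_W_f true :=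
  ⟨u_T2_A_QW_PW5_vvcc, nff_T2_vvc, nuf_T2_vvc, bs_T2_AQWf_vvvccc, slz ku_wp_zvvvccc, slz
      kwl_zn_zvvvccc, slz tkPW5_tn_zvvvccc, slz zr7_zvvvccc, slz xwl_zn_zvvvccc, slz
      taPW5_tn_zvvvccc, slz lva_wp_zvvvccc, slz zr7_zvvvccc, slz zr7_zvvvccc, vf1_vvvccvvv,
      vf2_vvvccvvv, lw_vvv, lt_vvv, lnz_vvv, gm2_vvvvvv⟩

noncomputable def R_t2a_W_n : RowF :=
  ⟨u_T2_A_QW_PW5, nfn_T2, nun_T2, bs_T2_AQWn, nku_wp, nkwl_zn, ntkPW5_tn, zr7, xwl_zn, taPW5_tn,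
      lva_wp, zr7, zr7, ml1, ml2, lw, lt, lnz, gm2⟩

noncomputable def S_t2a_W_n_z : RowS R_t2a_W_n true :=
  ⟨u_T2_A_QW_PW5_vvcc, nfn_T2_vvc, nun_T2_vvc, bs_T2_AQWn_vvvccc, slz nku_wp_zvvvccc, slz
      nkwl_zn_zvvvccc, slz ntkPW5_tn_zvvvccc, slz zr7_zvvvccc, slz xwl_zn_zvvvccc, slz
      taPW5_tn_zvvvccc, slz lva_wp_zvvvccc, slz zr7_zvvvccc, slz zr7_zvvvccc, ml1_vvvccvvv,
      ml2_vvvccvvv, lw_vvv, lt_vvv, lnz_vvv, gm2_vvvvvv⟩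

noncomputable def R_t2a_c3_dd_f : RowF :=
  ⟨u_T2_A_Q3m_P12, nff_T2, nuf_T2, bs_T2_AQ3mf, ku_wp, k3m_zn, tkP12_tn, zr7, zr7, taP12_tn,
      lva_wp, l3m_zn, tcP12_tn, vf1, vf2, lnz, lnt, lw, gm3⟩

noncomputable def S_t2a_c3_dd_f_z : RowS R_t2a_c3_dd_f true :=
  ⟨u_T2_A_Q3m_P12_vvcc, nff_T2_vvc, nuf_T2_vvc, bs_T2_AQ3mf_vvvccc, slz ku_wp_zvvvccc, slz
      k3m_zn_zvvvccc, slz tkP12_tn_zvvvccc, slz zr7_zvvvccc, slz zr7_zvvvccc, slz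
      taP12_tn_zvvvccc, slz lva_wp_zvvvccc, slz l3m_zn_zvvvccc, slz tcP12_tn_zvvvccc,
      vf1_vvvccvvv, vf2_vvvccvvv, lnz_vvv, lnt_vvv, lw_vvv, gm3_vvvvvv⟩

noncomputable def R_t2a_c3_dd_n : RowF :=
  ⟨u_T2_A_Q3m_P12, nfn_T2, nun_T2, bs_T2_AQ3mn, nku_wp, nk3m_zn, ntkP12_tn, zr7, zr7, taP12_tn,
      lva_wp, l3m_zn, tcP12_tn, ml1, ml2, lnz, lnt, lw, gm3⟩

noncomputable def S_t2a_c3_dd_n_z : RowS R_t2a_c3_dd_n true :=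
  ⟨u_T2_A_Q3m_P12_vvcc, nfn_T2_vvc, nun_T2_vvc, bs_T2_AQ3mn_vvvccc, slz nku_wp_zvvvccc, slz
      nk3m_zn_zvvvccc, slz ntkP12_tn_zvvvccc, slz zr7_zvvvccc, slz zr7_zvvvccc, slz
      taP12_tn_zvvvccc, slz lva_wp_zvvvccc, slz l3m_zn_zvvvccc, slz tcP12_tn_zvvvccc,
      ml1_vvvccvvv, ml2_vvvccvvv, lnz_vvv, lnt_vvv, lw_vvv, gm3_vvvvvv⟩

noncomputable def R_t2a_c3_du_f : RowF :=
  ⟨u_T2_A_Q3m_PW5, nff_T2, nuf_T2, bs_T2_AQ3mf, ku_wp, k3m_zn, tkPW5_tn, zr7, zr7, taPW5_tn,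
      lva_wp, l3m_zn, zr7, vf1, vf2, lw, lt, lnz, gm2⟩

noncomputable def S_t2a_c3_du_f_z : RowS R_t2a_c3_du_f true :=
  ⟨u_T2_A_Q3m_PW5_vvcc, nff_T2_vvc, nuf_T2_vvc, bs_T2_AQ3mf_vvvccc, slz ku_wp_zvvvccc, slz
      k3m_zn_zvvvccc, slz tkPW5_tn_zvvvccc, slz zr7_zvvvccc, slz zr7_zvvvccc, slz
      taPW5_tn_zvvvccc, slz lva_wp_zvvvccc, slz l3m_zn_zvvvccc, slz zr7_zvvvccc, vf1_vvvccvvv,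
      vf2_vvvccvvv, lw_vvv, lt_vvv, lnz_vvv, gm2_vvvvvv⟩

noncomputable def R_t2a_c3_du_n : RowF :=
  ⟨u_T2_A_Q3m_PW5, nfn_T2, nun_T2, bs_T2_AQ3mn, nku_wp, nk3m_zn, ntkPW5_tn, zr7, zr7, taPW5_tn,
      lva_wp, l3m_zn, zr7, ml1, ml2, lw, lt, lnz, gm2⟩

noncomputable def S_t2a_c3_du_n_z : RowS R_t2a_c3_du_n true :=
  ⟨u_T2_A_Q3m_PW5_vvcc, nfn_T2_vvc, nun_T2_vvc, bs_T2_AQ3mn_vvvccc, slz nku_wp_zvvvccc, slz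
      nk3m_zn_zvvvccc, slz ntkPW5_tn_zvvvccc, slz zr7_zvvvccc, slz zr7_zvvvccc, slz
      taPW5_tn_zvvvccc, slz lva_wp_zvvvccc, slz l3m_zn_zvvvccc, slz zr7_zvvvccc, ml1_vvvccvvv,
      ml2_vvvccvvv, lw_vvv, lt_vvv, lnz_vvv, gm2_vvvvvv⟩

noncomputable def R_t2a_c3_u1_f : RowF :=
  ⟨u_T2_A_Q3p_P1W, nff_T2, nuf_T2, bs_T2_AQ3pf, ku_wp, k3p_zn, tkP1W_tn, zr7, zr7, taP1W_tn,
      lva_wp, l3p_zn, tcP1W_tn, vf1, vf2, lt, lw, lz, gm1⟩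

noncomputable def S_t2a_c3_u1_f_z : RowS R_t2a_c3_u1_f true :=
  ⟨u_T2_A_Q3p_P1W_vvcc, nff_T2_vvc, nuf_T2_vvc, bs_T2_AQ3pf_vvvccc, slz ku_wp_zvvvccc, slz
      k3p_zn_zvvvccc, slz tkP1W_tn_zvvvccc, slz zr7_zvvvccc, slz zr7_zvvvccc, slz
      taP1W_tn_zvvvccc, slz lva_wp_zvvvccc, slz l3p_zn_zvvvccc, slz tcP1W_tn_zvvvccc,
      vf1_vvvccvvv, vf2_vvvccvvv, lt_vvv, lw_vvv, lz_vvv, gm1_vvvvvv⟩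

noncomputable def R_t2a_c3_u1_n : RowF :=
  ⟨u_T2_A_Q3p_P1W, nfn_T2, nun_T2, bs_T2_AQ3pn, nku_wp, nk3p_zn, ntkP1W_tn, zr7, zr7, taP1W_tn,
      lva_wp, l3p_zn, tcP1W_tn, ml1, ml2, lt, lw, lz, gm1⟩

noncomputable def S_t2a_c3_u1_n_z : RowS R_t2a_c3_u1_n true :=
  ⟨u_T2_A_Q3p_P1W_vvcc, nfn_T2_vvc, nun_T2_vvc, bs_T2_AQ3pn_vvvccc, slz nku_wp_zvvvccc, slz
      nk3p_zn_zvvvccc, slz ntkP1W_tn_zvvvccc, slz zr7_zvvvccc, slz zr7_zvvvccc, slz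
      taP1W_tn_zvvvccc, slz lva_wp_zvvvccc, slz l3p_zn_zvvvccc, slz tcP1W_tn_zvvvccc,
      ml1_vvvccvvv, ml2_vvvccvvv, lt_vvv, lw_vvv, lz_vvv, gm1_vvvvvv⟩

noncomputable def R_t2a_c3_u2_f : RowF :=
  ⟨u_T2_A_Q3p_PW5, nff_T2, nuf_T2, bs_T2_AQ3pf, ku_wp, k3p_zn, tkPW5_tn, zr7, zr7, taPW5_tn,
      lva_wp, l3p_zn, zr7, vf1, vf2, lt, lw, lz, gm1⟩

noncomputable def S_t2a_c3_u2_f_z : RowS R_t2a_c3_u2_f true :=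
  ⟨u_T2_A_Q3p_PW5_vvcc, nff_T2_vvc, nuf_T2_vvc, bs_T2_AQ3pf_vvvccc, slz ku_wp_zvvvccc, slz
      k3p_zn_zvvvccc, slz tkPW5_tn_zvvvccc, slz zr7_zvvvccc, slz zr7_zvvvccc, slz
      taPW5_tn_zvvvccc, slz lva_wp_zvvvccc, slz l3p_zn_zvvvccc, slz zr7_zvvvccc, vf1_vvvccvvv,
      vf2_vvvccvvv, lt_vvv, lw_vvv, lz_vvv, gm1_vvvvvv⟩

noncomputable def R_t2a_c3_u2_n : RowF :=
  ⟨u_T2_A_Q3p_PW5, nfn_T2, nun_T2, bs_T2_AQ3pn, nku_wp, nk3p_zn, ntkPW5_tn, zr7, zr7, taPW5_tn,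
      lva_wp, l3p_zn, zr7, ml1, ml2, lt, lw, lz, gm1⟩

noncomputable def S_t2a_c3_u2_n_z : RowS R_t2a_c3_u2_n true :=
  ⟨u_T2_A_Q3p_PW5_vvcc, nfn_T2_vvc, nun_T2_vvc, bs_T2_AQ3pn_vvvccc, slz nku_wp_zvvvccc, slz
      nk3p_zn_zvvvccc, slz ntkPW5_tn_zvvvccc, slz zr7_zvvvccc, slz zr7_zvvvccc, slz
      taPW5_tn_zvvvccc, slz lva_wp_zvvvccc, slz l3p_zn_zvvvccc, slz zr7_zvvvccc, ml1_vvvccvvv,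
      ml2_vvvccvvv, lt_vvv, lw_vvv, lz_vvv, gm1_vvvvvv⟩

noncomputable def R_t2b_c1_dd_f : RowF :=
  ⟨u_T2_B_P1m_QW3, nff_T2, nuf_T2, bs_T2_BP1mf, ku_wp, tkQW3_zn, k1m_tn, zr7, taQW3_zn, zr7,
      lva_wp, tcQW3_zn, l1m_tn, vf1, vf2, lnz, lnt, lw, gm3⟩

noncomputable def S_t2b_c1_dd_f_z : RowS R_t2b_c1_dd_f true :=
  ⟨u_T2_B_P1m_QW3_vvcc, nff_T2_vvc, nuf_T2_vvc, bs_T2_BP1mf_vvvccc, slz ku_wp_zvvvccc, slz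
      tkQW3_zn_zvvvccc, slz k1m_tn_zvvvccc, slz zr7_zvvvccc, slz taQW3_zn_zvvvccc, slz
      zr7_zvvvccc, slz lva_wp_zvvvccc, slz tcQW3_zn_zvvvccc, slz l1m_tn_zvvvccc, vf1_vvvccvvv,
      vf2_vvvccvvv, lnz_vvv, lnt_vvv, lw_vvv, gm3_vvvvvv⟩

noncomputable def R_t2b_c1_dd_n : RowF :=
  ⟨u_T2_B_P1m_QW3, nfn_T2, nun_T2, bs_T2_BP1mn, nku_wp, ntkQW3_zn, nk1m_tn, zr7, taQW3_zn, zr7,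
      lva_wp, tcQW3_zn, l1m_tn, ml1, ml2, lnz, lnt, lw, gm3⟩

noncomputable def S_t2b_c1_dd_n_z : RowS R_t2b_c1_dd_n true :=
  ⟨u_T2_B_P1m_QW3_vvcc, nfn_T2_vvc, nun_T2_vvc, bs_T2_BP1mn_vvvccc, slz nku_wp_zvvvccc, slz
      ntkQW3_zn_zvvvccc, slz nk1m_tn_zvvvccc, slz zr7_zvvvccc, slz taQW3_zn_zvvvccc, slz
      zr7_zvvvccc, slz lva_wp_zvvvccc, slz tcQW3_zn_zvvvccc, slz l1m_tn_zvvvccc, ml1_vvvccvvv,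
      ml2_vvvccvvv, lnz_vvv, lnt_vvv, lw_vvv, gm3_vvvvvv⟩

noncomputable def R_t2b_c1_du_f : RowF :=
  ⟨u_T2_B_P1p_Q6W, nff_T2, nuf_T2, bs_T2_BP1pf, ku_wp, tkQ6W_zn, k1p_tn, zr7, taQ6W_zn, zr7,
      lva_wp, zr7, l1p_tn, vf1, vf2, lw, lt, lnz, gm2⟩

noncomputable def S_t2b_c1_du_f_z : RowS R_t2b_c1_du_f true :=
  ⟨u_T2_B_P1p_Q6W_vvcc, nff_T2_vvc, nuf_T2_vvc, bs_T2_BP1pf_vvvccc, slz ku_wp_zvvvccc, slz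
      tkQ6W_zn_zvvvccc, slz k1p_tn_zvvvccc, slz zr7_zvvvccc, slz taQ6W_zn_zvvvccc, slz
      zr7_zvvvccc, slz lva_wp_zvvvccc, slz zr7_zvvvccc, slz l1p_tn_zvvvccc, vf1_vvvccvvv,
      vf2_vvvccvvv, lw_vvv, lt_vvv, lnz_vvv, gm2_vvvvvv⟩

noncomputable def R_t2b_c1_du_n : RowF :=
  ⟨u_T2_B_P1p_Q6W, nfn_T2, nun_T2, bs_T2_BP1pn, nku_wp, ntkQ6W_zn, nk1p_tn, zr7, taQ6W_zn, zr7,
      lva_wp, zr7, l1p_tn, ml1, ml2, lw, lt, lnz, gm2⟩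

noncomputable def S_t2b_c1_du_n_z : RowS R_t2b_c1_du_n true :=
  ⟨u_T2_B_P1p_Q6W_vvcc, nfn_T2_vvc, nun_T2_vvc, bs_T2_BP1pn_vvvccc, slz nku_wp_zvvvccc, slz
      ntkQ6W_zn_zvvvccc, slz nk1p_tn_zvvvccc, slz zr7_zvvvccc, slz taQ6W_zn_zvvvccc, slz
      zr7_zvvvccc, slz lva_wp_zvvvccc, slz zr7_zvvvccc, slz l1p_tn_zvvvccc, ml1_vvvccvvv,
      ml2_vvvccvvv, lw_vvv, lt_vvv, lnz_vvv, gm2_vvvvvv⟩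

noncomputable def R_t2b_c1_u_f : RowF :=
  ⟨u_T2_B_P1p_Q63, nff_T2, nuf_T2, bs_T2_BP1pf, ku_wp, tkQ63_zn, k1p_tn, zr7, taQ63_zn, zr7,
      lva_wp, tcQ63_zn, l1p_tn, vf1, vf2, lt, lw, lz, gm1⟩

noncomputable def S_t2b_c1_u_f_z : RowS R_t2b_c1_u_f true :=
  ⟨u_T2_B_P1p_Q63_vvcc, nff_T2_vvc, nuf_T2_vvc, bs_T2_BP1pf_vvvccc, slz ku_wp_zvvvccc, slz
      tkQ63_zn_zvvvccc, slz k1p_tn_zvvvccc, slz zr7_zvvvccc, slz taQ63_zn_zvvvccc, slz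
      zr7_zvvvccc, slz lva_wp_zvvvccc, slz tcQ63_zn_zvvvccc, slz l1p_tn_zvvvccc, vf1_vvvccvvv,
      vf2_vvvccvvv, lt_vvv, lw_vvv, lz_vvv, gm1_vvvvvv⟩

noncomputable def R_t2b_c1_u_n : RowF :=
  ⟨u_T2_B_P1p_Q63, nfn_T2, nun_T2, bs_T2_BP1pn, nku_wp, ntkQ63_zn, nk1p_tn, zr7, taQ63_zn, zr7,
      lva_wp, tcQ63_zn, l1p_tn, ml1, ml2, lt, lw, lz, gm1⟩

noncomputable def S_t2b_c1_u_n_z : RowS R_t2b_c1_u_n true :=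
  ⟨u_T2_B_P1p_Q63_vvcc, nfn_T2_vvc, nun_T2_vvc, bs_T2_BP1pn_vvvccc, slz nku_wp_zvvvccc, slz
      ntkQ63_zn_zvvvccc, slz nk1p_tn_zvvvccc, slz zr7_zvvvccc, slz taQ63_zn_zvvvccc, slz
      zr7_zvvvccc, slz lva_wp_zvvvccc, slz tcQ63_zn_zvvvccc, slz l1p_tn_zvvvccc, ml1_vvvccvvv,
      ml2_vvvccvvv, lt_vvv, lw_vvv, lz_vvv, gm1_vvvvvv⟩

noncomputable def R_t2b_W_d_f : RowF :=
  ⟨u_T2_B_PW_Q6W, nff_T2, nuf_T2, bs_T2_BPWf, ku_wp, tkQ6W_zn, kwu_tn, zr7, taQ6W_zn, xwu_tn,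
      lva_wp, zr7, zr7, vf1, vf2, lw, lt, lnz, gm2⟩

noncomputable def S_t2b_W_d_f_z : RowS R_t2b_W_d_f true :=
  ⟨u_T2_B_PW_Q6W_vvcc, nff_T2_vvc, nuf_T2_vvc, bs_T2_BPWf_vvvccc, slz ku_wp_zvvvccc, slz
      tkQ6W_zn_zvvvccc, slz kwu_tn_zvvvccc, slz zr7_zvvvccc, slz taQ6W_zn_zvvvccc, slz
      xwu_tn_zvvvccc, slz lva_wp_zvvvccc, slz zr7_zvvvccc, slz zr7_zvvvccc, vf1_vvvccvvv,
      vf2_vvvccvvv, lw_vvv, lt_vvv, lnz_vvv, gm2_vvvvvv⟩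

noncomputable def R_t2b_W_d_n : RowF :=
  ⟨u_T2_B_PW_Q6W, nfn_T2, nun_T2, bs_T2_BPWn, nku_wp, ntkQ6W_zn, nkwu_tn, zr7, taQ6W_zn, xwu_tn,
      lva_wp, zr7, zr7, ml1, ml2, lw, lt, lnz, gm2⟩

noncomputable def S_t2b_W_d_n_z : RowS R_t2b_W_d_n true :=
  ⟨u_T2_B_PW_Q6W_vvcc, nfn_T2_vvc, nun_T2_vvc, bs_T2_BPWn_vvvccc, slz nku_wp_zvvvccc, slz
      ntkQ6W_zn_zvvvccc, slz nkwu_tn_zvvvccc, slz zr7_zvvvccc, slz taQ6W_zn_zvvvccc, slz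
      xwu_tn_zvvvccc, slz lva_wp_zvvvccc, slz zr7_zvvvccc, slz zr7_zvvvccc, ml1_vvvccvvv,
      ml2_vvvccvvv, lw_vvv, lt_vvv, lnz_vvv, gm2_vvvvvv⟩

noncomputable def R_t2b_W_u_f : RowF :=
  ⟨u_T2_B_PW_Q63, nff_T2, nuf_T2, bs_T2_BPWf, ku_wp, tkQ63_zn, kwu_tn, zr7, taQ63_zn, xwu_tn,
      lva_wp, tcQ63_zn, zr7, vf1, vf2, lt, lw, lz, gm1⟩

noncomputable def S_t2b_W_u_f_z : RowS R_t2b_W_u_f true :=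
  ⟨u_T2_B_PW_Q63_vvcc, nff_T2_vvc, nuf_T2_vvc, bs_T2_BPWf_vvvccc, slz ku_wp_zvvvccc, slz
      tkQ63_zn_zvvvccc, slz kwu_tn_zvvvccc, slz zr7_zvvvccc, slz taQ63_zn_zvvvccc, slz
      xwu_tn_zvvvccc, slz lva_wp_zvvvccc, slz tcQ63_zn_zvvvccc, slz zr7_zvvvccc, vf1_vvvccvvv,
      vf2_vvvccvvv, lt_vvv, lw_vvv, lz_vvv, gm1_vvvvvv⟩

noncomputable def R_t2b_W_u_n : RowF :=
  ⟨u_T2_B_PW_Q63, nfn_T2, nun_T2, bs_T2_BPWn, nku_wp, ntkQ63_zn, nkwu_tn, zr7, taQ63_zn, xwu_tn,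
      lva_wp, tcQ63_zn, zr7, ml1, ml2, lt, lw, lz, gm1⟩

noncomputable def S_t2b_W_u_n_z : RowS R_t2b_W_u_n true :=
  ⟨u_T2_B_PW_Q63_vvcc, nfn_T2_vvc, nun_T2_vvc, bs_T2_BPWn_vvvccc, slz nku_wp_zvvvccc, slz
      ntkQ63_zn_zvvvccc, slz nkwu_tn_zvvvccc, slz zr7_zvvvccc, slz taQ63_zn_zvvvccc, slz
      xwu_tn_zvvvccc, slz lva_wp_zvvvccc, slz tcQ63_zn_zvvvccc, slz zr7_zvvvccc, ml1_vvvccvvv,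
      ml2_vvvccvvv, lt_vvv, lw_vvv, lz_vvv, gm1_vvvvvv⟩

noncomputable def R_t3a_c1_f : RowF :=
  ⟨u_T2p_A_P1p_Q63, nff_T2p, nuf_T2p, bs_T2p_AP1pf, ku_wp, k1p_zp, tkQ63_tp, zr7, zr7, taQ63_tp,
      lva_wp, l1p_zp, tcQ63_tp, vf1, vf2, lt, lw, lz, gm1⟩

noncomputable def S_t3a_c1_f_z : RowS R_t3a_c1_f true :=
  ⟨u_T2p_A_P1p_Q63_vvcc, nff_T2p_vvc, nuf_T2p_vvc, bs_T2p_AP1pf_vvvccc, slz ku_wp_zvvvccc, slz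
      k1p_zp_zvvvccc, slz tkQ63_tp_zvvvccc, slz zr7_zvvvccc, slz zr7_zvvvccc, slz
      taQ63_tp_zvvvccc, slz lva_wp_zvvvccc, slz l1p_zp_zvvvccc, slz tcQ63_tp_zvvvccc,
      vf1_vvvccvvv, vf2_vvvccvvv, lt_vvv, lw_vvv, lz_vvv, gm1_vvvvvv⟩

noncomputable def R_t3a_c1_n : RowF :=
  ⟨u_T2p_A_P1p_Q63, nfn_T2p, nun_T2p, bs_T2p_AP1pn, nku_wp, nk1p_zp, ntkQ63_tp, zr7, zr7,
      taQ63_tp, lva_wp, l1p_zp, tcQ63_tp, ml1, ml2, lt, lw, lz, gm1⟩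

noncomputable def S_t3a_c1_n_z : RowS R_t3a_c1_n true :=
  ⟨u_T2p_A_P1p_Q63_vvcc, nfn_T2p_vvc, nun_T2p_vvc, bs_T2p_AP1pn_vvvccc, slz nku_wp_zvvvccc, slz
      nk1p_zp_zvvvccc, slz ntkQ63_tp_zvvvccc, slz zr7_zvvvccc, slz zr7_zvvvccc, slz
      taQ63_tp_zvvvccc, slz lva_wp_zvvvccc, slz l1p_zp_zvvvccc, slz tcQ63_tp_zvvvccc,
      ml1_vvvccvvv, ml2_vvvccvvv, lt_vvv, lw_vvv, lz_vvv, gm1_vvvvvv⟩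

noncomputable def R_t3b_c3_f : RowF :=
  ⟨u_T2p_B_Q3p_P1W, nff_T2p, nuf_T2p, bs_T2p_BQ3pf, ku_wp, tkP1W_zp, k3p_tp, zr7, taP1W_zp, zr7,
      lva_wp, tcP1W_zp, l3p_tp, vf1, vf2, lt, lw, lz, gm1⟩

noncomputable def S_t3b_c3_f_z : RowS R_t3b_c3_f true :=
  ⟨u_T2p_B_Q3p_P1W_vvcc, nff_T2p_vvc, nuf_T2p_vvc, bs_T2p_BQ3pf_vvvccc, slz ku_wp_zvvvccc, slz
      tkP1W_zp_zvvvccc, slz k3p_tp_zvvvccc, slz zr7_zvvvccc, slz taP1W_zp_zvvvccc, slz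
      zr7_zvvvccc, slz lva_wp_zvvvccc, slz tcP1W_zp_zvvvccc, slz l3p_tp_zvvvccc, vf1_vvvccvvv,
      vf2_vvvccvvv, lt_vvv, lw_vvv, lz_vvv, gm1_vvvvvv⟩

noncomputable def R_t3b_c3_n : RowF :=
  ⟨u_T2p_B_Q3p_P1W, nfn_T2p, nun_T2p, bs_T2p_BQ3pn, nku_wp, ntkP1W_zp, nk3p_tp, zr7, taP1W_zp,
      zr7, lva_wp, tcP1W_zp, l3p_tp, ml1, ml2, lt, lw, lz, gm1⟩

noncomputable def S_t3b_c3_n_z : RowS R_t3b_c3_n true :=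
  ⟨u_T2p_B_Q3p_P1W_vvcc, nfn_T2p_vvc, nun_T2p_vvc, bs_T2p_BQ3pn_vvvccc, slz nku_wp_zvvvccc, slz
      ntkP1W_zp_zvvvccc, slz nk3p_tp_zvvvccc, slz zr7_zvvvccc, slz taP1W_zp_zvvvccc, slz
      zr7_zvvvccc, slz lva_wp_zvvvccc, slz tcP1W_zp_zvvvccc, slz l3p_tp_zvvvccc, ml1_vvvccvvv,
      ml2_vvvccvvv, lt_vvv, lw_vvv, lz_vvv, gm1_vvvvvv⟩

noncomputable def R_u1_p_f : RowF :=
  ⟨u_T1_U_P1p_O1W, nff_T1, nu0, bs_T1_Uf, tkO1W_wp, k1m_zn, k1p_tp, taO1W_wp, zr7, zr7, tcO1W_wp,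
      l1m_zn, l1p_tp, vf1, vf2, lw, lt, lnz, gm2⟩

noncomputable def S_u1_p_f_z : RowS R_u1_p_f true :=
  ⟨u_T1_U_P1p_O1W_vvcc, nff_T1_vvc, nu0_vvc, bs_T1_Uf_vvvccc, slz tkO1W_wp_zvvvccc, slz
      k1m_zn_zvvvccc, slz k1p_tp_zvvvccc, slz taO1W_wp_zvvvccc, slz zr7_zvvvccc, slz zr7_zvvvccc,
      slz tcO1W_wp_zvvvccc, slz l1m_zn_zvvvccc, slz l1p_tp_zvvvccc, vf1_vvvccvvv, vf2_vvvccvvv,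
      lw_vvv, lt_vvv, lnz_vvv, gm2_vvvvvv⟩

noncomputable def R_u1w_p_f : RowF :=
  ⟨u_T1_U_P1p_O1w, nff_T1, nu0, bs_T1_Uf, tkO1w_wp, k1m_zn, k1p_tp, taO1w_wp, zr7, zr7, tcO1w_wp,
      l1m_zn, l1p_tp, vf1, vf2, lw, lt, lnz, gm2⟩

noncomputable def S_u1w_p_f_v : RowS R_u1w_p_f false :=
  ⟨u_T1_U_P1p_O1w_vvcc, nff_T1_vvc, nu0_vvc, bs_T1_Uf_vvvccc, slv tkO1w_wp_vvvvccc, slv
      k1m_zn_vvvvccc, slv k1p_tp_vvvvccc, slv taO1w_wp_vvvvccc, slv zr7_vvvvccc, slv zr7_vvvvccc,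
      slv tcO1w_wp_vvvvccc, slv l1m_zn_vvvvccc, slv l1p_tp_vvvvccc, vf1_vvvccvvv, vf2_vvvccvvv,
      lw_vvv, lt_vvv, lnz_vvv, gm2_vvvvvv⟩

noncomputable def R_u1_p_n : RowF :=
  ⟨u_T1_U_P1p_O1W, nfn_T1, nu0, bs_T1_Un, ntkO1W_wp, nk1m_zn, nk1p_tp, taO1W_wp, zr7, zr7,
      tcO1W_wp, l1m_zn, l1p_tp, ml1, ml2, lw, lt, lnz, gm2⟩

noncomputable def S_u1_p_n_z : RowS R_u1_p_n true :=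
  ⟨u_T1_U_P1p_O1W_vvcc, nfn_T1_vvc, nu0_vvc, bs_T1_Un_vvvccc, slz ntkO1W_wp_zvvvccc, slz
      nk1m_zn_zvvvccc, slz nk1p_tp_zvvvccc, slz taO1W_wp_zvvvccc, slz zr7_zvvvccc, slz
      zr7_zvvvccc, slz tcO1W_wp_zvvvccc, slz l1m_zn_zvvvccc, slz l1p_tp_zvvvccc, ml1_vvvccvvv,
      ml2_vvvccvvv, lw_vvv, lt_vvv, lnz_vvv, gm2_vvvvvv⟩

noncomputable def R_u1w_p_n : RowF :=
  ⟨u_T1_U_P1p_O1w, nfn_T1, nu0, bs_T1_Un, ntkO1w_wp, nk1m_zn, nk1p_tp, taO1w_wp, zr7, zr7,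
      tcO1w_wp, l1m_zn, l1p_tp, ml1, ml2, lw, lt, lnz, gm2⟩

noncomputable def S_u1w_p_n_v : RowS R_u1w_p_n false :=
  ⟨u_T1_U_P1p_O1w_vvcc, nfn_T1_vvc, nu0_vvc, bs_T1_Un_vvvccc, slv ntkO1w_wp_vvvvccc, slv
      nk1m_zn_vvvvccc, slv nk1p_tp_vvvvccc, slv taO1w_wp_vvvvccc, slv zr7_vvvvccc, slv
      zr7_vvvvccc, slv tcO1w_wp_vvvvccc, slv l1m_zn_vvvvccc, slv l1p_tp_vvvvccc, ml1_vvvccvvv,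
      ml2_vvvccvvv, lw_vvv, lt_vvv, lnz_vvv, gm2_vvvvvv⟩

noncomputable def R_uq_n_f : RowF :=
  ⟨u_T1_U_P1m_OWq, nff_T1, nu0, bs_T1_Uf, tkOWq_wp, k1m_zn, k1m_tp, taOWq_wp, zr7, zr7, tcOWq_wp,
      l1m_zn, l1m_tp, vf1, vf2, lnz, lnt, lw, gm3⟩

noncomputable def S_uq_n_f_z : RowS R_uq_n_f true :=
  ⟨u_T1_U_P1m_OWq_vvcc, nff_T1_vvc, nu0_vvc, bs_T1_Uf_vvvccc, slz tkOWq_wp_zvvvccc, slz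
      k1m_zn_zvvvccc, slz k1m_tp_zvvvccc, slz taOWq_wp_zvvvccc, slz zr7_zvvvccc, slz zr7_zvvvccc,
      slz tcOWq_wp_zvvvccc, slz l1m_zn_zvvvccc, slz l1m_tp_zvvvccc, vf1_vvvccvvv, vf2_vvvccvvv,
      lnz_vvv, lnt_vvv, lw_vvv, gm3_vvvvvv⟩

noncomputable def S_uq_n_f_v : RowS R_uq_n_f false :=
  ⟨u_T1_U_P1m_OWq_vvcc, nff_T1_vvc, nu0_vvc, bs_T1_Uf_vvvccc, slv tkOWq_wp_vvvvccc, slv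
      k1m_zn_vvvvccc, slv k1m_tp_vvvvccc, slv taOWq_wp_vvvvccc, slv zr7_vvvvccc, slv zr7_vvvvccc,
      slv tcOWq_wp_vvvvccc, slv l1m_zn_vvvvccc, slv l1m_tp_vvvvccc, vf1_vvvccvvv, vf2_vvvccvvv,
      lnz_vvv, lnt_vvv, lw_vvv, gm3_vvvvvv⟩

noncomputable def R_uq_n_n : RowF :=
  ⟨u_T1_U_P1m_OWq, nfn_T1, nu0, bs_T1_Un, ntkOWq_wp, nk1m_zn, nk1m_tp, taOWq_wp, zr7, zr7,
      tcOWq_wp, l1m_zn, l1m_tp, ml1, ml2, lnz, lnt, lw, gm3⟩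

noncomputable def S_uq_n_n_z : RowS R_uq_n_n true :=
  ⟨u_T1_U_P1m_OWq_vvcc, nfn_T1_vvc, nu0_vvc, bs_T1_Un_vvvccc, slz ntkOWq_wp_zvvvccc, slz
      nk1m_zn_zvvvccc, slz nk1m_tp_zvvvccc, slz taOWq_wp_zvvvccc, slz zr7_zvvvccc, slz
      zr7_zvvvccc, slz tcOWq_wp_zvvvccc, slz l1m_zn_zvvvccc, slz l1m_tp_zvvvccc, ml1_vvvccvvv,
      ml2_vvvccvvv, lnz_vvv, lnt_vvv, lw_vvv, gm3_vvvvvv⟩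

noncomputable def S_uq_n_n_v : RowS R_uq_n_n false :=
  ⟨u_T1_U_P1m_OWq_vvcc, nfn_T1_vvc, nu0_vvc, bs_T1_Un_vvvccc, slv ntkOWq_wp_vvvvccc, slv
      nk1m_zn_vvvvccc, slv nk1m_tp_vvvvccc, slv taOWq_wp_vvvvccc, slv zr7_vvvvccc, slv
      zr7_vvvvccc, slv tcOWq_wp_vvvvccc, slv l1m_zn_vvvvccc, slv l1m_tp_vvvvccc, ml1_vvvccvvv,
      ml2_vvvccvvv, lnz_vvv, lnt_vvv, lw_vvv, gm3_vvvvvv⟩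

noncomputable def R_u5_n_f : RowF :=
  ⟨u_T1_U_P1m_Oq5, nff_T1, nu0, bs_T1_Uf, tkOq5_wp, k1m_zn, k1m_tp, taOq5_wp, zr7, zr7, tcOq5_wp,
      l1m_zn, l1m_tp, vf1, vf2, lnz, lnt, lw, gm3⟩

noncomputable def S_u5_n_f_z : RowS R_u5_n_f true :=
  ⟨u_T1_U_P1m_Oq5_vvcc, nff_T1_vvc, nu0_vvc, bs_T1_Uf_vvvccc, slz tkOq5_wp_zvvvccc, slz
      k1m_zn_zvvvccc, slz k1m_tp_zvvvccc, slz taOq5_wp_zvvvccc, slz zr7_zvvvccc, slz zr7_zvvvccc,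
      slz tcOq5_wp_zvvvccc, slz l1m_zn_zvvvccc, slz l1m_tp_zvvvccc, vf1_vvvccvvv, vf2_vvvccvvv,
      lnz_vvv, lnt_vvv, lw_vvv, gm3_vvvvvv⟩

noncomputable def R_u5_n_n : RowF :=
  ⟨u_T1_U_P1m_Oq5, nfn_T1, nu0, bs_T1_Un, ntkOq5_wp, nk1m_zn, nk1m_tp, taOq5_wp, zr7, zr7,
      tcOq5_wp, l1m_zn, l1m_tp, ml1, ml2, lnz, lnt, lw, gm3⟩

noncomputable def S_u5_n_n_z : RowS R_u5_n_n true :=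
  ⟨u_T1_U_P1m_Oq5_vvcc, nfn_T1_vvc, nu0_vvc, bs_T1_Un_vvvccc, slz ntkOq5_wp_zvvvccc, slz
      nk1m_zn_zvvvccc, slz nk1m_tp_zvvvccc, slz taOq5_wp_zvvvccc, slz zr7_zvvvccc, slz
      zr7_zvvvccc, slz tcOq5_wp_zvvvccc, slz l1m_zn_zvvvccc, slz l1m_tp_zvvvccc, ml1_vvvccvvv,
      ml2_vvvccvvv, lnz_vvv, lnt_vvv, lw_vvv, gm3_vvvvvv⟩

end Pool.Agent.Strip051.LC.E1.Ch
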