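import Pool.Agent.Strip051.LC.E1.Ch.Ph
import Pool.Agent.Strip051.LC.E1.Ch.Rw

/-! # Rests near the full period: the base points of the strips -/

set_option linter.unusedVariables false
set_option linter.unusedSimpArgs false

namespace Pool.Agent.Strip051.LC.E1.Ch

open Pool.Agent.Strip051.PB
open Pool.Agent.Strip051.LC.E1.G (hg)
open Pool.Agent.Strip051.LC.E1.BaseR

theorem sb_t1a_c1_d_f {w z m r : ℝ} (hr : 0 < r) (hm : 0 < m) (x1 : m * r ≤ 1 / 40) (hw : 0 ≤ w)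
    (hrw : r * w ≤ 1 / 16)
    (hfar : r < 1 / 100 → r * w ≤ 3 / 50)
    (hz : z = -(w / 2) - r * E0.G.om w r) : SBase R_t1a_c1_d_f w z m r (E0.G.om w r) := by
  have ht : w + z = w / 2 - r * E0.G.om w r := by rw [hz]; ring
  have x0 : 0 < m * r := mul_pos hm hr
  have om0 := om_nn hr hw hrw
  have omw := om_w hr hw hrw
  have omI := om_I hr hw hrw
  have hU : R_t1a_c1_d_f.U w z m r = 0 := by
    simp only [RowF.U, R_t1a_c1_d_f, u_T1_A_P1m_P1W, zx_val, xi1_val, xi3_val, xiw_val]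
    try rw [ht]
    try rw [hz]
    try rw [E1_xi1 hr hw hrw]
    try rw [E2_xi1 hr hw hrw]
    try rw [E3_xi3 hr hw hrw]
    try rw [E4_xi3 hr hw hrw]
    ring
  have k12 : R_t1a_c1_d_f.K12 w z m r = ku.v w m r (m * r) := by
    unfold RowF.K12
    rw [hU]
    simp only [R_t1a_c1_d_f, ku_wp, zero_mul]
  have a12 : R_t1a_c1_d_f.A12 w z m r = 0 := by
    unfold RowF.A12
    rw [hU]
    simp only [R_t1a_c1_d_f, zr7, zero_mul, neg_zero, Nat.cast_zero]
  have b12 : R_t1a_c1_d_f.B12 w z m r = lva.v w m r (m * r) := by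
    unfold RowF.B12
    rw [hU]
    simp only [R_t1a_c1_d_f, lva_wp, zero_mul]
  have k23 : R_t1a_c1_d_f.K23 w z m r = -(ku.v w m r (m * r) / 2 + 3 / 4 * (w * (1 + E0.G.qw w
    r)⁻¹) * (1 + r * ku.v w m r (m * r))) := by
    unfold RowF.K23
    rw [hU]
    simp only [R_t1a_c1_d_f, k1m_zn, zero_mul]
    rw [hz, e2_k hr hw hrw]
    try ring
  have a23 : R_t1a_c1_d_f.A23 w z m r = 0 := by
    unfold RowF.A23
    rw [hU]
    simp only [R_t1a_c1_d_f, zr7, zero_mul, neg_zero, Nat.cast_zero]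
  have b23 : R_t1a_c1_d_f.B23 w z m r = -lvm.v w m r (m * r) := by
    unfold RowF.B23
    rw [hU]
    simp only [R_t1a_c1_d_f, l1m_zn, zero_mul]
    rw [hz, e2_l hr hw hrw]
    try ring
  have k13 : R_t1a_c1_d_f.K13 w z m r = (ku.v w m r (m * r) / 2 - 3 / 4 * (w * (1 + E0.G.qw w r)⁻¹)
    * (1 + r * ku.v w m r (m * r))) := by
    unfold RowF.K13
    rw [hU]
    simp only [R_t1a_c1_d_f, tkP1W_tp, zero_mul]
    rw [ht, e1_k hr hw hrw]
    try ring
  have a13 : R_t1a_c1_d_f.A13 w z m r = 0 := by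
    unfold RowF.A13
    rw [hU]
    simp only [R_t1a_c1_d_f, taP1W_tp, zero_mul, neg_zero, Nat.cast_zero]
  have b13 : R_t1a_c1_d_f.B13 w z m r = lvp.v w m r (m * r) := by
    unfold RowF.B13
    rw [hU]
    simp only [R_t1a_c1_d_f, tcP1W_tp, zero_mul]
    rw [ht, e1_l hr hw hrw]
    try ring
  have la := lva_val hr w m hfar hrw
  have lm := lvm_val hr w m hfar
  have lp := lvp_val hr w m hfar
  have hD : R_t1a_c1_d_f.DL w z m r = 0 := by
    unfold RowF.DL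
    rw [dln_val, k12, k23, k13]
    ring
  have hN : R_t1a_c1_d_f.NF w z m r = r * (E0.G.om w r) := by
    simp only [RowF.NF, R_t1a_c1_d_f, nff_T1, bef_val]
    rw [ht]
    push_cast
    ring
  have hG : R_t1a_c1_d_f.GM w z m r = -(E0.G.om w r) := by
    unfold RowF.GM
    rw [k12, k23, k13]
    show gm2.v _ _ _ _ _ _ = _
    rw [gm2_val, ht, hz]
    linear_combination (-(1 + r * ku.v w m r (m * r))) * omI
  have hb : R_t1a_c1_d_f.NU w z m r / r + R_t1a_c1_d_f.BS w z m r = -(E0.G.om w r) +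
      0 := by
    simp only [RowF.NU, RowF.BS, R_t1a_c1_d_f, nuf_T1, bs_T1_AP1mf, bef_val, n1f_val, lmf_val,
      mu_val', qo_val, eh_val, om_val, zx_val, xi1_val, xi3_val, xiw_val]
    try rw [ht]
    try rw [hz]
    try rw [E1_xi1 hr hw hrw]
    try rw [E2_xi1 hr hw hrw]
    try rw [E3_xi3 hr hw hrw]
    try rw [E4_xi3 hr hw hrw]
    rw [div_add' _ _ _ hr.ne', div_eq_iff hr.ne']
    push_cast
    linear_combination r * omw
  have he : (0 : ℝ) ≤ 0 := by
    exact le_rfl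
  have hL : R_t1a_c1_d_f.L w z ≠ 0 ∨ E0.G.om w r = 0 := by
    rcases hw.eq_or_lt with h | h
    · right
      rw [← h, om_0]
    · left
      show w ≠ 0
      exact h.ne'
  have v1 : 0 ≤ R_t1a_c1_d_f.V1A w z m r / r + R_t1a_c1_d_f.V1B w z m r := by
    unfold RowF.V1A RowF.V1B
    rw [a12, a23, a13, b12, b23, b13, la, lm, lp]
    simp only [R_t1a_c1_d_f, vf1_val]
    refine le_of_eq ?_
    ring
  have v2 : 0 ≤ R_t1a_c1_d_f.V2A w z m r / r + R_t1a_c1_d_f.V2B w z m r := by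
    unfold RowF.V2A RowF.V2B
    rw [a12, a23, a13, b12, b23, b13, la, lm, lp]
    simp only [R_t1a_c1_d_f, vf2_val]
    refine le_of_eq ?_
    ring
  exact sb_core hr hm x1 hU hD hN hG hb he hL v1 v2

theorem sb_t1a_c1_d_n {w z m r : ℝ} (hr : 0 < r) (hm : 0 < m) (x1 : m * r ≤ 1 / 40) (hw : 0 ≤ w)
    (hrw : r * w ≤ 1 / 16)
    (hfar : r < 1 / 100 → r * w ≤ 3 / 50)
    (hz : z = -(w / 2) - r * E0.G.om w r) : SBase R_t1a_c1_d_n w z m r (G.be (m * r) * E0.G.om w r)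
      := by
  have ht : w + z = w / 2 - r * E0.G.om w r := by rw [hz]; ring
  have x0 : 0 < m * r := mul_pos hm hr
  have om0 := om_nn hr hw hrw
  have omw := om_w hr hw hrw
  have omI := om_I hr hw hrw
  have hU : R_t1a_c1_d_n.U w z m r = 0 := by
    simp only [RowF.U, R_t1a_c1_d_n, u_T1_A_P1m_P1W, zx_val, xi1_val, xi3_val, xiw_val]
    try rw [ht]
    try rw [hz]
    try rw [E1_xi1 hr hw hrw]
    try rw [E2_xi1 hr hw hrw]
    try rw [E3_xi3 hr hw hrw]
    try rw [E4_xi3 hr hw hrw]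
    ring
  have k12 : R_t1a_c1_d_n.K12 w z m r = (1 + G.LAM (m * r) * G.mu (m * r)) * (ku.v w m r (m * r)) +
      G.mu (m * r) * (kv.v w m r (m * r)) := by
    unfold RowF.K12
    rw [hU]
    simp only [R_t1a_c1_d_n, nku_wp, ku_wp, kv_wp, nkf_val, zero_mul]
  have a12 : R_t1a_c1_d_n.A12 w z m r = 0 := by
    unfold RowF.A12
    rw [hU]
    simp only [R_t1a_c1_d_n, zr7, zero_mul, neg_zero, Nat.cast_zero]
  have b12 : R_t1a_c1_d_n.B12 w z m r = lva.v w m r (m * r) := by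
    unfold RowF.B12
    rw [hU]
    simp only [R_t1a_c1_d_n, lva_wp, zero_mul]
  have k23 : R_t1a_c1_d_n.K23 w z m r = (1 + G.LAM (m * r) * G.mu (m * r)) * (-(ku.v w m r (m * r)
    / 2 + 3 / 4 * (w * (1 + E0.G.qw w r)⁻¹) * (1 + r * ku.v w m r (m * r)))) +
      G.mu (m * r) * (-(kv.v w m r (m * r) / 2 + 3 / 4 * (w * (1 + E0.G.qw w r)⁻¹) * (G.B0 (m * r)
        + r * kv.v w m r (m * r)))) := by
    unfold RowF.K23
    rw [hU]
    simp only [R_t1a_c1_d_n, nk1m_zn, k1m_zn, b1m_zn, nkf_val, zero_mul]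
    rw [hz, e2_k hr hw hrw, e2_b hr hw hrw]
    try ring
  have a23 : R_t1a_c1_d_n.A23 w z m r = 0 := by
    unfold RowF.A23
    rw [hU]
    simp only [R_t1a_c1_d_n, zr7, zero_mul, neg_zero, Nat.cast_zero]
  have b23 : R_t1a_c1_d_n.B23 w z m r = -lvm.v w m r (m * r) := by
    unfold RowF.B23
    rw [hU]
    simp only [R_t1a_c1_d_n, l1m_zn, zero_mul]
    rw [hz, e2_l hr hw hrw]
    try ring
  have k13 : R_t1a_c1_d_n.K13 w z m r = (1 + G.LAM (m * r) * G.mu (m * r)) * ((ku.v w m r (m * r) /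
    2 - 3 / 4 * (w * (1 + E0.G.qw w r)⁻¹) * (1 + r * ku.v w m r (m * r)))) +
      G.mu (m * r) * ((kv.v w m r (m * r) / 2 - 3 / 4 * (w * (1 + E0.G.qw w r)⁻¹) * (G.B0 (m * r) +
        r * kv.v w m r (m * r)))) := by
    unfold RowF.K13
    rw [hU]
    simp only [R_t1a_c1_d_n, ntkP1W_tp, tkP1W_tp, tbP1W_tp, nkf_val, zero_mul]
    rw [ht, e1_k hr hw hrw, e1_b hr hw hrw]
    try ring
  have a13 : R_t1a_c1_d_n.A13 w z m r = 0 := by
    unfold RowF.A13
    rw [hU]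
    simp only [R_t1a_c1_d_n, taP1W_tp, zero_mul, neg_zero, Nat.cast_zero]
  have b13 : R_t1a_c1_d_n.B13 w z m r = lvp.v w m r (m * r) := by
    unfold RowF.B13
    rw [hU]
    simp only [R_t1a_c1_d_n, tcP1W_tp, zero_mul]
    rw [ht, e1_l hr hw hrw]
    try ring
  have la := lva_val hr w m hfar hrw
  have lm := lvm_val hr w m hfar
  have lp := lvp_val hr w m hfar
  have hD : R_t1a_c1_d_n.DL w z m r = 0 := by
    unfold RowF.DL
    rw [dln_val, k12, k23, k13]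
    ring
  have hN : R_t1a_c1_d_n.NF w z m r = r * (G.be (m * r) * E0.G.om w r) := by
    simp only [RowF.NF, R_t1a_c1_d_n, nfn_T1, bef_val]
    rw [ht]
    push_cast
    ring
  have hG : R_t1a_c1_d_n.GM w z m r = -(G.be (m * r) * E0.G.om w r) := by
    unfold RowF.GM
    rw [k12, k23, k13]
    show gm2.v _ _ _ _ _ _ = _
    rw [gm2_val, ht, hz]
    unfold G.be
    linear_combination (-((1 + G.LAM (m * r) * G.mu (m * r)) * (1 + r * ku.v w m r (m * r)) +
      G.mu (m * r) * (G.B0 (m * r) + r * kv.v w m r (m * r)))) * omI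
  have hb : R_t1a_c1_d_n.NU w z m r / r + R_t1a_c1_d_n.BS w z m r = -(G.be (m * r) * E0.G.om w r) +
      G.mu (m * r) * G.LAM (m * r) * E0.G.om w r / 2 := by
    simp only [RowF.NU, RowF.BS, R_t1a_c1_d_n, nun_T1, bs_T1_AP1mn, bef_val, n1f_val, lmf_val,
      mu_val', qo_val, eh_val, om_val, zx_val, xi1_val, xi3_val, xiw_val]
    try rw [ht]
    try rw [hz]
    try rw [E1_xi1 hr hw hrw]
    try rw [E2_xi1 hr hw hrw]
    try rw [E3_xi3 hr hw hrw]
    try rw [E4_xi3 hr hw hrw]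
    rw [div_add' _ _ _ hr.ne', div_eq_iff hr.ne']
    push_cast
    linear_combination (r * (1 + G.LAM (m * r) * G.mu (m * r))) * omw
  have he : (0 : ℝ) ≤ G.mu (m * r) * G.LAM (m * r) * E0.G.om w r / 2 := by
    have h1 := LAM_nn x0.le (by linarith : m * r ≤ 1)
    have h2 := mu_nn (m * r)
    positivity
  have hL : R_t1a_c1_d_n.L w z ≠ 0 ∨ G.be (m * r) * E0.G.om w r = 0 := by
    rcases hw.eq_or_lt with h | h
    · right
      rw [← h, om_0, mul_zero]
    · left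
      show w ≠ 0
      exact h.ne'
  have v1 : 0 ≤ R_t1a_c1_d_n.V1A w z m r / r + R_t1a_c1_d_n.V1B w z m r := by
    unfold RowF.V1A RowF.V1B
    rw [a12, a23, a13, b12, b23, b13, la, lm, lp]
    simp only [R_t1a_c1_d_n, ml1_val]
    refine (phi_c hr hm x1 hw hrw).trans (le_of_eq ?_)
    try rw [ht]
    try rw [hz]
    linear_combination (G.mu (m * r) * G.LAM (m * r) / 2 * G.aL (m * r) r m w) * rrom hr hw hrw
  have v2 : 0 ≤ R_t1a_c1_d_n.V2A w z m r / r + R_t1a_c1_d_n.V2B w z m r := by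
    unfold RowF.V2A RowF.V2B
    rw [a12, a23, a13, b12, b23, b13, la, lm, lp]
    simp only [R_t1a_c1_d_n, ml2_val]
    refine (phi_c hr hm x1 hw hrw).trans (le_of_eq ?_)
    try rw [ht]
    try rw [hz]
    linear_combination (G.mu (m * r) * G.LAM (m * r) / 2 * G.aL (m * r) r m w) * rrom hr hw hrw
  exact sb_core hr hm x1 hU hD hN hG hb he hL v1 v2

theorem sb_t1b_c1_d_f {w z m r : ℝ} (hr : 0 < r) (hm : 0 < m) (x1 : m * r ≤ 1 / 40) (hw : 0 ≤ w)
    (hrw : r * w ≤ 1 / 16)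
    (hfar : r < 1 / 100 → r * w ≤ 3 / 50)
    (hz : z = -(w / 2) - r * E0.G.om w r) : SBase R_t1b_c1_d_f w z m r (E0.G.om w r) := by
  have ht : w + z = w / 2 - r * E0.G.om w r := by rw [hz]; ring
  have x0 : 0 < m * r := mul_pos hm hr
  have om0 := om_nn hr hw hrw
  have omw := om_w hr hw hrw
  have omI := om_I hr hw hrw
  have hU : R_t1b_c1_d_f.U w z m r = 0 := by
    simp only [RowF.U, R_t1b_c1_d_f, u_T1_B_P1p_P12, zx_val, xi1_val, xi3_val, xiw_val]
    try rw [ht]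
    try rw [hz]
    try rw [E1_xi1 hr hw hrw]
    try rw [E2_xi1 hr hw hrw]
    try rw [E3_xi3 hr hw hrw]
    try rw [E4_xi3 hr hw hrw]
    ring
  have k12 : R_t1b_c1_d_f.K12 w z m r = ku.v w m r (m * r) := by
    unfold RowF.K12
    rw [hU]
    simp only [R_t1b_c1_d_f, ku_wp, zero_mul]
  have a12 : R_t1b_c1_d_f.A12 w z m r = 0 := by
    unfold RowF.A12
    rw [hU]
    simp only [R_t1b_c1_d_f, zr7, zero_mul, neg_zero, Nat.cast_zero]
  have b12 : R_t1b_c1_d_f.B12 w z m r = lva.v w m r (m * r) := by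
    unfold RowF.B12
    rw [hU]
    simp only [R_t1b_c1_d_f, lva_wp, zero_mul]
  have k23 : R_t1b_c1_d_f.K23 w z m r = -(ku.v w m r (m * r) / 2 + 3 / 4 * (w * (1 + E0.G.qw w
    r)⁻¹) * (1 + r * ku.v w m r (m * r))) := by
    unfold RowF.K23
    rw [hU]
    simp only [R_t1b_c1_d_f, tkP12_zn, zero_mul]
    rw [hz, e2_k hr hw hrw]
    try ring
  have a23 : R_t1b_c1_d_f.A23 w z m r = 0 := by
    unfold RowF.A23
    rw [hU]
    simp only [R_t1b_c1_d_f, taP12_zn, zero_mul, neg_zero, Nat.cast_zero]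
  have b23 : R_t1b_c1_d_f.B23 w z m r = -lvm.v w m r (m * r) := by
    unfold RowF.B23
    rw [hU]
    simp only [R_t1b_c1_d_f, tcP12_zn, zero_mul]
    rw [hz, e2_l hr hw hrw]
    try ring
  have k13 : R_t1b_c1_d_f.K13 w z m r = (ku.v w m r (m * r) / 2 - 3 / 4 * (w * (1 + E0.G.qw w r)⁻¹)
    * (1 + r * ku.v w m r (m * r))) := by
    unfold RowF.K13
    rw [hU]
    simp only [R_t1b_c1_d_f, k1p_tp, zero_mul]
    rw [ht, e1_k hr hw hrw]
    try ring
  have a13 : R_t1b_c1_d_f.A13 w z m r = 0 := by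
    unfold RowF.A13
    rw [hU]
    simp only [R_t1b_c1_d_f, zr7, zero_mul, neg_zero, Nat.cast_zero]
  have b13 : R_t1b_c1_d_f.B13 w z m r = lvp.v w m r (m * r) := by
    unfold RowF.B13
    rw [hU]
    simp only [R_t1b_c1_d_f, l1p_tp, zero_mul]
    rw [ht, e1_l hr hw hrw]
    try ring
  have la := lva_val hr w m hfar hrw
  have lm := lvm_val hr w m hfar
  have lp := lvp_val hr w m hfar
  have hD : R_t1b_c1_d_f.DL w z m r = 0 := by
    unfold RowF.DL
    rw [dln_val, k12, k23, k13]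
    ring
  have hN : R_t1b_c1_d_f.NF w z m r = r * (E0.G.om w r) := by
    simp only [RowF.NF, R_t1b_c1_d_f, nff_T1, bef_val]
    rw [ht]
    push_cast
    ring
  have hG : R_t1b_c1_d_f.GM w z m r = -(E0.G.om w r) := by
    unfold RowF.GM
    rw [k12, k23, k13]
    show gm2.v _ _ _ _ _ _ = _
    rw [gm2_val, ht, hz]
    linear_combination (-(1 + r * ku.v w m r (m * r))) * omI
  have hb : R_t1b_c1_d_f.NU w z m r / r + R_t1b_c1_d_f.BS w z m r = -(E0.G.om w r) +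
      0 := by
    simp only [RowF.NU, RowF.BS, R_t1b_c1_d_f, nuf_T1, bs_T1_BP1pf, bef_val, n1f_val, lmf_val,
      mu_val', qo_val, eh_val, om_val, zx_val, xi1_val, xi3_val, xiw_val]
    try rw [ht]
    try rw [hz]
    try rw [E1_xi1 hr hw hrw]
    try rw [E2_xi1 hr hw hrw]
    try rw [E3_xi3 hr hw hrw]
    try rw [E4_xi3 hr hw hrw]
    rw [div_add' _ _ _ hr.ne', div_eq_iff hr.ne']
    push_cast
    linear_combination r * omw
  have he : (0 : ℝ) ≤ 0 := by
    exact le_rfl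
  have hL : R_t1b_c1_d_f.L w z ≠ 0 ∨ E0.G.om w r = 0 := by
    rcases hw.eq_or_lt with h | h
    · right
      rw [← h, om_0]
    · left
      show w ≠ 0
      exact h.ne'
  have v1 : 0 ≤ R_t1b_c1_d_f.V1A w z m r / r + R_t1b_c1_d_f.V1B w z m r := by
    unfold RowF.V1A RowF.V1B
    rw [a12, a23, a13, b12, b23, b13, la, lm, lp]
    simp only [R_t1b_c1_d_f, vf1_val]
    refine le_of_eq ?_
    ring
  have v2 : 0 ≤ R_t1b_c1_d_f.V2A w z m r / r + R_t1b_c1_d_f.V2B w z m r := by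
    unfold RowF.V2A RowF.V2B
    rw [a12, a23, a13, b12, b23, b13, la, lm, lp]
    simp only [R_t1b_c1_d_f, vf2_val]
    refine le_of_eq ?_
    ring
  exact sb_core hr hm x1 hU hD hN hG hb he hL v1 v2

theorem sb_t1b_c1_d_n {w z m r : ℝ} (hr : 0 < r) (hm : 0 < m) (x1 : m * r ≤ 1 / 40) (hw : 0 ≤ w)
    (hrw : r * w ≤ 1 / 16)
    (hfar : r < 1 / 100 → r * w ≤ 3 / 50)
    (hz : z = -(w / 2) - r * E0.G.om w r) : SBase R_t1b_c1_d_n w z m r (G.be (m * r) * E0.G.om w r)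
      := by
  have ht : w + z = w / 2 - r * E0.G.om w r := by rw [hz]; ring
  have x0 : 0 < m * r := mul_pos hm hr
  have om0 := om_nn hr hw hrw
  have omw := om_w hr hw hrw
  have omI := om_I hr hw hrw
  have hU : R_t1b_c1_d_n.U w z m r = 0 := by
    simp only [RowF.U, R_t1b_c1_d_n, u_T1_B_P1p_P12, zx_val, xi1_val, xi3_val, xiw_val]
    try rw [ht]
    try rw [hz]
    try rw [E1_xi1 hr hw hrw]
    try rw [E2_xi1 hr hw hrw]
    try rw [E3_xi3 hr hw hrw]
    try rw [E4_xi3 hr hw hrw]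
    ring
  have k12 : R_t1b_c1_d_n.K12 w z m r = (1 + G.LAM (m * r) * G.mu (m * r)) * (ku.v w m r (m * r)) +
      G.mu (m * r) * (kv.v w m r (m * r)) := by
    unfold RowF.K12
    rw [hU]
    simp only [R_t1b_c1_d_n, nku_wp, ku_wp, kv_wp, nkf_val, zero_mul]
  have a12 : R_t1b_c1_d_n.A12 w z m r = 0 := by
    unfold RowF.A12
    rw [hU]
    simp only [R_t1b_c1_d_n, zr7, zero_mul, neg_zero, Nat.cast_zero]
  have b12 : R_t1b_c1_d_n.B12 w z m r = lva.v w m r (m * r) := by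
    unfold RowF.B12
    rw [hU]
    simp only [R_t1b_c1_d_n, lva_wp, zero_mul]
  have k23 : R_t1b_c1_d_n.K23 w z m r = (1 + G.LAM (m * r) * G.mu (m * r)) * (-(ku.v w m r (m * r)
    / 2 + 3 / 4 * (w * (1 + E0.G.qw w r)⁻¹) * (1 + r * ku.v w m r (m * r)))) +
      G.mu (m * r) * (-(kv.v w m r (m * r) / 2 + 3 / 4 * (w * (1 + E0.G.qw w r)⁻¹) * (G.B0 (m * r)
        + r * kv.v w m r (m * r)))) := by
    unfold RowF.K23
    rw [hU]
    simp only [R_t1b_c1_d_n, ntkP12_zn, tkP12_zn, tbP12_zn, nkf_val, zero_mul]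
    rw [hz, e2_k hr hw hrw, e2_b hr hw hrw]
    try ring
  have a23 : R_t1b_c1_d_n.A23 w z m r = 0 := by
    unfold RowF.A23
    rw [hU]
    simp only [R_t1b_c1_d_n, taP12_zn, zero_mul, neg_zero, Nat.cast_zero]
  have b23 : R_t1b_c1_d_n.B23 w z m r = -lvm.v w m r (m * r) := by
    unfold RowF.B23
    rw [hU]
    simp only [R_t1b_c1_d_n, tcP12_zn, zero_mul]
    rw [hz, e2_l hr hw hrw]
    try ring
  have k13 : R_t1b_c1_d_n.K13 w z m r = (1 + G.LAM (m * r) * G.mu (m * r)) * ((ku.v w m r (m * r) /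
    2 - 3 / 4 * (w * (1 + E0.G.qw w r)⁻¹) * (1 + r * ku.v w m r (m * r)))) +
      G.mu (m * r) * ((kv.v w m r (m * r) / 2 - 3 / 4 * (w * (1 + E0.G.qw w r)⁻¹) * (G.B0 (m * r) +
        r * kv.v w m r (m * r)))) := by
    unfold RowF.K13
    rw [hU]
    simp only [R_t1b_c1_d_n, nk1p_tp, k1p_tp, b1p_tp, nkf_val, zero_mul]
    rw [ht, e1_k hr hw hrw, e1_b hr hw hrw]
    try ring
  have a13 : R_t1b_c1_d_n.A13 w z m r = 0 := by
    unfold RowF.A13
    rw [hU]
    simp only [R_t1b_c1_d_n, zr7, zero_mul, neg_zero, Nat.cast_zero]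
  have b13 : R_t1b_c1_d_n.B13 w z m r = lvp.v w m r (m * r) := by
    unfold RowF.B13
    rw [hU]
    simp only [R_t1b_c1_d_n, l1p_tp, zero_mul]
    rw [ht, e1_l hr hw hrw]
    try ring
  have la := lva_val hr w m hfar hrw
  have lm := lvm_val hr w m hfar
  have lp := lvp_val hr w m hfar
  have hD : R_t1b_c1_d_n.DL w z m r = 0 := by
    unfold RowF.DL
    rw [dln_val, k12, k23, k13]
    ring
  have hN : R_t1b_c1_d_n.NF w z m r = r * (G.be (m * r) * E0.G.om w r) := by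
    simp only [RowF.NF, R_t1b_c1_d_n, nfn_T1, bef_val]
    rw [ht]
    push_cast
    ring
  have hG : R_t1b_c1_d_n.GM w z m r = -(G.be (m * r) * E0.G.om w r) := by
    unfold RowF.GM
    rw [k12, k23, k13]
    show gm2.v _ _ _ _ _ _ = _
    rw [gm2_val, ht, hz]
    unfold G.be
    linear_combination (-((1 + G.LAM (m * r) * G.mu (m * r)) * (1 + r * ku.v w m r (m * r)) +
      G.mu (m * r) * (G.B0 (m * r) + r * kv.v w m r (m * r)))) * omI
  have hb : R_t1b_c1_d_n.NU w z m r / r + R_t1b_c1_d_n.BS w z m r = -(G.be (m * r) * E0.G.om w r) +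
      G.mu (m * r) * G.LAM (m * r) * E0.G.om w r / 2 := by
    simp only [RowF.NU, RowF.BS, R_t1b_c1_d_n, nun_T1, bs_T1_BP1pn, bef_val, n1f_val, lmf_val,
      mu_val', qo_val, eh_val, om_val, zx_val, xi1_val, xi3_val, xiw_val]
    try rw [ht]
    try rw [hz]
    try rw [E1_xi1 hr hw hrw]
    try rw [E2_xi1 hr hw hrw]
    try rw [E3_xi3 hr hw hrw]
    try rw [E4_xi3 hr hw hrw]
    rw [div_add' _ _ _ hr.ne', div_eq_iff hr.ne']
    push_cast
    linear_combination (r * (1 + G.LAM (m * r) * G.mu (m * r))) * omw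
  have he : (0 : ℝ) ≤ G.mu (m * r) * G.LAM (m * r) * E0.G.om w r / 2 := by
    have h1 := LAM_nn x0.le (by linarith : m * r ≤ 1)
    have h2 := mu_nn (m * r)
    positivity
  have hL : R_t1b_c1_d_n.L w z ≠ 0 ∨ G.be (m * r) * E0.G.om w r = 0 := by
    rcases hw.eq_or_lt with h | h
    · right
      rw [← h, om_0, mul_zero]
    · left
      show w ≠ 0
      exact h.ne'
  have v1 : 0 ≤ R_t1b_c1_d_n.V1A w z m r / r + R_t1b_c1_d_n.V1B w z m r := by
    unfold RowF.V1A RowF.V1B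
    rw [a12, a23, a13, b12, b23, b13, la, lm, lp]
    simp only [R_t1b_c1_d_n, ml1_val]
    refine (phi_c hr hm x1 hw hrw).trans (le_of_eq ?_)
    try rw [ht]
    try rw [hz]
    linear_combination (G.mu (m * r) * G.LAM (m * r) / 2 * G.aL (m * r) r m w) * rrom hr hw hrw
  have v2 : 0 ≤ R_t1b_c1_d_n.V2A w z m r / r + R_t1b_c1_d_n.V2B w z m r := by
    unfold RowF.V2A RowF.V2B
    rw [a12, a23, a13, b12, b23, b13, la, lm, lp]
    simp only [R_t1b_c1_d_n, ml2_val]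
    refine (phi_c hr hm x1 hw hrw).trans (le_of_eq ?_)
    try rw [ht]
    try rw [hz]
    linear_combination (G.mu (m * r) * G.LAM (m * r) / 2 * G.aL (m * r) r m w) * rrom hr hw hrw
  exact sb_core hr hm x1 hU hD hN hG hb he hL v1 v2

theorem sb_t2a_c3_dd_f {w z m r : ℝ} (hr : 0 < r) (hm : 0 < m) (x1 : m * r ≤ 1 / 40) (hw : 0 ≤ w)
    (hrw : r * w ≤ 1 / 16)
    (hfar : r < 1 / 100 → r * w ≤ 3 / 50)
    (hz : z = -(3 / 2 * w) - r * E0.G.om w r) : SBase R_t2a_c3_dd_f w z m r (E0.G.om w r) := by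
  have ht : w + z = -(w / 2) - r * E0.G.om w r := by rw [hz]; ring
  have x0 : 0 < m * r := mul_pos hm hr
  have om0 := om_nn hr hw hrw
  have omw := om_w hr hw hrw
  have omI := om_I hr hw hrw
  have hU : R_t2a_c3_dd_f.U w z m r = 0 := by
    simp only [RowF.U, R_t2a_c3_dd_f, u_T2_A_Q3m_P12, zx_val, xi1_val, xi3_val, xiw_val]
    try rw [ht]
    try rw [hz]
    try rw [E1_xi1 hr hw hrw]
    try rw [E2_xi1 hr hw hrw]
    try rw [E3_xi3 hr hw hrw]
    try rw [E4_xi3 hr hw hrw]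
    ring
  have k12 : R_t2a_c3_dd_f.K12 w z m r = ku.v w m r (m * r) := by
    unfold RowF.K12
    rw [hU]
    simp only [R_t2a_c3_dd_f, ku_wp, zero_mul]
  have a12 : R_t2a_c3_dd_f.A12 w z m r = 0 := by
    unfold RowF.A12
    rw [hU]
    simp only [R_t2a_c3_dd_f, zr7, zero_mul, neg_zero, Nat.cast_zero]
  have b12 : R_t2a_c3_dd_f.B12 w z m r = lva.v w m r (m * r) := by
    unfold RowF.B12
    rw [hU]
    simp only [R_t2a_c3_dd_f, lva_wp, zero_mul]
  have k23 : R_t2a_c3_dd_f.K23 w z m r = -(3 / 2 * ku.v w m r (m * r) + 3 / 4 * (w * (1 + E0.G.qw w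
    r)⁻¹) * (1 + r * ku.v w m r (m * r))) := by
    unfold RowF.K23
    rw [hU]
    simp only [R_t2a_c3_dd_f, k3m_zn, zero_mul]
    rw [hz, e3_k hr hw hrw]
    try ring
  have a23 : R_t2a_c3_dd_f.A23 w z m r = 0 := by
    unfold RowF.A23
    rw [hU]
    simp only [R_t2a_c3_dd_f, zr7, zero_mul, neg_zero, Nat.cast_zero]
  have b23 : R_t2a_c3_dd_f.B23 w z m r = -lvn.v w m r (m * r) := by
    unfold RowF.B23
    rw [hU]
    simp only [R_t2a_c3_dd_f, l3m_zn, zero_mul]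
    rw [hz, e3_l hr hw hrw]
    try ring
  have k13 : R_t2a_c3_dd_f.K13 w z m r = -(ku.v w m r (m * r) / 2 + 3 / 4 * (w * (1 + E0.G.qw w
    r)⁻¹) * (1 + r * ku.v w m r (m * r))) := by
    unfold RowF.K13
    rw [hU]
    simp only [R_t2a_c3_dd_f, tkP12_tn, zero_mul]
    rw [ht, e2_k hr hw hrw]
    try ring
  have a13 : R_t2a_c3_dd_f.A13 w z m r = 0 := by
    unfold RowF.A13
    rw [hU]
    simp only [R_t2a_c3_dd_f, taP12_tn, zero_mul, neg_zero, Nat.cast_zero]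
  have b13 : R_t2a_c3_dd_f.B13 w z m r = -lvm.v w m r (m * r) := by
    unfold RowF.B13
    rw [hU]
    simp only [R_t2a_c3_dd_f, tcP12_tn, zero_mul]
    rw [ht, e2_l hr hw hrw]
    try ring
  have la := lva_val hr w m hfar hrw
  have ln := lvn_val hr w m hrw
  have lm := lvm_val hr w m hfar
  have hD : R_t2a_c3_dd_f.DL w z m r = 0 := by
    unfold RowF.DL
    rw [dln_val, k12, k23, k13]
    ring
  have hN : R_t2a_c3_dd_f.NF w z m r = r * (E0.G.om w r) := by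
    simp only [RowF.NF, R_t2a_c3_dd_f, nff_T2, bef_val]
    rw [ht]
    push_cast
    ring
  have hG : R_t2a_c3_dd_f.GM w z m r = -(E0.G.om w r) := by
    unfold RowF.GM
    rw [k12, k23, k13]
    show gm3.v _ _ _ _ _ _ = _
    rw [gm3_val, ht]
    linear_combination (-(1 + r * ku.v w m r (m * r))) * omI
  have hb : R_t2a_c3_dd_f.NU w z m r / r + R_t2a_c3_dd_f.BS w z m r = -(E0.G.om w r) +
      0 := by
    simp only [RowF.NU, RowF.BS, R_t2a_c3_dd_f, nuf_T2, bs_T2_AQ3mf, bef_val, n1f_val, lmf_val,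
      mu_val', qo_val, eh_val, om_val, zx_val, xi1_val, xi3_val, xiw_val]
    try rw [ht]
    try rw [hz]
    try rw [E1_xi1 hr hw hrw]
    try rw [E2_xi1 hr hw hrw]
    try rw [E3_xi3 hr hw hrw]
    try rw [E4_xi3 hr hw hrw]
    rw [div_add' _ _ _ hr.ne', div_eq_iff hr.ne']
    push_cast
    linear_combination r * omw
  have he : (0 : ℝ) ≤ 0 := by
    exact le_rfl
  have hL : R_t2a_c3_dd_f.L w z ≠ 0 ∨ E0.G.om w r = 0 := by
    rcases hw.eq_or_lt with h | h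
    · right
      rw [← h, om_0]
    · left
      show -z ≠ 0
      rw [hz]
      have : 0 < 3 / 2 * w + r * E0.G.om w r := by positivity
      linarith
  have v1 : 0 ≤ R_t2a_c3_dd_f.V1A w z m r / r + R_t2a_c3_dd_f.V1B w z m r := by
    unfold RowF.V1A RowF.V1B
    rw [a12, a23, a13, b12, b23, b13, la, ln, lm]
    simp only [R_t2a_c3_dd_f, vf1_val]
    refine le_of_eq ?_
    ring
  have v2 : 0 ≤ R_t2a_c3_dd_f.V2A w z m r / r + R_t2a_c3_dd_f.V2B w z m r := by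
    unfold RowF.V2A RowF.V2B
    rw [a12, a23, a13, b12, b23, b13, la, ln, lm]
    simp only [R_t2a_c3_dd_f, vf2_val]
    refine le_of_eq ?_
    ring
  exact sb_core hr hm x1 hU hD hN hG hb he hL v1 v2

theorem sb_t2a_c3_dd_n {w z m r : ℝ} (hr : 0 < r) (hm : 0 < m) (x1 : m * r ≤ 1 / 40) (hw : 0 ≤ w)
    (hrw : r * w ≤ 1 / 16)
    (hfar : r < 1 / 100 → r * w ≤ 3 / 50)
    (hz : z = -(3 / 2 * w) - r * E0.G.om w r) : SBase R_t2a_c3_dd_n w z m r (G.be (m * r) * E0.G.om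
      w r) := by
  have ht : w + z = -(w / 2) - r * E0.G.om w r := by rw [hz]; ring
  have x0 : 0 < m * r := mul_pos hm hr
  have om0 := om_nn hr hw hrw
  have omw := om_w hr hw hrw
  have omI := om_I hr hw hrw
  have hU : R_t2a_c3_dd_n.U w z m r = 0 := by
    simp only [RowF.U, R_t2a_c3_dd_n, u_T2_A_Q3m_P12, zx_val, xi1_val, xi3_val, xiw_val]
    try rw [ht]
    try rw [hz]
    try rw [E1_xi1 hr hw hrw]
    try rw [E2_xi1 hr hw hrw]
    try rw [E3_xi3 hr hw hrw]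
    try rw [E4_xi3 hr hw hrw]
    ring
  have k12 : R_t2a_c3_dd_n.K12 w z m r = (1 + G.LAM (m * r) * G.mu (m * r)) * (ku.v w m r (m * r)) +
      G.mu (m * r) * (kv.v w m r (m * r)) := by
    unfold RowF.K12
    rw [hU]
    simp only [R_t2a_c3_dd_n, nku_wp, ku_wp, kv_wp, nkf_val, zero_mul]
  have a12 : R_t2a_c3_dd_n.A12 w z m r = 0 := by
    unfold RowF.A12
    rw [hU]
    simp only [R_t2a_c3_dd_n, zr7, zero_mul, neg_zero, Nat.cast_zero]
  have b12 : R_t2a_c3_dd_n.B12 w z m r = lva.v w m r (m * r) := by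
    unfold RowF.B12
    rw [hU]
    simp only [R_t2a_c3_dd_n, lva_wp, zero_mul]
  have k23 : R_t2a_c3_dd_n.K23 w z m r = (1 + G.LAM (m * r) * G.mu (m * r)) * (-(3 / 2 * ku.v w m r
    (m * r) + 3 / 4 * (w * (1 + E0.G.qw w r)⁻¹) * (1 + r * ku.v w m r (m * r)))) +
      G.mu (m * r) * (-(3 / 2 * kv.v w m r (m * r) + 3 / 4 * (w * (1 + E0.G.qw w r)⁻¹) * (G.B0 (m *
        r) + r * kv.v w m r (m * r)))) := by
    unfold RowF.K23
    rw [hU]
    simp only [R_t2a_c3_dd_n, nk3m_zn, k3m_zn, b3m_zn, nkf_val, zero_mul]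
    rw [hz, e3_k hr hw hrw, e3_b hr hw hrw]
    try ring
  have a23 : R_t2a_c3_dd_n.A23 w z m r = 0 := by
    unfold RowF.A23
    rw [hU]
    simp only [R_t2a_c3_dd_n, zr7, zero_mul, neg_zero, Nat.cast_zero]
  have b23 : R_t2a_c3_dd_n.B23 w z m r = -lvn.v w m r (m * r) := by
    unfold RowF.B23
    rw [hU]
    simp only [R_t2a_c3_dd_n, l3m_zn, zero_mul]
    rw [hz, e3_l hr hw hrw]
    try ring
  have k13 : R_t2a_c3_dd_n.K13 w z m r = (1 + G.LAM (m * r) * G.mu (m * r)) * (-(ku.v w m r (m * r)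
    / 2 + 3 / 4 * (w * (1 + E0.G.qw w r)⁻¹) * (1 + r * ku.v w m r (m * r)))) +
      G.mu (m * r) * (-(kv.v w m r (m * r) / 2 + 3 / 4 * (w * (1 + E0.G.qw w r)⁻¹) * (G.B0 (m * r)
        + r * kv.v w m r (m * r)))) := by
    unfold RowF.K13
    rw [hU]
    simp only [R_t2a_c3_dd_n, ntkP12_tn, tkP12_tn, tbP12_tn, nkf_val, zero_mul]
    rw [ht, e2_k hr hw hrw, e2_b hr hw hrw]
    try ring
  have a13 : R_t2a_c3_dd_n.A13 w z m r = 0 := by
    unfold RowF.A13
    rw [hU]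
    simp only [R_t2a_c3_dd_n, taP12_tn, zero_mul, neg_zero, Nat.cast_zero]
  have b13 : R_t2a_c3_dd_n.B13 w z m r = -lvm.v w m r (m * r) := by
    unfold RowF.B13
    rw [hU]
    simp only [R_t2a_c3_dd_n, tcP12_tn, zero_mul]
    rw [ht, e2_l hr hw hrw]
    try ring
  have la := lva_val hr w m hfar hrw
  have ln := lvn_val hr w m hrw
  have lm := lvm_val hr w m hfar
  have hD : R_t2a_c3_dd_n.DL w z m r = 0 := by
    unfold RowF.DL
    rw [dln_val, k12, k23, k13]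
    ring
  have hN : R_t2a_c3_dd_n.NF w z m r = r * (G.be (m * r) * E0.G.om w r) := by
    simp only [RowF.NF, R_t2a_c3_dd_n, nfn_T2, bef_val]
    rw [ht]
    push_cast
    ring
  have hG : R_t2a_c3_dd_n.GM w z m r = -(G.be (m * r) * E0.G.om w r) := by
    unfold RowF.GM
    rw [k12, k23, k13]
    show gm3.v _ _ _ _ _ _ = _
    rw [gm3_val, ht]
    unfold G.be
    linear_combination (-((1 + G.LAM (m * r) * G.mu (m * r)) * (1 + r * ku.v w m r (m * r)) +
      G.mu (m * r) * (G.B0 (m * r) + r * kv.v w m r (m * r)))) * omI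
  have hb : R_t2a_c3_dd_n.NU w z m r / r + R_t2a_c3_dd_n.BS w z m r = -(G.be (m * r) * E0.G.om w r)
    +
      G.mu (m * r) * G.LAM (m * r) * E0.G.om w r / 2 := by
    simp only [RowF.NU, RowF.BS, R_t2a_c3_dd_n, nun_T2, bs_T2_AQ3mn, bef_val, n1f_val, lmf_val,
      mu_val', qo_val, eh_val, om_val, zx_val, xi1_val, xi3_val, xiw_val]
    try rw [ht]
    try rw [hz]
    try rw [E1_xi1 hr hw hrw]
    try rw [E2_xi1 hr hw hrw]
    try rw [E3_xi3 hr hw hrw]
    try rw [E4_xi3 hr hw hrw]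
    rw [div_add' _ _ _ hr.ne', div_eq_iff hr.ne']
    push_cast
    linear_combination (r * (1 + G.LAM (m * r) * G.mu (m * r))) * omw
  have he : (0 : ℝ) ≤ G.mu (m * r) * G.LAM (m * r) * E0.G.om w r / 2 := by
    have h1 := LAM_nn x0.le (by linarith : m * r ≤ 1)
    have h2 := mu_nn (m * r)
    positivity
  have hL : R_t2a_c3_dd_n.L w z ≠ 0 ∨ G.be (m * r) * E0.G.om w r = 0 := by
    rcases hw.eq_or_lt with h | h
    · right
      rw [← h, om_0, mul_zero]
    · left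
      show -z ≠ 0
      rw [hz]
      have : 0 < 3 / 2 * w + r * E0.G.om w r := by positivity
      linarith
  have v1 : 0 ≤ R_t2a_c3_dd_n.V1A w z m r / r + R_t2a_c3_dd_n.V1B w z m r := by
    unfold RowF.V1A RowF.V1B
    rw [a12, a23, a13, b12, b23, b13, la, ln, lm]
    simp only [R_t2a_c3_dd_n, ml1_val]
    refine (phi_c hr hm x1 hw hrw).trans (le_of_eq ?_)
    try rw [ht]
    try rw [hz]
    linear_combination (G.mu (m * r) * G.LAM (m * r) / 2 * G.aL (m * r) r m w) * rrom hr hw hrw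
  have v2 : 0 ≤ R_t2a_c3_dd_n.V2A w z m r / r + R_t2a_c3_dd_n.V2B w z m r := by
    unfold RowF.V2A RowF.V2B
    rw [a12, a23, a13, b12, b23, b13, la, ln, lm]
    simp only [R_t2a_c3_dd_n, ml2_val]
    refine (phi_c hr hm x1 hw hrw).trans (le_of_eq ?_)
    try rw [ht]
    try rw [hz]
    linear_combination (G.mu (m * r) * G.LAM (m * r) / 2 * G.aL (m * r) r m w) * rrom hr hw hrw
  exact sb_core hr hm x1 hU hD hN hG hb he hL v1 v2

theorem sb_t2b_c1_dd_f {w z m r : ℝ} (hr : 0 < r) (hm : 0 < m) (x1 : m * r ≤ 1 / 40) (hw : 0 ≤ w)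
    (hrw : r * w ≤ 1 / 16)
    (hfar : r < 1 / 100 → r * w ≤ 3 / 50)
    (hz : z = -(3 / 2 * w) - r * E0.G.om w r) : SBase R_t2b_c1_dd_f w z m r (E0.G.om w r) := by
  have ht : w + z = -(w / 2) - r * E0.G.om w r := by rw [hz]; ring
  have x0 : 0 < m * r := mul_pos hm hr
  have om0 := om_nn hr hw hrw
  have omw := om_w hr hw hrw
  have omI := om_I hr hw hrw
  have hU : R_t2b_c1_dd_f.U w z m r = 0 := by
    simp only [RowF.U, R_t2b_c1_dd_f, u_T2_B_P1m_QW3, zx_val, xi1_val, xi3_val, xiw_val]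
    try rw [ht]
    try rw [hz]
    try rw [E1_xi1 hr hw hrw]
    try rw [E2_xi1 hr hw hrw]
    try rw [E3_xi3 hr hw hrw]
    try rw [E4_xi3 hr hw hrw]
    ring
  have k12 : R_t2b_c1_dd_f.K12 w z m r = ku.v w m r (m * r) := by
    unfold RowF.K12
    rw [hU]
    simp only [R_t2b_c1_dd_f, ku_wp, zero_mul]
  have a12 : R_t2b_c1_dd_f.A12 w z m r = 0 := by
    unfold RowF.A12
    rw [hU]
    simp only [R_t2b_c1_dd_f, zr7, zero_mul, neg_zero, Nat.cast_zero]
  have b12 : R_t2b_c1_dd_f.B12 w z m r = lva.v w m r (m * r) := by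
    unfold RowF.B12
    rw [hU]
    simp only [R_t2b_c1_dd_f, lva_wp, zero_mul]
  have k23 : R_t2b_c1_dd_f.K23 w z m r = -(3 / 2 * ku.v w m r (m * r) + 3 / 4 * (w * (1 + E0.G.qw w
    r)⁻¹) * (1 + r * ku.v w m r (m * r))) := by
    unfold RowF.K23
    rw [hU]
    simp only [R_t2b_c1_dd_f, tkQW3_zn, zero_mul]
    rw [hz, e3_k hr hw hrw]
    try ring
  have a23 : R_t2b_c1_dd_f.A23 w z m r = 0 := by
    unfold RowF.A23
    rw [hU]
    simp only [R_t2b_c1_dd_f, taQW3_zn, zero_mul, neg_zero, Nat.cast_zero]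
  have b23 : R_t2b_c1_dd_f.B23 w z m r = -lvn.v w m r (m * r) := by
    unfold RowF.B23
    rw [hU]
    simp only [R_t2b_c1_dd_f, tcQW3_zn, zero_mul]
    rw [hz, e3_l hr hw hrw]
    try ring
  have k13 : R_t2b_c1_dd_f.K13 w z m r = -(ku.v w m r (m * r) / 2 + 3 / 4 * (w * (1 + E0.G.qw w
    r)⁻¹) * (1 + r * ku.v w m r (m * r))) := by
    unfold RowF.K13
    rw [hU]
    simp only [R_t2b_c1_dd_f, k1m_tn, zero_mul]
    rw [ht, e2_k hr hw hrw]
    try ring
  have a13 : R_t2b_c1_dd_f.A13 w z m r = 0 := by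
    unfold RowF.A13
    rw [hU]
    simp only [R_t2b_c1_dd_f, zr7, zero_mul, neg_zero, Nat.cast_zero]
  have b13 : R_t2b_c1_dd_f.B13 w z m r = -lvm.v w m r (m * r) := by
    unfold RowF.B13
    rw [hU]
    simp only [R_t2b_c1_dd_f, l1m_tn, zero_mul]
    rw [ht, e2_l hr hw hrw]
    try ring
  have la := lva_val hr w m hfar hrw
  have ln := lvn_val hr w m hrw
  have lm := lvm_val hr w m hfar
  have hD : R_t2b_c1_dd_f.DL w z m r = 0 := by
    unfold RowF.DL
    rw [dln_val, k12, k23, k13]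
    ring
  have hN : R_t2b_c1_dd_f.NF w z m r = r * (E0.G.om w r) := by
    simp only [RowF.NF, R_t2b_c1_dd_f, nff_T2, bef_val]
    rw [ht]
    push_cast
    ring
  have hG : R_t2b_c1_dd_f.GM w z m r = -(E0.G.om w r) := by
    unfold RowF.GM
    rw [k12, k23, k13]
    show gm3.v _ _ _ _ _ _ = _
    rw [gm3_val, ht]
    linear_combination (-(1 + r * ku.v w m r (m * r))) * omI
  have hb : R_t2b_c1_dd_f.NU w z m r / r + R_t2b_c1_dd_f.BS w z m r = -(E0.G.om w r) +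
      0 := by
    simp only [RowF.NU, RowF.BS, R_t2b_c1_dd_f, nuf_T2, bs_T2_BP1mf, bef_val, n1f_val, lmf_val,
      mu_val', qo_val, eh_val, om_val, zx_val, xi1_val, xi3_val, xiw_val]
    try rw [ht]
    try rw [hz]
    try rw [E1_xi1 hr hw hrw]
    try rw [E2_xi1 hr hw hrw]
    try rw [E3_xi3 hr hw hrw]
    try rw [E4_xi3 hr hw hrw]
    rw [div_add' _ _ _ hr.ne', div_eq_iff hr.ne']
    push_cast
    linear_combination r * omw
  have he : (0 : ℝ) ≤ 0 := by
    exact le_rfl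
  have hL : R_t2b_c1_dd_f.L w z ≠ 0 ∨ E0.G.om w r = 0 := by
    rcases hw.eq_or_lt with h | h
    · right
      rw [← h, om_0]
    · left
      show -z ≠ 0
      rw [hz]
      have : 0 < 3 / 2 * w + r * E0.G.om w r := by positivity
      linarith
  have v1 : 0 ≤ R_t2b_c1_dd_f.V1A w z m r / r + R_t2b_c1_dd_f.V1B w z m r := by
    unfold RowF.V1A RowF.V1B
    rw [a12, a23, a13, b12, b23, b13, la, ln, lm]
    simp only [R_t2b_c1_dd_f, vf1_val]
    refine le_of_eq ?_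
    ring
  have v2 : 0 ≤ R_t2b_c1_dd_f.V2A w z m r / r + R_t2b_c1_dd_f.V2B w z m r := by
    unfold RowF.V2A RowF.V2B
    rw [a12, a23, a13, b12, b23, b13, la, ln, lm]
    simp only [R_t2b_c1_dd_f, vf2_val]
    refine le_of_eq ?_
    ring
  exact sb_core hr hm x1 hU hD hN hG hb he hL v1 v2

theorem sb_t2b_c1_dd_n {w z m r : ℝ} (hr : 0 < r) (hm : 0 < m) (x1 : m * r ≤ 1 / 40) (hw : 0 ≤ w)
    (hrw : r * w ≤ 1 / 16)
    (hfar : r < 1 / 100 → r * w ≤ 3 / 50)
    (hz : z = -(3 / 2 * w) - r * E0.G.om w r) : SBase R_t2b_c1_dd_n w z m r (G.be (m * r) * E0.G.om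
      w r) := by
  have ht : w + z = -(w / 2) - r * E0.G.om w r := by rw [hz]; ring
  have x0 : 0 < m * r := mul_pos hm hr
  have om0 := om_nn hr hw hrw
  have omw := om_w hr hw hrw
  have omI := om_I hr hw hrw
  have hU : R_t2b_c1_dd_n.U w z m r = 0 := by
    simp only [RowF.U, R_t2b_c1_dd_n, u_T2_B_P1m_QW3, zx_val, xi1_val, xi3_val, xiw_val]
    try rw [ht]
    try rw [hz]
    try rw [E1_xi1 hr hw hrw]
    try rw [E2_xi1 hr hw hrw]
    try rw [E3_xi3 hr hw hrw]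
    try rw [E4_xi3 hr hw hrw]
    ring
  have k12 : R_t2b_c1_dd_n.K12 w z m r = (1 + G.LAM (m * r) * G.mu (m * r)) * (ku.v w m r (m * r)) +
      G.mu (m * r) * (kv.v w m r (m * r)) := by
    unfold RowF.K12
    rw [hU]
    simp only [R_t2b_c1_dd_n, nku_wp, ku_wp, kv_wp, nkf_val, zero_mul]
  have a12 : R_t2b_c1_dd_n.A12 w z m r = 0 := by
    unfold RowF.A12
    rw [hU]
    simp only [R_t2b_c1_dd_n, zr7, zero_mul, neg_zero, Nat.cast_zero]
  have b12 : R_t2b_c1_dd_n.B12 w z m r = lva.v w m r (m * r) := by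
    unfold RowF.B12
    rw [hU]
    simp only [R_t2b_c1_dd_n, lva_wp, zero_mul]
  have k23 : R_t2b_c1_dd_n.K23 w z m r = (1 + G.LAM (m * r) * G.mu (m * r)) * (-(3 / 2 * ku.v w m r
    (m * r) + 3 / 4 * (w * (1 + E0.G.qw w r)⁻¹) * (1 + r * ku.v w m r (m * r)))) +
      G.mu (m * r) * (-(3 / 2 * kv.v w m r (m * r) + 3 / 4 * (w * (1 + E0.G.qw w r)⁻¹) * (G.B0 (m *
        r) + r * kv.v w m r (m * r)))) := by
    unfold RowF.K23
    rw [hU]
    simp only [R_t2b_c1_dd_n, ntkQW3_zn, tkQW3_zn, tbQW3_zn, nkf_val, zero_mul]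
    rw [hz, e3_k hr hw hrw, e3_b hr hw hrw]
    try ring
  have a23 : R_t2b_c1_dd_n.A23 w z m r = 0 := by
    unfold RowF.A23
    rw [hU]
    simp only [R_t2b_c1_dd_n, taQW3_zn, zero_mul, neg_zero, Nat.cast_zero]
  have b23 : R_t2b_c1_dd_n.B23 w z m r = -lvn.v w m r (m * r) := by
    unfold RowF.B23
    rw [hU]
    simp only [R_t2b_c1_dd_n, tcQW3_zn, zero_mul]
    rw [hz, e3_l hr hw hrw]
    try ring
  have k13 : R_t2b_c1_dd_n.K13 w z m r = (1 + G.LAM (m * r) * G.mu (m * r)) * (-(ku.v w m r (m * r)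
    / 2 + 3 / 4 * (w * (1 + E0.G.qw w r)⁻¹) * (1 + r * ku.v w m r (m * r)))) +
      G.mu (m * r) * (-(kv.v w m r (m * r) / 2 + 3 / 4 * (w * (1 + E0.G.qw w r)⁻¹) * (G.B0 (m * r)
        + r * kv.v w m r (m * r)))) := by
    unfold RowF.K13
    rw [hU]
    simp only [R_t2b_c1_dd_n, nk1m_tn, k1m_tn, b1m_tn, nkf_val, zero_mul]
    rw [ht, e2_k hr hw hrw, e2_b hr hw hrw]
    try ring
  have a13 : R_t2b_c1_dd_n.A13 w z m r = 0 := by
    unfold RowF.A13
    rw [hU]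
    simp only [R_t2b_c1_dd_n, zr7, zero_mul, neg_zero, Nat.cast_zero]
  have b13 : R_t2b_c1_dd_n.B13 w z m r = -lvm.v w m r (m * r) := by
    unfold RowF.B13
    rw [hU]
    simp only [R_t2b_c1_dd_n, l1m_tn, zero_mul]
    rw [ht, e2_l hr hw hrw]
    try ring
  have la := lva_val hr w m hfar hrw
  have ln := lvn_val hr w m hrw
  have lm := lvm_val hr w m hfar
  have hD : R_t2b_c1_dd_n.DL w z m r = 0 := by
    unfold RowF.DL
    rw [dln_val, k12, k23, k13]
    ring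
  have hN : R_t2b_c1_dd_n.NF w z m r = r * (G.be (m * r) * E0.G.om w r) := by
    simp only [RowF.NF, R_t2b_c1_dd_n, nfn_T2, bef_val]
    rw [ht]
    push_cast
    ring
  have hG : R_t2b_c1_dd_n.GM w z m r = -(G.be (m * r) * E0.G.om w r) := by
    unfold RowF.GM
    rw [k12, k23, k13]
    show gm3.v _ _ _ _ _ _ = _
    rw [gm3_val, ht]
    unfold G.be
    linear_combination (-((1 + G.LAM (m * r) * G.mu (m * r)) * (1 + r * ku.v w m r (m * r)) +
      G.mu (m * r) * (G.B0 (m * r) + r * kv.v w m r (m * r)))) * omI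
  have hb : R_t2b_c1_dd_n.NU w z m r / r + R_t2b_c1_dd_n.BS w z m r = -(G.be (m * r) * E0.G.om w r)
    +
      G.mu (m * r) * G.LAM (m * r) * E0.G.om w r / 2 := by
    simp only [RowF.NU, RowF.BS, R_t2b_c1_dd_n, nun_T2, bs_T2_BP1mn, bef_val, n1f_val, lmf_val,
      mu_val', qo_val, eh_val, om_val, zx_val, xi1_val, xi3_val, xiw_val]
    try rw [ht]
    try rw [hz]
    try rw [E1_xi1 hr hw hrw]
    try rw [E2_xi1 hr hw hrw]
    try rw [E3_xi3 hr hw hrw]
    try rw [E4_xi3 hr hw hrw]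
    rw [div_add' _ _ _ hr.ne', div_eq_iff hr.ne']
    push_cast
    linear_combination (r * (1 + G.LAM (m * r) * G.mu (m * r))) * omw
  have he : (0 : ℝ) ≤ G.mu (m * r) * G.LAM (m * r) * E0.G.om w r / 2 := by
    have h1 := LAM_nn x0.le (by linarith : m * r ≤ 1)
    have h2 := mu_nn (m * r)
    positivity
  have hL : R_t2b_c1_dd_n.L w z ≠ 0 ∨ G.be (m * r) * E0.G.om w r = 0 := by
    rcases hw.eq_or_lt with h | h
    · right
      rw [← h, om_0, mul_zero]
    · left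
      show -z ≠ 0
      rw [hz]
      have : 0 < 3 / 2 * w + r * E0.G.om w r := by positivity
      linarith
  have v1 : 0 ≤ R_t2b_c1_dd_n.V1A w z m r / r + R_t2b_c1_dd_n.V1B w z m r := by
    unfold RowF.V1A RowF.V1B
    rw [a12, a23, a13, b12, b23, b13, la, ln, lm]
    simp only [R_t2b_c1_dd_n, ml1_val]
    refine (phi_c hr hm x1 hw hrw).trans (le_of_eq ?_)
    try rw [ht]
    try rw [hz]
    linear_combination (G.mu (m * r) * G.LAM (m * r) / 2 * G.aL (m * r) r m w) * rrom hr hw hrw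
  have v2 : 0 ≤ R_t2b_c1_dd_n.V2A w z m r / r + R_t2b_c1_dd_n.V2B w z m r := by
    unfold RowF.V2A RowF.V2B
    rw [a12, a23, a13, b12, b23, b13, la, ln, lm]
    simp only [R_t2b_c1_dd_n, ml2_val]
    refine (phi_c hr hm x1 hw hrw).trans (le_of_eq ?_)
    try rw [ht]
    try rw [hz]
    linear_combination (G.mu (m * r) * G.LAM (m * r) / 2 * G.aL (m * r) r m w) * rrom hr hw hrw
  exact sb_core hr hm x1 hU hD hN hG hb he hL v1 v2

end Pool.Agent.Strip051.LC.E1.Ch
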