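import Pool.Agent.Strip051.LC.E1.Ch.Val5
import Pool.Agent.Strip051.LC.E1.Ch.Rw

/-! # Rests near the full period: the rows and their functions -/

set_option linter.unusedVariables false
set_option linter.unusedSimpArgs false

namespace Pool.Agent.Strip051.LC.E1.Ch

open Pool.Agent.Strip051.PB
open Pool.Agent.Strip051.LC.E1.G (hg)

theorem g_t2a_W_f {r lam w z xi' : ℝ} (D : Dom .pnp r lam w z) (e_xip : xi' = E0.G.xiw z r + r *
    E0.G.om w r) (h1 : E0.G.xiw (w + z) r ≤ xi') (h2 : 1 / 2 + r * xi' ≤ G.xb (w + z) r) :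
    Good R_t2a_W_f w z lam r
      (RowT .far .pnp B2 r lam w z (-xi') (-G.W1 r lam z) (-G.Pb xi' r lam (w + z))) := by
  obtain ⟨H1, H2, H3⟩ := hc_of D
  obtain ⟨ka, kb, kc⟩ : 0 ≤ w ∧ z ≤ 0 ∧ 0 ≤ w + z := D.ok
  have kw : 0 < w := D.l
  have hU : R_t2a_W_f.U w z lam r = xi' - E0.G.xiw (w + z) r := by
    simp only [RowF.U, R_t2a_W_f, u_T2_A_QW_PW5, zx_val, xi1_val, xi3_val, xiw_val, xw0p_val,
      xq0p_val]
    linarith
  have hu0 : 0 ≤ R_t2a_W_f.U w z lam r := by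
    rw [hU]
    linarith
  have hp : PatF .pnp R_t2a_W_f := ⟨rfl, rfl, rfl, rfl⟩
  have hD := dm_of hp D hu0
  have th := th_PW5 H3 (xi')
  have hn : R_t2a_W_f.NF w z lam r = -B2.g w z := by
    simp only [RowF.NF, R_t2a_W_f, nff_T2, bef_val]
    unfold Bs.g B2
    push_cast
    ring
  have hb : R_t2a_W_f.NU w z lam r / r + R_t2a_W_f.BS w z lam r = (3 / 2 * B2.g w z) / r +
    (-(E0.G.om w r / 2) + ((w + z) * (-(r * E0.G.om w r)) - w * ((-xi'))) / 2) := by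
    subst e_xip
    simp only [RowF.NU, RowF.BS, R_t2a_W_f, nuf_T2, bs_T2_AQWf, bef_val, n1f_val, lmf_val, mu_val',
      qo_val, eh_val, om_val, zx_val, xi1_val, xi3_val, xiw_val]
    unfold Bs.g B2
    push_cast
    ring
  have k12 : R_t2a_W_f.K12 w z lam r = ((G.S1 r lam w)).k := by
    unfold RowF.K12
    rw [hU]
    simp only [R_t2a_W_f, ku_wp]
    rw [S1_k H1]
  have c12 : R_t2a_W_f.A12 w z lam r / r + R_t2a_W_f.B12 w z lam r = ((G.S1 r lam w)).c r := by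
    unfold RowF.A12 RowF.B12
    rw [hU]
    simp only [R_t2a_W_f, zr7, lva_wp]
    rw [cS1 H1]
    push_cast
    ring
  have k23 : R_t2a_W_f.K23 w z lam r = ((-G.W1 r lam z)).k := by
    unfold RowF.K23
    rw [hU]
    simp only [R_t2a_W_f, kwl_zn]
    rw [neg_k, kwl_val]
  have c23 : R_t2a_W_f.A23 w z lam r / r + R_t2a_W_f.B23 w z lam r = ((-G.W1 r lam z)).c r := by
    unfold RowF.A23 RowF.B23
    rw [hU]
    simp only [R_t2a_W_f, xwl_zn, zr7]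
    rw [neg_c, cW1]
    push_cast
    ring
  have k13 : R_t2a_W_f.K13 w z lam r = ((-G.Pb xi' r lam (w + z))).k := by
    unfold RowF.K13
    rw [hU]
    simp only [R_t2a_W_f, tkPW5_tn]
    rw [neg_k, th.k]
    try ring
  have c13 : R_t2a_W_f.A13 w z lam r / r + R_t2a_W_f.B13 w z lam r = ((-G.Pb xi' r lam (w + z))).c
    r := by
    unfold RowF.A13 RowF.B13
    rw [hU]
    simp only [R_t2a_W_f, taPW5_tn, zr7, dwl_val, dwu_val]
    rw [neg_c, th.c]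
    push_cast
    try ring
  exact far_good hp ⟨rfl, rfl⟩ hD hn hb ⟨k12, k23, k13, c12, c23, c13⟩

theorem g_t2a_W_n {r lam w z xi' : ℝ} (D : Dom .pnp r lam w z) (e_xip : xi' = E0.G.xiw z r + r *
    E0.G.om w r) (h1 : E0.G.xiw (w + z) r ≤ xi') (h2 : 1 / 2 + r * xi' ≤ G.xb (w + z) r) :
    Good R_t2a_W_n w z lam r
      (RowT .near .pnp B2 r lam w z (-xi') (-G.W1 r lam z) (-G.Pb xi' r lam (w + z))) := by
  obtain ⟨H1, H2, H3⟩ := hc_of D
  obtain ⟨ka, kb, kc⟩ : 0 ≤ w ∧ z ≤ 0 ∧ 0 ≤ w + z := D.ok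
  have kw : 0 < w := D.l
  have hU : R_t2a_W_n.U w z lam r = xi' - E0.G.xiw (w + z) r := by
    simp only [RowF.U, R_t2a_W_n, u_T2_A_QW_PW5, zx_val, xi1_val, xi3_val, xiw_val, xw0p_val,
      xq0p_val]
    linarith
  have hu0 : 0 ≤ R_t2a_W_n.U w z lam r := by
    rw [hU]
    linarith
  have hp : PatF .pnp R_t2a_W_n := ⟨rfl, rfl, rfl, rfl⟩
  have hD := dm_of hp D hu0
  have th := th_PW5 H3 (xi')
  have hn : R_t2a_W_n.NF w z lam r = -(G.be (lam * r) * B2.g w z) := by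
    simp only [RowF.NF, R_t2a_W_n, nfn_T2, bef_val]
    unfold Bs.g B2
    push_cast
    ring
  have hb : R_t2a_W_n.NU w z lam r / r + R_t2a_W_n.BS w z lam r =
      (1 + G.LAM (lam * r) * G.mu (lam * r)) * (3 / 2 * B2.g w z) / r +
      ((1 + G.LAM (lam * r) * G.mu (lam * r)) * (-(E0.G.om w r / 2) + ((w + z) * (-(r * E0.G.om w
        r)) - w * ((-xi'))) / 2) +
        G.mu (lam * r) * G.LAM (lam * r) * lam * G.q1 (lam * r) / (2 * G.eh (lam * r)) * B2.g w z)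
          := by
    subst e_xip
    have e := near_hb (g := B2.g w z) D.r0 D.l0 D.e
    simp only [RowF.NU, RowF.BS, R_t2a_W_n, nun_T2, bs_T2_AQWn, bef_val, n1f_val, lmf_val, mu_val',
      qo_val, eh_val, om_val, zx_val, xi1_val, xi3_val, xiw_val]
    unfold Bs.g B2 at e ⊢
    push_cast
    linear_combination e
  have k12 : R_t2a_W_n.K12 w z lam r = G.nk (lam * r) ((G.S1 r lam w)).k ((G.S1 r lam w)).b := by
    unfold RowF.K12
    rw [hU]
    simp only [R_t2a_W_n, nku_wp, ku_wp, kv_wp, nkf_val]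
    unfold G.nk
    rw [S1_k H1, S1_b H1]
  have c12 : R_t2a_W_n.A12 w z lam r / r + R_t2a_W_n.B12 w z lam r = ((G.S1 r lam w)).c r := by
    unfold RowF.A12 RowF.B12
    rw [hU]
    simp only [R_t2a_W_n, zr7, lva_wp]
    rw [cS1 H1]
    push_cast
    ring
  have k23 : R_t2a_W_n.K23 w z lam r = G.nk (lam * r) ((-G.W1 r lam z)).k ((-G.W1 r lam z)).b := by
    unfold RowF.K23
    rw [hU]
    simp only [R_t2a_W_n, nkwl_zn, kwl_zn, bwl_zn, nkf_val]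
    unfold G.nk
    rw [neg_k, neg_b, kwl_val, bwl_val]
  have c23 : R_t2a_W_n.A23 w z lam r / r + R_t2a_W_n.B23 w z lam r = ((-G.W1 r lam z)).c r := by
    unfold RowF.A23 RowF.B23
    rw [hU]
    simp only [R_t2a_W_n, xwl_zn, zr7]
    rw [neg_c, cW1]
    push_cast
    ring
  have k13 : R_t2a_W_n.K13 w z lam r = G.nk (lam * r) ((-G.Pb xi' r lam (w + z))).k ((-G.Pb xi' r
    lam (w + z))).b := by
    unfold RowF.K13
    rw [hU]
    simp only [R_t2a_W_n, ntkPW5_tn, tkPW5_tn, tbPW5_tn, nkf_val]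
    unfold G.nk
    rw [neg_k, neg_b, th.k, th.b]
    try ring
  have c13 : R_t2a_W_n.A13 w z lam r / r + R_t2a_W_n.B13 w z lam r = ((-G.Pb xi' r lam (w + z))).c
    r := by
    unfold RowF.A13 RowF.B13
    rw [hU]
    simp only [R_t2a_W_n, taPW5_tn, zr7, dwl_val, dwu_val]
    rw [neg_c, th.c]
    push_cast
    try ring
  exact near_good hp ⟨rfl, rfl⟩ hD hn hb ⟨k12, k23, k13, c12, c23, c13⟩ rfl rfl

theorem g_t2a_c3_dd_f {r lam w z xi' : ℝ} (D : Dom .pnn r lam w z) (e_xip : xi' = E0.G.xi3 z r + r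
    * E0.G.om w r) (h1 : E0.G.xi1 (w + z) r ≤ xi') (h2 : 1 / 2 + r * xi' ≤ G.xa (w + z) r) :
    Good R_t2a_c3_dd_f w z lam r
      (RowT .far .pnn B2 r lam w z (-xi') (-G.C3d r lam z) (-G.Pa xi' r lam (w + z))) := by
  obtain ⟨H1, H2, H3⟩ := hc_of D
  obtain ⟨ka, kb, kc⟩ : 0 ≤ w ∧ z ≤ 0 ∧ w + z ≤ 0 := D.ok
  have hU : R_t2a_c3_dd_f.U w z lam r = xi' - E0.G.xi1 (w + z) r := by
    simp only [RowF.U, R_t2a_c3_dd_f, u_T2_A_Q3m_P12, zx_val, xi1_val, xi3_val, xiw_val, xw0p_val,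
      xq0p_val]
    linarith
  have hu0 : 0 ≤ R_t2a_c3_dd_f.U w z lam r := by
    rw [hU]
    linarith
  have hp : PatF .pnn R_t2a_c3_dd_f := ⟨rfl, rfl, rfl, rfl⟩
  have hD := dm_of hp D hu0
  have th := th_P12 H3 (xi')
  have hn : R_t2a_c3_dd_f.NF w z lam r = -B2.g w z := by
    simp only [RowF.NF, R_t2a_c3_dd_f, nff_T2, bef_val]
    unfold Bs.g B2
    push_cast
    ring
  have hb : R_t2a_c3_dd_f.NU w z lam r / r + R_t2a_c3_dd_f.BS w z lam r = (3 / 2 * B2.g w z) / r +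
    (-(E0.G.om w r / 2) + ((w + z) * (-(r * E0.G.om w r)) - w * ((-xi'))) / 2) := by
    subst e_xip
    simp only [RowF.NU, RowF.BS, R_t2a_c3_dd_f, nuf_T2, bs_T2_AQ3mf, bef_val, n1f_val, lmf_val,
      mu_val', qo_val, eh_val, om_val, zx_val, xi1_val, xi3_val, xiw_val]
    unfold Bs.g B2
    push_cast
    ring
  have k12 : R_t2a_c3_dd_f.K12 w z lam r = ((G.S1 r lam w)).k := by
    unfold RowF.K12
    rw [hU]
    simp only [R_t2a_c3_dd_f, ku_wp]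
    rw [S1_k H1]
  have c12 : R_t2a_c3_dd_f.A12 w z lam r / r + R_t2a_c3_dd_f.B12 w z lam r = ((G.S1 r lam w)).c r
    := by
    unfold RowF.A12 RowF.B12
    rw [hU]
    simp only [R_t2a_c3_dd_f, zr7, lva_wp]
    rw [cS1 H1]
    push_cast
    ring
  have k23 : R_t2a_c3_dd_f.K23 w z lam r = ((-G.C3d r lam z)).k := by
    unfold RowF.K23
    rw [hU]
    simp only [R_t2a_c3_dd_f, k3m_zn]
    rw [neg_k, k3m_val H2]
  have c23 : R_t2a_c3_dd_f.A23 w z lam r / r + R_t2a_c3_dd_f.B23 w z lam r = ((-G.C3d r lam z)).c r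
    := by
    unfold RowF.A23 RowF.B23
    rw [hU]
    simp only [R_t2a_c3_dd_f, zr7, l3m_zn]
    rw [neg_c, cC3d H2]
    push_cast
    ring
  have k13 : R_t2a_c3_dd_f.K13 w z lam r = ((-G.Pa xi' r lam (w + z))).k := by
    unfold RowF.K13
    rw [hU]
    simp only [R_t2a_c3_dd_f, tkP12_tn]
    rw [neg_k, th.k]
    try ring
  have c13 : R_t2a_c3_dd_f.A13 w z lam r / r + R_t2a_c3_dd_f.B13 w z lam r = ((-G.Pa xi' r lam (w +
    z))).c r := by
    unfold RowF.A13 RowF.B13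
    rw [hU]
    simp only [R_t2a_c3_dd_f, taP12_tn, tcP12_tn, dwl_val, dwu_val]
    rw [neg_c, th.c]
    push_cast
    try ring
  exact far_good hp ⟨rfl, rfl⟩ hD hn hb ⟨k12, k23, k13, c12, c23, c13⟩

theorem g_t2a_c3_dd_n {r lam w z xi' : ℝ} (D : Dom .pnn r lam w z) (e_xip : xi' = E0.G.xi3 z r + r
    * E0.G.om w r) (h1 : E0.G.xi1 (w + z) r ≤ xi') (h2 : 1 / 2 + r * xi' ≤ G.xa (w + z) r) :
    Good R_t2a_c3_dd_n w z lam r
      (RowT .near .pnn B2 r lam w z (-xi') (-G.C3d r lam z) (-G.Pa xi' r lam (w + z))) := by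
  obtain ⟨H1, H2, H3⟩ := hc_of D
  obtain ⟨ka, kb, kc⟩ : 0 ≤ w ∧ z ≤ 0 ∧ w + z ≤ 0 := D.ok
  have hU : R_t2a_c3_dd_n.U w z lam r = xi' - E0.G.xi1 (w + z) r := by
    simp only [RowF.U, R_t2a_c3_dd_n, u_T2_A_Q3m_P12, zx_val, xi1_val, xi3_val, xiw_val, xw0p_val,
      xq0p_val]
    linarith
  have hu0 : 0 ≤ R_t2a_c3_dd_n.U w z lam r := by
    rw [hU]
    linarith
  have hp : PatF .pnn R_t2a_c3_dd_n := ⟨rfl, rfl, rfl, rfl⟩
  have hD := dm_of hp D hu0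
  have th := th_P12 H3 (xi')
  have hn : R_t2a_c3_dd_n.NF w z lam r = -(G.be (lam * r) * B2.g w z) := by
    simp only [RowF.NF, R_t2a_c3_dd_n, nfn_T2, bef_val]
    unfold Bs.g B2
    push_cast
    ring
  have hb : R_t2a_c3_dd_n.NU w z lam r / r + R_t2a_c3_dd_n.BS w z lam r =
      (1 + G.LAM (lam * r) * G.mu (lam * r)) * (3 / 2 * B2.g w z) / r +
      ((1 + G.LAM (lam * r) * G.mu (lam * r)) * (-(E0.G.om w r / 2) + ((w + z) * (-(r * E0.G.om w
        r)) - w * ((-xi'))) / 2) +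
        G.mu (lam * r) * G.LAM (lam * r) * lam * G.q1 (lam * r) / (2 * G.eh (lam * r)) * B2.g w z)
          := by
    subst e_xip
    have e := near_hb (g := B2.g w z) D.r0 D.l0 D.e
    simp only [RowF.NU, RowF.BS, R_t2a_c3_dd_n, nun_T2, bs_T2_AQ3mn, bef_val, n1f_val, lmf_val,
      mu_val', qo_val, eh_val, om_val, zx_val, xi1_val, xi3_val, xiw_val]
    unfold Bs.g B2 at e ⊢
    push_cast
    linear_combination e
  have k12 : R_t2a_c3_dd_n.K12 w z lam r = G.nk (lam * r) ((G.S1 r lam w)).k ((G.S1 r lam w)).b :=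
    by
    unfold RowF.K12
    rw [hU]
    simp only [R_t2a_c3_dd_n, nku_wp, ku_wp, kv_wp, nkf_val]
    unfold G.nk
    rw [S1_k H1, S1_b H1]
  have c12 : R_t2a_c3_dd_n.A12 w z lam r / r + R_t2a_c3_dd_n.B12 w z lam r = ((G.S1 r lam w)).c r
    := by
    unfold RowF.A12 RowF.B12
    rw [hU]
    simp only [R_t2a_c3_dd_n, zr7, lva_wp]
    rw [cS1 H1]
    push_cast
    ring
  have k23 : R_t2a_c3_dd_n.K23 w z lam r = G.nk (lam * r) ((-G.C3d r lam z)).k ((-G.C3d r lam z)).b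
    := by
    unfold RowF.K23
    rw [hU]
    simp only [R_t2a_c3_dd_n, nk3m_zn, k3m_zn, b3m_zn, nkf_val]
    unfold G.nk
    rw [neg_k, neg_b, k3m_val H2, b3m_val H2]
  have c23 : R_t2a_c3_dd_n.A23 w z lam r / r + R_t2a_c3_dd_n.B23 w z lam r = ((-G.C3d r lam z)).c r
    := by
    unfold RowF.A23 RowF.B23
    rw [hU]
    simp only [R_t2a_c3_dd_n, zr7, l3m_zn]
    rw [neg_c, cC3d H2]
    push_cast
    ring
  have k13 : R_t2a_c3_dd_n.K13 w z lam r = G.nk (lam * r) ((-G.Pa xi' r lam (w + z))).k ((-G.Pa xi'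
    r lam (w + z))).b := by
    unfold RowF.K13
    rw [hU]
    simp only [R_t2a_c3_dd_n, ntkP12_tn, tkP12_tn, tbP12_tn, nkf_val]
    unfold G.nk
    rw [neg_k, neg_b, th.k, th.b]
    try ring
  have c13 : R_t2a_c3_dd_n.A13 w z lam r / r + R_t2a_c3_dd_n.B13 w z lam r = ((-G.Pa xi' r lam (w +
    z))).c r := by
    unfold RowF.A13 RowF.B13
    rw [hU]
    simp only [R_t2a_c3_dd_n, taP12_tn, tcP12_tn, dwl_val, dwu_val]
    rw [neg_c, th.c]
    push_cast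
    try ring
  exact near_good hp ⟨rfl, rfl⟩ hD hn hb ⟨k12, k23, k13, c12, c23, c13⟩ rfl rfl

theorem g_t2a_c3_du_f {r lam w z xi' : ℝ} (D : Dom .pnp r lam w z) (e_xip : xi' = E0.G.xi3 z r + r
    * E0.G.om w r) (h1 : E0.G.xiw (w + z) r ≤ xi') (h2 : 1 / 2 + r * xi' ≤ G.xb (w + z) r) :
    Good R_t2a_c3_du_f w z lam r
      (RowT .far .pnp B2 r lam w z (-xi') (-G.C3d r lam z) (-G.Pb xi' r lam (w + z))) := by
  obtain ⟨H1, H2, H3⟩ := hc_of D
  obtain ⟨ka, kb, kc⟩ : 0 ≤ w ∧ z ≤ 0 ∧ 0 ≤ w + z := D.ok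
  have kw : 0 < w := D.l
  have hU : R_t2a_c3_du_f.U w z lam r = xi' - E0.G.xiw (w + z) r := by
    simp only [RowF.U, R_t2a_c3_du_f, u_T2_A_Q3m_PW5, zx_val, xi1_val, xi3_val, xiw_val, xw0p_val,
      xq0p_val]
    linarith
  have hu0 : 0 ≤ R_t2a_c3_du_f.U w z lam r := by
    rw [hU]
    linarith
  have hp : PatF .pnp R_t2a_c3_du_f := ⟨rfl, rfl, rfl, rfl⟩
  have hD := dm_of hp D hu0
  have th := th_PW5 H3 (xi')
  have hn : R_t2a_c3_du_f.NF w z lam r = -B2.g w z := by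
    simp only [RowF.NF, R_t2a_c3_du_f, nff_T2, bef_val]
    unfold Bs.g B2
    push_cast
    ring
  have hb : R_t2a_c3_du_f.NU w z lam r / r + R_t2a_c3_du_f.BS w z lam r = (3 / 2 * B2.g w z) / r +
    (-(E0.G.om w r / 2) + ((w + z) * (-(r * E0.G.om w r)) - w * ((-xi'))) / 2) := by
    subst e_xip
    simp only [RowF.NU, RowF.BS, R_t2a_c3_du_f, nuf_T2, bs_T2_AQ3mf, bef_val, n1f_val, lmf_val,
      mu_val', qo_val, eh_val, om_val, zx_val, xi1_val, xi3_val, xiw_val]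
    unfold Bs.g B2
    push_cast
    ring
  have k12 : R_t2a_c3_du_f.K12 w z lam r = ((G.S1 r lam w)).k := by
    unfold RowF.K12
    rw [hU]
    simp only [R_t2a_c3_du_f, ku_wp]
    rw [S1_k H1]
  have c12 : R_t2a_c3_du_f.A12 w z lam r / r + R_t2a_c3_du_f.B12 w z lam r = ((G.S1 r lam w)).c r
    := by
    unfold RowF.A12 RowF.B12
    rw [hU]
    simp only [R_t2a_c3_du_f, zr7, lva_wp]
    rw [cS1 H1]
    push_cast
    ring
  have k23 : R_t2a_c3_du_f.K23 w z lam r = ((-G.C3d r lam z)).k := by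
    unfold RowF.K23
    rw [hU]
    simp only [R_t2a_c3_du_f, k3m_zn]
    rw [neg_k, k3m_val H2]
  have c23 : R_t2a_c3_du_f.A23 w z lam r / r + R_t2a_c3_du_f.B23 w z lam r = ((-G.C3d r lam z)).c r
    := by
    unfold RowF.A23 RowF.B23
    rw [hU]
    simp only [R_t2a_c3_du_f, zr7, l3m_zn]
    rw [neg_c, cC3d H2]
    push_cast
    ring
  have k13 : R_t2a_c3_du_f.K13 w z lam r = ((-G.Pb xi' r lam (w + z))).k := by
    unfold RowF.K13
    rw [hU]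
    simp only [R_t2a_c3_du_f, tkPW5_tn]
    rw [neg_k, th.k]
    try ring
  have c13 : R_t2a_c3_du_f.A13 w z lam r / r + R_t2a_c3_du_f.B13 w z lam r = ((-G.Pb xi' r lam (w +
    z))).c r := by
    unfold RowF.A13 RowF.B13
    rw [hU]
    simp only [R_t2a_c3_du_f, taPW5_tn, zr7, dwl_val, dwu_val]
    rw [neg_c, th.c]
    push_cast
    try ring
  exact far_good hp ⟨rfl, rfl⟩ hD hn hb ⟨k12, k23, k13, c12, c23, c13⟩

theorem g_t2a_c3_du_n {r lam w z xi' : ℝ} (D : Dom .pnp r lam w z) (e_xip : xi' = E0.G.xi3 z r + r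
    * E0.G.om w r) (h1 : E0.G.xiw (w + z) r ≤ xi') (h2 : 1 / 2 + r * xi' ≤ G.xb (w + z) r) :
    Good R_t2a_c3_du_n w z lam r
      (RowT .near .pnp B2 r lam w z (-xi') (-G.C3d r lam z) (-G.Pb xi' r lam (w + z))) := by
  obtain ⟨H1, H2, H3⟩ := hc_of D
  obtain ⟨ka, kb, kc⟩ : 0 ≤ w ∧ z ≤ 0 ∧ 0 ≤ w + z := D.ok
  have kw : 0 < w := D.l
  have hU : R_t2a_c3_du_n.U w z lam r = xi' - E0.G.xiw (w + z) r := by
    simp only [RowF.U, R_t2a_c3_du_n, u_T2_A_Q3m_PW5, zx_val, xi1_val, xi3_val, xiw_val, xw0p_val,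
      xq0p_val]
    linarith
  have hu0 : 0 ≤ R_t2a_c3_du_n.U w z lam r := by
    rw [hU]
    linarith
  have hp : PatF .pnp R_t2a_c3_du_n := ⟨rfl, rfl, rfl, rfl⟩
  have hD := dm_of hp D hu0
  have th := th_PW5 H3 (xi')
  have hn : R_t2a_c3_du_n.NF w z lam r = -(G.be (lam * r) * B2.g w z) := by
    simp only [RowF.NF, R_t2a_c3_du_n, nfn_T2, bef_val]
    unfold Bs.g B2
    push_cast
    ring
  have hb : R_t2a_c3_du_n.NU w z lam r / r + R_t2a_c3_du_n.BS w z lam r =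
      (1 + G.LAM (lam * r) * G.mu (lam * r)) * (3 / 2 * B2.g w z) / r +
      ((1 + G.LAM (lam * r) * G.mu (lam * r)) * (-(E0.G.om w r / 2) + ((w + z) * (-(r * E0.G.om w
        r)) - w * ((-xi'))) / 2) +
        G.mu (lam * r) * G.LAM (lam * r) * lam * G.q1 (lam * r) / (2 * G.eh (lam * r)) * B2.g w z)
          := by
    subst e_xip
    have e := near_hb (g := B2.g w z) D.r0 D.l0 D.e
    simp only [RowF.NU, RowF.BS, R_t2a_c3_du_n, nun_T2, bs_T2_AQ3mn, bef_val, n1f_val, lmf_val,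
      mu_val', qo_val, eh_val, om_val, zx_val, xi1_val, xi3_val, xiw_val]
    unfold Bs.g B2 at e ⊢
    push_cast
    linear_combination e
  have k12 : R_t2a_c3_du_n.K12 w z lam r = G.nk (lam * r) ((G.S1 r lam w)).k ((G.S1 r lam w)).b :=
    by
    unfold RowF.K12
    rw [hU]
    simp only [R_t2a_c3_du_n, nku_wp, ku_wp, kv_wp, nkf_val]
    unfold G.nk
    rw [S1_k H1, S1_b H1]
  have c12 : R_t2a_c3_du_n.A12 w z lam r / r + R_t2a_c3_du_n.B12 w z lam r = ((G.S1 r lam w)).c r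
    := by
    unfold RowF.A12 RowF.B12
    rw [hU]
    simp only [R_t2a_c3_du_n, zr7, lva_wp]
    rw [cS1 H1]
    push_cast
    ring
  have k23 : R_t2a_c3_du_n.K23 w z lam r = G.nk (lam * r) ((-G.C3d r lam z)).k ((-G.C3d r lam z)).b
    := by
    unfold RowF.K23
    rw [hU]
    simp only [R_t2a_c3_du_n, nk3m_zn, k3m_zn, b3m_zn, nkf_val]
    unfold G.nk
    rw [neg_k, neg_b, k3m_val H2, b3m_val H2]
  have c23 : R_t2a_c3_du_n.A23 w z lam r / r + R_t2a_c3_du_n.B23 w z lam r = ((-G.C3d r lam z)).c r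
    := by
    unfold RowF.A23 RowF.B23
    rw [hU]
    simp only [R_t2a_c3_du_n, zr7, l3m_zn]
    rw [neg_c, cC3d H2]
    push_cast
    ring
  have k13 : R_t2a_c3_du_n.K13 w z lam r = G.nk (lam * r) ((-G.Pb xi' r lam (w + z))).k ((-G.Pb xi'
    r lam (w + z))).b := by
    unfold RowF.K13
    rw [hU]
    simp only [R_t2a_c3_du_n, ntkPW5_tn, tkPW5_tn, tbPW5_tn, nkf_val]
    unfold G.nk
    rw [neg_k, neg_b, th.k, th.b]
    try ring
  have c13 : R_t2a_c3_du_n.A13 w z lam r / r + R_t2a_c3_du_n.B13 w z lam r = ((-G.Pb xi' r lam (w +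
    z))).c r := by
    unfold RowF.A13 RowF.B13
    rw [hU]
    simp only [R_t2a_c3_du_n, taPW5_tn, zr7, dwl_val, dwu_val]
    rw [neg_c, th.c]
    push_cast
    try ring
  exact near_good hp ⟨rfl, rfl⟩ hD hn hb ⟨k12, k23, k13, c12, c23, c13⟩ rfl rfl

theorem g_t2a_c3_u1_f {r lam w z xi' : ℝ} (D : Dom .pp r lam w z) (e_xip : xi' = E0.G.xi3 z r + r *
    E0.G.om w r) (h1 : E0.G.xi1 (w + z) r ≤ xi') (h2 : xi' ≤ E0.G.xiw (w + z) r) :
    Good R_t2a_c3_u1_f w z lam r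
      (RowT .far .pp B2 r lam w z (-xi') (-G.C3u r lam z) (-G.Pw xi' r lam (w + z))) := by
  obtain ⟨H1, H2, H3⟩ := hc_of D
  obtain ⟨ka, kb⟩ : 0 ≤ w ∧ 0 ≤ z := D.ok
  have hU : R_t2a_c3_u1_f.U w z lam r = xi' - E0.G.xi1 (w + z) r := by
    simp only [RowF.U, R_t2a_c3_u1_f, u_T2_A_Q3p_P1W, zx_val, xi1_val, xi3_val, xiw_val, xw0p_val,
      xq0p_val]
    linarith
  have hu0 : 0 ≤ R_t2a_c3_u1_f.U w z lam r := by
    rw [hU]
    linarith
  have hp : PatF .pp R_t2a_c3_u1_f := ⟨rfl, rfl, rfl, rfl⟩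
  have hD := dm_of hp D hu0
  have th := th_P1W H3 D.l0 D.e (xi') (by linarith) (pw_0 h1 h2)
  have hn : R_t2a_c3_u1_f.NF w z lam r = -B2.g w z := by
    simp only [RowF.NF, R_t2a_c3_u1_f, nff_T2, bef_val]
    unfold Bs.g B2
    push_cast
    ring
  have hb : R_t2a_c3_u1_f.NU w z lam r / r + R_t2a_c3_u1_f.BS w z lam r = (3 / 2 * B2.g w z) / r +
    (-(E0.G.om w r / 2) + ((w + z) * (-(r * E0.G.om w r)) - w * ((-xi'))) / 2) := by
    subst e_xip
    simp only [RowF.NU, RowF.BS, R_t2a_c3_u1_f, nuf_T2, bs_T2_AQ3pf, bef_val, n1f_val, lmf_val,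
      mu_val', qo_val, eh_val, om_val, zx_val, xi1_val, xi3_val, xiw_val]
    unfold Bs.g B2
    push_cast
    ring
  have k12 : R_t2a_c3_u1_f.K12 w z lam r = ((G.S1 r lam w)).k := by
    unfold RowF.K12
    rw [hU]
    simp only [R_t2a_c3_u1_f, ku_wp]
    rw [S1_k H1]
  have c12 : R_t2a_c3_u1_f.A12 w z lam r / r + R_t2a_c3_u1_f.B12 w z lam r = ((G.S1 r lam w)).c r
    := by
    unfold RowF.A12 RowF.B12
    rw [hU]
    simp only [R_t2a_c3_u1_f, zr7, lva_wp]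
    rw [cS1 H1]
    push_cast
    ring
  have k23 : R_t2a_c3_u1_f.K23 w z lam r = ((-G.C3u r lam z)).k := by
    unfold RowF.K23
    rw [hU]
    simp only [R_t2a_c3_u1_f, k3p_zn]
    rw [neg_k, k3p_val H2]
  have c23 : R_t2a_c3_u1_f.A23 w z lam r / r + R_t2a_c3_u1_f.B23 w z lam r = ((-G.C3u r lam z)).c r
    := by
    unfold RowF.A23 RowF.B23
    rw [hU]
    simp only [R_t2a_c3_u1_f, zr7, l3p_zn]
    rw [neg_c, cC3u H2]
    push_cast
    ring
  have k13 : R_t2a_c3_u1_f.K13 w z lam r = ((-G.Pw xi' r lam (w + z))).k := by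
    unfold RowF.K13
    rw [hU]
    simp only [R_t2a_c3_u1_f, tkP1W_tn]
    rw [neg_k, th.k]
    try ring
  have c13 : R_t2a_c3_u1_f.A13 w z lam r / r + R_t2a_c3_u1_f.B13 w z lam r = ((-G.Pw xi' r lam (w +
    z))).c r := by
    unfold RowF.A13 RowF.B13
    rw [hU]
    simp only [R_t2a_c3_u1_f, taP1W_tn, tcP1W_tn, dwl_val, dwu_val]
    rw [neg_c, th.c]
    push_cast
    try ring
  exact far_good hp ⟨rfl, rfl⟩ hD hn hb ⟨k12, k23, k13, c12, c23, c13⟩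

theorem g_t2a_c3_u1_n {r lam w z xi' : ℝ} (D : Dom .pp r lam w z) (e_xip : xi' = E0.G.xi3 z r + r *
    E0.G.om w r) (h1 : E0.G.xi1 (w + z) r ≤ xi') (h2 : xi' ≤ E0.G.xiw (w + z) r) :
    Good R_t2a_c3_u1_n w z lam r
      (RowT .near .pp B2 r lam w z (-xi') (-G.C3u r lam z) (-G.Pw xi' r lam (w + z))) := by
  obtain ⟨H1, H2, H3⟩ := hc_of D
  obtain ⟨ka, kb⟩ : 0 ≤ w ∧ 0 ≤ z := D.ok
  have hU : R_t2a_c3_u1_n.U w z lam r = xi' - E0.G.xi1 (w + z) r := by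
    simp only [RowF.U, R_t2a_c3_u1_n, u_T2_A_Q3p_P1W, zx_val, xi1_val, xi3_val, xiw_val, xw0p_val,
      xq0p_val]
    linarith
  have hu0 : 0 ≤ R_t2a_c3_u1_n.U w z lam r := by
    rw [hU]
    linarith
  have hp : PatF .pp R_t2a_c3_u1_n := ⟨rfl, rfl, rfl, rfl⟩
  have hD := dm_of hp D hu0
  have th := th_P1W H3 D.l0 D.e (xi') (by linarith) (pw_0 h1 h2)
  have hn : R_t2a_c3_u1_n.NF w z lam r = -(G.be (lam * r) * B2.g w z) := by
    simp only [RowF.NF, R_t2a_c3_u1_n, nfn_T2, bef_val]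
    unfold Bs.g B2
    push_cast
    ring
  have hb : R_t2a_c3_u1_n.NU w z lam r / r + R_t2a_c3_u1_n.BS w z lam r =
      (1 + G.LAM (lam * r) * G.mu (lam * r)) * (3 / 2 * B2.g w z) / r +
      ((1 + G.LAM (lam * r) * G.mu (lam * r)) * (-(E0.G.om w r / 2) + ((w + z) * (-(r * E0.G.om w
        r)) - w * ((-xi'))) / 2) +
        G.mu (lam * r) * G.LAM (lam * r) * lam * G.q1 (lam * r) / (2 * G.eh (lam * r)) * B2.g w z)
          := by
    subst e_xip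
    have e := near_hb (g := B2.g w z) D.r0 D.l0 D.e
    simp only [RowF.NU, RowF.BS, R_t2a_c3_u1_n, nun_T2, bs_T2_AQ3pn, bef_val, n1f_val, lmf_val,
      mu_val', qo_val, eh_val, om_val, zx_val, xi1_val, xi3_val, xiw_val]
    unfold Bs.g B2 at e ⊢
    push_cast
    linear_combination e
  have k12 : R_t2a_c3_u1_n.K12 w z lam r = G.nk (lam * r) ((G.S1 r lam w)).k ((G.S1 r lam w)).b :=
    by
    unfold RowF.K12
    rw [hU]
    simp only [R_t2a_c3_u1_n, nku_wp, ku_wp, kv_wp, nkf_val]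
    unfold G.nk
    rw [S1_k H1, S1_b H1]
  have c12 : R_t2a_c3_u1_n.A12 w z lam r / r + R_t2a_c3_u1_n.B12 w z lam r = ((G.S1 r lam w)).c r
    := by
    unfold RowF.A12 RowF.B12
    rw [hU]
    simp only [R_t2a_c3_u1_n, zr7, lva_wp]
    rw [cS1 H1]
    push_cast
    ring
  have k23 : R_t2a_c3_u1_n.K23 w z lam r = G.nk (lam * r) ((-G.C3u r lam z)).k ((-G.C3u r lam z)).b
    := by
    unfold RowF.K23
    rw [hU]
    simp only [R_t2a_c3_u1_n, nk3p_zn, k3p_zn, b3p_zn, nkf_val]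
    unfold G.nk
    rw [neg_k, neg_b, k3p_val H2, b3p_val H2]
  have c23 : R_t2a_c3_u1_n.A23 w z lam r / r + R_t2a_c3_u1_n.B23 w z lam r = ((-G.C3u r lam z)).c r
    := by
    unfold RowF.A23 RowF.B23
    rw [hU]
    simp only [R_t2a_c3_u1_n, zr7, l3p_zn]
    rw [neg_c, cC3u H2]
    push_cast
    ring
  have k13 : R_t2a_c3_u1_n.K13 w z lam r = G.nk (lam * r) ((-G.Pw xi' r lam (w + z))).k ((-G.Pw xi'
    r lam (w + z))).b := by
    unfold RowF.K13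
    rw [hU]
    simp only [R_t2a_c3_u1_n, ntkP1W_tn, tkP1W_tn, tbP1W_tn, nkf_val]
    unfold G.nk
    rw [neg_k, neg_b, th.k, th.b]
    try ring
  have c13 : R_t2a_c3_u1_n.A13 w z lam r / r + R_t2a_c3_u1_n.B13 w z lam r = ((-G.Pw xi' r lam (w +
    z))).c r := by
    unfold RowF.A13 RowF.B13
    rw [hU]
    simp only [R_t2a_c3_u1_n, taP1W_tn, tcP1W_tn, dwl_val, dwu_val]
    rw [neg_c, th.c]
    push_cast
    try ring
  exact near_good hp ⟨rfl, rfl⟩ hD hn hb ⟨k12, k23, k13, c12, c23, c13⟩ rfl rfl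

theorem g_t2a_c3_u2_f {r lam w z xi' : ℝ} (D : Dom .pp r lam w z) (e_xip : xi' = E0.G.xi3 z r + r *
    E0.G.om w r) (h1 : E0.G.xiw (w + z) r ≤ xi') (h2 : 1 / 2 + r * xi' ≤ G.xb (w + z) r) :
    Good R_t2a_c3_u2_f w z lam r
      (RowT .far .pp B2 r lam w z (-xi') (-G.C3u r lam z) (-G.Pb xi' r lam (w + z))) := by
  obtain ⟨H1, H2, H3⟩ := hc_of D
  obtain ⟨ka, kb⟩ : 0 ≤ w ∧ 0 ≤ z := D.ok
  have hU : R_t2a_c3_u2_f.U w z lam r = xi' - E0.G.xiw (w + z) r := by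
    simp only [RowF.U, R_t2a_c3_u2_f, u_T2_A_Q3p_PW5, zx_val, xi1_val, xi3_val, xiw_val, xw0p_val,
      xq0p_val]
    linarith
  have hu0 : 0 ≤ R_t2a_c3_u2_f.U w z lam r := by
    rw [hU]
    linarith
  have hp : PatF .pp R_t2a_c3_u2_f := ⟨rfl, rfl, rfl, rfl⟩
  have hD := dm_of hp D hu0
  have th := th_PW5 H3 (xi')
  have hn : R_t2a_c3_u2_f.NF w z lam r = -B2.g w z := by
    simp only [RowF.NF, R_t2a_c3_u2_f, nff_T2, bef_val]
    unfold Bs.g B2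
    push_cast
    ring
  have hb : R_t2a_c3_u2_f.NU w z lam r / r + R_t2a_c3_u2_f.BS w z lam r = (3 / 2 * B2.g w z) / r +
    (-(E0.G.om w r / 2) + ((w + z) * (-(r * E0.G.om w r)) - w * ((-xi'))) / 2) := by
    subst e_xip
    simp only [RowF.NU, RowF.BS, R_t2a_c3_u2_f, nuf_T2, bs_T2_AQ3pf, bef_val, n1f_val, lmf_val,
      mu_val', qo_val, eh_val, om_val, zx_val, xi1_val, xi3_val, xiw_val]
    unfold Bs.g B2
    push_cast
    ring
  have k12 : R_t2a_c3_u2_f.K12 w z lam r = ((G.S1 r lam w)).k := by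
    unfold RowF.K12
    rw [hU]
    simp only [R_t2a_c3_u2_f, ku_wp]
    rw [S1_k H1]
  have c12 : R_t2a_c3_u2_f.A12 w z lam r / r + R_t2a_c3_u2_f.B12 w z lam r = ((G.S1 r lam w)).c r
    := by
    unfold RowF.A12 RowF.B12
    rw [hU]
    simp only [R_t2a_c3_u2_f, zr7, lva_wp]
    rw [cS1 H1]
    push_cast
    ring
  have k23 : R_t2a_c3_u2_f.K23 w z lam r = ((-G.C3u r lam z)).k := by
    unfold RowF.K23
    rw [hU]
    simp only [R_t2a_c3_u2_f, k3p_zn]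
    rw [neg_k, k3p_val H2]
  have c23 : R_t2a_c3_u2_f.A23 w z lam r / r + R_t2a_c3_u2_f.B23 w z lam r = ((-G.C3u r lam z)).c r
    := by
    unfold RowF.A23 RowF.B23
    rw [hU]
    simp only [R_t2a_c3_u2_f, zr7, l3p_zn]
    rw [neg_c, cC3u H2]
    push_cast
    ring
  have k13 : R_t2a_c3_u2_f.K13 w z lam r = ((-G.Pb xi' r lam (w + z))).k := by
    unfold RowF.K13
    rw [hU]
    simp only [R_t2a_c3_u2_f, tkPW5_tn]
    rw [neg_k, th.k]
    try ring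
  have c13 : R_t2a_c3_u2_f.A13 w z lam r / r + R_t2a_c3_u2_f.B13 w z lam r = ((-G.Pb xi' r lam (w +
    z))).c r := by
    unfold RowF.A13 RowF.B13
    rw [hU]
    simp only [R_t2a_c3_u2_f, taPW5_tn, zr7, dwl_val, dwu_val]
    rw [neg_c, th.c]
    push_cast
    try ring
  exact far_good hp ⟨rfl, rfl⟩ hD hn hb ⟨k12, k23, k13, c12, c23, c13⟩

theorem g_t2a_c3_u2_n {r lam w z xi' : ℝ} (D : Dom .pp r lam w z) (e_xip : xi' = E0.G.xi3 z r + r *
    E0.G.om w r) (h1 : E0.G.xiw (w + z) r ≤ xi') (h2 : 1 / 2 + r * xi' ≤ G.xb (w + z) r) :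
    Good R_t2a_c3_u2_n w z lam r
      (RowT .near .pp B2 r lam w z (-xi') (-G.C3u r lam z) (-G.Pb xi' r lam (w + z))) := by
  obtain ⟨H1, H2, H3⟩ := hc_of D
  obtain ⟨ka, kb⟩ : 0 ≤ w ∧ 0 ≤ z := D.ok
  have hU : R_t2a_c3_u2_n.U w z lam r = xi' - E0.G.xiw (w + z) r := by
    simp only [RowF.U, R_t2a_c3_u2_n, u_T2_A_Q3p_PW5, zx_val, xi1_val, xi3_val, xiw_val, xw0p_val,
      xq0p_val]
    linarith
  have hu0 : 0 ≤ R_t2a_c3_u2_n.U w z lam r := by
    rw [hU]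
    linarith
  have hp : PatF .pp R_t2a_c3_u2_n := ⟨rfl, rfl, rfl, rfl⟩
  have hD := dm_of hp D hu0
  have th := th_PW5 H3 (xi')
  have hn : R_t2a_c3_u2_n.NF w z lam r = -(G.be (lam * r) * B2.g w z) := by
    simp only [RowF.NF, R_t2a_c3_u2_n, nfn_T2, bef_val]
    unfold Bs.g B2
    push_cast
    ring
  have hb : R_t2a_c3_u2_n.NU w z lam r / r + R_t2a_c3_u2_n.BS w z lam r =
      (1 + G.LAM (lam * r) * G.mu (lam * r)) * (3 / 2 * B2.g w z) / r +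
      ((1 + G.LAM (lam * r) * G.mu (lam * r)) * (-(E0.G.om w r / 2) + ((w + z) * (-(r * E0.G.om w
        r)) - w * ((-xi'))) / 2) +
        G.mu (lam * r) * G.LAM (lam * r) * lam * G.q1 (lam * r) / (2 * G.eh (lam * r)) * B2.g w z)
          := by
    subst e_xip
    have e := near_hb (g := B2.g w z) D.r0 D.l0 D.e
    simp only [RowF.NU, RowF.BS, R_t2a_c3_u2_n, nun_T2, bs_T2_AQ3pn, bef_val, n1f_val, lmf_val,
      mu_val', qo_val, eh_val, om_val, zx_val, xi1_val, xi3_val, xiw_val]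
    unfold Bs.g B2 at e ⊢
    push_cast
    linear_combination e
  have k12 : R_t2a_c3_u2_n.K12 w z lam r = G.nk (lam * r) ((G.S1 r lam w)).k ((G.S1 r lam w)).b :=
    by
    unfold RowF.K12
    rw [hU]
    simp only [R_t2a_c3_u2_n, nku_wp, ku_wp, kv_wp, nkf_val]
    unfold G.nk
    rw [S1_k H1, S1_b H1]
  have c12 : R_t2a_c3_u2_n.A12 w z lam r / r + R_t2a_c3_u2_n.B12 w z lam r = ((G.S1 r lam w)).c r
    := by
    unfold RowF.A12 RowF.B12
    rw [hU]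
    simp only [R_t2a_c3_u2_n, zr7, lva_wp]
    rw [cS1 H1]
    push_cast
    ring
  have k23 : R_t2a_c3_u2_n.K23 w z lam r = G.nk (lam * r) ((-G.C3u r lam z)).k ((-G.C3u r lam z)).b
    := by
    unfold RowF.K23
    rw [hU]
    simp only [R_t2a_c3_u2_n, nk3p_zn, k3p_zn, b3p_zn, nkf_val]
    unfold G.nk
    rw [neg_k, neg_b, k3p_val H2, b3p_val H2]
  have c23 : R_t2a_c3_u2_n.A23 w z lam r / r + R_t2a_c3_u2_n.B23 w z lam r = ((-G.C3u r lam z)).c r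
    := by
    unfold RowF.A23 RowF.B23
    rw [hU]
    simp only [R_t2a_c3_u2_n, zr7, l3p_zn]
    rw [neg_c, cC3u H2]
    push_cast
    ring
  have k13 : R_t2a_c3_u2_n.K13 w z lam r = G.nk (lam * r) ((-G.Pb xi' r lam (w + z))).k ((-G.Pb xi'
    r lam (w + z))).b := by
    unfold RowF.K13
    rw [hU]
    simp only [R_t2a_c3_u2_n, ntkPW5_tn, tkPW5_tn, tbPW5_tn, nkf_val]
    unfold G.nk
    rw [neg_k, neg_b, th.k, th.b]
    try ring
  have c13 : R_t2a_c3_u2_n.A13 w z lam r / r + R_t2a_c3_u2_n.B13 w z lam r = ((-G.Pb xi' r lam (w +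
    z))).c r := by
    unfold RowF.A13 RowF.B13
    rw [hU]
    simp only [R_t2a_c3_u2_n, taPW5_tn, zr7, dwl_val, dwu_val]
    rw [neg_c, th.c]
    push_cast
    try ring
  exact near_good hp ⟨rfl, rfl⟩ hD hn hb ⟨k12, k23, k13, c12, c23, c13⟩ rfl rfl

end Pool.Agent.Strip051.LC.E1.Ch
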