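import Pool.Agent.Strip051.LC.E1.Ch.Val5
import Pool.Agent.Strip051.LC.E1.Ch.Rw

/-! # Rests near the full period: the rows and their functions -/

set_option linter.unusedVariables false
set_option linter.unusedSimpArgs false

namespace Pool.Agent.Strip051.LC.E1.Ch

open Pool.Agent.Strip051.PB
open Pool.Agent.Strip051.LC.E1.G (hg)

theorem g_t2b_c1_dd_f {r lam w z xi' : ℝ} (D : Dom .pnn r lam w z) (e_xip : xi' = -(r * E0.G.om w
    r) + E0.G.xi1 (w + z) r) (h1 : E0.G.xiw z r ≤ xi') (h2 : xi' ≤ E0.G.xi3 z r) :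
    Good R_t2b_c1_dd_f w z lam r
      (RowT .far .pnn B2 r lam w z (-E0.G.xi1 (w + z) r) (-G.P3 xi' r lam z) (-G.C1d r lam (w +
        z))) := by
  obtain ⟨H1, H2, H3⟩ := hc_of D
  obtain ⟨ka, kb, kc⟩ : 0 ≤ w ∧ z ≤ 0 ∧ w + z ≤ 0 := D.ok
  have hU : R_t2b_c1_dd_f.U w z lam r = E0.G.xi3 z r - xi' := by
    simp only [RowF.U, R_t2b_c1_dd_f, u_T2_B_P1m_QW3, zx_val, xi1_val, xi3_val, xiw_val, xw0p_val,
      xq0p_val]
    linarith
  have hu0 : 0 ≤ R_t2b_c1_dd_f.U w z lam r := by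
    rw [hU]
    linarith
  have hp : PatF .pnn R_t2b_c1_dd_f := ⟨rfl, rfl, rfl, rfl⟩
  have hD := dm_of hp D hu0
  have th := th_QW3 H2 D.l0 D.e (xi') (by linarith) (q3_0 h1 h2)
  have hn : R_t2b_c1_dd_f.NF w z lam r = -B2.g w z := by
    simp only [RowF.NF, R_t2b_c1_dd_f, nff_T2, bef_val]
    unfold Bs.g B2
    push_cast
    ring
  have hb : R_t2b_c1_dd_f.NU w z lam r / r + R_t2b_c1_dd_f.BS w z lam r = (3 / 2 * B2.g w z) / r +
    (-(E0.G.om w r / 2) + ((w + z) * (-(r * E0.G.om w r)) - w * ((-E0.G.xi1 (w + z) r))) / 2) := by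
    subst e_xip
    simp only [RowF.NU, RowF.BS, R_t2b_c1_dd_f, nuf_T2, bs_T2_BP1mf, bef_val, n1f_val, lmf_val,
      mu_val', qo_val, eh_val, om_val, zx_val, xi1_val, xi3_val, xiw_val]
    unfold Bs.g B2
    push_cast
    ring
  have k12 : R_t2b_c1_dd_f.K12 w z lam r = ((G.S1 r lam w)).k := by
    unfold RowF.K12
    rw [hU]
    simp only [R_t2b_c1_dd_f, ku_wp]
    rw [S1_k H1]
  have c12 : R_t2b_c1_dd_f.A12 w z lam r / r + R_t2b_c1_dd_f.B12 w z lam r = ((G.S1 r lam w)).c r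
    := by
    unfold RowF.A12 RowF.B12
    rw [hU]
    simp only [R_t2b_c1_dd_f, zr7, lva_wp]
    rw [cS1 H1]
    push_cast
    ring
  have k23 : R_t2b_c1_dd_f.K23 w z lam r = ((-G.P3 xi' r lam z)).k := by
    unfold RowF.K23
    rw [hU]
    simp only [R_t2b_c1_dd_f, tkQW3_zn]
    rw [neg_k, th.k]
    try ring
  have c23 : R_t2b_c1_dd_f.A23 w z lam r / r + R_t2b_c1_dd_f.B23 w z lam r = ((-G.P3 xi' r lam
    z)).c r := by
    unfold RowF.A23 RowF.B23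
    rw [hU]
    simp only [R_t2b_c1_dd_f, taQW3_zn, tcQW3_zn, dwl_val, dwu_val]
    rw [neg_c, th.c]
    push_cast
    try ring
  have k13 : R_t2b_c1_dd_f.K13 w z lam r = ((-G.C1d r lam (w + z))).k := by
    unfold RowF.K13
    rw [hU]
    simp only [R_t2b_c1_dd_f, k1m_tn]
    rw [neg_k, k1m_val H3]
  have c13 : R_t2b_c1_dd_f.A13 w z lam r / r + R_t2b_c1_dd_f.B13 w z lam r = ((-G.C1d r lam (w +
    z))).c r := by
    unfold RowF.A13 RowF.B13
    rw [hU]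
    simp only [R_t2b_c1_dd_f, zr7, l1m_tn]
    rw [neg_c, cC1d H3]
    push_cast
    ring
  exact far_good hp ⟨rfl, rfl⟩ hD hn hb ⟨k12, k23, k13, c12, c23, c13⟩

theorem g_t2b_c1_dd_n {r lam w z xi' : ℝ} (D : Dom .pnn r lam w z) (e_xip : xi' = -(r * E0.G.om w
    r) + E0.G.xi1 (w + z) r) (h1 : E0.G.xiw z r ≤ xi') (h2 : xi' ≤ E0.G.xi3 z r) :
    Good R_t2b_c1_dd_n w z lam r
      (RowT .near .pnn B2 r lam w z (-E0.G.xi1 (w + z) r) (-G.P3 xi' r lam z) (-G.C1d r lam (w +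
        z))) := by
  obtain ⟨H1, H2, H3⟩ := hc_of D
  obtain ⟨ka, kb, kc⟩ : 0 ≤ w ∧ z ≤ 0 ∧ w + z ≤ 0 := D.ok
  have hU : R_t2b_c1_dd_n.U w z lam r = E0.G.xi3 z r - xi' := by
    simp only [RowF.U, R_t2b_c1_dd_n, u_T2_B_P1m_QW3, zx_val, xi1_val, xi3_val, xiw_val, xw0p_val,
      xq0p_val]
    linarith
  have hu0 : 0 ≤ R_t2b_c1_dd_n.U w z lam r := by
    rw [hU]
    linarith
  have hp : PatF .pnn R_t2b_c1_dd_n := ⟨rfl, rfl, rfl, rfl⟩
  have hD := dm_of hp D hu0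
  have th := th_QW3 H2 D.l0 D.e (xi') (by linarith) (q3_0 h1 h2)
  have hn : R_t2b_c1_dd_n.NF w z lam r = -(G.be (lam * r) * B2.g w z) := by
    simp only [RowF.NF, R_t2b_c1_dd_n, nfn_T2, bef_val]
    unfold Bs.g B2
    push_cast
    ring
  have hb : R_t2b_c1_dd_n.NU w z lam r / r + R_t2b_c1_dd_n.BS w z lam r =
      (1 + G.LAM (lam * r) * G.mu (lam * r)) * (3 / 2 * B2.g w z) / r +
      ((1 + G.LAM (lam * r) * G.mu (lam * r)) * (-(E0.G.om w r / 2) + ((w + z) * (-(r * E0.G.om w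
        r)) - w * ((-E0.G.xi1 (w + z) r))) / 2) +
        G.mu (lam * r) * G.LAM (lam * r) * lam * G.q1 (lam * r) / (2 * G.eh (lam * r)) * B2.g w z)
          := by
    subst e_xip
    have e := near_hb (g := B2.g w z) D.r0 D.l0 D.e
    simp only [RowF.NU, RowF.BS, R_t2b_c1_dd_n, nun_T2, bs_T2_BP1mn, bef_val, n1f_val, lmf_val,
      mu_val', qo_val, eh_val, om_val, zx_val, xi1_val, xi3_val, xiw_val]
    unfold Bs.g B2 at e ⊢
    push_cast
    linear_combination e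
  have k12 : R_t2b_c1_dd_n.K12 w z lam r = G.nk (lam * r) ((G.S1 r lam w)).k ((G.S1 r lam w)).b :=
    by
    unfold RowF.K12
    rw [hU]
    simp only [R_t2b_c1_dd_n, nku_wp, ku_wp, kv_wp, nkf_val]
    unfold G.nk
    rw [S1_k H1, S1_b H1]
  have c12 : R_t2b_c1_dd_n.A12 w z lam r / r + R_t2b_c1_dd_n.B12 w z lam r = ((G.S1 r lam w)).c r
    := by
    unfold RowF.A12 RowF.B12
    rw [hU]
    simp only [R_t2b_c1_dd_n, zr7, lva_wp]
    rw [cS1 H1]
    push_cast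
    ring
  have k23 : R_t2b_c1_dd_n.K23 w z lam r = G.nk (lam * r) ((-G.P3 xi' r lam z)).k ((-G.P3 xi' r lam
    z)).b := by
    unfold RowF.K23
    rw [hU]
    simp only [R_t2b_c1_dd_n, ntkQW3_zn, tkQW3_zn, tbQW3_zn, nkf_val]
    unfold G.nk
    rw [neg_k, neg_b, th.k, th.b]
    try ring
  have c23 : R_t2b_c1_dd_n.A23 w z lam r / r + R_t2b_c1_dd_n.B23 w z lam r = ((-G.P3 xi' r lam
    z)).c r := by
    unfold RowF.A23 RowF.B23
    rw [hU]
    simp only [R_t2b_c1_dd_n, taQW3_zn, tcQW3_zn, dwl_val, dwu_val]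
    rw [neg_c, th.c]
    push_cast
    try ring
  have k13 : R_t2b_c1_dd_n.K13 w z lam r = G.nk (lam * r) ((-G.C1d r lam (w + z))).k ((-G.C1d r lam
    (w + z))).b := by
    unfold RowF.K13
    rw [hU]
    simp only [R_t2b_c1_dd_n, nk1m_tn, k1m_tn, b1m_tn, nkf_val]
    unfold G.nk
    rw [neg_k, neg_b, k1m_val H3, b1m_val H3]
  have c13 : R_t2b_c1_dd_n.A13 w z lam r / r + R_t2b_c1_dd_n.B13 w z lam r = ((-G.C1d r lam (w +
    z))).c r := by
    unfold RowF.A13 RowF.B13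
    rw [hU]
    simp only [R_t2b_c1_dd_n, zr7, l1m_tn]
    rw [neg_c, cC1d H3]
    push_cast
    ring
  exact near_good hp ⟨rfl, rfl⟩ hD hn hb ⟨k12, k23, k13, c12, c23, c13⟩ rfl rfl

theorem g_t2b_c1_du_f {r lam w z xi' : ℝ} (D : Dom .pnp r lam w z) (e_xip : xi' = -(r * E0.G.om w
    r) + E0.G.xi1 (w + z) r) (h1 : G.xc z r ≤ 3 / 2 + r * xi') (h2 : xi' ≤ E0.G.xiw z r) :
    Good R_t2b_c1_du_f w z lam r
      (RowT .far .pnp B2 r lam w z (-E0.G.xi1 (w + z) r) (-G.Pc xi' r lam z) (-G.C1u r lam (w +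
        z))) := by
  obtain ⟨H1, H2, H3⟩ := hc_of D
  obtain ⟨ka, kb, kc⟩ : 0 ≤ w ∧ z ≤ 0 ∧ 0 ≤ w + z := D.ok
  have kw : 0 < w := D.l
  have hU : R_t2b_c1_du_f.U w z lam r = E0.G.xiw z r - xi' := by
    simp only [RowF.U, R_t2b_c1_du_f, u_T2_B_P1p_Q6W, zx_val, xi1_val, xi3_val, xiw_val, xw0p_val,
      xq0p_val]
    linarith
  have hu0 : 0 ≤ R_t2b_c1_du_f.U w z lam r := by
    rw [hU]
    linarith
  have hp : PatF .pnp R_t2b_c1_du_f := ⟨rfl, rfl, rfl, rfl⟩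
  have hD := dm_of hp D hu0
  have th := th_Q6W H2 (xi')
  have hn : R_t2b_c1_du_f.NF w z lam r = -B2.g w z := by
    simp only [RowF.NF, R_t2b_c1_du_f, nff_T2, bef_val]
    unfold Bs.g B2
    push_cast
    ring
  have hb : R_t2b_c1_du_f.NU w z lam r / r + R_t2b_c1_du_f.BS w z lam r = (3 / 2 * B2.g w z) / r +
    (-(E0.G.om w r / 2) + ((w + z) * (-(r * E0.G.om w r)) - w * ((-E0.G.xi1 (w + z) r))) / 2) := by
    subst e_xip
    simp only [RowF.NU, RowF.BS, R_t2b_c1_du_f, nuf_T2, bs_T2_BP1pf, bef_val, n1f_val, lmf_val,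
      mu_val', qo_val, eh_val, om_val, zx_val, xi1_val, xi3_val, xiw_val]
    unfold Bs.g B2
    push_cast
    ring
  have k12 : R_t2b_c1_du_f.K12 w z lam r = ((G.S1 r lam w)).k := by
    unfold RowF.K12
    rw [hU]
    simp only [R_t2b_c1_du_f, ku_wp]
    rw [S1_k H1]
  have c12 : R_t2b_c1_du_f.A12 w z lam r / r + R_t2b_c1_du_f.B12 w z lam r = ((G.S1 r lam w)).c r
    := by
    unfold RowF.A12 RowF.B12
    rw [hU]
    simp only [R_t2b_c1_du_f, zr7, lva_wp]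
    rw [cS1 H1]
    push_cast
    ring
  have k23 : R_t2b_c1_du_f.K23 w z lam r = ((-G.Pc xi' r lam z)).k := by
    unfold RowF.K23
    rw [hU]
    simp only [R_t2b_c1_du_f, tkQ6W_zn]
    rw [neg_k, th.k]
    try ring
  have c23 : R_t2b_c1_du_f.A23 w z lam r / r + R_t2b_c1_du_f.B23 w z lam r = ((-G.Pc xi' r lam
    z)).c r := by
    unfold RowF.A23 RowF.B23
    rw [hU]
    simp only [R_t2b_c1_du_f, taQ6W_zn, zr7, dwl_val, dwu_val]
    rw [neg_c, th.c]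
    push_cast
    try ring
  have k13 : R_t2b_c1_du_f.K13 w z lam r = ((-G.C1u r lam (w + z))).k := by
    unfold RowF.K13
    rw [hU]
    simp only [R_t2b_c1_du_f, k1p_tn]
    rw [neg_k, k1p_val H3]
  have c13 : R_t2b_c1_du_f.A13 w z lam r / r + R_t2b_c1_du_f.B13 w z lam r = ((-G.C1u r lam (w +
    z))).c r := by
    unfold RowF.A13 RowF.B13
    rw [hU]
    simp only [R_t2b_c1_du_f, zr7, l1p_tn]
    rw [neg_c, cC1u H3]
    push_cast
    ring
  exact far_good hp ⟨rfl, rfl⟩ hD hn hb ⟨k12, k23, k13, c12, c23, c13⟩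

theorem g_t2b_c1_du_n {r lam w z xi' : ℝ} (D : Dom .pnp r lam w z) (e_xip : xi' = -(r * E0.G.om w
    r) + E0.G.xi1 (w + z) r) (h1 : G.xc z r ≤ 3 / 2 + r * xi') (h2 : xi' ≤ E0.G.xiw z r) :
    Good R_t2b_c1_du_n w z lam r
      (RowT .near .pnp B2 r lam w z (-E0.G.xi1 (w + z) r) (-G.Pc xi' r lam z) (-G.C1u r lam (w +
        z))) := by
  obtain ⟨H1, H2, H3⟩ := hc_of D
  obtain ⟨ka, kb, kc⟩ : 0 ≤ w ∧ z ≤ 0 ∧ 0 ≤ w + z := D.ok
  have kw : 0 < w := D.l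
  have hU : R_t2b_c1_du_n.U w z lam r = E0.G.xiw z r - xi' := by
    simp only [RowF.U, R_t2b_c1_du_n, u_T2_B_P1p_Q6W, zx_val, xi1_val, xi3_val, xiw_val, xw0p_val,
      xq0p_val]
    linarith
  have hu0 : 0 ≤ R_t2b_c1_du_n.U w z lam r := by
    rw [hU]
    linarith
  have hp : PatF .pnp R_t2b_c1_du_n := ⟨rfl, rfl, rfl, rfl⟩
  have hD := dm_of hp D hu0
  have th := th_Q6W H2 (xi')
  have hn : R_t2b_c1_du_n.NF w z lam r = -(G.be (lam * r) * B2.g w z) := by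
    simp only [RowF.NF, R_t2b_c1_du_n, nfn_T2, bef_val]
    unfold Bs.g B2
    push_cast
    ring
  have hb : R_t2b_c1_du_n.NU w z lam r / r + R_t2b_c1_du_n.BS w z lam r =
      (1 + G.LAM (lam * r) * G.mu (lam * r)) * (3 / 2 * B2.g w z) / r +
      ((1 + G.LAM (lam * r) * G.mu (lam * r)) * (-(E0.G.om w r / 2) + ((w + z) * (-(r * E0.G.om w
        r)) - w * ((-E0.G.xi1 (w + z) r))) / 2) +
        G.mu (lam * r) * G.LAM (lam * r) * lam * G.q1 (lam * r) / (2 * G.eh (lam * r)) * B2.g w z)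
          := by
    subst e_xip
    have e := near_hb (g := B2.g w z) D.r0 D.l0 D.e
    simp only [RowF.NU, RowF.BS, R_t2b_c1_du_n, nun_T2, bs_T2_BP1pn, bef_val, n1f_val, lmf_val,
      mu_val', qo_val, eh_val, om_val, zx_val, xi1_val, xi3_val, xiw_val]
    unfold Bs.g B2 at e ⊢
    push_cast
    linear_combination e
  have k12 : R_t2b_c1_du_n.K12 w z lam r = G.nk (lam * r) ((G.S1 r lam w)).k ((G.S1 r lam w)).b :=
    by
    unfold RowF.K12
    rw [hU]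
    simp only [R_t2b_c1_du_n, nku_wp, ku_wp, kv_wp, nkf_val]
    unfold G.nk
    rw [S1_k H1, S1_b H1]
  have c12 : R_t2b_c1_du_n.A12 w z lam r / r + R_t2b_c1_du_n.B12 w z lam r = ((G.S1 r lam w)).c r
    := by
    unfold RowF.A12 RowF.B12
    rw [hU]
    simp only [R_t2b_c1_du_n, zr7, lva_wp]
    rw [cS1 H1]
    push_cast
    ring
  have k23 : R_t2b_c1_du_n.K23 w z lam r = G.nk (lam * r) ((-G.Pc xi' r lam z)).k ((-G.Pc xi' r lam
    z)).b := by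
    unfold RowF.K23
    rw [hU]
    simp only [R_t2b_c1_du_n, ntkQ6W_zn, tkQ6W_zn, tbQ6W_zn, nkf_val]
    unfold G.nk
    rw [neg_k, neg_b, th.k, th.b]
    try ring
  have c23 : R_t2b_c1_du_n.A23 w z lam r / r + R_t2b_c1_du_n.B23 w z lam r = ((-G.Pc xi' r lam
    z)).c r := by
    unfold RowF.A23 RowF.B23
    rw [hU]
    simp only [R_t2b_c1_du_n, taQ6W_zn, zr7, dwl_val, dwu_val]
    rw [neg_c, th.c]
    push_cast
    try ring
  have k13 : R_t2b_c1_du_n.K13 w z lam r = G.nk (lam * r) ((-G.C1u r lam (w + z))).k ((-G.C1u r lam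
    (w + z))).b := by
    unfold RowF.K13
    rw [hU]
    simp only [R_t2b_c1_du_n, nk1p_tn, k1p_tn, b1p_tn, nkf_val]
    unfold G.nk
    rw [neg_k, neg_b, k1p_val H3, b1p_val H3]
  have c13 : R_t2b_c1_du_n.A13 w z lam r / r + R_t2b_c1_du_n.B13 w z lam r = ((-G.C1u r lam (w +
    z))).c r := by
    unfold RowF.A13 RowF.B13
    rw [hU]
    simp only [R_t2b_c1_du_n, zr7, l1p_tn]
    rw [neg_c, cC1u H3]
    push_cast
    ring
  exact near_good hp ⟨rfl, rfl⟩ hD hn hb ⟨k12, k23, k13, c12, c23, c13⟩ rfl rfl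

theorem g_t2b_c1_u_f {r lam w z xi' : ℝ} (D : Dom .pp r lam w z) (e_xip : xi' = -(r * E0.G.om w r)
    + E0.G.xi1 (w + z) r) (h1 : G.xd z r ≤ 3 / 2 + r * xi') (h2 : xi' ≤ E0.G.xi3 z r) :
    Good R_t2b_c1_u_f w z lam r
      (RowT .far .pp B2 r lam w z (-E0.G.xi1 (w + z) r) (-G.Pd xi' r lam z) (-G.C1u r lam (w + z)))
        := by
  obtain ⟨H1, H2, H3⟩ := hc_of D
  obtain ⟨ka, kb⟩ : 0 ≤ w ∧ 0 ≤ z := D.ok
  have hU : R_t2b_c1_u_f.U w z lam r = E0.G.xi3 z r - xi' := by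
    simp only [RowF.U, R_t2b_c1_u_f, u_T2_B_P1p_Q63, zx_val, xi1_val, xi3_val, xiw_val, xw0p_val,
      xq0p_val]
    linarith
  have hu0 : 0 ≤ R_t2b_c1_u_f.U w z lam r := by
    rw [hU]
    linarith
  have hp : PatF .pp R_t2b_c1_u_f := ⟨rfl, rfl, rfl, rfl⟩
  have hD := dm_of hp D hu0
  have th := th_Q63 H2 (xi')
  have hn : R_t2b_c1_u_f.NF w z lam r = -B2.g w z := by
    simp only [RowF.NF, R_t2b_c1_u_f, nff_T2, bef_val]
    unfold Bs.g B2
    push_cast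
    ring
  have hb : R_t2b_c1_u_f.NU w z lam r / r + R_t2b_c1_u_f.BS w z lam r = (3 / 2 * B2.g w z) / r +
    (-(E0.G.om w r / 2) + ((w + z) * (-(r * E0.G.om w r)) - w * ((-E0.G.xi1 (w + z) r))) / 2) := by
    subst e_xip
    simp only [RowF.NU, RowF.BS, R_t2b_c1_u_f, nuf_T2, bs_T2_BP1pf, bef_val, n1f_val, lmf_val,
      mu_val', qo_val, eh_val, om_val, zx_val, xi1_val, xi3_val, xiw_val]
    unfold Bs.g B2
    push_cast
    ring
  have k12 : R_t2b_c1_u_f.K12 w z lam r = ((G.S1 r lam w)).k := by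
    unfold RowF.K12
    rw [hU]
    simp only [R_t2b_c1_u_f, ku_wp]
    rw [S1_k H1]
  have c12 : R_t2b_c1_u_f.A12 w z lam r / r + R_t2b_c1_u_f.B12 w z lam r = ((G.S1 r lam w)).c r :=
    by
    unfold RowF.A12 RowF.B12
    rw [hU]
    simp only [R_t2b_c1_u_f, zr7, lva_wp]
    rw [cS1 H1]
    push_cast
    ring
  have k23 : R_t2b_c1_u_f.K23 w z lam r = ((-G.Pd xi' r lam z)).k := by
    unfold RowF.K23
    rw [hU]
    simp only [R_t2b_c1_u_f, tkQ63_zn]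
    rw [neg_k, th.k]
    try ring
  have c23 : R_t2b_c1_u_f.A23 w z lam r / r + R_t2b_c1_u_f.B23 w z lam r = ((-G.Pd xi' r lam z)).c
    r := by
    unfold RowF.A23 RowF.B23
    rw [hU]
    simp only [R_t2b_c1_u_f, taQ63_zn, tcQ63_zn, dwl_val, dwu_val]
    rw [neg_c, th.c]
    push_cast
    try ring
  have k13 : R_t2b_c1_u_f.K13 w z lam r = ((-G.C1u r lam (w + z))).k := by
    unfold RowF.K13
    rw [hU]
    simp only [R_t2b_c1_u_f, k1p_tn]
    rw [neg_k, k1p_val H3]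
  have c13 : R_t2b_c1_u_f.A13 w z lam r / r + R_t2b_c1_u_f.B13 w z lam r = ((-G.C1u r lam (w +
    z))).c r := by
    unfold RowF.A13 RowF.B13
    rw [hU]
    simp only [R_t2b_c1_u_f, zr7, l1p_tn]
    rw [neg_c, cC1u H3]
    push_cast
    ring
  exact far_good hp ⟨rfl, rfl⟩ hD hn hb ⟨k12, k23, k13, c12, c23, c13⟩

theorem g_t2b_c1_u_n {r lam w z xi' : ℝ} (D : Dom .pp r lam w z) (e_xip : xi' = -(r * E0.G.om w r)
    + E0.G.xi1 (w + z) r) (h1 : G.xd z r ≤ 3 / 2 + r * xi') (h2 : xi' ≤ E0.G.xi3 z r) :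
    Good R_t2b_c1_u_n w z lam r
      (RowT .near .pp B2 r lam w z (-E0.G.xi1 (w + z) r) (-G.Pd xi' r lam z) (-G.C1u r lam (w +
        z))) := by
  obtain ⟨H1, H2, H3⟩ := hc_of D
  obtain ⟨ka, kb⟩ : 0 ≤ w ∧ 0 ≤ z := D.ok
  have hU : R_t2b_c1_u_n.U w z lam r = E0.G.xi3 z r - xi' := by
    simp only [RowF.U, R_t2b_c1_u_n, u_T2_B_P1p_Q63, zx_val, xi1_val, xi3_val, xiw_val, xw0p_val,
      xq0p_val]
    linarith
  have hu0 : 0 ≤ R_t2b_c1_u_n.U w z lam r := by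
    rw [hU]
    linarith
  have hp : PatF .pp R_t2b_c1_u_n := ⟨rfl, rfl, rfl, rfl⟩
  have hD := dm_of hp D hu0
  have th := th_Q63 H2 (xi')
  have hn : R_t2b_c1_u_n.NF w z lam r = -(G.be (lam * r) * B2.g w z) := by
    simp only [RowF.NF, R_t2b_c1_u_n, nfn_T2, bef_val]
    unfold Bs.g B2
    push_cast
    ring
  have hb : R_t2b_c1_u_n.NU w z lam r / r + R_t2b_c1_u_n.BS w z lam r =
      (1 + G.LAM (lam * r) * G.mu (lam * r)) * (3 / 2 * B2.g w z) / r +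
      ((1 + G.LAM (lam * r) * G.mu (lam * r)) * (-(E0.G.om w r / 2) + ((w + z) * (-(r * E0.G.om w
        r)) - w * ((-E0.G.xi1 (w + z) r))) / 2) +
        G.mu (lam * r) * G.LAM (lam * r) * lam * G.q1 (lam * r) / (2 * G.eh (lam * r)) * B2.g w z)
          := by
    subst e_xip
    have e := near_hb (g := B2.g w z) D.r0 D.l0 D.e
    simp only [RowF.NU, RowF.BS, R_t2b_c1_u_n, nun_T2, bs_T2_BP1pn, bef_val, n1f_val, lmf_val,
      mu_val', qo_val, eh_val, om_val, zx_val, xi1_val, xi3_val, xiw_val]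
    unfold Bs.g B2 at e ⊢
    push_cast
    linear_combination e
  have k12 : R_t2b_c1_u_n.K12 w z lam r = G.nk (lam * r) ((G.S1 r lam w)).k ((G.S1 r lam w)).b := by
    unfold RowF.K12
    rw [hU]
    simp only [R_t2b_c1_u_n, nku_wp, ku_wp, kv_wp, nkf_val]
    unfold G.nk
    rw [S1_k H1, S1_b H1]
  have c12 : R_t2b_c1_u_n.A12 w z lam r / r + R_t2b_c1_u_n.B12 w z lam r = ((G.S1 r lam w)).c r :=
    by
    unfold RowF.A12 RowF.B12
    rw [hU]
    simp only [R_t2b_c1_u_n, zr7, lva_wp]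
    rw [cS1 H1]
    push_cast
    ring
  have k23 : R_t2b_c1_u_n.K23 w z lam r = G.nk (lam * r) ((-G.Pd xi' r lam z)).k ((-G.Pd xi' r lam
    z)).b := by
    unfold RowF.K23
    rw [hU]
    simp only [R_t2b_c1_u_n, ntkQ63_zn, tkQ63_zn, tbQ63_zn, nkf_val]
    unfold G.nk
    rw [neg_k, neg_b, th.k, th.b]
    try ring
  have c23 : R_t2b_c1_u_n.A23 w z lam r / r + R_t2b_c1_u_n.B23 w z lam r = ((-G.Pd xi' r lam z)).c
    r := by
    unfold RowF.A23 RowF.B23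
    rw [hU]
    simp only [R_t2b_c1_u_n, taQ63_zn, tcQ63_zn, dwl_val, dwu_val]
    rw [neg_c, th.c]
    push_cast
    try ring
  have k13 : R_t2b_c1_u_n.K13 w z lam r = G.nk (lam * r) ((-G.C1u r lam (w + z))).k ((-G.C1u r lam
    (w + z))).b := by
    unfold RowF.K13
    rw [hU]
    simp only [R_t2b_c1_u_n, nk1p_tn, k1p_tn, b1p_tn, nkf_val]
    unfold G.nk
    rw [neg_k, neg_b, k1p_val H3, b1p_val H3]
  have c13 : R_t2b_c1_u_n.A13 w z lam r / r + R_t2b_c1_u_n.B13 w z lam r = ((-G.C1u r lam (w +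
    z))).c r := by
    unfold RowF.A13 RowF.B13
    rw [hU]
    simp only [R_t2b_c1_u_n, zr7, l1p_tn]
    rw [neg_c, cC1u H3]
    push_cast
    ring
  exact near_good hp ⟨rfl, rfl⟩ hD hn hb ⟨k12, k23, k13, c12, c23, c13⟩ rfl rfl

theorem g_t2b_W_d_f {r lam w z xi' : ℝ} (D : Dom .pnp r lam w z) (e_xip : xi' = -(r * E0.G.om w r)
    + E0.G.xiw (w + z) r) (h1 : G.xc z r ≤ 3 / 2 + r * xi') (h2 : xi' ≤ E0.G.xiw z r) :
    Good R_t2b_W_d_f w z lam r
      (RowT .far .pnp B2 r lam w z (-E0.G.xiw (w + z) r) (-G.Pc xi' r lam z) (-G.W2 r lam (w + z)))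
        := by
  obtain ⟨H1, H2, H3⟩ := hc_of D
  obtain ⟨ka, kb, kc⟩ : 0 ≤ w ∧ z ≤ 0 ∧ 0 ≤ w + z := D.ok
  have kw : 0 < w := D.l
  have hU : R_t2b_W_d_f.U w z lam r = E0.G.xiw z r - xi' := by
    simp only [RowF.U, R_t2b_W_d_f, u_T2_B_PW_Q6W, zx_val, xi1_val, xi3_val, xiw_val, xw0p_val,
      xq0p_val]
    linarith
  have hu0 : 0 ≤ R_t2b_W_d_f.U w z lam r := by
    rw [hU]
    linarith
  have hp : PatF .pnp R_t2b_W_d_f := ⟨rfl, rfl, rfl, rfl⟩
  have hD := dm_of hp D hu0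
  have th := th_Q6W H2 (xi')
  have hn : R_t2b_W_d_f.NF w z lam r = -B2.g w z := by
    simp only [RowF.NF, R_t2b_W_d_f, nff_T2, bef_val]
    unfold Bs.g B2
    push_cast
    ring
  have hb : R_t2b_W_d_f.NU w z lam r / r + R_t2b_W_d_f.BS w z lam r = (3 / 2 * B2.g w z) / r +
    (-(E0.G.om w r / 2) + ((w + z) * (-(r * E0.G.om w r)) - w * ((-E0.G.xiw (w + z) r))) / 2) := by
    subst e_xip
    simp only [RowF.NU, RowF.BS, R_t2b_W_d_f, nuf_T2, bs_T2_BPWf, bef_val, n1f_val, lmf_val,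
      mu_val', qo_val, eh_val, om_val, zx_val, xi1_val, xi3_val, xiw_val]
    unfold Bs.g B2
    push_cast
    ring
  have k12 : R_t2b_W_d_f.K12 w z lam r = ((G.S1 r lam w)).k := by
    unfold RowF.K12
    rw [hU]
    simp only [R_t2b_W_d_f, ku_wp]
    rw [S1_k H1]
  have c12 : R_t2b_W_d_f.A12 w z lam r / r + R_t2b_W_d_f.B12 w z lam r = ((G.S1 r lam w)).c r := by
    unfold RowF.A12 RowF.B12
    rw [hU]
    simp only [R_t2b_W_d_f, zr7, lva_wp]
    rw [cS1 H1]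
    push_cast
    ring
  have k23 : R_t2b_W_d_f.K23 w z lam r = ((-G.Pc xi' r lam z)).k := by
    unfold RowF.K23
    rw [hU]
    simp only [R_t2b_W_d_f, tkQ6W_zn]
    rw [neg_k, th.k]
    try ring
  have c23 : R_t2b_W_d_f.A23 w z lam r / r + R_t2b_W_d_f.B23 w z lam r = ((-G.Pc xi' r lam z)).c r
    := by
    unfold RowF.A23 RowF.B23
    rw [hU]
    simp only [R_t2b_W_d_f, taQ6W_zn, zr7, dwl_val, dwu_val]
    rw [neg_c, th.c]
    push_cast
    try ring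
  have k13 : R_t2b_W_d_f.K13 w z lam r = ((-G.W2 r lam (w + z))).k := by
    unfold RowF.K13
    rw [hU]
    simp only [R_t2b_W_d_f, kwu_tn]
    rw [neg_k, kwu_val]
  have c13 : R_t2b_W_d_f.A13 w z lam r / r + R_t2b_W_d_f.B13 w z lam r = ((-G.W2 r lam (w + z))).c
    r := by
    unfold RowF.A13 RowF.B13
    rw [hU]
    simp only [R_t2b_W_d_f, xwu_tn, zr7]
    rw [neg_c, cW2]
    push_cast
    ring
  exact far_good hp ⟨rfl, rfl⟩ hD hn hb ⟨k12, k23, k13, c12, c23, c13⟩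

theorem g_t2b_W_d_n {r lam w z xi' : ℝ} (D : Dom .pnp r lam w z) (e_xip : xi' = -(r * E0.G.om w r)
    + E0.G.xiw (w + z) r) (h1 : G.xc z r ≤ 3 / 2 + r * xi') (h2 : xi' ≤ E0.G.xiw z r) :
    Good R_t2b_W_d_n w z lam r
      (RowT .near .pnp B2 r lam w z (-E0.G.xiw (w + z) r) (-G.Pc xi' r lam z) (-G.W2 r lam (w +
        z))) := by
  obtain ⟨H1, H2, H3⟩ := hc_of D
  obtain ⟨ka, kb, kc⟩ : 0 ≤ w ∧ z ≤ 0 ∧ 0 ≤ w + z := D.ok
  have kw : 0 < w := D.l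
  have hU : R_t2b_W_d_n.U w z lam r = E0.G.xiw z r - xi' := by
    simp only [RowF.U, R_t2b_W_d_n, u_T2_B_PW_Q6W, zx_val, xi1_val, xi3_val, xiw_val, xw0p_val,
      xq0p_val]
    linarith
  have hu0 : 0 ≤ R_t2b_W_d_n.U w z lam r := by
    rw [hU]
    linarith
  have hp : PatF .pnp R_t2b_W_d_n := ⟨rfl, rfl, rfl, rfl⟩
  have hD := dm_of hp D hu0
  have th := th_Q6W H2 (xi')
  have hn : R_t2b_W_d_n.NF w z lam r = -(G.be (lam * r) * B2.g w z) := by
    simp only [RowF.NF, R_t2b_W_d_n, nfn_T2, bef_val]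
    unfold Bs.g B2
    push_cast
    ring
  have hb : R_t2b_W_d_n.NU w z lam r / r + R_t2b_W_d_n.BS w z lam r =
      (1 + G.LAM (lam * r) * G.mu (lam * r)) * (3 / 2 * B2.g w z) / r +
      ((1 + G.LAM (lam * r) * G.mu (lam * r)) * (-(E0.G.om w r / 2) + ((w + z) * (-(r * E0.G.om w
        r)) - w * ((-E0.G.xiw (w + z) r))) / 2) +
        G.mu (lam * r) * G.LAM (lam * r) * lam * G.q1 (lam * r) / (2 * G.eh (lam * r)) * B2.g w z)
          := by
    subst e_xip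
    have e := near_hb (g := B2.g w z) D.r0 D.l0 D.e
    simp only [RowF.NU, RowF.BS, R_t2b_W_d_n, nun_T2, bs_T2_BPWn, bef_val, n1f_val, lmf_val,
      mu_val', qo_val, eh_val, om_val, zx_val, xi1_val, xi3_val, xiw_val]
    unfold Bs.g B2 at e ⊢
    push_cast
    linear_combination e
  have k12 : R_t2b_W_d_n.K12 w z lam r = G.nk (lam * r) ((G.S1 r lam w)).k ((G.S1 r lam w)).b := by
    unfold RowF.K12
    rw [hU]
    simp only [R_t2b_W_d_n, nku_wp, ku_wp, kv_wp, nkf_val]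
    unfold G.nk
    rw [S1_k H1, S1_b H1]
  have c12 : R_t2b_W_d_n.A12 w z lam r / r + R_t2b_W_d_n.B12 w z lam r = ((G.S1 r lam w)).c r := by
    unfold RowF.A12 RowF.B12
    rw [hU]
    simp only [R_t2b_W_d_n, zr7, lva_wp]
    rw [cS1 H1]
    push_cast
    ring
  have k23 : R_t2b_W_d_n.K23 w z lam r = G.nk (lam * r) ((-G.Pc xi' r lam z)).k ((-G.Pc xi' r lam
    z)).b := by
    unfold RowF.K23
    rw [hU]
    simp only [R_t2b_W_d_n, ntkQ6W_zn, tkQ6W_zn, tbQ6W_zn, nkf_val]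
    unfold G.nk
    rw [neg_k, neg_b, th.k, th.b]
    try ring
  have c23 : R_t2b_W_d_n.A23 w z lam r / r + R_t2b_W_d_n.B23 w z lam r = ((-G.Pc xi' r lam z)).c r
    := by
    unfold RowF.A23 RowF.B23
    rw [hU]
    simp only [R_t2b_W_d_n, taQ6W_zn, zr7, dwl_val, dwu_val]
    rw [neg_c, th.c]
    push_cast
    try ring
  have k13 : R_t2b_W_d_n.K13 w z lam r = G.nk (lam * r) ((-G.W2 r lam (w + z))).k ((-G.W2 r lam (w
    + z))).b := by
    unfold RowF.K13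
    rw [hU]
    simp only [R_t2b_W_d_n, nkwu_tn, kwu_tn, bwu_tn, nkf_val]
    unfold G.nk
    rw [neg_k, neg_b, kwu_val, bwu_val]
  have c13 : R_t2b_W_d_n.A13 w z lam r / r + R_t2b_W_d_n.B13 w z lam r = ((-G.W2 r lam (w + z))).c
    r := by
    unfold RowF.A13 RowF.B13
    rw [hU]
    simp only [R_t2b_W_d_n, xwu_tn, zr7]
    rw [neg_c, cW2]
    push_cast
    ring
  exact near_good hp ⟨rfl, rfl⟩ hD hn hb ⟨k12, k23, k13, c12, c23, c13⟩ rfl rfl

theorem g_t2b_W_u_f {r lam w z xi' : ℝ} (D : Dom .pp r lam w z) (e_xip : xi' = -(r * E0.G.om w r) +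
    E0.G.xiw (w + z) r) (h1 : G.xd z r ≤ 3 / 2 + r * xi') (h2 : xi' ≤ E0.G.xi3 z r) :
    Good R_t2b_W_u_f w z lam r
      (RowT .far .pp B2 r lam w z (-E0.G.xiw (w + z) r) (-G.Pd xi' r lam z) (-G.W2 r lam (w + z)))
        := by
  obtain ⟨H1, H2, H3⟩ := hc_of D
  obtain ⟨ka, kb⟩ : 0 ≤ w ∧ 0 ≤ z := D.ok
  have hU : R_t2b_W_u_f.U w z lam r = E0.G.xi3 z r - xi' := by
    simp only [RowF.U, R_t2b_W_u_f, u_T2_B_PW_Q63, zx_val, xi1_val, xi3_val, xiw_val, xw0p_val,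
      xq0p_val]
    linarith
  have hu0 : 0 ≤ R_t2b_W_u_f.U w z lam r := by
    rw [hU]
    linarith
  have hp : PatF .pp R_t2b_W_u_f := ⟨rfl, rfl, rfl, rfl⟩
  have hD := dm_of hp D hu0
  have th := th_Q63 H2 (xi')
  have hn : R_t2b_W_u_f.NF w z lam r = -B2.g w z := by
    simp only [RowF.NF, R_t2b_W_u_f, nff_T2, bef_val]
    unfold Bs.g B2
    push_cast
    ring
  have hb : R_t2b_W_u_f.NU w z lam r / r + R_t2b_W_u_f.BS w z lam r = (3 / 2 * B2.g w z) / r +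
    (-(E0.G.om w r / 2) + ((w + z) * (-(r * E0.G.om w r)) - w * ((-E0.G.xiw (w + z) r))) / 2) := by
    subst e_xip
    simp only [RowF.NU, RowF.BS, R_t2b_W_u_f, nuf_T2, bs_T2_BPWf, bef_val, n1f_val, lmf_val,
      mu_val', qo_val, eh_val, om_val, zx_val, xi1_val, xi3_val, xiw_val]
    unfold Bs.g B2
    push_cast
    ring
  have k12 : R_t2b_W_u_f.K12 w z lam r = ((G.S1 r lam w)).k := by
    unfold RowF.K12
    rw [hU]
    simp only [R_t2b_W_u_f, ku_wp]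
    rw [S1_k H1]
  have c12 : R_t2b_W_u_f.A12 w z lam r / r + R_t2b_W_u_f.B12 w z lam r = ((G.S1 r lam w)).c r := by
    unfold RowF.A12 RowF.B12
    rw [hU]
    simp only [R_t2b_W_u_f, zr7, lva_wp]
    rw [cS1 H1]
    push_cast
    ring
  have k23 : R_t2b_W_u_f.K23 w z lam r = ((-G.Pd xi' r lam z)).k := by
    unfold RowF.K23
    rw [hU]
    simp only [R_t2b_W_u_f, tkQ63_zn]
    rw [neg_k, th.k]
    try ring
  have c23 : R_t2b_W_u_f.A23 w z lam r / r + R_t2b_W_u_f.B23 w z lam r = ((-G.Pd xi' r lam z)).c r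
    := by
    unfold RowF.A23 RowF.B23
    rw [hU]
    simp only [R_t2b_W_u_f, taQ63_zn, tcQ63_zn, dwl_val, dwu_val]
    rw [neg_c, th.c]
    push_cast
    try ring
  have k13 : R_t2b_W_u_f.K13 w z lam r = ((-G.W2 r lam (w + z))).k := by
    unfold RowF.K13
    rw [hU]
    simp only [R_t2b_W_u_f, kwu_tn]
    rw [neg_k, kwu_val]
  have c13 : R_t2b_W_u_f.A13 w z lam r / r + R_t2b_W_u_f.B13 w z lam r = ((-G.W2 r lam (w + z))).c
    r := by
    unfold RowF.A13 RowF.B13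
    rw [hU]
    simp only [R_t2b_W_u_f, xwu_tn, zr7]
    rw [neg_c, cW2]
    push_cast
    ring
  exact far_good hp ⟨rfl, rfl⟩ hD hn hb ⟨k12, k23, k13, c12, c23, c13⟩

theorem g_t2b_W_u_n {r lam w z xi' : ℝ} (D : Dom .pp r lam w z) (e_xip : xi' = -(r * E0.G.om w r) +
    E0.G.xiw (w + z) r) (h1 : G.xd z r ≤ 3 / 2 + r * xi') (h2 : xi' ≤ E0.G.xi3 z r) :
    Good R_t2b_W_u_n w z lam r
      (RowT .near .pp B2 r lam w z (-E0.G.xiw (w + z) r) (-G.Pd xi' r lam z) (-G.W2 r lam (w + z)))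
        := by
  obtain ⟨H1, H2, H3⟩ := hc_of D
  obtain ⟨ka, kb⟩ : 0 ≤ w ∧ 0 ≤ z := D.ok
  have hU : R_t2b_W_u_n.U w z lam r = E0.G.xi3 z r - xi' := by
    simp only [RowF.U, R_t2b_W_u_n, u_T2_B_PW_Q63, zx_val, xi1_val, xi3_val, xiw_val, xw0p_val,
      xq0p_val]
    linarith
  have hu0 : 0 ≤ R_t2b_W_u_n.U w z lam r := by
    rw [hU]
    linarith
  have hp : PatF .pp R_t2b_W_u_n := ⟨rfl, rfl, rfl, rfl⟩
  have hD := dm_of hp D hu0
  have th := th_Q63 H2 (xi')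
  have hn : R_t2b_W_u_n.NF w z lam r = -(G.be (lam * r) * B2.g w z) := by
    simp only [RowF.NF, R_t2b_W_u_n, nfn_T2, bef_val]
    unfold Bs.g B2
    push_cast
    ring
  have hb : R_t2b_W_u_n.NU w z lam r / r + R_t2b_W_u_n.BS w z lam r =
      (1 + G.LAM (lam * r) * G.mu (lam * r)) * (3 / 2 * B2.g w z) / r +
      ((1 + G.LAM (lam * r) * G.mu (lam * r)) * (-(E0.G.om w r / 2) + ((w + z) * (-(r * E0.G.om w
        r)) - w * ((-E0.G.xiw (w + z) r))) / 2) +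
        G.mu (lam * r) * G.LAM (lam * r) * lam * G.q1 (lam * r) / (2 * G.eh (lam * r)) * B2.g w z)
          := by
    subst e_xip
    have e := near_hb (g := B2.g w z) D.r0 D.l0 D.e
    simp only [RowF.NU, RowF.BS, R_t2b_W_u_n, nun_T2, bs_T2_BPWn, bef_val, n1f_val, lmf_val,
      mu_val', qo_val, eh_val, om_val, zx_val, xi1_val, xi3_val, xiw_val]
    unfold Bs.g B2 at e ⊢
    push_cast
    linear_combination e
  have k12 : R_t2b_W_u_n.K12 w z lam r = G.nk (lam * r) ((G.S1 r lam w)).k ((G.S1 r lam w)).b := by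
    unfold RowF.K12
    rw [hU]
    simp only [R_t2b_W_u_n, nku_wp, ku_wp, kv_wp, nkf_val]
    unfold G.nk
    rw [S1_k H1, S1_b H1]
  have c12 : R_t2b_W_u_n.A12 w z lam r / r + R_t2b_W_u_n.B12 w z lam r = ((G.S1 r lam w)).c r := by
    unfold RowF.A12 RowF.B12
    rw [hU]
    simp only [R_t2b_W_u_n, zr7, lva_wp]
    rw [cS1 H1]
    push_cast
    ring
  have k23 : R_t2b_W_u_n.K23 w z lam r = G.nk (lam * r) ((-G.Pd xi' r lam z)).k ((-G.Pd xi' r lam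
    z)).b := by
    unfold RowF.K23
    rw [hU]
    simp only [R_t2b_W_u_n, ntkQ63_zn, tkQ63_zn, tbQ63_zn, nkf_val]
    unfold G.nk
    rw [neg_k, neg_b, th.k, th.b]
    try ring
  have c23 : R_t2b_W_u_n.A23 w z lam r / r + R_t2b_W_u_n.B23 w z lam r = ((-G.Pd xi' r lam z)).c r
    := by
    unfold RowF.A23 RowF.B23
    rw [hU]
    simp only [R_t2b_W_u_n, taQ63_zn, tcQ63_zn, dwl_val, dwu_val]
    rw [neg_c, th.c]
    push_cast
    try ring
  have k13 : R_t2b_W_u_n.K13 w z lam r = G.nk (lam * r) ((-G.W2 r lam (w + z))).k ((-G.W2 r lam (w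
    + z))).b := by
    unfold RowF.K13
    rw [hU]
    simp only [R_t2b_W_u_n, nkwu_tn, kwu_tn, bwu_tn, nkf_val]
    unfold G.nk
    rw [neg_k, neg_b, kwu_val, bwu_val]
  have c13 : R_t2b_W_u_n.A13 w z lam r / r + R_t2b_W_u_n.B13 w z lam r = ((-G.W2 r lam (w + z))).c
    r := by
    unfold RowF.A13 RowF.B13
    rw [hU]
    simp only [R_t2b_W_u_n, xwu_tn, zr7]
    rw [neg_c, cW2]
    push_cast
    ring
  exact near_good hp ⟨rfl, rfl⟩ hD hn hb ⟨k12, k23, k13, c12, c23, c13⟩ rfl rfl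

theorem g_t3a_c1_f {r lam w z xi : ℝ} (D : Dom .pp r lam w z) (e_xi : xi = -(r * E0.G.om w r) +
    E0.G.xi1 z r) (h1 : G.xd (w + z) r ≤ 3 / 2 + r * xi) (h2 : xi ≤ E0.G.xi3 (w + z) r) :
    Good R_t3a_c1_f w z lam r
      (RowT .far .pp B3 r lam w z xi (G.C1u r lam z) (G.Pd xi r lam (w + z))) := by
  obtain ⟨H1, H2, H3⟩ := hc_of D
  obtain ⟨ka, kb⟩ : 0 ≤ w ∧ 0 ≤ z := D.ok
  have hU : R_t3a_c1_f.U w z lam r = E0.G.xi3 (w + z) r - xi := by
    simp only [RowF.U, R_t3a_c1_f, u_T2p_A_P1p_Q63, zx_val, xi1_val, xi3_val, xiw_val, xw0p_val,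
      xq0p_val]
    linarith
  have hu0 : 0 ≤ R_t3a_c1_f.U w z lam r := by
    rw [hU]
    linarith
  have hp : PatF .pp R_t3a_c1_f := ⟨rfl, rfl, rfl, rfl⟩
  have hD := dm_of hp D hu0
  have th := th_Q63 H3 (xi)
  have hn : R_t3a_c1_f.NF w z lam r = -B3.g w z := by
    simp only [RowF.NF, R_t3a_c1_f, nff_T2p, bef_val]
    unfold Bs.g B3
    push_cast
    ring
  have hb : R_t3a_c1_f.NU w z lam r / r + R_t3a_c1_f.BS w z lam r = (3 / 2 * B3.g w z) / r +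
    (-(E0.G.om w r / 2) + ((w + z) * (-(r * E0.G.om w r)) - w * (xi)) / 2) := by
    subst e_xi
    simp only [RowF.NU, RowF.BS, R_t3a_c1_f, nuf_T2p, bs_T2p_AP1pf, bef_val, n1f_val, lmf_val,
      mu_val', qo_val, eh_val, om_val, zx_val, xi1_val, xi3_val, xiw_val]
    unfold Bs.g B3
    push_cast
    ring
  have k12 : R_t3a_c1_f.K12 w z lam r = ((G.S1 r lam w)).k := by
    unfold RowF.K12
    rw [hU]
    simp only [R_t3a_c1_f, ku_wp]
    rw [S1_k H1]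
  have c12 : R_t3a_c1_f.A12 w z lam r / r + R_t3a_c1_f.B12 w z lam r = ((G.S1 r lam w)).c r := by
    unfold RowF.A12 RowF.B12
    rw [hU]
    simp only [R_t3a_c1_f, zr7, lva_wp]
    rw [cS1 H1]
    push_cast
    ring
  have k23 : R_t3a_c1_f.K23 w z lam r = ((G.C1u r lam z)).k := by
    unfold RowF.K23
    rw [hU]
    simp only [R_t3a_c1_f, k1p_zp]
    rw [k1p_val H2]
  have c23 : R_t3a_c1_f.A23 w z lam r / r + R_t3a_c1_f.B23 w z lam r = ((G.C1u r lam z)).c r := by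
    unfold RowF.A23 RowF.B23
    rw [hU]
    simp only [R_t3a_c1_f, zr7, l1p_zp]
    rw [cC1u H2]
    push_cast
    ring
  have k13 : R_t3a_c1_f.K13 w z lam r = ((G.Pd xi r lam (w + z))).k := by
    unfold RowF.K13
    rw [hU]
    simp only [R_t3a_c1_f, tkQ63_tp]
    rw [th.k]
    try ring
  have c13 : R_t3a_c1_f.A13 w z lam r / r + R_t3a_c1_f.B13 w z lam r = ((G.Pd xi r lam (w + z))).c
    r := by
    unfold RowF.A13 RowF.B13
    rw [hU]
    simp only [R_t3a_c1_f, taQ63_tp, tcQ63_tp, dwl_val, dwu_val]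
    rw [th.c]
    push_cast
    try ring
  exact far_good hp ⟨rfl, rfl⟩ hD hn hb ⟨k12, k23, k13, c12, c23, c13⟩

theorem g_t3a_c1_n {r lam w z xi : ℝ} (D : Dom .pp r lam w z) (e_xi : xi = -(r * E0.G.om w r) +
    E0.G.xi1 z r) (h1 : G.xd (w + z) r ≤ 3 / 2 + r * xi) (h2 : xi ≤ E0.G.xi3 (w + z) r) :
    Good R_t3a_c1_n w z lam r
      (RowT .near .pp B3 r lam w z xi (G.C1u r lam z) (G.Pd xi r lam (w + z))) := by
  obtain ⟨H1, H2, H3⟩ := hc_of D
  obtain ⟨ka, kb⟩ : 0 ≤ w ∧ 0 ≤ z := D.ok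
  have hU : R_t3a_c1_n.U w z lam r = E0.G.xi3 (w + z) r - xi := by
    simp only [RowF.U, R_t3a_c1_n, u_T2p_A_P1p_Q63, zx_val, xi1_val, xi3_val, xiw_val, xw0p_val,
      xq0p_val]
    linarith
  have hu0 : 0 ≤ R_t3a_c1_n.U w z lam r := by
    rw [hU]
    linarith
  have hp : PatF .pp R_t3a_c1_n := ⟨rfl, rfl, rfl, rfl⟩
  have hD := dm_of hp D hu0
  have th := th_Q63 H3 (xi)
  have hn : R_t3a_c1_n.NF w z lam r = -(G.be (lam * r) * B3.g w z) := by
    simp only [RowF.NF, R_t3a_c1_n, nfn_T2p, bef_val]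
    unfold Bs.g B3
    push_cast
    ring
  have hb : R_t3a_c1_n.NU w z lam r / r + R_t3a_c1_n.BS w z lam r =
      (1 + G.LAM (lam * r) * G.mu (lam * r)) * (3 / 2 * B3.g w z) / r +
      ((1 + G.LAM (lam * r) * G.mu (lam * r)) * (-(E0.G.om w r / 2) + ((w + z) * (-(r * E0.G.om w
        r)) - w * (xi)) / 2) +
        G.mu (lam * r) * G.LAM (lam * r) * lam * G.q1 (lam * r) / (2 * G.eh (lam * r)) * B3.g w z)
          := by
    subst e_xi
    have e := near_hb (g := B3.g w z) D.r0 D.l0 D.e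
    simp only [RowF.NU, RowF.BS, R_t3a_c1_n, nun_T2p, bs_T2p_AP1pn, bef_val, n1f_val, lmf_val,
      mu_val', qo_val, eh_val, om_val, zx_val, xi1_val, xi3_val, xiw_val]
    unfold Bs.g B3 at e ⊢
    push_cast
    linear_combination e
  have k12 : R_t3a_c1_n.K12 w z lam r = G.nk (lam * r) ((G.S1 r lam w)).k ((G.S1 r lam w)).b := by
    unfold RowF.K12
    rw [hU]
    simp only [R_t3a_c1_n, nku_wp, ku_wp, kv_wp, nkf_val]
    unfold G.nk
    rw [S1_k H1, S1_b H1]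
  have c12 : R_t3a_c1_n.A12 w z lam r / r + R_t3a_c1_n.B12 w z lam r = ((G.S1 r lam w)).c r := by
    unfold RowF.A12 RowF.B12
    rw [hU]
    simp only [R_t3a_c1_n, zr7, lva_wp]
    rw [cS1 H1]
    push_cast
    ring
  have k23 : R_t3a_c1_n.K23 w z lam r = G.nk (lam * r) ((G.C1u r lam z)).k ((G.C1u r lam z)).b := by
    unfold RowF.K23
    rw [hU]
    simp only [R_t3a_c1_n, nk1p_zp, k1p_zp, b1p_zp, nkf_val]
    unfold G.nk
    rw [k1p_val H2, b1p_val H2]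
  have c23 : R_t3a_c1_n.A23 w z lam r / r + R_t3a_c1_n.B23 w z lam r = ((G.C1u r lam z)).c r := by
    unfold RowF.A23 RowF.B23
    rw [hU]
    simp only [R_t3a_c1_n, zr7, l1p_zp]
    rw [cC1u H2]
    push_cast
    ring
  have k13 : R_t3a_c1_n.K13 w z lam r = G.nk (lam * r) ((G.Pd xi r lam (w + z))).k ((G.Pd xi r lam
    (w + z))).b := by
    unfold RowF.K13
    rw [hU]
    simp only [R_t3a_c1_n, ntkQ63_tp, tkQ63_tp, tbQ63_tp, nkf_val]
    unfold G.nk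
    rw [th.k, th.b]
    try ring
  have c13 : R_t3a_c1_n.A13 w z lam r / r + R_t3a_c1_n.B13 w z lam r = ((G.Pd xi r lam (w + z))).c
    r := by
    unfold RowF.A13 RowF.B13
    rw [hU]
    simp only [R_t3a_c1_n, taQ63_tp, tcQ63_tp, dwl_val, dwu_val]
    rw [th.c]
    push_cast
    try ring
  exact near_good hp ⟨rfl, rfl⟩ hD hn hb ⟨k12, k23, k13, c12, c23, c13⟩ rfl rfl

theorem g_t3b_c3_f {r lam w z xi xi' : ℝ} (D : Dom .pp r lam w z) (e_xi : xi = E0.G.xi3 (w + z) r)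
    (e_xip : xi' = xi + r * E0.G.om w r) (h2 : E0.G.xi1 z r ≤ xi') (h3 : xi' ≤ E0.G.xiw z r) :
    Good R_t3b_c3_f w z lam r
      (RowT .far .pp B3 r lam w z xi (G.Pw xi' r lam z) (G.C3u r lam (w + z))) := by
  obtain ⟨H1, H2, H3⟩ := hc_of D
  obtain ⟨ka, kb⟩ : 0 ≤ w ∧ 0 ≤ z := D.ok
  have hU : R_t3b_c3_f.U w z lam r = xi' - E0.G.xi1 z r := by
    simp only [RowF.U, R_t3b_c3_f, u_T2p_B_Q3p_P1W, zx_val, xi1_val, xi3_val, xiw_val, xw0p_val,
      xq0p_val]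
    linarith
  have hu0 : 0 ≤ R_t3b_c3_f.U w z lam r := by
    rw [hU]
    linarith
  have hp : PatF .pp R_t3b_c3_f := ⟨rfl, rfl, rfl, rfl⟩
  have hD := dm_of hp D hu0
  have th := th_P1W H2 D.l0 D.e (xi') (by linarith) (pw_0 h2 h3)
  have hn : R_t3b_c3_f.NF w z lam r = -B3.g w z := by
    simp only [RowF.NF, R_t3b_c3_f, nff_T2p, bef_val]
    unfold Bs.g B3
    push_cast
    ring
  have hb : R_t3b_c3_f.NU w z lam r / r + R_t3b_c3_f.BS w z lam r = (3 / 2 * B3.g w z) / r +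
    (-(E0.G.om w r / 2) + ((w + z) * (-(r * E0.G.om w r)) - w * (xi)) / 2) := by
    subst e_xi
    subst e_xip
    simp only [RowF.NU, RowF.BS, R_t3b_c3_f, nuf_T2p, bs_T2p_BQ3pf, bef_val, n1f_val, lmf_val,
      mu_val', qo_val, eh_val, om_val, zx_val, xi1_val, xi3_val, xiw_val]
    unfold Bs.g B3
    push_cast
    ring
  have k12 : R_t3b_c3_f.K12 w z lam r = ((G.S1 r lam w)).k := by
    unfold RowF.K12
    rw [hU]
    simp only [R_t3b_c3_f, ku_wp]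
    rw [S1_k H1]
  have c12 : R_t3b_c3_f.A12 w z lam r / r + R_t3b_c3_f.B12 w z lam r = ((G.S1 r lam w)).c r := by
    unfold RowF.A12 RowF.B12
    rw [hU]
    simp only [R_t3b_c3_f, zr7, lva_wp]
    rw [cS1 H1]
    push_cast
    ring
  have k23 : R_t3b_c3_f.K23 w z lam r = ((G.Pw xi' r lam z)).k := by
    unfold RowF.K23
    rw [hU]
    simp only [R_t3b_c3_f, tkP1W_zp]
    rw [th.k]
    try ring
  have c23 : R_t3b_c3_f.A23 w z lam r / r + R_t3b_c3_f.B23 w z lam r = ((G.Pw xi' r lam z)).c r :=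
    by
    unfold RowF.A23 RowF.B23
    rw [hU]
    simp only [R_t3b_c3_f, taP1W_zp, tcP1W_zp, dwl_val, dwu_val]
    rw [th.c]
    push_cast
    try ring
  have k13 : R_t3b_c3_f.K13 w z lam r = ((G.C3u r lam (w + z))).k := by
    unfold RowF.K13
    rw [hU]
    simp only [R_t3b_c3_f, k3p_tp]
    rw [k3p_val H3]
  have c13 : R_t3b_c3_f.A13 w z lam r / r + R_t3b_c3_f.B13 w z lam r = ((G.C3u r lam (w + z))).c r
    := by
    unfold RowF.A13 RowF.B13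
    rw [hU]
    simp only [R_t3b_c3_f, zr7, l3p_tp]
    rw [cC3u H3]
    push_cast
    ring
  exact far_good hp ⟨rfl, rfl⟩ hD hn hb ⟨k12, k23, k13, c12, c23, c13⟩

theorem g_t3b_c3_n {r lam w z xi xi' : ℝ} (D : Dom .pp r lam w z) (e_xi : xi = E0.G.xi3 (w + z) r)
    (e_xip : xi' = xi + r * E0.G.om w r) (h2 : E0.G.xi1 z r ≤ xi') (h3 : xi' ≤ E0.G.xiw z r) :
    Good R_t3b_c3_n w z lam r
      (RowT .near .pp B3 r lam w z xi (G.Pw xi' r lam z) (G.C3u r lam (w + z))) := by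
  obtain ⟨H1, H2, H3⟩ := hc_of D
  obtain ⟨ka, kb⟩ : 0 ≤ w ∧ 0 ≤ z := D.ok
  have hU : R_t3b_c3_n.U w z lam r = xi' - E0.G.xi1 z r := by
    simp only [RowF.U, R_t3b_c3_n, u_T2p_B_Q3p_P1W, zx_val, xi1_val, xi3_val, xiw_val, xw0p_val,
      xq0p_val]
    linarith
  have hu0 : 0 ≤ R_t3b_c3_n.U w z lam r := by
    rw [hU]
    linarith
  have hp : PatF .pp R_t3b_c3_n := ⟨rfl, rfl, rfl, rfl⟩
  have hD := dm_of hp D hu0
  have th := th_P1W H2 D.l0 D.e (xi') (by linarith) (pw_0 h2 h3)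
  have hn : R_t3b_c3_n.NF w z lam r = -(G.be (lam * r) * B3.g w z) := by
    simp only [RowF.NF, R_t3b_c3_n, nfn_T2p, bef_val]
    unfold Bs.g B3
    push_cast
    ring
  have hb : R_t3b_c3_n.NU w z lam r / r + R_t3b_c3_n.BS w z lam r =
      (1 + G.LAM (lam * r) * G.mu (lam * r)) * (3 / 2 * B3.g w z) / r +
      ((1 + G.LAM (lam * r) * G.mu (lam * r)) * (-(E0.G.om w r / 2) + ((w + z) * (-(r * E0.G.om w
        r)) - w * (xi)) / 2) +
        G.mu (lam * r) * G.LAM (lam * r) * lam * G.q1 (lam * r) / (2 * G.eh (lam * r)) * B3.g w z)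
          := by
    subst e_xi
    subst e_xip
    have e := near_hb (g := B3.g w z) D.r0 D.l0 D.e
    simp only [RowF.NU, RowF.BS, R_t3b_c3_n, nun_T2p, bs_T2p_BQ3pn, bef_val, n1f_val, lmf_val,
      mu_val', qo_val, eh_val, om_val, zx_val, xi1_val, xi3_val, xiw_val]
    unfold Bs.g B3 at e ⊢
    push_cast
    linear_combination e
  have k12 : R_t3b_c3_n.K12 w z lam r = G.nk (lam * r) ((G.S1 r lam w)).k ((G.S1 r lam w)).b := by
    unfold RowF.K12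
    rw [hU]
    simp only [R_t3b_c3_n, nku_wp, ku_wp, kv_wp, nkf_val]
    unfold G.nk
    rw [S1_k H1, S1_b H1]
  have c12 : R_t3b_c3_n.A12 w z lam r / r + R_t3b_c3_n.B12 w z lam r = ((G.S1 r lam w)).c r := by
    unfold RowF.A12 RowF.B12
    rw [hU]
    simp only [R_t3b_c3_n, zr7, lva_wp]
    rw [cS1 H1]
    push_cast
    ring
  have k23 : R_t3b_c3_n.K23 w z lam r = G.nk (lam * r) ((G.Pw xi' r lam z)).k ((G.Pw xi' r lam
    z)).b := by
    unfold RowF.K23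
    rw [hU]
    simp only [R_t3b_c3_n, ntkP1W_zp, tkP1W_zp, tbP1W_zp, nkf_val]
    unfold G.nk
    rw [th.k, th.b]
    try ring
  have c23 : R_t3b_c3_n.A23 w z lam r / r + R_t3b_c3_n.B23 w z lam r = ((G.Pw xi' r lam z)).c r :=
    by
    unfold RowF.A23 RowF.B23
    rw [hU]
    simp only [R_t3b_c3_n, taP1W_zp, tcP1W_zp, dwl_val, dwu_val]
    rw [th.c]
    push_cast
    try ring
  have k13 : R_t3b_c3_n.K13 w z lam r = G.nk (lam * r) ((G.C3u r lam (w + z))).k ((G.C3u r lam (w +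
    z))).b := by
    unfold RowF.K13
    rw [hU]
    simp only [R_t3b_c3_n, nk3p_tp, k3p_tp, b3p_tp, nkf_val]
    unfold G.nk
    rw [k3p_val H3, b3p_val H3]
  have c13 : R_t3b_c3_n.A13 w z lam r / r + R_t3b_c3_n.B13 w z lam r = ((G.C3u r lam (w + z))).c r
    := by
    unfold RowF.A13 RowF.B13
    rw [hU]
    simp only [R_t3b_c3_n, zr7, l3p_tp]
    rw [cC3u H3]
    push_cast
    ring
  exact near_good hp ⟨rfl, rfl⟩ hD hn hb ⟨k12, k23, k13, c12, c23, c13⟩ rfl rfl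

end Pool.Agent.Strip051.LC.E1.Ch
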