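import Pool.Agent.Strip051.LC.E1.Ch.Rw

/-! # Rests near the full period: the leaves of all rows -/

set_option linter.unusedVariables false

namespace Pool.Agent.Strip051.LC.E1.Ch

open Pool.Agent.Strip051.PB

noncomputable def B1_t1a_c1_d_f (h W Wd Z Zd M Q : ℕ) : Bool :=
  body (fun c k s => dirT R_t1a_c1_d_f false c k s W Z M Q)
    (fun c k s => strT S_t1a_c1_d_f_z false kw1 nbf pone c k s W Z M Q)
    (fun c k s => conT S_t1a_c1_d_f_z false c k s W Wd Z Zd M Q)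
    noF
    (exits (exT R_t1a_c1_d_f W Z M Q) (exO R_t1a_c1_d_f ov_A_P1W W Z M Q) (cexT S_t1a_c1_d_f_z W
        Wd Z Zd M Q))
    noF h

noncomputable def T1_t1a_c1_d_f : ℕ → ℕ → ℕ → ℕ → Bool := ch1 polpnp B1_t1a_c1_d_f

noncomputable def B2_t1a_c1_d_f (h W Wd Z Zd M Q : ℕ) : Bool :=
  body (fun c k s => dirT R_t1a_c1_d_f false c k s W Z M Q)
    (fun c k s => strT S_t1a_c1_d_f_z false kw1 nbf pone c k s W Z M Q)
    noF
    noF
    (exits (exT R_t1a_c1_d_f W Z M Q) (exO R_t1a_c1_d_f ov_A_P1W W Z M Q) false)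
    noF h

noncomputable def T2_t1a_c1_d_f : ℕ → ℕ → ℕ → ℕ → Bool := ch2 polpnp B2_t1a_c1_d_f

noncomputable def B1_t1a_c1_d_n (h W Wd Z Zd M Q : ℕ) : Bool :=
  body (fun c k s => dirT R_t1a_c1_d_n false c k s W Z M Q)
    (fun c k s => strT S_t1a_c1_d_n_z false kw1 nbn pone c k s W Z M Q)
    (fun c k s => conT S_t1a_c1_d_n_z false c k s W Wd Z Zd M Q)
    noF
    (exits (exT R_t1a_c1_d_n W Z M Q) (exO R_t1a_c1_d_n ov_A_P1W W Z M Q) (cexT S_t1a_c1_d_n_z W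
        Wd Z Zd M Q))
    noF h

noncomputable def T1_t1a_c1_d_n : ℕ → ℕ → ℕ → ℕ → Bool := ch1 polpnp B1_t1a_c1_d_n

noncomputable def B2_t1a_c1_d_n (h W Wd Z Zd M Q : ℕ) : Bool :=
  body (fun c k s => dirT R_t1a_c1_d_n false c k s W Z M Q)
    (fun c k s => strT S_t1a_c1_d_n_z false kw1 nbn pone c k s W Z M Q)
    noF
    noF
    (exits (exT R_t1a_c1_d_n W Z M Q) (exO R_t1a_c1_d_n ov_A_P1W W Z M Q) false)
    noF h

noncomputable def T2_t1a_c1_d_n : ℕ → ℕ → ℕ → ℕ → Bool := ch2 polpnp B2_t1a_c1_d_n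

noncomputable def B1_t1a_c1_u_f (h W Wd Z Zd M Q : ℕ) : Bool :=
  body (fun c k s => dirT R_t1a_c1_u_f false c k s W Z M Q)
    noF
    (fun c k s => conT S_t1a_c1_u_f_z false c k s W Wd Z Zd M Q)
    noF
    (exits (exT R_t1a_c1_u_f W Z M Q) false (cexT S_t1a_c1_u_f_z W Wd Z Zd M Q))
    noF h

noncomputable def T1_t1a_c1_u_f : ℕ → ℕ → ℕ → ℕ → Bool := ch1 polpp B1_t1a_c1_u_f

noncomputable def B2_t1a_c1_u_f (h W Wd Z Zd M Q : ℕ) : Bool :=
  body (fun c k s => dirT R_t1a_c1_u_f false c k s W Z M Q)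
    noF
    noF
    noF
    (exits (exT R_t1a_c1_u_f W Z M Q) false false)
    noF h

noncomputable def T2_t1a_c1_u_f : ℕ → ℕ → ℕ → ℕ → Bool := ch2 polpp B2_t1a_c1_u_f

noncomputable def B1_t1a_c1_u_n (h W Wd Z Zd M Q : ℕ) : Bool :=
  body (fun c k s => dirT R_t1a_c1_u_n false c k s W Z M Q)
    noF
    (fun c k s => conT S_t1a_c1_u_n_z false c k s W Wd Z Zd M Q)
    noF
    (exits (exT R_t1a_c1_u_n W Z M Q) false (cexT S_t1a_c1_u_n_z W Wd Z Zd M Q))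
    noF h

noncomputable def T1_t1a_c1_u_n : ℕ → ℕ → ℕ → ℕ → Bool := ch1 polpp B1_t1a_c1_u_n

noncomputable def B2_t1a_c1_u_n (h W Wd Z Zd M Q : ℕ) : Bool :=
  body (fun c k s => dirT R_t1a_c1_u_n false c k s W Z M Q)
    noF
    noF
    noF
    (exits (exT R_t1a_c1_u_n W Z M Q) false false)
    noF h

noncomputable def T2_t1a_c1_u_n : ℕ → ℕ → ℕ → ℕ → Bool := ch2 polpp B2_t1a_c1_u_n

noncomputable def B1_t1a_W_f (h W Wd Z Zd M Q : ℕ) : Bool :=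
  body (fun c k s => dirT R_t1a_W_f false c k s W Z M Q)
    noF
    (fun c k s => conT S_t1a_W_f_z false c k s W Wd Z Zd M Q)
    noF
    (exits (exT R_t1a_W_f W Z M Q) false (cexT S_t1a_W_f_z W Wd Z Zd M Q))
    noF h

noncomputable def T1_t1a_W_f : ℕ → ℕ → ℕ → ℕ → Bool := ch1 polpp B1_t1a_W_f

noncomputable def B2_t1a_W_f (h W Wd Z Zd M Q : ℕ) : Bool :=
  body (fun c k s => dirT R_t1a_W_f false c k s W Z M Q)
    noF
    noF
    noF
    (exits (exT R_t1a_W_f W Z M Q) false false)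
    noF h

noncomputable def T2_t1a_W_f : ℕ → ℕ → ℕ → ℕ → Bool := ch2 polpp B2_t1a_W_f

noncomputable def B1_t1a_W_n (h W Wd Z Zd M Q : ℕ) : Bool :=
  body (fun c k s => dirT R_t1a_W_n false c k s W Z M Q)
    noF
    (fun c k s => conT S_t1a_W_n_z false c k s W Wd Z Zd M Q)
    noF
    (exits (exT R_t1a_W_n W Z M Q) false (cexT S_t1a_W_n_z W Wd Z Zd M Q))
    noF h

noncomputable def T1_t1a_W_n : ℕ → ℕ → ℕ → ℕ → Bool := ch1 polpp B1_t1a_W_n

noncomputable def B2_t1a_W_n (h W Wd Z Zd M Q : ℕ) : Bool :=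
  body (fun c k s => dirT R_t1a_W_n false c k s W Z M Q)
    noF
    noF
    noF
    (exits (exT R_t1a_W_n W Z M Q) false false)
    noF h

noncomputable def T2_t1a_W_n : ℕ → ℕ → ℕ → ℕ → Bool := ch2 polpp B2_t1a_W_n

noncomputable def B1_t1b_c1_d_f (h W Wd Z Zd M Q : ℕ) : Bool :=
  body (fun c k s => dirT R_t1b_c1_d_f false c k s W Z M Q)
    (fun c k s => strT S_t1b_c1_d_f_z false kw1 nbf pone c k s W Z M Q)
    (fun c k s => conT S_t1b_c1_d_f_z false c k s W Wd Z Zd M Q)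
    noF
    (exits (exT R_t1b_c1_d_f W Z M Q) false (cexT S_t1b_c1_d_f_z W Wd Z Zd M Q))
    noF h

noncomputable def T1_t1b_c1_d_f : ℕ → ℕ → ℕ → ℕ → Bool := ch1 polpnp B1_t1b_c1_d_f

noncomputable def B2_t1b_c1_d_f (h W Wd Z Zd M Q : ℕ) : Bool :=
  body (fun c k s => dirT R_t1b_c1_d_f false c k s W Z M Q)
    (fun c k s => strT S_t1b_c1_d_f_z false kw1 nbf pone c k s W Z M Q)
    noF
    noF
    (exits (exT R_t1b_c1_d_f W Z M Q) false false)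
    noF h

noncomputable def T2_t1b_c1_d_f : ℕ → ℕ → ℕ → ℕ → Bool := ch2 polpnp B2_t1b_c1_d_f

noncomputable def B1_t1b_c1_d_n (h W Wd Z Zd M Q : ℕ) : Bool :=
  body (fun c k s => dirT R_t1b_c1_d_n false c k s W Z M Q)
    (fun c k s => strT S_t1b_c1_d_n_z false kw1 nbn pone c k s W Z M Q)
    (fun c k s => conT S_t1b_c1_d_n_z false c k s W Wd Z Zd M Q)
    noF
    (exits (exT R_t1b_c1_d_n W Z M Q) false (cexT S_t1b_c1_d_n_z W Wd Z Zd M Q))
    noF h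

noncomputable def T1_t1b_c1_d_n : ℕ → ℕ → ℕ → ℕ → Bool := ch1 polpnp B1_t1b_c1_d_n

noncomputable def B2_t1b_c1_d_n (h W Wd Z Zd M Q : ℕ) : Bool :=
  body (fun c k s => dirT R_t1b_c1_d_n false c k s W Z M Q)
    (fun c k s => strT S_t1b_c1_d_n_z false kw1 nbn pone c k s W Z M Q)
    noF
    noF
    (exits (exT R_t1b_c1_d_n W Z M Q) false false)
    noF h

noncomputable def T2_t1b_c1_d_n : ℕ → ℕ → ℕ → ℕ → Bool := ch2 polpnp B2_t1b_c1_d_n

noncomputable def B1_t1b_c1_u_f (h W Wd Z Zd M Q : ℕ) : Bool :=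
  body (fun c k s => dirT R_t1b_c1_u_f false c k s W Z M Q)
    noF
    (fun c k s => conT S_t1b_c1_u_f_z false c k s W Wd Z Zd M Q)
    noF
    (exits (exT R_t1b_c1_u_f W Z M Q) false (cexT S_t1b_c1_u_f_z W Wd Z Zd M Q))
    noF h

noncomputable def T1_t1b_c1_u_f : ℕ → ℕ → ℕ → ℕ → Bool := ch1 polpp B1_t1b_c1_u_f

noncomputable def B2_t1b_c1_u_f (h W Wd Z Zd M Q : ℕ) : Bool :=
  body (fun c k s => dirT R_t1b_c1_u_f false c k s W Z M Q)
    noF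
    noF
    noF
    (exits (exT R_t1b_c1_u_f W Z M Q) false false)
    noF h

noncomputable def T2_t1b_c1_u_f : ℕ → ℕ → ℕ → ℕ → Bool := ch2 polpp B2_t1b_c1_u_f

noncomputable def B1_t1b_c1_u_n (h W Wd Z Zd M Q : ℕ) : Bool :=
  body (fun c k s => dirT R_t1b_c1_u_n false c k s W Z M Q)
    noF
    (fun c k s => conT S_t1b_c1_u_n_z false c k s W Wd Z Zd M Q)
    noF
    (exits (exT R_t1b_c1_u_n W Z M Q) false (cexT S_t1b_c1_u_n_z W Wd Z Zd M Q))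
    noF h

noncomputable def T1_t1b_c1_u_n : ℕ → ℕ → ℕ → ℕ → Bool := ch1 polpp B1_t1b_c1_u_n

noncomputable def B2_t1b_c1_u_n (h W Wd Z Zd M Q : ℕ) : Bool :=
  body (fun c k s => dirT R_t1b_c1_u_n false c k s W Z M Q)
    noF
    noF
    noF
    (exits (exT R_t1b_c1_u_n W Z M Q) false false)
    noF h

noncomputable def T2_t1b_c1_u_n : ℕ → ℕ → ℕ → ℕ → Bool := ch2 polpp B2_t1b_c1_u_n

noncomputable def B1_t1b_W_f (h W Wd Z Zd M Q : ℕ) : Bool :=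
  body (fun c k s => dirT R_t1b_W_f false c k s W Z M Q)
    noF
    (fun c k s => conT S_t1b_W_f_z false c k s W Wd Z Zd M Q)
    noF
    (exits (exT R_t1b_W_f W Z M Q) false (cexT S_t1b_W_f_z W Wd Z Zd M Q))
    noF h

noncomputable def T1_t1b_W_f : ℕ → ℕ → ℕ → ℕ → Bool := ch1 polpp B1_t1b_W_f

noncomputable def B2_t1b_W_f (h W Wd Z Zd M Q : ℕ) : Bool :=
  body (fun c k s => dirT R_t1b_W_f false c k s W Z M Q)
    noF
    noF
    noF
    (exits (exT R_t1b_W_f W Z M Q) false false)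
    noF h

noncomputable def T2_t1b_W_f : ℕ → ℕ → ℕ → ℕ → Bool := ch2 polpp B2_t1b_W_f

noncomputable def B1_t1b_W_n (h W Wd Z Zd M Q : ℕ) : Bool :=
  body (fun c k s => dirT R_t1b_W_n false c k s W Z M Q)
    noF
    (fun c k s => conT S_t1b_W_n_z false c k s W Wd Z Zd M Q)
    noF
    (exits (exT R_t1b_W_n W Z M Q) false (cexT S_t1b_W_n_z W Wd Z Zd M Q))
    noF h

noncomputable def T1_t1b_W_n : ℕ → ℕ → ℕ → ℕ → Bool := ch1 polpp B1_t1b_W_n

noncomputable def B2_t1b_W_n (h W Wd Z Zd M Q : ℕ) : Bool :=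
  body (fun c k s => dirT R_t1b_W_n false c k s W Z M Q)
    noF
    noF
    noF
    (exits (exT R_t1b_W_n W Z M Q) false false)
    noF h

noncomputable def T2_t1b_W_n : ℕ → ℕ → ℕ → ℕ → Bool := ch2 polpp B2_t1b_W_n

noncomputable def B1_t2a_W_f (h W Wd Z Zd M Q : ℕ) : Bool :=
  body (fun c k s => dirT R_t2a_W_f false c k s W Z M Q)
    noF
    (fun c k s => conT S_t2a_W_f_z false c k s W Wd Z Zd M Q)
    noF
    (exits (exT R_t2a_W_f W Z M Q) false (cexT S_t2a_W_f_z W Wd Z Zd M Q))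
    noF h

noncomputable def T1_t2a_W_f : ℕ → ℕ → ℕ → ℕ → Bool := ch1 polpnp B1_t2a_W_f

noncomputable def B2_t2a_W_f (h W Wd Z Zd M Q : ℕ) : Bool :=
  body (fun c k s => dirT R_t2a_W_f false c k s W Z M Q)
    noF
    noF
    noF
    (exits (exT R_t2a_W_f W Z M Q) false false)
    noF h

noncomputable def T2_t2a_W_f : ℕ → ℕ → ℕ → ℕ → Bool := ch2 polpnp B2_t2a_W_f

noncomputable def B1_t2a_W_n (h W Wd Z Zd M Q : ℕ) : Bool :=
  body (fun c k s => dirT R_t2a_W_n false c k s W Z M Q)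
    noF
    (fun c k s => conT S_t2a_W_n_z false c k s W Wd Z Zd M Q)
    noF
    (exits (exT R_t2a_W_n W Z M Q) false (cexT S_t2a_W_n_z W Wd Z Zd M Q))
    noF h

noncomputable def T1_t2a_W_n : ℕ → ℕ → ℕ → ℕ → Bool := ch1 polpnp B1_t2a_W_n

noncomputable def B2_t2a_W_n (h W Wd Z Zd M Q : ℕ) : Bool :=
  body (fun c k s => dirT R_t2a_W_n false c k s W Z M Q)
    noF
    noF
    noF
    (exits (exT R_t2a_W_n W Z M Q) false false)
    noF h

noncomputable def T2_t2a_W_n : ℕ → ℕ → ℕ → ℕ → Bool := ch2 polpnp B2_t2a_W_n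

noncomputable def B1_t2a_c3_dd_f (h W Wd Z Zd M Q : ℕ) : Bool :=
  body (fun c k s => dirT R_t2a_c3_dd_f false c k s W Z M Q)
    (fun c k s => strT S_t2a_c3_dd_f_z false kw2 nbf pone c k s W Z M Q)
    (fun c k s => conT S_t2a_c3_dd_f_z false c k s W Wd Z Zd M Q)
    noF
    (exits (exT R_t2a_c3_dd_f W Z M Q) false (cexT S_t2a_c3_dd_f_z W Wd Z Zd M Q))
    noF h

noncomputable def T1_t2a_c3_dd_f : ℕ → ℕ → ℕ → ℕ → Bool := ch1 polpnn B1_t2a_c3_dd_f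

noncomputable def B2_t2a_c3_dd_f (h W Wd Z Zd M Q : ℕ) : Bool :=
  body (fun c k s => dirT R_t2a_c3_dd_f false c k s W Z M Q)
    (fun c k s => strT S_t2a_c3_dd_f_z false kw2 nbf pone c k s W Z M Q)
    noF
    noF
    (exits (exT R_t2a_c3_dd_f W Z M Q) false false)
    noF h

noncomputable def T2_t2a_c3_dd_f : ℕ → ℕ → ℕ → ℕ → Bool := ch2 polpnn B2_t2a_c3_dd_f

noncomputable def B1_t2a_c3_dd_n (h W Wd Z Zd M Q : ℕ) : Bool :=
  body (fun c k s => dirT R_t2a_c3_dd_n false c k s W Z M Q)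
    (fun c k s => strT S_t2a_c3_dd_n_z false kw2 nbn pone c k s W Z M Q)
    (fun c k s => conT S_t2a_c3_dd_n_z false c k s W Wd Z Zd M Q)
    noF
    (exits (exT R_t2a_c3_dd_n W Z M Q) false (cexT S_t2a_c3_dd_n_z W Wd Z Zd M Q))
    noF h

noncomputable def T1_t2a_c3_dd_n : ℕ → ℕ → ℕ → ℕ → Bool := ch1 polpnn B1_t2a_c3_dd_n

noncomputable def B2_t2a_c3_dd_n (h W Wd Z Zd M Q : ℕ) : Bool :=
  body (fun c k s => dirT R_t2a_c3_dd_n false c k s W Z M Q)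
    (fun c k s => strT S_t2a_c3_dd_n_z false kw2 nbn pone c k s W Z M Q)
    noF
    noF
    (exits (exT R_t2a_c3_dd_n W Z M Q) false false)
    noF h

noncomputable def T2_t2a_c3_dd_n : ℕ → ℕ → ℕ → ℕ → Bool := ch2 polpnn B2_t2a_c3_dd_n

noncomputable def B1_t2a_c3_du_f (h W Wd Z Zd M Q : ℕ) : Bool :=
  body (fun c k s => dirT R_t2a_c3_du_f false c k s W Z M Q)
    noF
    (fun c k s => conT S_t2a_c3_du_f_z false c k s W Wd Z Zd M Q)
    noF
    (exits (exT R_t2a_c3_du_f W Z M Q) false (cexT S_t2a_c3_du_f_z W Wd Z Zd M Q))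
    noF h

noncomputable def T1_t2a_c3_du_f : ℕ → ℕ → ℕ → ℕ → Bool := ch1 polpnp B1_t2a_c3_du_f

noncomputable def B2_t2a_c3_du_f (h W Wd Z Zd M Q : ℕ) : Bool :=
  body (fun c k s => dirT R_t2a_c3_du_f false c k s W Z M Q)
    noF
    noF
    noF
    (exits (exT R_t2a_c3_du_f W Z M Q) false false)
    noF h

noncomputable def T2_t2a_c3_du_f : ℕ → ℕ → ℕ → ℕ → Bool := ch2 polpnp B2_t2a_c3_du_f

noncomputable def B1_t2a_c3_du_n (h W Wd Z Zd M Q : ℕ) : Bool :=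
  body (fun c k s => dirT R_t2a_c3_du_n false c k s W Z M Q)
    noF
    (fun c k s => conT S_t2a_c3_du_n_z false c k s W Wd Z Zd M Q)
    noF
    (exits (exT R_t2a_c3_du_n W Z M Q) false (cexT S_t2a_c3_du_n_z W Wd Z Zd M Q))
    noF h

noncomputable def T1_t2a_c3_du_n : ℕ → ℕ → ℕ → ℕ → Bool := ch1 polpnp B1_t2a_c3_du_n

noncomputable def B2_t2a_c3_du_n (h W Wd Z Zd M Q : ℕ) : Bool :=
  body (fun c k s => dirT R_t2a_c3_du_n false c k s W Z M Q)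
    noF
    noF
    noF
    (exits (exT R_t2a_c3_du_n W Z M Q) false false)
    noF h

noncomputable def T2_t2a_c3_du_n : ℕ → ℕ → ℕ → ℕ → Bool := ch2 polpnp B2_t2a_c3_du_n

noncomputable def B1_t2a_c3_u1_f (h W Wd Z Zd M Q : ℕ) : Bool :=
  body (fun c k s => dirT R_t2a_c3_u1_f false c k s W Z M Q)
    noF
    (fun c k s => conT S_t2a_c3_u1_f_z false c k s W Wd Z Zd M Q)
    noF
    (exits (exT R_t2a_c3_u1_f W Z M Q) (exO R_t2a_c3_u1_f ov_A_P1W W Z M Q) (cexT S_t2a_c3_u1_f_z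
        W Wd Z Zd M Q))
    noF h

noncomputable def T1_t2a_c3_u1_f : ℕ → ℕ → ℕ → ℕ → Bool := ch1 polpp B1_t2a_c3_u1_f

noncomputable def B2_t2a_c3_u1_f (h W Wd Z Zd M Q : ℕ) : Bool :=
  body (fun c k s => dirT R_t2a_c3_u1_f false c k s W Z M Q)
    noF
    noF
    noF
    (exits (exT R_t2a_c3_u1_f W Z M Q) (exO R_t2a_c3_u1_f ov_A_P1W W Z M Q) false)
    noF h

noncomputable def T2_t2a_c3_u1_f : ℕ → ℕ → ℕ → ℕ → Bool := ch2 polpp B2_t2a_c3_u1_f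

noncomputable def B1_t2a_c3_u1_n (h W Wd Z Zd M Q : ℕ) : Bool :=
  body (fun c k s => dirT R_t2a_c3_u1_n false c k s W Z M Q)
    noF
    (fun c k s => conT S_t2a_c3_u1_n_z false c k s W Wd Z Zd M Q)
    noF
    (exits (exT R_t2a_c3_u1_n W Z M Q) (exO R_t2a_c3_u1_n ov_A_P1W W Z M Q) (cexT S_t2a_c3_u1_n_z
        W Wd Z Zd M Q))
    noF h

noncomputable def T1_t2a_c3_u1_n : ℕ → ℕ → ℕ → ℕ → Bool := ch1 polpp B1_t2a_c3_u1_n

noncomputable def B2_t2a_c3_u1_n (h W Wd Z Zd M Q : ℕ) : Bool :=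
  body (fun c k s => dirT R_t2a_c3_u1_n false c k s W Z M Q)
    noF
    noF
    noF
    (exits (exT R_t2a_c3_u1_n W Z M Q) (exO R_t2a_c3_u1_n ov_A_P1W W Z M Q) false)
    noF h

noncomputable def T2_t2a_c3_u1_n : ℕ → ℕ → ℕ → ℕ → Bool := ch2 polpp B2_t2a_c3_u1_n

noncomputable def B1_t2a_c3_u2_f (h W Wd Z Zd M Q : ℕ) : Bool :=
  body (fun c k s => dirT R_t2a_c3_u2_f false c k s W Z M Q)
    noF
    (fun c k s => conT S_t2a_c3_u2_f_z false c k s W Wd Z Zd M Q)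
    noF
    (exits (exT R_t2a_c3_u2_f W Z M Q) false (cexT S_t2a_c3_u2_f_z W Wd Z Zd M Q))
    noF h

noncomputable def T1_t2a_c3_u2_f : ℕ → ℕ → ℕ → ℕ → Bool := ch1 polpp B1_t2a_c3_u2_f

noncomputable def B2_t2a_c3_u2_f (h W Wd Z Zd M Q : ℕ) : Bool :=
  body (fun c k s => dirT R_t2a_c3_u2_f false c k s W Z M Q)
    noF
    noF
    noF
    (exits (exT R_t2a_c3_u2_f W Z M Q) false false)
    noF h

noncomputable def T2_t2a_c3_u2_f : ℕ → ℕ → ℕ → ℕ → Bool := ch2 polpp B2_t2a_c3_u2_f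

noncomputable def B1_t2a_c3_u2_n (h W Wd Z Zd M Q : ℕ) : Bool :=
  body (fun c k s => dirT R_t2a_c3_u2_n false c k s W Z M Q)
    noF
    (fun c k s => conT S_t2a_c3_u2_n_z false c k s W Wd Z Zd M Q)
    noF
    (exits (exT R_t2a_c3_u2_n W Z M Q) false (cexT S_t2a_c3_u2_n_z W Wd Z Zd M Q))
    noF h

noncomputable def T1_t2a_c3_u2_n : ℕ → ℕ → ℕ → ℕ → Bool := ch1 polpp B1_t2a_c3_u2_n

noncomputable def B2_t2a_c3_u2_n (h W Wd Z Zd M Q : ℕ) : Bool :=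
  body (fun c k s => dirT R_t2a_c3_u2_n false c k s W Z M Q)
    noF
    noF
    noF
    (exits (exT R_t2a_c3_u2_n W Z M Q) false false)
    noF h

noncomputable def T2_t2a_c3_u2_n : ℕ → ℕ → ℕ → ℕ → Bool := ch2 polpp B2_t2a_c3_u2_n

noncomputable def B1_t2b_c1_dd_f (h W Wd Z Zd M Q : ℕ) : Bool :=
  body (fun c k s => dirT R_t2b_c1_dd_f false c k s W Z M Q)
    (fun c k s => strT S_t2b_c1_dd_f_z false kw2 nbf pone c k s W Z M Q)
    (fun c k s => conT S_t2b_c1_dd_f_z false c k s W Wd Z Zd M Q)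
    noF
    (exits (exT R_t2b_c1_dd_f W Z M Q) (exO R_t2b_c1_dd_f ov_B_QW3 W Z M Q) (cexT S_t2b_c1_dd_f_z
        W Wd Z Zd M Q))
    noF h

noncomputable def T1_t2b_c1_dd_f : ℕ → ℕ → ℕ → ℕ → Bool := ch1 polpnn B1_t2b_c1_dd_f

noncomputable def B2_t2b_c1_dd_f (h W Wd Z Zd M Q : ℕ) : Bool :=
  body (fun c k s => dirT R_t2b_c1_dd_f false c k s W Z M Q)
    (fun c k s => strT S_t2b_c1_dd_f_z false kw2 nbf pone c k s W Z M Q)
    noF
    noF
    (exits (exT R_t2b_c1_dd_f W Z M Q) (exO R_t2b_c1_dd_f ov_B_QW3 W Z M Q) false)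
    noF h

noncomputable def T2_t2b_c1_dd_f : ℕ → ℕ → ℕ → ℕ → Bool := ch2 polpnn B2_t2b_c1_dd_f

noncomputable def B1_t2b_c1_dd_n (h W Wd Z Zd M Q : ℕ) : Bool :=
  body (fun c k s => dirT R_t2b_c1_dd_n false c k s W Z M Q)
    (fun c k s => strT S_t2b_c1_dd_n_z false kw2 nbn pone c k s W Z M Q)
    (fun c k s => conT S_t2b_c1_dd_n_z false c k s W Wd Z Zd M Q)
    noF
    (exits (exT R_t2b_c1_dd_n W Z M Q) (exO R_t2b_c1_dd_n ov_B_QW3 W Z M Q) (cexT S_t2b_c1_dd_n_z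
        W Wd Z Zd M Q))
    noF h

noncomputable def T1_t2b_c1_dd_n : ℕ → ℕ → ℕ → ℕ → Bool := ch1 polpnn B1_t2b_c1_dd_n

noncomputable def B2_t2b_c1_dd_n (h W Wd Z Zd M Q : ℕ) : Bool :=
  body (fun c k s => dirT R_t2b_c1_dd_n false c k s W Z M Q)
    (fun c k s => strT S_t2b_c1_dd_n_z false kw2 nbn pone c k s W Z M Q)
    noF
    noF
    (exits (exT R_t2b_c1_dd_n W Z M Q) (exO R_t2b_c1_dd_n ov_B_QW3 W Z M Q) false)
    noF h

noncomputable def T2_t2b_c1_dd_n : ℕ → ℕ → ℕ → ℕ → Bool := ch2 polpnn B2_t2b_c1_dd_n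

noncomputable def B1_t2b_c1_du_f (h W Wd Z Zd M Q : ℕ) : Bool :=
  body (fun c k s => dirT R_t2b_c1_du_f false c k s W Z M Q)
    noF
    (fun c k s => conT S_t2b_c1_du_f_z false c k s W Wd Z Zd M Q)
    noF
    (exits (exT R_t2b_c1_du_f W Z M Q) false (cexT S_t2b_c1_du_f_z W Wd Z Zd M Q))
    noF h

noncomputable def T1_t2b_c1_du_f : ℕ → ℕ → ℕ → ℕ → Bool := ch1 polpnp B1_t2b_c1_du_f

noncomputable def B2_t2b_c1_du_f (h W Wd Z Zd M Q : ℕ) : Bool :=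
  body (fun c k s => dirT R_t2b_c1_du_f false c k s W Z M Q)
    noF
    noF
    noF
    (exits (exT R_t2b_c1_du_f W Z M Q) false false)
    noF h

noncomputable def T2_t2b_c1_du_f : ℕ → ℕ → ℕ → ℕ → Bool := ch2 polpnp B2_t2b_c1_du_f

noncomputable def B1_t2b_c1_du_n (h W Wd Z Zd M Q : ℕ) : Bool :=
  body (fun c k s => dirT R_t2b_c1_du_n false c k s W Z M Q)
    noF
    (fun c k s => conT S_t2b_c1_du_n_z false c k s W Wd Z Zd M Q)
    noF
    (exits (exT R_t2b_c1_du_n W Z M Q) false (cexT S_t2b_c1_du_n_z W Wd Z Zd M Q))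
    noF h

noncomputable def T1_t2b_c1_du_n : ℕ → ℕ → ℕ → ℕ → Bool := ch1 polpnp B1_t2b_c1_du_n

noncomputable def B2_t2b_c1_du_n (h W Wd Z Zd M Q : ℕ) : Bool :=
  body (fun c k s => dirT R_t2b_c1_du_n false c k s W Z M Q)
    noF
    noF
    noF
    (exits (exT R_t2b_c1_du_n W Z M Q) false false)
    noF h

noncomputable def T2_t2b_c1_du_n : ℕ → ℕ → ℕ → ℕ → Bool := ch2 polpnp B2_t2b_c1_du_n

noncomputable def B1_t2b_c1_u_f (h W Wd Z Zd M Q : ℕ) : Bool :=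
  body (fun c k s => dirT R_t2b_c1_u_f false c k s W Z M Q)
    noF
    (fun c k s => conT S_t2b_c1_u_f_z false c k s W Wd Z Zd M Q)
    noF
    (exits (exT R_t2b_c1_u_f W Z M Q) false (cexT S_t2b_c1_u_f_z W Wd Z Zd M Q))
    noF h

noncomputable def T1_t2b_c1_u_f : ℕ → ℕ → ℕ → ℕ → Bool := ch1 polpp B1_t2b_c1_u_f

noncomputable def B2_t2b_c1_u_f (h W Wd Z Zd M Q : ℕ) : Bool :=
  body (fun c k s => dirT R_t2b_c1_u_f false c k s W Z M Q)
    noF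
    noF
    noF
    (exits (exT R_t2b_c1_u_f W Z M Q) false false)
    noF h

noncomputable def T2_t2b_c1_u_f : ℕ → ℕ → ℕ → ℕ → Bool := ch2 polpp B2_t2b_c1_u_f

noncomputable def B1_t2b_c1_u_n (h W Wd Z Zd M Q : ℕ) : Bool :=
  body (fun c k s => dirT R_t2b_c1_u_n false c k s W Z M Q)
    noF
    (fun c k s => conT S_t2b_c1_u_n_z false c k s W Wd Z Zd M Q)
    noF
    (exits (exT R_t2b_c1_u_n W Z M Q) false (cexT S_t2b_c1_u_n_z W Wd Z Zd M Q))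
    noF h

noncomputable def T1_t2b_c1_u_n : ℕ → ℕ → ℕ → ℕ → Bool := ch1 polpp B1_t2b_c1_u_n

noncomputable def B2_t2b_c1_u_n (h W Wd Z Zd M Q : ℕ) : Bool :=
  body (fun c k s => dirT R_t2b_c1_u_n false c k s W Z M Q)
    noF
    noF
    noF
    (exits (exT R_t2b_c1_u_n W Z M Q) false false)
    noF h

noncomputable def T2_t2b_c1_u_n : ℕ → ℕ → ℕ → ℕ → Bool := ch2 polpp B2_t2b_c1_u_n

noncomputable def B1_t2b_W_d_f (h W Wd Z Zd M Q : ℕ) : Bool :=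
  body (fun c k s => dirT R_t2b_W_d_f false c k s W Z M Q)
    noF
    (fun c k s => conT S_t2b_W_d_f_z false c k s W Wd Z Zd M Q)
    noF
    (exits (exT R_t2b_W_d_f W Z M Q) false (cexT S_t2b_W_d_f_z W Wd Z Zd M Q))
    noF h

noncomputable def T1_t2b_W_d_f : ℕ → ℕ → ℕ → ℕ → Bool := ch1 polpnp B1_t2b_W_d_f

noncomputable def B2_t2b_W_d_f (h W Wd Z Zd M Q : ℕ) : Bool :=
  body (fun c k s => dirT R_t2b_W_d_f false c k s W Z M Q)
    noF
    noF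
    noF
    (exits (exT R_t2b_W_d_f W Z M Q) false false)
    noF h

noncomputable def T2_t2b_W_d_f : ℕ → ℕ → ℕ → ℕ → Bool := ch2 polpnp B2_t2b_W_d_f

noncomputable def B1_t2b_W_d_n (h W Wd Z Zd M Q : ℕ) : Bool :=
  body (fun c k s => dirT R_t2b_W_d_n false c k s W Z M Q)
    noF
    (fun c k s => conT S_t2b_W_d_n_z false c k s W Wd Z Zd M Q)
    noF
    (exits (exT R_t2b_W_d_n W Z M Q) false (cexT S_t2b_W_d_n_z W Wd Z Zd M Q))
    noF h

noncomputable def T1_t2b_W_d_n : ℕ → ℕ → ℕ → ℕ → Bool := ch1 polpnp B1_t2b_W_d_n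

noncomputable def B2_t2b_W_d_n (h W Wd Z Zd M Q : ℕ) : Bool :=
  body (fun c k s => dirT R_t2b_W_d_n false c k s W Z M Q)
    noF
    noF
    noF
    (exits (exT R_t2b_W_d_n W Z M Q) false false)
    noF h

noncomputable def T2_t2b_W_d_n : ℕ → ℕ → ℕ → ℕ → Bool := ch2 polpnp B2_t2b_W_d_n

noncomputable def B1_t2b_W_u_f (h W Wd Z Zd M Q : ℕ) : Bool :=
  body (fun c k s => dirT R_t2b_W_u_f false c k s W Z M Q)
    noF
    (fun c k s => conT S_t2b_W_u_f_z false c k s W Wd Z Zd M Q)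
    noF
    (exits (exT R_t2b_W_u_f W Z M Q) false (cexT S_t2b_W_u_f_z W Wd Z Zd M Q))
    noF h

noncomputable def T1_t2b_W_u_f : ℕ → ℕ → ℕ → ℕ → Bool := ch1 polpp B1_t2b_W_u_f

noncomputable def B2_t2b_W_u_f (h W Wd Z Zd M Q : ℕ) : Bool :=
  body (fun c k s => dirT R_t2b_W_u_f false c k s W Z M Q)
    noF
    noF
    noF
    (exits (exT R_t2b_W_u_f W Z M Q) false false)
    noF h

noncomputable def T2_t2b_W_u_f : ℕ → ℕ → ℕ → ℕ → Bool := ch2 polpp B2_t2b_W_u_f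

noncomputable def B1_t2b_W_u_n (h W Wd Z Zd M Q : ℕ) : Bool :=
  body (fun c k s => dirT R_t2b_W_u_n false c k s W Z M Q)
    noF
    (fun c k s => conT S_t2b_W_u_n_z false c k s W Wd Z Zd M Q)
    noF
    (exits (exT R_t2b_W_u_n W Z M Q) false (cexT S_t2b_W_u_n_z W Wd Z Zd M Q))
    noF h

noncomputable def T1_t2b_W_u_n : ℕ → ℕ → ℕ → ℕ → Bool := ch1 polpp B1_t2b_W_u_n

noncomputable def B2_t2b_W_u_n (h W Wd Z Zd M Q : ℕ) : Bool :=
  body (fun c k s => dirT R_t2b_W_u_n false c k s W Z M Q)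
    noF
    noF
    noF
    (exits (exT R_t2b_W_u_n W Z M Q) false false)
    noF h

noncomputable def T2_t2b_W_u_n : ℕ → ℕ → ℕ → ℕ → Bool := ch2 polpp B2_t2b_W_u_n

noncomputable def B1_t3a_c1_f (h W Wd Z Zd M Q : ℕ) : Bool :=
  body (fun c k s => dirT R_t3a_c1_f false c k s W Z M Q)
    (fun c k s => strT S_t3a_c1_f_z false kw3 nbf pone c k s W Z M Q)
    (fun c k s => conT S_t3a_c1_f_z false c k s W Wd Z Zd M Q)
    noF
    (exits (exT R_t3a_c1_f W Z M Q) false (cexT S_t3a_c1_f_z W Wd Z Zd M Q))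
    noF h

noncomputable def T1_t3a_c1_f : ℕ → ℕ → ℕ → ℕ → Bool := ch1 polpp B1_t3a_c1_f

noncomputable def B2_t3a_c1_f (h W Wd Z Zd M Q : ℕ) : Bool :=
  body (fun c k s => dirT R_t3a_c1_f false c k s W Z M Q)
    (fun c k s => strT S_t3a_c1_f_z false kw3 nbf pone c k s W Z M Q)
    noF
    noF
    (exits (exT R_t3a_c1_f W Z M Q) false false)
    noF h

noncomputable def T2_t3a_c1_f : ℕ → ℕ → ℕ → ℕ → Bool := ch2 polpp B2_t3a_c1_f

noncomputable def B1_t3a_c1_n (h W Wd Z Zd M Q : ℕ) : Bool :=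
  body (fun c k s => dirT R_t3a_c1_n false c k s W Z M Q)
    (fun c k s => strT S_t3a_c1_n_z false kw3 nbn pone c k s W Z M Q)
    (fun c k s => conT S_t3a_c1_n_z false c k s W Wd Z Zd M Q)
    noF
    (exits (exT R_t3a_c1_n W Z M Q) false (cexT S_t3a_c1_n_z W Wd Z Zd M Q))
    noF h

noncomputable def T1_t3a_c1_n : ℕ → ℕ → ℕ → ℕ → Bool := ch1 polpp B1_t3a_c1_n

noncomputable def B2_t3a_c1_n (h W Wd Z Zd M Q : ℕ) : Bool :=
  body (fun c k s => dirT R_t3a_c1_n false c k s W Z M Q)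
    (fun c k s => strT S_t3a_c1_n_z false kw3 nbn pone c k s W Z M Q)
    noF
    noF
    (exits (exT R_t3a_c1_n W Z M Q) false false)
    noF h

noncomputable def T2_t3a_c1_n : ℕ → ℕ → ℕ → ℕ → Bool := ch2 polpp B2_t3a_c1_n

noncomputable def B1_t3b_c3_f (h W Wd Z Zd M Q : ℕ) : Bool :=
  body (fun c k s => dirT R_t3b_c3_f false c k s W Z M Q)
    (fun c k s => strT S_t3b_c3_f_z false kw3 nbf pone c k s W Z M Q)
    (fun c k s => conT S_t3b_c3_f_z false c k s W Wd Z Zd M Q)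
    noF
    (exits (exT R_t3b_c3_f W Z M Q) (exO R_t3b_c3_f ov_B_P1W W Z M Q) (cexT S_t3b_c3_f_z W Wd Z
        Zd M Q))
    noF h

noncomputable def T1_t3b_c3_f : ℕ → ℕ → ℕ → ℕ → Bool := ch1 polpp B1_t3b_c3_f

noncomputable def B2_t3b_c3_f (h W Wd Z Zd M Q : ℕ) : Bool :=
  body (fun c k s => dirT R_t3b_c3_f false c k s W Z M Q)
    (fun c k s => strT S_t3b_c3_f_z false kw3 nbf pone c k s W Z M Q)
    noF
    noF
    (exits (exT R_t3b_c3_f W Z M Q) (exO R_t3b_c3_f ov_B_P1W W Z M Q) false)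
    noF h

noncomputable def T2_t3b_c3_f : ℕ → ℕ → ℕ → ℕ → Bool := ch2 polpp B2_t3b_c3_f

noncomputable def B1_t3b_c3_n (h W Wd Z Zd M Q : ℕ) : Bool :=
  body (fun c k s => dirT R_t3b_c3_n false c k s W Z M Q)
    (fun c k s => strT S_t3b_c3_n_z false kw3 nbn pone c k s W Z M Q)
    (fun c k s => conT S_t3b_c3_n_z false c k s W Wd Z Zd M Q)
    noF
    (exits (exT R_t3b_c3_n W Z M Q) (exO R_t3b_c3_n ov_B_P1W W Z M Q) (cexT S_t3b_c3_n_z W Wd Z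
        Zd M Q))
    noF h

noncomputable def T1_t3b_c3_n : ℕ → ℕ → ℕ → ℕ → Bool := ch1 polpp B1_t3b_c3_n

noncomputable def B2_t3b_c3_n (h W Wd Z Zd M Q : ℕ) : Bool :=
  body (fun c k s => dirT R_t3b_c3_n false c k s W Z M Q)
    (fun c k s => strT S_t3b_c3_n_z false kw3 nbn pone c k s W Z M Q)
    noF
    noF
    (exits (exT R_t3b_c3_n W Z M Q) (exO R_t3b_c3_n ov_B_P1W W Z M Q) false)
    noF h

noncomputable def T2_t3b_c3_n : ℕ → ℕ → ℕ → ℕ → Bool := ch2 polpp B2_t3b_c3_n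

noncomputable def B1_u1_p_f (h W Wd Z Zd M Q : ℕ) : Bool :=
  body (fun c k s => dirT R_u1_p_f true c k s W Z M Q)
    (fun c k s => strT S_u1_p_f_z true kw1 nbf (pneg pone) c k s W Z M Q)
    (fun c k s => conT S_u1_p_f_z true c k s W Wd Z Zd M Q)
    (fun _ j _ => frc (pnorm (padd W Z)) fun T => lineT S_u1w_p_f_v pone j W Z M Q T)
    (exits (exT R_u1_p_f W Z M Q) (exO R_u1_p_f ov_U_O1W W Z M Q) (cexT S_u1_p_f_z W Wd Z Zd M Q))
    (fun _ a b => linT S_u1_p_f_z kw1 (pneg pone) a b W Z M Q) h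

noncomputable def T1_u1_p_f : ℕ → ℕ → ℕ → ℕ → Bool := ch1 polpnp B1_u1_p_f

noncomputable def B2_u1_p_f (h W Wd Z Zd M Q : ℕ) : Bool :=
  body (fun c k s => dirT R_u1_p_f false c k s W Z M Q)
    (fun c k s => strT S_u1_p_f_z false kw1 nbf (pneg pone) c k s W Z M Q)
    noF
    noF
    (exits (exT R_u1_p_f W Z M Q) (exO R_u1_p_f ov_U_O1W W Z M Q) false)
    noF h

noncomputable def T2_u1_p_f : ℕ → ℕ → ℕ → ℕ → Bool := ch2 polpnp B2_u1_p_f

noncomputable def B1_u1_p_n (h W Wd Z Zd M Q : ℕ) : Bool :=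
  body (fun c k s => dirT R_u1_p_n true c k s W Z M Q)
    (fun c k s => strT S_u1_p_n_z true kw1 nbn (pneg pone) c k s W Z M Q)
    (fun c k s => conT S_u1_p_n_z true c k s W Wd Z Zd M Q)
    (fun _ j _ => frc (pnorm (padd W Z)) fun T => lineT S_u1w_p_n_v pone j W Z M Q T)
    (exits (exT R_u1_p_n W Z M Q) (exO R_u1_p_n ov_U_O1W W Z M Q) (cexT S_u1_p_n_z W Wd Z Zd M Q))
    (fun _ a b => linT S_u1_p_n_z kw1 (pneg pone) a b W Z M Q) h

noncomputable def T1_u1_p_n : ℕ → ℕ → ℕ → ℕ → Bool := ch1 polpnp B1_u1_p_n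

noncomputable def B2_u1_p_n (h W Wd Z Zd M Q : ℕ) : Bool :=
  body (fun c k s => dirT R_u1_p_n false c k s W Z M Q)
    (fun c k s => strT S_u1_p_n_z false kw1 nbn (pneg pone) c k s W Z M Q)
    noF
    noF
    (exits (exT R_u1_p_n W Z M Q) (exO R_u1_p_n ov_U_O1W W Z M Q) false)
    noF h

noncomputable def T2_u1_p_n : ℕ → ℕ → ℕ → ℕ → Bool := ch2 polpnp B2_u1_p_n

noncomputable def B1_uq_n_f (h W Wd Z Zd M Q : ℕ) : Bool :=
  body (fun c k s => dirT R_uq_n_f true c k s W Z M Q)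
    noF
    (fun c k s => conT S_uq_n_f_z true c k s W Wd Z Zd M Q)
    (fun _ j _ => frc (pneg (pnorm (padd W Z))) fun T => lineT S_uq_n_f_v (pneg pone) j W Z M Q T)
    (exits (exT R_uq_n_f W Z M Q) (exO R_uq_n_f ov_U_OWq W Z M Q) (cexT S_uq_n_f_z W Wd Z Zd M Q))
    noF h

noncomputable def T1_uq_n_f : ℕ → ℕ → ℕ → ℕ → Bool := ch1 polpnn B1_uq_n_f

noncomputable def B2_uq_n_f (h W Wd Z Zd M Q : ℕ) : Bool :=
  body (fun c k s => dirT R_uq_n_f false c k s W Z M Q)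
    noF
    noF
    noF
    (exits (exT R_uq_n_f W Z M Q) (exO R_uq_n_f ov_U_OWq W Z M Q) false)
    noF h

noncomputable def T2_uq_n_f : ℕ → ℕ → ℕ → ℕ → Bool := ch2 polpnn B2_uq_n_f

noncomputable def B1_uq_n_n (h W Wd Z Zd M Q : ℕ) : Bool :=
  body (fun c k s => dirT R_uq_n_n true c k s W Z M Q)
    noF
    (fun c k s => conT S_uq_n_n_z true c k s W Wd Z Zd M Q)
    (fun _ j _ => frc (pneg (pnorm (padd W Z))) fun T => lineT S_uq_n_n_v (pneg pone) j W Z M Q T)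
    (exits (exT R_uq_n_n W Z M Q) (exO R_uq_n_n ov_U_OWq W Z M Q) (cexT S_uq_n_n_z W Wd Z Zd M Q))
    noF h

noncomputable def T1_uq_n_n : ℕ → ℕ → ℕ → ℕ → Bool := ch1 polpnn B1_uq_n_n

noncomputable def B2_uq_n_n (h W Wd Z Zd M Q : ℕ) : Bool :=
  body (fun c k s => dirT R_uq_n_n false c k s W Z M Q)
    noF
    noF
    noF
    (exits (exT R_uq_n_n W Z M Q) (exO R_uq_n_n ov_U_OWq W Z M Q) false)
    noF h

noncomputable def T2_uq_n_n : ℕ → ℕ → ℕ → ℕ → Bool := ch2 polpnn B2_uq_n_n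

noncomputable def B1_u5_n_f (h W Wd Z Zd M Q : ℕ) : Bool :=
  body (fun c k s => dirT R_u5_n_f true c k s W Z M Q)
    noF
    noF
    noF
    (exits (exT R_u5_n_f W Z M Q) false false)
    noF h

noncomputable def T1_u5_n_f : ℕ → ℕ → ℕ → ℕ → Bool := ch1 polpnn B1_u5_n_f

noncomputable def B2_u5_n_f (h W Wd Z Zd M Q : ℕ) : Bool :=
  body (fun c k s => dirT R_u5_n_f false c k s W Z M Q)
    noF
    noF
    noF
    (exits (exT R_u5_n_f W Z M Q) false false)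
    noF h

noncomputable def T2_u5_n_f : ℕ → ℕ → ℕ → ℕ → Bool := ch2 polpnn B2_u5_n_f

noncomputable def B1_u5_n_n (h W Wd Z Zd M Q : ℕ) : Bool :=
  body (fun c k s => dirT R_u5_n_n true c k s W Z M Q)
    noF
    noF
    noF
    (exits (exT R_u5_n_n W Z M Q) false false)
    noF h

noncomputable def T1_u5_n_n : ℕ → ℕ → ℕ → ℕ → Bool := ch1 polpnn B1_u5_n_n

noncomputable def B2_u5_n_n (h W Wd Z Zd M Q : ℕ) : Bool :=
  body (fun c k s => dirT R_u5_n_n false c k s W Z M Q)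
    noF
    noF
    noF
    (exits (exT R_u5_n_n W Z M Q) false false)
    noF h

noncomputable def T2_u5_n_n : ℕ → ℕ → ℕ → ℕ → Bool := ch2 polpnn B2_u5_n_n

end Pool.Agent.Strip051.LC.E1.Ch
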