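import Pool.Agent.Strip051.LC.E1.Ch.Bk
import Pool.Agent.Strip051.LC.E1.Ch.Rw

/-! # Rests near the full period: the base points of the cones -/

set_option linter.unusedVariables false
set_option linter.unusedSimpArgs false

namespace Pool.Agent.Strip051.LC.E1.Ch

open Pool.Agent.Strip051.PB
open Pool.Agent.Strip051.LC.E1.G (hg)
open Pool.Agent.Strip051.LC.E1.BaseR

theorem cb_t2b_W_d_f {m r : ℝ} (r0 : 0 < r) (m0 : 0 < m) (x1 : m * r ≤ 1 / 40) :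
    SBase R_t2b_W_d_f 0 0 m r 0 := by
  have hU : R_t2b_W_d_f.U 0 0 m r = 0 := by
    simp only [RowF.U, R_t2b_W_d_f, u_T2_B_PW_Q6W, zx_val, xi1_val, xi3_val, xiw_val, xw0p_val,
      add_zero, xi1_0, xi3_0, xiw_0, om_0, neg_zero]
    simp
  have k12 : R_t2b_W_d_f.K12 0 0 m r = 0 := by
    unfold RowF.K12
    rw [hU]
    simp only [R_t2b_W_d_f, ku_wp, add_zero, zero_mul, neg_zero, sub_zero,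
      ku_0 r0 m0 x1, k1p_0 r0 m0 x1, k1m_0 r0 m0 x1, k3p_0 r0 m0 x1, k3m_0 r0 m0 x1, kv_0 r0 m0 x1,
        b1p_0 r0 m0 x1, b1m_0 r0 m0 x1, b3p_0 r0 m0 x1, b3m_0 r0 m0 x1, lva_0 r0 m0 x1, l1p_0 r0 m0
          x1, l1m_0 r0 m0 x1, l3p_0 r0 m0 x1, l3m_0 r0 m0 x1, kwu_0 m0, kwl_0 m0, bwu_0 m0, bwl_0
            m0, xwu_0 m0, xwl_0 m0, kw0_0 m0, bw0_0 m0, xw0_0 m0]
  have a12 : R_t2b_W_d_f.A12 0 0 m r = 0 := by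
    unfold RowF.A12
    rw [hU]
    simp only [R_t2b_W_d_f, zr7, add_zero, zero_mul, mul_zero, neg_zero, sub_zero, Nat.cast_zero,
      ku_0 r0 m0 x1, k1p_0 r0 m0 x1, k1m_0 r0 m0 x1, k3p_0 r0 m0 x1, k3m_0 r0 m0 x1, kv_0 r0 m0 x1,
        b1p_0 r0 m0 x1, b1m_0 r0 m0 x1, b3p_0 r0 m0 x1, b3m_0 r0 m0 x1, lva_0 r0 m0 x1, l1p_0 r0 m0
          x1, l1m_0 r0 m0 x1, l3p_0 r0 m0 x1, l3m_0 r0 m0 x1, kwu_0 m0, kwl_0 m0, bwu_0 m0, bwl_0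
            m0, xwu_0 m0, xwl_0 m0, kw0_0 m0, bw0_0 m0, xw0_0 m0]
  have b12 : R_t2b_W_d_f.B12 0 0 m r = 0 := by
    unfold RowF.B12
    rw [hU]
    simp only [R_t2b_W_d_f, lva_wp, add_zero, zero_mul, mul_zero, neg_zero, sub_zero, Nat.cast_zero,
      ku_0 r0 m0 x1, k1p_0 r0 m0 x1, k1m_0 r0 m0 x1, k3p_0 r0 m0 x1, k3m_0 r0 m0 x1, kv_0 r0 m0 x1,
        b1p_0 r0 m0 x1, b1m_0 r0 m0 x1, b3p_0 r0 m0 x1, b3m_0 r0 m0 x1, lva_0 r0 m0 x1, l1p_0 r0 m0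
          x1, l1m_0 r0 m0 x1, l3p_0 r0 m0 x1, l3m_0 r0 m0 x1, kwu_0 m0, kwl_0 m0, bwu_0 m0, bwl_0
            m0, xwu_0 m0, xwl_0 m0, kw0_0 m0, bw0_0 m0, xw0_0 m0]
  have k23 : R_t2b_W_d_f.K23 0 0 m r = 0 := by
    unfold RowF.K23
    rw [hU]
    simp only [R_t2b_W_d_f, tkQ6W_zn, add_zero, zero_mul, neg_zero, sub_zero,
      ku_0 r0 m0 x1, k1p_0 r0 m0 x1, k1m_0 r0 m0 x1, k3p_0 r0 m0 x1, k3m_0 r0 m0 x1, kv_0 r0 m0 x1,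
        b1p_0 r0 m0 x1, b1m_0 r0 m0 x1, b3p_0 r0 m0 x1, b3m_0 r0 m0 x1, lva_0 r0 m0 x1, l1p_0 r0 m0
          x1, l1m_0 r0 m0 x1, l3p_0 r0 m0 x1, l3m_0 r0 m0 x1, kwu_0 m0, kwl_0 m0, bwu_0 m0, bwl_0
            m0, xwu_0 m0, xwl_0 m0, kw0_0 m0, bw0_0 m0, xw0_0 m0]
  have a23 : R_t2b_W_d_f.A23 0 0 m r = 0 := by
    unfold RowF.A23
    rw [hU]
    simp only [R_t2b_W_d_f, taQ6W_zn, add_zero, zero_mul, mul_zero, neg_zero, sub_zero,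
      Nat.cast_zero,
      ku_0 r0 m0 x1, k1p_0 r0 m0 x1, k1m_0 r0 m0 x1, k3p_0 r0 m0 x1, k3m_0 r0 m0 x1, kv_0 r0 m0 x1,
        b1p_0 r0 m0 x1, b1m_0 r0 m0 x1, b3p_0 r0 m0 x1, b3m_0 r0 m0 x1, lva_0 r0 m0 x1, l1p_0 r0 m0
          x1, l1m_0 r0 m0 x1, l3p_0 r0 m0 x1, l3m_0 r0 m0 x1, kwu_0 m0, kwl_0 m0, bwu_0 m0, bwl_0
            m0, xwu_0 m0, xwl_0 m0, kw0_0 m0, bw0_0 m0, xw0_0 m0]
  have b23 : R_t2b_W_d_f.B23 0 0 m r = 0 := by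
    unfold RowF.B23
    rw [hU]
    simp only [R_t2b_W_d_f, zr7, add_zero, zero_mul, mul_zero, neg_zero, sub_zero, Nat.cast_zero,
      ku_0 r0 m0 x1, k1p_0 r0 m0 x1, k1m_0 r0 m0 x1, k3p_0 r0 m0 x1, k3m_0 r0 m0 x1, kv_0 r0 m0 x1,
        b1p_0 r0 m0 x1, b1m_0 r0 m0 x1, b3p_0 r0 m0 x1, b3m_0 r0 m0 x1, lva_0 r0 m0 x1, l1p_0 r0 m0
          x1, l1m_0 r0 m0 x1, l3p_0 r0 m0 x1, l3m_0 r0 m0 x1, kwu_0 m0, kwl_0 m0, bwu_0 m0, bwl_0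
            m0, xwu_0 m0, xwl_0 m0, kw0_0 m0, bw0_0 m0, xw0_0 m0]
  have k13 : R_t2b_W_d_f.K13 0 0 m r = 0 := by
    unfold RowF.K13
    rw [hU]
    simp only [R_t2b_W_d_f, kwu_tn, add_zero, zero_mul, neg_zero, sub_zero,
      ku_0 r0 m0 x1, k1p_0 r0 m0 x1, k1m_0 r0 m0 x1, k3p_0 r0 m0 x1, k3m_0 r0 m0 x1, kv_0 r0 m0 x1,
        b1p_0 r0 m0 x1, b1m_0 r0 m0 x1, b3p_0 r0 m0 x1, b3m_0 r0 m0 x1, lva_0 r0 m0 x1, l1p_0 r0 m0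
          x1, l1m_0 r0 m0 x1, l3p_0 r0 m0 x1, l3m_0 r0 m0 x1, kwu_0 m0, kwl_0 m0, bwu_0 m0, bwl_0
            m0, xwu_0 m0, xwl_0 m0, kw0_0 m0, bw0_0 m0, xw0_0 m0]
  have a13 : R_t2b_W_d_f.A13 0 0 m r = 0 := by
    unfold RowF.A13
    rw [hU]
    simp only [R_t2b_W_d_f, xwu_tn, add_zero, zero_mul, mul_zero, neg_zero, sub_zero, Nat.cast_zero,
      ku_0 r0 m0 x1, k1p_0 r0 m0 x1, k1m_0 r0 m0 x1, k3p_0 r0 m0 x1, k3m_0 r0 m0 x1, kv_0 r0 m0 x1,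
        b1p_0 r0 m0 x1, b1m_0 r0 m0 x1, b3p_0 r0 m0 x1, b3m_0 r0 m0 x1, lva_0 r0 m0 x1, l1p_0 r0 m0
          x1, l1m_0 r0 m0 x1, l3p_0 r0 m0 x1, l3m_0 r0 m0 x1, kwu_0 m0, kwl_0 m0, bwu_0 m0, bwl_0
            m0, xwu_0 m0, xwl_0 m0, kw0_0 m0, bw0_0 m0, xw0_0 m0]
  have b13 : R_t2b_W_d_f.B13 0 0 m r = 0 := by
    unfold RowF.B13
    rw [hU]
    simp only [R_t2b_W_d_f, zr7, add_zero, zero_mul, mul_zero, neg_zero, sub_zero, Nat.cast_zero,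
      ku_0 r0 m0 x1, k1p_0 r0 m0 x1, k1m_0 r0 m0 x1, k3p_0 r0 m0 x1, k3m_0 r0 m0 x1, kv_0 r0 m0 x1,
        b1p_0 r0 m0 x1, b1m_0 r0 m0 x1, b3p_0 r0 m0 x1, b3m_0 r0 m0 x1, lva_0 r0 m0 x1, l1p_0 r0 m0
          x1, l1m_0 r0 m0 x1, l3p_0 r0 m0 x1, l3m_0 r0 m0 x1, kwu_0 m0, kwl_0 m0, bwu_0 m0, bwl_0
            m0, xwu_0 m0, xwl_0 m0, kw0_0 m0, bw0_0 m0, xw0_0 m0]
  have hD : R_t2b_W_d_f.DL 0 0 m r = 0 := by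
    unfold RowF.DL
    rw [dln_val, k12, k23, k13]
    ring
  have hN : R_t2b_W_d_f.NF 0 0 m r = r * 0 := by
    simp only [RowF.NF, R_t2b_W_d_f, nff_T2]
    push_cast
    ring
  have hG : R_t2b_W_d_f.GM 0 0 m r = -0 := by
    unfold RowF.GM
    rw [k12, k23, k13]
    show gm2.v _ _ _ _ _ _ = _
    rw [gm2_val]
    ring
  have hb : R_t2b_W_d_f.NU 0 0 m r / r + R_t2b_W_d_f.BS 0 0 m r = -0 + 0 := by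
    simp only [RowF.NU, RowF.BS, R_t2b_W_d_f, nuf_T2, bs_T2_BPWf, om_val, zx_val, xi1_val, xi3_val,
      xiw_val, add_zero, xi1_0, xi3_0, xiw_0, om_0]
    simp
  have v1 : 0 ≤ R_t2b_W_d_f.V1A 0 0 m r / r + R_t2b_W_d_f.V1B 0 0 m r := by
    unfold RowF.V1A RowF.V1B
    rw [a12, a23, a13, b12, b23, b13]
    simp only [R_t2b_W_d_f, vf1_val]
    simp
  have v2 : 0 ≤ R_t2b_W_d_f.V2A 0 0 m r / r + R_t2b_W_d_f.V2B 0 0 m r := by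
    unfold RowF.V2A RowF.V2B
    rw [a12, a23, a13, b12, b23, b13]
    simp only [R_t2b_W_d_f, vf2_val]
    simp
  exact sb_core r0 m0 x1 hU hD hN hG hb le_rfl (Or.inr rfl) v1 v2

theorem cb_t2b_W_d_n {m r : ℝ} (r0 : 0 < r) (m0 : 0 < m) (x1 : m * r ≤ 1 / 40) :
    SBase R_t2b_W_d_n 0 0 m r 0 := by
  have hU : R_t2b_W_d_n.U 0 0 m r = 0 := by
    simp only [RowF.U, R_t2b_W_d_n, u_T2_B_PW_Q6W, zx_val, xi1_val, xi3_val, xiw_val, xw0p_val,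
      add_zero, xi1_0, xi3_0, xiw_0, om_0, neg_zero]
    simp
  have k12 : R_t2b_W_d_n.K12 0 0 m r = 0 := by
    unfold RowF.K12
    rw [hU]
    simp only [R_t2b_W_d_n, nku_wp, ku_wp, kv_wp, add_zero, zero_mul, neg_zero, sub_zero, nkf_0,
      ku_0 r0 m0 x1, k1p_0 r0 m0 x1, k1m_0 r0 m0 x1, k3p_0 r0 m0 x1, k3m_0 r0 m0 x1, kv_0 r0 m0 x1,
        b1p_0 r0 m0 x1, b1m_0 r0 m0 x1, b3p_0 r0 m0 x1, b3m_0 r0 m0 x1, lva_0 r0 m0 x1, l1p_0 r0 m0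
          x1, l1m_0 r0 m0 x1, l3p_0 r0 m0 x1, l3m_0 r0 m0 x1, kwu_0 m0, kwl_0 m0, bwu_0 m0, bwl_0
            m0, xwu_0 m0, xwl_0 m0, kw0_0 m0, bw0_0 m0, xw0_0 m0]
  have a12 : R_t2b_W_d_n.A12 0 0 m r = 0 := by
    unfold RowF.A12
    rw [hU]
    simp only [R_t2b_W_d_n, zr7, add_zero, zero_mul, mul_zero, neg_zero, sub_zero, Nat.cast_zero,
      ku_0 r0 m0 x1, k1p_0 r0 m0 x1, k1m_0 r0 m0 x1, k3p_0 r0 m0 x1, k3m_0 r0 m0 x1, kv_0 r0 m0 x1,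
        b1p_0 r0 m0 x1, b1m_0 r0 m0 x1, b3p_0 r0 m0 x1, b3m_0 r0 m0 x1, lva_0 r0 m0 x1, l1p_0 r0 m0
          x1, l1m_0 r0 m0 x1, l3p_0 r0 m0 x1, l3m_0 r0 m0 x1, kwu_0 m0, kwl_0 m0, bwu_0 m0, bwl_0
            m0, xwu_0 m0, xwl_0 m0, kw0_0 m0, bw0_0 m0, xw0_0 m0]
  have b12 : R_t2b_W_d_n.B12 0 0 m r = 0 := by
    unfold RowF.B12
    rw [hU]
    simp only [R_t2b_W_d_n, lva_wp, add_zero, zero_mul, mul_zero, neg_zero, sub_zero, Nat.cast_zero,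
      ku_0 r0 m0 x1, k1p_0 r0 m0 x1, k1m_0 r0 m0 x1, k3p_0 r0 m0 x1, k3m_0 r0 m0 x1, kv_0 r0 m0 x1,
        b1p_0 r0 m0 x1, b1m_0 r0 m0 x1, b3p_0 r0 m0 x1, b3m_0 r0 m0 x1, lva_0 r0 m0 x1, l1p_0 r0 m0
          x1, l1m_0 r0 m0 x1, l3p_0 r0 m0 x1, l3m_0 r0 m0 x1, kwu_0 m0, kwl_0 m0, bwu_0 m0, bwl_0
            m0, xwu_0 m0, xwl_0 m0, kw0_0 m0, bw0_0 m0, xw0_0 m0]
  have k23 : R_t2b_W_d_n.K23 0 0 m r = 0 := by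
    unfold RowF.K23
    rw [hU]
    simp only [R_t2b_W_d_n, ntkQ6W_zn, tkQ6W_zn, tbQ6W_zn, add_zero, zero_mul, neg_zero, sub_zero,
      nkf_0,
      ku_0 r0 m0 x1, k1p_0 r0 m0 x1, k1m_0 r0 m0 x1, k3p_0 r0 m0 x1, k3m_0 r0 m0 x1, kv_0 r0 m0 x1,
        b1p_0 r0 m0 x1, b1m_0 r0 m0 x1, b3p_0 r0 m0 x1, b3m_0 r0 m0 x1, lva_0 r0 m0 x1, l1p_0 r0 m0
          x1, l1m_0 r0 m0 x1, l3p_0 r0 m0 x1, l3m_0 r0 m0 x1, kwu_0 m0, kwl_0 m0, bwu_0 m0, bwl_0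
            m0, xwu_0 m0, xwl_0 m0, kw0_0 m0, bw0_0 m0, xw0_0 m0]
  have a23 : R_t2b_W_d_n.A23 0 0 m r = 0 := by
    unfold RowF.A23
    rw [hU]
    simp only [R_t2b_W_d_n, taQ6W_zn, add_zero, zero_mul, mul_zero, neg_zero, sub_zero,
      Nat.cast_zero,
      ku_0 r0 m0 x1, k1p_0 r0 m0 x1, k1m_0 r0 m0 x1, k3p_0 r0 m0 x1, k3m_0 r0 m0 x1, kv_0 r0 m0 x1,
        b1p_0 r0 m0 x1, b1m_0 r0 m0 x1, b3p_0 r0 m0 x1, b3m_0 r0 m0 x1, lva_0 r0 m0 x1, l1p_0 r0 m0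
          x1, l1m_0 r0 m0 x1, l3p_0 r0 m0 x1, l3m_0 r0 m0 x1, kwu_0 m0, kwl_0 m0, bwu_0 m0, bwl_0
            m0, xwu_0 m0, xwl_0 m0, kw0_0 m0, bw0_0 m0, xw0_0 m0]
  have b23 : R_t2b_W_d_n.B23 0 0 m r = 0 := by
    unfold RowF.B23
    rw [hU]
    simp only [R_t2b_W_d_n, zr7, add_zero, zero_mul, mul_zero, neg_zero, sub_zero, Nat.cast_zero,
      ku_0 r0 m0 x1, k1p_0 r0 m0 x1, k1m_0 r0 m0 x1, k3p_0 r0 m0 x1, k3m_0 r0 m0 x1, kv_0 r0 m0 x1,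
        b1p_0 r0 m0 x1, b1m_0 r0 m0 x1, b3p_0 r0 m0 x1, b3m_0 r0 m0 x1, lva_0 r0 m0 x1, l1p_0 r0 m0
          x1, l1m_0 r0 m0 x1, l3p_0 r0 m0 x1, l3m_0 r0 m0 x1, kwu_0 m0, kwl_0 m0, bwu_0 m0, bwl_0
            m0, xwu_0 m0, xwl_0 m0, kw0_0 m0, bw0_0 m0, xw0_0 m0]
  have k13 : R_t2b_W_d_n.K13 0 0 m r = 0 := by
    unfold RowF.K13
    rw [hU]
    simp only [R_t2b_W_d_n, nkwu_tn, kwu_tn, bwu_tn, add_zero, zero_mul, neg_zero, sub_zero, nkf_0,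
      ku_0 r0 m0 x1, k1p_0 r0 m0 x1, k1m_0 r0 m0 x1, k3p_0 r0 m0 x1, k3m_0 r0 m0 x1, kv_0 r0 m0 x1,
        b1p_0 r0 m0 x1, b1m_0 r0 m0 x1, b3p_0 r0 m0 x1, b3m_0 r0 m0 x1, lva_0 r0 m0 x1, l1p_0 r0 m0
          x1, l1m_0 r0 m0 x1, l3p_0 r0 m0 x1, l3m_0 r0 m0 x1, kwu_0 m0, kwl_0 m0, bwu_0 m0, bwl_0
            m0, xwu_0 m0, xwl_0 m0, kw0_0 m0, bw0_0 m0, xw0_0 m0]
  have a13 : R_t2b_W_d_n.A13 0 0 m r = 0 := by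
    unfold RowF.A13
    rw [hU]
    simp only [R_t2b_W_d_n, xwu_tn, add_zero, zero_mul, mul_zero, neg_zero, sub_zero, Nat.cast_zero,
      ku_0 r0 m0 x1, k1p_0 r0 m0 x1, k1m_0 r0 m0 x1, k3p_0 r0 m0 x1, k3m_0 r0 m0 x1, kv_0 r0 m0 x1,
        b1p_0 r0 m0 x1, b1m_0 r0 m0 x1, b3p_0 r0 m0 x1, b3m_0 r0 m0 x1, lva_0 r0 m0 x1, l1p_0 r0 m0
          x1, l1m_0 r0 m0 x1, l3p_0 r0 m0 x1, l3m_0 r0 m0 x1, kwu_0 m0, kwl_0 m0, bwu_0 m0, bwl_0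
            m0, xwu_0 m0, xwl_0 m0, kw0_0 m0, bw0_0 m0, xw0_0 m0]
  have b13 : R_t2b_W_d_n.B13 0 0 m r = 0 := by
    unfold RowF.B13
    rw [hU]
    simp only [R_t2b_W_d_n, zr7, add_zero, zero_mul, mul_zero, neg_zero, sub_zero, Nat.cast_zero,
      ku_0 r0 m0 x1, k1p_0 r0 m0 x1, k1m_0 r0 m0 x1, k3p_0 r0 m0 x1, k3m_0 r0 m0 x1, kv_0 r0 m0 x1,
        b1p_0 r0 m0 x1, b1m_0 r0 m0 x1, b3p_0 r0 m0 x1, b3m_0 r0 m0 x1, lva_0 r0 m0 x1, l1p_0 r0 m0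
          x1, l1m_0 r0 m0 x1, l3p_0 r0 m0 x1, l3m_0 r0 m0 x1, kwu_0 m0, kwl_0 m0, bwu_0 m0, bwl_0
            m0, xwu_0 m0, xwl_0 m0, kw0_0 m0, bw0_0 m0, xw0_0 m0]
  have hD : R_t2b_W_d_n.DL 0 0 m r = 0 := by
    unfold RowF.DL
    rw [dln_val, k12, k23, k13]
    ring
  have hN : R_t2b_W_d_n.NF 0 0 m r = r * 0 := by
    simp only [RowF.NF, R_t2b_W_d_n, nfn_T2]
    push_cast
    ring
  have hG : R_t2b_W_d_n.GM 0 0 m r = -0 := by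
    unfold RowF.GM
    rw [k12, k23, k13]
    show gm2.v _ _ _ _ _ _ = _
    rw [gm2_val]
    ring
  have hb : R_t2b_W_d_n.NU 0 0 m r / r + R_t2b_W_d_n.BS 0 0 m r = -0 + 0 := by
    simp only [RowF.NU, RowF.BS, R_t2b_W_d_n, nun_T2, bs_T2_BPWn, om_val, zx_val, xi1_val, xi3_val,
      xiw_val, add_zero, xi1_0, xi3_0, xiw_0, om_0]
    simp
  have v1 : 0 ≤ R_t2b_W_d_n.V1A 0 0 m r / r + R_t2b_W_d_n.V1B 0 0 m r := by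
    unfold RowF.V1A RowF.V1B
    rw [a12, a23, a13, b12, b23, b13]
    simp only [R_t2b_W_d_n, ml1_val]
    simp
  have v2 : 0 ≤ R_t2b_W_d_n.V2A 0 0 m r / r + R_t2b_W_d_n.V2B 0 0 m r := by
    unfold RowF.V2A RowF.V2B
    rw [a12, a23, a13, b12, b23, b13]
    simp only [R_t2b_W_d_n, ml2_val]
    simp
  exact sb_core r0 m0 x1 hU hD hN hG hb le_rfl (Or.inr rfl) v1 v2

theorem cb_t2b_W_u_f {m r : ℝ} (r0 : 0 < r) (m0 : 0 < m) (x1 : m * r ≤ 1 / 40) :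
    SBase R_t2b_W_u_f 0 0 m r 0 := by
  have hU : R_t2b_W_u_f.U 0 0 m r = 0 := by
    simp only [RowF.U, R_t2b_W_u_f, u_T2_B_PW_Q63, zx_val, xi1_val, xi3_val, xiw_val, xw0p_val,
      add_zero, xi1_0, xi3_0, xiw_0, om_0, neg_zero]
    simp
  have k12 : R_t2b_W_u_f.K12 0 0 m r = 0 := by
    unfold RowF.K12
    rw [hU]
    simp only [R_t2b_W_u_f, ku_wp, add_zero, zero_mul, neg_zero, sub_zero,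
      ku_0 r0 m0 x1, k1p_0 r0 m0 x1, k1m_0 r0 m0 x1, k3p_0 r0 m0 x1, k3m_0 r0 m0 x1, kv_0 r0 m0 x1,
        b1p_0 r0 m0 x1, b1m_0 r0 m0 x1, b3p_0 r0 m0 x1, b3m_0 r0 m0 x1, lva_0 r0 m0 x1, l1p_0 r0 m0
          x1, l1m_0 r0 m0 x1, l3p_0 r0 m0 x1, l3m_0 r0 m0 x1, kwu_0 m0, kwl_0 m0, bwu_0 m0, bwl_0
            m0, xwu_0 m0, xwl_0 m0, kw0_0 m0, bw0_0 m0, xw0_0 m0]
  have a12 : R_t2b_W_u_f.A12 0 0 m r = 0 := by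
    unfold RowF.A12
    rw [hU]
    simp only [R_t2b_W_u_f, zr7, add_zero, zero_mul, mul_zero, neg_zero, sub_zero, Nat.cast_zero,
      ku_0 r0 m0 x1, k1p_0 r0 m0 x1, k1m_0 r0 m0 x1, k3p_0 r0 m0 x1, k3m_0 r0 m0 x1, kv_0 r0 m0 x1,
        b1p_0 r0 m0 x1, b1m_0 r0 m0 x1, b3p_0 r0 m0 x1, b3m_0 r0 m0 x1, lva_0 r0 m0 x1, l1p_0 r0 m0
          x1, l1m_0 r0 m0 x1, l3p_0 r0 m0 x1, l3m_0 r0 m0 x1, kwu_0 m0, kwl_0 m0, bwu_0 m0, bwl_0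
            m0, xwu_0 m0, xwl_0 m0, kw0_0 m0, bw0_0 m0, xw0_0 m0]
  have b12 : R_t2b_W_u_f.B12 0 0 m r = 0 := by
    unfold RowF.B12
    rw [hU]
    simp only [R_t2b_W_u_f, lva_wp, add_zero, zero_mul, mul_zero, neg_zero, sub_zero, Nat.cast_zero,
      ku_0 r0 m0 x1, k1p_0 r0 m0 x1, k1m_0 r0 m0 x1, k3p_0 r0 m0 x1, k3m_0 r0 m0 x1, kv_0 r0 m0 x1,
        b1p_0 r0 m0 x1, b1m_0 r0 m0 x1, b3p_0 r0 m0 x1, b3m_0 r0 m0 x1, lva_0 r0 m0 x1, l1p_0 r0 m0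
          x1, l1m_0 r0 m0 x1, l3p_0 r0 m0 x1, l3m_0 r0 m0 x1, kwu_0 m0, kwl_0 m0, bwu_0 m0, bwl_0
            m0, xwu_0 m0, xwl_0 m0, kw0_0 m0, bw0_0 m0, xw0_0 m0]
  have k23 : R_t2b_W_u_f.K23 0 0 m r = 0 := by
    unfold RowF.K23
    rw [hU]
    simp only [R_t2b_W_u_f, tkQ63_zn, add_zero, zero_mul, neg_zero, sub_zero,
      ku_0 r0 m0 x1, k1p_0 r0 m0 x1, k1m_0 r0 m0 x1, k3p_0 r0 m0 x1, k3m_0 r0 m0 x1, kv_0 r0 m0 x1,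
        b1p_0 r0 m0 x1, b1m_0 r0 m0 x1, b3p_0 r0 m0 x1, b3m_0 r0 m0 x1, lva_0 r0 m0 x1, l1p_0 r0 m0
          x1, l1m_0 r0 m0 x1, l3p_0 r0 m0 x1, l3m_0 r0 m0 x1, kwu_0 m0, kwl_0 m0, bwu_0 m0, bwl_0
            m0, xwu_0 m0, xwl_0 m0, kw0_0 m0, bw0_0 m0, xw0_0 m0]
  have a23 : R_t2b_W_u_f.A23 0 0 m r = 0 := by
    unfold RowF.A23
    rw [hU]
    simp only [R_t2b_W_u_f, taQ63_zn, add_zero, zero_mul, mul_zero, neg_zero, sub_zero,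
      Nat.cast_zero,
      ku_0 r0 m0 x1, k1p_0 r0 m0 x1, k1m_0 r0 m0 x1, k3p_0 r0 m0 x1, k3m_0 r0 m0 x1, kv_0 r0 m0 x1,
        b1p_0 r0 m0 x1, b1m_0 r0 m0 x1, b3p_0 r0 m0 x1, b3m_0 r0 m0 x1, lva_0 r0 m0 x1, l1p_0 r0 m0
          x1, l1m_0 r0 m0 x1, l3p_0 r0 m0 x1, l3m_0 r0 m0 x1, kwu_0 m0, kwl_0 m0, bwu_0 m0, bwl_0
            m0, xwu_0 m0, xwl_0 m0, kw0_0 m0, bw0_0 m0, xw0_0 m0]
  have b23 : R_t2b_W_u_f.B23 0 0 m r = 0 := by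
    unfold RowF.B23
    rw [hU]
    simp only [R_t2b_W_u_f, tcQ63_zn, add_zero, zero_mul, mul_zero, neg_zero, sub_zero,
      Nat.cast_zero,
      ku_0 r0 m0 x1, k1p_0 r0 m0 x1, k1m_0 r0 m0 x1, k3p_0 r0 m0 x1, k3m_0 r0 m0 x1, kv_0 r0 m0 x1,
        b1p_0 r0 m0 x1, b1m_0 r0 m0 x1, b3p_0 r0 m0 x1, b3m_0 r0 m0 x1, lva_0 r0 m0 x1, l1p_0 r0 m0
          x1, l1m_0 r0 m0 x1, l3p_0 r0 m0 x1, l3m_0 r0 m0 x1, kwu_0 m0, kwl_0 m0, bwu_0 m0, bwl_0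
            m0, xwu_0 m0, xwl_0 m0, kw0_0 m0, bw0_0 m0, xw0_0 m0]
  have k13 : R_t2b_W_u_f.K13 0 0 m r = 0 := by
    unfold RowF.K13
    rw [hU]
    simp only [R_t2b_W_u_f, kwu_tn, add_zero, zero_mul, neg_zero, sub_zero,
      ku_0 r0 m0 x1, k1p_0 r0 m0 x1, k1m_0 r0 m0 x1, k3p_0 r0 m0 x1, k3m_0 r0 m0 x1, kv_0 r0 m0 x1,
        b1p_0 r0 m0 x1, b1m_0 r0 m0 x1, b3p_0 r0 m0 x1, b3m_0 r0 m0 x1, lva_0 r0 m0 x1, l1p_0 r0 m0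
          x1, l1m_0 r0 m0 x1, l3p_0 r0 m0 x1, l3m_0 r0 m0 x1, kwu_0 m0, kwl_0 m0, bwu_0 m0, bwl_0
            m0, xwu_0 m0, xwl_0 m0, kw0_0 m0, bw0_0 m0, xw0_0 m0]
  have a13 : R_t2b_W_u_f.A13 0 0 m r = 0 := by
    unfold RowF.A13
    rw [hU]
    simp only [R_t2b_W_u_f, xwu_tn, add_zero, zero_mul, mul_zero, neg_zero, sub_zero, Nat.cast_zero,
      ku_0 r0 m0 x1, k1p_0 r0 m0 x1, k1m_0 r0 m0 x1, k3p_0 r0 m0 x1, k3m_0 r0 m0 x1, kv_0 r0 m0 x1,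
        b1p_0 r0 m0 x1, b1m_0 r0 m0 x1, b3p_0 r0 m0 x1, b3m_0 r0 m0 x1, lva_0 r0 m0 x1, l1p_0 r0 m0
          x1, l1m_0 r0 m0 x1, l3p_0 r0 m0 x1, l3m_0 r0 m0 x1, kwu_0 m0, kwl_0 m0, bwu_0 m0, bwl_0
            m0, xwu_0 m0, xwl_0 m0, kw0_0 m0, bw0_0 m0, xw0_0 m0]
  have b13 : R_t2b_W_u_f.B13 0 0 m r = 0 := by
    unfold RowF.B13
    rw [hU]
    simp only [R_t2b_W_u_f, zr7, add_zero, zero_mul, mul_zero, neg_zero, sub_zero, Nat.cast_zero,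
      ku_0 r0 m0 x1, k1p_0 r0 m0 x1, k1m_0 r0 m0 x1, k3p_0 r0 m0 x1, k3m_0 r0 m0 x1, kv_0 r0 m0 x1,
        b1p_0 r0 m0 x1, b1m_0 r0 m0 x1, b3p_0 r0 m0 x1, b3m_0 r0 m0 x1, lva_0 r0 m0 x1, l1p_0 r0 m0
          x1, l1m_0 r0 m0 x1, l3p_0 r0 m0 x1, l3m_0 r0 m0 x1, kwu_0 m0, kwl_0 m0, bwu_0 m0, bwl_0
            m0, xwu_0 m0, xwl_0 m0, kw0_0 m0, bw0_0 m0, xw0_0 m0]
  have hD : R_t2b_W_u_f.DL 0 0 m r = 0 := by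
    unfold RowF.DL
    rw [dln_val, k12, k23, k13]
    ring
  have hN : R_t2b_W_u_f.NF 0 0 m r = r * 0 := by
    simp only [RowF.NF, R_t2b_W_u_f, nff_T2]
    push_cast
    ring
  have hG : R_t2b_W_u_f.GM 0 0 m r = -0 := by
    unfold RowF.GM
    rw [k12, k23, k13]
    show gm1.v _ _ _ _ _ _ = _
    rw [gm1_val]
    ring
  have hb : R_t2b_W_u_f.NU 0 0 m r / r + R_t2b_W_u_f.BS 0 0 m r = -0 + 0 := by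
    simp only [RowF.NU, RowF.BS, R_t2b_W_u_f, nuf_T2, bs_T2_BPWf, om_val, zx_val, xi1_val, xi3_val,
      xiw_val, add_zero, xi1_0, xi3_0, xiw_0, om_0]
    simp
  have v1 : 0 ≤ R_t2b_W_u_f.V1A 0 0 m r / r + R_t2b_W_u_f.V1B 0 0 m r := by
    unfold RowF.V1A RowF.V1B
    rw [a12, a23, a13, b12, b23, b13]
    simp only [R_t2b_W_u_f, vf1_val]
    simp
  have v2 : 0 ≤ R_t2b_W_u_f.V2A 0 0 m r / r + R_t2b_W_u_f.V2B 0 0 m r := by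
    unfold RowF.V2A RowF.V2B
    rw [a12, a23, a13, b12, b23, b13]
    simp only [R_t2b_W_u_f, vf2_val]
    simp
  exact sb_core r0 m0 x1 hU hD hN hG hb le_rfl (Or.inr rfl) v1 v2

theorem cb_t2b_W_u_n {m r : ℝ} (r0 : 0 < r) (m0 : 0 < m) (x1 : m * r ≤ 1 / 40) :
    SBase R_t2b_W_u_n 0 0 m r 0 := by
  have hU : R_t2b_W_u_n.U 0 0 m r = 0 := by
    simp only [RowF.U, R_t2b_W_u_n, u_T2_B_PW_Q63, zx_val, xi1_val, xi3_val, xiw_val, xw0p_val,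
      add_zero, xi1_0, xi3_0, xiw_0, om_0, neg_zero]
    simp
  have k12 : R_t2b_W_u_n.K12 0 0 m r = 0 := by
    unfold RowF.K12
    rw [hU]
    simp only [R_t2b_W_u_n, nku_wp, ku_wp, kv_wp, add_zero, zero_mul, neg_zero, sub_zero, nkf_0,
      ku_0 r0 m0 x1, k1p_0 r0 m0 x1, k1m_0 r0 m0 x1, k3p_0 r0 m0 x1, k3m_0 r0 m0 x1, kv_0 r0 m0 x1,
        b1p_0 r0 m0 x1, b1m_0 r0 m0 x1, b3p_0 r0 m0 x1, b3m_0 r0 m0 x1, lva_0 r0 m0 x1, l1p_0 r0 m0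
          x1, l1m_0 r0 m0 x1, l3p_0 r0 m0 x1, l3m_0 r0 m0 x1, kwu_0 m0, kwl_0 m0, bwu_0 m0, bwl_0
            m0, xwu_0 m0, xwl_0 m0, kw0_0 m0, bw0_0 m0, xw0_0 m0]
  have a12 : R_t2b_W_u_n.A12 0 0 m r = 0 := by
    unfold RowF.A12
    rw [hU]
    simp only [R_t2b_W_u_n, zr7, add_zero, zero_mul, mul_zero, neg_zero, sub_zero, Nat.cast_zero,
      ku_0 r0 m0 x1, k1p_0 r0 m0 x1, k1m_0 r0 m0 x1, k3p_0 r0 m0 x1, k3m_0 r0 m0 x1, kv_0 r0 m0 x1,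
        b1p_0 r0 m0 x1, b1m_0 r0 m0 x1, b3p_0 r0 m0 x1, b3m_0 r0 m0 x1, lva_0 r0 m0 x1, l1p_0 r0 m0
          x1, l1m_0 r0 m0 x1, l3p_0 r0 m0 x1, l3m_0 r0 m0 x1, kwu_0 m0, kwl_0 m0, bwu_0 m0, bwl_0
            m0, xwu_0 m0, xwl_0 m0, kw0_0 m0, bw0_0 m0, xw0_0 m0]
  have b12 : R_t2b_W_u_n.B12 0 0 m r = 0 := by
    unfold RowF.B12
    rw [hU]
    simp only [R_t2b_W_u_n, lva_wp, add_zero, zero_mul, mul_zero, neg_zero, sub_zero, Nat.cast_zero,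
      ku_0 r0 m0 x1, k1p_0 r0 m0 x1, k1m_0 r0 m0 x1, k3p_0 r0 m0 x1, k3m_0 r0 m0 x1, kv_0 r0 m0 x1,
        b1p_0 r0 m0 x1, b1m_0 r0 m0 x1, b3p_0 r0 m0 x1, b3m_0 r0 m0 x1, lva_0 r0 m0 x1, l1p_0 r0 m0
          x1, l1m_0 r0 m0 x1, l3p_0 r0 m0 x1, l3m_0 r0 m0 x1, kwu_0 m0, kwl_0 m0, bwu_0 m0, bwl_0
            m0, xwu_0 m0, xwl_0 m0, kw0_0 m0, bw0_0 m0, xw0_0 m0]
  have k23 : R_t2b_W_u_n.K23 0 0 m r = 0 := by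
    unfold RowF.K23
    rw [hU]
    simp only [R_t2b_W_u_n, ntkQ63_zn, tkQ63_zn, tbQ63_zn, add_zero, zero_mul, neg_zero, sub_zero,
      nkf_0,
      ku_0 r0 m0 x1, k1p_0 r0 m0 x1, k1m_0 r0 m0 x1, k3p_0 r0 m0 x1, k3m_0 r0 m0 x1, kv_0 r0 m0 x1,
        b1p_0 r0 m0 x1, b1m_0 r0 m0 x1, b3p_0 r0 m0 x1, b3m_0 r0 m0 x1, lva_0 r0 m0 x1, l1p_0 r0 m0
          x1, l1m_0 r0 m0 x1, l3p_0 r0 m0 x1, l3m_0 r0 m0 x1, kwu_0 m0, kwl_0 m0, bwu_0 m0, bwl_0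
            m0, xwu_0 m0, xwl_0 m0, kw0_0 m0, bw0_0 m0, xw0_0 m0]
  have a23 : R_t2b_W_u_n.A23 0 0 m r = 0 := by
    unfold RowF.A23
    rw [hU]
    simp only [R_t2b_W_u_n, taQ63_zn, add_zero, zero_mul, mul_zero, neg_zero, sub_zero,
      Nat.cast_zero,
      ku_0 r0 m0 x1, k1p_0 r0 m0 x1, k1m_0 r0 m0 x1, k3p_0 r0 m0 x1, k3m_0 r0 m0 x1, kv_0 r0 m0 x1,
        b1p_0 r0 m0 x1, b1m_0 r0 m0 x1, b3p_0 r0 m0 x1, b3m_0 r0 m0 x1, lva_0 r0 m0 x1, l1p_0 r0 m0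
          x1, l1m_0 r0 m0 x1, l3p_0 r0 m0 x1, l3m_0 r0 m0 x1, kwu_0 m0, kwl_0 m0, bwu_0 m0, bwl_0
            m0, xwu_0 m0, xwl_0 m0, kw0_0 m0, bw0_0 m0, xw0_0 m0]
  have b23 : R_t2b_W_u_n.B23 0 0 m r = 0 := by
    unfold RowF.B23
    rw [hU]
    simp only [R_t2b_W_u_n, tcQ63_zn, add_zero, zero_mul, mul_zero, neg_zero, sub_zero,
      Nat.cast_zero,
      ku_0 r0 m0 x1, k1p_0 r0 m0 x1, k1m_0 r0 m0 x1, k3p_0 r0 m0 x1, k3m_0 r0 m0 x1, kv_0 r0 m0 x1,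
        b1p_0 r0 m0 x1, b1m_0 r0 m0 x1, b3p_0 r0 m0 x1, b3m_0 r0 m0 x1, lva_0 r0 m0 x1, l1p_0 r0 m0
          x1, l1m_0 r0 m0 x1, l3p_0 r0 m0 x1, l3m_0 r0 m0 x1, kwu_0 m0, kwl_0 m0, bwu_0 m0, bwl_0
            m0, xwu_0 m0, xwl_0 m0, kw0_0 m0, bw0_0 m0, xw0_0 m0]
  have k13 : R_t2b_W_u_n.K13 0 0 m r = 0 := by
    unfold RowF.K13
    rw [hU]
    simp only [R_t2b_W_u_n, nkwu_tn, kwu_tn, bwu_tn, add_zero, zero_mul, neg_zero, sub_zero, nkf_0,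
      ku_0 r0 m0 x1, k1p_0 r0 m0 x1, k1m_0 r0 m0 x1, k3p_0 r0 m0 x1, k3m_0 r0 m0 x1, kv_0 r0 m0 x1,
        b1p_0 r0 m0 x1, b1m_0 r0 m0 x1, b3p_0 r0 m0 x1, b3m_0 r0 m0 x1, lva_0 r0 m0 x1, l1p_0 r0 m0
          x1, l1m_0 r0 m0 x1, l3p_0 r0 m0 x1, l3m_0 r0 m0 x1, kwu_0 m0, kwl_0 m0, bwu_0 m0, bwl_0
            m0, xwu_0 m0, xwl_0 m0, kw0_0 m0, bw0_0 m0, xw0_0 m0]
  have a13 : R_t2b_W_u_n.A13 0 0 m r = 0 := by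
    unfold RowF.A13
    rw [hU]
    simp only [R_t2b_W_u_n, xwu_tn, add_zero, zero_mul, mul_zero, neg_zero, sub_zero, Nat.cast_zero,
      ku_0 r0 m0 x1, k1p_0 r0 m0 x1, k1m_0 r0 m0 x1, k3p_0 r0 m0 x1, k3m_0 r0 m0 x1, kv_0 r0 m0 x1,
        b1p_0 r0 m0 x1, b1m_0 r0 m0 x1, b3p_0 r0 m0 x1, b3m_0 r0 m0 x1, lva_0 r0 m0 x1, l1p_0 r0 m0
          x1, l1m_0 r0 m0 x1, l3p_0 r0 m0 x1, l3m_0 r0 m0 x1, kwu_0 m0, kwl_0 m0, bwu_0 m0, bwl_0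
            m0, xwu_0 m0, xwl_0 m0, kw0_0 m0, bw0_0 m0, xw0_0 m0]
  have b13 : R_t2b_W_u_n.B13 0 0 m r = 0 := by
    unfold RowF.B13
    rw [hU]
    simp only [R_t2b_W_u_n, zr7, add_zero, zero_mul, mul_zero, neg_zero, sub_zero, Nat.cast_zero,
      ku_0 r0 m0 x1, k1p_0 r0 m0 x1, k1m_0 r0 m0 x1, k3p_0 r0 m0 x1, k3m_0 r0 m0 x1, kv_0 r0 m0 x1,
        b1p_0 r0 m0 x1, b1m_0 r0 m0 x1, b3p_0 r0 m0 x1, b3m_0 r0 m0 x1, lva_0 r0 m0 x1, l1p_0 r0 m0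
          x1, l1m_0 r0 m0 x1, l3p_0 r0 m0 x1, l3m_0 r0 m0 x1, kwu_0 m0, kwl_0 m0, bwu_0 m0, bwl_0
            m0, xwu_0 m0, xwl_0 m0, kw0_0 m0, bw0_0 m0, xw0_0 m0]
  have hD : R_t2b_W_u_n.DL 0 0 m r = 0 := by
    unfold RowF.DL
    rw [dln_val, k12, k23, k13]
    ring
  have hN : R_t2b_W_u_n.NF 0 0 m r = r * 0 := by
    simp only [RowF.NF, R_t2b_W_u_n, nfn_T2]
    push_cast
    ring
  have hG : R_t2b_W_u_n.GM 0 0 m r = -0 := by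
    unfold RowF.GM
    rw [k12, k23, k13]
    show gm1.v _ _ _ _ _ _ = _
    rw [gm1_val]
    ring
  have hb : R_t2b_W_u_n.NU 0 0 m r / r + R_t2b_W_u_n.BS 0 0 m r = -0 + 0 := by
    simp only [RowF.NU, RowF.BS, R_t2b_W_u_n, nun_T2, bs_T2_BPWn, om_val, zx_val, xi1_val, xi3_val,
      xiw_val, add_zero, xi1_0, xi3_0, xiw_0, om_0]
    simp
  have v1 : 0 ≤ R_t2b_W_u_n.V1A 0 0 m r / r + R_t2b_W_u_n.V1B 0 0 m r := by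
    unfold RowF.V1A RowF.V1B
    rw [a12, a23, a13, b12, b23, b13]
    simp only [R_t2b_W_u_n, ml1_val]
    simp
  have v2 : 0 ≤ R_t2b_W_u_n.V2A 0 0 m r / r + R_t2b_W_u_n.V2B 0 0 m r := by
    unfold RowF.V2A RowF.V2B
    rw [a12, a23, a13, b12, b23, b13]
    simp only [R_t2b_W_u_n, ml2_val]
    simp
  exact sb_core r0 m0 x1 hU hD hN hG hb le_rfl (Or.inr rfl) v1 v2

theorem cb_t3a_c1_f {m r : ℝ} (r0 : 0 < r) (m0 : 0 < m) (x1 : m * r ≤ 1 / 40) :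
    SBase R_t3a_c1_f 0 0 m r 0 := by
  have hU : R_t3a_c1_f.U 0 0 m r = 0 := by
    simp only [RowF.U, R_t3a_c1_f, u_T2p_A_P1p_Q63, zx_val, xi1_val, xi3_val, xiw_val, xw0p_val,
      add_zero, xi1_0, xi3_0, xiw_0, om_0, neg_zero]
    simp
  have k12 : R_t3a_c1_f.K12 0 0 m r = 0 := by
    unfold RowF.K12
    rw [hU]
    simp only [R_t3a_c1_f, ku_wp, add_zero, zero_mul, neg_zero, sub_zero,
      ku_0 r0 m0 x1, k1p_0 r0 m0 x1, k1m_0 r0 m0 x1, k3p_0 r0 m0 x1, k3m_0 r0 m0 x1, kv_0 r0 m0 x1,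
        b1p_0 r0 m0 x1, b1m_0 r0 m0 x1, b3p_0 r0 m0 x1, b3m_0 r0 m0 x1, lva_0 r0 m0 x1, l1p_0 r0 m0
          x1, l1m_0 r0 m0 x1, l3p_0 r0 m0 x1, l3m_0 r0 m0 x1, kwu_0 m0, kwl_0 m0, bwu_0 m0, bwl_0
            m0, xwu_0 m0, xwl_0 m0, kw0_0 m0, bw0_0 m0, xw0_0 m0]
  have a12 : R_t3a_c1_f.A12 0 0 m r = 0 := by
    unfold RowF.A12
    rw [hU]
    simp only [R_t3a_c1_f, zr7, add_zero, zero_mul, mul_zero, neg_zero, sub_zero, Nat.cast_zero,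
      ku_0 r0 m0 x1, k1p_0 r0 m0 x1, k1m_0 r0 m0 x1, k3p_0 r0 m0 x1, k3m_0 r0 m0 x1, kv_0 r0 m0 x1,
        b1p_0 r0 m0 x1, b1m_0 r0 m0 x1, b3p_0 r0 m0 x1, b3m_0 r0 m0 x1, lva_0 r0 m0 x1, l1p_0 r0 m0
          x1, l1m_0 r0 m0 x1, l3p_0 r0 m0 x1, l3m_0 r0 m0 x1, kwu_0 m0, kwl_0 m0, bwu_0 m0, bwl_0
            m0, xwu_0 m0, xwl_0 m0, kw0_0 m0, bw0_0 m0, xw0_0 m0]
  have b12 : R_t3a_c1_f.B12 0 0 m r = 0 := by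
    unfold RowF.B12
    rw [hU]
    simp only [R_t3a_c1_f, lva_wp, add_zero, zero_mul, mul_zero, neg_zero, sub_zero, Nat.cast_zero,
      ku_0 r0 m0 x1, k1p_0 r0 m0 x1, k1m_0 r0 m0 x1, k3p_0 r0 m0 x1, k3m_0 r0 m0 x1, kv_0 r0 m0 x1,
        b1p_0 r0 m0 x1, b1m_0 r0 m0 x1, b3p_0 r0 m0 x1, b3m_0 r0 m0 x1, lva_0 r0 m0 x1, l1p_0 r0 m0
          x1, l1m_0 r0 m0 x1, l3p_0 r0 m0 x1, l3m_0 r0 m0 x1, kwu_0 m0, kwl_0 m0, bwu_0 m0, bwl_0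
            m0, xwu_0 m0, xwl_0 m0, kw0_0 m0, bw0_0 m0, xw0_0 m0]
  have k23 : R_t3a_c1_f.K23 0 0 m r = 0 := by
    unfold RowF.K23
    rw [hU]
    simp only [R_t3a_c1_f, k1p_zp, add_zero, zero_mul, neg_zero, sub_zero,
      ku_0 r0 m0 x1, k1p_0 r0 m0 x1, k1m_0 r0 m0 x1, k3p_0 r0 m0 x1, k3m_0 r0 m0 x1, kv_0 r0 m0 x1,
        b1p_0 r0 m0 x1, b1m_0 r0 m0 x1, b3p_0 r0 m0 x1, b3m_0 r0 m0 x1, lva_0 r0 m0 x1, l1p_0 r0 m0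
          x1, l1m_0 r0 m0 x1, l3p_0 r0 m0 x1, l3m_0 r0 m0 x1, kwu_0 m0, kwl_0 m0, bwu_0 m0, bwl_0
            m0, xwu_0 m0, xwl_0 m0, kw0_0 m0, bw0_0 m0, xw0_0 m0]
  have a23 : R_t3a_c1_f.A23 0 0 m r = 0 := by
    unfold RowF.A23
    rw [hU]
    simp only [R_t3a_c1_f, zr7, add_zero, zero_mul, mul_zero, neg_zero, sub_zero, Nat.cast_zero,
      ku_0 r0 m0 x1, k1p_0 r0 m0 x1, k1m_0 r0 m0 x1, k3p_0 r0 m0 x1, k3m_0 r0 m0 x1, kv_0 r0 m0 x1,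
        b1p_0 r0 m0 x1, b1m_0 r0 m0 x1, b3p_0 r0 m0 x1, b3m_0 r0 m0 x1, lva_0 r0 m0 x1, l1p_0 r0 m0
          x1, l1m_0 r0 m0 x1, l3p_0 r0 m0 x1, l3m_0 r0 m0 x1, kwu_0 m0, kwl_0 m0, bwu_0 m0, bwl_0
            m0, xwu_0 m0, xwl_0 m0, kw0_0 m0, bw0_0 m0, xw0_0 m0]
  have b23 : R_t3a_c1_f.B23 0 0 m r = 0 := by
    unfold RowF.B23
    rw [hU]
    simp only [R_t3a_c1_f, l1p_zp, add_zero, zero_mul, mul_zero, neg_zero, sub_zero, Nat.cast_zero,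
      ku_0 r0 m0 x1, k1p_0 r0 m0 x1, k1m_0 r0 m0 x1, k3p_0 r0 m0 x1, k3m_0 r0 m0 x1, kv_0 r0 m0 x1,
        b1p_0 r0 m0 x1, b1m_0 r0 m0 x1, b3p_0 r0 m0 x1, b3m_0 r0 m0 x1, lva_0 r0 m0 x1, l1p_0 r0 m0
          x1, l1m_0 r0 m0 x1, l3p_0 r0 m0 x1, l3m_0 r0 m0 x1, kwu_0 m0, kwl_0 m0, bwu_0 m0, bwl_0
            m0, xwu_0 m0, xwl_0 m0, kw0_0 m0, bw0_0 m0, xw0_0 m0]
  have k13 : R_t3a_c1_f.K13 0 0 m r = 0 := by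
    unfold RowF.K13
    rw [hU]
    simp only [R_t3a_c1_f, tkQ63_tp, add_zero, zero_mul, neg_zero, sub_zero,
      ku_0 r0 m0 x1, k1p_0 r0 m0 x1, k1m_0 r0 m0 x1, k3p_0 r0 m0 x1, k3m_0 r0 m0 x1, kv_0 r0 m0 x1,
        b1p_0 r0 m0 x1, b1m_0 r0 m0 x1, b3p_0 r0 m0 x1, b3m_0 r0 m0 x1, lva_0 r0 m0 x1, l1p_0 r0 m0
          x1, l1m_0 r0 m0 x1, l3p_0 r0 m0 x1, l3m_0 r0 m0 x1, kwu_0 m0, kwl_0 m0, bwu_0 m0, bwl_0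
            m0, xwu_0 m0, xwl_0 m0, kw0_0 m0, bw0_0 m0, xw0_0 m0]
  have a13 : R_t3a_c1_f.A13 0 0 m r = 0 := by
    unfold RowF.A13
    rw [hU]
    simp only [R_t3a_c1_f, taQ63_tp, add_zero, zero_mul, mul_zero, neg_zero, sub_zero,
      Nat.cast_zero,
      ku_0 r0 m0 x1, k1p_0 r0 m0 x1, k1m_0 r0 m0 x1, k3p_0 r0 m0 x1, k3m_0 r0 m0 x1, kv_0 r0 m0 x1,
        b1p_0 r0 m0 x1, b1m_0 r0 m0 x1, b3p_0 r0 m0 x1, b3m_0 r0 m0 x1, lva_0 r0 m0 x1, l1p_0 r0 m0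
          x1, l1m_0 r0 m0 x1, l3p_0 r0 m0 x1, l3m_0 r0 m0 x1, kwu_0 m0, kwl_0 m0, bwu_0 m0, bwl_0
            m0, xwu_0 m0, xwl_0 m0, kw0_0 m0, bw0_0 m0, xw0_0 m0]
  have b13 : R_t3a_c1_f.B13 0 0 m r = 0 := by
    unfold RowF.B13
    rw [hU]
    simp only [R_t3a_c1_f, tcQ63_tp, add_zero, zero_mul, mul_zero, neg_zero, sub_zero,
      Nat.cast_zero,
      ku_0 r0 m0 x1, k1p_0 r0 m0 x1, k1m_0 r0 m0 x1, k3p_0 r0 m0 x1, k3m_0 r0 m0 x1, kv_0 r0 m0 x1,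
        b1p_0 r0 m0 x1, b1m_0 r0 m0 x1, b3p_0 r0 m0 x1, b3m_0 r0 m0 x1, lva_0 r0 m0 x1, l1p_0 r0 m0
          x1, l1m_0 r0 m0 x1, l3p_0 r0 m0 x1, l3m_0 r0 m0 x1, kwu_0 m0, kwl_0 m0, bwu_0 m0, bwl_0
            m0, xwu_0 m0, xwl_0 m0, kw0_0 m0, bw0_0 m0, xw0_0 m0]
  have hD : R_t3a_c1_f.DL 0 0 m r = 0 := by
    unfold RowF.DL
    rw [dln_val, k12, k23, k13]
    ring
  have hN : R_t3a_c1_f.NF 0 0 m r = r * 0 := by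
    simp only [RowF.NF, R_t3a_c1_f, nff_T2p]
    push_cast
    ring
  have hG : R_t3a_c1_f.GM 0 0 m r = -0 := by
    unfold RowF.GM
    rw [k12, k23, k13]
    show gm1.v _ _ _ _ _ _ = _
    rw [gm1_val]
    ring
  have hb : R_t3a_c1_f.NU 0 0 m r / r + R_t3a_c1_f.BS 0 0 m r = -0 + 0 := by
    simp only [RowF.NU, RowF.BS, R_t3a_c1_f, nuf_T2p, bs_T2p_AP1pf, om_val, zx_val, xi1_val,
      xi3_val, xiw_val, add_zero, xi1_0, xi3_0, xiw_0, om_0]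
    simp
  have v1 : 0 ≤ R_t3a_c1_f.V1A 0 0 m r / r + R_t3a_c1_f.V1B 0 0 m r := by
    unfold RowF.V1A RowF.V1B
    rw [a12, a23, a13, b12, b23, b13]
    simp only [R_t3a_c1_f, vf1_val]
    simp
  have v2 : 0 ≤ R_t3a_c1_f.V2A 0 0 m r / r + R_t3a_c1_f.V2B 0 0 m r := by
    unfold RowF.V2A RowF.V2B
    rw [a12, a23, a13, b12, b23, b13]
    simp only [R_t3a_c1_f, vf2_val]
    simp
  exact sb_core r0 m0 x1 hU hD hN hG hb le_rfl (Or.inr rfl) v1 v2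

theorem cb_t3a_c1_n {m r : ℝ} (r0 : 0 < r) (m0 : 0 < m) (x1 : m * r ≤ 1 / 40) :
    SBase R_t3a_c1_n 0 0 m r 0 := by
  have hU : R_t3a_c1_n.U 0 0 m r = 0 := by
    simp only [RowF.U, R_t3a_c1_n, u_T2p_A_P1p_Q63, zx_val, xi1_val, xi3_val, xiw_val, xw0p_val,
      add_zero, xi1_0, xi3_0, xiw_0, om_0, neg_zero]
    simp
  have k12 : R_t3a_c1_n.K12 0 0 m r = 0 := by
    unfold RowF.K12
    rw [hU]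
    simp only [R_t3a_c1_n, nku_wp, ku_wp, kv_wp, add_zero, zero_mul, neg_zero, sub_zero, nkf_0,
      ku_0 r0 m0 x1, k1p_0 r0 m0 x1, k1m_0 r0 m0 x1, k3p_0 r0 m0 x1, k3m_0 r0 m0 x1, kv_0 r0 m0 x1,
        b1p_0 r0 m0 x1, b1m_0 r0 m0 x1, b3p_0 r0 m0 x1, b3m_0 r0 m0 x1, lva_0 r0 m0 x1, l1p_0 r0 m0
          x1, l1m_0 r0 m0 x1, l3p_0 r0 m0 x1, l3m_0 r0 m0 x1, kwu_0 m0, kwl_0 m0, bwu_0 m0, bwl_0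
            m0, xwu_0 m0, xwl_0 m0, kw0_0 m0, bw0_0 m0, xw0_0 m0]
  have a12 : R_t3a_c1_n.A12 0 0 m r = 0 := by
    unfold RowF.A12
    rw [hU]
    simp only [R_t3a_c1_n, zr7, add_zero, zero_mul, mul_zero, neg_zero, sub_zero, Nat.cast_zero,
      ku_0 r0 m0 x1, k1p_0 r0 m0 x1, k1m_0 r0 m0 x1, k3p_0 r0 m0 x1, k3m_0 r0 m0 x1, kv_0 r0 m0 x1,
        b1p_0 r0 m0 x1, b1m_0 r0 m0 x1, b3p_0 r0 m0 x1, b3m_0 r0 m0 x1, lva_0 r0 m0 x1, l1p_0 r0 m0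
          x1, l1m_0 r0 m0 x1, l3p_0 r0 m0 x1, l3m_0 r0 m0 x1, kwu_0 m0, kwl_0 m0, bwu_0 m0, bwl_0
            m0, xwu_0 m0, xwl_0 m0, kw0_0 m0, bw0_0 m0, xw0_0 m0]
  have b12 : R_t3a_c1_n.B12 0 0 m r = 0 := by
    unfold RowF.B12
    rw [hU]
    simp only [R_t3a_c1_n, lva_wp, add_zero, zero_mul, mul_zero, neg_zero, sub_zero, Nat.cast_zero,
      ku_0 r0 m0 x1, k1p_0 r0 m0 x1, k1m_0 r0 m0 x1, k3p_0 r0 m0 x1, k3m_0 r0 m0 x1, kv_0 r0 m0 x1,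
        b1p_0 r0 m0 x1, b1m_0 r0 m0 x1, b3p_0 r0 m0 x1, b3m_0 r0 m0 x1, lva_0 r0 m0 x1, l1p_0 r0 m0
          x1, l1m_0 r0 m0 x1, l3p_0 r0 m0 x1, l3m_0 r0 m0 x1, kwu_0 m0, kwl_0 m0, bwu_0 m0, bwl_0
            m0, xwu_0 m0, xwl_0 m0, kw0_0 m0, bw0_0 m0, xw0_0 m0]
  have k23 : R_t3a_c1_n.K23 0 0 m r = 0 := by
    unfold RowF.K23
    rw [hU]
    simp only [R_t3a_c1_n, nk1p_zp, k1p_zp, b1p_zp, add_zero, zero_mul, neg_zero, sub_zero, nkf_0,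
      ku_0 r0 m0 x1, k1p_0 r0 m0 x1, k1m_0 r0 m0 x1, k3p_0 r0 m0 x1, k3m_0 r0 m0 x1, kv_0 r0 m0 x1,
        b1p_0 r0 m0 x1, b1m_0 r0 m0 x1, b3p_0 r0 m0 x1, b3m_0 r0 m0 x1, lva_0 r0 m0 x1, l1p_0 r0 m0
          x1, l1m_0 r0 m0 x1, l3p_0 r0 m0 x1, l3m_0 r0 m0 x1, kwu_0 m0, kwl_0 m0, bwu_0 m0, bwl_0
            m0, xwu_0 m0, xwl_0 m0, kw0_0 m0, bw0_0 m0, xw0_0 m0]
  have a23 : R_t3a_c1_n.A23 0 0 m r = 0 := by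
    unfold RowF.A23
    rw [hU]
    simp only [R_t3a_c1_n, zr7, add_zero, zero_mul, mul_zero, neg_zero, sub_zero, Nat.cast_zero,
      ku_0 r0 m0 x1, k1p_0 r0 m0 x1, k1m_0 r0 m0 x1, k3p_0 r0 m0 x1, k3m_0 r0 m0 x1, kv_0 r0 m0 x1,
        b1p_0 r0 m0 x1, b1m_0 r0 m0 x1, b3p_0 r0 m0 x1, b3m_0 r0 m0 x1, lva_0 r0 m0 x1, l1p_0 r0 m0
          x1, l1m_0 r0 m0 x1, l3p_0 r0 m0 x1, l3m_0 r0 m0 x1, kwu_0 m0, kwl_0 m0, bwu_0 m0, bwl_0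
            m0, xwu_0 m0, xwl_0 m0, kw0_0 m0, bw0_0 m0, xw0_0 m0]
  have b23 : R_t3a_c1_n.B23 0 0 m r = 0 := by
    unfold RowF.B23
    rw [hU]
    simp only [R_t3a_c1_n, l1p_zp, add_zero, zero_mul, mul_zero, neg_zero, sub_zero, Nat.cast_zero,
      ku_0 r0 m0 x1, k1p_0 r0 m0 x1, k1m_0 r0 m0 x1, k3p_0 r0 m0 x1, k3m_0 r0 m0 x1, kv_0 r0 m0 x1,
        b1p_0 r0 m0 x1, b1m_0 r0 m0 x1, b3p_0 r0 m0 x1, b3m_0 r0 m0 x1, lva_0 r0 m0 x1, l1p_0 r0 m0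
          x1, l1m_0 r0 m0 x1, l3p_0 r0 m0 x1, l3m_0 r0 m0 x1, kwu_0 m0, kwl_0 m0, bwu_0 m0, bwl_0
            m0, xwu_0 m0, xwl_0 m0, kw0_0 m0, bw0_0 m0, xw0_0 m0]
  have k13 : R_t3a_c1_n.K13 0 0 m r = 0 := by
    unfold RowF.K13
    rw [hU]
    simp only [R_t3a_c1_n, ntkQ63_tp, tkQ63_tp, tbQ63_tp, add_zero, zero_mul, neg_zero, sub_zero,
      nkf_0,
      ku_0 r0 m0 x1, k1p_0 r0 m0 x1, k1m_0 r0 m0 x1, k3p_0 r0 m0 x1, k3m_0 r0 m0 x1, kv_0 r0 m0 x1,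
        b1p_0 r0 m0 x1, b1m_0 r0 m0 x1, b3p_0 r0 m0 x1, b3m_0 r0 m0 x1, lva_0 r0 m0 x1, l1p_0 r0 m0
          x1, l1m_0 r0 m0 x1, l3p_0 r0 m0 x1, l3m_0 r0 m0 x1, kwu_0 m0, kwl_0 m0, bwu_0 m0, bwl_0
            m0, xwu_0 m0, xwl_0 m0, kw0_0 m0, bw0_0 m0, xw0_0 m0]
  have a13 : R_t3a_c1_n.A13 0 0 m r = 0 := by
    unfold RowF.A13
    rw [hU]
    simp only [R_t3a_c1_n, taQ63_tp, add_zero, zero_mul, mul_zero, neg_zero, sub_zero,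
      Nat.cast_zero,
      ku_0 r0 m0 x1, k1p_0 r0 m0 x1, k1m_0 r0 m0 x1, k3p_0 r0 m0 x1, k3m_0 r0 m0 x1, kv_0 r0 m0 x1,
        b1p_0 r0 m0 x1, b1m_0 r0 m0 x1, b3p_0 r0 m0 x1, b3m_0 r0 m0 x1, lva_0 r0 m0 x1, l1p_0 r0 m0
          x1, l1m_0 r0 m0 x1, l3p_0 r0 m0 x1, l3m_0 r0 m0 x1, kwu_0 m0, kwl_0 m0, bwu_0 m0, bwl_0
            m0, xwu_0 m0, xwl_0 m0, kw0_0 m0, bw0_0 m0, xw0_0 m0]
  have b13 : R_t3a_c1_n.B13 0 0 m r = 0 := by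
    unfold RowF.B13
    rw [hU]
    simp only [R_t3a_c1_n, tcQ63_tp, add_zero, zero_mul, mul_zero, neg_zero, sub_zero,
      Nat.cast_zero,
      ku_0 r0 m0 x1, k1p_0 r0 m0 x1, k1m_0 r0 m0 x1, k3p_0 r0 m0 x1, k3m_0 r0 m0 x1, kv_0 r0 m0 x1,
        b1p_0 r0 m0 x1, b1m_0 r0 m0 x1, b3p_0 r0 m0 x1, b3m_0 r0 m0 x1, lva_0 r0 m0 x1, l1p_0 r0 m0
          x1, l1m_0 r0 m0 x1, l3p_0 r0 m0 x1, l3m_0 r0 m0 x1, kwu_0 m0, kwl_0 m0, bwu_0 m0, bwl_0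
            m0, xwu_0 m0, xwl_0 m0, kw0_0 m0, bw0_0 m0, xw0_0 m0]
  have hD : R_t3a_c1_n.DL 0 0 m r = 0 := by
    unfold RowF.DL
    rw [dln_val, k12, k23, k13]
    ring
  have hN : R_t3a_c1_n.NF 0 0 m r = r * 0 := by
    simp only [RowF.NF, R_t3a_c1_n, nfn_T2p]
    push_cast
    ring
  have hG : R_t3a_c1_n.GM 0 0 m r = -0 := by
    unfold RowF.GM
    rw [k12, k23, k13]
    show gm1.v _ _ _ _ _ _ = _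
    rw [gm1_val]
    ring
  have hb : R_t3a_c1_n.NU 0 0 m r / r + R_t3a_c1_n.BS 0 0 m r = -0 + 0 := by
    simp only [RowF.NU, RowF.BS, R_t3a_c1_n, nun_T2p, bs_T2p_AP1pn, om_val, zx_val, xi1_val,
      xi3_val, xiw_val, add_zero, xi1_0, xi3_0, xiw_0, om_0]
    simp
  have v1 : 0 ≤ R_t3a_c1_n.V1A 0 0 m r / r + R_t3a_c1_n.V1B 0 0 m r := by
    unfold RowF.V1A RowF.V1B
    rw [a12, a23, a13, b12, b23, b13]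
    simp only [R_t3a_c1_n, ml1_val]
    simp
  have v2 : 0 ≤ R_t3a_c1_n.V2A 0 0 m r / r + R_t3a_c1_n.V2B 0 0 m r := by
    unfold RowF.V2A RowF.V2B
    rw [a12, a23, a13, b12, b23, b13]
    simp only [R_t3a_c1_n, ml2_val]
    simp
  exact sb_core r0 m0 x1 hU hD hN hG hb le_rfl (Or.inr rfl) v1 v2

theorem cb_t3b_c3_f {m r : ℝ} (r0 : 0 < r) (m0 : 0 < m) (x1 : m * r ≤ 1 / 40) :
    SBase R_t3b_c3_f 0 0 m r 0 := by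
  have hU : R_t3b_c3_f.U 0 0 m r = 0 := by
    simp only [RowF.U, R_t3b_c3_f, u_T2p_B_Q3p_P1W, zx_val, xi1_val, xi3_val, xiw_val, xw0p_val,
      add_zero, xi1_0, xi3_0, xiw_0, om_0, neg_zero]
    simp
  have k12 : R_t3b_c3_f.K12 0 0 m r = 0 := by
    unfold RowF.K12
    rw [hU]
    simp only [R_t3b_c3_f, ku_wp, add_zero, zero_mul, neg_zero, sub_zero,
      ku_0 r0 m0 x1, k1p_0 r0 m0 x1, k1m_0 r0 m0 x1, k3p_0 r0 m0 x1, k3m_0 r0 m0 x1, kv_0 r0 m0 x1,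
        b1p_0 r0 m0 x1, b1m_0 r0 m0 x1, b3p_0 r0 m0 x1, b3m_0 r0 m0 x1, lva_0 r0 m0 x1, l1p_0 r0 m0
          x1, l1m_0 r0 m0 x1, l3p_0 r0 m0 x1, l3m_0 r0 m0 x1, kwu_0 m0, kwl_0 m0, bwu_0 m0, bwl_0
            m0, xwu_0 m0, xwl_0 m0, kw0_0 m0, bw0_0 m0, xw0_0 m0]
  have a12 : R_t3b_c3_f.A12 0 0 m r = 0 := by
    unfold RowF.A12
    rw [hU]
    simp only [R_t3b_c3_f, zr7, add_zero, zero_mul, mul_zero, neg_zero, sub_zero, Nat.cast_zero,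
      ku_0 r0 m0 x1, k1p_0 r0 m0 x1, k1m_0 r0 m0 x1, k3p_0 r0 m0 x1, k3m_0 r0 m0 x1, kv_0 r0 m0 x1,
        b1p_0 r0 m0 x1, b1m_0 r0 m0 x1, b3p_0 r0 m0 x1, b3m_0 r0 m0 x1, lva_0 r0 m0 x1, l1p_0 r0 m0
          x1, l1m_0 r0 m0 x1, l3p_0 r0 m0 x1, l3m_0 r0 m0 x1, kwu_0 m0, kwl_0 m0, bwu_0 m0, bwl_0
            m0, xwu_0 m0, xwl_0 m0, kw0_0 m0, bw0_0 m0, xw0_0 m0]
  have b12 : R_t3b_c3_f.B12 0 0 m r = 0 := by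
    unfold RowF.B12
    rw [hU]
    simp only [R_t3b_c3_f, lva_wp, add_zero, zero_mul, mul_zero, neg_zero, sub_zero, Nat.cast_zero,
      ku_0 r0 m0 x1, k1p_0 r0 m0 x1, k1m_0 r0 m0 x1, k3p_0 r0 m0 x1, k3m_0 r0 m0 x1, kv_0 r0 m0 x1,
        b1p_0 r0 m0 x1, b1m_0 r0 m0 x1, b3p_0 r0 m0 x1, b3m_0 r0 m0 x1, lva_0 r0 m0 x1, l1p_0 r0 m0
          x1, l1m_0 r0 m0 x1, l3p_0 r0 m0 x1, l3m_0 r0 m0 x1, kwu_0 m0, kwl_0 m0, bwu_0 m0, bwl_0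
            m0, xwu_0 m0, xwl_0 m0, kw0_0 m0, bw0_0 m0, xw0_0 m0]
  have k23 : R_t3b_c3_f.K23 0 0 m r = 0 := by
    unfold RowF.K23
    rw [hU]
    simp only [R_t3b_c3_f, tkP1W_zp, add_zero, zero_mul, neg_zero, sub_zero,
      ku_0 r0 m0 x1, k1p_0 r0 m0 x1, k1m_0 r0 m0 x1, k3p_0 r0 m0 x1, k3m_0 r0 m0 x1, kv_0 r0 m0 x1,
        b1p_0 r0 m0 x1, b1m_0 r0 m0 x1, b3p_0 r0 m0 x1, b3m_0 r0 m0 x1, lva_0 r0 m0 x1, l1p_0 r0 m0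
          x1, l1m_0 r0 m0 x1, l3p_0 r0 m0 x1, l3m_0 r0 m0 x1, kwu_0 m0, kwl_0 m0, bwu_0 m0, bwl_0
            m0, xwu_0 m0, xwl_0 m0, kw0_0 m0, bw0_0 m0, xw0_0 m0]
  have a23 : R_t3b_c3_f.A23 0 0 m r = 0 := by
    unfold RowF.A23
    rw [hU]
    simp only [R_t3b_c3_f, taP1W_zp, add_zero, zero_mul, mul_zero, neg_zero, sub_zero,
      Nat.cast_zero,
      ku_0 r0 m0 x1, k1p_0 r0 m0 x1, k1m_0 r0 m0 x1, k3p_0 r0 m0 x1, k3m_0 r0 m0 x1, kv_0 r0 m0 x1,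
        b1p_0 r0 m0 x1, b1m_0 r0 m0 x1, b3p_0 r0 m0 x1, b3m_0 r0 m0 x1, lva_0 r0 m0 x1, l1p_0 r0 m0
          x1, l1m_0 r0 m0 x1, l3p_0 r0 m0 x1, l3m_0 r0 m0 x1, kwu_0 m0, kwl_0 m0, bwu_0 m0, bwl_0
            m0, xwu_0 m0, xwl_0 m0, kw0_0 m0, bw0_0 m0, xw0_0 m0]
  have b23 : R_t3b_c3_f.B23 0 0 m r = 0 := by
    unfold RowF.B23
    rw [hU]
    simp only [R_t3b_c3_f, tcP1W_zp, add_zero, zero_mul, mul_zero, neg_zero, sub_zero,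
      Nat.cast_zero,
      ku_0 r0 m0 x1, k1p_0 r0 m0 x1, k1m_0 r0 m0 x1, k3p_0 r0 m0 x1, k3m_0 r0 m0 x1, kv_0 r0 m0 x1,
        b1p_0 r0 m0 x1, b1m_0 r0 m0 x1, b3p_0 r0 m0 x1, b3m_0 r0 m0 x1, lva_0 r0 m0 x1, l1p_0 r0 m0
          x1, l1m_0 r0 m0 x1, l3p_0 r0 m0 x1, l3m_0 r0 m0 x1, kwu_0 m0, kwl_0 m0, bwu_0 m0, bwl_0
            m0, xwu_0 m0, xwl_0 m0, kw0_0 m0, bw0_0 m0, xw0_0 m0]
  have k13 : R_t3b_c3_f.K13 0 0 m r = 0 := by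
    unfold RowF.K13
    rw [hU]
    simp only [R_t3b_c3_f, k3p_tp, add_zero, zero_mul, neg_zero, sub_zero,
      ku_0 r0 m0 x1, k1p_0 r0 m0 x1, k1m_0 r0 m0 x1, k3p_0 r0 m0 x1, k3m_0 r0 m0 x1, kv_0 r0 m0 x1,
        b1p_0 r0 m0 x1, b1m_0 r0 m0 x1, b3p_0 r0 m0 x1, b3m_0 r0 m0 x1, lva_0 r0 m0 x1, l1p_0 r0 m0
          x1, l1m_0 r0 m0 x1, l3p_0 r0 m0 x1, l3m_0 r0 m0 x1, kwu_0 m0, kwl_0 m0, bwu_0 m0, bwl_0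
            m0, xwu_0 m0, xwl_0 m0, kw0_0 m0, bw0_0 m0, xw0_0 m0]
  have a13 : R_t3b_c3_f.A13 0 0 m r = 0 := by
    unfold RowF.A13
    rw [hU]
    simp only [R_t3b_c3_f, zr7, add_zero, zero_mul, mul_zero, neg_zero, sub_zero, Nat.cast_zero,
      ku_0 r0 m0 x1, k1p_0 r0 m0 x1, k1m_0 r0 m0 x1, k3p_0 r0 m0 x1, k3m_0 r0 m0 x1, kv_0 r0 m0 x1,
        b1p_0 r0 m0 x1, b1m_0 r0 m0 x1, b3p_0 r0 m0 x1, b3m_0 r0 m0 x1, lva_0 r0 m0 x1, l1p_0 r0 m0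
          x1, l1m_0 r0 m0 x1, l3p_0 r0 m0 x1, l3m_0 r0 m0 x1, kwu_0 m0, kwl_0 m0, bwu_0 m0, bwl_0
            m0, xwu_0 m0, xwl_0 m0, kw0_0 m0, bw0_0 m0, xw0_0 m0]
  have b13 : R_t3b_c3_f.B13 0 0 m r = 0 := by
    unfold RowF.B13
    rw [hU]
    simp only [R_t3b_c3_f, l3p_tp, add_zero, zero_mul, mul_zero, neg_zero, sub_zero, Nat.cast_zero,
      ku_0 r0 m0 x1, k1p_0 r0 m0 x1, k1m_0 r0 m0 x1, k3p_0 r0 m0 x1, k3m_0 r0 m0 x1, kv_0 r0 m0 x1,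
        b1p_0 r0 m0 x1, b1m_0 r0 m0 x1, b3p_0 r0 m0 x1, b3m_0 r0 m0 x1, lva_0 r0 m0 x1, l1p_0 r0 m0
          x1, l1m_0 r0 m0 x1, l3p_0 r0 m0 x1, l3m_0 r0 m0 x1, kwu_0 m0, kwl_0 m0, bwu_0 m0, bwl_0
            m0, xwu_0 m0, xwl_0 m0, kw0_0 m0, bw0_0 m0, xw0_0 m0]
  have hD : R_t3b_c3_f.DL 0 0 m r = 0 := by
    unfold RowF.DL
    rw [dln_val, k12, k23, k13]
    ring
  have hN : R_t3b_c3_f.NF 0 0 m r = r * 0 := by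
    simp only [RowF.NF, R_t3b_c3_f, nff_T2p]
    push_cast
    ring
  have hG : R_t3b_c3_f.GM 0 0 m r = -0 := by
    unfold RowF.GM
    rw [k12, k23, k13]
    show gm1.v _ _ _ _ _ _ = _
    rw [gm1_val]
    ring
  have hb : R_t3b_c3_f.NU 0 0 m r / r + R_t3b_c3_f.BS 0 0 m r = -0 + 0 := by
    simp only [RowF.NU, RowF.BS, R_t3b_c3_f, nuf_T2p, bs_T2p_BQ3pf, om_val, zx_val, xi1_val,
      xi3_val, xiw_val, add_zero, xi1_0, xi3_0, xiw_0, om_0]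
    simp
  have v1 : 0 ≤ R_t3b_c3_f.V1A 0 0 m r / r + R_t3b_c3_f.V1B 0 0 m r := by
    unfold RowF.V1A RowF.V1B
    rw [a12, a23, a13, b12, b23, b13]
    simp only [R_t3b_c3_f, vf1_val]
    simp
  have v2 : 0 ≤ R_t3b_c3_f.V2A 0 0 m r / r + R_t3b_c3_f.V2B 0 0 m r := by
    unfold RowF.V2A RowF.V2B
    rw [a12, a23, a13, b12, b23, b13]
    simp only [R_t3b_c3_f, vf2_val]
    simp
  exact sb_core r0 m0 x1 hU hD hN hG hb le_rfl (Or.inr rfl) v1 v2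

theorem cb_t3b_c3_n {m r : ℝ} (r0 : 0 < r) (m0 : 0 < m) (x1 : m * r ≤ 1 / 40) :
    SBase R_t3b_c3_n 0 0 m r 0 := by
  have hU : R_t3b_c3_n.U 0 0 m r = 0 := by
    simp only [RowF.U, R_t3b_c3_n, u_T2p_B_Q3p_P1W, zx_val, xi1_val, xi3_val, xiw_val, xw0p_val,
      add_zero, xi1_0, xi3_0, xiw_0, om_0, neg_zero]
    simp
  have k12 : R_t3b_c3_n.K12 0 0 m r = 0 := by
    unfold RowF.K12
    rw [hU]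
    simp only [R_t3b_c3_n, nku_wp, ku_wp, kv_wp, add_zero, zero_mul, neg_zero, sub_zero, nkf_0,
      ku_0 r0 m0 x1, k1p_0 r0 m0 x1, k1m_0 r0 m0 x1, k3p_0 r0 m0 x1, k3m_0 r0 m0 x1, kv_0 r0 m0 x1,
        b1p_0 r0 m0 x1, b1m_0 r0 m0 x1, b3p_0 r0 m0 x1, b3m_0 r0 m0 x1, lva_0 r0 m0 x1, l1p_0 r0 m0
          x1, l1m_0 r0 m0 x1, l3p_0 r0 m0 x1, l3m_0 r0 m0 x1, kwu_0 m0, kwl_0 m0, bwu_0 m0, bwl_0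
            m0, xwu_0 m0, xwl_0 m0, kw0_0 m0, bw0_0 m0, xw0_0 m0]
  have a12 : R_t3b_c3_n.A12 0 0 m r = 0 := by
    unfold RowF.A12
    rw [hU]
    simp only [R_t3b_c3_n, zr7, add_zero, zero_mul, mul_zero, neg_zero, sub_zero, Nat.cast_zero,
      ku_0 r0 m0 x1, k1p_0 r0 m0 x1, k1m_0 r0 m0 x1, k3p_0 r0 m0 x1, k3m_0 r0 m0 x1, kv_0 r0 m0 x1,
        b1p_0 r0 m0 x1, b1m_0 r0 m0 x1, b3p_0 r0 m0 x1, b3m_0 r0 m0 x1, lva_0 r0 m0 x1, l1p_0 r0 m0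
          x1, l1m_0 r0 m0 x1, l3p_0 r0 m0 x1, l3m_0 r0 m0 x1, kwu_0 m0, kwl_0 m0, bwu_0 m0, bwl_0
            m0, xwu_0 m0, xwl_0 m0, kw0_0 m0, bw0_0 m0, xw0_0 m0]
  have b12 : R_t3b_c3_n.B12 0 0 m r = 0 := by
    unfold RowF.B12
    rw [hU]
    simp only [R_t3b_c3_n, lva_wp, add_zero, zero_mul, mul_zero, neg_zero, sub_zero, Nat.cast_zero,
      ku_0 r0 m0 x1, k1p_0 r0 m0 x1, k1m_0 r0 m0 x1, k3p_0 r0 m0 x1, k3m_0 r0 m0 x1, kv_0 r0 m0 x1,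
        b1p_0 r0 m0 x1, b1m_0 r0 m0 x1, b3p_0 r0 m0 x1, b3m_0 r0 m0 x1, lva_0 r0 m0 x1, l1p_0 r0 m0
          x1, l1m_0 r0 m0 x1, l3p_0 r0 m0 x1, l3m_0 r0 m0 x1, kwu_0 m0, kwl_0 m0, bwu_0 m0, bwl_0
            m0, xwu_0 m0, xwl_0 m0, kw0_0 m0, bw0_0 m0, xw0_0 m0]
  have k23 : R_t3b_c3_n.K23 0 0 m r = 0 := by
    unfold RowF.K23
    rw [hU]
    simp only [R_t3b_c3_n, ntkP1W_zp, tkP1W_zp, tbP1W_zp, add_zero, zero_mul, neg_zero, sub_zero,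
      nkf_0,
      ku_0 r0 m0 x1, k1p_0 r0 m0 x1, k1m_0 r0 m0 x1, k3p_0 r0 m0 x1, k3m_0 r0 m0 x1, kv_0 r0 m0 x1,
        b1p_0 r0 m0 x1, b1m_0 r0 m0 x1, b3p_0 r0 m0 x1, b3m_0 r0 m0 x1, lva_0 r0 m0 x1, l1p_0 r0 m0
          x1, l1m_0 r0 m0 x1, l3p_0 r0 m0 x1, l3m_0 r0 m0 x1, kwu_0 m0, kwl_0 m0, bwu_0 m0, bwl_0
            m0, xwu_0 m0, xwl_0 m0, kw0_0 m0, bw0_0 m0, xw0_0 m0]
  have a23 : R_t3b_c3_n.A23 0 0 m r = 0 := by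
    unfold RowF.A23
    rw [hU]
    simp only [R_t3b_c3_n, taP1W_zp, add_zero, zero_mul, mul_zero, neg_zero, sub_zero,
      Nat.cast_zero,
      ku_0 r0 m0 x1, k1p_0 r0 m0 x1, k1m_0 r0 m0 x1, k3p_0 r0 m0 x1, k3m_0 r0 m0 x1, kv_0 r0 m0 x1,
        b1p_0 r0 m0 x1, b1m_0 r0 m0 x1, b3p_0 r0 m0 x1, b3m_0 r0 m0 x1, lva_0 r0 m0 x1, l1p_0 r0 m0
          x1, l1m_0 r0 m0 x1, l3p_0 r0 m0 x1, l3m_0 r0 m0 x1, kwu_0 m0, kwl_0 m0, bwu_0 m0, bwl_0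
            m0, xwu_0 m0, xwl_0 m0, kw0_0 m0, bw0_0 m0, xw0_0 m0]
  have b23 : R_t3b_c3_n.B23 0 0 m r = 0 := by
    unfold RowF.B23
    rw [hU]
    simp only [R_t3b_c3_n, tcP1W_zp, add_zero, zero_mul, mul_zero, neg_zero, sub_zero,
      Nat.cast_zero,
      ku_0 r0 m0 x1, k1p_0 r0 m0 x1, k1m_0 r0 m0 x1, k3p_0 r0 m0 x1, k3m_0 r0 m0 x1, kv_0 r0 m0 x1,
        b1p_0 r0 m0 x1, b1m_0 r0 m0 x1, b3p_0 r0 m0 x1, b3m_0 r0 m0 x1, lva_0 r0 m0 x1, l1p_0 r0 m0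
          x1, l1m_0 r0 m0 x1, l3p_0 r0 m0 x1, l3m_0 r0 m0 x1, kwu_0 m0, kwl_0 m0, bwu_0 m0, bwl_0
            m0, xwu_0 m0, xwl_0 m0, kw0_0 m0, bw0_0 m0, xw0_0 m0]
  have k13 : R_t3b_c3_n.K13 0 0 m r = 0 := by
    unfold RowF.K13
    rw [hU]
    simp only [R_t3b_c3_n, nk3p_tp, k3p_tp, b3p_tp, add_zero, zero_mul, neg_zero, sub_zero, nkf_0,
      ku_0 r0 m0 x1, k1p_0 r0 m0 x1, k1m_0 r0 m0 x1, k3p_0 r0 m0 x1, k3m_0 r0 m0 x1, kv_0 r0 m0 x1,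
        b1p_0 r0 m0 x1, b1m_0 r0 m0 x1, b3p_0 r0 m0 x1, b3m_0 r0 m0 x1, lva_0 r0 m0 x1, l1p_0 r0 m0
          x1, l1m_0 r0 m0 x1, l3p_0 r0 m0 x1, l3m_0 r0 m0 x1, kwu_0 m0, kwl_0 m0, bwu_0 m0, bwl_0
            m0, xwu_0 m0, xwl_0 m0, kw0_0 m0, bw0_0 m0, xw0_0 m0]
  have a13 : R_t3b_c3_n.A13 0 0 m r = 0 := by
    unfold RowF.A13
    rw [hU]
    simp only [R_t3b_c3_n, zr7, add_zero, zero_mul, mul_zero, neg_zero, sub_zero, Nat.cast_zero,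
      ku_0 r0 m0 x1, k1p_0 r0 m0 x1, k1m_0 r0 m0 x1, k3p_0 r0 m0 x1, k3m_0 r0 m0 x1, kv_0 r0 m0 x1,
        b1p_0 r0 m0 x1, b1m_0 r0 m0 x1, b3p_0 r0 m0 x1, b3m_0 r0 m0 x1, lva_0 r0 m0 x1, l1p_0 r0 m0
          x1, l1m_0 r0 m0 x1, l3p_0 r0 m0 x1, l3m_0 r0 m0 x1, kwu_0 m0, kwl_0 m0, bwu_0 m0, bwl_0
            m0, xwu_0 m0, xwl_0 m0, kw0_0 m0, bw0_0 m0, xw0_0 m0]
  have b13 : R_t3b_c3_n.B13 0 0 m r = 0 := by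
    unfold RowF.B13
    rw [hU]
    simp only [R_t3b_c3_n, l3p_tp, add_zero, zero_mul, mul_zero, neg_zero, sub_zero, Nat.cast_zero,
      ku_0 r0 m0 x1, k1p_0 r0 m0 x1, k1m_0 r0 m0 x1, k3p_0 r0 m0 x1, k3m_0 r0 m0 x1, kv_0 r0 m0 x1,
        b1p_0 r0 m0 x1, b1m_0 r0 m0 x1, b3p_0 r0 m0 x1, b3m_0 r0 m0 x1, lva_0 r0 m0 x1, l1p_0 r0 m0
          x1, l1m_0 r0 m0 x1, l3p_0 r0 m0 x1, l3m_0 r0 m0 x1, kwu_0 m0, kwl_0 m0, bwu_0 m0, bwl_0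
            m0, xwu_0 m0, xwl_0 m0, kw0_0 m0, bw0_0 m0, xw0_0 m0]
  have hD : R_t3b_c3_n.DL 0 0 m r = 0 := by
    unfold RowF.DL
    rw [dln_val, k12, k23, k13]
    ring
  have hN : R_t3b_c3_n.NF 0 0 m r = r * 0 := by
    simp only [RowF.NF, R_t3b_c3_n, nfn_T2p]
    push_cast
    ring
  have hG : R_t3b_c3_n.GM 0 0 m r = -0 := by
    unfold RowF.GM
    rw [k12, k23, k13]
    show gm1.v _ _ _ _ _ _ = _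
    rw [gm1_val]
    ring
  have hb : R_t3b_c3_n.NU 0 0 m r / r + R_t3b_c3_n.BS 0 0 m r = -0 + 0 := by
    simp only [RowF.NU, RowF.BS, R_t3b_c3_n, nun_T2p, bs_T2p_BQ3pn, om_val, zx_val, xi1_val,
      xi3_val, xiw_val, add_zero, xi1_0, xi3_0, xiw_0, om_0]
    simp
  have v1 : 0 ≤ R_t3b_c3_n.V1A 0 0 m r / r + R_t3b_c3_n.V1B 0 0 m r := by
    unfold RowF.V1A RowF.V1B
    rw [a12, a23, a13, b12, b23, b13]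
    simp only [R_t3b_c3_n, ml1_val]
    simp
  have v2 : 0 ≤ R_t3b_c3_n.V2A 0 0 m r / r + R_t3b_c3_n.V2B 0 0 m r := by
    unfold RowF.V2A RowF.V2B
    rw [a12, a23, a13, b12, b23, b13]
    simp only [R_t3b_c3_n, ml2_val]
    simp
  exact sb_core r0 m0 x1 hU hD hN hG hb le_rfl (Or.inr rfl) v1 v2

theorem cb_u1_p_f {m r : ℝ} (r0 : 0 < r) (m0 : 0 < m) (x1 : m * r ≤ 1 / 40) :
    SBase R_u1_p_f 0 0 m r 0 := by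
  have hU : R_u1_p_f.U 0 0 m r = 0 := by
    simp only [RowF.U, R_u1_p_f, u_T1_U_P1p_O1W, zx_val, xi1_val, xi3_val, xiw_val, xw0p_val,
      add_zero, xi1_0, xi3_0, xiw_0, om_0, neg_zero]
    simp
  have k12 : R_u1_p_f.K12 0 0 m r = 0 := by
    unfold RowF.K12
    rw [hU]
    simp only [R_u1_p_f, tkO1W_wp, add_zero, zero_mul, neg_zero, sub_zero,
      ku_0 r0 m0 x1, k1p_0 r0 m0 x1, k1m_0 r0 m0 x1, k3p_0 r0 m0 x1, k3m_0 r0 m0 x1, kv_0 r0 m0 x1,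
        b1p_0 r0 m0 x1, b1m_0 r0 m0 x1, b3p_0 r0 m0 x1, b3m_0 r0 m0 x1, lva_0 r0 m0 x1, l1p_0 r0 m0
          x1, l1m_0 r0 m0 x1, l3p_0 r0 m0 x1, l3m_0 r0 m0 x1, kwu_0 m0, kwl_0 m0, bwu_0 m0, bwl_0
            m0, xwu_0 m0, xwl_0 m0, kw0_0 m0, bw0_0 m0, xw0_0 m0]
  have a12 : R_u1_p_f.A12 0 0 m r = 0 := by
    unfold RowF.A12
    rw [hU]
    simp only [R_u1_p_f, taO1W_wp, add_zero, zero_mul, mul_zero, neg_zero, sub_zero, Nat.cast_zero,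
      ku_0 r0 m0 x1, k1p_0 r0 m0 x1, k1m_0 r0 m0 x1, k3p_0 r0 m0 x1, k3m_0 r0 m0 x1, kv_0 r0 m0 x1,
        b1p_0 r0 m0 x1, b1m_0 r0 m0 x1, b3p_0 r0 m0 x1, b3m_0 r0 m0 x1, lva_0 r0 m0 x1, l1p_0 r0 m0
          x1, l1m_0 r0 m0 x1, l3p_0 r0 m0 x1, l3m_0 r0 m0 x1, kwu_0 m0, kwl_0 m0, bwu_0 m0, bwl_0
            m0, xwu_0 m0, xwl_0 m0, kw0_0 m0, bw0_0 m0, xw0_0 m0]
  have b12 : R_u1_p_f.B12 0 0 m r = 0 := by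
    unfold RowF.B12
    rw [hU]
    simp only [R_u1_p_f, tcO1W_wp, add_zero, zero_mul, mul_zero, neg_zero, sub_zero, Nat.cast_zero,
      ku_0 r0 m0 x1, k1p_0 r0 m0 x1, k1m_0 r0 m0 x1, k3p_0 r0 m0 x1, k3m_0 r0 m0 x1, kv_0 r0 m0 x1,
        b1p_0 r0 m0 x1, b1m_0 r0 m0 x1, b3p_0 r0 m0 x1, b3m_0 r0 m0 x1, lva_0 r0 m0 x1, l1p_0 r0 m0
          x1, l1m_0 r0 m0 x1, l3p_0 r0 m0 x1, l3m_0 r0 m0 x1, kwu_0 m0, kwl_0 m0, bwu_0 m0, bwl_0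
            m0, xwu_0 m0, xwl_0 m0, kw0_0 m0, bw0_0 m0, xw0_0 m0]
  have k23 : R_u1_p_f.K23 0 0 m r = 0 := by
    unfold RowF.K23
    rw [hU]
    simp only [R_u1_p_f, k1m_zn, add_zero, zero_mul, neg_zero, sub_zero,
      ku_0 r0 m0 x1, k1p_0 r0 m0 x1, k1m_0 r0 m0 x1, k3p_0 r0 m0 x1, k3m_0 r0 m0 x1, kv_0 r0 m0 x1,
        b1p_0 r0 m0 x1, b1m_0 r0 m0 x1, b3p_0 r0 m0 x1, b3m_0 r0 m0 x1, lva_0 r0 m0 x1, l1p_0 r0 m0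
          x1, l1m_0 r0 m0 x1, l3p_0 r0 m0 x1, l3m_0 r0 m0 x1, kwu_0 m0, kwl_0 m0, bwu_0 m0, bwl_0
            m0, xwu_0 m0, xwl_0 m0, kw0_0 m0, bw0_0 m0, xw0_0 m0]
  have a23 : R_u1_p_f.A23 0 0 m r = 0 := by
    unfold RowF.A23
    rw [hU]
    simp only [R_u1_p_f, zr7, add_zero, zero_mul, mul_zero, neg_zero, sub_zero, Nat.cast_zero,
      ku_0 r0 m0 x1, k1p_0 r0 m0 x1, k1m_0 r0 m0 x1, k3p_0 r0 m0 x1, k3m_0 r0 m0 x1, kv_0 r0 m0 x1,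
        b1p_0 r0 m0 x1, b1m_0 r0 m0 x1, b3p_0 r0 m0 x1, b3m_0 r0 m0 x1, lva_0 r0 m0 x1, l1p_0 r0 m0
          x1, l1m_0 r0 m0 x1, l3p_0 r0 m0 x1, l3m_0 r0 m0 x1, kwu_0 m0, kwl_0 m0, bwu_0 m0, bwl_0
            m0, xwu_0 m0, xwl_0 m0, kw0_0 m0, bw0_0 m0, xw0_0 m0]
  have b23 : R_u1_p_f.B23 0 0 m r = 0 := by
    unfold RowF.B23
    rw [hU]
    simp only [R_u1_p_f, l1m_zn, add_zero, zero_mul, mul_zero, neg_zero, sub_zero, Nat.cast_zero,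
      ku_0 r0 m0 x1, k1p_0 r0 m0 x1, k1m_0 r0 m0 x1, k3p_0 r0 m0 x1, k3m_0 r0 m0 x1, kv_0 r0 m0 x1,
        b1p_0 r0 m0 x1, b1m_0 r0 m0 x1, b3p_0 r0 m0 x1, b3m_0 r0 m0 x1, lva_0 r0 m0 x1, l1p_0 r0 m0
          x1, l1m_0 r0 m0 x1, l3p_0 r0 m0 x1, l3m_0 r0 m0 x1, kwu_0 m0, kwl_0 m0, bwu_0 m0, bwl_0
            m0, xwu_0 m0, xwl_0 m0, kw0_0 m0, bw0_0 m0, xw0_0 m0]
  have k13 : R_u1_p_f.K13 0 0 m r = 0 := by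
    unfold RowF.K13
    rw [hU]
    simp only [R_u1_p_f, k1p_tp, add_zero, zero_mul, neg_zero, sub_zero,
      ku_0 r0 m0 x1, k1p_0 r0 m0 x1, k1m_0 r0 m0 x1, k3p_0 r0 m0 x1, k3m_0 r0 m0 x1, kv_0 r0 m0 x1,
        b1p_0 r0 m0 x1, b1m_0 r0 m0 x1, b3p_0 r0 m0 x1, b3m_0 r0 m0 x1, lva_0 r0 m0 x1, l1p_0 r0 m0
          x1, l1m_0 r0 m0 x1, l3p_0 r0 m0 x1, l3m_0 r0 m0 x1, kwu_0 m0, kwl_0 m0, bwu_0 m0, bwl_0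
            m0, xwu_0 m0, xwl_0 m0, kw0_0 m0, bw0_0 m0, xw0_0 m0]
  have a13 : R_u1_p_f.A13 0 0 m r = 0 := by
    unfold RowF.A13
    rw [hU]
    simp only [R_u1_p_f, zr7, add_zero, zero_mul, mul_zero, neg_zero, sub_zero, Nat.cast_zero,
      ku_0 r0 m0 x1, k1p_0 r0 m0 x1, k1m_0 r0 m0 x1, k3p_0 r0 m0 x1, k3m_0 r0 m0 x1, kv_0 r0 m0 x1,
        b1p_0 r0 m0 x1, b1m_0 r0 m0 x1, b3p_0 r0 m0 x1, b3m_0 r0 m0 x1, lva_0 r0 m0 x1, l1p_0 r0 m0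
          x1, l1m_0 r0 m0 x1, l3p_0 r0 m0 x1, l3m_0 r0 m0 x1, kwu_0 m0, kwl_0 m0, bwu_0 m0, bwl_0
            m0, xwu_0 m0, xwl_0 m0, kw0_0 m0, bw0_0 m0, xw0_0 m0]
  have b13 : R_u1_p_f.B13 0 0 m r = 0 := by
    unfold RowF.B13
    rw [hU]
    simp only [R_u1_p_f, l1p_tp, add_zero, zero_mul, mul_zero, neg_zero, sub_zero, Nat.cast_zero,
      ku_0 r0 m0 x1, k1p_0 r0 m0 x1, k1m_0 r0 m0 x1, k3p_0 r0 m0 x1, k3m_0 r0 m0 x1, kv_0 r0 m0 x1,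
        b1p_0 r0 m0 x1, b1m_0 r0 m0 x1, b3p_0 r0 m0 x1, b3m_0 r0 m0 x1, lva_0 r0 m0 x1, l1p_0 r0 m0
          x1, l1m_0 r0 m0 x1, l3p_0 r0 m0 x1, l3m_0 r0 m0 x1, kwu_0 m0, kwl_0 m0, bwu_0 m0, bwl_0
            m0, xwu_0 m0, xwl_0 m0, kw0_0 m0, bw0_0 m0, xw0_0 m0]
  have hD : R_u1_p_f.DL 0 0 m r = 0 := by
    unfold RowF.DL
    rw [dln_val, k12, k23, k13]
    ring
  have hN : R_u1_p_f.NF 0 0 m r = r * 0 := by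
    simp only [RowF.NF, R_u1_p_f, nff_T1]
    push_cast
    ring
  have hG : R_u1_p_f.GM 0 0 m r = -0 := by
    unfold RowF.GM
    rw [k12, k23, k13]
    show gm2.v _ _ _ _ _ _ = _
    rw [gm2_val]
    ring
  have hb : R_u1_p_f.NU 0 0 m r / r + R_u1_p_f.BS 0 0 m r = -0 + 0 := by
    simp only [RowF.NU, RowF.BS, R_u1_p_f, nu0, bs_T1_Uf, om_val, zx_val, xi1_val, xi3_val,
      xiw_val, add_zero, xi1_0, xi3_0, xiw_0, om_0]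
    simp
  have v1 : 0 ≤ R_u1_p_f.V1A 0 0 m r / r + R_u1_p_f.V1B 0 0 m r := by
    unfold RowF.V1A RowF.V1B
    rw [a12, a23, a13, b12, b23, b13]
    simp only [R_u1_p_f, vf1_val]
    simp
  have v2 : 0 ≤ R_u1_p_f.V2A 0 0 m r / r + R_u1_p_f.V2B 0 0 m r := by
    unfold RowF.V2A RowF.V2B
    rw [a12, a23, a13, b12, b23, b13]
    simp only [R_u1_p_f, vf2_val]
    simp
  exact sb_core r0 m0 x1 hU hD hN hG hb le_rfl (Or.inr rfl) v1 v2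

theorem cb_u1_p_n {m r : ℝ} (r0 : 0 < r) (m0 : 0 < m) (x1 : m * r ≤ 1 / 40) :
    SBase R_u1_p_n 0 0 m r 0 := by
  have hU : R_u1_p_n.U 0 0 m r = 0 := by
    simp only [RowF.U, R_u1_p_n, u_T1_U_P1p_O1W, zx_val, xi1_val, xi3_val, xiw_val, xw0p_val,
      add_zero, xi1_0, xi3_0, xiw_0, om_0, neg_zero]
    simp
  have k12 : R_u1_p_n.K12 0 0 m r = 0 := by
    unfold RowF.K12
    rw [hU]
    simp only [R_u1_p_n, ntkO1W_wp, tkO1W_wp, tbO1W_wp, add_zero, zero_mul, neg_zero, sub_zero,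
      nkf_0,
      ku_0 r0 m0 x1, k1p_0 r0 m0 x1, k1m_0 r0 m0 x1, k3p_0 r0 m0 x1, k3m_0 r0 m0 x1, kv_0 r0 m0 x1,
        b1p_0 r0 m0 x1, b1m_0 r0 m0 x1, b3p_0 r0 m0 x1, b3m_0 r0 m0 x1, lva_0 r0 m0 x1, l1p_0 r0 m0
          x1, l1m_0 r0 m0 x1, l3p_0 r0 m0 x1, l3m_0 r0 m0 x1, kwu_0 m0, kwl_0 m0, bwu_0 m0, bwl_0
            m0, xwu_0 m0, xwl_0 m0, kw0_0 m0, bw0_0 m0, xw0_0 m0]
  have a12 : R_u1_p_n.A12 0 0 m r = 0 := by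
    unfold RowF.A12
    rw [hU]
    simp only [R_u1_p_n, taO1W_wp, add_zero, zero_mul, mul_zero, neg_zero, sub_zero, Nat.cast_zero,
      ku_0 r0 m0 x1, k1p_0 r0 m0 x1, k1m_0 r0 m0 x1, k3p_0 r0 m0 x1, k3m_0 r0 m0 x1, kv_0 r0 m0 x1,
        b1p_0 r0 m0 x1, b1m_0 r0 m0 x1, b3p_0 r0 m0 x1, b3m_0 r0 m0 x1, lva_0 r0 m0 x1, l1p_0 r0 m0
          x1, l1m_0 r0 m0 x1, l3p_0 r0 m0 x1, l3m_0 r0 m0 x1, kwu_0 m0, kwl_0 m0, bwu_0 m0, bwl_0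
            m0, xwu_0 m0, xwl_0 m0, kw0_0 m0, bw0_0 m0, xw0_0 m0]
  have b12 : R_u1_p_n.B12 0 0 m r = 0 := by
    unfold RowF.B12
    rw [hU]
    simp only [R_u1_p_n, tcO1W_wp, add_zero, zero_mul, mul_zero, neg_zero, sub_zero, Nat.cast_zero,
      ku_0 r0 m0 x1, k1p_0 r0 m0 x1, k1m_0 r0 m0 x1, k3p_0 r0 m0 x1, k3m_0 r0 m0 x1, kv_0 r0 m0 x1,
        b1p_0 r0 m0 x1, b1m_0 r0 m0 x1, b3p_0 r0 m0 x1, b3m_0 r0 m0 x1, lva_0 r0 m0 x1, l1p_0 r0 m0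
          x1, l1m_0 r0 m0 x1, l3p_0 r0 m0 x1, l3m_0 r0 m0 x1, kwu_0 m0, kwl_0 m0, bwu_0 m0, bwl_0
            m0, xwu_0 m0, xwl_0 m0, kw0_0 m0, bw0_0 m0, xw0_0 m0]
  have k23 : R_u1_p_n.K23 0 0 m r = 0 := by
    unfold RowF.K23
    rw [hU]
    simp only [R_u1_p_n, nk1m_zn, k1m_zn, b1m_zn, add_zero, zero_mul, neg_zero, sub_zero, nkf_0,
      ku_0 r0 m0 x1, k1p_0 r0 m0 x1, k1m_0 r0 m0 x1, k3p_0 r0 m0 x1, k3m_0 r0 m0 x1, kv_0 r0 m0 x1,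
        b1p_0 r0 m0 x1, b1m_0 r0 m0 x1, b3p_0 r0 m0 x1, b3m_0 r0 m0 x1, lva_0 r0 m0 x1, l1p_0 r0 m0
          x1, l1m_0 r0 m0 x1, l3p_0 r0 m0 x1, l3m_0 r0 m0 x1, kwu_0 m0, kwl_0 m0, bwu_0 m0, bwl_0
            m0, xwu_0 m0, xwl_0 m0, kw0_0 m0, bw0_0 m0, xw0_0 m0]
  have a23 : R_u1_p_n.A23 0 0 m r = 0 := by
    unfold RowF.A23
    rw [hU]
    simp only [R_u1_p_n, zr7, add_zero, zero_mul, mul_zero, neg_zero, sub_zero, Nat.cast_zero,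
      ku_0 r0 m0 x1, k1p_0 r0 m0 x1, k1m_0 r0 m0 x1, k3p_0 r0 m0 x1, k3m_0 r0 m0 x1, kv_0 r0 m0 x1,
        b1p_0 r0 m0 x1, b1m_0 r0 m0 x1, b3p_0 r0 m0 x1, b3m_0 r0 m0 x1, lva_0 r0 m0 x1, l1p_0 r0 m0
          x1, l1m_0 r0 m0 x1, l3p_0 r0 m0 x1, l3m_0 r0 m0 x1, kwu_0 m0, kwl_0 m0, bwu_0 m0, bwl_0
            m0, xwu_0 m0, xwl_0 m0, kw0_0 m0, bw0_0 m0, xw0_0 m0]
  have b23 : R_u1_p_n.B23 0 0 m r = 0 := by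
    unfold RowF.B23
    rw [hU]
    simp only [R_u1_p_n, l1m_zn, add_zero, zero_mul, mul_zero, neg_zero, sub_zero, Nat.cast_zero,
      ku_0 r0 m0 x1, k1p_0 r0 m0 x1, k1m_0 r0 m0 x1, k3p_0 r0 m0 x1, k3m_0 r0 m0 x1, kv_0 r0 m0 x1,
        b1p_0 r0 m0 x1, b1m_0 r0 m0 x1, b3p_0 r0 m0 x1, b3m_0 r0 m0 x1, lva_0 r0 m0 x1, l1p_0 r0 m0
          x1, l1m_0 r0 m0 x1, l3p_0 r0 m0 x1, l3m_0 r0 m0 x1, kwu_0 m0, kwl_0 m0, bwu_0 m0, bwl_0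
            m0, xwu_0 m0, xwl_0 m0, kw0_0 m0, bw0_0 m0, xw0_0 m0]
  have k13 : R_u1_p_n.K13 0 0 m r = 0 := by
    unfold RowF.K13
    rw [hU]
    simp only [R_u1_p_n, nk1p_tp, k1p_tp, b1p_tp, add_zero, zero_mul, neg_zero, sub_zero, nkf_0,
      ku_0 r0 m0 x1, k1p_0 r0 m0 x1, k1m_0 r0 m0 x1, k3p_0 r0 m0 x1, k3m_0 r0 m0 x1, kv_0 r0 m0 x1,
        b1p_0 r0 m0 x1, b1m_0 r0 m0 x1, b3p_0 r0 m0 x1, b3m_0 r0 m0 x1, lva_0 r0 m0 x1, l1p_0 r0 m0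
          x1, l1m_0 r0 m0 x1, l3p_0 r0 m0 x1, l3m_0 r0 m0 x1, kwu_0 m0, kwl_0 m0, bwu_0 m0, bwl_0
            m0, xwu_0 m0, xwl_0 m0, kw0_0 m0, bw0_0 m0, xw0_0 m0]
  have a13 : R_u1_p_n.A13 0 0 m r = 0 := by
    unfold RowF.A13
    rw [hU]
    simp only [R_u1_p_n, zr7, add_zero, zero_mul, mul_zero, neg_zero, sub_zero, Nat.cast_zero,
      ku_0 r0 m0 x1, k1p_0 r0 m0 x1, k1m_0 r0 m0 x1, k3p_0 r0 m0 x1, k3m_0 r0 m0 x1, kv_0 r0 m0 x1,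
        b1p_0 r0 m0 x1, b1m_0 r0 m0 x1, b3p_0 r0 m0 x1, b3m_0 r0 m0 x1, lva_0 r0 m0 x1, l1p_0 r0 m0
          x1, l1m_0 r0 m0 x1, l3p_0 r0 m0 x1, l3m_0 r0 m0 x1, kwu_0 m0, kwl_0 m0, bwu_0 m0, bwl_0
            m0, xwu_0 m0, xwl_0 m0, kw0_0 m0, bw0_0 m0, xw0_0 m0]
  have b13 : R_u1_p_n.B13 0 0 m r = 0 := by
    unfold RowF.B13
    rw [hU]
    simp only [R_u1_p_n, l1p_tp, add_zero, zero_mul, mul_zero, neg_zero, sub_zero, Nat.cast_zero,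
      ku_0 r0 m0 x1, k1p_0 r0 m0 x1, k1m_0 r0 m0 x1, k3p_0 r0 m0 x1, k3m_0 r0 m0 x1, kv_0 r0 m0 x1,
        b1p_0 r0 m0 x1, b1m_0 r0 m0 x1, b3p_0 r0 m0 x1, b3m_0 r0 m0 x1, lva_0 r0 m0 x1, l1p_0 r0 m0
          x1, l1m_0 r0 m0 x1, l3p_0 r0 m0 x1, l3m_0 r0 m0 x1, kwu_0 m0, kwl_0 m0, bwu_0 m0, bwl_0
            m0, xwu_0 m0, xwl_0 m0, kw0_0 m0, bw0_0 m0, xw0_0 m0]
  have hD : R_u1_p_n.DL 0 0 m r = 0 := by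
    unfold RowF.DL
    rw [dln_val, k12, k23, k13]
    ring
  have hN : R_u1_p_n.NF 0 0 m r = r * 0 := by
    simp only [RowF.NF, R_u1_p_n, nfn_T1]
    push_cast
    ring
  have hG : R_u1_p_n.GM 0 0 m r = -0 := by
    unfold RowF.GM
    rw [k12, k23, k13]
    show gm2.v _ _ _ _ _ _ = _
    rw [gm2_val]
    ring
  have hb : R_u1_p_n.NU 0 0 m r / r + R_u1_p_n.BS 0 0 m r = -0 + 0 := by
    simp only [RowF.NU, RowF.BS, R_u1_p_n, nu0, bs_T1_Un, om_val, zx_val, xi1_val, xi3_val,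
      xiw_val, add_zero, xi1_0, xi3_0, xiw_0, om_0]
    simp
  have v1 : 0 ≤ R_u1_p_n.V1A 0 0 m r / r + R_u1_p_n.V1B 0 0 m r := by
    unfold RowF.V1A RowF.V1B
    rw [a12, a23, a13, b12, b23, b13]
    simp only [R_u1_p_n, ml1_val]
    simp
  have v2 : 0 ≤ R_u1_p_n.V2A 0 0 m r / r + R_u1_p_n.V2B 0 0 m r := by
    unfold RowF.V2A RowF.V2B
    rw [a12, a23, a13, b12, b23, b13]
    simp only [R_u1_p_n, ml2_val]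
    simp
  exact sb_core r0 m0 x1 hU hD hN hG hb le_rfl (Or.inr rfl) v1 v2

theorem cb_uq_n_f {m r : ℝ} (r0 : 0 < r) (m0 : 0 < m) (x1 : m * r ≤ 1 / 40) :
    SBase R_uq_n_f 0 0 m r 0 := by
  have hU : R_uq_n_f.U 0 0 m r = 0 := by
    simp only [RowF.U, R_uq_n_f, u_T1_U_P1m_OWq, zx_val, xi1_val, xi3_val, xiw_val, xw0p_val,
      add_zero, xi1_0, xi3_0, xiw_0, om_0, neg_zero]
    simp
  have k12 : R_uq_n_f.K12 0 0 m r = 0 := by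
    unfold RowF.K12
    rw [hU]
    simp only [R_uq_n_f, tkOWq_wp, add_zero, zero_mul, neg_zero, sub_zero,
      ku_0 r0 m0 x1, k1p_0 r0 m0 x1, k1m_0 r0 m0 x1, k3p_0 r0 m0 x1, k3m_0 r0 m0 x1, kv_0 r0 m0 x1,
        b1p_0 r0 m0 x1, b1m_0 r0 m0 x1, b3p_0 r0 m0 x1, b3m_0 r0 m0 x1, lva_0 r0 m0 x1, l1p_0 r0 m0
          x1, l1m_0 r0 m0 x1, l3p_0 r0 m0 x1, l3m_0 r0 m0 x1, kwu_0 m0, kwl_0 m0, bwu_0 m0, bwl_0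
            m0, xwu_0 m0, xwl_0 m0, kw0_0 m0, bw0_0 m0, xw0_0 m0]
  have a12 : R_uq_n_f.A12 0 0 m r = 0 := by
    unfold RowF.A12
    rw [hU]
    simp only [R_uq_n_f, taOWq_wp, add_zero, zero_mul, mul_zero, neg_zero, sub_zero, Nat.cast_zero,
      ku_0 r0 m0 x1, k1p_0 r0 m0 x1, k1m_0 r0 m0 x1, k3p_0 r0 m0 x1, k3m_0 r0 m0 x1, kv_0 r0 m0 x1,
        b1p_0 r0 m0 x1, b1m_0 r0 m0 x1, b3p_0 r0 m0 x1, b3m_0 r0 m0 x1, lva_0 r0 m0 x1, l1p_0 r0 m0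
          x1, l1m_0 r0 m0 x1, l3p_0 r0 m0 x1, l3m_0 r0 m0 x1, kwu_0 m0, kwl_0 m0, bwu_0 m0, bwl_0
            m0, xwu_0 m0, xwl_0 m0, kw0_0 m0, bw0_0 m0, xw0_0 m0]
  have b12 : R_uq_n_f.B12 0 0 m r = 0 := by
    unfold RowF.B12
    rw [hU]
    simp only [R_uq_n_f, tcOWq_wp, add_zero, zero_mul, mul_zero, neg_zero, sub_zero, Nat.cast_zero,
      ku_0 r0 m0 x1, k1p_0 r0 m0 x1, k1m_0 r0 m0 x1, k3p_0 r0 m0 x1, k3m_0 r0 m0 x1, kv_0 r0 m0 x1,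
        b1p_0 r0 m0 x1, b1m_0 r0 m0 x1, b3p_0 r0 m0 x1, b3m_0 r0 m0 x1, lva_0 r0 m0 x1, l1p_0 r0 m0
          x1, l1m_0 r0 m0 x1, l3p_0 r0 m0 x1, l3m_0 r0 m0 x1, kwu_0 m0, kwl_0 m0, bwu_0 m0, bwl_0
            m0, xwu_0 m0, xwl_0 m0, kw0_0 m0, bw0_0 m0, xw0_0 m0]
  have k23 : R_uq_n_f.K23 0 0 m r = 0 := by
    unfold RowF.K23
    rw [hU]
    simp only [R_uq_n_f, k1m_zn, add_zero, zero_mul, neg_zero, sub_zero,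
      ku_0 r0 m0 x1, k1p_0 r0 m0 x1, k1m_0 r0 m0 x1, k3p_0 r0 m0 x1, k3m_0 r0 m0 x1, kv_0 r0 m0 x1,
        b1p_0 r0 m0 x1, b1m_0 r0 m0 x1, b3p_0 r0 m0 x1, b3m_0 r0 m0 x1, lva_0 r0 m0 x1, l1p_0 r0 m0
          x1, l1m_0 r0 m0 x1, l3p_0 r0 m0 x1, l3m_0 r0 m0 x1, kwu_0 m0, kwl_0 m0, bwu_0 m0, bwl_0
            m0, xwu_0 m0, xwl_0 m0, kw0_0 m0, bw0_0 m0, xw0_0 m0]
  have a23 : R_uq_n_f.A23 0 0 m r = 0 := by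
    unfold RowF.A23
    rw [hU]
    simp only [R_uq_n_f, zr7, add_zero, zero_mul, mul_zero, neg_zero, sub_zero, Nat.cast_zero,
      ku_0 r0 m0 x1, k1p_0 r0 m0 x1, k1m_0 r0 m0 x1, k3p_0 r0 m0 x1, k3m_0 r0 m0 x1, kv_0 r0 m0 x1,
        b1p_0 r0 m0 x1, b1m_0 r0 m0 x1, b3p_0 r0 m0 x1, b3m_0 r0 m0 x1, lva_0 r0 m0 x1, l1p_0 r0 m0
          x1, l1m_0 r0 m0 x1, l3p_0 r0 m0 x1, l3m_0 r0 m0 x1, kwu_0 m0, kwl_0 m0, bwu_0 m0, bwl_0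
            m0, xwu_0 m0, xwl_0 m0, kw0_0 m0, bw0_0 m0, xw0_0 m0]
  have b23 : R_uq_n_f.B23 0 0 m r = 0 := by
    unfold RowF.B23
    rw [hU]
    simp only [R_uq_n_f, l1m_zn, add_zero, zero_mul, mul_zero, neg_zero, sub_zero, Nat.cast_zero,
      ku_0 r0 m0 x1, k1p_0 r0 m0 x1, k1m_0 r0 m0 x1, k3p_0 r0 m0 x1, k3m_0 r0 m0 x1, kv_0 r0 m0 x1,
        b1p_0 r0 m0 x1, b1m_0 r0 m0 x1, b3p_0 r0 m0 x1, b3m_0 r0 m0 x1, lva_0 r0 m0 x1, l1p_0 r0 m0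
          x1, l1m_0 r0 m0 x1, l3p_0 r0 m0 x1, l3m_0 r0 m0 x1, kwu_0 m0, kwl_0 m0, bwu_0 m0, bwl_0
            m0, xwu_0 m0, xwl_0 m0, kw0_0 m0, bw0_0 m0, xw0_0 m0]
  have k13 : R_uq_n_f.K13 0 0 m r = 0 := by
    unfold RowF.K13
    rw [hU]
    simp only [R_uq_n_f, k1m_tp, add_zero, zero_mul, neg_zero, sub_zero,
      ku_0 r0 m0 x1, k1p_0 r0 m0 x1, k1m_0 r0 m0 x1, k3p_0 r0 m0 x1, k3m_0 r0 m0 x1, kv_0 r0 m0 x1,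
        b1p_0 r0 m0 x1, b1m_0 r0 m0 x1, b3p_0 r0 m0 x1, b3m_0 r0 m0 x1, lva_0 r0 m0 x1, l1p_0 r0 m0
          x1, l1m_0 r0 m0 x1, l3p_0 r0 m0 x1, l3m_0 r0 m0 x1, kwu_0 m0, kwl_0 m0, bwu_0 m0, bwl_0
            m0, xwu_0 m0, xwl_0 m0, kw0_0 m0, bw0_0 m0, xw0_0 m0]
  have a13 : R_uq_n_f.A13 0 0 m r = 0 := by
    unfold RowF.A13
    rw [hU]
    simp only [R_uq_n_f, zr7, add_zero, zero_mul, mul_zero, neg_zero, sub_zero, Nat.cast_zero,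
      ku_0 r0 m0 x1, k1p_0 r0 m0 x1, k1m_0 r0 m0 x1, k3p_0 r0 m0 x1, k3m_0 r0 m0 x1, kv_0 r0 m0 x1,
        b1p_0 r0 m0 x1, b1m_0 r0 m0 x1, b3p_0 r0 m0 x1, b3m_0 r0 m0 x1, lva_0 r0 m0 x1, l1p_0 r0 m0
          x1, l1m_0 r0 m0 x1, l3p_0 r0 m0 x1, l3m_0 r0 m0 x1, kwu_0 m0, kwl_0 m0, bwu_0 m0, bwl_0
            m0, xwu_0 m0, xwl_0 m0, kw0_0 m0, bw0_0 m0, xw0_0 m0]
  have b13 : R_uq_n_f.B13 0 0 m r = 0 := by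
    unfold RowF.B13
    rw [hU]
    simp only [R_uq_n_f, l1m_tp, add_zero, zero_mul, mul_zero, neg_zero, sub_zero, Nat.cast_zero,
      ku_0 r0 m0 x1, k1p_0 r0 m0 x1, k1m_0 r0 m0 x1, k3p_0 r0 m0 x1, k3m_0 r0 m0 x1, kv_0 r0 m0 x1,
        b1p_0 r0 m0 x1, b1m_0 r0 m0 x1, b3p_0 r0 m0 x1, b3m_0 r0 m0 x1, lva_0 r0 m0 x1, l1p_0 r0 m0
          x1, l1m_0 r0 m0 x1, l3p_0 r0 m0 x1, l3m_0 r0 m0 x1, kwu_0 m0, kwl_0 m0, bwu_0 m0, bwl_0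
            m0, xwu_0 m0, xwl_0 m0, kw0_0 m0, bw0_0 m0, xw0_0 m0]
  have hD : R_uq_n_f.DL 0 0 m r = 0 := by
    unfold RowF.DL
    rw [dln_val, k12, k23, k13]
    ring
  have hN : R_uq_n_f.NF 0 0 m r = r * 0 := by
    simp only [RowF.NF, R_uq_n_f, nff_T1]
    push_cast
    ring
  have hG : R_uq_n_f.GM 0 0 m r = -0 := by
    unfold RowF.GM
    rw [k12, k23, k13]
    show gm3.v _ _ _ _ _ _ = _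
    rw [gm3_val]
    ring
  have hb : R_uq_n_f.NU 0 0 m r / r + R_uq_n_f.BS 0 0 m r = -0 + 0 := by
    simp only [RowF.NU, RowF.BS, R_uq_n_f, nu0, bs_T1_Uf, om_val, zx_val, xi1_val, xi3_val,
      xiw_val, add_zero, xi1_0, xi3_0, xiw_0, om_0]
    simp
  have v1 : 0 ≤ R_uq_n_f.V1A 0 0 m r / r + R_uq_n_f.V1B 0 0 m r := by
    unfold RowF.V1A RowF.V1B
    rw [a12, a23, a13, b12, b23, b13]
    simp only [R_uq_n_f, vf1_val]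
    simp
  have v2 : 0 ≤ R_uq_n_f.V2A 0 0 m r / r + R_uq_n_f.V2B 0 0 m r := by
    unfold RowF.V2A RowF.V2B
    rw [a12, a23, a13, b12, b23, b13]
    simp only [R_uq_n_f, vf2_val]
    simp
  exact sb_core r0 m0 x1 hU hD hN hG hb le_rfl (Or.inr rfl) v1 v2

theorem cb_uq_n_n {m r : ℝ} (r0 : 0 < r) (m0 : 0 < m) (x1 : m * r ≤ 1 / 40) :
    SBase R_uq_n_n 0 0 m r 0 := by
  have hU : R_uq_n_n.U 0 0 m r = 0 := by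
    simp only [RowF.U, R_uq_n_n, u_T1_U_P1m_OWq, zx_val, xi1_val, xi3_val, xiw_val, xw0p_val,
      add_zero, xi1_0, xi3_0, xiw_0, om_0, neg_zero]
    simp
  have k12 : R_uq_n_n.K12 0 0 m r = 0 := by
    unfold RowF.K12
    rw [hU]
    simp only [R_uq_n_n, ntkOWq_wp, tkOWq_wp, tbOWq_wp, add_zero, zero_mul, neg_zero, sub_zero,
      nkf_0,
      ku_0 r0 m0 x1, k1p_0 r0 m0 x1, k1m_0 r0 m0 x1, k3p_0 r0 m0 x1, k3m_0 r0 m0 x1, kv_0 r0 m0 x1,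
        b1p_0 r0 m0 x1, b1m_0 r0 m0 x1, b3p_0 r0 m0 x1, b3m_0 r0 m0 x1, lva_0 r0 m0 x1, l1p_0 r0 m0
          x1, l1m_0 r0 m0 x1, l3p_0 r0 m0 x1, l3m_0 r0 m0 x1, kwu_0 m0, kwl_0 m0, bwu_0 m0, bwl_0
            m0, xwu_0 m0, xwl_0 m0, kw0_0 m0, bw0_0 m0, xw0_0 m0]
  have a12 : R_uq_n_n.A12 0 0 m r = 0 := by
    unfold RowF.A12
    rw [hU]
    simp only [R_uq_n_n, taOWq_wp, add_zero, zero_mul, mul_zero, neg_zero, sub_zero, Nat.cast_zero,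
      ku_0 r0 m0 x1, k1p_0 r0 m0 x1, k1m_0 r0 m0 x1, k3p_0 r0 m0 x1, k3m_0 r0 m0 x1, kv_0 r0 m0 x1,
        b1p_0 r0 m0 x1, b1m_0 r0 m0 x1, b3p_0 r0 m0 x1, b3m_0 r0 m0 x1, lva_0 r0 m0 x1, l1p_0 r0 m0
          x1, l1m_0 r0 m0 x1, l3p_0 r0 m0 x1, l3m_0 r0 m0 x1, kwu_0 m0, kwl_0 m0, bwu_0 m0, bwl_0
            m0, xwu_0 m0, xwl_0 m0, kw0_0 m0, bw0_0 m0, xw0_0 m0]
  have b12 : R_uq_n_n.B12 0 0 m r = 0 := by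
    unfold RowF.B12
    rw [hU]
    simp only [R_uq_n_n, tcOWq_wp, add_zero, zero_mul, mul_zero, neg_zero, sub_zero, Nat.cast_zero,
      ku_0 r0 m0 x1, k1p_0 r0 m0 x1, k1m_0 r0 m0 x1, k3p_0 r0 m0 x1, k3m_0 r0 m0 x1, kv_0 r0 m0 x1,
        b1p_0 r0 m0 x1, b1m_0 r0 m0 x1, b3p_0 r0 m0 x1, b3m_0 r0 m0 x1, lva_0 r0 m0 x1, l1p_0 r0 m0
          x1, l1m_0 r0 m0 x1, l3p_0 r0 m0 x1, l3m_0 r0 m0 x1, kwu_0 m0, kwl_0 m0, bwu_0 m0, bwl_0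
            m0, xwu_0 m0, xwl_0 m0, kw0_0 m0, bw0_0 m0, xw0_0 m0]
  have k23 : R_uq_n_n.K23 0 0 m r = 0 := by
    unfold RowF.K23
    rw [hU]
    simp only [R_uq_n_n, nk1m_zn, k1m_zn, b1m_zn, add_zero, zero_mul, neg_zero, sub_zero, nkf_0,
      ku_0 r0 m0 x1, k1p_0 r0 m0 x1, k1m_0 r0 m0 x1, k3p_0 r0 m0 x1, k3m_0 r0 m0 x1, kv_0 r0 m0 x1,
        b1p_0 r0 m0 x1, b1m_0 r0 m0 x1, b3p_0 r0 m0 x1, b3m_0 r0 m0 x1, lva_0 r0 m0 x1, l1p_0 r0 m0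
          x1, l1m_0 r0 m0 x1, l3p_0 r0 m0 x1, l3m_0 r0 m0 x1, kwu_0 m0, kwl_0 m0, bwu_0 m0, bwl_0
            m0, xwu_0 m0, xwl_0 m0, kw0_0 m0, bw0_0 m0, xw0_0 m0]
  have a23 : R_uq_n_n.A23 0 0 m r = 0 := by
    unfold RowF.A23
    rw [hU]
    simp only [R_uq_n_n, zr7, add_zero, zero_mul, mul_zero, neg_zero, sub_zero, Nat.cast_zero,
      ku_0 r0 m0 x1, k1p_0 r0 m0 x1, k1m_0 r0 m0 x1, k3p_0 r0 m0 x1, k3m_0 r0 m0 x1, kv_0 r0 m0 x1,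
        b1p_0 r0 m0 x1, b1m_0 r0 m0 x1, b3p_0 r0 m0 x1, b3m_0 r0 m0 x1, lva_0 r0 m0 x1, l1p_0 r0 m0
          x1, l1m_0 r0 m0 x1, l3p_0 r0 m0 x1, l3m_0 r0 m0 x1, kwu_0 m0, kwl_0 m0, bwu_0 m0, bwl_0
            m0, xwu_0 m0, xwl_0 m0, kw0_0 m0, bw0_0 m0, xw0_0 m0]
  have b23 : R_uq_n_n.B23 0 0 m r = 0 := by
    unfold RowF.B23
    rw [hU]
    simp only [R_uq_n_n, l1m_zn, add_zero, zero_mul, mul_zero, neg_zero, sub_zero, Nat.cast_zero,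
      ku_0 r0 m0 x1, k1p_0 r0 m0 x1, k1m_0 r0 m0 x1, k3p_0 r0 m0 x1, k3m_0 r0 m0 x1, kv_0 r0 m0 x1,
        b1p_0 r0 m0 x1, b1m_0 r0 m0 x1, b3p_0 r0 m0 x1, b3m_0 r0 m0 x1, lva_0 r0 m0 x1, l1p_0 r0 m0
          x1, l1m_0 r0 m0 x1, l3p_0 r0 m0 x1, l3m_0 r0 m0 x1, kwu_0 m0, kwl_0 m0, bwu_0 m0, bwl_0
            m0, xwu_0 m0, xwl_0 m0, kw0_0 m0, bw0_0 m0, xw0_0 m0]
  have k13 : R_uq_n_n.K13 0 0 m r = 0 := by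
    unfold RowF.K13
    rw [hU]
    simp only [R_uq_n_n, nk1m_tp, k1m_tp, b1m_tp, add_zero, zero_mul, neg_zero, sub_zero, nkf_0,
      ku_0 r0 m0 x1, k1p_0 r0 m0 x1, k1m_0 r0 m0 x1, k3p_0 r0 m0 x1, k3m_0 r0 m0 x1, kv_0 r0 m0 x1,
        b1p_0 r0 m0 x1, b1m_0 r0 m0 x1, b3p_0 r0 m0 x1, b3m_0 r0 m0 x1, lva_0 r0 m0 x1, l1p_0 r0 m0
          x1, l1m_0 r0 m0 x1, l3p_0 r0 m0 x1, l3m_0 r0 m0 x1, kwu_0 m0, kwl_0 m0, bwu_0 m0, bwl_0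
            m0, xwu_0 m0, xwl_0 m0, kw0_0 m0, bw0_0 m0, xw0_0 m0]
  have a13 : R_uq_n_n.A13 0 0 m r = 0 := by
    unfold RowF.A13
    rw [hU]
    simp only [R_uq_n_n, zr7, add_zero, zero_mul, mul_zero, neg_zero, sub_zero, Nat.cast_zero,
      ku_0 r0 m0 x1, k1p_0 r0 m0 x1, k1m_0 r0 m0 x1, k3p_0 r0 m0 x1, k3m_0 r0 m0 x1, kv_0 r0 m0 x1,
        b1p_0 r0 m0 x1, b1m_0 r0 m0 x1, b3p_0 r0 m0 x1, b3m_0 r0 m0 x1, lva_0 r0 m0 x1, l1p_0 r0 m0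
          x1, l1m_0 r0 m0 x1, l3p_0 r0 m0 x1, l3m_0 r0 m0 x1, kwu_0 m0, kwl_0 m0, bwu_0 m0, bwl_0
            m0, xwu_0 m0, xwl_0 m0, kw0_0 m0, bw0_0 m0, xw0_0 m0]
  have b13 : R_uq_n_n.B13 0 0 m r = 0 := by
    unfold RowF.B13
    rw [hU]
    simp only [R_uq_n_n, l1m_tp, add_zero, zero_mul, mul_zero, neg_zero, sub_zero, Nat.cast_zero,
      ku_0 r0 m0 x1, k1p_0 r0 m0 x1, k1m_0 r0 m0 x1, k3p_0 r0 m0 x1, k3m_0 r0 m0 x1, kv_0 r0 m0 x1,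
        b1p_0 r0 m0 x1, b1m_0 r0 m0 x1, b3p_0 r0 m0 x1, b3m_0 r0 m0 x1, lva_0 r0 m0 x1, l1p_0 r0 m0
          x1, l1m_0 r0 m0 x1, l3p_0 r0 m0 x1, l3m_0 r0 m0 x1, kwu_0 m0, kwl_0 m0, bwu_0 m0, bwl_0
            m0, xwu_0 m0, xwl_0 m0, kw0_0 m0, bw0_0 m0, xw0_0 m0]
  have hD : R_uq_n_n.DL 0 0 m r = 0 := by
    unfold RowF.DL
    rw [dln_val, k12, k23, k13]
    ring
  have hN : R_uq_n_n.NF 0 0 m r = r * 0 := by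
    simp only [RowF.NF, R_uq_n_n, nfn_T1]
    push_cast
    ring
  have hG : R_uq_n_n.GM 0 0 m r = -0 := by
    unfold RowF.GM
    rw [k12, k23, k13]
    show gm3.v _ _ _ _ _ _ = _
    rw [gm3_val]
    ring
  have hb : R_uq_n_n.NU 0 0 m r / r + R_uq_n_n.BS 0 0 m r = -0 + 0 := by
    simp only [RowF.NU, RowF.BS, R_uq_n_n, nu0, bs_T1_Un, om_val, zx_val, xi1_val, xi3_val,
      xiw_val, add_zero, xi1_0, xi3_0, xiw_0, om_0]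
    simp
  have v1 : 0 ≤ R_uq_n_n.V1A 0 0 m r / r + R_uq_n_n.V1B 0 0 m r := by
    unfold RowF.V1A RowF.V1B
    rw [a12, a23, a13, b12, b23, b13]
    simp only [R_uq_n_n, ml1_val]
    simp
  have v2 : 0 ≤ R_uq_n_n.V2A 0 0 m r / r + R_uq_n_n.V2B 0 0 m r := by
    unfold RowF.V2A RowF.V2B
    rw [a12, a23, a13, b12, b23, b13]
    simp only [R_uq_n_n, ml2_val]
    simp
  exact sb_core r0 m0 x1 hU hD hN hG hb le_rfl (Or.inr rfl) v1 v2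

end Pool.Agent.Strip051.LC.E1.Ch
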