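import Pool.Agent.Strip051.LC.E1.Ch.Ph
import Pool.Agent.Strip051.LC.E1.Ch.Rw

/-! # Rests near the full period: the base points of the strips -/

set_option linter.unusedVariables false
set_option linter.unusedSimpArgs false

namespace Pool.Agent.Strip051.LC.E1.Ch

open Pool.Agent.Strip051.PB
open Pool.Agent.Strip051.LC.E1.G (hg)
open Pool.Agent.Strip051.LC.E1.BaseR

theorem sb_t3a_c1_f {w z m r : ℝ} (hr : 0 < r) (hm : 0 < m) (x1 : m * r ≤ 1 / 40) (hw : 0 ≤ w) (hrw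
    : r * w ≤ 1 / 16)
    (hfar : r < 1 / 100 → r * w ≤ 3 / 50)
    (hz : z = w / 2 - r * E0.G.om w r) : SBase R_t3a_c1_f w z m r (E0.G.om w r) := by
  have ht : w + z = 3 / 2 * w - r * E0.G.om w r := by rw [hz]; ring
  have x0 : 0 < m * r := mul_pos hm hr
  have om0 := om_nn hr hw hrw
  have omw := om_w hr hw hrw
  have omI := om_I hr hw hrw
  have hU : R_t3a_c1_f.U w z m r = 0 := by
    simp only [RowF.U, R_t3a_c1_f, u_T2p_A_P1p_Q63, zx_val, xi1_val, xi3_val, xiw_val]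
    try rw [ht]
    try rw [hz]
    try rw [E1_xi1 hr hw hrw]
    try rw [E2_xi1 hr hw hrw]
    try rw [E3_xi3 hr hw hrw]
    try rw [E4_xi3 hr hw hrw]
    ring
  have k12 : R_t3a_c1_f.K12 w z m r = ku.v w m r (m * r) := by
    unfold RowF.K12
    rw [hU]
    simp only [R_t3a_c1_f, ku_wp, zero_mul]
  have a12 : R_t3a_c1_f.A12 w z m r = 0 := by
    unfold RowF.A12
    rw [hU]
    simp only [R_t3a_c1_f, zr7, zero_mul, neg_zero, Nat.cast_zero]
  have b12 : R_t3a_c1_f.B12 w z m r = lva.v w m r (m * r) := by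
    unfold RowF.B12
    rw [hU]
    simp only [R_t3a_c1_f, lva_wp, zero_mul]
  have k23 : R_t3a_c1_f.K23 w z m r = (ku.v w m r (m * r) / 2 - 3 / 4 * (w * (1 + E0.G.qw w r)⁻¹) *
    (1 + r * ku.v w m r (m * r))) := by
    unfold RowF.K23
    rw [hU]
    simp only [R_t3a_c1_f, k1p_zp, zero_mul]
    rw [hz, e1_k hr hw hrw]
    try ring
  have a23 : R_t3a_c1_f.A23 w z m r = 0 := by
    unfold RowF.A23
    rw [hU]
    simp only [R_t3a_c1_f, zr7, zero_mul, neg_zero, Nat.cast_zero]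
  have b23 : R_t3a_c1_f.B23 w z m r = lvp.v w m r (m * r) := by
    unfold RowF.B23
    rw [hU]
    simp only [R_t3a_c1_f, l1p_zp, zero_mul]
    rw [hz, e1_l hr hw hrw]
    try ring
  have k13 : R_t3a_c1_f.K13 w z m r = (3 / 2 * ku.v w m r (m * r) - 3 / 4 * (w * (1 + E0.G.qw w
    r)⁻¹) * (1 + r * ku.v w m r (m * r))) := by
    unfold RowF.K13
    rw [hU]
    simp only [R_t3a_c1_f, tkQ63_tp, zero_mul]
    rw [ht, e4_k hr hw hrw]
    try ring
  have a13 : R_t3a_c1_f.A13 w z m r = 0 := by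
    unfold RowF.A13
    rw [hU]
    simp only [R_t3a_c1_f, taQ63_tp, zero_mul, neg_zero, Nat.cast_zero]
  have b13 : R_t3a_c1_f.B13 w z m r = lvq.v w m r (m * r) := by
    unfold RowF.B13
    rw [hU]
    simp only [R_t3a_c1_f, tcQ63_tp, zero_mul]
    rw [ht, e4_l hr hw hrw]
    try ring
  have la := lva_val hr w m hfar hrw
  have lp := lvp_val hr w m hfar
  have lq := lvq_val hr w m hrw
  have hD : R_t3a_c1_f.DL w z m r = 0 := by
    unfold RowF.DL
    rw [dln_val, k12, k23, k13]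
    ring
  have hN : R_t3a_c1_f.NF w z m r = r * (E0.G.om w r) := by
    simp only [RowF.NF, R_t3a_c1_f, nff_T2p, bef_val]
    rw [ht]
    push_cast
    ring
  have hG : R_t3a_c1_f.GM w z m r = -(E0.G.om w r) := by
    unfold RowF.GM
    rw [k12, k23, k13]
    show gm1.v _ _ _ _ _ _ = _
    rw [gm1_val, hz]
    linear_combination (-(1 + r * ku.v w m r (m * r))) * omI
  have hb : R_t3a_c1_f.NU w z m r / r + R_t3a_c1_f.BS w z m r = -(E0.G.om w r) +
      0 := by
    simp only [RowF.NU, RowF.BS, R_t3a_c1_f, nuf_T2p, bs_T2p_AP1pf, bef_val, n1f_val, lmf_val,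
      mu_val', qo_val, eh_val, om_val, zx_val, xi1_val, xi3_val, xiw_val]
    try rw [ht]
    try rw [hz]
    try rw [E1_xi1 hr hw hrw]
    try rw [E2_xi1 hr hw hrw]
    try rw [E3_xi3 hr hw hrw]
    try rw [E4_xi3 hr hw hrw]
    rw [div_add' _ _ _ hr.ne', div_eq_iff hr.ne']
    push_cast
    linear_combination r * omw
  have he : (0 : ℝ) ≤ 0 := by
    exact le_rfl
  have hL : R_t3a_c1_f.L w z ≠ 0 ∨ E0.G.om w r = 0 := by
    rcases hw.eq_or_lt with h | h
    · right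
      rw [← h, om_0]
    · left
      show w + z ≠ 0
      rw [ht]
      have := rom_le hr hw hrw
      linarith
  have v1 : 0 ≤ R_t3a_c1_f.V1A w z m r / r + R_t3a_c1_f.V1B w z m r := by
    unfold RowF.V1A RowF.V1B
    rw [a12, a23, a13, b12, b23, b13, la, lp, lq]
    simp only [R_t3a_c1_f, vf1_val]
    refine le_of_eq ?_
    ring
  have v2 : 0 ≤ R_t3a_c1_f.V2A w z m r / r + R_t3a_c1_f.V2B w z m r := by
    unfold RowF.V2A RowF.V2B
    rw [a12, a23, a13, b12, b23, b13, la, lp, lq]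
    simp only [R_t3a_c1_f, vf2_val]
    refine le_of_eq ?_
    ring
  exact sb_core hr hm x1 hU hD hN hG hb he hL v1 v2

theorem sb_t3a_c1_n {w z m r : ℝ} (hr : 0 < r) (hm : 0 < m) (x1 : m * r ≤ 1 / 40) (hw : 0 ≤ w) (hrw
    : r * w ≤ 1 / 16)
    (hfar : r < 1 / 100 → r * w ≤ 3 / 50)
    (hz : z = w / 2 - r * E0.G.om w r) : SBase R_t3a_c1_n w z m r (G.be (m * r) * E0.G.om w r) := by
  have ht : w + z = 3 / 2 * w - r * E0.G.om w r := by rw [hz]; ring
  have x0 : 0 < m * r := mul_pos hm hr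
  have om0 := om_nn hr hw hrw
  have omw := om_w hr hw hrw
  have omI := om_I hr hw hrw
  have hU : R_t3a_c1_n.U w z m r = 0 := by
    simp only [RowF.U, R_t3a_c1_n, u_T2p_A_P1p_Q63, zx_val, xi1_val, xi3_val, xiw_val]
    try rw [ht]
    try rw [hz]
    try rw [E1_xi1 hr hw hrw]
    try rw [E2_xi1 hr hw hrw]
    try rw [E3_xi3 hr hw hrw]
    try rw [E4_xi3 hr hw hrw]
    ring
  have k12 : R_t3a_c1_n.K12 w z m r = (1 + G.LAM (m * r) * G.mu (m * r)) * (ku.v w m r (m * r)) +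
      G.mu (m * r) * (kv.v w m r (m * r)) := by
    unfold RowF.K12
    rw [hU]
    simp only [R_t3a_c1_n, nku_wp, ku_wp, kv_wp, nkf_val, zero_mul]
  have a12 : R_t3a_c1_n.A12 w z m r = 0 := by
    unfold RowF.A12
    rw [hU]
    simp only [R_t3a_c1_n, zr7, zero_mul, neg_zero, Nat.cast_zero]
  have b12 : R_t3a_c1_n.B12 w z m r = lva.v w m r (m * r) := by
    unfold RowF.B12
    rw [hU]
    simp only [R_t3a_c1_n, lva_wp, zero_mul]
  have k23 : R_t3a_c1_n.K23 w z m r = (1 + G.LAM (m * r) * G.mu (m * r)) * ((ku.v w m r (m * r) / 2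
    - 3 / 4 * (w * (1 + E0.G.qw w r)⁻¹) * (1 + r * ku.v w m r (m * r)))) +
      G.mu (m * r) * ((kv.v w m r (m * r) / 2 - 3 / 4 * (w * (1 + E0.G.qw w r)⁻¹) * (G.B0 (m * r) +
        r * kv.v w m r (m * r)))) := by
    unfold RowF.K23
    rw [hU]
    simp only [R_t3a_c1_n, nk1p_zp, k1p_zp, b1p_zp, nkf_val, zero_mul]
    rw [hz, e1_k hr hw hrw, e1_b hr hw hrw]
    try ring
  have a23 : R_t3a_c1_n.A23 w z m r = 0 := by
    unfold RowF.A23
    rw [hU]
    simp only [R_t3a_c1_n, zr7, zero_mul, neg_zero, Nat.cast_zero]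
  have b23 : R_t3a_c1_n.B23 w z m r = lvp.v w m r (m * r) := by
    unfold RowF.B23
    rw [hU]
    simp only [R_t3a_c1_n, l1p_zp, zero_mul]
    rw [hz, e1_l hr hw hrw]
    try ring
  have k13 : R_t3a_c1_n.K13 w z m r = (1 + G.LAM (m * r) * G.mu (m * r)) * ((3 / 2 * ku.v w m r (m
    * r) - 3 / 4 * (w * (1 + E0.G.qw w r)⁻¹) * (1 + r * ku.v w m r (m * r)))) +
      G.mu (m * r) * ((3 / 2 * kv.v w m r (m * r) - 3 / 4 * (w * (1 + E0.G.qw w r)⁻¹) * (G.B0 (m *
        r) + r * kv.v w m r (m * r)))) := by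
    unfold RowF.K13
    rw [hU]
    simp only [R_t3a_c1_n, ntkQ63_tp, tkQ63_tp, tbQ63_tp, nkf_val, zero_mul]
    rw [ht, e4_k hr hw hrw, e4_b hr hw hrw]
    try ring
  have a13 : R_t3a_c1_n.A13 w z m r = 0 := by
    unfold RowF.A13
    rw [hU]
    simp only [R_t3a_c1_n, taQ63_tp, zero_mul, neg_zero, Nat.cast_zero]
  have b13 : R_t3a_c1_n.B13 w z m r = lvq.v w m r (m * r) := by
    unfold RowF.B13
    rw [hU]
    simp only [R_t3a_c1_n, tcQ63_tp, zero_mul]
    rw [ht, e4_l hr hw hrw]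
    try ring
  have la := lva_val hr w m hfar hrw
  have lp := lvp_val hr w m hfar
  have lq := lvq_val hr w m hrw
  have hD : R_t3a_c1_n.DL w z m r = 0 := by
    unfold RowF.DL
    rw [dln_val, k12, k23, k13]
    ring
  have hN : R_t3a_c1_n.NF w z m r = r * (G.be (m * r) * E0.G.om w r) := by
    simp only [RowF.NF, R_t3a_c1_n, nfn_T2p, bef_val]
    rw [ht]
    push_cast
    ring
  have hG : R_t3a_c1_n.GM w z m r = -(G.be (m * r) * E0.G.om w r) := by
    unfold RowF.GM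
    rw [k12, k23, k13]
    show gm1.v _ _ _ _ _ _ = _
    rw [gm1_val, hz]
    unfold G.be
    linear_combination (-((1 + G.LAM (m * r) * G.mu (m * r)) * (1 + r * ku.v w m r (m * r)) +
      G.mu (m * r) * (G.B0 (m * r) + r * kv.v w m r (m * r)))) * omI
  have hb : R_t3a_c1_n.NU w z m r / r + R_t3a_c1_n.BS w z m r = -(G.be (m * r) * E0.G.om w r) +
      G.mu (m * r) * G.LAM (m * r) * E0.G.om w r / 2 := by
    simp only [RowF.NU, RowF.BS, R_t3a_c1_n, nun_T2p, bs_T2p_AP1pn, bef_val, n1f_val, lmf_val,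
      mu_val', qo_val, eh_val, om_val, zx_val, xi1_val, xi3_val, xiw_val]
    try rw [ht]
    try rw [hz]
    try rw [E1_xi1 hr hw hrw]
    try rw [E2_xi1 hr hw hrw]
    try rw [E3_xi3 hr hw hrw]
    try rw [E4_xi3 hr hw hrw]
    rw [div_add' _ _ _ hr.ne', div_eq_iff hr.ne']
    push_cast
    linear_combination (r * (1 + G.LAM (m * r) * G.mu (m * r))) * omw
  have he : (0 : ℝ) ≤ G.mu (m * r) * G.LAM (m * r) * E0.G.om w r / 2 := by
    have h1 := LAM_nn x0.le (by linarith : m * r ≤ 1)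
    have h2 := mu_nn (m * r)
    positivity
  have hL : R_t3a_c1_n.L w z ≠ 0 ∨ G.be (m * r) * E0.G.om w r = 0 := by
    rcases hw.eq_or_lt with h | h
    · right
      rw [← h, om_0, mul_zero]
    · left
      show w + z ≠ 0
      rw [ht]
      have := rom_le hr hw hrw
      linarith
  have v1 : 0 ≤ R_t3a_c1_n.V1A w z m r / r + R_t3a_c1_n.V1B w z m r := by
    unfold RowF.V1A RowF.V1B
    rw [a12, a23, a13, b12, b23, b13, la, lp, lq]
    simp only [R_t3a_c1_n, ml1_val]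
    refine (phi_c hr hm x1 hw hrw).trans (le_of_eq ?_)
    try rw [ht]
    try rw [hz]
    linear_combination (G.mu (m * r) * G.LAM (m * r) / 2 * G.aL (m * r) r m w) * rrom hr hw hrw
  have v2 : 0 ≤ R_t3a_c1_n.V2A w z m r / r + R_t3a_c1_n.V2B w z m r := by
    unfold RowF.V2A RowF.V2B
    rw [a12, a23, a13, b12, b23, b13, la, lp, lq]
    simp only [R_t3a_c1_n, ml2_val]
    refine (phi_c hr hm x1 hw hrw).trans (le_of_eq ?_)
    try rw [ht]
    try rw [hz]
    linear_combination (G.mu (m * r) * G.LAM (m * r) / 2 * G.aL (m * r) r m w) * rrom hr hw hrw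
  exact sb_core hr hm x1 hU hD hN hG hb he hL v1 v2

theorem sb_t3b_c3_f {w z m r : ℝ} (hr : 0 < r) (hm : 0 < m) (x1 : m * r ≤ 1 / 40) (hw : 0 ≤ w) (hrw
    : r * w ≤ 1 / 16)
    (hfar : r < 1 / 100 → r * w ≤ 3 / 50)
    (hz : z = w / 2 - r * E0.G.om w r) : SBase R_t3b_c3_f w z m r (E0.G.om w r) := by
  have ht : w + z = 3 / 2 * w - r * E0.G.om w r := by rw [hz]; ring
  have x0 : 0 < m * r := mul_pos hm hr
  have om0 := om_nn hr hw hrw
  have omw := om_w hr hw hrw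
  have omI := om_I hr hw hrw
  have hU : R_t3b_c3_f.U w z m r = 0 := by
    simp only [RowF.U, R_t3b_c3_f, u_T2p_B_Q3p_P1W, zx_val, xi1_val, xi3_val, xiw_val]
    try rw [ht]
    try rw [hz]
    try rw [E1_xi1 hr hw hrw]
    try rw [E2_xi1 hr hw hrw]
    try rw [E3_xi3 hr hw hrw]
    try rw [E4_xi3 hr hw hrw]
    ring
  have k12 : R_t3b_c3_f.K12 w z m r = ku.v w m r (m * r) := by
    unfold RowF.K12
    rw [hU]
    simp only [R_t3b_c3_f, ku_wp, zero_mul]
  have a12 : R_t3b_c3_f.A12 w z m r = 0 := by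
    unfold RowF.A12
    rw [hU]
    simp only [R_t3b_c3_f, zr7, zero_mul, neg_zero, Nat.cast_zero]
  have b12 : R_t3b_c3_f.B12 w z m r = lva.v w m r (m * r) := by
    unfold RowF.B12
    rw [hU]
    simp only [R_t3b_c3_f, lva_wp, zero_mul]
  have k23 : R_t3b_c3_f.K23 w z m r = (ku.v w m r (m * r) / 2 - 3 / 4 * (w * (1 + E0.G.qw w r)⁻¹) *
    (1 + r * ku.v w m r (m * r))) := by
    unfold RowF.K23
    rw [hU]
    simp only [R_t3b_c3_f, tkP1W_zp, zero_mul]
    rw [hz, e1_k hr hw hrw]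
    try ring
  have a23 : R_t3b_c3_f.A23 w z m r = 0 := by
    unfold RowF.A23
    rw [hU]
    simp only [R_t3b_c3_f, taP1W_zp, zero_mul, neg_zero, Nat.cast_zero]
  have b23 : R_t3b_c3_f.B23 w z m r = lvp.v w m r (m * r) := by
    unfold RowF.B23
    rw [hU]
    simp only [R_t3b_c3_f, tcP1W_zp, zero_mul]
    rw [hz, e1_l hr hw hrw]
    try ring
  have k13 : R_t3b_c3_f.K13 w z m r = (3 / 2 * ku.v w m r (m * r) - 3 / 4 * (w * (1 + E0.G.qw w
    r)⁻¹) * (1 + r * ku.v w m r (m * r))) := by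
    unfold RowF.K13
    rw [hU]
    simp only [R_t3b_c3_f, k3p_tp, zero_mul]
    rw [ht, e4_k hr hw hrw]
    try ring
  have a13 : R_t3b_c3_f.A13 w z m r = 0 := by
    unfold RowF.A13
    rw [hU]
    simp only [R_t3b_c3_f, zr7, zero_mul, neg_zero, Nat.cast_zero]
  have b13 : R_t3b_c3_f.B13 w z m r = lvq.v w m r (m * r) := by
    unfold RowF.B13
    rw [hU]
    simp only [R_t3b_c3_f, l3p_tp, zero_mul]
    rw [ht, e4_l hr hw hrw]
    try ring
  have la := lva_val hr w m hfar hrw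
  have lp := lvp_val hr w m hfar
  have lq := lvq_val hr w m hrw
  have hD : R_t3b_c3_f.DL w z m r = 0 := by
    unfold RowF.DL
    rw [dln_val, k12, k23, k13]
    ring
  have hN : R_t3b_c3_f.NF w z m r = r * (E0.G.om w r) := by
    simp only [RowF.NF, R_t3b_c3_f, nff_T2p, bef_val]
    rw [ht]
    push_cast
    ring
  have hG : R_t3b_c3_f.GM w z m r = -(E0.G.om w r) := by
    unfold RowF.GM
    rw [k12, k23, k13]
    show gm1.v _ _ _ _ _ _ = _
    rw [gm1_val, hz]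
    linear_combination (-(1 + r * ku.v w m r (m * r))) * omI
  have hb : R_t3b_c3_f.NU w z m r / r + R_t3b_c3_f.BS w z m r = -(E0.G.om w r) +
      0 := by
    simp only [RowF.NU, RowF.BS, R_t3b_c3_f, nuf_T2p, bs_T2p_BQ3pf, bef_val, n1f_val, lmf_val,
      mu_val', qo_val, eh_val, om_val, zx_val, xi1_val, xi3_val, xiw_val]
    try rw [ht]
    try rw [hz]
    try rw [E1_xi1 hr hw hrw]
    try rw [E2_xi1 hr hw hrw]
    try rw [E3_xi3 hr hw hrw]
    try rw [E4_xi3 hr hw hrw]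
    rw [div_add' _ _ _ hr.ne', div_eq_iff hr.ne']
    push_cast
    linear_combination r * omw
  have he : (0 : ℝ) ≤ 0 := by
    exact le_rfl
  have hL : R_t3b_c3_f.L w z ≠ 0 ∨ E0.G.om w r = 0 := by
    rcases hw.eq_or_lt with h | h
    · right
      rw [← h, om_0]
    · left
      show w + z ≠ 0
      rw [ht]
      have := rom_le hr hw hrw
      linarith
  have v1 : 0 ≤ R_t3b_c3_f.V1A w z m r / r + R_t3b_c3_f.V1B w z m r := by
    unfold RowF.V1A RowF.V1B
    rw [a12, a23, a13, b12, b23, b13, la, lp, lq]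
    simp only [R_t3b_c3_f, vf1_val]
    refine le_of_eq ?_
    ring
  have v2 : 0 ≤ R_t3b_c3_f.V2A w z m r / r + R_t3b_c3_f.V2B w z m r := by
    unfold RowF.V2A RowF.V2B
    rw [a12, a23, a13, b12, b23, b13, la, lp, lq]
    simp only [R_t3b_c3_f, vf2_val]
    refine le_of_eq ?_
    ring
  exact sb_core hr hm x1 hU hD hN hG hb he hL v1 v2

theorem sb_t3b_c3_n {w z m r : ℝ} (hr : 0 < r) (hm : 0 < m) (x1 : m * r ≤ 1 / 40) (hw : 0 ≤ w) (hrw
    : r * w ≤ 1 / 16)
    (hfar : r < 1 / 100 → r * w ≤ 3 / 50)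
    (hz : z = w / 2 - r * E0.G.om w r) : SBase R_t3b_c3_n w z m r (G.be (m * r) * E0.G.om w r) := by
  have ht : w + z = 3 / 2 * w - r * E0.G.om w r := by rw [hz]; ring
  have x0 : 0 < m * r := mul_pos hm hr
  have om0 := om_nn hr hw hrw
  have omw := om_w hr hw hrw
  have omI := om_I hr hw hrw
  have hU : R_t3b_c3_n.U w z m r = 0 := by
    simp only [RowF.U, R_t3b_c3_n, u_T2p_B_Q3p_P1W, zx_val, xi1_val, xi3_val, xiw_val]
    try rw [ht]
    try rw [hz]
    try rw [E1_xi1 hr hw hrw]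
    try rw [E2_xi1 hr hw hrw]
    try rw [E3_xi3 hr hw hrw]
    try rw [E4_xi3 hr hw hrw]
    ring
  have k12 : R_t3b_c3_n.K12 w z m r = (1 + G.LAM (m * r) * G.mu (m * r)) * (ku.v w m r (m * r)) +
      G.mu (m * r) * (kv.v w m r (m * r)) := by
    unfold RowF.K12
    rw [hU]
    simp only [R_t3b_c3_n, nku_wp, ku_wp, kv_wp, nkf_val, zero_mul]
  have a12 : R_t3b_c3_n.A12 w z m r = 0 := by
    unfold RowF.A12
    rw [hU]
    simp only [R_t3b_c3_n, zr7, zero_mul, neg_zero, Nat.cast_zero]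
  have b12 : R_t3b_c3_n.B12 w z m r = lva.v w m r (m * r) := by
    unfold RowF.B12
    rw [hU]
    simp only [R_t3b_c3_n, lva_wp, zero_mul]
  have k23 : R_t3b_c3_n.K23 w z m r = (1 + G.LAM (m * r) * G.mu (m * r)) * ((ku.v w m r (m * r) / 2
    - 3 / 4 * (w * (1 + E0.G.qw w r)⁻¹) * (1 + r * ku.v w m r (m * r)))) +
      G.mu (m * r) * ((kv.v w m r (m * r) / 2 - 3 / 4 * (w * (1 + E0.G.qw w r)⁻¹) * (G.B0 (m * r) +
        r * kv.v w m r (m * r)))) := by
    unfold RowF.K23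
    rw [hU]
    simp only [R_t3b_c3_n, ntkP1W_zp, tkP1W_zp, tbP1W_zp, nkf_val, zero_mul]
    rw [hz, e1_k hr hw hrw, e1_b hr hw hrw]
    try ring
  have a23 : R_t3b_c3_n.A23 w z m r = 0 := by
    unfold RowF.A23
    rw [hU]
    simp only [R_t3b_c3_n, taP1W_zp, zero_mul, neg_zero, Nat.cast_zero]
  have b23 : R_t3b_c3_n.B23 w z m r = lvp.v w m r (m * r) := by
    unfold RowF.B23
    rw [hU]
    simp only [R_t3b_c3_n, tcP1W_zp, zero_mul]
    rw [hz, e1_l hr hw hrw]
    try ring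
  have k13 : R_t3b_c3_n.K13 w z m r = (1 + G.LAM (m * r) * G.mu (m * r)) * ((3 / 2 * ku.v w m r (m
    * r) - 3 / 4 * (w * (1 + E0.G.qw w r)⁻¹) * (1 + r * ku.v w m r (m * r)))) +
      G.mu (m * r) * ((3 / 2 * kv.v w m r (m * r) - 3 / 4 * (w * (1 + E0.G.qw w r)⁻¹) * (G.B0 (m *
        r) + r * kv.v w m r (m * r)))) := by
    unfold RowF.K13
    rw [hU]
    simp only [R_t3b_c3_n, nk3p_tp, k3p_tp, b3p_tp, nkf_val, zero_mul]
    rw [ht, e4_k hr hw hrw, e4_b hr hw hrw]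
    try ring
  have a13 : R_t3b_c3_n.A13 w z m r = 0 := by
    unfold RowF.A13
    rw [hU]
    simp only [R_t3b_c3_n, zr7, zero_mul, neg_zero, Nat.cast_zero]
  have b13 : R_t3b_c3_n.B13 w z m r = lvq.v w m r (m * r) := by
    unfold RowF.B13
    rw [hU]
    simp only [R_t3b_c3_n, l3p_tp, zero_mul]
    rw [ht, e4_l hr hw hrw]
    try ring
  have la := lva_val hr w m hfar hrw
  have lp := lvp_val hr w m hfar
  have lq := lvq_val hr w m hrw
  have hD : R_t3b_c3_n.DL w z m r = 0 := by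
    unfold RowF.DL
    rw [dln_val, k12, k23, k13]
    ring
  have hN : R_t3b_c3_n.NF w z m r = r * (G.be (m * r) * E0.G.om w r) := by
    simp only [RowF.NF, R_t3b_c3_n, nfn_T2p, bef_val]
    rw [ht]
    push_cast
    ring
  have hG : R_t3b_c3_n.GM w z m r = -(G.be (m * r) * E0.G.om w r) := by
    unfold RowF.GM
    rw [k12, k23, k13]
    show gm1.v _ _ _ _ _ _ = _
    rw [gm1_val, hz]
    unfold G.be
    linear_combination (-((1 + G.LAM (m * r) * G.mu (m * r)) * (1 + r * ku.v w m r (m * r)) +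
      G.mu (m * r) * (G.B0 (m * r) + r * kv.v w m r (m * r)))) * omI
  have hb : R_t3b_c3_n.NU w z m r / r + R_t3b_c3_n.BS w z m r = -(G.be (m * r) * E0.G.om w r) +
      G.mu (m * r) * G.LAM (m * r) * E0.G.om w r / 2 := by
    simp only [RowF.NU, RowF.BS, R_t3b_c3_n, nun_T2p, bs_T2p_BQ3pn, bef_val, n1f_val, lmf_val,
      mu_val', qo_val, eh_val, om_val, zx_val, xi1_val, xi3_val, xiw_val]
    try rw [ht]
    try rw [hz]
    try rw [E1_xi1 hr hw hrw]
    try rw [E2_xi1 hr hw hrw]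
    try rw [E3_xi3 hr hw hrw]
    try rw [E4_xi3 hr hw hrw]
    rw [div_add' _ _ _ hr.ne', div_eq_iff hr.ne']
    push_cast
    linear_combination (r * (1 + G.LAM (m * r) * G.mu (m * r))) * omw
  have he : (0 : ℝ) ≤ G.mu (m * r) * G.LAM (m * r) * E0.G.om w r / 2 := by
    have h1 := LAM_nn x0.le (by linarith : m * r ≤ 1)
    have h2 := mu_nn (m * r)
    positivity
  have hL : R_t3b_c3_n.L w z ≠ 0 ∨ G.be (m * r) * E0.G.om w r = 0 := by
    rcases hw.eq_or_lt with h | h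
    · right
      rw [← h, om_0, mul_zero]
    · left
      show w + z ≠ 0
      rw [ht]
      have := rom_le hr hw hrw
      linarith
  have v1 : 0 ≤ R_t3b_c3_n.V1A w z m r / r + R_t3b_c3_n.V1B w z m r := by
    unfold RowF.V1A RowF.V1B
    rw [a12, a23, a13, b12, b23, b13, la, lp, lq]
    simp only [R_t3b_c3_n, ml1_val]
    refine (phi_c hr hm x1 hw hrw).trans (le_of_eq ?_)
    try rw [ht]
    try rw [hz]
    linear_combination (G.mu (m * r) * G.LAM (m * r) / 2 * G.aL (m * r) r m w) * rrom hr hw hrw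
  have v2 : 0 ≤ R_t3b_c3_n.V2A w z m r / r + R_t3b_c3_n.V2B w z m r := by
    unfold RowF.V2A RowF.V2B
    rw [a12, a23, a13, b12, b23, b13, la, lp, lq]
    simp only [R_t3b_c3_n, ml2_val]
    refine (phi_c hr hm x1 hw hrw).trans (le_of_eq ?_)
    try rw [ht]
    try rw [hz]
    linear_combination (G.mu (m * r) * G.LAM (m * r) / 2 * G.aL (m * r) r m w) * rrom hr hw hrw
  exact sb_core hr hm x1 hU hD hN hG hb he hL v1 v2

theorem sb_u1_p_f {w z m r : ℝ} (hr : 0 < r) (hm : 0 < m) (x1 : m * r ≤ 1 / 40) (hw : 0 ≤ w) (hrw :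
    r * w ≤ 1 / 16)
    (hfar : r < 1 / 100 → r * w ≤ 3 / 50)
    (hz : z = -(w / 2) - r * E0.G.om w r) : SBase R_u1_p_f w z m r (E0.G.om w r) := by
  have ht : w + z = w / 2 - r * E0.G.om w r := by rw [hz]; ring
  have x0 : 0 < m * r := mul_pos hm hr
  have om0 := om_nn hr hw hrw
  have omw := om_w hr hw hrw
  have omI := om_I hr hw hrw
  have hU : R_u1_p_f.U w z m r = 0 := by
    simp only [RowF.U, R_u1_p_f, u_T1_U_P1p_O1W, zx_val, xi1_val, xi3_val, xiw_val]
    try rw [ht]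
    try rw [hz]
    try rw [E1_xi1 hr hw hrw]
    try rw [E2_xi1 hr hw hrw]
    try rw [E3_xi3 hr hw hrw]
    try rw [E4_xi3 hr hw hrw]
    ring
  have k12 : R_u1_p_f.K12 w z m r = ku.v w m r (m * r) := by
    unfold RowF.K12
    rw [hU]
    simp only [R_u1_p_f, tkO1W_wp, zero_mul]
    try ring
  have a12 : R_u1_p_f.A12 w z m r = 0 := by
    unfold RowF.A12
    rw [hU]
    simp only [R_u1_p_f, taO1W_wp, zero_mul, neg_zero, Nat.cast_zero]
  have b12 : R_u1_p_f.B12 w z m r = lva.v w m r (m * r) := by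
    unfold RowF.B12
    rw [hU]
    simp only [R_u1_p_f, tcO1W_wp, zero_mul]
    try ring
  have k23 : R_u1_p_f.K23 w z m r = -(ku.v w m r (m * r) / 2 + 3 / 4 * (w * (1 + E0.G.qw w r)⁻¹) *
    (1 + r * ku.v w m r (m * r))) := by
    unfold RowF.K23
    rw [hU]
    simp only [R_u1_p_f, k1m_zn, zero_mul]
    rw [hz, e2_k hr hw hrw]
    try ring
  have a23 : R_u1_p_f.A23 w z m r = 0 := by
    unfold RowF.A23
    rw [hU]
    simp only [R_u1_p_f, zr7, zero_mul, neg_zero, Nat.cast_zero]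
  have b23 : R_u1_p_f.B23 w z m r = -lvm.v w m r (m * r) := by
    unfold RowF.B23
    rw [hU]
    simp only [R_u1_p_f, l1m_zn, zero_mul]
    rw [hz, e2_l hr hw hrw]
    try ring
  have k13 : R_u1_p_f.K13 w z m r = (ku.v w m r (m * r) / 2 - 3 / 4 * (w * (1 + E0.G.qw w r)⁻¹) *
    (1 + r * ku.v w m r (m * r))) := by
    unfold RowF.K13
    rw [hU]
    simp only [R_u1_p_f, k1p_tp, zero_mul]
    rw [ht, e1_k hr hw hrw]
    try ring
  have a13 : R_u1_p_f.A13 w z m r = 0 := by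
    unfold RowF.A13
    rw [hU]
    simp only [R_u1_p_f, zr7, zero_mul, neg_zero, Nat.cast_zero]
  have b13 : R_u1_p_f.B13 w z m r = lvp.v w m r (m * r) := by
    unfold RowF.B13
    rw [hU]
    simp only [R_u1_p_f, l1p_tp, zero_mul]
    rw [ht, e1_l hr hw hrw]
    try ring
  have la := lva_val hr w m hfar hrw
  have lm := lvm_val hr w m hfar
  have lp := lvp_val hr w m hfar
  have hD : R_u1_p_f.DL w z m r = 0 := by
    unfold RowF.DL
    rw [dln_val, k12, k23, k13]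
    ring
  have hN : R_u1_p_f.NF w z m r = r * (E0.G.om w r) := by
    simp only [RowF.NF, R_u1_p_f, nff_T1, bef_val]
    rw [ht]
    push_cast
    ring
  have hG : R_u1_p_f.GM w z m r = -(E0.G.om w r) := by
    unfold RowF.GM
    rw [k12, k23, k13]
    show gm2.v _ _ _ _ _ _ = _
    rw [gm2_val, ht, hz]
    linear_combination (-(1 + r * ku.v w m r (m * r))) * omI
  have hb : R_u1_p_f.NU w z m r / r + R_u1_p_f.BS w z m r = -(E0.G.om w r) +
      0 := by
    simp only [RowF.NU, RowF.BS, R_u1_p_f, nu0, bs_T1_Uf, bef_val, n1f_val, lmf_val, mu_val',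
      qo_val, eh_val, om_val, zx_val, xi1_val, xi3_val, xiw_val]
    try rw [ht]
    try rw [hz]
    try rw [E1_xi1 hr hw hrw]
    try rw [E2_xi1 hr hw hrw]
    try rw [E3_xi3 hr hw hrw]
    try rw [E4_xi3 hr hw hrw]
    rw [div_add' _ _ _ hr.ne', div_eq_iff hr.ne']
    push_cast
    linear_combination (-r) * omw
  have he : (0 : ℝ) ≤ 0 := by
    exact le_rfl
  have hL : R_u1_p_f.L w z ≠ 0 ∨ E0.G.om w r = 0 := by
    rcases hw.eq_or_lt with h | h
    · right
      rw [← h, om_0]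
    · left
      show w ≠ 0
      exact h.ne'
  have v1 : 0 ≤ R_u1_p_f.V1A w z m r / r + R_u1_p_f.V1B w z m r := by
    unfold RowF.V1A RowF.V1B
    rw [a12, a23, a13, b12, b23, b13, la, lm, lp]
    simp only [R_u1_p_f, vf1_val]
    refine le_of_eq ?_
    ring
  have v2 : 0 ≤ R_u1_p_f.V2A w z m r / r + R_u1_p_f.V2B w z m r := by
    unfold RowF.V2A RowF.V2B
    rw [a12, a23, a13, b12, b23, b13, la, lm, lp]
    simp only [R_u1_p_f, vf2_val]
    refine le_of_eq ?_
    ring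
  exact sb_core hr hm x1 hU hD hN hG hb he hL v1 v2

theorem sb_u1_p_n {w z m r : ℝ} (hr : 0 < r) (hm : 0 < m) (x1 : m * r ≤ 1 / 40) (hw : 0 ≤ w) (hrw :
    r * w ≤ 1 / 16)
    (hfar : r < 1 / 100 → r * w ≤ 3 / 50)
    (hz : z = -(w / 2) - r * E0.G.om w r) : SBase R_u1_p_n w z m r (G.be (m * r) * E0.G.om w r) :=
      by
  have ht : w + z = w / 2 - r * E0.G.om w r := by rw [hz]; ring
  have x0 : 0 < m * r := mul_pos hm hr
  have om0 := om_nn hr hw hrw
  have omw := om_w hr hw hrw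
  have omI := om_I hr hw hrw
  have hU : R_u1_p_n.U w z m r = 0 := by
    simp only [RowF.U, R_u1_p_n, u_T1_U_P1p_O1W, zx_val, xi1_val, xi3_val, xiw_val]
    try rw [ht]
    try rw [hz]
    try rw [E1_xi1 hr hw hrw]
    try rw [E2_xi1 hr hw hrw]
    try rw [E3_xi3 hr hw hrw]
    try rw [E4_xi3 hr hw hrw]
    ring
  have k12 : R_u1_p_n.K12 w z m r = (1 + G.LAM (m * r) * G.mu (m * r)) * (ku.v w m r (m * r)) +
      G.mu (m * r) * (kv.v w m r (m * r)) := by
    unfold RowF.K12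
    rw [hU]
    simp only [R_u1_p_n, ntkO1W_wp, tkO1W_wp, tbO1W_wp, nkf_val, zero_mul]
    try ring
  have a12 : R_u1_p_n.A12 w z m r = 0 := by
    unfold RowF.A12
    rw [hU]
    simp only [R_u1_p_n, taO1W_wp, zero_mul, neg_zero, Nat.cast_zero]
  have b12 : R_u1_p_n.B12 w z m r = lva.v w m r (m * r) := by
    unfold RowF.B12
    rw [hU]
    simp only [R_u1_p_n, tcO1W_wp, zero_mul]
    try ring
  have k23 : R_u1_p_n.K23 w z m r = (1 + G.LAM (m * r) * G.mu (m * r)) * (-(ku.v w m r (m * r) / 2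
    + 3 / 4 * (w * (1 + E0.G.qw w r)⁻¹) * (1 + r * ku.v w m r (m * r)))) +
      G.mu (m * r) * (-(kv.v w m r (m * r) / 2 + 3 / 4 * (w * (1 + E0.G.qw w r)⁻¹) * (G.B0 (m * r)
        + r * kv.v w m r (m * r)))) := by
    unfold RowF.K23
    rw [hU]
    simp only [R_u1_p_n, nk1m_zn, k1m_zn, b1m_zn, nkf_val, zero_mul]
    rw [hz, e2_k hr hw hrw, e2_b hr hw hrw]
    try ring
  have a23 : R_u1_p_n.A23 w z m r = 0 := by
    unfold RowF.A23
    rw [hU]
    simp only [R_u1_p_n, zr7, zero_mul, neg_zero, Nat.cast_zero]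
  have b23 : R_u1_p_n.B23 w z m r = -lvm.v w m r (m * r) := by
    unfold RowF.B23
    rw [hU]
    simp only [R_u1_p_n, l1m_zn, zero_mul]
    rw [hz, e2_l hr hw hrw]
    try ring
  have k13 : R_u1_p_n.K13 w z m r = (1 + G.LAM (m * r) * G.mu (m * r)) * ((ku.v w m r (m * r) / 2 -
    3 / 4 * (w * (1 + E0.G.qw w r)⁻¹) * (1 + r * ku.v w m r (m * r)))) +
      G.mu (m * r) * ((kv.v w m r (m * r) / 2 - 3 / 4 * (w * (1 + E0.G.qw w r)⁻¹) * (G.B0 (m * r) +
        r * kv.v w m r (m * r)))) := by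
    unfold RowF.K13
    rw [hU]
    simp only [R_u1_p_n, nk1p_tp, k1p_tp, b1p_tp, nkf_val, zero_mul]
    rw [ht, e1_k hr hw hrw, e1_b hr hw hrw]
    try ring
  have a13 : R_u1_p_n.A13 w z m r = 0 := by
    unfold RowF.A13
    rw [hU]
    simp only [R_u1_p_n, zr7, zero_mul, neg_zero, Nat.cast_zero]
  have b13 : R_u1_p_n.B13 w z m r = lvp.v w m r (m * r) := by
    unfold RowF.B13
    rw [hU]
    simp only [R_u1_p_n, l1p_tp, zero_mul]
    rw [ht, e1_l hr hw hrw]
    try ring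
  have la := lva_val hr w m hfar hrw
  have lm := lvm_val hr w m hfar
  have lp := lvp_val hr w m hfar
  have hD : R_u1_p_n.DL w z m r = 0 := by
    unfold RowF.DL
    rw [dln_val, k12, k23, k13]
    ring
  have hN : R_u1_p_n.NF w z m r = r * (G.be (m * r) * E0.G.om w r) := by
    simp only [RowF.NF, R_u1_p_n, nfn_T1, bef_val]
    rw [ht]
    push_cast
    ring
  have hG : R_u1_p_n.GM w z m r = -(G.be (m * r) * E0.G.om w r) := by
    unfold RowF.GM
    rw [k12, k23, k13]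
    show gm2.v _ _ _ _ _ _ = _
    rw [gm2_val, ht, hz]
    unfold G.be
    linear_combination (-((1 + G.LAM (m * r) * G.mu (m * r)) * (1 + r * ku.v w m r (m * r)) +
      G.mu (m * r) * (G.B0 (m * r) + r * kv.v w m r (m * r)))) * omI
  have hb : R_u1_p_n.NU w z m r / r + R_u1_p_n.BS w z m r = -(G.be (m * r) * E0.G.om w r) +
      G.mu (m * r) * G.LAM (m * r) * E0.G.om w r / 2 := by
    simp only [RowF.NU, RowF.BS, R_u1_p_n, nu0, bs_T1_Un, bef_val, n1f_val, lmf_val, mu_val',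
      qo_val, eh_val, om_val, zx_val, xi1_val, xi3_val, xiw_val]
    try rw [ht]
    try rw [hz]
    try rw [E1_xi1 hr hw hrw]
    try rw [E2_xi1 hr hw hrw]
    try rw [E3_xi3 hr hw hrw]
    try rw [E4_xi3 hr hw hrw]
    rw [div_add' _ _ _ hr.ne', div_eq_iff hr.ne']
    push_cast
    have h2 := one_sub_eh' x0.le (by linarith : m * r ≤ 1)
    have h3 := (eh_pos' x0 (by linarith)).ne'
    unfold G.be G.B0
    field_simp
    linear_combination (-128 * r * G.eh (m * r) * (1 + G.LAM (m * r) * G.mu (m * r))) * omw + (64 *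
      r * G.LAM (m * r) * G.mu (m * r) * E0.G.om w r) * h2
  have he : (0 : ℝ) ≤ G.mu (m * r) * G.LAM (m * r) * E0.G.om w r / 2 := by
    have h1 := LAM_nn x0.le (by linarith : m * r ≤ 1)
    have h2 := mu_nn (m * r)
    positivity
  have hL : R_u1_p_n.L w z ≠ 0 ∨ G.be (m * r) * E0.G.om w r = 0 := by
    rcases hw.eq_or_lt with h | h
    · right
      rw [← h, om_0, mul_zero]
    · left
      show w ≠ 0
      exact h.ne'
  have v1 : 0 ≤ R_u1_p_n.V1A w z m r / r + R_u1_p_n.V1B w z m r := by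
    unfold RowF.V1A RowF.V1B
    rw [a12, a23, a13, b12, b23, b13, la, lm, lp]
    simp only [R_u1_p_n, ml1_val]
    refine (phi_c hr hm x1 hw hrw).trans (le_of_eq ?_)
    try rw [ht]
    try rw [hz]
    linear_combination (G.mu (m * r) * G.LAM (m * r) / 2 * G.aL (m * r) r m w) * rrom hr hw hrw
  have v2 : 0 ≤ R_u1_p_n.V2A w z m r / r + R_u1_p_n.V2B w z m r := by
    unfold RowF.V2A RowF.V2B
    rw [a12, a23, a13, b12, b23, b13, la, lm, lp]
    simp only [R_u1_p_n, ml2_val]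
    refine (phi_c hr hm x1 hw hrw).trans (le_of_eq ?_)
    try rw [ht]
    try rw [hz]
    linear_combination (G.mu (m * r) * G.LAM (m * r) / 2 * G.aL (m * r) r m w) * rrom hr hw hrw
  exact sb_core hr hm x1 hU hD hN hG hb he hL v1 v2

end Pool.Agent.Strip051.LC.E1.Ch
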