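import Pool.Agent.Strip051.LC.E1.Ch.Lk
import Pool.Agent.Strip051.LC.E1.Ch.Te
import Pool.Agent.Strip051.LC.E1.Ch.Gd2
import Pool.Agent.Strip051.LC.E1.Ch.Gd3
import Pool.Agent.Strip051.LC.E1.Ch.Bc2
import Pool.Agent.Strip051.LC.E1.Ch.Bc3
import Pool.Agent.Strip051.LC.E1.Ch.Bt2

/-! # Rests near the full period: the rows from their trees -/

set_option linter.unusedVariables false
set_option linter.unusedSimpArgs false

namespace Pool.Agent.Strip051.LC.E1.Ch

open Pool.Agent.Strip051.PB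
open Pool.Agent.Strip051.LC.E0.Ch (onCell Tree)
open Pool.Agent.Strip051.LC.E1.G (hg)

theorem r_t2b_c1_du_f (t1 : Tree 0 2684354560 0 1073741824 0 26843546 T1_t2b_c1_du_f)
    (t2 : Tree 0 1073741824 0 429496730 0 67108864 T2_t2b_c1_du_f) :
    ∀ r lam w z xi' : ℝ, Dom .pnp r lam w z → xi' = -(r * E0.G.om w r) + E0.G.xi1 (w + z) r →
        G.xc z r ≤ 3 / 2 + r * xi' → xi' ≤ E0.G.xiw z r →
    RowT .far .pnp B2 r lam w z (-E0.G.xi1 (w + z) r) (-G.Pc xi' r lam z) (-G.C1u r lam (w + z))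
        := by
  intro r lam w z xi' D e_xip h1 h2
  have g := g_t2b_c1_du_f D e_xip h1 h2
  obtain ⟨H1, H2, H3⟩ := hc_of D
  obtain ⟨ka, kb, kc⟩ : 0 ≤ w ∧ z ≤ 0 ∧ 0 ≤ w + z := D.ok
  refine charts t1 t2 (crd_pnp D) D.r0 D.l0 ?_ ?_
  · intro e1 r1 E h W Wd Z Zd M Q N wd zd kw kwd kz kzd km kr ew ez hN hh
    refine body_sound ?_ ?_ ?_ ?_ ?_ ?_ hh
    · exact fun c k s h0 => g.of_sk fun lev D' hl => dirT_sound kw kz km kr D' (fun e => absurd e
        Bool.false_ne_true) hl h0
    · exact noF_sound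
    · exact fun c k s h0 => g.of_sk fun lev D' hl => conT_sound kw kz kwd kzd km kr ew ez hN D'
        (cb_t2b_c1_du_f D.r0 D.l0 D.e) (fun e => absurd e Bool.false_ne_true) (fun e => absurd e
        Bool.false_ne_true) hl h0
    · exact noF_sound
    · exact exits_sound (fun h0 => g.of_ex fun D' => exT_sound kw kz km kr D' h0) (fun h0 =>
        absurd h0 Bool.false_ne_true) (fun h0 => g.of_ex fun D' => cexT_sound kw kz kwd kzd km kr
        ew ez hN D' (cb_t2b_c1_du_f D.r0 D.l0 D.e).u h0)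
    · exact noF_sound
  · intro E h W Wd Z Zd M Q N wd zd kw kwd kz kzd km kr ew ez hN hh
    refine body_sound ?_ ?_ ?_ ?_ ?_ ?_ hh
    · exact fun c k s h0 => g.of_sk fun lev D' hl => dirT_sound kw kz km kr D' (fun e => absurd e
        Bool.false_ne_true) hl h0
    · exact noF_sound
    · exact noF_sound
    · exact noF_sound
    · exact exits_sound (fun h0 => g.of_ex fun D' => exT_sound kw kz km kr D' h0) (fun h0 =>
        absurd h0 Bool.false_ne_true) (fun h0 => absurd h0 Bool.false_ne_true)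
    · exact noF_sound

theorem r_t2b_c1_du_n (t1 : Tree 0 2684354560 0 1073741824 0 26843546 T1_t2b_c1_du_n)
    (t2 : Tree 0 1073741824 0 429496730 0 67108864 T2_t2b_c1_du_n) :
    ∀ r lam w z xi' : ℝ, Dom .pnp r lam w z → xi' = -(r * E0.G.om w r) + E0.G.xi1 (w + z) r →
        G.xc z r ≤ 3 / 2 + r * xi' → xi' ≤ E0.G.xiw z r →
    RowT .near .pnp B2 r lam w z (-E0.G.xi1 (w + z) r) (-G.Pc xi' r lam z) (-G.C1u r lam (w + z))
        := by
  intro r lam w z xi' D e_xip h1 h2
  have g := g_t2b_c1_du_n D e_xip h1 h2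
  obtain ⟨H1, H2, H3⟩ := hc_of D
  obtain ⟨ka, kb, kc⟩ : 0 ≤ w ∧ z ≤ 0 ∧ 0 ≤ w + z := D.ok
  refine charts t1 t2 (crd_pnp D) D.r0 D.l0 ?_ ?_
  · intro e1 r1 E h W Wd Z Zd M Q N wd zd kw kwd kz kzd km kr ew ez hN hh
    refine body_sound ?_ ?_ ?_ ?_ ?_ ?_ hh
    · exact fun c k s h0 => g.of_sk fun lev D' hl => dirT_sound kw kz km kr D' (fun e => absurd e
        Bool.false_ne_true) hl h0
    · exact noF_sound
    · exact fun c k s h0 => g.of_sk fun lev D' hl => conT_sound kw kz kwd kzd km kr ew ez hN D'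
        (cb_t2b_c1_du_n D.r0 D.l0 D.e) (fun e => absurd e Bool.false_ne_true) (fun e => absurd e
        Bool.false_ne_true) hl h0
    · exact noF_sound
    · exact exits_sound (fun h0 => g.of_ex fun D' => exT_sound kw kz km kr D' h0) (fun h0 =>
        absurd h0 Bool.false_ne_true) (fun h0 => g.of_ex fun D' => cexT_sound kw kz kwd kzd km kr
        ew ez hN D' (cb_t2b_c1_du_n D.r0 D.l0 D.e).u h0)
    · exact noF_sound
  · intro E h W Wd Z Zd M Q N wd zd kw kwd kz kzd km kr ew ez hN hh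
    refine body_sound ?_ ?_ ?_ ?_ ?_ ?_ hh
    · exact fun c k s h0 => g.of_sk fun lev D' hl => dirT_sound kw kz km kr D' (fun e => absurd e
        Bool.false_ne_true) hl h0
    · exact noF_sound
    · exact noF_sound
    · exact noF_sound
    · exact exits_sound (fun h0 => g.of_ex fun D' => exT_sound kw kz km kr D' h0) (fun h0 =>
        absurd h0 Bool.false_ne_true) (fun h0 => absurd h0 Bool.false_ne_true)
    · exact noF_sound

theorem r_t2b_c1_u_f (t1 : Tree 0 2684354560 0 1073741824 0 26843546 T1_t2b_c1_u_f)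
    (t2 : Tree 0 1073741824 0 429496730 0 67108864 T2_t2b_c1_u_f) :
    ∀ r lam w z xi' : ℝ, Dom .pp r lam w z → xi' = -(r * E0.G.om w r) + E0.G.xi1 (w + z) r → G.xd
        z r ≤ 3 / 2 + r * xi' → xi' ≤ E0.G.xi3 z r →
    RowT .far .pp B2 r lam w z (-E0.G.xi1 (w + z) r) (-G.Pd xi' r lam z) (-G.C1u r lam (w + z))
        := by
  intro r lam w z xi' D e_xip h1 h2
  have g := g_t2b_c1_u_f D e_xip h1 h2
  obtain ⟨H1, H2, H3⟩ := hc_of D
  obtain ⟨ka, kb⟩ : 0 ≤ w ∧ 0 ≤ z := D.ok
  refine charts t1 t2 (crd_pp D) D.r0 D.l0 ?_ ?_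
  · intro e1 r1 E h W Wd Z Zd M Q N wd zd kw kwd kz kzd km kr ew ez hN hh
    refine body_sound ?_ ?_ ?_ ?_ ?_ ?_ hh
    · exact fun c k s h0 => g.of_sk fun lev D' hl => dirT_sound kw kz km kr D' (fun e => absurd e
        Bool.false_ne_true) hl h0
    · exact noF_sound
    · exact fun c k s h0 => g.of_sk fun lev D' hl => conT_sound kw kz kwd kzd km kr ew ez hN D'
        (cb_t2b_c1_u_f D.r0 D.l0 D.e) (fun e => absurd e Bool.false_ne_true) (fun e => absurd e
        Bool.false_ne_true) hl h0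
    · exact noF_sound
    · exact exits_sound (fun h0 => g.of_ex fun D' => exT_sound kw kz km kr D' h0) (fun h0 =>
        absurd h0 Bool.false_ne_true) (fun h0 => g.of_ex fun D' => cexT_sound kw kz kwd kzd km kr
        ew ez hN D' (cb_t2b_c1_u_f D.r0 D.l0 D.e).u h0)
    · exact noF_sound
  · intro E h W Wd Z Zd M Q N wd zd kw kwd kz kzd km kr ew ez hN hh
    refine body_sound ?_ ?_ ?_ ?_ ?_ ?_ hh
    · exact fun c k s h0 => g.of_sk fun lev D' hl => dirT_sound kw kz km kr D' (fun e => absurd e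
        Bool.false_ne_true) hl h0
    · exact noF_sound
    · exact noF_sound
    · exact noF_sound
    · exact exits_sound (fun h0 => g.of_ex fun D' => exT_sound kw kz km kr D' h0) (fun h0 =>
        absurd h0 Bool.false_ne_true) (fun h0 => absurd h0 Bool.false_ne_true)
    · exact noF_sound

theorem r_t2b_c1_u_n (t1 : Tree 0 2684354560 0 1073741824 0 26843546 T1_t2b_c1_u_n)
    (t2 : Tree 0 1073741824 0 429496730 0 67108864 T2_t2b_c1_u_n) :
    ∀ r lam w z xi' : ℝ, Dom .pp r lam w z → xi' = -(r * E0.G.om w r) + E0.G.xi1 (w + z) r → G.xd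
        z r ≤ 3 / 2 + r * xi' → xi' ≤ E0.G.xi3 z r →
    RowT .near .pp B2 r lam w z (-E0.G.xi1 (w + z) r) (-G.Pd xi' r lam z) (-G.C1u r lam (w + z))
        := by
  intro r lam w z xi' D e_xip h1 h2
  have g := g_t2b_c1_u_n D e_xip h1 h2
  obtain ⟨H1, H2, H3⟩ := hc_of D
  obtain ⟨ka, kb⟩ : 0 ≤ w ∧ 0 ≤ z := D.ok
  refine charts t1 t2 (crd_pp D) D.r0 D.l0 ?_ ?_
  · intro e1 r1 E h W Wd Z Zd M Q N wd zd kw kwd kz kzd km kr ew ez hN hh
    refine body_sound ?_ ?_ ?_ ?_ ?_ ?_ hh
    · exact fun c k s h0 => g.of_sk fun lev D' hl => dirT_sound kw kz km kr D' (fun e => absurd e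
        Bool.false_ne_true) hl h0
    · exact noF_sound
    · exact fun c k s h0 => g.of_sk fun lev D' hl => conT_sound kw kz kwd kzd km kr ew ez hN D'
        (cb_t2b_c1_u_n D.r0 D.l0 D.e) (fun e => absurd e Bool.false_ne_true) (fun e => absurd e
        Bool.false_ne_true) hl h0
    · exact noF_sound
    · exact exits_sound (fun h0 => g.of_ex fun D' => exT_sound kw kz km kr D' h0) (fun h0 =>
        absurd h0 Bool.false_ne_true) (fun h0 => g.of_ex fun D' => cexT_sound kw kz kwd kzd km kr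
        ew ez hN D' (cb_t2b_c1_u_n D.r0 D.l0 D.e).u h0)
    · exact noF_sound
  · intro E h W Wd Z Zd M Q N wd zd kw kwd kz kzd km kr ew ez hN hh
    refine body_sound ?_ ?_ ?_ ?_ ?_ ?_ hh
    · exact fun c k s h0 => g.of_sk fun lev D' hl => dirT_sound kw kz km kr D' (fun e => absurd e
        Bool.false_ne_true) hl h0
    · exact noF_sound
    · exact noF_sound
    · exact noF_sound
    · exact exits_sound (fun h0 => g.of_ex fun D' => exT_sound kw kz km kr D' h0) (fun h0 =>
        absurd h0 Bool.false_ne_true) (fun h0 => absurd h0 Bool.false_ne_true)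
    · exact noF_sound

theorem r_t2b_W_d_f (t1 : Tree 0 2684354560 0 1073741824 0 26843546 T1_t2b_W_d_f)
    (t2 : Tree 0 1073741824 0 429496730 0 67108864 T2_t2b_W_d_f) :
    ∀ r lam w z xi' : ℝ, Dom .pnp r lam w z → xi' = -(r * E0.G.om w r) + E0.G.xiw (w + z) r →
        G.xc z r ≤ 3 / 2 + r * xi' → xi' ≤ E0.G.xiw z r →
    RowT .far .pnp B2 r lam w z (-E0.G.xiw (w + z) r) (-G.Pc xi' r lam z) (-G.W2 r lam (w + z))
        := by
  intro r lam w z xi' D e_xip h1 h2
  have g := g_t2b_W_d_f D e_xip h1 h2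
  obtain ⟨H1, H2, H3⟩ := hc_of D
  obtain ⟨ka, kb, kc⟩ : 0 ≤ w ∧ z ≤ 0 ∧ 0 ≤ w + z := D.ok
  refine charts t1 t2 (crd_pnp D) D.r0 D.l0 ?_ ?_
  · intro e1 r1 E h W Wd Z Zd M Q N wd zd kw kwd kz kzd km kr ew ez hN hh
    refine body_sound ?_ ?_ ?_ ?_ ?_ ?_ hh
    · exact fun c k s h0 => g.of_sk fun lev D' hl => dirT_sound kw kz km kr D' (fun e => absurd e
        Bool.false_ne_true) hl h0
    · exact noF_sound
    · exact fun c k s h0 => g.of_sk fun lev D' hl => conT_sound kw kz kwd kzd km kr ew ez hN D'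
        (cb_t2b_W_d_f D.r0 D.l0 D.e) (fun e => absurd e Bool.false_ne_true) (fun e => absurd e
        Bool.false_ne_true) hl h0
    · exact noF_sound
    · exact exits_sound (fun h0 => g.of_ex fun D' => exT_sound kw kz km kr D' h0) (fun h0 =>
        absurd h0 Bool.false_ne_true) (fun h0 => g.of_ex fun D' => cexT_sound kw kz kwd kzd km kr
        ew ez hN D' (cb_t2b_W_d_f D.r0 D.l0 D.e).u h0)
    · exact noF_sound
  · intro E h W Wd Z Zd M Q N wd zd kw kwd kz kzd km kr ew ez hN hh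
    refine body_sound ?_ ?_ ?_ ?_ ?_ ?_ hh
    · exact fun c k s h0 => g.of_sk fun lev D' hl => dirT_sound kw kz km kr D' (fun e => absurd e
        Bool.false_ne_true) hl h0
    · exact noF_sound
    · exact noF_sound
    · exact noF_sound
    · exact exits_sound (fun h0 => g.of_ex fun D' => exT_sound kw kz km kr D' h0) (fun h0 =>
        absurd h0 Bool.false_ne_true) (fun h0 => absurd h0 Bool.false_ne_true)
    · exact noF_sound

theorem r_t2b_W_d_n (t1 : Tree 0 2684354560 0 1073741824 0 26843546 T1_t2b_W_d_n)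
    (t2 : Tree 0 1073741824 0 429496730 0 67108864 T2_t2b_W_d_n) :
    ∀ r lam w z xi' : ℝ, Dom .pnp r lam w z → xi' = -(r * E0.G.om w r) + E0.G.xiw (w + z) r →
        G.xc z r ≤ 3 / 2 + r * xi' → xi' ≤ E0.G.xiw z r →
    RowT .near .pnp B2 r lam w z (-E0.G.xiw (w + z) r) (-G.Pc xi' r lam z) (-G.W2 r lam (w + z))
        := by
  intro r lam w z xi' D e_xip h1 h2
  have g := g_t2b_W_d_n D e_xip h1 h2
  obtain ⟨H1, H2, H3⟩ := hc_of D
  obtain ⟨ka, kb, kc⟩ : 0 ≤ w ∧ z ≤ 0 ∧ 0 ≤ w + z := D.ok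
  refine charts t1 t2 (crd_pnp D) D.r0 D.l0 ?_ ?_
  · intro e1 r1 E h W Wd Z Zd M Q N wd zd kw kwd kz kzd km kr ew ez hN hh
    refine body_sound ?_ ?_ ?_ ?_ ?_ ?_ hh
    · exact fun c k s h0 => g.of_sk fun lev D' hl => dirT_sound kw kz km kr D' (fun e => absurd e
        Bool.false_ne_true) hl h0
    · exact noF_sound
    · exact fun c k s h0 => g.of_sk fun lev D' hl => conT_sound kw kz kwd kzd km kr ew ez hN D'
        (cb_t2b_W_d_n D.r0 D.l0 D.e) (fun e => absurd e Bool.false_ne_true) (fun e => absurd e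
        Bool.false_ne_true) hl h0
    · exact noF_sound
    · exact exits_sound (fun h0 => g.of_ex fun D' => exT_sound kw kz km kr D' h0) (fun h0 =>
        absurd h0 Bool.false_ne_true) (fun h0 => g.of_ex fun D' => cexT_sound kw kz kwd kzd km kr
        ew ez hN D' (cb_t2b_W_d_n D.r0 D.l0 D.e).u h0)
    · exact noF_sound
  · intro E h W Wd Z Zd M Q N wd zd kw kwd kz kzd km kr ew ez hN hh
    refine body_sound ?_ ?_ ?_ ?_ ?_ ?_ hh
    · exact fun c k s h0 => g.of_sk fun lev D' hl => dirT_sound kw kz km kr D' (fun e => absurd e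
        Bool.false_ne_true) hl h0
    · exact noF_sound
    · exact noF_sound
    · exact noF_sound
    · exact exits_sound (fun h0 => g.of_ex fun D' => exT_sound kw kz km kr D' h0) (fun h0 =>
        absurd h0 Bool.false_ne_true) (fun h0 => absurd h0 Bool.false_ne_true)
    · exact noF_sound

theorem r_t2b_W_u_f (t1 : Tree 0 2684354560 0 1073741824 0 26843546 T1_t2b_W_u_f)
    (t2 : Tree 0 1073741824 0 429496730 0 67108864 T2_t2b_W_u_f) :
    ∀ r lam w z xi' : ℝ, Dom .pp r lam w z → xi' = -(r * E0.G.om w r) + E0.G.xiw (w + z) r → G.xd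
        z r ≤ 3 / 2 + r * xi' → xi' ≤ E0.G.xi3 z r →
    RowT .far .pp B2 r lam w z (-E0.G.xiw (w + z) r) (-G.Pd xi' r lam z) (-G.W2 r lam (w + z)) :=
        by
  intro r lam w z xi' D e_xip h1 h2
  have g := g_t2b_W_u_f D e_xip h1 h2
  obtain ⟨H1, H2, H3⟩ := hc_of D
  obtain ⟨ka, kb⟩ : 0 ≤ w ∧ 0 ≤ z := D.ok
  refine charts t1 t2 (crd_pp D) D.r0 D.l0 ?_ ?_
  · intro e1 r1 E h W Wd Z Zd M Q N wd zd kw kwd kz kzd km kr ew ez hN hh
    refine body_sound ?_ ?_ ?_ ?_ ?_ ?_ hh
    · exact fun c k s h0 => g.of_sk fun lev D' hl => dirT_sound kw kz km kr D' (fun e => absurd e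
        Bool.false_ne_true) hl h0
    · exact noF_sound
    · exact fun c k s h0 => g.of_sk fun lev D' hl => conT_sound kw kz kwd kzd km kr ew ez hN D'
        (cb_t2b_W_u_f D.r0 D.l0 D.e) (fun e => absurd e Bool.false_ne_true) (fun e => absurd e
        Bool.false_ne_true) hl h0
    · exact noF_sound
    · exact exits_sound (fun h0 => g.of_ex fun D' => exT_sound kw kz km kr D' h0) (fun h0 =>
        absurd h0 Bool.false_ne_true) (fun h0 => g.of_ex fun D' => cexT_sound kw kz kwd kzd km kr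
        ew ez hN D' (cb_t2b_W_u_f D.r0 D.l0 D.e).u h0)
    · exact noF_sound
  · intro E h W Wd Z Zd M Q N wd zd kw kwd kz kzd km kr ew ez hN hh
    refine body_sound ?_ ?_ ?_ ?_ ?_ ?_ hh
    · exact fun c k s h0 => g.of_sk fun lev D' hl => dirT_sound kw kz km kr D' (fun e => absurd e
        Bool.false_ne_true) hl h0
    · exact noF_sound
    · exact noF_sound
    · exact noF_sound
    · exact exits_sound (fun h0 => g.of_ex fun D' => exT_sound kw kz km kr D' h0) (fun h0 =>
        absurd h0 Bool.false_ne_true) (fun h0 => absurd h0 Bool.false_ne_true)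
    · exact noF_sound

theorem r_t2b_W_u_n (t1 : Tree 0 2684354560 0 1073741824 0 26843546 T1_t2b_W_u_n)
    (t2 : Tree 0 1073741824 0 429496730 0 67108864 T2_t2b_W_u_n) :
    ∀ r lam w z xi' : ℝ, Dom .pp r lam w z → xi' = -(r * E0.G.om w r) + E0.G.xiw (w + z) r → G.xd
        z r ≤ 3 / 2 + r * xi' → xi' ≤ E0.G.xi3 z r →
    RowT .near .pp B2 r lam w z (-E0.G.xiw (w + z) r) (-G.Pd xi' r lam z) (-G.W2 r lam (w + z))
        := by
  intro r lam w z xi' D e_xip h1 h2
  have g := g_t2b_W_u_n D e_xip h1 h2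
  obtain ⟨H1, H2, H3⟩ := hc_of D
  obtain ⟨ka, kb⟩ : 0 ≤ w ∧ 0 ≤ z := D.ok
  refine charts t1 t2 (crd_pp D) D.r0 D.l0 ?_ ?_
  · intro e1 r1 E h W Wd Z Zd M Q N wd zd kw kwd kz kzd km kr ew ez hN hh
    refine body_sound ?_ ?_ ?_ ?_ ?_ ?_ hh
    · exact fun c k s h0 => g.of_sk fun lev D' hl => dirT_sound kw kz km kr D' (fun e => absurd e
        Bool.false_ne_true) hl h0
    · exact noF_sound
    · exact fun c k s h0 => g.of_sk fun lev D' hl => conT_sound kw kz kwd kzd km kr ew ez hN D'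
        (cb_t2b_W_u_n D.r0 D.l0 D.e) (fun e => absurd e Bool.false_ne_true) (fun e => absurd e
        Bool.false_ne_true) hl h0
    · exact noF_sound
    · exact exits_sound (fun h0 => g.of_ex fun D' => exT_sound kw kz km kr D' h0) (fun h0 =>
        absurd h0 Bool.false_ne_true) (fun h0 => g.of_ex fun D' => cexT_sound kw kz kwd kzd km kr
        ew ez hN D' (cb_t2b_W_u_n D.r0 D.l0 D.e).u h0)
    · exact noF_sound
  · intro E h W Wd Z Zd M Q N wd zd kw kwd kz kzd km kr ew ez hN hh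
    refine body_sound ?_ ?_ ?_ ?_ ?_ ?_ hh
    · exact fun c k s h0 => g.of_sk fun lev D' hl => dirT_sound kw kz km kr D' (fun e => absurd e
        Bool.false_ne_true) hl h0
    · exact noF_sound
    · exact noF_sound
    · exact noF_sound
    · exact exits_sound (fun h0 => g.of_ex fun D' => exT_sound kw kz km kr D' h0) (fun h0 =>
        absurd h0 Bool.false_ne_true) (fun h0 => absurd h0 Bool.false_ne_true)
    · exact noF_sound

theorem r_t3a_c1_f (t1 : Tree 0 2684354560 0 1073741824 0 26843546 T1_t3a_c1_f)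
    (t2 : Tree 0 1073741824 0 429496730 0 67108864 T2_t3a_c1_f) :
    ∀ r lam w z xi : ℝ, Dom .pp r lam w z → xi = -(r * E0.G.om w r) + E0.G.xi1 z r → G.xd (w + z)
        r ≤ 3 / 2 + r * xi → xi ≤ E0.G.xi3 (w + z) r →
    RowT .far .pp B3 r lam w z xi (G.C1u r lam z) (G.Pd xi r lam (w + z)) := by
  intro r lam w z xi D e_xi h1 h2
  have g := g_t3a_c1_f D e_xi h1 h2
  obtain ⟨H1, H2, H3⟩ := hc_of D
  obtain ⟨ka, kb⟩ : 0 ≤ w ∧ 0 ≤ z := D.ok
  have hsb : SBase R_t3a_c1_f w (-kw3.v w r) lam r (nbf.v w r (lam * r)) := by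
    rw [nbf_val]
    exact sb_t3a_c1_f D.r0 D.l0 D.e ka (abs_le.1 H1.a).2 (fun e => (abs_le.1 (H1.b e)).2.trans
        (by norm_num))
      (by rw [kw3_val]; ring)
  refine charts t1 t2 (crd_pp D) D.r0 D.l0 ?_ ?_
  · intro e1 r1 E h W Wd Z Zd M Q N wd zd kw kwd kz kzd km kr ew ez hN hh
    refine body_sound ?_ ?_ ?_ ?_ ?_ ?_ hh
    · exact fun c k s h0 => g.of_sk fun lev D' hl => dirT_sound kw kz km kr D' (fun e => absurd e
        Bool.false_ne_true) hl h0
    · exact fun c k s h0 => g.of_sk fun lev D' hl => strT_sound kw kz km kr (enc_one E) (by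
        norm_num) D' hsb (fun e => absurd e Bool.false_ne_true) (fun e => absurd e
        Bool.false_ne_true) hl h0
    · exact fun c k s h0 => g.of_sk fun lev D' hl => conT_sound kw kz kwd kzd km kr ew ez hN D'
        (cb_t3a_c1_f D.r0 D.l0 D.e) (fun e => absurd e Bool.false_ne_true) (fun e => absurd e
        Bool.false_ne_true) hl h0
    · exact noF_sound
    · exact exits_sound (fun h0 => g.of_ex fun D' => exT_sound kw kz km kr D' h0) (fun h0 =>
        absurd h0 Bool.false_ne_true) (fun h0 => g.of_ex fun D' => cexT_sound kw kz kwd kzd km kr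
        ew ez hN D' (cb_t3a_c1_f D.r0 D.l0 D.e).u h0)
    · exact noF_sound
  · intro E h W Wd Z Zd M Q N wd zd kw kwd kz kzd km kr ew ez hN hh
    refine body_sound ?_ ?_ ?_ ?_ ?_ ?_ hh
    · exact fun c k s h0 => g.of_sk fun lev D' hl => dirT_sound kw kz km kr D' (fun e => absurd e
        Bool.false_ne_true) hl h0
    · exact fun c k s h0 => g.of_sk fun lev D' hl => strT_sound kw kz km kr (enc_one E) (by
        norm_num) D' hsb (fun e => absurd e Bool.false_ne_true) (fun e => absurd e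
        Bool.false_ne_true) hl h0
    · exact noF_sound
    · exact noF_sound
    · exact exits_sound (fun h0 => g.of_ex fun D' => exT_sound kw kz km kr D' h0) (fun h0 =>
        absurd h0 Bool.false_ne_true) (fun h0 => absurd h0 Bool.false_ne_true)
    · exact noF_sound

theorem r_t3a_c1_n (t1 : Tree 0 2684354560 0 1073741824 0 26843546 T1_t3a_c1_n)
    (t2 : Tree 0 1073741824 0 429496730 0 67108864 T2_t3a_c1_n) :
    ∀ r lam w z xi : ℝ, Dom .pp r lam w z → xi = -(r * E0.G.om w r) + E0.G.xi1 z r → G.xd (w + z)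
        r ≤ 3 / 2 + r * xi → xi ≤ E0.G.xi3 (w + z) r →
    RowT .near .pp B3 r lam w z xi (G.C1u r lam z) (G.Pd xi r lam (w + z)) := by
  intro r lam w z xi D e_xi h1 h2
  have g := g_t3a_c1_n D e_xi h1 h2
  obtain ⟨H1, H2, H3⟩ := hc_of D
  obtain ⟨ka, kb⟩ : 0 ≤ w ∧ 0 ≤ z := D.ok
  have hsb : SBase R_t3a_c1_n w (-kw3.v w r) lam r (nbn.v w r (lam * r)) := by
    rw [nbn_val]
    exact sb_t3a_c1_n D.r0 D.l0 D.e ka (abs_le.1 H1.a).2 (fun e => (abs_le.1 (H1.b e)).2.trans
        (by norm_num))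
      (by rw [kw3_val]; ring)
  refine charts t1 t2 (crd_pp D) D.r0 D.l0 ?_ ?_
  · intro e1 r1 E h W Wd Z Zd M Q N wd zd kw kwd kz kzd km kr ew ez hN hh
    refine body_sound ?_ ?_ ?_ ?_ ?_ ?_ hh
    · exact fun c k s h0 => g.of_sk fun lev D' hl => dirT_sound kw kz km kr D' (fun e => absurd e
        Bool.false_ne_true) hl h0
    · exact fun c k s h0 => g.of_sk fun lev D' hl => strT_sound kw kz km kr (enc_one E) (by
        norm_num) D' hsb (fun e => absurd e Bool.false_ne_true) (fun e => absurd e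
        Bool.false_ne_true) hl h0
    · exact fun c k s h0 => g.of_sk fun lev D' hl => conT_sound kw kz kwd kzd km kr ew ez hN D'
        (cb_t3a_c1_n D.r0 D.l0 D.e) (fun e => absurd e Bool.false_ne_true) (fun e => absurd e
        Bool.false_ne_true) hl h0
    · exact noF_sound
    · exact exits_sound (fun h0 => g.of_ex fun D' => exT_sound kw kz km kr D' h0) (fun h0 =>
        absurd h0 Bool.false_ne_true) (fun h0 => g.of_ex fun D' => cexT_sound kw kz kwd kzd km kr
        ew ez hN D' (cb_t3a_c1_n D.r0 D.l0 D.e).u h0)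
    · exact noF_sound
  · intro E h W Wd Z Zd M Q N wd zd kw kwd kz kzd km kr ew ez hN hh
    refine body_sound ?_ ?_ ?_ ?_ ?_ ?_ hh
    · exact fun c k s h0 => g.of_sk fun lev D' hl => dirT_sound kw kz km kr D' (fun e => absurd e
        Bool.false_ne_true) hl h0
    · exact fun c k s h0 => g.of_sk fun lev D' hl => strT_sound kw kz km kr (enc_one E) (by
        norm_num) D' hsb (fun e => absurd e Bool.false_ne_true) (fun e => absurd e
        Bool.false_ne_true) hl h0
    · exact noF_sound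
    · exact noF_sound
    · exact exits_sound (fun h0 => g.of_ex fun D' => exT_sound kw kz km kr D' h0) (fun h0 =>
        absurd h0 Bool.false_ne_true) (fun h0 => absurd h0 Bool.false_ne_true)
    · exact noF_sound

theorem r_t3b_c3_f (t1 : Tree 0 2684354560 0 1073741824 0 26843546 T1_t3b_c3_f)
    (t2 : Tree 0 1073741824 0 429496730 0 67108864 T2_t3b_c3_f) :
    ∀ r lam w z xi xi' : ℝ, Dom .pp r lam w z → xi = E0.G.xi3 (w + z) r → xi' = xi + r * E0.G.om
        w r → E0.G.xi1 z r ≤ xi' → xi' ≤ E0.G.xiw z r →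
    RowT .far .pp B3 r lam w z xi (G.Pw xi' r lam z) (G.C3u r lam (w + z)) := by
  intro r lam w z xi xi' D e_xi e_xip h2 h3
  have g := g_t3b_c3_f D e_xi e_xip h2 h3
  obtain ⟨H1, H2, H3⟩ := hc_of D
  have ho : R_t3b_c3_f.U w z lam r ≤ (ov_B_P1W).v w z lam r := by
    simp only [RowF.U, R_t3b_c3_f, u_T2p_B_Q3p_P1W, ov_B_P1W, zx_val, xi1_val, xi3_val, xiw_val,
        xw0p_val, xq0p_val, c3w_val]
    try unfold G.xiq at *
    push_cast
    linarith
  obtain ⟨ka, kb⟩ : 0 ≤ w ∧ 0 ≤ z := D.ok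
  have hsb : SBase R_t3b_c3_f w (-kw3.v w r) lam r (nbf.v w r (lam * r)) := by
    rw [nbf_val]
    exact sb_t3b_c3_f D.r0 D.l0 D.e ka (abs_le.1 H1.a).2 (fun e => (abs_le.1 (H1.b e)).2.trans
        (by norm_num))
      (by rw [kw3_val]; ring)
  refine charts t1 t2 (crd_pp D) D.r0 D.l0 ?_ ?_
  · intro e1 r1 E h W Wd Z Zd M Q N wd zd kw kwd kz kzd km kr ew ez hN hh
    refine body_sound ?_ ?_ ?_ ?_ ?_ ?_ hh
    · exact fun c k s h0 => g.of_sk fun lev D' hl => dirT_sound kw kz km kr D' (fun e => absurd e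
        Bool.false_ne_true) hl h0
    · exact fun c k s h0 => g.of_sk fun lev D' hl => strT_sound kw kz km kr (enc_one E) (by
        norm_num) D' hsb (fun e => absurd e Bool.false_ne_true) (fun e => absurd e
        Bool.false_ne_true) hl h0
    · exact fun c k s h0 => g.of_sk fun lev D' hl => conT_sound kw kz kwd kzd km kr ew ez hN D'
        (cb_t3b_c3_f D.r0 D.l0 D.e) (fun e => absurd e Bool.false_ne_true) (fun e => absurd e
        Bool.false_ne_true) hl h0
    · exact noF_sound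
    · exact exits_sound (fun h0 => g.of_ex fun D' => exT_sound kw kz km kr D' h0) (fun h0 =>
        g.of_ex fun D' => exO_sound kw kz km kr ho h0) (fun h0 => g.of_ex fun D' => cexT_sound kw
        kz kwd kzd km kr ew ez hN D' (cb_t3b_c3_f D.r0 D.l0 D.e).u h0)
    · exact noF_sound
  · intro E h W Wd Z Zd M Q N wd zd kw kwd kz kzd km kr ew ez hN hh
    refine body_sound ?_ ?_ ?_ ?_ ?_ ?_ hh
    · exact fun c k s h0 => g.of_sk fun lev D' hl => dirT_sound kw kz km kr D' (fun e => absurd e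
        Bool.false_ne_true) hl h0
    · exact fun c k s h0 => g.of_sk fun lev D' hl => strT_sound kw kz km kr (enc_one E) (by
        norm_num) D' hsb (fun e => absurd e Bool.false_ne_true) (fun e => absurd e
        Bool.false_ne_true) hl h0
    · exact noF_sound
    · exact noF_sound
    · exact exits_sound (fun h0 => g.of_ex fun D' => exT_sound kw kz km kr D' h0) (fun h0 =>
        g.of_ex fun D' => exO_sound kw kz km kr ho h0) (fun h0 => absurd h0 Bool.false_ne_true)
    · exact noF_sound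

theorem r_t3b_c3_n (t1 : Tree 0 2684354560 0 1073741824 0 26843546 T1_t3b_c3_n)
    (t2 : Tree 0 1073741824 0 429496730 0 67108864 T2_t3b_c3_n) :
    ∀ r lam w z xi xi' : ℝ, Dom .pp r lam w z → xi = E0.G.xi3 (w + z) r → xi' = xi + r * E0.G.om
        w r → E0.G.xi1 z r ≤ xi' → xi' ≤ E0.G.xiw z r →
    RowT .near .pp B3 r lam w z xi (G.Pw xi' r lam z) (G.C3u r lam (w + z)) := by
  intro r lam w z xi xi' D e_xi e_xip h2 h3
  have g := g_t3b_c3_n D e_xi e_xip h2 h3
  obtain ⟨H1, H2, H3⟩ := hc_of D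
  have ho : R_t3b_c3_n.U w z lam r ≤ (ov_B_P1W).v w z lam r := by
    simp only [RowF.U, R_t3b_c3_n, u_T2p_B_Q3p_P1W, ov_B_P1W, zx_val, xi1_val, xi3_val, xiw_val,
        xw0p_val, xq0p_val, c3w_val]
    try unfold G.xiq at *
    push_cast
    linarith
  obtain ⟨ka, kb⟩ : 0 ≤ w ∧ 0 ≤ z := D.ok
  have hsb : SBase R_t3b_c3_n w (-kw3.v w r) lam r (nbn.v w r (lam * r)) := by
    rw [nbn_val]
    exact sb_t3b_c3_n D.r0 D.l0 D.e ka (abs_le.1 H1.a).2 (fun e => (abs_le.1 (H1.b e)).2.trans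
        (by norm_num))
      (by rw [kw3_val]; ring)
  refine charts t1 t2 (crd_pp D) D.r0 D.l0 ?_ ?_
  · intro e1 r1 E h W Wd Z Zd M Q N wd zd kw kwd kz kzd km kr ew ez hN hh
    refine body_sound ?_ ?_ ?_ ?_ ?_ ?_ hh
    · exact fun c k s h0 => g.of_sk fun lev D' hl => dirT_sound kw kz km kr D' (fun e => absurd e
        Bool.false_ne_true) hl h0
    · exact fun c k s h0 => g.of_sk fun lev D' hl => strT_sound kw kz km kr (enc_one E) (by
        norm_num) D' hsb (fun e => absurd e Bool.false_ne_true) (fun e => absurd e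
        Bool.false_ne_true) hl h0
    · exact fun c k s h0 => g.of_sk fun lev D' hl => conT_sound kw kz kwd kzd km kr ew ez hN D'
        (cb_t3b_c3_n D.r0 D.l0 D.e) (fun e => absurd e Bool.false_ne_true) (fun e => absurd e
        Bool.false_ne_true) hl h0
    · exact noF_sound
    · exact exits_sound (fun h0 => g.of_ex fun D' => exT_sound kw kz km kr D' h0) (fun h0 =>
        g.of_ex fun D' => exO_sound kw kz km kr ho h0) (fun h0 => g.of_ex fun D' => cexT_sound kw
        kz kwd kzd km kr ew ez hN D' (cb_t3b_c3_n D.r0 D.l0 D.e).u h0)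
    · exact noF_sound
  · intro E h W Wd Z Zd M Q N wd zd kw kwd kz kzd km kr ew ez hN hh
    refine body_sound ?_ ?_ ?_ ?_ ?_ ?_ hh
    · exact fun c k s h0 => g.of_sk fun lev D' hl => dirT_sound kw kz km kr D' (fun e => absurd e
        Bool.false_ne_true) hl h0
    · exact fun c k s h0 => g.of_sk fun lev D' hl => strT_sound kw kz km kr (enc_one E) (by
        norm_num) D' hsb (fun e => absurd e Bool.false_ne_true) (fun e => absurd e
        Bool.false_ne_true) hl h0
    · exact noF_sound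
    · exact noF_sound
    · exact exits_sound (fun h0 => g.of_ex fun D' => exT_sound kw kz km kr D' h0) (fun h0 =>
        g.of_ex fun D' => exO_sound kw kz km kr ho h0) (fun h0 => absurd h0 Bool.false_ne_true)
    · exact noF_sound

end Pool.Agent.Strip051.LC.E1.Ch
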