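import Pool.Agent.Strip051.LC.E1.Ch.Val5
import Pool.Agent.Strip051.LC.E1.Ch.Rw

/-! # Rests near the full period: the rows and their functions -/

set_option linter.unusedVariables false
set_option linter.unusedSimpArgs false

namespace Pool.Agent.Strip051.LC.E1.Ch

open Pool.Agent.Strip051.PB
open Pool.Agent.Strip051.LC.E1.G (hg)

theorem g_u1_p_f {r lam w z xi : ℝ} (D : Dom .pnp r lam w z) (e_xi : xi = E0.G.xi1 (w + z) r +
    E0.G.xi1 z r) (h1 : -(r * E0.G.om w r) ≤ xi) (h2 : xi ≤ E0.G.xi1 (-w) r) :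
    Good R_u1_p_f w z lam r
      (RowU .far .pnp r lam w z xi (G.H1 xi r lam w) (-G.C1d r lam z) (G.C1u r lam (w + z))) := by
  obtain ⟨H1, H2, H3⟩ := hc_of D
  obtain ⟨ka, kb, kc⟩ : 0 ≤ w ∧ z ≤ 0 ∧ 0 ≤ w + z := D.ok
  have kw : 0 < w := D.l
  have hU : R_u1_p_f.U w z lam r = xi + r * E0.G.om w r := by
    simp only [RowF.U, R_u1_p_f, u_T1_U_P1p_O1W, zx_val, xi1_val, xi3_val, xiw_val, xw0p_val,
      xq0p_val]
    linarith
  have hu0 : 0 ≤ R_u1_p_f.U w z lam r := by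
    rw [hU]
    linarith
  have hp : PatF .pnp R_u1_p_f := ⟨rfl, rfl, rfl, rfl⟩
  have hD := dm_of hp D hu0
  have th := th_O1W H1 D.l0 D.e (xi) ka (fun e => absurd e kw.ne')
  have hn : R_u1_p_f.NF w z lam r = -B1.g w z := by
    simp only [RowF.NF, R_u1_p_f, nff_T1, bef_val]
    unfold Bs.g B1
    push_cast
    ring
  have hb : R_u1_p_f.NU w z lam r / r + R_u1_p_f.BS w z lam r = 0 / r + (((G.x2 z r + G.x2 (w + z)
    r) / 2) + ((w + z) * (xi) - w * (E0.G.xi1 (w + z) r)) / 2) := by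
    subst e_xi
    simp only [RowF.NU, RowF.BS, R_u1_p_f, nu0, bs_T1_Uf, bef_val, n1f_val, lmf_val, mu_val',
      qo_val, eh_val, om_val, zx_val, xi1_val, xi3_val, xiw_val]
    rw [x2_eq H2, x2_eq H3]
    push_cast
    ring
  have k12 : R_u1_p_f.K12 w z lam r = ((G.H1 xi r lam w)).k := by
    unfold RowF.K12
    rw [hU]
    simp only [R_u1_p_f, tkO1W_wp]
    rw [th.k]
    try ring
  have c12 : R_u1_p_f.A12 w z lam r / r + R_u1_p_f.B12 w z lam r = ((G.H1 xi r lam w)).c r := by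
    unfold RowF.A12 RowF.B12
    rw [hU]
    simp only [R_u1_p_f, taO1W_wp, tcO1W_wp, dwl_val, dwu_val]
    rw [th.c]
    push_cast
    try ring
  have k23 : R_u1_p_f.K23 w z lam r = ((-G.C1d r lam z)).k := by
    unfold RowF.K23
    rw [hU]
    simp only [R_u1_p_f, k1m_zn]
    rw [neg_k, k1m_val H2]
  have c23 : R_u1_p_f.A23 w z lam r / r + R_u1_p_f.B23 w z lam r = ((-G.C1d r lam z)).c r := by
    unfold RowF.A23 RowF.B23
    rw [hU]
    simp only [R_u1_p_f, zr7, l1m_zn]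
    rw [neg_c, cC1d H2]
    push_cast
    ring
  have k13 : R_u1_p_f.K13 w z lam r = ((G.C1u r lam (w + z))).k := by
    unfold RowF.K13
    rw [hU]
    simp only [R_u1_p_f, k1p_tp]
    rw [k1p_val H3]
  have c13 : R_u1_p_f.A13 w z lam r / r + R_u1_p_f.B13 w z lam r = ((G.C1u r lam (w + z))).c r := by
    unfold RowF.A13 RowF.B13
    rw [hU]
    simp only [R_u1_p_f, zr7, l1p_tp]
    rw [cC1u H3]
    push_cast
    ring
  exact far_good hp ⟨rfl, rfl⟩ hD hn hb ⟨k12, k23, k13, c12, c23, c13⟩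

theorem g_u1_p_n {r lam w z xi : ℝ} (D : Dom .pnp r lam w z) (e_xi : xi = E0.G.xi1 (w + z) r +
    E0.G.xi1 z r) (h1 : -(r * E0.G.om w r) ≤ xi) (h2 : xi ≤ E0.G.xi1 (-w) r) :
    Good R_u1_p_n w z lam r
      (RowU .near .pnp r lam w z xi (G.H1 xi r lam w) (-G.C1d r lam z) (G.C1u r lam (w + z))) := by
  obtain ⟨H1, H2, H3⟩ := hc_of D
  obtain ⟨ka, kb, kc⟩ : 0 ≤ w ∧ z ≤ 0 ∧ 0 ≤ w + z := D.ok
  have kw : 0 < w := D.l
  have hU : R_u1_p_n.U w z lam r = xi + r * E0.G.om w r := by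
    simp only [RowF.U, R_u1_p_n, u_T1_U_P1p_O1W, zx_val, xi1_val, xi3_val, xiw_val, xw0p_val,
      xq0p_val]
    linarith
  have hu0 : 0 ≤ R_u1_p_n.U w z lam r := by
    rw [hU]
    linarith
  have hp : PatF .pnp R_u1_p_n := ⟨rfl, rfl, rfl, rfl⟩
  have hD := dm_of hp D hu0
  have th := th_O1W H1 D.l0 D.e (xi) ka (fun e => absurd e kw.ne')
  have hn : R_u1_p_n.NF w z lam r = -(G.be (lam * r) * B1.g w z) := by
    simp only [RowF.NF, R_u1_p_n, nfn_T1, bef_val]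
    unfold Bs.g B1
    push_cast
    ring
  have hb : R_u1_p_n.NU w z lam r / r + R_u1_p_n.BS w z lam r =
      (1 + G.LAM (lam * r) * G.mu (lam * r)) * 0 / r +
      ((1 + G.LAM (lam * r) * G.mu (lam * r)) * (((G.x2 z r + G.x2 (w + z) r) / 2) + ((w + z) *
        (xi) - w * (E0.G.xi1 (w + z) r)) / 2) +
        G.mu (lam * r) * G.LAM (lam * r) * lam * G.q1 (lam * r) / (2 * G.eh (lam * r)) * B1.g w z)
          := by
    subst e_xi
    simp only [RowF.NU, RowF.BS, R_u1_p_n, nu0, bs_T1_Un, bef_val, n1f_val, lmf_val, mu_val',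
      qo_val, eh_val, om_val, zx_val, xi1_val, xi3_val, xiw_val]
    rw [x2_eq H2, x2_eq H3]
    unfold Bs.g B1
    push_cast
    ring
  have k12 : R_u1_p_n.K12 w z lam r = G.nk (lam * r) ((G.H1 xi r lam w)).k ((G.H1 xi r lam w)).b :=
    by
    unfold RowF.K12
    rw [hU]
    simp only [R_u1_p_n, ntkO1W_wp, tkO1W_wp, tbO1W_wp, nkf_val]
    unfold G.nk
    rw [th.k, th.b]
    try ring
  have c12 : R_u1_p_n.A12 w z lam r / r + R_u1_p_n.B12 w z lam r = ((G.H1 xi r lam w)).c r := by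
    unfold RowF.A12 RowF.B12
    rw [hU]
    simp only [R_u1_p_n, taO1W_wp, tcO1W_wp, dwl_val, dwu_val]
    rw [th.c]
    push_cast
    try ring
  have k23 : R_u1_p_n.K23 w z lam r = G.nk (lam * r) ((-G.C1d r lam z)).k ((-G.C1d r lam z)).b := by
    unfold RowF.K23
    rw [hU]
    simp only [R_u1_p_n, nk1m_zn, k1m_zn, b1m_zn, nkf_val]
    unfold G.nk
    rw [neg_k, neg_b, k1m_val H2, b1m_val H2]
  have c23 : R_u1_p_n.A23 w z lam r / r + R_u1_p_n.B23 w z lam r = ((-G.C1d r lam z)).c r := by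
    unfold RowF.A23 RowF.B23
    rw [hU]
    simp only [R_u1_p_n, zr7, l1m_zn]
    rw [neg_c, cC1d H2]
    push_cast
    ring
  have k13 : R_u1_p_n.K13 w z lam r = G.nk (lam * r) ((G.C1u r lam (w + z))).k ((G.C1u r lam (w +
    z))).b := by
    unfold RowF.K13
    rw [hU]
    simp only [R_u1_p_n, nk1p_tp, k1p_tp, b1p_tp, nkf_val]
    unfold G.nk
    rw [k1p_val H3, b1p_val H3]
  have c13 : R_u1_p_n.A13 w z lam r / r + R_u1_p_n.B13 w z lam r = ((G.C1u r lam (w + z))).c r := by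
    unfold RowF.A13 RowF.B13
    rw [hU]
    simp only [R_u1_p_n, zr7, l1p_tp]
    rw [cC1u H3]
    push_cast
    ring
  exact near_good hp ⟨rfl, rfl⟩ hD hn hb ⟨k12, k23, k13, c12, c23, c13⟩ rfl rfl

theorem g_u1w_p_f {r lam w z xi : ℝ} (D : Dom .pnp r lam w z) (e_xi : xi = E0.G.xi1 (w + z) r +
    E0.G.xi1 z r) (h1 : -(r * E0.G.om w r) ≤ xi) (h2 : xi ≤ E0.G.xi1 (-w) r) :
    Good R_u1w_p_f w z lam r
      (RowU .far .pnp r lam w z xi (G.H1 xi r lam w) (-G.C1d r lam z) (G.C1u r lam (w + z))) := by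
  obtain ⟨H1, H2, H3⟩ := hc_of D
  obtain ⟨ka, kb, kc⟩ : 0 ≤ w ∧ z ≤ 0 ∧ 0 ≤ w + z := D.ok
  have kw : 0 < w := D.l
  have hU : R_u1w_p_f.U w z lam r = E0.G.xi1 (-w) r - xi := by
    simp only [RowF.U, R_u1w_p_f, u_T1_U_P1p_O1w, zx_val, xi1_val, xi3_val, xiw_val, xw0p_val,
      xq0p_val]
    linarith
  have hu0 : 0 ≤ R_u1w_p_f.U w z lam r := by
    rw [hU]
    linarith
  have hp : PatF .pnp R_u1w_p_f := ⟨rfl, rfl, rfl, rfl⟩
  have hD := dm_of hp D hu0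
  have th := th_O1w H1 D.l0 D.e (xi) kw
  have hn : R_u1w_p_f.NF w z lam r = -B1.g w z := by
    simp only [RowF.NF, R_u1w_p_f, nff_T1, bef_val]
    unfold Bs.g B1
    push_cast
    ring
  have hb : R_u1w_p_f.NU w z lam r / r + R_u1w_p_f.BS w z lam r = 0 / r + (((G.x2 z r + G.x2 (w +
    z) r) / 2) + ((w + z) * (xi) - w * (E0.G.xi1 (w + z) r)) / 2) := by
    subst e_xi
    simp only [RowF.NU, RowF.BS, R_u1w_p_f, nu0, bs_T1_Uf, bef_val, n1f_val, lmf_val, mu_val',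
      qo_val, eh_val, om_val, zx_val, xi1_val, xi3_val, xiw_val]
    rw [x2_eq H2, x2_eq H3]
    push_cast
    ring
  have k12 : R_u1w_p_f.K12 w z lam r = ((G.H1 xi r lam w)).k := by
    unfold RowF.K12
    rw [hU]
    simp only [R_u1w_p_f, tkO1w_wp]
    rw [th.k]
    try ring
  have c12 : R_u1w_p_f.A12 w z lam r / r + R_u1w_p_f.B12 w z lam r = ((G.H1 xi r lam w)).c r := by
    unfold RowF.A12 RowF.B12
    rw [hU]
    simp only [R_u1w_p_f, taO1w_wp, tcO1w_wp, dwl_val, dwu_val]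
    rw [th.c]
    push_cast
    try ring
  have k23 : R_u1w_p_f.K23 w z lam r = ((-G.C1d r lam z)).k := by
    unfold RowF.K23
    rw [hU]
    simp only [R_u1w_p_f, k1m_zn]
    rw [neg_k, k1m_val H2]
  have c23 : R_u1w_p_f.A23 w z lam r / r + R_u1w_p_f.B23 w z lam r = ((-G.C1d r lam z)).c r := by
    unfold RowF.A23 RowF.B23
    rw [hU]
    simp only [R_u1w_p_f, zr7, l1m_zn]
    rw [neg_c, cC1d H2]
    push_cast
    ring
  have k13 : R_u1w_p_f.K13 w z lam r = ((G.C1u r lam (w + z))).k := by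
    unfold RowF.K13
    rw [hU]
    simp only [R_u1w_p_f, k1p_tp]
    rw [k1p_val H3]
  have c13 : R_u1w_p_f.A13 w z lam r / r + R_u1w_p_f.B13 w z lam r = ((G.C1u r lam (w + z))).c r :=
    by
    unfold RowF.A13 RowF.B13
    rw [hU]
    simp only [R_u1w_p_f, zr7, l1p_tp]
    rw [cC1u H3]
    push_cast
    ring
  exact far_good hp ⟨rfl, rfl⟩ hD hn hb ⟨k12, k23, k13, c12, c23, c13⟩

theorem g_u1w_p_n {r lam w z xi : ℝ} (D : Dom .pnp r lam w z) (e_xi : xi = E0.G.xi1 (w + z) r +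
    E0.G.xi1 z r) (h1 : -(r * E0.G.om w r) ≤ xi) (h2 : xi ≤ E0.G.xi1 (-w) r) :
    Good R_u1w_p_n w z lam r
      (RowU .near .pnp r lam w z xi (G.H1 xi r lam w) (-G.C1d r lam z) (G.C1u r lam (w + z))) := by
  obtain ⟨H1, H2, H3⟩ := hc_of D
  obtain ⟨ka, kb, kc⟩ : 0 ≤ w ∧ z ≤ 0 ∧ 0 ≤ w + z := D.ok
  have kw : 0 < w := D.l
  have hU : R_u1w_p_n.U w z lam r = E0.G.xi1 (-w) r - xi := by
    simp only [RowF.U, R_u1w_p_n, u_T1_U_P1p_O1w, zx_val, xi1_val, xi3_val, xiw_val, xw0p_val,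
      xq0p_val]
    linarith
  have hu0 : 0 ≤ R_u1w_p_n.U w z lam r := by
    rw [hU]
    linarith
  have hp : PatF .pnp R_u1w_p_n := ⟨rfl, rfl, rfl, rfl⟩
  have hD := dm_of hp D hu0
  have th := th_O1w H1 D.l0 D.e (xi) kw
  have hn : R_u1w_p_n.NF w z lam r = -(G.be (lam * r) * B1.g w z) := by
    simp only [RowF.NF, R_u1w_p_n, nfn_T1, bef_val]
    unfold Bs.g B1
    push_cast
    ring
  have hb : R_u1w_p_n.NU w z lam r / r + R_u1w_p_n.BS w z lam r =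
      (1 + G.LAM (lam * r) * G.mu (lam * r)) * 0 / r +
      ((1 + G.LAM (lam * r) * G.mu (lam * r)) * (((G.x2 z r + G.x2 (w + z) r) / 2) + ((w + z) *
        (xi) - w * (E0.G.xi1 (w + z) r)) / 2) +
        G.mu (lam * r) * G.LAM (lam * r) * lam * G.q1 (lam * r) / (2 * G.eh (lam * r)) * B1.g w z)
          := by
    subst e_xi
    simp only [RowF.NU, RowF.BS, R_u1w_p_n, nu0, bs_T1_Un, bef_val, n1f_val, lmf_val, mu_val',
      qo_val, eh_val, om_val, zx_val, xi1_val, xi3_val, xiw_val]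
    rw [x2_eq H2, x2_eq H3]
    unfold Bs.g B1
    push_cast
    ring
  have k12 : R_u1w_p_n.K12 w z lam r = G.nk (lam * r) ((G.H1 xi r lam w)).k ((G.H1 xi r lam w)).b
    := by
    unfold RowF.K12
    rw [hU]
    simp only [R_u1w_p_n, ntkO1w_wp, tkO1w_wp, tbO1w_wp, nkf_val]
    unfold G.nk
    rw [th.k, th.b]
    try ring
  have c12 : R_u1w_p_n.A12 w z lam r / r + R_u1w_p_n.B12 w z lam r = ((G.H1 xi r lam w)).c r := by
    unfold RowF.A12 RowF.B12
    rw [hU]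
    simp only [R_u1w_p_n, taO1w_wp, tcO1w_wp, dwl_val, dwu_val]
    rw [th.c]
    push_cast
    try ring
  have k23 : R_u1w_p_n.K23 w z lam r = G.nk (lam * r) ((-G.C1d r lam z)).k ((-G.C1d r lam z)).b :=
    by
    unfold RowF.K23
    rw [hU]
    simp only [R_u1w_p_n, nk1m_zn, k1m_zn, b1m_zn, nkf_val]
    unfold G.nk
    rw [neg_k, neg_b, k1m_val H2, b1m_val H2]
  have c23 : R_u1w_p_n.A23 w z lam r / r + R_u1w_p_n.B23 w z lam r = ((-G.C1d r lam z)).c r := by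
    unfold RowF.A23 RowF.B23
    rw [hU]
    simp only [R_u1w_p_n, zr7, l1m_zn]
    rw [neg_c, cC1d H2]
    push_cast
    ring
  have k13 : R_u1w_p_n.K13 w z lam r = G.nk (lam * r) ((G.C1u r lam (w + z))).k ((G.C1u r lam (w +
    z))).b := by
    unfold RowF.K13
    rw [hU]
    simp only [R_u1w_p_n, nk1p_tp, k1p_tp, b1p_tp, nkf_val]
    unfold G.nk
    rw [k1p_val H3, b1p_val H3]
  have c13 : R_u1w_p_n.A13 w z lam r / r + R_u1w_p_n.B13 w z lam r = ((G.C1u r lam (w + z))).c r :=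
    by
    unfold RowF.A13 RowF.B13
    rw [hU]
    simp only [R_u1w_p_n, zr7, l1p_tp]
    rw [cC1u H3]
    push_cast
    ring
  exact near_good hp ⟨rfl, rfl⟩ hD hn hb ⟨k12, k23, k13, c12, c23, c13⟩ rfl rfl

theorem g_uq_n_f {r lam w z xi : ℝ} (D : Dom .pnn r lam w z) (e_xi : xi = E0.G.xi1 (w + z) r +
    E0.G.xi1 z r) (h1 : E0.G.xi1 (-w) r ≤ xi) (h2 : xi ≤ G.xiq r lam w) :
    Good R_uq_n_f w z lam r
      (RowU .far .pnn r lam w z xi (G.H2 xi r lam w) (-G.C1d r lam z) (G.C1d r lam (w + z))) := by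
  obtain ⟨H1, H2, H3⟩ := hc_of D
  obtain ⟨ka, kb, kc⟩ : 0 ≤ w ∧ z ≤ 0 ∧ w + z ≤ 0 := D.ok
  have hU : R_uq_n_f.U w z lam r = xi - E0.G.xi1 (-w) r := by
    simp only [RowF.U, R_uq_n_f, u_T1_U_P1m_OWq, zx_val, xi1_val, xi3_val, xiw_val, xw0p_val,
      xq0p_val]
    linarith
  have hu0 : 0 ≤ R_uq_n_f.U w z lam r := by
    rw [hU]
    linarith
  have hp : PatF .pnn R_uq_n_f := ⟨rfl, rfl, rfl, rfl⟩
  have hD := dm_of hp D hu0
  have th := th_OWq (w := w) D.r0 D.l0 (xi)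
  have hn : R_uq_n_f.NF w z lam r = -B1.g w z := by
    simp only [RowF.NF, R_uq_n_f, nff_T1, bef_val]
    unfold Bs.g B1
    push_cast
    ring
  have hb : R_uq_n_f.NU w z lam r / r + R_uq_n_f.BS w z lam r = 0 / r + (((G.x2 z r + G.x2 (w + z)
    r) / 2) + ((w + z) * (xi) - w * (E0.G.xi1 (w + z) r)) / 2) := by
    subst e_xi
    simp only [RowF.NU, RowF.BS, R_uq_n_f, nu0, bs_T1_Uf, bef_val, n1f_val, lmf_val, mu_val',
      qo_val, eh_val, om_val, zx_val, xi1_val, xi3_val, xiw_val]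
    rw [x2_eq H2, x2_eq H3]
    push_cast
    ring
  have k12 : R_uq_n_f.K12 w z lam r = ((G.H2 xi r lam w)).k := by
    unfold RowF.K12
    rw [hU]
    simp only [R_uq_n_f, tkOWq_wp]
    rw [th.k]
    try ring
  have c12 : R_uq_n_f.A12 w z lam r / r + R_uq_n_f.B12 w z lam r = ((G.H2 xi r lam w)).c r := by
    unfold RowF.A12 RowF.B12
    rw [hU]
    simp only [R_uq_n_f, taOWq_wp, tcOWq_wp, dwl_val, dwu_val]
    rw [th.c]
    push_cast
    try ring
  have k23 : R_uq_n_f.K23 w z lam r = ((-G.C1d r lam z)).k := by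
    unfold RowF.K23
    rw [hU]
    simp only [R_uq_n_f, k1m_zn]
    rw [neg_k, k1m_val H2]
  have c23 : R_uq_n_f.A23 w z lam r / r + R_uq_n_f.B23 w z lam r = ((-G.C1d r lam z)).c r := by
    unfold RowF.A23 RowF.B23
    rw [hU]
    simp only [R_uq_n_f, zr7, l1m_zn]
    rw [neg_c, cC1d H2]
    push_cast
    ring
  have k13 : R_uq_n_f.K13 w z lam r = ((G.C1d r lam (w + z))).k := by
    unfold RowF.K13
    rw [hU]
    simp only [R_uq_n_f, k1m_tp]
    rw [k1m_val H3]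
  have c13 : R_uq_n_f.A13 w z lam r / r + R_uq_n_f.B13 w z lam r = ((G.C1d r lam (w + z))).c r := by
    unfold RowF.A13 RowF.B13
    rw [hU]
    simp only [R_uq_n_f, zr7, l1m_tp]
    rw [cC1d H3]
    push_cast
    ring
  exact far_good hp ⟨rfl, rfl⟩ hD hn hb ⟨k12, k23, k13, c12, c23, c13⟩

theorem g_uq_n_n {r lam w z xi : ℝ} (D : Dom .pnn r lam w z) (e_xi : xi = E0.G.xi1 (w + z) r +
    E0.G.xi1 z r) (h1 : E0.G.xi1 (-w) r ≤ xi) (h2 : xi ≤ G.xiq r lam w) :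
    Good R_uq_n_n w z lam r
      (RowU .near .pnn r lam w z xi (G.H2 xi r lam w) (-G.C1d r lam z) (G.C1d r lam (w + z))) := by
  obtain ⟨H1, H2, H3⟩ := hc_of D
  obtain ⟨ka, kb, kc⟩ : 0 ≤ w ∧ z ≤ 0 ∧ w + z ≤ 0 := D.ok
  have hU : R_uq_n_n.U w z lam r = xi - E0.G.xi1 (-w) r := by
    simp only [RowF.U, R_uq_n_n, u_T1_U_P1m_OWq, zx_val, xi1_val, xi3_val, xiw_val, xw0p_val,
      xq0p_val]
    linarith
  have hu0 : 0 ≤ R_uq_n_n.U w z lam r := by
    rw [hU]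
    linarith
  have hp : PatF .pnn R_uq_n_n := ⟨rfl, rfl, rfl, rfl⟩
  have hD := dm_of hp D hu0
  have th := th_OWq (w := w) D.r0 D.l0 (xi)
  have hn : R_uq_n_n.NF w z lam r = -(G.be (lam * r) * B1.g w z) := by
    simp only [RowF.NF, R_uq_n_n, nfn_T1, bef_val]
    unfold Bs.g B1
    push_cast
    ring
  have hb : R_uq_n_n.NU w z lam r / r + R_uq_n_n.BS w z lam r =
      (1 + G.LAM (lam * r) * G.mu (lam * r)) * 0 / r +
      ((1 + G.LAM (lam * r) * G.mu (lam * r)) * (((G.x2 z r + G.x2 (w + z) r) / 2) + ((w + z) *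
        (xi) - w * (E0.G.xi1 (w + z) r)) / 2) +
        G.mu (lam * r) * G.LAM (lam * r) * lam * G.q1 (lam * r) / (2 * G.eh (lam * r)) * B1.g w z)
          := by
    subst e_xi
    simp only [RowF.NU, RowF.BS, R_uq_n_n, nu0, bs_T1_Un, bef_val, n1f_val, lmf_val, mu_val',
      qo_val, eh_val, om_val, zx_val, xi1_val, xi3_val, xiw_val]
    rw [x2_eq H2, x2_eq H3]
    unfold Bs.g B1
    push_cast
    ring
  have k12 : R_uq_n_n.K12 w z lam r = G.nk (lam * r) ((G.H2 xi r lam w)).k ((G.H2 xi r lam w)).b :=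
    by
    unfold RowF.K12
    rw [hU]
    simp only [R_uq_n_n, ntkOWq_wp, tkOWq_wp, tbOWq_wp, nkf_val]
    unfold G.nk
    rw [th.k, th.b]
    try ring
  have c12 : R_uq_n_n.A12 w z lam r / r + R_uq_n_n.B12 w z lam r = ((G.H2 xi r lam w)).c r := by
    unfold RowF.A12 RowF.B12
    rw [hU]
    simp only [R_uq_n_n, taOWq_wp, tcOWq_wp, dwl_val, dwu_val]
    rw [th.c]
    push_cast
    try ring
  have k23 : R_uq_n_n.K23 w z lam r = G.nk (lam * r) ((-G.C1d r lam z)).k ((-G.C1d r lam z)).b := by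
    unfold RowF.K23
    rw [hU]
    simp only [R_uq_n_n, nk1m_zn, k1m_zn, b1m_zn, nkf_val]
    unfold G.nk
    rw [neg_k, neg_b, k1m_val H2, b1m_val H2]
  have c23 : R_uq_n_n.A23 w z lam r / r + R_uq_n_n.B23 w z lam r = ((-G.C1d r lam z)).c r := by
    unfold RowF.A23 RowF.B23
    rw [hU]
    simp only [R_uq_n_n, zr7, l1m_zn]
    rw [neg_c, cC1d H2]
    push_cast
    ring
  have k13 : R_uq_n_n.K13 w z lam r = G.nk (lam * r) ((G.C1d r lam (w + z))).k ((G.C1d r lam (w +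
    z))).b := by
    unfold RowF.K13
    rw [hU]
    simp only [R_uq_n_n, nk1m_tp, k1m_tp, b1m_tp, nkf_val]
    unfold G.nk
    rw [k1m_val H3, b1m_val H3]
  have c13 : R_uq_n_n.A13 w z lam r / r + R_uq_n_n.B13 w z lam r = ((G.C1d r lam (w + z))).c r := by
    unfold RowF.A13 RowF.B13
    rw [hU]
    simp only [R_uq_n_n, zr7, l1m_tp]
    rw [cC1d H3]
    push_cast
    ring
  exact near_good hp ⟨rfl, rfl⟩ hD hn hb ⟨k12, k23, k13, c12, c23, c13⟩ rfl rfl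

theorem g_u5_n_f {r lam w z xi : ℝ} (D : Dom .pnn r lam w z) (e_xi : xi = E0.G.xi1 (w + z) r +
    E0.G.xi1 z r) (h1 : G.xiq r lam w ≤ xi) (h2 : r * (xi - E0.G.xi1 (-w) r) ≤ 3 / 20 * G.dQ r w) :
    Good R_u5_n_f w z lam r
      (RowU .far .pnn r lam w z xi (G.H3 xi r lam w) (-G.C1d r lam z) (G.C1d r lam (w + z))) := by
  obtain ⟨H1, H2, H3⟩ := hc_of D
  obtain ⟨ka, kb, kc⟩ : 0 ≤ w ∧ z ≤ 0 ∧ w + z ≤ 0 := D.ok
  have hU : R_u5_n_f.U w z lam r = xi - G.xiq r lam w := by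
    simp only [RowF.U, R_u5_n_f, u_T1_U_P1m_Oq5, zx_val, xi1_val, xi3_val, xiw_val, xw0p_val,
      xq0p_val]
    linarith
  have hu0 : 0 ≤ R_u5_n_f.U w z lam r := by
    rw [hU]
    linarith
  have hp : PatF .pnn R_u5_n_f := ⟨rfl, rfl, rfl, rfl⟩
  have hD := dm_of hp D hu0
  have th := th_Oq5 (w := w) D.r0 D.l0 (xi) D.e
  have hn : R_u5_n_f.NF w z lam r = -B1.g w z := by
    simp only [RowF.NF, R_u5_n_f, nff_T1, bef_val]
    unfold Bs.g B1
    push_cast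
    ring
  have hb : R_u5_n_f.NU w z lam r / r + R_u5_n_f.BS w z lam r = 0 / r + (((G.x2 z r + G.x2 (w + z)
    r) / 2) + ((w + z) * (xi) - w * (E0.G.xi1 (w + z) r)) / 2) := by
    subst e_xi
    simp only [RowF.NU, RowF.BS, R_u5_n_f, nu0, bs_T1_Uf, bef_val, n1f_val, lmf_val, mu_val',
      qo_val, eh_val, om_val, zx_val, xi1_val, xi3_val, xiw_val]
    rw [x2_eq H2, x2_eq H3]
    push_cast
    ring
  have k12 : R_u5_n_f.K12 w z lam r = ((G.H3 xi r lam w)).k := by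
    unfold RowF.K12
    rw [hU]
    simp only [R_u5_n_f, tkOq5_wp]
    rw [th.k]
    try ring
  have c12 : R_u5_n_f.A12 w z lam r / r + R_u5_n_f.B12 w z lam r = ((G.H3 xi r lam w)).c r := by
    unfold RowF.A12 RowF.B12
    rw [hU]
    simp only [R_u5_n_f, taOq5_wp, tcOq5_wp, dwl_val, dwu_val]
    rw [th.c]
    push_cast
    try ring
  have k23 : R_u5_n_f.K23 w z lam r = ((-G.C1d r lam z)).k := by
    unfold RowF.K23
    rw [hU]
    simp only [R_u5_n_f, k1m_zn]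
    rw [neg_k, k1m_val H2]
  have c23 : R_u5_n_f.A23 w z lam r / r + R_u5_n_f.B23 w z lam r = ((-G.C1d r lam z)).c r := by
    unfold RowF.A23 RowF.B23
    rw [hU]
    simp only [R_u5_n_f, zr7, l1m_zn]
    rw [neg_c, cC1d H2]
    push_cast
    ring
  have k13 : R_u5_n_f.K13 w z lam r = ((G.C1d r lam (w + z))).k := by
    unfold RowF.K13
    rw [hU]
    simp only [R_u5_n_f, k1m_tp]
    rw [k1m_val H3]
  have c13 : R_u5_n_f.A13 w z lam r / r + R_u5_n_f.B13 w z lam r = ((G.C1d r lam (w + z))).c r := by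
    unfold RowF.A13 RowF.B13
    rw [hU]
    simp only [R_u5_n_f, zr7, l1m_tp]
    rw [cC1d H3]
    push_cast
    ring
  exact far_good hp ⟨rfl, rfl⟩ hD hn hb ⟨k12, k23, k13, c12, c23, c13⟩

theorem g_u5_n_n {r lam w z xi : ℝ} (D : Dom .pnn r lam w z) (e_xi : xi = E0.G.xi1 (w + z) r +
    E0.G.xi1 z r) (h1 : G.xiq r lam w ≤ xi) (h2 : r * (xi - E0.G.xi1 (-w) r) ≤ 3 / 20 * G.dQ r w) :
    Good R_u5_n_n w z lam r
      (RowU .near .pnn r lam w z xi (G.H3 xi r lam w) (-G.C1d r lam z) (G.C1d r lam (w + z))) := by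
  obtain ⟨H1, H2, H3⟩ := hc_of D
  obtain ⟨ka, kb, kc⟩ : 0 ≤ w ∧ z ≤ 0 ∧ w + z ≤ 0 := D.ok
  have hU : R_u5_n_n.U w z lam r = xi - G.xiq r lam w := by
    simp only [RowF.U, R_u5_n_n, u_T1_U_P1m_Oq5, zx_val, xi1_val, xi3_val, xiw_val, xw0p_val,
      xq0p_val]
    linarith
  have hu0 : 0 ≤ R_u5_n_n.U w z lam r := by
    rw [hU]
    linarith
  have hp : PatF .pnn R_u5_n_n := ⟨rfl, rfl, rfl, rfl⟩
  have hD := dm_of hp D hu0
  have th := th_Oq5 (w := w) D.r0 D.l0 (xi) D.e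
  have hn : R_u5_n_n.NF w z lam r = -(G.be (lam * r) * B1.g w z) := by
    simp only [RowF.NF, R_u5_n_n, nfn_T1, bef_val]
    unfold Bs.g B1
    push_cast
    ring
  have hb : R_u5_n_n.NU w z lam r / r + R_u5_n_n.BS w z lam r =
      (1 + G.LAM (lam * r) * G.mu (lam * r)) * 0 / r +
      ((1 + G.LAM (lam * r) * G.mu (lam * r)) * (((G.x2 z r + G.x2 (w + z) r) / 2) + ((w + z) *
        (xi) - w * (E0.G.xi1 (w + z) r)) / 2) +
        G.mu (lam * r) * G.LAM (lam * r) * lam * G.q1 (lam * r) / (2 * G.eh (lam * r)) * B1.g w z)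
          := by
    subst e_xi
    simp only [RowF.NU, RowF.BS, R_u5_n_n, nu0, bs_T1_Un, bef_val, n1f_val, lmf_val, mu_val',
      qo_val, eh_val, om_val, zx_val, xi1_val, xi3_val, xiw_val]
    rw [x2_eq H2, x2_eq H3]
    unfold Bs.g B1
    push_cast
    ring
  have k12 : R_u5_n_n.K12 w z lam r = G.nk (lam * r) ((G.H3 xi r lam w)).k ((G.H3 xi r lam w)).b :=
    by
    unfold RowF.K12
    rw [hU]
    simp only [R_u5_n_n, ntkOq5_wp, tkOq5_wp, tbOq5_wp, nkf_val]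
    unfold G.nk
    rw [th.k, th.b]
    try ring
  have c12 : R_u5_n_n.A12 w z lam r / r + R_u5_n_n.B12 w z lam r = ((G.H3 xi r lam w)).c r := by
    unfold RowF.A12 RowF.B12
    rw [hU]
    simp only [R_u5_n_n, taOq5_wp, tcOq5_wp, dwl_val, dwu_val]
    rw [th.c]
    push_cast
    try ring
  have k23 : R_u5_n_n.K23 w z lam r = G.nk (lam * r) ((-G.C1d r lam z)).k ((-G.C1d r lam z)).b := by
    unfold RowF.K23
    rw [hU]
    simp only [R_u5_n_n, nk1m_zn, k1m_zn, b1m_zn, nkf_val]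
    unfold G.nk
    rw [neg_k, neg_b, k1m_val H2, b1m_val H2]
  have c23 : R_u5_n_n.A23 w z lam r / r + R_u5_n_n.B23 w z lam r = ((-G.C1d r lam z)).c r := by
    unfold RowF.A23 RowF.B23
    rw [hU]
    simp only [R_u5_n_n, zr7, l1m_zn]
    rw [neg_c, cC1d H2]
    push_cast
    ring
  have k13 : R_u5_n_n.K13 w z lam r = G.nk (lam * r) ((G.C1d r lam (w + z))).k ((G.C1d r lam (w +
    z))).b := by
    unfold RowF.K13
    rw [hU]
    simp only [R_u5_n_n, nk1m_tp, k1m_tp, b1m_tp, nkf_val]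
    unfold G.nk
    rw [k1m_val H3, b1m_val H3]
  have c13 : R_u5_n_n.A13 w z lam r / r + R_u5_n_n.B13 w z lam r = ((G.C1d r lam (w + z))).c r := by
    unfold RowF.A13 RowF.B13
    rw [hU]
    simp only [R_u5_n_n, zr7, l1m_tp]
    rw [cC1d H3]
    push_cast
    ring
  exact near_good hp ⟨rfl, rfl⟩ hD hn hb ⟨k12, k23, k13, c12, c23, c13⟩ rfl rfl

end Pool.Agent.Strip051.LC.E1.Ch
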