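import Pool.Agent.Strip051.LC.E1.Ch.Lk
import Pool.Agent.Strip051.LC.E1.Ch.Te
import Pool.Agent.Strip051.LC.E1.Ch.Gd4
import Pool.Agent.Strip051.LC.E1.Ch.Bc3
import Pool.Agent.Strip051.LC.E1.Ch.Bt2

/-! # Rests near the full period: the rows from their trees -/

set_option linter.unusedVariables false
set_option linter.unusedSimpArgs false

namespace Pool.Agent.Strip051.LC.E1.Ch

open Pool.Agent.Strip051.PB
open Pool.Agent.Strip051.LC.E0.Ch (onCell Tree)
open Pool.Agent.Strip051.LC.E1.G (hg)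

theorem xw0_z {w m r x : ℝ} (h : w ≤ 5 / 2 * m) : xw0.v w m r x = 0 := by
  simp only [xw0]
  push_cast
  rw [max_eq_right (by linarith), mul_zero]

theorem qa0_z {w m r x : ℝ} (h : w ≤ 5 / 2 * m) : qa0.v w m r x = 0 := by
  simp only [qa0]
  push_cast
  rw [if_pos (by linarith)]

theorem xq0_z {w m r : ℝ} (h : w ≤ 5 / 2 * m) : xq0.v w m r (m * r) = 0 := by
  rw [xq0_val]
  show (G.W0 r m w).cA + 44 / 3 * (m * r) * (G.c5 r m w - (G.W0 r m w).cA) = 0
  unfold G.W0 G.c5
  simp only [hg_le (by linarith : w - 5 / 2 * m ≤ 0)]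
  ring

theorem um_u1_p_f {w z m r : ℝ} (h : w ≤ 5 / 2 * m) : Um R_u1_p_f w z m r := by
  have a12 : R_u1_p_f.A12 w z m r = 0 := by
    unfold RowF.A12
    simp only [R_u1_p_f, taO1W_wp, qa0_z h]
    try simp
  have a23 : R_u1_p_f.A23 w z m r = 0 := by
    unfold RowF.A23
    simp only [R_u1_p_f, zr7]
    simp
  have a13 : R_u1_p_f.A13 w z m r = 0 := by
    unfold RowF.A13
    simp only [R_u1_p_f, zr7]
    simp
  refine ⟨?_, ?_, ?_⟩
  · simp only [RowF.NU, R_u1_p_f, nu0]
    simp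
  · unfold RowF.V1A
    rw [a12, a23, a13]
    simp only [R_u1_p_f, vf1_val]
    simp
  · unfold RowF.V2A
    rw [a12, a23, a13]
    simp only [R_u1_p_f, vf2_val]
    simp

theorem um_u1w_p_f {w z m r : ℝ} (h : w ≤ 5 / 2 * m) : Um R_u1w_p_f w z m r := by
  have a12 : R_u1w_p_f.A12 w z m r = 0 := by
    unfold RowF.A12
    simp only [R_u1w_p_f, taO1w_wp, xw0_z h, qa0_z h]
    try simp
  have a23 : R_u1w_p_f.A23 w z m r = 0 := by
    unfold RowF.A23
    simp only [R_u1w_p_f, zr7]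
    simp
  have a13 : R_u1w_p_f.A13 w z m r = 0 := by
    unfold RowF.A13
    simp only [R_u1w_p_f, zr7]
    simp
  refine ⟨?_, ?_, ?_⟩
  · simp only [RowF.NU, R_u1w_p_f, nu0]
    simp
  · unfold RowF.V1A
    rw [a12, a23, a13]
    simp only [R_u1w_p_f, vf1_val]
    simp
  · unfold RowF.V2A
    rw [a12, a23, a13]
    simp only [R_u1w_p_f, vf2_val]
    simp

theorem r_u1_p_f (lb : ∀ {w r : ℝ}, 0 < r → r ≤ 1 / 40 → LineB R_u1w_p_f w w (-w) 1 r)
    (t1 : Tree 0 2684354560 0 1073741824 0 26843546 T1_u1_p_f)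
    (t2 : Tree 0 1073741824 0 429496730 0 67108864 T2_u1_p_f) :
    ∀ r lam w z xi : ℝ, Dom .pnp r lam w z → xi = E0.G.xi1 (w + z) r + E0.G.xi1 z r → -(r *
        E0.G.om w r) ≤ xi → xi ≤ E0.G.xi1 (-w) r →
    RowU .far .pnp r lam w z xi (G.H1 xi r lam w) (-G.C1d r lam z) (G.C1u r lam (w + z)) := by
  intro r lam w z xi D e_xi h1 h2
  have g := g_u1_p_f D e_xi h1 h2
  have gw := g_u1w_p_f D e_xi h1 h2
  obtain ⟨H1, H2, H3⟩ := hc_of D
  have ho : R_u1_p_f.U w z lam r ≤ (ov_U_O1W).v w z lam r := by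
    simp only [RowF.U, R_u1_p_f, u_T1_U_P1p_O1W, ov_U_O1W, zx_val, xi1_val, xi3_val, xiw_val,
        xw0p_val, xq0p_val, c3w_val]
    try unfold G.xiq at *
    push_cast
    linarith
  obtain ⟨ka, kb, kc⟩ : 0 ≤ w ∧ z ≤ 0 ∧ 0 ≤ w + z := D.ok
  have hsb : SBase R_u1_p_f w (-kw1.v w r) lam r (nbf.v w r (lam * r)) := by
    rw [nbf_val]
    exact sb_u1_p_f D.r0 D.l0 D.e ka (abs_le.1 H1.a).2 (fun e => (abs_le.1 (H1.b e)).2.trans (by
        norm_num))
      (by rw [kw1_val]; ring)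
  refine charts t1 t2 (crd_pnp D) D.r0 D.l0 ?_ ?_
  · intro e1 r1 E h W Wd Z Zd M Q N wd zd kw kwd kz kzd km kr ew ez hN hh
    have hw5 : w ≤ 5 / 2 * lam := le5 D e1 (by show w ≤ w; linarith)
    have hum : ∀ z : ℝ, Um R_u1_p_f w z lam r := fun z => um_u1_p_f hw5
    have hum0 : Um R_u1_p_f 0 0 lam r := um_u1_p_f (by have := D.l0; linarith)
    refine body_sound ?_ ?_ ?_ ?_ ?_ ?_ hh
    · exact fun c k s h0 => g.of_sk fun lev D' hl => dirT_sound kw kz km kr D' (fun _ => hum _)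
        hl h0
    · exact fun c k s h0 => g.of_sk fun lev D' hl => strT_sound kw kz km kr (enc_neg (enc_one E))
        (by norm_num) D' hsb (fun _ => hum _) (fun _ => hum _) hl h0
    · exact fun c k s h0 => g.of_sk fun lev D' hl => conT_sound kw kz kwd kzd km kr ew ez hN D'
        (cb_u1_p_f D.r0 D.l0 D.e) (fun _ => hum _) (fun _ => hum0) hl h0
    · intro _ j _ h0
      rw [frc_eq] at h0
      refine gw.of_sk fun lev D' hl => ?_
      subst e1
      have hAN : R_u1w_p_f.A w z = 1 * (w + z) := by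
        rw [one_mul]
        exact lt_val _ _ _
      have hBL : R_u1w_p_f.B w z ≤ R_u1w_p_f.L w z := by
        show lnz.v _ _ _ ≤ lw.v _ _ _
        rw [lnz_val, lw_val]
        linarith
      have hWL : w ≤ R_u1w_p_f.L w z := le_of_eq (lw_val _ _ _).symm
      have hnn := enc_norm (enc_add kw kz)
      rw [← one_mul (w + z)] at hnn
      exact lineT_sound kw kz km kr (enc_one E) (by norm_num) hnn (by linarith) (fun e => absurd
          e Bool.false_ne_true) D' (lb D.r0 r1) (um_u1w_p_f hw5) hAN hBL hWL (by linarith) hl h0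
    · exact exits_sound (fun h0 => g.of_ex fun D' => exT_sound kw kz km kr D' h0) (fun h0 =>
        g.of_ex fun D' => exO_sound kw kz km kr ho h0) (fun h0 => g.of_ex fun D' => cexT_sound kw
        kz kwd kzd km kr ew ez hN D' (cb_u1_p_f D.r0 D.l0 D.e).u h0)
    · exact fun _ a b h0 => g.of_sk fun lev D' hl => linT_sound kw kz km kr (enc_neg (enc_one E))
        (by norm_num) D' hsb (hum _) (hum _) rfl hl h0
  · intro E h W Wd Z Zd M Q N wd zd kw kwd kz kzd km kr ew ez hN hh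
    refine body_sound ?_ ?_ ?_ ?_ ?_ ?_ hh
    · exact fun c k s h0 => g.of_sk fun lev D' hl => dirT_sound kw kz km kr D' (fun e => absurd e
        Bool.false_ne_true) hl h0
    · exact fun c k s h0 => g.of_sk fun lev D' hl => strT_sound kw kz km kr (enc_neg (enc_one E))
        (by norm_num) D' hsb (fun e => absurd e Bool.false_ne_true) (fun e => absurd e
        Bool.false_ne_true) hl h0
    · exact noF_sound
    · exact noF_sound
    · exact exits_sound (fun h0 => g.of_ex fun D' => exT_sound kw kz km kr D' h0) (fun h0 =>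
        g.of_ex fun D' => exO_sound kw kz km kr ho h0) (fun h0 => absurd h0 Bool.false_ne_true)
    · exact noF_sound

theorem um_u1_p_n {w z m r : ℝ} (h : w ≤ 5 / 2 * m) : Um R_u1_p_n w z m r := by
  have a12 : R_u1_p_n.A12 w z m r = 0 := by
    unfold RowF.A12
    simp only [R_u1_p_n, taO1W_wp, qa0_z h]
    try simp
  have a23 : R_u1_p_n.A23 w z m r = 0 := by
    unfold RowF.A23
    simp only [R_u1_p_n, zr7]
    simp
  have a13 : R_u1_p_n.A13 w z m r = 0 := by
    unfold RowF.A13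
    simp only [R_u1_p_n, zr7]
    simp
  refine ⟨?_, ?_, ?_⟩
  · simp only [RowF.NU, R_u1_p_n, nu0]
    simp
  · unfold RowF.V1A
    rw [a12, a23, a13]
    simp only [R_u1_p_n, ml1_val]
    simp
  · unfold RowF.V2A
    rw [a12, a23, a13]
    simp only [R_u1_p_n, ml2_val]
    simp

theorem um_u1w_p_n {w z m r : ℝ} (h : w ≤ 5 / 2 * m) : Um R_u1w_p_n w z m r := by
  have a12 : R_u1w_p_n.A12 w z m r = 0 := by
    unfold RowF.A12
    simp only [R_u1w_p_n, taO1w_wp, xw0_z h, qa0_z h]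
    try simp
  have a23 : R_u1w_p_n.A23 w z m r = 0 := by
    unfold RowF.A23
    simp only [R_u1w_p_n, zr7]
    simp
  have a13 : R_u1w_p_n.A13 w z m r = 0 := by
    unfold RowF.A13
    simp only [R_u1w_p_n, zr7]
    simp
  refine ⟨?_, ?_, ?_⟩
  · simp only [RowF.NU, R_u1w_p_n, nu0]
    simp
  · unfold RowF.V1A
    rw [a12, a23, a13]
    simp only [R_u1w_p_n, ml1_val]
    simp
  · unfold RowF.V2A
    rw [a12, a23, a13]
    simp only [R_u1w_p_n, ml2_val]
    simp

theorem r_u1_p_n (lb : ∀ {w r : ℝ}, 0 < r → r ≤ 1 / 40 → LineB R_u1w_p_n w w (-w) 1 r)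
    (t1 : Tree 0 2684354560 0 1073741824 0 26843546 T1_u1_p_n)
    (t2 : Tree 0 1073741824 0 429496730 0 67108864 T2_u1_p_n) :
    ∀ r lam w z xi : ℝ, Dom .pnp r lam w z → xi = E0.G.xi1 (w + z) r + E0.G.xi1 z r → -(r *
        E0.G.om w r) ≤ xi → xi ≤ E0.G.xi1 (-w) r →
    RowU .near .pnp r lam w z xi (G.H1 xi r lam w) (-G.C1d r lam z) (G.C1u r lam (w + z)) := by
  intro r lam w z xi D e_xi h1 h2
  have g := g_u1_p_n D e_xi h1 h2
  have gw := g_u1w_p_n D e_xi h1 h2
  obtain ⟨H1, H2, H3⟩ := hc_of D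
  have ho : R_u1_p_n.U w z lam r ≤ (ov_U_O1W).v w z lam r := by
    simp only [RowF.U, R_u1_p_n, u_T1_U_P1p_O1W, ov_U_O1W, zx_val, xi1_val, xi3_val, xiw_val,
        xw0p_val, xq0p_val, c3w_val]
    try unfold G.xiq at *
    push_cast
    linarith
  obtain ⟨ka, kb, kc⟩ : 0 ≤ w ∧ z ≤ 0 ∧ 0 ≤ w + z := D.ok
  have hsb : SBase R_u1_p_n w (-kw1.v w r) lam r (nbn.v w r (lam * r)) := by
    rw [nbn_val]
    exact sb_u1_p_n D.r0 D.l0 D.e ka (abs_le.1 H1.a).2 (fun e => (abs_le.1 (H1.b e)).2.trans (by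
        norm_num))
      (by rw [kw1_val]; ring)
  refine charts t1 t2 (crd_pnp D) D.r0 D.l0 ?_ ?_
  · intro e1 r1 E h W Wd Z Zd M Q N wd zd kw kwd kz kzd km kr ew ez hN hh
    have hw5 : w ≤ 5 / 2 * lam := le5 D e1 (by show w ≤ w; linarith)
    have hum : ∀ z : ℝ, Um R_u1_p_n w z lam r := fun z => um_u1_p_n hw5
    have hum0 : Um R_u1_p_n 0 0 lam r := um_u1_p_n (by have := D.l0; linarith)
    refine body_sound ?_ ?_ ?_ ?_ ?_ ?_ hh
    · exact fun c k s h0 => g.of_sk fun lev D' hl => dirT_sound kw kz km kr D' (fun _ => hum _)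
        hl h0
    · exact fun c k s h0 => g.of_sk fun lev D' hl => strT_sound kw kz km kr (enc_neg (enc_one E))
        (by norm_num) D' hsb (fun _ => hum _) (fun _ => hum _) hl h0
    · exact fun c k s h0 => g.of_sk fun lev D' hl => conT_sound kw kz kwd kzd km kr ew ez hN D'
        (cb_u1_p_n D.r0 D.l0 D.e) (fun _ => hum _) (fun _ => hum0) hl h0
    · intro _ j _ h0
      rw [frc_eq] at h0
      refine gw.of_sk fun lev D' hl => ?_
      subst e1
      have hAN : R_u1w_p_n.A w z = 1 * (w + z) := by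
        rw [one_mul]
        exact lt_val _ _ _
      have hBL : R_u1w_p_n.B w z ≤ R_u1w_p_n.L w z := by
        show lnz.v _ _ _ ≤ lw.v _ _ _
        rw [lnz_val, lw_val]
        linarith
      have hWL : w ≤ R_u1w_p_n.L w z := le_of_eq (lw_val _ _ _).symm
      have hnn := enc_norm (enc_add kw kz)
      rw [← one_mul (w + z)] at hnn
      exact lineT_sound kw kz km kr (enc_one E) (by norm_num) hnn (by linarith) (fun e => absurd
          e Bool.false_ne_true) D' (lb D.r0 r1) (um_u1w_p_n hw5) hAN hBL hWL (by linarith) hl h0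
    · exact exits_sound (fun h0 => g.of_ex fun D' => exT_sound kw kz km kr D' h0) (fun h0 =>
        g.of_ex fun D' => exO_sound kw kz km kr ho h0) (fun h0 => g.of_ex fun D' => cexT_sound kw
        kz kwd kzd km kr ew ez hN D' (cb_u1_p_n D.r0 D.l0 D.e).u h0)
    · exact fun _ a b h0 => g.of_sk fun lev D' hl => linT_sound kw kz km kr (enc_neg (enc_one E))
        (by norm_num) D' hsb (hum _) (hum _) rfl hl h0
  · intro E h W Wd Z Zd M Q N wd zd kw kwd kz kzd km kr ew ez hN hh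
    refine body_sound ?_ ?_ ?_ ?_ ?_ ?_ hh
    · exact fun c k s h0 => g.of_sk fun lev D' hl => dirT_sound kw kz km kr D' (fun e => absurd e
        Bool.false_ne_true) hl h0
    · exact fun c k s h0 => g.of_sk fun lev D' hl => strT_sound kw kz km kr (enc_neg (enc_one E))
        (by norm_num) D' hsb (fun e => absurd e Bool.false_ne_true) (fun e => absurd e
        Bool.false_ne_true) hl h0
    · exact noF_sound
    · exact noF_sound
    · exact exits_sound (fun h0 => g.of_ex fun D' => exT_sound kw kz km kr D' h0) (fun h0 =>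
        g.of_ex fun D' => exO_sound kw kz km kr ho h0) (fun h0 => absurd h0 Bool.false_ne_true)
    · exact noF_sound

theorem um_uq_n_f {w z m r : ℝ} (h : w ≤ 5 / 2 * m) : Um R_uq_n_f w z m r := by
  have a12 : R_uq_n_f.A12 w z m r = 0 := by
    unfold RowF.A12
    simp only [R_uq_n_f, taOWq_wp, xw0_z h]
    try simp
  have a23 : R_uq_n_f.A23 w z m r = 0 := by
    unfold RowF.A23
    simp only [R_uq_n_f, zr7]
    simp
  have a13 : R_uq_n_f.A13 w z m r = 0 := by
    unfold RowF.A13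
    simp only [R_uq_n_f, zr7]
    simp
  refine ⟨?_, ?_, ?_⟩
  · simp only [RowF.NU, R_uq_n_f, nu0]
    simp
  · unfold RowF.V1A
    rw [a12, a23, a13]
    simp only [R_uq_n_f, vf1_val]
    simp
  · unfold RowF.V2A
    rw [a12, a23, a13]
    simp only [R_uq_n_f, vf2_val]
    simp

theorem r_uq_n_f (lb : ∀ {w r : ℝ}, 0 < r → r ≤ 1 / 40 → LineB R_uq_n_f w w (-w) 1 r)
    (t1 : Tree 0 2684354560 0 1073741824 0 26843546 T1_uq_n_f)
    (t2 : Tree 0 1073741824 0 429496730 0 67108864 T2_uq_n_f) :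
    ∀ r lam w z xi : ℝ, Dom .pnn r lam w z → xi = E0.G.xi1 (w + z) r + E0.G.xi1 z r → E0.G.xi1
        (-w) r ≤ xi → xi ≤ G.xiq r lam w →
    RowU .far .pnn r lam w z xi (G.H2 xi r lam w) (-G.C1d r lam z) (G.C1d r lam (w + z)) := by
  intro r lam w z xi D e_xi h1 h2
  have g := g_uq_n_f D e_xi h1 h2
  obtain ⟨H1, H2, H3⟩ := hc_of D
  have ho : R_uq_n_f.U w z lam r ≤ (ov_U_OWq).v w z lam r := by
    simp only [RowF.U, R_uq_n_f, u_T1_U_P1m_OWq, ov_U_OWq, zx_val, xi1_val, xi3_val, xiw_val,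
        xw0p_val, xq0p_val, c3w_val]
    try unfold G.xiq at *
    push_cast
    linarith
  obtain ⟨ka, kb, kc⟩ : 0 ≤ w ∧ z ≤ 0 ∧ w + z ≤ 0 := D.ok
  refine charts t1 t2 (crd_pnn D) D.r0 D.l0 ?_ ?_
  · intro e1 r1 E h W Wd Z Zd M Q N wd zd kw kwd kz kzd km kr ew ez hN hh
    have hw5 : w ≤ 5 / 2 * lam := le5 D e1 (by show w ≤ -z; linarith)
    have hum : ∀ z : ℝ, Um R_uq_n_f w z lam r := fun z => um_uq_n_f hw5
    have hum0 : Um R_uq_n_f 0 0 lam r := um_uq_n_f (by have := D.l0; linarith)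
    refine body_sound ?_ ?_ ?_ ?_ ?_ ?_ hh
    · exact fun c k s h0 => g.of_sk fun lev D' hl => dirT_sound kw kz km kr D' (fun _ => hum _)
        hl h0
    · exact noF_sound
    · exact fun c k s h0 => g.of_sk fun lev D' hl => conT_sound kw kz kwd kzd km kr ew ez hN D'
        (cb_uq_n_f D.r0 D.l0 D.e) (fun _ => hum _) (fun _ => hum0) hl h0
    · intro _ j _ h0
      rw [frc_eq] at h0
      refine g.of_sk fun lev D' hl => ?_
      subst e1
      have hAN : R_uq_n_f.A w z = -1 * (w + z) := by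
        rw [neg_one_mul]
        exact lnt_val _ _ _
      have hBL : R_uq_n_f.B w z ≤ R_uq_n_f.L w z := by
        show lw.v _ _ _ ≤ lnz.v _ _ _
        rw [lnz_val, lw_val]
        linarith
      have hWL : w ≤ R_uq_n_f.L w z := by
        show w ≤ lnz.v _ _ _
        rw [lnz_val]
        linarith
      have hnn := enc_neg (enc_norm (enc_add kw kz))
      rw [← neg_one_mul (w + z)] at hnn
      exact lineT_sound kw kz km kr (enc_neg (enc_one E)) (by norm_num) hnn (by linarith) (fun e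
          => absurd e Bool.false_ne_true) D' (lb D.r0 r1) (um_uq_n_f hw5) hAN hBL hWL (by
          linarith) hl h0
    · exact exits_sound (fun h0 => g.of_ex fun D' => exT_sound kw kz km kr D' h0) (fun h0 =>
        g.of_ex fun D' => exO_sound kw kz km kr ho h0) (fun h0 => g.of_ex fun D' => cexT_sound kw
        kz kwd kzd km kr ew ez hN D' (cb_uq_n_f D.r0 D.l0 D.e).u h0)
    · exact noF_sound
  · intro E h W Wd Z Zd M Q N wd zd kw kwd kz kzd km kr ew ez hN hh
    refine body_sound ?_ ?_ ?_ ?_ ?_ ?_ hh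
    · exact fun c k s h0 => g.of_sk fun lev D' hl => dirT_sound kw kz km kr D' (fun e => absurd e
        Bool.false_ne_true) hl h0
    · exact noF_sound
    · exact noF_sound
    · exact noF_sound
    · exact exits_sound (fun h0 => g.of_ex fun D' => exT_sound kw kz km kr D' h0) (fun h0 =>
        g.of_ex fun D' => exO_sound kw kz km kr ho h0) (fun h0 => absurd h0 Bool.false_ne_true)
    · exact noF_sound

theorem um_uq_n_n {w z m r : ℝ} (h : w ≤ 5 / 2 * m) : Um R_uq_n_n w z m r := by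
  have a12 : R_uq_n_n.A12 w z m r = 0 := by
    unfold RowF.A12
    simp only [R_uq_n_n, taOWq_wp, xw0_z h]
    try simp
  have a23 : R_uq_n_n.A23 w z m r = 0 := by
    unfold RowF.A23
    simp only [R_uq_n_n, zr7]
    simp
  have a13 : R_uq_n_n.A13 w z m r = 0 := by
    unfold RowF.A13
    simp only [R_uq_n_n, zr7]
    simp
  refine ⟨?_, ?_, ?_⟩
  · simp only [RowF.NU, R_uq_n_n, nu0]
    simp
  · unfold RowF.V1A
    rw [a12, a23, a13]
    simp only [R_uq_n_n, ml1_val]
    simp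
  · unfold RowF.V2A
    rw [a12, a23, a13]
    simp only [R_uq_n_n, ml2_val]
    simp

theorem r_uq_n_n (lb : ∀ {w r : ℝ}, 0 < r → r ≤ 1 / 40 → LineB R_uq_n_n w w (-w) 1 r)
    (t1 : Tree 0 2684354560 0 1073741824 0 26843546 T1_uq_n_n)
    (t2 : Tree 0 1073741824 0 429496730 0 67108864 T2_uq_n_n) :
    ∀ r lam w z xi : ℝ, Dom .pnn r lam w z → xi = E0.G.xi1 (w + z) r + E0.G.xi1 z r → E0.G.xi1
        (-w) r ≤ xi → xi ≤ G.xiq r lam w →
    RowU .near .pnn r lam w z xi (G.H2 xi r lam w) (-G.C1d r lam z) (G.C1d r lam (w + z)) := by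
  intro r lam w z xi D e_xi h1 h2
  have g := g_uq_n_n D e_xi h1 h2
  obtain ⟨H1, H2, H3⟩ := hc_of D
  have ho : R_uq_n_n.U w z lam r ≤ (ov_U_OWq).v w z lam r := by
    simp only [RowF.U, R_uq_n_n, u_T1_U_P1m_OWq, ov_U_OWq, zx_val, xi1_val, xi3_val, xiw_val,
        xw0p_val, xq0p_val, c3w_val]
    try unfold G.xiq at *
    push_cast
    linarith
  obtain ⟨ka, kb, kc⟩ : 0 ≤ w ∧ z ≤ 0 ∧ w + z ≤ 0 := D.ok
  refine charts t1 t2 (crd_pnn D) D.r0 D.l0 ?_ ?_
  · intro e1 r1 E h W Wd Z Zd M Q N wd zd kw kwd kz kzd km kr ew ez hN hh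
    have hw5 : w ≤ 5 / 2 * lam := le5 D e1 (by show w ≤ -z; linarith)
    have hum : ∀ z : ℝ, Um R_uq_n_n w z lam r := fun z => um_uq_n_n hw5
    have hum0 : Um R_uq_n_n 0 0 lam r := um_uq_n_n (by have := D.l0; linarith)
    refine body_sound ?_ ?_ ?_ ?_ ?_ ?_ hh
    · exact fun c k s h0 => g.of_sk fun lev D' hl => dirT_sound kw kz km kr D' (fun _ => hum _)
        hl h0
    · exact noF_sound
    · exact fun c k s h0 => g.of_sk fun lev D' hl => conT_sound kw kz kwd kzd km kr ew ez hN D'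
        (cb_uq_n_n D.r0 D.l0 D.e) (fun _ => hum _) (fun _ => hum0) hl h0
    · intro _ j _ h0
      rw [frc_eq] at h0
      refine g.of_sk fun lev D' hl => ?_
      subst e1
      have hAN : R_uq_n_n.A w z = -1 * (w + z) := by
        rw [neg_one_mul]
        exact lnt_val _ _ _
      have hBL : R_uq_n_n.B w z ≤ R_uq_n_n.L w z := by
        show lw.v _ _ _ ≤ lnz.v _ _ _
        rw [lnz_val, lw_val]
        linarith
      have hWL : w ≤ R_uq_n_n.L w z := by
        show w ≤ lnz.v _ _ _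
        rw [lnz_val]
        linarith
      have hnn := enc_neg (enc_norm (enc_add kw kz))
      rw [← neg_one_mul (w + z)] at hnn
      exact lineT_sound kw kz km kr (enc_neg (enc_one E)) (by norm_num) hnn (by linarith) (fun e
          => absurd e Bool.false_ne_true) D' (lb D.r0 r1) (um_uq_n_n hw5) hAN hBL hWL (by
          linarith) hl h0
    · exact exits_sound (fun h0 => g.of_ex fun D' => exT_sound kw kz km kr D' h0) (fun h0 =>
        g.of_ex fun D' => exO_sound kw kz km kr ho h0) (fun h0 => g.of_ex fun D' => cexT_sound kw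
        kz kwd kzd km kr ew ez hN D' (cb_uq_n_n D.r0 D.l0 D.e).u h0)
    · exact noF_sound
  · intro E h W Wd Z Zd M Q N wd zd kw kwd kz kzd km kr ew ez hN hh
    refine body_sound ?_ ?_ ?_ ?_ ?_ ?_ hh
    · exact fun c k s h0 => g.of_sk fun lev D' hl => dirT_sound kw kz km kr D' (fun e => absurd e
        Bool.false_ne_true) hl h0
    · exact noF_sound
    · exact noF_sound
    · exact noF_sound
    · exact exits_sound (fun h0 => g.of_ex fun D' => exT_sound kw kz km kr D' h0) (fun h0 =>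
        g.of_ex fun D' => exO_sound kw kz km kr ho h0) (fun h0 => absurd h0 Bool.false_ne_true)
    · exact noF_sound

theorem um_u5_n_f {w z m r : ℝ} (h : w ≤ 5 / 2 * m) : Um R_u5_n_f w z m r := by
  have a12 : R_u5_n_f.A12 w z m r = 0 := by
    unfold RowF.A12
    simp only [R_u5_n_f, taOq5_wp, xq0_z h]
    try simp
  have a23 : R_u5_n_f.A23 w z m r = 0 := by
    unfold RowF.A23
    simp only [R_u5_n_f, zr7]
    simp
  have a13 : R_u5_n_f.A13 w z m r = 0 := by
    unfold RowF.A13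
    simp only [R_u5_n_f, zr7]
    simp
  refine ⟨?_, ?_, ?_⟩
  · simp only [RowF.NU, R_u5_n_f, nu0]
    simp
  · unfold RowF.V1A
    rw [a12, a23, a13]
    simp only [R_u5_n_f, vf1_val]
    simp
  · unfold RowF.V2A
    rw [a12, a23, a13]
    simp only [R_u5_n_f, vf2_val]
    simp

theorem r_u5_n_f (t1 : Tree 0 2684354560 0 1073741824 0 26843546 T1_u5_n_f)
    (t2 : Tree 0 1073741824 0 429496730 0 67108864 T2_u5_n_f) :
    ∀ r lam w z xi : ℝ, Dom .pnn r lam w z → xi = E0.G.xi1 (w + z) r + E0.G.xi1 z r → G.xiq r lam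
        w ≤ xi → r * (xi - E0.G.xi1 (-w) r) ≤ 3 / 20 * G.dQ r w →
    RowU .far .pnn r lam w z xi (G.H3 xi r lam w) (-G.C1d r lam z) (G.C1d r lam (w + z)) := by
  intro r lam w z xi D e_xi h1 h2
  have g := g_u5_n_f D e_xi h1 h2
  obtain ⟨H1, H2, H3⟩ := hc_of D
  obtain ⟨ka, kb, kc⟩ : 0 ≤ w ∧ z ≤ 0 ∧ w + z ≤ 0 := D.ok
  refine charts t1 t2 (crd_pnn D) D.r0 D.l0 ?_ ?_
  · intro e1 r1 E h W Wd Z Zd M Q N wd zd kw kwd kz kzd km kr ew ez hN hh
    have hw5 : w ≤ 5 / 2 * lam := le5 D e1 (by show w ≤ -z; linarith)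
    have hum : ∀ z : ℝ, Um R_u5_n_f w z lam r := fun z => um_u5_n_f hw5
    have hum0 : Um R_u5_n_f 0 0 lam r := um_u5_n_f (by have := D.l0; linarith)
    refine body_sound ?_ ?_ ?_ ?_ ?_ ?_ hh
    · exact fun c k s h0 => g.of_sk fun lev D' hl => dirT_sound kw kz km kr D' (fun _ => hum _)
        hl h0
    · exact noF_sound
    · exact noF_sound
    · exact noF_sound
    · exact exits_sound (fun h0 => g.of_ex fun D' => exT_sound kw kz km kr D' h0) (fun h0 =>
        absurd h0 Bool.false_ne_true) (fun h0 => absurd h0 Bool.false_ne_true)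
    · exact noF_sound
  · intro E h W Wd Z Zd M Q N wd zd kw kwd kz kzd km kr ew ez hN hh
    refine body_sound ?_ ?_ ?_ ?_ ?_ ?_ hh
    · exact fun c k s h0 => g.of_sk fun lev D' hl => dirT_sound kw kz km kr D' (fun e => absurd e
        Bool.false_ne_true) hl h0
    · exact noF_sound
    · exact noF_sound
    · exact noF_sound
    · exact exits_sound (fun h0 => g.of_ex fun D' => exT_sound kw kz km kr D' h0) (fun h0 =>
        absurd h0 Bool.false_ne_true) (fun h0 => absurd h0 Bool.false_ne_true)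
    · exact noF_sound

theorem um_u5_n_n {w z m r : ℝ} (h : w ≤ 5 / 2 * m) : Um R_u5_n_n w z m r := by
  have a12 : R_u5_n_n.A12 w z m r = 0 := by
    unfold RowF.A12
    simp only [R_u5_n_n, taOq5_wp, xq0_z h]
    try simp
  have a23 : R_u5_n_n.A23 w z m r = 0 := by
    unfold RowF.A23
    simp only [R_u5_n_n, zr7]
    simp
  have a13 : R_u5_n_n.A13 w z m r = 0 := by
    unfold RowF.A13
    simp only [R_u5_n_n, zr7]
    simp
  refine ⟨?_, ?_, ?_⟩
  · simp only [RowF.NU, R_u5_n_n, nu0]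
    simp
  · unfold RowF.V1A
    rw [a12, a23, a13]
    simp only [R_u5_n_n, ml1_val]
    simp
  · unfold RowF.V2A
    rw [a12, a23, a13]
    simp only [R_u5_n_n, ml2_val]
    simp

theorem r_u5_n_n (t1 : Tree 0 2684354560 0 1073741824 0 26843546 T1_u5_n_n)
    (t2 : Tree 0 1073741824 0 429496730 0 67108864 T2_u5_n_n) :
    ∀ r lam w z xi : ℝ, Dom .pnn r lam w z → xi = E0.G.xi1 (w + z) r + E0.G.xi1 z r → G.xiq r lam
        w ≤ xi → r * (xi - E0.G.xi1 (-w) r) ≤ 3 / 20 * G.dQ r w →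
    RowU .near .pnn r lam w z xi (G.H3 xi r lam w) (-G.C1d r lam z) (G.C1d r lam (w + z)) := by
  intro r lam w z xi D e_xi h1 h2
  have g := g_u5_n_n D e_xi h1 h2
  obtain ⟨H1, H2, H3⟩ := hc_of D
  obtain ⟨ka, kb, kc⟩ : 0 ≤ w ∧ z ≤ 0 ∧ w + z ≤ 0 := D.ok
  refine charts t1 t2 (crd_pnn D) D.r0 D.l0 ?_ ?_
  · intro e1 r1 E h W Wd Z Zd M Q N wd zd kw kwd kz kzd km kr ew ez hN hh
    have hw5 : w ≤ 5 / 2 * lam := le5 D e1 (by show w ≤ -z; linarith)
    have hum : ∀ z : ℝ, Um R_u5_n_n w z lam r := fun z => um_u5_n_n hw5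
    have hum0 : Um R_u5_n_n 0 0 lam r := um_u5_n_n (by have := D.l0; linarith)
    refine body_sound ?_ ?_ ?_ ?_ ?_ ?_ hh
    · exact fun c k s h0 => g.of_sk fun lev D' hl => dirT_sound kw kz km kr D' (fun _ => hum _)
        hl h0
    · exact noF_sound
    · exact noF_sound
    · exact noF_sound
    · exact exits_sound (fun h0 => g.of_ex fun D' => exT_sound kw kz km kr D' h0) (fun h0 =>
        absurd h0 Bool.false_ne_true) (fun h0 => absurd h0 Bool.false_ne_true)
    · exact noF_sound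
  · intro E h W Wd Z Zd M Q N wd zd kw kwd kz kzd km kr ew ez hN hh
    refine body_sound ?_ ?_ ?_ ?_ ?_ ?_ hh
    · exact fun c k s h0 => g.of_sk fun lev D' hl => dirT_sound kw kz km kr D' (fun e => absurd e
        Bool.false_ne_true) hl h0
    · exact noF_sound
    · exact noF_sound
    · exact noF_sound
    · exact exits_sound (fun h0 => g.of_ex fun D' => exT_sound kw kz km kr D' h0) (fun h0 =>
        absurd h0 Bool.false_ne_true) (fun h0 => absurd h0 Bool.false_ne_true)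
    · exact noF_sound

end Pool.Agent.Strip051.LC.E1.Ch
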