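import Pool.Agent.Strip051.LC.E1.Ch.L1
import Pool.Agent.Strip051.LC.E1.Ch.L2
import Pool.Agent.Strip051.LC.E1.Ch.L3
import Pool.Agent.Strip051.LC.E1.Ch.L4
import Pool.Agent.Strip051.LC.E1.Ch.Cert.Lb
import Pool.Agent.Strip051.LC.E1.Ch.Cert.P1
import Pool.Agent.Strip051.LC.E1.Ch.Cert.P2
import Pool.Agent.Strip051.LC.E1.Ch.Cert.P_x1_t1b_c1_d_n_1
import Pool.Agent.Strip051.LC.E1.Ch.Cert.P_x1_t1b_c1_d_n_2
import Pool.Agent.Strip051.LC.E1.Ch.Cert.P_x1_t1b_c1_d_n_3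
import Pool.Agent.Strip051.LC.E1.Ch.Cert.P_x1_t1b_c1_d_n_4
import Pool.Agent.Strip051.LC.E1.Ch.Cert.P_x1_t1b_c1_d_n
import Pool.Agent.Strip051.LC.E1.Ch.Cert.P3
import Pool.Agent.Strip051.LC.E1.Ch.Cert.P4
import Pool.Agent.Strip051.LC.E1.Ch.Cert.P5
import Pool.Agent.Strip051.LC.E1.Ch.Cert.P_x2_t2b_c1_dd_n_1
import Pool.Agent.Strip051.LC.E1.Ch.Cert.P_x2_t2b_c1_dd_n_2
import Pool.Agent.Strip051.LC.E1.Ch.Cert.P_x2_t2b_c1_dd_n_3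
import Pool.Agent.Strip051.LC.E1.Ch.Cert.P_x2_t2b_c1_dd_n
import Pool.Agent.Strip051.LC.E1.Ch.Cert.P6
import Pool.Agent.Strip051.LC.E1.Ch.Cert.P7
import Pool.Agent.Strip051.LC.E1.Ch.Cert.P8
import Pool.Agent.Strip051.LC.E1.Ch.Cert.P9
import Pool.Agent.Strip051.LC.E1.Ch.Cert.P_x2_t3a_c1_n_1
import Pool.Agent.Strip051.LC.E1.Ch.Cert.P_x2_t3a_c1_n_2
import Pool.Agent.Strip051.LC.E1.Ch.Cert.P_x2_t3a_c1_n_3
import Pool.Agent.Strip051.LC.E1.Ch.Cert.P_x2_t3a_c1_n_4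
import Pool.Agent.Strip051.LC.E1.Ch.Cert.P_x2_t3a_c1_n_5
import Pool.Agent.Strip051.LC.E1.Ch.Cert.P_x2_t3a_c1_n_6
import Pool.Agent.Strip051.LC.E1.Ch.Cert.P_x2_t3a_c1_n_7
import Pool.Agent.Strip051.LC.E1.Ch.Cert.P_x2_t3a_c1_n_8
import Pool.Agent.Strip051.LC.E1.Ch.Cert.P_x2_t3a_c1_n_9
import Pool.Agent.Strip051.LC.E1.Ch.Cert.P_x2_t3a_c1_n
import Pool.Agent.Strip051.LC.E1.Ch.Cert.P10
import Pool.Agent.Strip051.LC.E1.Ch.Cert.P11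
import Pool.Agent.Strip051.LC.E1.Ch.Cert.P12
import Pool.Agent.Strip051.LC.E1.Ch.Cert.P13

/-! # Rests near the full period: the rows from their certificates -/

namespace Pool.Agent.Strip051.LC.E1.Ch

theorem a_t1a_c1_d_f :
    ∀ r lam w z xi : ℝ, Dom .pnp r lam w z → xi = -(r * E0.G.om w r) - E0.G.xi1 z r → E0.G.xi1 (w
        + z) r ≤ xi → xi ≤ E0.G.xiw (w + z) r →
    RowT .far .pnp B1 r lam w z xi (-G.C1d r lam z) (G.Pw xi r lam (w + z)) :=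
  r_t1a_c1_d_f x1_t1a_c1_d_f x2_t1a_c1_d_f

theorem a_t1a_c1_d_n :
    ∀ r lam w z xi : ℝ, Dom .pnp r lam w z → xi = -(r * E0.G.om w r) - E0.G.xi1 z r → E0.G.xi1 (w
        + z) r ≤ xi → xi ≤ E0.G.xiw (w + z) r →
    RowT .near .pnp B1 r lam w z xi (-G.C1d r lam z) (G.Pw xi r lam (w + z)) :=
  r_t1a_c1_d_n x1_t1a_c1_d_n x2_t1a_c1_d_n

theorem a_t1a_c1_u_f :
    ∀ r lam w z xi : ℝ, Dom .pp r lam w z → xi = -(r * E0.G.om w r) - E0.G.xi1 z r → E0.G.xiw (w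
        + z) r ≤ xi → 1 / 2 + r * xi ≤ G.xb (w + z) r →
    RowT .far .pp B1 r lam w z xi (-G.C1u r lam z) (G.Pb xi r lam (w + z)) :=
  r_t1a_c1_u_f x1_t1a_c1_u_f x2_t1a_c1_u_f

theorem a_t1a_c1_u_n :
    ∀ r lam w z xi : ℝ, Dom .pp r lam w z → xi = -(r * E0.G.om w r) - E0.G.xi1 z r → E0.G.xiw (w
        + z) r ≤ xi → 1 / 2 + r * xi ≤ G.xb (w + z) r →
    RowT .near .pp B1 r lam w z xi (-G.C1u r lam z) (G.Pb xi r lam (w + z)) :=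
  r_t1a_c1_u_n x1_t1a_c1_u_n x2_t1a_c1_u_n

theorem a_t1a_W_f :
    ∀ r lam w z xi : ℝ, Dom .pp r lam w z → xi = -(r * E0.G.om w r) - E0.G.xiw z r → E0.G.xiw (w
        + z) r ≤ xi → 1 / 2 + r * xi ≤ G.xb (w + z) r →
    RowT .far .pp B1 r lam w z xi (-G.W2 r lam z) (G.Pb xi r lam (w + z)) :=
  r_t1a_W_f x1_t1a_W_f x2_t1a_W_f

theorem a_t1a_W_n :
    ∀ r lam w z xi : ℝ, Dom .pp r lam w z → xi = -(r * E0.G.om w r) - E0.G.xiw z r → E0.G.xiw (w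
        + z) r ≤ xi → 1 / 2 + r * xi ≤ G.xb (w + z) r →
    RowT .near .pp B1 r lam w z xi (-G.W2 r lam z) (G.Pb xi r lam (w + z)) :=
  r_t1a_W_n x1_t1a_W_n x2_t1a_W_n

theorem a_t1b_c1_d_f :
    ∀ r lam w z xi xi' : ℝ, Dom .pnp r lam w z → xi = E0.G.xi1 (w + z) r → xi' = -(r * E0.G.om w
        r) - xi → E0.G.xi1 z r ≤ xi' → 1 / 2 + r * xi' ≤ G.xa z r →
    RowT .far .pnp B1 r lam w z xi (-G.Pa xi' r lam z) (G.C1u r lam (w + z)) :=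
  r_t1b_c1_d_f x1_t1b_c1_d_f x2_t1b_c1_d_f

theorem a_t1b_c1_d_n :
    ∀ r lam w z xi xi' : ℝ, Dom .pnp r lam w z → xi = E0.G.xi1 (w + z) r → xi' = -(r * E0.G.om w
        r) - xi → E0.G.xi1 z r ≤ xi' → 1 / 2 + r * xi' ≤ G.xa z r →
    RowT .near .pnp B1 r lam w z xi (-G.Pa xi' r lam z) (G.C1u r lam (w + z)) :=
  r_t1b_c1_d_n x1_t1b_c1_d_n x2_t1b_c1_d_n

theorem a_t1b_c1_u_f :
    ∀ r lam w z xi xi' : ℝ, Dom .pp r lam w z → xi = E0.G.xi1 (w + z) r → xi' = -(r * E0.G.om w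
        r) - xi → E0.G.xiw z r ≤ xi' → 1 / 2 + r * xi' ≤ G.xb z r →
    RowT .far .pp B1 r lam w z xi (-G.Pb xi' r lam z) (G.C1u r lam (w + z)) :=
  r_t1b_c1_u_f x1_t1b_c1_u_f x2_t1b_c1_u_f

theorem a_t1b_c1_u_n :
    ∀ r lam w z xi xi' : ℝ, Dom .pp r lam w z → xi = E0.G.xi1 (w + z) r → xi' = -(r * E0.G.om w
        r) - xi → E0.G.xiw z r ≤ xi' → 1 / 2 + r * xi' ≤ G.xb z r →
    RowT .near .pp B1 r lam w z xi (-G.Pb xi' r lam z) (G.C1u r lam (w + z)) :=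
  r_t1b_c1_u_n x1_t1b_c1_u_n x2_t1b_c1_u_n

theorem a_t1b_W_f :
    ∀ r lam w z xi xi' : ℝ, Dom .pp r lam w z → xi = E0.G.xiw (w + z) r → xi' = -(r * E0.G.om w
        r) - xi → E0.G.xiw z r ≤ xi' → 1 / 2 + r * xi' ≤ G.xb z r →
    RowT .far .pp B1 r lam w z xi (-G.Pb xi' r lam z) (G.W2 r lam (w + z)) :=
  r_t1b_W_f x1_t1b_W_f x2_t1b_W_f

theorem a_t1b_W_n :
    ∀ r lam w z xi xi' : ℝ, Dom .pp r lam w z → xi = E0.G.xiw (w + z) r → xi' = -(r * E0.G.om w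
        r) - xi → E0.G.xiw z r ≤ xi' → 1 / 2 + r * xi' ≤ G.xb z r →
    RowT .near .pp B1 r lam w z xi (-G.Pb xi' r lam z) (G.W2 r lam (w + z)) :=
  r_t1b_W_n x1_t1b_W_n x2_t1b_W_n

theorem a_t2a_W_f :
    ∀ r lam w z xi' : ℝ, Dom .pnp r lam w z → xi' = E0.G.xiw z r + r * E0.G.om w r → E0.G.xiw (w
        + z) r ≤ xi' → 1 / 2 + r * xi' ≤ G.xb (w + z) r →
    RowT .far .pnp B2 r lam w z (-xi') (-G.W1 r lam z) (-G.Pb xi' r lam (w + z)) :=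
  r_t2a_W_f x1_t2a_W_f x2_t2a_W_f

theorem a_t2a_W_n :
    ∀ r lam w z xi' : ℝ, Dom .pnp r lam w z → xi' = E0.G.xiw z r + r * E0.G.om w r → E0.G.xiw (w
        + z) r ≤ xi' → 1 / 2 + r * xi' ≤ G.xb (w + z) r →
    RowT .near .pnp B2 r lam w z (-xi') (-G.W1 r lam z) (-G.Pb xi' r lam (w + z)) :=
  r_t2a_W_n x1_t2a_W_n x2_t2a_W_n

theorem a_t2a_c3_dd_f :
    ∀ r lam w z xi' : ℝ, Dom .pnn r lam w z → xi' = E0.G.xi3 z r + r * E0.G.om w r → E0.G.xi1 (w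
        + z) r ≤ xi' → 1 / 2 + r * xi' ≤ G.xa (w + z) r →
    RowT .far .pnn B2 r lam w z (-xi') (-G.C3d r lam z) (-G.Pa xi' r lam (w + z)) :=
  r_t2a_c3_dd_f x1_t2a_c3_dd_f x2_t2a_c3_dd_f

theorem a_t2a_c3_dd_n :
    ∀ r lam w z xi' : ℝ, Dom .pnn r lam w z → xi' = E0.G.xi3 z r + r * E0.G.om w r → E0.G.xi1 (w
        + z) r ≤ xi' → 1 / 2 + r * xi' ≤ G.xa (w + z) r →
    RowT .near .pnn B2 r lam w z (-xi') (-G.C3d r lam z) (-G.Pa xi' r lam (w + z)) :=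
  r_t2a_c3_dd_n x1_t2a_c3_dd_n x2_t2a_c3_dd_n

theorem a_t2a_c3_du_f :
    ∀ r lam w z xi' : ℝ, Dom .pnp r lam w z → xi' = E0.G.xi3 z r + r * E0.G.om w r → E0.G.xiw (w
        + z) r ≤ xi' → 1 / 2 + r * xi' ≤ G.xb (w + z) r →
    RowT .far .pnp B2 r lam w z (-xi') (-G.C3d r lam z) (-G.Pb xi' r lam (w + z)) :=
  r_t2a_c3_du_f x1_t2a_c3_du_f x2_t2a_c3_du_f

theorem a_t2a_c3_du_n :
    ∀ r lam w z xi' : ℝ, Dom .pnp r lam w z → xi' = E0.G.xi3 z r + r * E0.G.om w r → E0.G.xiw (w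
        + z) r ≤ xi' → 1 / 2 + r * xi' ≤ G.xb (w + z) r →
    RowT .near .pnp B2 r lam w z (-xi') (-G.C3d r lam z) (-G.Pb xi' r lam (w + z)) :=
  r_t2a_c3_du_n x1_t2a_c3_du_n x2_t2a_c3_du_n

theorem a_t2a_c3_u1_f :
    ∀ r lam w z xi' : ℝ, Dom .pp r lam w z → xi' = E0.G.xi3 z r + r * E0.G.om w r → E0.G.xi1 (w +
        z) r ≤ xi' → xi' ≤ E0.G.xiw (w + z) r →
    RowT .far .pp B2 r lam w z (-xi') (-G.C3u r lam z) (-G.Pw xi' r lam (w + z)) :=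
  r_t2a_c3_u1_f x1_t2a_c3_u1_f x2_t2a_c3_u1_f

theorem a_t2a_c3_u1_n :
    ∀ r lam w z xi' : ℝ, Dom .pp r lam w z → xi' = E0.G.xi3 z r + r * E0.G.om w r → E0.G.xi1 (w +
        z) r ≤ xi' → xi' ≤ E0.G.xiw (w + z) r →
    RowT .near .pp B2 r lam w z (-xi') (-G.C3u r lam z) (-G.Pw xi' r lam (w + z)) :=
  r_t2a_c3_u1_n x1_t2a_c3_u1_n x2_t2a_c3_u1_n

theorem a_t2a_c3_u2_f :
    ∀ r lam w z xi' : ℝ, Dom .pp r lam w z → xi' = E0.G.xi3 z r + r * E0.G.om w r → E0.G.xiw (w +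
        z) r ≤ xi' → 1 / 2 + r * xi' ≤ G.xb (w + z) r →
    RowT .far .pp B2 r lam w z (-xi') (-G.C3u r lam z) (-G.Pb xi' r lam (w + z)) :=
  r_t2a_c3_u2_f x1_t2a_c3_u2_f x2_t2a_c3_u2_f

theorem a_t2a_c3_u2_n :
    ∀ r lam w z xi' : ℝ, Dom .pp r lam w z → xi' = E0.G.xi3 z r + r * E0.G.om w r → E0.G.xiw (w +
        z) r ≤ xi' → 1 / 2 + r * xi' ≤ G.xb (w + z) r →
    RowT .near .pp B2 r lam w z (-xi') (-G.C3u r lam z) (-G.Pb xi' r lam (w + z)) :=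
  r_t2a_c3_u2_n x1_t2a_c3_u2_n x2_t2a_c3_u2_n

theorem a_t2b_c1_dd_f :
    ∀ r lam w z xi' : ℝ, Dom .pnn r lam w z → xi' = -(r * E0.G.om w r) + E0.G.xi1 (w + z) r →
        E0.G.xiw z r ≤ xi' → xi' ≤ E0.G.xi3 z r →
    RowT .far .pnn B2 r lam w z (-E0.G.xi1 (w + z) r) (-G.P3 xi' r lam z) (-G.C1d r lam (w + z))
        :=
  r_t2b_c1_dd_f x1_t2b_c1_dd_f x2_t2b_c1_dd_f

theorem a_t2b_c1_dd_n :
    ∀ r lam w z xi' : ℝ, Dom .pnn r lam w z → xi' = -(r * E0.G.om w r) + E0.G.xi1 (w + z) r →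
        E0.G.xiw z r ≤ xi' → xi' ≤ E0.G.xi3 z r →
    RowT .near .pnn B2 r lam w z (-E0.G.xi1 (w + z) r) (-G.P3 xi' r lam z) (-G.C1d r lam (w + z))
        :=
  r_t2b_c1_dd_n x1_t2b_c1_dd_n x2_t2b_c1_dd_n

theorem a_t2b_c1_du_f :
    ∀ r lam w z xi' : ℝ, Dom .pnp r lam w z → xi' = -(r * E0.G.om w r) + E0.G.xi1 (w + z) r →
        G.xc z r ≤ 3 / 2 + r * xi' → xi' ≤ E0.G.xiw z r →
    RowT .far .pnp B2 r lam w z (-E0.G.xi1 (w + z) r) (-G.Pc xi' r lam z) (-G.C1u r lam (w + z))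
        :=
  r_t2b_c1_du_f x1_t2b_c1_du_f x2_t2b_c1_du_f

theorem a_t2b_c1_du_n :
    ∀ r lam w z xi' : ℝ, Dom .pnp r lam w z → xi' = -(r * E0.G.om w r) + E0.G.xi1 (w + z) r →
        G.xc z r ≤ 3 / 2 + r * xi' → xi' ≤ E0.G.xiw z r →
    RowT .near .pnp B2 r lam w z (-E0.G.xi1 (w + z) r) (-G.Pc xi' r lam z) (-G.C1u r lam (w + z))
        :=
  r_t2b_c1_du_n x1_t2b_c1_du_n x2_t2b_c1_du_n

theorem a_t2b_c1_u_f :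
    ∀ r lam w z xi' : ℝ, Dom .pp r lam w z → xi' = -(r * E0.G.om w r) + E0.G.xi1 (w + z) r → G.xd
        z r ≤ 3 / 2 + r * xi' → xi' ≤ E0.G.xi3 z r →
    RowT .far .pp B2 r lam w z (-E0.G.xi1 (w + z) r) (-G.Pd xi' r lam z) (-G.C1u r lam (w + z))
        :=
  r_t2b_c1_u_f x1_t2b_c1_u_f x2_t2b_c1_u_f

theorem a_t2b_c1_u_n :
    ∀ r lam w z xi' : ℝ, Dom .pp r lam w z → xi' = -(r * E0.G.om w r) + E0.G.xi1 (w + z) r → G.xd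
        z r ≤ 3 / 2 + r * xi' → xi' ≤ E0.G.xi3 z r →
    RowT .near .pp B2 r lam w z (-E0.G.xi1 (w + z) r) (-G.Pd xi' r lam z) (-G.C1u r lam (w + z))
        :=
  r_t2b_c1_u_n x1_t2b_c1_u_n x2_t2b_c1_u_n

theorem a_t2b_W_d_f :
    ∀ r lam w z xi' : ℝ, Dom .pnp r lam w z → xi' = -(r * E0.G.om w r) + E0.G.xiw (w + z) r →
        G.xc z r ≤ 3 / 2 + r * xi' → xi' ≤ E0.G.xiw z r →
    RowT .far .pnp B2 r lam w z (-E0.G.xiw (w + z) r) (-G.Pc xi' r lam z) (-G.W2 r lam (w + z))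
        :=
  r_t2b_W_d_f x1_t2b_W_d_f x2_t2b_W_d_f

theorem a_t2b_W_d_n :
    ∀ r lam w z xi' : ℝ, Dom .pnp r lam w z → xi' = -(r * E0.G.om w r) + E0.G.xiw (w + z) r →
        G.xc z r ≤ 3 / 2 + r * xi' → xi' ≤ E0.G.xiw z r →
    RowT .near .pnp B2 r lam w z (-E0.G.xiw (w + z) r) (-G.Pc xi' r lam z) (-G.W2 r lam (w + z))
        :=
  r_t2b_W_d_n x1_t2b_W_d_n x2_t2b_W_d_n

theorem a_t2b_W_u_f :
    ∀ r lam w z xi' : ℝ, Dom .pp r lam w z → xi' = -(r * E0.G.om w r) + E0.G.xiw (w + z) r → G.xd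
        z r ≤ 3 / 2 + r * xi' → xi' ≤ E0.G.xi3 z r →
    RowT .far .pp B2 r lam w z (-E0.G.xiw (w + z) r) (-G.Pd xi' r lam z) (-G.W2 r lam (w + z)) :=
  r_t2b_W_u_f x1_t2b_W_u_f x2_t2b_W_u_f

theorem a_t2b_W_u_n :
    ∀ r lam w z xi' : ℝ, Dom .pp r lam w z → xi' = -(r * E0.G.om w r) + E0.G.xiw (w + z) r → G.xd
        z r ≤ 3 / 2 + r * xi' → xi' ≤ E0.G.xi3 z r →
    RowT .near .pp B2 r lam w z (-E0.G.xiw (w + z) r) (-G.Pd xi' r lam z) (-G.W2 r lam (w + z))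
        :=
  r_t2b_W_u_n x1_t2b_W_u_n x2_t2b_W_u_n

theorem a_t3a_c1_f :
    ∀ r lam w z xi : ℝ, Dom .pp r lam w z → xi = -(r * E0.G.om w r) + E0.G.xi1 z r → G.xd (w + z)
        r ≤ 3 / 2 + r * xi → xi ≤ E0.G.xi3 (w + z) r →
    RowT .far .pp B3 r lam w z xi (G.C1u r lam z) (G.Pd xi r lam (w + z)) :=
  r_t3a_c1_f x1_t3a_c1_f x2_t3a_c1_f

theorem a_t3a_c1_n :
    ∀ r lam w z xi : ℝ, Dom .pp r lam w z → xi = -(r * E0.G.om w r) + E0.G.xi1 z r → G.xd (w + z)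
        r ≤ 3 / 2 + r * xi → xi ≤ E0.G.xi3 (w + z) r →
    RowT .near .pp B3 r lam w z xi (G.C1u r lam z) (G.Pd xi r lam (w + z)) :=
  r_t3a_c1_n x1_t3a_c1_n x2_t3a_c1_n

theorem a_t3b_c3_f :
    ∀ r lam w z xi xi' : ℝ, Dom .pp r lam w z → xi = E0.G.xi3 (w + z) r → xi' = xi + r * E0.G.om
        w r → E0.G.xi1 z r ≤ xi' → xi' ≤ E0.G.xiw z r →
    RowT .far .pp B3 r lam w z xi (G.Pw xi' r lam z) (G.C3u r lam (w + z)) :=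
  r_t3b_c3_f x1_t3b_c3_f x2_t3b_c3_f

theorem a_t3b_c3_n :
    ∀ r lam w z xi xi' : ℝ, Dom .pp r lam w z → xi = E0.G.xi3 (w + z) r → xi' = xi + r * E0.G.om
        w r → E0.G.xi1 z r ≤ xi' → xi' ≤ E0.G.xiw z r →
    RowT .near .pp B3 r lam w z xi (G.Pw xi' r lam z) (G.C3u r lam (w + z)) :=
  r_t3b_c3_n x1_t3b_c3_n x2_t3b_c3_n

theorem a_u1_p_f :
    ∀ r lam w z xi : ℝ, Dom .pnp r lam w z → xi = E0.G.xi1 (w + z) r + E0.G.xi1 z r → -(r *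
        E0.G.om w r) ≤ xi → xi ≤ E0.G.xi1 (-w) r →
    RowU .far .pnp r lam w z xi (G.H1 xi r lam w) (-G.C1d r lam z) (G.C1u r lam (w + z)) :=
  r_u1_p_f (lb_u1w_p_f lbc_f) x1_u1_p_f x2_u1_p_f

theorem a_u1_p_n :
    ∀ r lam w z xi : ℝ, Dom .pnp r lam w z → xi = E0.G.xi1 (w + z) r + E0.G.xi1 z r → -(r *
        E0.G.om w r) ≤ xi → xi ≤ E0.G.xi1 (-w) r →
    RowU .near .pnp r lam w z xi (G.H1 xi r lam w) (-G.C1d r lam z) (G.C1u r lam (w + z)) :=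
  r_u1_p_n (lb_u1w_p_n lbc_n) x1_u1_p_n x2_u1_p_n

theorem a_uq_n_f :
    ∀ r lam w z xi : ℝ, Dom .pnn r lam w z → xi = E0.G.xi1 (w + z) r + E0.G.xi1 z r → E0.G.xi1
        (-w) r ≤ xi → xi ≤ G.xiq r lam w →
    RowU .far .pnn r lam w z xi (G.H2 xi r lam w) (-G.C1d r lam z) (G.C1d r lam (w + z)) :=
  r_uq_n_f (lb_uq_n_f lbc_f) x1_uq_n_f x2_uq_n_f

theorem a_uq_n_n :
    ∀ r lam w z xi : ℝ, Dom .pnn r lam w z → xi = E0.G.xi1 (w + z) r + E0.G.xi1 z r → E0.G.xi1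
        (-w) r ≤ xi → xi ≤ G.xiq r lam w →
    RowU .near .pnn r lam w z xi (G.H2 xi r lam w) (-G.C1d r lam z) (G.C1d r lam (w + z)) :=
  r_uq_n_n (lb_uq_n_n lbc_n) x1_uq_n_n x2_uq_n_n

theorem a_u5_n_f :
    ∀ r lam w z xi : ℝ, Dom .pnn r lam w z → xi = E0.G.xi1 (w + z) r + E0.G.xi1 z r → G.xiq r lam
        w ≤ xi → r * (xi - E0.G.xi1 (-w) r) ≤ 3 / 20 * G.dQ r w →
    RowU .far .pnn r lam w z xi (G.H3 xi r lam w) (-G.C1d r lam z) (G.C1d r lam (w + z)) :=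
  r_u5_n_f x1_u5_n_f x2_u5_n_f

theorem a_u5_n_n :
    ∀ r lam w z xi : ℝ, Dom .pnn r lam w z → xi = E0.G.xi1 (w + z) r + E0.G.xi1 z r → G.xiq r lam
        w ≤ xi → r * (xi - E0.G.xi1 (-w) r) ≤ 3 / 20 * G.dQ r w →
    RowU .near .pnn r lam w z xi (G.H3 xi r lam w) (-G.C1d r lam z) (G.C1d r lam (w + z)) :=
  r_u5_n_n x1_u5_n_n x2_u5_n_n

end Pool.Agent.Strip051.LC.E1.Ch
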