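import Pool.Agent.Strip051.LC.E0.BaseP
import Pool.Agent.Strip051.LC.E1.Fn

/-! # Rests near the full period: the rotated lattice triangles -/

namespace Pool.Agent.Strip051.LC.E1.BaseR

open Pool.Agent.Strip051.LC.E0.G (om cc1 xi1 sg1 cc3 xi3 sg3 xiw dwl dwu qw)
open Pool.Agent.Strip051.LC.E0.BaseP (xi1_of xi3_of)
open G

section

variable {r w : ℝ} (hr : 0 < r) (hw : 0 ≤ w) (hrw : r * w ≤ 1 / 16)

section

include hr hw hrw

theorem qw_sq : qw w r ^ 2 = 1 - 3 / 4 * r ^ 2 * w ^ 2 := by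
  have h1 : 0 ≤ r * w := mul_nonneg hr.le hw
  exact Real.sq_sqrt (by nlinarith)

theorem qw_ge : 97 / 100 ≤ qw w r := by
  have h1 : 0 ≤ r * w := mul_nonneg hr.le hw
  exact Real.le_sqrt_of_sq_le (by nlinarith)

theorem om_mul : om w r * (1 + qw w r) = 3 / 4 * w ^ 2 := by
  have := qw_ge hr hw hrw
  unfold om
  rw [div_mul_cancel₀ _ (by linarith)]

theorem rrom : r ^ 2 * om w r = 1 - qw w r := by
  have h1 := qw_sq hr hw hrw
  have h2 := qw_ge hr hw hrw
  have h3 := om_mul hr hw hrw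
  have h4 : (r ^ 2 * om w r - (1 - qw w r)) * (1 + qw w r) = 0 := by
    linear_combination r ^ 2 * h3 + h1
  rcases mul_eq_zero.1 h4 with h5 | h5
  · linarith
  · linarith

theorem om_nn : 0 ≤ om w r := by
  have := qw_ge hr hw hrw
  unfold om
  positivity

/-! ### The unit circle above -/

theorem E1_h : 1 + r * (w / 2 - r * om w r) = qw w r + r * w / 2 := by
  linear_combination -rrom hr hw hrw

theorem E1_cc1 : cc1 (w / 2 - r * om w r) r = qw w r / 2 - 3 / 4 * r * w := by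
  have h1 := qw_sq hr hw hrw
  have h2 := qw_ge hr hw hrw
  unfold cc1
  rw [E1_h hr hw hrw]
  refine (Real.sqrt_eq_iff_mul_self_eq (by nlinarith) (by linarith)).2 ?_
  linear_combination -h1

theorem E1_le : 3 / 4 * (1 + r * (w / 2 - r * om w r)) ^ 2 ≤ 1 := by
  have h1 := qw_sq hr hw hrw
  rw [E1_h hr hw hrw]
  nlinarith [sq_nonneg (qw w r / 2 - 3 / 4 * r * w)]

theorem E1_xi1 : xi1 (w / 2 - r * om w r) r = -(3 / 4 * w) - r * om w r / 2 :=
  xi1_of hr (E1_le hr hw hrw) (E1_cc1 hr hw hrw)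
    (by linear_combination (-1 / 2) * rrom hr hw hrw)

theorem E1_sg1 : sg1 (w / 2 - r * om w r) r = w := by
  unfold sg1
  rw [E1_xi1 hr hw hrw]
  ring

theorem E1_g1 : g1 (w / 2 - r * om w r) r = 3 / 4 * w / (1 + qw w r) := by
  have e : cc1 (w / 2 - r * om w r) r / 2 + 3 / 4 * (1 + r * (w / 2 - r * om w r)) = qw w r := by
    rw [E1_cc1 hr hw hrw, E1_h hr hw hrw]
    ring
  unfold g1
  rw [e, E1_sg1 hr hw hrw]

/-! ### The unit circle below -/

theorem E2_h : 1 + r * (-(w / 2) - r * om w r) = qw w r - r * w / 2 := by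
  linear_combination -rrom hr hw hrw

theorem E2_cc1 : cc1 (-(w / 2) - r * om w r) r = qw w r / 2 + 3 / 4 * r * w := by
  have h1 := qw_sq hr hw hrw
  have h2 := qw_ge hr hw hrw
  have h3 : 0 ≤ r * w := mul_nonneg hr.le hw
  unfold cc1
  rw [E2_h hr hw hrw]
  refine (Real.sqrt_eq_iff_mul_self_eq (by nlinarith [sq_nonneg (qw w r / 2 + 3 / 4 * r * w)])
    (by linarith)).2 ?_
  linear_combination -h1

theorem E2_le : 3 / 4 * (1 + r * (-(w / 2) - r * om w r)) ^ 2 ≤ 1 := by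
  have h1 := qw_sq hr hw hrw
  rw [E2_h hr hw hrw]
  nlinarith [sq_nonneg (qw w r / 2 + 3 / 4 * r * w)]

theorem E2_xi1 : xi1 (-(w / 2) - r * om w r) r = 3 / 4 * w - r * om w r / 2 :=
  xi1_of hr (E2_le hr hw hrw) (E2_cc1 hr hw hrw)
    (by linear_combination (-1 / 2) * rrom hr hw hrw)

theorem E2_sg1 : sg1 (-(w / 2) - r * om w r) r = -w := by
  unfold sg1
  rw [E2_xi1 hr hw hrw]
  ring

theorem E2_g1 : g1 (-(w / 2) - r * om w r) r = -(3 / 4 * w / (1 + qw w r)) := by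
  have e : cc1 (-(w / 2) - r * om w r) r / 2 + 3 / 4 * (1 + r * (-(w / 2) - r * om w r)) =
      qw w r := by
    rw [E2_cc1 hr hw hrw, E2_h hr hw hrw]
    ring
  unfold g1
  rw [e, E2_sg1 hr hw hrw]
  ring

/-! ### The circle of radius `√3` below -/

theorem E3_h : 1 + r * (-(3 / 2 * w) - r * om w r) = qw w r - 3 / 2 * r * w := by
  linear_combination -rrom hr hw hrw

theorem E3_cc3 : cc3 (-(3 / 2 * w) - r * om w r) r = 3 / 2 * qw w r + 3 / 4 * r * w := by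
  have h1 := qw_sq hr hw hrw
  have h2 := qw_ge hr hw hrw
  have h3 : 0 ≤ r * w := mul_nonneg hr.le hw
  unfold cc3
  rw [E3_h hr hw hrw]
  refine (Real.sqrt_eq_iff_mul_self_eq (by nlinarith [sq_nonneg (3 / 2 * qw w r + 3 / 4 * r * w)])
    (by linarith)).2 ?_
  linear_combination -3 * h1

theorem E3_le : 3 / 4 * (1 + r * (-(3 / 2 * w) - r * om w r)) ^ 2 ≤ 3 := by
  have h1 := qw_sq hr hw hrw
  rw [E3_h hr hw hrw]
  nlinarith [sq_nonneg (3 / 2 * qw w r + 3 / 4 * r * w)]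

theorem E3_xi3 : xi3 (-(3 / 2 * w) - r * om w r) r = 3 / 4 * w - 3 / 2 * r * om w r :=
  xi3_of hr (E3_le hr hw hrw) (E3_cc3 hr hw hrw)
    (by linear_combination (-3 / 2) * rrom hr hw hrw)

theorem E3_sg3 : sg3 (-(3 / 2 * w) - r * om w r) r = -w := by
  unfold sg3
  rw [E3_xi3 hr hw hrw]
  ring

theorem E3_g3 : g3 (-(3 / 2 * w) - r * om w r) r = -(3 / 4 * w / (1 + qw w r)) := by
  have e : cc3 (-(3 / 2 * w) - r * om w r) r / 2 + 1 / 4 * (1 + r * (-(3 / 2 * w) - r * om w r)) =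
      qw w r := by
    rw [E3_cc3 hr hw hrw, E3_h hr hw hrw]
    ring
  unfold g3
  rw [e, E3_sg3 hr hw hrw]
  ring

/-! ### The circle of radius `√3` above -/

theorem E4_h : 1 + r * (3 / 2 * w - r * om w r) = qw w r + 3 / 2 * r * w := by
  linear_combination -rrom hr hw hrw

theorem E4_cc3 : cc3 (3 / 2 * w - r * om w r) r = 3 / 2 * qw w r - 3 / 4 * r * w := by
  have h1 := qw_sq hr hw hrw
  have h2 := qw_ge hr hw hrw
  unfold cc3
  rw [E4_h hr hw hrw]
  refine (Real.sqrt_eq_iff_mul_self_eq (by nlinarith) (by linarith)).2 ?_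
  linear_combination -3 * h1

theorem E4_le : 3 / 4 * (1 + r * (3 / 2 * w - r * om w r)) ^ 2 ≤ 3 := by
  have h1 := qw_sq hr hw hrw
  rw [E4_h hr hw hrw]
  nlinarith [sq_nonneg (3 / 2 * qw w r - 3 / 4 * r * w)]

theorem E4_xi3 : xi3 (3 / 2 * w - r * om w r) r = -(3 / 4 * w) - 3 / 2 * r * om w r :=
  xi3_of hr (E4_le hr hw hrw) (E4_cc3 hr hw hrw)
    (by linear_combination (-3 / 2) * rrom hr hw hrw)

theorem E4_sg3 : sg3 (3 / 2 * w - r * om w r) r = w := by
  unfold sg3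
  rw [E4_xi3 hr hw hrw]
  ring

theorem E4_g3 : g3 (3 / 2 * w - r * om w r) r = 3 / 4 * w / (1 + qw w r) := by
  have e : cc3 (3 / 2 * w - r * om w r) r / 2 + 1 / 4 * (1 + r * (3 / 2 * w - r * om w r)) =
      qw w r := by
    rw [E4_cc3 hr hw hrw, E4_h hr hw hrw]
    ring
  unfold g3
  rw [e, E4_sg3 hr hw hrw]

end

end

end Pool.Agent.Strip051.LC.E1.BaseR
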