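import Pool.Agent.Strip051.LC.E1.Ch.Slp
import Pool.Agent.Strip051.LC.E1.Ch.BaseR

/-! # Rests near the full period: the base points of the slopes -/

set_option linter.unusedVariables false

namespace Pool.Agent.Strip051.LC.E1.Ch

open Pool.Agent.Strip051.PB
open Pool.Agent.Strip051.LC.E0.G (om cc1 xi1 sg1 cc3 xi3 sg3 xiw dwl dwu qw)

section

variable {R : RowF} {w z m r nb et : ℝ}

theorem sb_core (r0 : 0 < r) (m0 : 0 < m) (x1 : m * r ≤ 1 / 40) (hU : R.U w z m r = 0)
    (hD : R.DL w z m r = 0)
    (hN : R.NF w z m r = r * nb) (hG : R.GM w z m r = -nb)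
    (hb : R.NU w z m r / r + R.BS w z m r = -nb + et) (he : 0 ≤ et)
    (hL : R.L w z ≠ 0 ∨ nb = 0) (v1 : 0 ≤ R.V1A w z m r / r + R.V1B w z m r)
    (v2 : 0 ≤ R.V2A w z m r / r + R.V2B w z m r) : SBase R w z m r nb := by
  have x0 : 0 < m * r := mul_pos m0 r0
  have hq := one_sub_eh' x0.le (by linarith : m * r ≤ 1)
  have hk := one_add_et' (by linarith : m * r < 1) hq
  have hds : R.DS w z m r = 0 := by
    unfold RowF.DS
    rw [hD, dsf_val, zero_mul]
  refine ⟨hU, hD, ?_, hN, ?_, ?_, ?_, v1, v2⟩
  · unfold RowF.GP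
    rw [gpf_val, hN, hG]
    ring
  · have : R.NU w z m r / r + R.BN w z m r = et := by
      unfold RowF.BN
      rw [bnf_val, hN, hG]
      linear_combination hb + nb * (-hq)
    rw [this]
    exact he
  · have : (R.NU w z m r + R.NF w z m r) / r + R.BS w z m r = et := by
      rw [add_div, hN, mul_div_cancel_left₀ _ r0.ne']
      linear_combination hb
    rw [this]
    exact he
  · have : R.NU w z m r / r + nb * m2f.v m (R.L w z) + R.BR w z m r = et := by
      unfold RowF.BR
      rw [brf_val, m2f_val, hds, hN, hG, ← hk]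
      rcases hL with hl | hl
      · have h1 : R.NU w z m r / r = -nb + et - R.BS w z m r := by linarith
        rw [h1]
        field_simp
        ring
      · rw [hl] at hb ⊢
        linear_combination hb
    rw [this]
    exact he

end

end Pool.Agent.Strip051.LC.E1.Ch
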