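import Pool.Agent.Strip051.LC.E1.Ch.Val5
import Pool.Agent.Strip051.LC.E1.Ch.Sb

/-! # Rests near the full period: the values at the base points -/

set_option linter.unusedVariables false
set_option linter.unusedSimpArgs false

namespace Pool.Agent.Strip051.LC.E1.Ch

open Pool.Agent.Strip051.PB
open Pool.Agent.Strip051.LC.E1.G (hg)
open Pool.Agent.Strip051.LC.E1.BaseR

/-! ### At the lattice point -/

section

variable {r m : ℝ} (hr : 0 < r) (hm : 0 < m) (x1 : m * r ≤ 1 / 40)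

theorem hc_0 {r m : ℝ} (hr : 0 < r) (hm : 0 < m) : Hc r m 0 :=
  ⟨hr, by simp, fun _ => by simp, fun _ => by
    rw [mul_zero, abs_zero]
    have := mul_pos hm hr
    linarith⟩

theorem sg1_0 (r : ℝ) : E0.G.sg1 0 r = 0 := by rw [sg1_D]; ring

theorem sg3_0 (r : ℝ) : E0.G.sg3 0 r = 0 := by rw [sg3_D]; ring

theorem tl_0 {b b' m : ℝ} (hm : 0 < m) : G.tl b b' m 0 = 0 := by
  rw [tl_s hm (by positivity)]; ring

include hr hm x1

theorem kU_0 : G.kU r m 0 = 0 := by rw [kU_s hr hm x1 hm.le]; ring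

theorem bU_0 : G.bU r m 0 = 0 := by rw [bU_s hr hm x1 hm.le]; ring

theorem ku_0 : ku.v 0 m r (m * r) = 0 := by
  rw [S1_k (hc_0 hr hm)]; unfold G.S1; exact kU_0 hr hm x1

theorem kv_0 : kv.v 0 m r (m * r) = 0 := by
  rw [S1_b (hc_0 hr hm)]; unfold G.S1; exact bU_0 hr hm x1

theorem ab_0 : G.aL (m * r) r m 0 = 0 ∧ G.bL (m * r) r m 0 = 0 := by
  have h := ab_s (t := 0) hr hm x1 (by positivity)
  exact ⟨h.2.2.2, by linarith [h.2.1, h.2.2.2]⟩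

theorem lva_0 : lva.v 0 m r (m * r) = 0 := by
  rw [S1_c (hc_0 hr hm)]; unfold G.S1; simp only [(ab_0 hr hm x1).1, mul_zero]

theorem k1p_0 : k1p.v 0 m r (m * r) = 0 := by
  rw [k1p_val (hc_0 hr hm)]
  unfold G.C1u G.g1
  simp only [sg1_0, kU_0 hr hm x1]
  ring

theorem k1m_0 : k1m.v 0 m r (m * r) = 0 := by
  rw [k1m_val (hc_0 hr hm)]
  unfold G.C1d G.g1
  simp only [sg1_0, neg_zero, kU_0 hr hm x1]
  ring

theorem k3p_0 : k3p.v 0 m r (m * r) = 0 := by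
  rw [k3p_val (hc_0 hr hm)]
  unfold G.C3u G.g3
  simp only [sg3_0, kU_0 hr hm x1]
  ring

theorem k3m_0 : k3m.v 0 m r (m * r) = 0 := by
  rw [k3m_val (hc_0 hr hm)]
  unfold G.C3d G.g3
  simp only [sg3_0, neg_zero, kU_0 hr hm x1]
  ring

theorem b1p_0 : b1p.v 0 m r (m * r) = 0 := by
  rw [b1p_val (hc_0 hr hm)]
  unfold G.C1u G.g1
  simp only [sg1_0, bU_0 hr hm x1]
  ring

theorem b1m_0 : b1m.v 0 m r (m * r) = 0 := by
  rw [b1m_val (hc_0 hr hm)]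
  unfold G.C1d G.g1
  simp only [sg1_0, neg_zero, bU_0 hr hm x1]
  ring

theorem b3p_0 : b3p.v 0 m r (m * r) = 0 := by
  rw [b3p_val (hc_0 hr hm)]
  unfold G.C3u G.g3
  simp only [sg3_0, bU_0 hr hm x1]
  ring

theorem b3m_0 : b3m.v 0 m r (m * r) = 0 := by
  rw [b3m_val (hc_0 hr hm)]
  unfold G.C3d G.g3
  simp only [sg3_0, neg_zero, bU_0 hr hm x1]
  ring

theorem l1p_0 : l1p.v 0 m r (m * r) = 0 := by
  rw [l1p_val (hc_0 hr hm)]
  unfold G.C1u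
  simp only [sg1_0, (ab_0 hr hm x1).1, (ab_0 hr hm x1).2]
  ring

theorem l1m_0 : l1m.v 0 m r (m * r) = 0 := by
  rw [l1m_val (hc_0 hr hm)]
  unfold G.C1d
  simp only [sg1_0, neg_zero, (ab_0 hr hm x1).2]
  ring

theorem l3p_0 : l3p.v 0 m r (m * r) = 0 := by
  rw [l3p_val (hc_0 hr hm)]
  unfold G.C3u
  simp only [sg3_0, (ab_0 hr hm x1).1, (ab_0 hr hm x1).2]
  ring

theorem l3m_0 : l3m.v 0 m r (m * r) = 0 := by
  rw [l3m_val (hc_0 hr hm)]
  unfold G.C3d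
  simp only [sg3_0, neg_zero, (ab_0 hr hm x1).1, (ab_0 hr hm x1).2]
  ring

omit hr x1

theorem kwu_0 : kwu.v 0 m r (m * r) = 0 := by
  rw [kwu_val]; unfold G.W2 G.wK2; simp only [xiw_0, tl_0 hm]; ring

theorem bwu_0 : bwu.v 0 m r (m * r) = 0 := by
  rw [bwu_val]; unfold G.W2 G.wB2; simp only [xiw_0, tl_0 hm]; ring

theorem xwu_0 : xwu.v 0 m r (m * r) = 0 := by
  rw [xwu_val]; unfold G.W2; simp only [hg_le (by linarith : 0 - 5 / 2 * m ≤ 0), mul_zero]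

theorem kwl_0 : kwl.v 0 m r (m * r) = 0 := by
  rw [kwl_val]; unfold G.W1 G.wK1; simp only [neg_zero, xiw_0, tl_0 hm]; ring

theorem bwl_0 : bwl.v 0 m r (m * r) = 0 := by
  rw [bwl_val]; unfold G.W1 G.wB1; simp only [neg_zero, xiw_0, tl_0 hm]; ring

theorem xwl_0 : xwl.v 0 m r (m * r) = 0 := by
  rw [xwl_val]; unfold G.W1; simp only [neg_zero, hg_le (by linarith : 0 - 5 / 2 * m ≤ 0), mul_zero]

theorem kw0_0 : kw0.v 0 m r (m * r) = 0 := by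
  rw [kw0_val]; unfold G.W0 G.wK0; simp only [neg_zero, xi1_0, tl_0 hm]; ring

theorem bw0_0 : bw0.v 0 m r (m * r) = 0 := by
  rw [bw0_val]; unfold G.W0 G.wB0; simp only [neg_zero, xi1_0, tl_0 hm]; ring

theorem xw0_0 : xw0.v 0 m r (m * r) = 0 := by
  rw [xw0_val]; unfold G.W0; simp only [hg_le (by linarith : 0 - 5 / 2 * m ≤ 0), mul_zero]

end

theorem nkf_0 (x : ℝ) : nkf.v x 0 0 = 0 := by rw [nkf_val]; ring

/-! ### At the rotated lattice triangles -/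

section

variable {r w m : ℝ} (hr : 0 < r) (hw : 0 ≤ w) (hrw : r * w ≤ 1 / 16)

include hr hw hrw

theorem e1_k : k1p.v (w / 2 - r * E0.G.om w r) m r (m * r) = ku.v w m r (m * r) / 2 -
    3 / 4 * (w * (1 + E0.G.qw w r)⁻¹) * (1 + r * ku.v w m r (m * r)) := by
  simp only [k1p, k1p_5, sg1_val, ic1_val, E1_sg1 hr hw hrw]
  rw [show E0.G.cc1 (w / 2 - r * E0.G.om w r) r / 2 + 3 / 4 * (1 + r * (w / 2 - r * E0.G.om w r)) =
    E0.G.qw w r by rw [E1_cc1 hr hw hrw, E1_h hr hw hrw]; ring]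
  push_cast
  try ring

theorem e1_b : b1p.v (w / 2 - r * E0.G.om w r) m r (m * r) = kv.v w m r (m * r) / 2 -
    3 / 4 * (w * (1 + E0.G.qw w r)⁻¹) * (G.B0 (m * r) + r * kv.v w m r (m * r)) := by
  simp only [b1p, b1p_5, sg1_val, ic1_val, E1_sg1 hr hw hrw, b0f_val]
  rw [show E0.G.cc1 (w / 2 - r * E0.G.om w r) r / 2 + 3 / 4 * (1 + r * (w / 2 - r * E0.G.om w r)) =
    E0.G.qw w r by rw [E1_cc1 hr hw hrw, E1_h hr hw hrw]; ring]
  push_cast
  try ring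

theorem e1_l : l1p.v (w / 2 - r * E0.G.om w r) m r (m * r) = lvp.v w m r (m * r) := by
  simp only [l1p, sg1_val, E1_sg1 hr hw hrw]

theorem e2_k : k1m.v (-(w / 2) - r * E0.G.om w r) m r (m * r) = ku.v w m r (m * r) / 2 +
    3 / 4 * (w * (1 + E0.G.qw w r)⁻¹) * (1 + r * ku.v w m r (m * r)) := by
  simp only [k1m, k1m_6, sg1_val, ic1_val, E2_sg1 hr hw hrw, neg_neg]
  rw [show E0.G.cc1 (-(w / 2) - r * E0.G.om w r) r / 2 +
    3 / 4 * (1 + r * (-(w / 2) - r * E0.G.om w r)) =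
    E0.G.qw w r by rw [E2_cc1 hr hw hrw, E2_h hr hw hrw]; ring]
  push_cast
  try ring

theorem e2_b : b1m.v (-(w / 2) - r * E0.G.om w r) m r (m * r) = kv.v w m r (m * r) / 2 +
    3 / 4 * (w * (1 + E0.G.qw w r)⁻¹) * (G.B0 (m * r) + r * kv.v w m r (m * r)) := by
  simp only [b1m, b1m_6, sg1_val, ic1_val, E2_sg1 hr hw hrw, neg_neg, b0f_val]
  rw [show E0.G.cc1 (-(w / 2) - r * E0.G.om w r) r / 2 +
    3 / 4 * (1 + r * (-(w / 2) - r * E0.G.om w r)) =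
    E0.G.qw w r by rw [E2_cc1 hr hw hrw, E2_h hr hw hrw]; ring]
  push_cast
  try ring

theorem e2_l : l1m.v (-(w / 2) - r * E0.G.om w r) m r (m * r) = lvm.v w m r (m * r) := by
  simp only [l1m, sg1_val, E2_sg1 hr hw hrw, neg_neg]

theorem e3_k : k3m.v (-(3 / 2 * w) - r * E0.G.om w r) m r (m * r) =
    3 / 2 * ku.v w m r (m * r) +
    3 / 4 * (w * (1 + E0.G.qw w r)⁻¹) * (1 + r * ku.v w m r (m * r)) := by
  simp only [k3m, k3m_6, sg3_val, ic3_val, E3_sg3 hr hw hrw, neg_neg]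
  rw [show E0.G.cc3 (-(3 / 2 * w) - r * E0.G.om w r) r / 2 +
    1 / 4 * (1 + r * (-(3 / 2 * w) - r * E0.G.om w r)) =
    E0.G.qw w r by rw [E3_cc3 hr hw hrw, E3_h hr hw hrw]; ring]
  push_cast
  try ring

theorem e3_b : b3m.v (-(3 / 2 * w) - r * E0.G.om w r) m r (m * r) =
    3 / 2 * kv.v w m r (m * r) +
    3 / 4 * (w * (1 + E0.G.qw w r)⁻¹) * (G.B0 (m * r) + r * kv.v w m r (m * r)) := by
  simp only [b3m, b3m_6, sg3_val, ic3_val, E3_sg3 hr hw hrw, neg_neg, b0f_val]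
  rw [show E0.G.cc3 (-(3 / 2 * w) - r * E0.G.om w r) r / 2 +
    1 / 4 * (1 + r * (-(3 / 2 * w) - r * E0.G.om w r)) =
    E0.G.qw w r by rw [E3_cc3 hr hw hrw, E3_h hr hw hrw]; ring]
  push_cast
  try ring

theorem e3_l : l3m.v (-(3 / 2 * w) - r * E0.G.om w r) m r (m * r) = lvn.v w m r (m * r) := by
  simp only [l3m, sg3_val, E3_sg3 hr hw hrw, neg_neg]

theorem e4_k : k3p.v (3 / 2 * w - r * E0.G.om w r) m r (m * r) = 3 / 2 * ku.v w m r (m * r) -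
    3 / 4 * (w * (1 + E0.G.qw w r)⁻¹) * (1 + r * ku.v w m r (m * r)) := by
  simp only [k3p, k3p_5, sg3_val, ic3_val, E4_sg3 hr hw hrw]
  rw [show E0.G.cc3 (3 / 2 * w - r * E0.G.om w r) r / 2 +
    1 / 4 * (1 + r * (3 / 2 * w - r * E0.G.om w r)) =
    E0.G.qw w r by rw [E4_cc3 hr hw hrw, E4_h hr hw hrw]; ring]
  push_cast
  try ring

theorem e4_b : b3p.v (3 / 2 * w - r * E0.G.om w r) m r (m * r) = 3 / 2 * kv.v w m r (m * r) -
    3 / 4 * (w * (1 + E0.G.qw w r)⁻¹) * (G.B0 (m * r) + r * kv.v w m r (m * r)) := by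
  simp only [b3p, b3p_5, sg3_val, ic3_val, E4_sg3 hr hw hrw, b0f_val]
  rw [show E0.G.cc3 (3 / 2 * w - r * E0.G.om w r) r / 2 +
    1 / 4 * (1 + r * (3 / 2 * w - r * E0.G.om w r)) =
    E0.G.qw w r by rw [E4_cc3 hr hw hrw, E4_h hr hw hrw]; ring]
  push_cast
  try ring

theorem e4_l : l3p.v (3 / 2 * w - r * E0.G.om w r) m r (m * r) = lvq.v w m r (m * r) := by
  simp only [l3p, sg3_val, E4_sg3 hr hw hrw]

theorem om_I : 3 / 4 * (w * (1 + E0.G.qw w r)⁻¹) * w = E0.G.om w r := by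
  unfold E0.G.om
  rw [div_eq_mul_inv _ (1 + E0.G.qw w r)]
  ring

/-- `3 / 8 w ^ 2 + r ^ 2 om ^ 2 / 2 = om`. -/
theorem om_w : 3 / 8 * w ^ 2 + r ^ 2 * E0.G.om w r ^ 2 / 2 = E0.G.om w r := by
  linear_combination (E0.G.om w r / 2) * rrom hr hw hrw - (1 / 2) * om_mul hr hw hrw

end

theorem kw1_val (w r : ℝ) : kw1.v w r = w / 2 + r * E0.G.om w r := by
  simp only [kw1, om_val]

theorem kw2_val (w r : ℝ) : kw2.v w r = 3 / 2 * w + r * E0.G.om w r := by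
  simp only [kw2, om_val]
  push_cast
  try ring

theorem kw3_val (w r : ℝ) : kw3.v w r = r * E0.G.om w r - w / 2 := by
  simp only [kw3, om_val]

theorem nbf_val (w r x : ℝ) : nbf.v w r x = E0.G.om w r := by
  simp only [nbf, om_val]

theorem nbn_val (w r x : ℝ) : nbn.v w r x = G.be x * E0.G.om w r := by
  simp only [nbn, om_val, bef_val]

end Pool.Agent.Strip051.LC.E1.Ch
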