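import Pool.Agent.Strip051.LC.E1.Ch.Res

/-! # Rests near the full period: direct leaves and exits -/

set_option linter.unusedVariables false

namespace Pool.Agent.Strip051.LC.E1.Ch

open Pool.Agent.Strip051.PB

attribute [local irreducible] padd psub pneg pmul psq pinv psqrt psqrtg pabs pps pmax pmin pphi plam
  pcase phf pnat prat pscale pnorm pdc pnc pone ppos pnn Enc

/-- Rows without terms of first order. -/
structure Um (R : RowF) (w z m r : ℝ) : Prop where
  nu : R.NU w z m r = 0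
  v1 : R.V1A w z m r = 0
  v2 : R.V2A w z m r = 0

/-- the number `1 / r` for `c = 0` -/
noncomputable def invc (c Q : ℕ) : ℕ :=
  Bool.rec (motive := fun _ => ℕ) pzero (pinv Q) (Nat.beq c 0)

/-- the test of `c` -/
noncomputable def ckc (c Q : ℕ) (f : ℕ → Bool) : Bool :=
  band (pnn (psub pone (pnat c Q))) (frc (invc c Q) f)

theorem ckc_sound {E : Pt} {c Q : ℕ} {r : ℝ} {f : ℕ → Bool} (hr : Enc E Q r) (r0 : 0 < r)
    (h : ckc c Q f = true) : ∃ I, Rc E c I r ∧ f I = true := by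
  unfold ckc at h
  rw [frc_eq] at h
  obtain ⟨h1, h2⟩ := band_true h
  refine ⟨_, ⟨r0, ?_, ?_⟩, h2⟩
  · have := pnn_sound (enc_sub (enc_one E) (enc_nat c hr)) h1
    linarith
  · intro e
    unfold invc
    rw [e]
    exact enc_inv hr

/-- the test of the levels inside the gap; `u`: without terms of first order -/
noncomputable def lvs (u : Bool) (c I V1A V1B V2A V2B NU F0 : ℕ) : Bool :=
  Bool.rec (motive := fun _ => Bool) (lv2 c I NU F0 V1A V1B V2A V2B) (lv0 F0 V1B V2B) u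

/-- the test of the levels for a negative second moment -/
noncomputable def lgs (u : Bool) (c I V1A V1B V2A V2B NN F0 : ℕ) : Bool :=
  lv2 c I NN F0 V1A V1B V2A V2B

/-- the test of the levels beyond the gap -/
noncomputable def los (u : Bool) (c I V1A V1B V2A V2B NF F1 F0 : ℕ) : Bool :=
  Bool.rec (motive := fun _ => Bool) (lv2 c I F1 F0 V1A V1B V2A V2B)
    (band (pnn NF) (lv1 c I F1 F0 V1B V2B)) u

section

variable {E : Pt} {u : Bool} {c I V1A V1B V2A V2B NU NF F1 F0 : ℕ}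
  {r v1a v1b v2a v2b nu nf f1 f0 l : ℝ}

theorem lvs_sound (hr : Rc E c I r) (ha : Enc E V1A v1a) (hb : Enc E V1B v1b) (hc : Enc E V2A v2a)
    (hd : Enc E V2B v2b) (hu : Enc E NU nu) (um : u = true → nu = 0 ∧ v1a = 0 ∧ v2a = 0)
    (h0 : Enc E F0 f0) (h : lvs u c I V1A V1B V2A V2B NU F0 = true) :
    P2 (v1a / r + v1b) (v2a / r + v2b) (nu / r + f0) := by
  rcases u with _ | _
  · exact lv2_sound hr hu h0 ha hb hc hd h
  · obtain ⟨e1, e2, e3⟩ := um rfl
    rw [e1, e2, e3]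
    simp only [zero_div, zero_add]
    exact lv0_sound h0 hb hd h

theorem lgs_sound (hr : Rc E c I r) (ha : Enc E V1A v1a) (hb : Enc E V1B v1b) (hc : Enc E V2A v2a)
    (hd : Enc E V2B v2b) (hu : Enc E NU nu)
    (h0 : Enc E F0 f0) (h : lgs u c I V1A V1B V2A V2B NU F0 = true) :
    P2 (v1a / r + v1b) (v2a / r + v2b) (nu / r + f0) :=
  lv2_sound hr hu h0 ha hb hc hd h

theorem los_sound (hr : Rc E c I r) (ha : Enc E V1A v1a) (hb : Enc E V1B v1b) (hc : Enc E V2A v2a)
    (hd : Enc E V2B v2b) (hn : Enc E NF nf) (h1 : Enc E F1 f1)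
    (um : u = true → (0 ≤ nf → 0 ≤ f1) ∧ v1a = 0 ∧ v2a = 0)
    (h0 : Enc E F0 f0) (h : los u c I V1A V1B V2A V2B NF F1 F0 = true) :
    P2 (v1a / r + v1b) (v2a / r + v2b) (f1 / r + f0) := by
  rcases u with _ | _
  · exact lv2_sound hr h1 h0 ha hb hc hd h
  · obtain ⟨e1, e2, e3⟩ := um rfl
    rw [e2, e3]
    simp only [zero_div, zero_add]
    obtain ⟨t1, t2⟩ := band_true h
    exact lv1_sound hr h1 (e1 (pnn_sound hn t1)) h0 hb hd t2

end

/-- direct test -/
noncomputable def dirT (R : RowF) (u : Bool) (c k s W Z M Q : ℕ) : Bool :=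
  ckc c Q fun I =>
  dval R W Z M Q fun U NU NF BS L A B GM DS GP V1A V1B V2A V2B BN =>
    frc (pnorm (pmul M Q)) fun X =>
    tst (lvs u c I V1A V1B V2A V2B NU) (lgs u c I V1A V1B V2A V2B (padd NU NF))
      (los u c I V1A V1B V2A V2B NF (padd NU (pmul NF (m2f.t M L)))
        (psub (brf.t X Q M L (pnorm (psub A B)) NF GM DS BS) (abf.t X M L A B DS GP)))
      k s X Q M L A B BN BS DS GP

theorem dirT_sound {E : Pt} {R : RowF} {u : Bool} {c k s W Z M Q : ℕ} {w z m r lev : ℝ}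
    (hw : Enc E W w) (hz : Enc E Z z) (hm : Enc E M m) (hr : Enc E Q r) (D : Dm R w z m r)
    (um : u = true → Um R w z m r)
    (hlev : R.Lv w z m r lev) (h : dirT R u c k s W Z M Q = true) : R.Sk w z m r lev := by
  obtain ⟨I, hI, h⟩ := ckc_sound hr D.r0 h
  obtain ⟨U, NU, NF, BS, L, A, B, GM, DS, GP, V1A, V1B, V2A, V2B, BN, h, F⟩ :=
    dval_sound hw hz hm hr h
  rw [frc_eq] at h
  have hX : Enc E (pnorm (pmul M Q)) (m * r) := enc_norm (enc_mul hm hr)
  have k1 := enc_add F.nu (enc_mul F.nf (m2f.enc hm F.l))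
  have k0 := enc_sub (brf.enc hX hr hm F.l (enc_norm (enc_sub F.a F.b)) F.nf F.gm F.ds F.bs)
    (abf.enc hX hm F.l F.a F.b F.ds F.gp)
  have r1 := tst_sound hX hr hm F.l F.a F.b F.bn F.bs F.ds F.gp
    (fun h0 hh => lvs_sound hI F.v1a F.v1b F.v2a F.v2b F.nu
      (fun e => ⟨(um e).nu, (um e).v1, (um e).v2⟩) h0 hh)
    (fun h0 hh => lgs_sound hI F.v1a F.v1b F.v2a F.v2b (enc_add F.nu F.nf) h0 hh)
    (los_sound hI F.v1a F.v1b F.v2a F.v2b F.nf k1
      (fun e => ⟨fun hn => by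
        rw [(um e).nu, zero_add]
        refine mul_nonneg hn ?_
        rw [m2f_val]
        positivity, (um e).v1, (um e).v2⟩) k0) h
  refine sk_of_res D rfl rfl le_rfl le_rfl (le_of_eq ?_) hlev r1
  show (R.NU w z m r + R.NF w z m r * m2f.v m (R.L w z)) / r +
    (R.BR w z m r - abf.v (m * r) m (R.L w z) (R.A w z) (R.B w z) (R.DS w z m r)
      (R.GP w z m r)) = _
  unfold RowF.FO
  rw [m2f_val]
  simp only [div_eq_mul_inv]
  ring

/-! ### Exits -/

/-- exit by the side of `u` -/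
noncomputable def exT (R : RowF) (W Z M Q : ℕ) : Bool :=
  frc (R.u.t W Z M Q) fun U => ppos (pneg U)

theorem exT_sound {E : Pt} {R : RowF} {W Z M Q : ℕ} {w z m r : ℝ}
    (hw : Enc E W w) (hz : Enc E Z z) (hm : Enc E M m) (hr : Enc E Q r) (D : Dm R w z m r)
    (h : exT R W Z M Q = true) : False := by
  unfold exT at h
  rw [frc_eq] at h
  have h1 := ppos_sound (enc_neg (R.u.enc hw hz hm hr)) h
  have h2 : 0 ≤ R.u.v w z m r := D.u
  linarith

/-- exit by the other side of the cell -/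
noncomputable def exO (R : RowF) (O : Fn4) (W Z M Q : ℕ) : Bool :=
  ppos (psub (R.u.t W Z M Q) (O.t W Z M Q))

theorem exO_sound {E : Pt} {R : RowF} {O : Fn4} {W Z M Q : ℕ} {w z m r : ℝ}
    (hw : Enc E W w) (hz : Enc E Z z) (hm : Enc E M m) (hr : Enc E Q r)
    (ho : R.U w z m r ≤ O.v w z m r) (h : exO R O W Z M Q = true) : False := by
  have h1 := ppos_sound (enc_sub (R.u.enc hw hz hm hr) (O.enc hw hz hm hr)) h
  have h2 : R.u.v w z m r ≤ O.v w z m r := ho
  linarith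

end Pool.Agent.Strip051.LC.E1.Ch
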