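import Pool.Agent.Strip051.LC.E1.Ch.Pr

/-! # Rests near the full period: the test functions -/

set_option linter.unusedVariables false

namespace Pool.Agent.Strip051.LC.E1.Ch

open Pool.Agent.Strip051.PB

attribute [local irreducible] padd psub pneg pmul psq pinv psqrt psqrtg pabs pps pmax pmin pphi plam
  pcase phf pnat prat pscale pnorm pdc pnc pone ppos pnn Enc

noncomputable def gs : Fn1 := ⟨_, _, fun h1 => (enc_sqrt (enc_sub (enc_add (enc_rat _ 1 4) (enc_scale 3 2 h1)) (enc_scale 3 4 (enc_sq h1))))⟩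
noncomputable def ig : Fn1 := ⟨_, _, fun h1 => (enc_inv (enc_add (gs.enc h1) (enc_rat _ 1 2)))⟩
noncomputable def eh : Fn1 := ⟨_, _, fun h1 => (enc_norm (enc_subr 1 2 (enc_mul (enc_norm (enc_sub (enc_rat _ 3 2) (enc_scale 3 4 h1))) (ig.enc h1))))⟩
noncomputable def qo : Fn1 := ⟨_, _, fun h1 => (enc_norm (enc_scale 3 2 (enc_mul (enc_norm (enc_add (enc_pnc _ 1) (eh.enc h1))) (ig.enc h1))))⟩
noncomputable def ix : Fn1 := ⟨_, _, fun h1 => (enc_inv (enc_sub (enc_pnc _ 1) h1))⟩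
noncomputable def kx : Fn1 := ⟨_, _, fun h1 => (enc_norm (enc_mul (eh.enc h1) (ix.enc h1)))⟩
noncomputable def et : Fn1 := ⟨_, _, fun h1 => (enc_norm (enc_mul (enc_norm (enc_sub (enc_pnc _ 1) (qo.enc h1))) (ix.enc h1)))⟩
noncomputable def dln : Fn3 := ⟨_, _, fun h1 h2 h3 => (enc_norm (enc_sub (enc_sub h3 h1) h2))⟩
noncomputable def shf : Fn2 := ⟨_, _, fun h1 h2 => (enc_norm (enc_sub (enc_pnc _ 1) (enc_mul h1 h2)))⟩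
noncomputable def dsf : Fn2 := ⟨_, _, fun h1 h2 => (enc_norm (enc_mul h1 h2))⟩
noncomputable def gpf : Fn3 := ⟨_, _, fun h1 h2 h3 => (enc_norm (enc_add h2 (enc_mul h1 h3)))⟩
noncomputable def bnf : Fn5 := ⟨_, _, fun h1 h2 h3 h4 h5 => (enc_norm (enc_sub (enc_add (enc_mul h3 (enc_norm (enc_mul h2 (qo.enc h1)))) h4) (enc_mul (eh.enc h1) h5)))⟩
noncomputable def finf_9 : Fn8 := ⟨_, _, fun h1 h2 h3 h4 h5 h6 h7 h8 => (enc_mul h2 h7)⟩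
noncomputable def finf : Fn8 := ⟨_, _, fun h1 h2 h3 h4 h5 h6 h7 h8 => (enc_norm (enc_sub (enc_sub h6 (enc_mul (kx.enc h1) (enc_norm (enc_mul h7 (enc_norm (enc_sub h3 h4)))))) (enc_mul (enc_norm (enc_mul (enc_norm (enc_mul (kx.enc h1) h4)) (enc_norm (enc_mul h5 (enc_norm (enc_mul (enc_norm (finf_9.enc h1 h2 h3 h4 h5 h6 h7 h8)) h7)))))) (enc_inv (enc_add h8 (enc_mul (enc_norm (finf_9.enc h1 h2 h3 h4 h5 h6 h7 h8)) h5))))))⟩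
noncomputable def cinf : Fn4 := ⟨_, _, fun h1 h2 h3 h4 => (enc_norm (enc_sub h4 (enc_mul h1 (enc_norm (enc_mul h3 h2)))))⟩
noncomputable def fcrf : Fn4 := ⟨_, _, fun h1 h2 h3 h4 => (enc_norm (enc_sub h3 (enc_mul (enc_norm (enc_mul h2 (kx.enc h1))) h4)))⟩
noncomputable def fngf : Fn5 := ⟨_, _, fun h1 h2 h3 h4 h5 => (enc_norm (enc_sub h3 (enc_mul (enc_norm (enc_mul h2 (kx.enc h1))) (enc_norm (enc_sub h4 h5)))))⟩
noncomputable def couf : Fn6 := ⟨_, _, fun h1 h2 h3 h4 h5 h6 => (enc_norm (enc_sub (enc_mul (enc_norm (enc_sub h3 h2)) h6) (enc_mul h1 (enc_norm (enc_mul h5 h4)))))⟩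
noncomputable def m2f : Fn2 := ⟨_, _, fun h1 h2 => (enc_sq (enc_norm (enc_sub (enc_pnc _ 1) (enc_mul h1 (enc_inv h2)))))⟩
noncomputable def abf_7 : Fn7 := ⟨_, _, fun h1 h2 h3 h4 h5 h6 h7 => (enc_inv h3)⟩
noncomputable def abf : Fn7 := ⟨_, _, fun h1 h2 h3 h4 h5 h6 h7 => (enc_norm (enc_mul (enc_norm (enc_mul (enc_norm (enc_mul h2 (kx.enc h1))) (enc_norm (enc_mul (enc_norm (enc_mul h4 (abf_7.enc h1 h2 h3 h4 h5 h6 h7))) (enc_norm (enc_mul h5 (abf_7.enc h1 h2 h3 h4 h5 h6 h7))))))) (enc_norm (enc_mul (enc_norm (enc_mul h1 (enc_sq h6))) (enc_inv h7)))))⟩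
noncomputable def brf_9 : Fn9 := ⟨_, _, fun h1 h2 h3 h4 h5 h6 h7 h8 h9 => (enc_inv h4)⟩
noncomputable def brf_10 : Fn9 := ⟨_, _, fun h1 h2 h3 h4 h5 h6 h7 h8 h9 => (enc_mul h3 (brf_9.enc h1 h2 h3 h4 h5 h6 h7 h8 h9))⟩
noncomputable def brf_13 : Fn9 := ⟨_, _, fun h1 h2 h3 h4 h5 h6 h7 h8 h9 => (enc_sub (enc_pnc _ 1) (enc_half (brf_10.enc h1 h2 h3 h4 h5 h6 h7 h8 h9)))⟩
noncomputable def brf_15 : Fn9 := ⟨_, _, fun h1 h2 h3 h4 h5 h6 h7 h8 h9 => (enc_mul h3 (kx.enc h1))⟩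
noncomputable def brf : Fn9 := ⟨_, _, fun h1 h2 h3 h4 h5 h6 h7 h8 h9 => (enc_norm (enc_sub (enc_add (enc_mul h6 (enc_norm (enc_sub (brf_15.enc h1 h2 h3 h4 h5 h6 h7 h8 h9) (enc_nat 2 (enc_mul (et.enc h1) (enc_norm (enc_mul h3 (enc_norm (enc_mul (enc_norm (brf_10.enc h1 h2 h3 h4 h5 h6 h7 h8 h9)) (enc_norm (brf_13.enc h1 h2 h3 h4 h5 h6 h7 h8 h9))))))))))) h9) (enc_nat 2 (enc_mul (enc_norm (brf_15.enc h1 h2 h3 h4 h5 h6 h7 h8 h9)) (enc_norm (enc_add (enc_mul h7 (enc_norm (enc_mul (enc_norm (enc_sub (brf_13.enc h1 h2 h3 h4 h5 h6 h7 h8 h9) (enc_half (enc_mul h2 h4)))) (brf_9.enc h1 h2 h3 h4 h5 h6 h7 h8 h9)))) (enc_half (enc_mul (enc_norm (enc_mul h5 (brf_9.enc h1 h2 h3 h4 h5 h6 h7 h8 h9))) (enc_norm (enc_mul h8 (enc_norm (enc_sub (enc_pnc _ 1) (brf_10.enc h1 h2 h3 h4 h5 h6 h7 h8 h9)))))))))))))⟩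
noncomputable def lnf : Fn5 := ⟨_, _, fun h1 h2 h3 h4 h5 => (enc_norm (enc_sub h4 (enc_mul (kx.enc h1) (enc_norm (enc_mul h5 (enc_norm (enc_sub h2 h3)))))))⟩
noncomputable def ltf_8 : Fn6 := ⟨_, _, fun h1 h2 h3 h4 h5 h6 => (enc_mul h2 h5)⟩
noncomputable def ltf : Fn6 := ⟨_, _, fun h1 h2 h3 h4 h5 h6 => (enc_norm (enc_mul (enc_norm (enc_mul (enc_norm (enc_mul (kx.enc h1) h3)) (enc_norm (enc_mul (enc_norm (ltf_8.enc h1 h2 h3 h4 h5 h6)) h5)))) (enc_inv (enc_add h6 (enc_mul (enc_norm (ltf_8.enc h1 h2 h3 h4 h5 h6)) h4)))))⟩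
noncomputable def lab_8 : Fn6 := ⟨_, _, fun h1 h2 h3 h4 h5 h6 => (enc_inv h3)⟩
noncomputable def lab : Fn6 := ⟨_, _, fun h1 h2 h3 h4 h5 h6 => (enc_norm (enc_mul (enc_norm (enc_mul (enc_norm (enc_mul h2 (kx.enc h1))) (enc_norm (enc_mul (enc_norm (enc_mul h4 (lab_8.enc h1 h2 h3 h4 h5 h6))) (lab_8.enc h1 h2 h3 h4 h5 h6))))) (enc_norm (enc_mul (enc_norm (enc_mul h1 (enc_sq h5))) (enc_inv h6)))))⟩
noncomputable def col : Fn4 := ⟨_, _, fun h1 h2 h3 h4 => (enc_norm (enc_sub h4 (enc_nat 9 (enc_mul (enc_norm (enc_mul h1 h3)) h2))))⟩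
noncomputable def vf1 : Fn8 := ⟨_, _, fun h1 h2 h3 h4 h5 h6 h7 h8 => (enc_norm (enc_neg (enc_half (enc_sub (enc_add h6 h7) h8))))⟩
noncomputable def vf2 : Fn8 := ⟨_, _, fun h1 h2 h3 h4 h5 h6 h7 h8 => (enc_norm (enc_half (enc_sub (enc_add h6 h7) h8)))⟩
noncomputable def mu : Fn1 := ⟨_, _, fun h1 => (enc_inv (enc_add (enc_nat 2 (gs.enc h1)) (enc_pnc _ 3)))⟩
noncomputable def ml1_10 : Fn8 := ⟨_, _, fun h1 h2 h3 h4 h5 h6 h7 h8 => (enc_mul h4 h1)⟩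
noncomputable def ml1 : Fn8 := ⟨_, _, fun h1 h2 h3 h4 h5 h6 h7 h8 => (enc_norm (enc_mul (mu.enc h5) (enc_norm (enc_sub (enc_half (enc_mul (enc_norm (enc_sub (enc_pnc _ 4) h5)) (enc_norm (enc_sub (enc_add h6 h7) h8)))) (enc_half (enc_sub (enc_add (enc_mul (enc_norm (ml1_10.enc h1 h2 h3 h4 h5 h6 h7 h8)) h6) (enc_mul (enc_norm (enc_add (enc_add (enc_pnc _ 1) (enc_nat 2 (ml1_10.enc h1 h2 h3 h4 h5 h6 h7 h8))) (enc_mul h4 h2))) h7)) (enc_mul (enc_norm (enc_add (enc_pnc _ 1) (enc_mul h4 h3))) h8)))))))⟩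
noncomputable def ml2_13 : Fn8 := ⟨_, _, fun h1 h2 h3 h4 h5 h6 h7 h8 => (enc_add (enc_pnc _ 1) (enc_mul h4 h2))⟩
noncomputable def ml2 : Fn8 := ⟨_, _, fun h1 h2 h3 h4 h5 h6 h7 h8 => (enc_norm (enc_mul (mu.enc h5) (enc_norm (enc_sub (enc_half (enc_sub (enc_add (enc_mul (enc_norm (ml2_13.enc h1 h2 h3 h4 h5 h6 h7 h8)) h7) (enc_mul (enc_norm (enc_add (enc_nat 2 (ml2_13.enc h1 h2 h3 h4 h5 h6 h7 h8)) (enc_mul h4 h1))) h6)) (enc_mul (enc_norm (enc_add (enc_pnc _ 1) (enc_mul h4 h3))) h8))) (enc_half (enc_mul (enc_norm (enc_sub (enc_pnc _ 4) h5)) (enc_norm (enc_sub (enc_add h6 h7) h8))))))))⟩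
noncomputable def gm1 : Fn6 := ⟨_, _, fun h1 h2 h3 h4 h5 h6 => (enc_norm (enc_sub (enc_mul h1 h5) (enc_mul h2 h4)))⟩
noncomputable def gm2 : Fn6 := ⟨_, _, fun h1 h2 h3 h4 h5 h6 => (enc_norm (enc_sub (enc_mul h3 h5) (enc_mul h2 h6)))⟩
noncomputable def gm3 : Fn6 := ⟨_, _, fun h1 h2 h3 h4 h5 h6 => (enc_norm (enc_sub (enc_mul h1 h6) (enc_mul h3 h4)))⟩

end Pool.Agent.Strip051.LC.E1.Ch
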