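import Pool.Agent.Strip051.LC.E1.Ch.Fns

/-! # Rests near the full period: the functions of one more row -/

set_option linter.unusedVariables false

namespace Pool.Agent.Strip051.LC.E1.Ch

open Pool.Agent.Strip051.PB

attribute [local irreducible] padd psub pneg pmul psq pinv psqrt psqrtg pabs pps pmax pmin pphi plam
  pcase phf pnat prat pscale pnorm pdc pnc pone ppos pnn Enc

noncomputable def ov_H4 : Fn4 := ⟨_, _, fun h1 h2 h3 h4 => (enc_scale 9 20 (c3w.enc h1 h4))⟩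
noncomputable def c5f : Fn3 := ⟨_, _, fun h1 h2 h3 => (enc_norm (enc_neg (enc_mul (enc_scale 1371 10000 (lmf.enc h3)) (enc_pos (enc_sub h1 (enc_scale 5 2 h2))))))⟩
noncomputable def c6f : Fn3 := ⟨_, _, fun h1 h2 h3 => (enc_norm (enc_mul (lmf.enc h3) (enc_norm (enc_add (enc_subr 5141 50000 (enc_neg (enc_scale 1293 500 h3))) (enc_mul (enc_norm (enc_sub (enc_rat _ 219 2000) (enc_scale 34399 1000 h3))) (enc_norm (enc_mul h2 h1)))))))⟩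
noncomputable def u_H4 : Fn4 := ⟨_, _, fun h1 h2 h3 h4 => (enc_norm (enc_sub (enc_mul h4 (enc_norm (enc_sub (enc_add (xi1.enc (enc_norm (enc_add h1 h2)) h4) (xi1.enc h2 h4)) (xw0p.enc h1 h4)))) (enc_scale 3 20 (c3w.enc h1 h4))))⟩
noncomputable def tkkH4 : Fn7 := ⟨_, _, fun h1 h2 h3 h4 h5 h6 h7 => (enc_norm (enc_add (kq0.enc h2 h5 h6 h7) (enc_mul (enc_norm (enc_sub (enc_add (xi1.enc h4 h6) (xi1.enc h3 h6)) (xq0p.enc h2 h5 h6))) (sq5k.enc h2 h5 h6 h7))))⟩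
noncomputable def taH4 : Fn7 := ⟨_, _, fun h1 h2 h3 h4 h5 h6 h7 => (enc_norm (enc_add (c5f.enc h2 h5 h7) (enc_mul (enc_norm (enc_mul (enc_norm (enc_sub (c6f.enc h2 h6 h7) (enc_mul h6 (c5f.enc h2 h5 h7)))) (enc_inv (c3w.enc h2 h6)))) (enc_norm (enc_scale 20 9 (enc_mul h1 (enc_inv (enc_max h6 (enc_rat _ 1 100)))))))))⟩
noncomputable def tkbH4 : Fn7 := ⟨_, _, fun h1 h2 h3 h4 h5 h6 h7 => (enc_norm (enc_add (bq0.enc h2 h5 h6 h7) (enc_mul (enc_norm (enc_sub (enc_add (xi1.enc h4 h6) (xi1.enc h3 h6)) (xq0p.enc h2 h5 h6))) (sq5b.enc h2 h5 h6 h7))))⟩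
noncomputable def ntkkH4 : Fn7 := ⟨_, _, fun h1 h2 h3 h4 h5 h6 h7 => (nkf.enc h7 (tkkH4.enc h1 h2 h3 h4 h5 h6 h7) (tkbH4.enc h1 h2 h3 h4 h5 h6 h7))⟩

end Pool.Agent.Strip051.LC.E1.Ch
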