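import Pool.Agent.Strip051.LC.E1.Ch.Fa

/-! # Rests near the full period: the functions of the rows -/

set_option linter.unusedVariables false

namespace Pool.Agent.Strip051.LC.E1.Ch

open Pool.Agent.Strip051.PB

attribute [local irreducible] padd psub pneg pmul psq pinv psqrt psqrtg pabs pps pmax pmin pphi plam
  pcase phf pnat prat pscale pnorm pdc pnc pone ppos pnn Enc

noncomputable def qw : Fn2 := ⟨_, _, fun h1 h2 => (enc_sqrt (enc_sub (enc_pnc _ 1) (enc_scale 3 4 (enc_sq (enc_norm (enc_mul h2 h1))))))⟩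
noncomputable def om : Fn2 := ⟨_, _, fun h1 h2 => (enc_norm (enc_scale 3 4 (enc_mul (enc_sq h1) (enc_inv (enc_add (enc_pnc _ 1) (qw.enc h1 h2))))))⟩
noncomputable def nbf : Fn3 := ⟨_, _, fun h1 h2 h3 => (om.enc h1 h2)⟩
noncomputable def lmf : Fn1 := ⟨_, _, fun h1 => (enc_norm (enc_nat 2 (enc_sub (enc_pnc _ 1) (gs.enc h1))))⟩
noncomputable def n1f : Fn1 := ⟨_, _, fun h1 => (enc_norm (enc_add (enc_pnc _ 1) (enc_mul (lmf.enc h1) (mu.enc h1))))⟩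
noncomputable def b0f : Fn1 := ⟨_, _, fun h1 => (enc_norm (enc_mul (lmf.enc h1) (enc_inv (enc_nat 2 (eh.enc h1)))))⟩
noncomputable def bef : Fn1 := ⟨_, _, fun h1 => (enc_norm (enc_add (n1f.enc h1) (enc_mul (mu.enc h1) (b0f.enc h1))))⟩
noncomputable def nbn : Fn3 := ⟨_, _, fun h1 h2 h3 => (enc_norm (enc_mul (bef.enc h3) (om.enc h1 h2)))⟩
noncomputable def xiw : Fn2 := ⟨_, _, fun h1 h2 => (enc_norm (enc_neg (enc_mul h2 (om.enc h1 h2))))⟩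
noncomputable def cc1 : Fn2 := ⟨_, _, fun h1 h2 => (enc_sqrt (enc_sub (enc_pnc _ 1) (enc_scale 3 4 (enc_sq (enc_norm (enc_add (enc_pnc _ 1) (enc_mul h2 h1)))))))⟩
noncomputable def dd1 : Fn2 := ⟨_, _, fun h1 h2 => (enc_norm (enc_scale 3 4 (enc_mul (enc_norm (enc_add (enc_pnc _ 2) (enc_mul h2 h1))) (enc_inv (enc_add (enc_rat _ 1 2) (cc1.enc h1 h2))))))⟩
noncomputable def xi1 : Fn2 := ⟨_, _, fun h1 h2 => (enc_norm (enc_neg (enc_mul h1 (dd1.enc h1 h2))))⟩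
noncomputable def dwl : Fn2 := ⟨_, _, fun h1 h2 => (enc_norm (enc_add (enc_pnc _ 1) (enc_mul h2 (enc_norm (enc_sub (xiw.enc h1 h2) (xi1.enc h1 h2))))))⟩
noncomputable def cc3 : Fn2 := ⟨_, _, fun h1 h2 => (enc_sqrt (enc_sub (enc_pnc _ 3) (enc_scale 3 4 (enc_sq (enc_norm (enc_add (enc_pnc _ 1) (enc_mul h2 h1)))))))⟩
noncomputable def dd3 : Fn2 := ⟨_, _, fun h1 h2 => (enc_norm (enc_scale 3 4 (enc_mul (enc_norm (enc_add (enc_pnc _ 2) (enc_mul h2 h1))) (enc_inv (enc_add (enc_rat _ 3 2) (cc3.enc h1 h2))))))⟩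
noncomputable def xi3 : Fn2 := ⟨_, _, fun h1 h2 => (enc_norm (enc_neg (enc_mul h1 (dd3.enc h1 h2))))⟩
noncomputable def dwu : Fn2 := ⟨_, _, fun h1 h2 => (enc_norm (enc_add (enc_pnc _ 1) (enc_mul h2 (enc_norm (enc_sub (xi3.enc h1 h2) (xiw.enc h1 h2))))))⟩
noncomputable def xw0p : Fn2 := ⟨_, _, fun h1 h2 => (enc_norm (enc_mul h1 (dd1.enc (enc_neg h1) h2)))⟩
noncomputable def c3w : Fn2 := ⟨_, _, fun h1 h2 => (enc_norm (enc_sub (enc_subn 1 (enc_sqrt (enc_sub (enc_pnc _ 3) (enc_scale 3 4 (enc_sq (enc_norm (enc_mul h2 h1))))))) (enc_mul h2 (xw0p.enc h1 h2))))⟩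
noncomputable def bdf_5 : Fn2 := ⟨_, _, fun h1 h2 => (enc_add (cc1.enc (enc_neg h1) h2) (gs.enc h2))⟩
noncomputable def bdf : Fn2 := ⟨_, _, fun h1 h2 => (enc_norm (enc_neg (enc_scale 3 8 (enc_mul (enc_norm (enc_add (gs.enc h2) (enc_mul (enc_norm (enc_sub (enc_pnc _ 1) h2)) (enc_norm (enc_scale 3 4 (enc_mul (enc_norm (enc_sub (enc_sub (enc_pnc _ 2) h2) (enc_mul h2 h1))) (enc_inv (bdf_5.enc h1 h2)))))))) (enc_inv (enc_mul (gs.enc h2) (enc_norm (bdf_5.enc h1 h2))))))))⟩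
noncomputable def bdn : Fn2 := ⟨_, _, fun h1 h2 => (enc_norm (enc_mul (n1f.enc h2) (bdf.enc h1 h2)))⟩
noncomputable def kw1 : Fn2 := ⟨_, _, fun h1 h2 => (enc_norm (enc_add (enc_half h1) (enc_mul h2 (om.enc h1 h2))))⟩
noncomputable def kw2 : Fn2 := ⟨_, _, fun h1 h2 => (enc_norm (enc_add (enc_scale 3 2 h1) (enc_mul h2 (om.enc h1 h2))))⟩
noncomputable def kw3 : Fn2 := ⟨_, _, fun h1 h2 => (enc_norm (enc_sub (enc_mul h2 (om.enc h1 h2)) (enc_half h1)))⟩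
noncomputable def cwf : Fn2 := ⟨_, _, fun h1 h2 => (cc1.enc (enc_neg h1) h2)⟩
noncomputable def c1f : Fn2 := ⟨_, _, fun h1 h2 => (enc_norm (enc_scale 3 4 (enc_mul (enc_norm (enc_sub (enc_sub (enc_pnc _ 2) h2) (enc_mul h2 h1))) (enc_inv (enc_add (cwf.enc h1 h2) (gs.enc h2))))))⟩
noncomputable def swf : Fn2 := ⟨_, _, fun h1 h2 => (enc_norm (enc_add (enc_half h1) (xw0p.enc h1 h2)))⟩
noncomputable def prf : Fn1 := ⟨_, _, fun h1 => (enc_norm (enc_mul (enc_norm (enc_sub (enc_sub (enc_half (qo.enc h1)) (enc_mul (enc_norm (enc_add (eh.enc h1) (enc_pnc _ 1))) (enc_norm (enc_sub (enc_rat _ 9 4) (enc_scale 3 4 h1))))) (enc_mul (eh.enc h1) (enc_norm (enc_add (enc_nat 2 (eh.enc h1)) (enc_pnc _ 1)))))) (enc_inv (enc_nat 2 (enc_mul (eh.enc h1) (gs.enc h1))))))⟩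
noncomputable def icw : Fn2 := ⟨_, _, fun h1 h2 => (enc_inv (enc_add (enc_pnc _ 1) (enc_add (enc_half (cwf.enc h1 h2)) (enc_scale 3 4 (enc_sub (enc_pnc _ 1) (enc_mul h2 h1))))))⟩
noncomputable def qdf : Fn2 := ⟨_, _, fun h1 h2 => (enc_norm (enc_sub (enc_mul (enc_norm (enc_add (enc_rat _ 1 2) (c1f.enc h1 h2))) (icw.enc h1 h2)) (enc_mul (enc_norm (enc_mul (ig.enc h2) (icw.enc h1 h2))) (enc_norm (enc_mul h2 (enc_norm (enc_subr 3 4 (enc_half (c1f.enc h1 h2)))))))))⟩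
noncomputable def tpf : Fn1 := ⟨_, _, fun h1 => (enc_norm (enc_add (eh.enc h1) (enc_pnc _ 1)))⟩
noncomputable def hhf : Fn1 := ⟨_, _, fun h1 => (enc_norm (enc_add (eh.enc h1) (enc_rat _ 1 2)))⟩
noncomputable def dwf : Fn1 := ⟨_, _, fun h1 => (enc_norm (enc_mul (enc_norm (enc_add (enc_add (enc_rat _ 3 4) (enc_half (hhf.enc h1))) (enc_half (enc_sub (enc_sub (enc_nat 2 (hhf.enc h1)) (qo.enc h1)) (enc_nat 2 (enc_mul (enc_norm (enc_mul h1 (hhf.enc h1))) (qo.enc h1))))))) (enc_inv (enc_nat 2 (enc_mul (gs.enc h1) (eh.enc h1))))))⟩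
noncomputable def vw0 : Fn1 := ⟨_, _, fun h1 => (enc_norm (enc_mul (enc_norm (enc_sub (enc_sub (enc_mul (enc_norm (enc_add (enc_half (qo.enc h1)) (prf.enc h1))) (enc_inv (tpf.enc h1))) (dwf.enc h1)) (hhf.enc h1))) (ig.enc h1)))⟩
noncomputable def pwk : Fn1 := ⟨_, _, fun h1 => (enc_norm (enc_add (vw0.enc h1) (enc_pnc _ 6)))⟩
noncomputable def ekl_7 : Fn2 := ⟨_, _, fun h1 h2 => (enc_scale 559209 200000 (enc_sqrt (enc_pnc _ 3)))⟩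
noncomputable def ekl_12 : Fn2 := ⟨_, _, fun h1 h2 => (enc_mul (ekl_7.enc h1 h2) (enc_norm (enc_add (enc_rat _ 1 2) (c1f.enc h1 h2))))⟩
noncomputable def ekl : Fn2 := ⟨_, _, fun h1 h2 => (enc_norm (enc_sub (enc_sub (enc_scale 3 4 (enc_sub (enc_mul (qdf.enc h1 h2) (enc_norm (enc_add (enc_pnc _ 1) (enc_mul h2 (enc_norm (enc_sub (prf.enc h2) (enc_mul (ekl_7.enc h1 h2) (enc_norm (enc_sub (enc_subn 1 (swf.enc h1 h2)) (eh.enc h2)))))))))) (enc_mul (ig.enc h2) (enc_norm (enc_mul h2 (enc_norm (ekl_12.enc h1 h2))))))) (enc_half (ekl_12.enc h1 h2))) (enc_add (enc_add (c1f.enc h1 h2) (enc_mul (enc_norm (enc_add (enc_pnc _ 1) (enc_mul h2 (xw0p.enc h1 h2)))) (enc_norm (enc_subr 24207 2500 (enc_nat 2 (pwk.enc h2)))))) (enc_mul (enc_norm (enc_mul h2 (c1f.enc h1 h2))) (vw0.enc h2)))))⟩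
noncomputable def fffl : Fn2 := ⟨_, _, fun h1 h2 => (enc_norm (enc_add (bdf.enc h1 h2) (enc_mul (kx.enc h2) (enc_norm (enc_sub (enc_mul (ekl.enc h1 h2) (enc_norm (enc_sub (enc_pnc _ 1) (enc_mul h2 h1)))) (enc_mul h2 (dwf.enc h2)))))))⟩
noncomputable def ekr_7 : Fn2 := ⟨_, _, fun h1 h2 => (enc_scale 559209 200000 (enc_sqrt (enc_pnc _ 3)))⟩
noncomputable def ekr_12 : Fn2 := ⟨_, _, fun h1 h2 => (enc_mul (ekr_7.enc h1 h2) (enc_norm (enc_add (enc_rat _ 1 2) (c1f.enc h1 h2))))⟩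
noncomputable def ekr : Fn2 := ⟨_, _, fun h1 h2 => (enc_norm (enc_sub (enc_sub (enc_scale 3 4 (enc_sub (enc_mul (qdf.enc h1 h2) (enc_norm (enc_add (enc_pnc _ 1) (enc_mul h2 (enc_norm (enc_sub (prf.enc h2) (enc_mul (ekr_7.enc h1 h2) (enc_norm (enc_sub (enc_subn 1 (swf.enc h1 h2)) (eh.enc h2)))))))))) (enc_mul (ig.enc h2) (enc_norm (enc_mul h2 (enc_norm (ekr_12.enc h1 h2))))))) (enc_half (ekr_12.enc h1 h2))) (enc_add (enc_add (c1f.enc h1 h2) (enc_mul (enc_norm (enc_add (enc_pnc _ 1) (enc_mul h2 (xw0p.enc h1 h2)))) (enc_norm (enc_sub (enc_neg (enc_pnc _ 6)) (enc_scale 2 3 (pwk.enc h2)))))) (enc_mul (enc_norm (enc_mul h2 (c1f.enc h1 h2))) (vw0.enc h2)))))⟩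
noncomputable def fffr : Fn2 := ⟨_, _, fun h1 h2 => (enc_norm (enc_add (bdf.enc h1 h2) (enc_mul (kx.enc h2) (enc_norm (enc_sub (enc_mul (ekr.enc h1 h2) (enc_norm (enc_sub (enc_pnc _ 1) (enc_mul h2 h1)))) (enc_mul h2 (dwf.enc h2)))))))⟩
noncomputable def lwf : Fn2 := ⟨_, _, fun h1 h2 => (enc_norm (enc_add (enc_mul (enc_norm (enc_subn 1 h1)) (fffr.enc h1 h2)) (enc_rat _ 1 16)))⟩
noncomputable def lof_2 : Fn2 := ⟨_, _, fun h1 h2 => (enc_inv h1)⟩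
noncomputable def lof : Fn2 := ⟨_, _, fun h1 h2 => (enc_norm (enc_add (enc_add (enc_mul (enc_norm (enc_add (enc_pnc _ 32) (et.enc h2))) (enc_norm (enc_mul (enc_norm (enc_mul (enc_half h1) (lof_2.enc h1 h2))) (lof_2.enc h1 h2)))) (bdf.enc h1 h2)) (enc_mul (enc_norm (enc_sub (enc_sub (fffr.enc h1 h2) (bdf.enc h1 h2)) (enc_mul (kx.enc h2) (enc_norm (enc_mul (enc_norm (enc_sub (enc_pnc _ 1) h2)) (dwf.enc h2)))))) (lof_2.enc h1 h2))))⟩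
noncomputable def kw0_10 : Fn4 := ⟨_, _, fun h1 h2 h3 h4 => (enc_nat 2 (enc_subr 9207 5000 (pwk.enc h4)))⟩
noncomputable def kw0_11 : Fn4 := ⟨_, _, fun h1 h2 h3 h4 => (enc_scale 2 3 (pwk.enc h4))⟩
noncomputable def kw0 : Fn4 := ⟨_, _, fun h1 h2 h3 h4 => (enc_norm (enc_add (xw0p.enc h1 h3) (enc_mul (enc_norm (enc_add (enc_pnc _ 1) (enc_mul h3 (xw0p.enc h1 h3)))) (enc_norm (enc_sub (enc_add (enc_add (enc_add (enc_scale 9207 2500 h1) (enc_mul (enc_pos (enc_sub h1 (enc_half h2))) (enc_norm (enc_subr 9207 2500 (kw0_10.enc h1 h2 h3 h4))))) (enc_mul (enc_pos (enc_sub h1 h2)) (enc_norm (enc_sub (enc_neg (kw0_11.enc h1 h2 h3 h4)) (kw0_10.enc h1 h2 h3 h4))))) (enc_mul (enc_pos (enc_sub h1 (enc_scale 5 2 h2))) (kw0_11.enc h1 h2 h3 h4))) (enc_nat 6 h1))))))⟩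
noncomputable def sg1 : Fn2 := ⟨_, _, fun h1 h2 => (enc_norm (enc_mul h1 (enc_norm (enc_add (enc_rat _ 1 2) (dd1.enc h1 h2)))))⟩
noncomputable def u2k_3 : Fn1 := ⟨_, _, fun h1 => (enc_sqrt (enc_pnc _ 3))⟩
noncomputable def u2k : Fn1 := ⟨_, _, fun h1 => (enc_norm (enc_scale 5 3 (enc_add (enc_sub (prf.enc h1) (enc_mul (enc_scale 559209 200000 (u2k_3.enc h1)) (enc_norm (enc_sub (enc_rat _ 3 5) (eh.enc h1))))) (enc_scale 109997 100000 (u2k_3.enc h1)))))⟩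
noncomputable def u4k_2 : Fn1 := ⟨_, _, fun h1 => (enc_sqrt (enc_pnc _ 3))⟩
noncomputable def u4k : Fn1 := ⟨_, _, fun h1 => (enc_norm (enc_scale 10 3 (enc_add (enc_sub (enc_neg (enc_scale 6303 1250 (u4k_2.enc h1))) (prf.enc h1)) (enc_mul (enc_scale 559209 200000 (u4k_2.enc h1)) (enc_norm (enc_sub (enc_rat _ 6 5) (eh.enc h1)))))))⟩
noncomputable def ku_5 : Fn4 := ⟨_, _, fun h1 h2 h3 h4 => (enc_sqrt (enc_pnc _ 3))⟩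
noncomputable def ku_7 : Fn4 := ⟨_, _, fun h1 h2 h3 h4 => (enc_scale 109997 100000 (ku_5.enc h1 h2 h3 h4))⟩
noncomputable def ku_10 : Fn4 := ⟨_, _, fun h1 h2 h3 h4 => (enc_scale 559209 200000 (ku_5.enc h1 h2 h3 h4))⟩
noncomputable def ku_41 : Fn4 := ⟨_, _, fun h1 h2 h3 h4 => (enc_mul h3 (enc_norm (enc_mul (enc_half (ku_5.enc h1 h2 h3 h4)) h1)))⟩
noncomputable def ku : Fn4 := ⟨_, _, fun h1 h2 h3 h4 => (enc_norm (enc_add (enc_add (enc_add (enc_add (enc_sub (enc_mul (enc_pos (enc_sub h1 h2)) (enc_norm (enc_add (u2k.enc h4) (ku_7.enc h1 h2 h3 h4)))) (enc_mul h1 (ku_7.enc h1 h2 h3 h4))) (enc_mul (enc_pos (enc_sub h1 (enc_scale 8 5 h2))) (enc_norm (enc_sub (enc_neg (ku_10.enc h1 h2 h3 h4)) (u2k.enc h4))))) (enc_mul (enc_pos (enc_sub h1 (enc_scale 11 5 h2))) (enc_norm (enc_add (u4k.enc h4) (ku_10.enc h1 h2 h3 h4)))))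 (enc_mul (enc_pos (enc_sub h1 (enc_scale 5 2 h2))) (enc_norm (enc_sub (enc_neg (enc_scale 6303 3125 (ku_5.enc h1 h2 h3 h4))) (u4k.enc h4))))) (enc_mul (enc_norm (enc_sub (enc_scale 2753 2500 (enc_pos (enc_subr 1 10 (ku_41.enc h1 h2 h3 h4)))) (enc_scale 6894 3125 (enc_pos (enc_subr 1 16 (ku_41.enc h1 h2 h3 h4)))))) (enc_inv (enc_max h3 (enc_rat _ 1 100))))))⟩
noncomputable def ic1 : Fn2 := ⟨_, _, fun h1 h2 => (enc_inv (enc_add (enc_pnc _ 1) (enc_add (enc_half (cc1.enc h1 h2)) (enc_scale 3 4 (enc_add (enc_pnc _ 1) (enc_mul h2 h1))))))⟩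
noncomputable def k1m_6 : Fn4 := ⟨_, _, fun h1 h2 h3 h4 => (ku.enc (enc_neg (sg1.enc h1 h3)) h2 h3 h4)⟩
noncomputable def k1m : Fn4 := ⟨_, _, fun h1 h2 h3 h4 => (enc_norm (enc_sub (enc_half (k1m_6.enc h1 h2 h3 h4)) (enc_scale 3 4 (enc_mul (enc_norm (enc_mul (sg1.enc h1 h3) (ic1.enc h1 h3))) (enc_norm (enc_add (enc_pnc _ 1) (enc_mul h3 (k1m_6.enc h1 h2 h3 h4))))))))⟩
noncomputable def ldf : Fn2 := ⟨_, _, fun h1 h2 => (enc_norm (enc_add (enc_sub (enc_mul (enc_half h1) (qo.enc h2)) (enc_half (enc_add (enc_sq (xw0p.enc h1 h2)) (enc_scale 3 4 (enc_sq h1))))) (enc_mul (kx.enc h2) (enc_norm (enc_mul (enc_norm (enc_subn 1 h1)) (enc_norm (enc_mul (enc_norm (enc_sub (k1m.enc (enc_neg h1) (enc_pnc _ 1) h2 h2) (kw0.enc h1 (enc_pnc _ 1) h2 h2))) (enc_norm (enc_sub (enc_pnc _ 1) (enc_mul h2 h1))))))))))⟩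
noncomputable def u3b : Fn1 := ⟨_, _, fun h1 => (enc_norm (enc_mul (enc_norm (enc_sub (enc_neg (enc_rat _ 280683 50000)) (enc_nat 2 (b0f.enc h1)))) (enc_half (enc_sqrt (enc_pnc _ 3)))))⟩
noncomputable def pbf : Fn1 := ⟨_, _, fun h1 => (enc_norm (enc_neg (enc_half (enc_mul (b0f.enc h1) (qo.enc h1)))))⟩
noncomputable def pwb : Fn1 := ⟨_, _, fun h1 => (enc_norm (enc_subr 25647 5000 (enc_neg (enc_mul (enc_norm (enc_mul (b0f.enc h1) (hhf.enc h1))) (ig.enc h1)))))⟩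
noncomputable def ebl_8 : Fn2 := ⟨_, _, fun h1 h2 => (enc_mul (u3b.enc h2) (enc_norm (enc_add (enc_rat _ 1 2) (c1f.enc h1 h2))))⟩
noncomputable def ebl : Fn2 := ⟨_, _, fun h1 h2 => (enc_norm (enc_sub (enc_add (enc_half (ebl_8.enc h1 h2)) (enc_scale 3 4 (enc_add (enc_mul (qdf.enc h1 h2) (enc_norm (enc_add (b0f.enc h2) (enc_mul h2 (enc_norm (enc_add (pbf.enc h2) (enc_mul (u3b.enc h2) (enc_norm (enc_sub (enc_subn 1 (swf.enc h1 h2)) (eh.enc h2)))))))))) (enc_mul (ig.enc h2) (enc_norm (enc_mul h2 (enc_norm (ebl_8.enc h1 h2)))))))) (enc_add (enc_add (enc_mul (b0f.enc h2) (c1f.enc h1 h2)) (enc_mul (enc_norm (enc_add (enc_pnc _ 1) (enc_mul h2 (xw0p.enc h1 h2)))) (enc_norm (enc_add (enc_rat _ 5856 625) (enc_nat 2 (pwb.enc h2)))))) (enc_mul (enc_norm (enc_mul h2 (c1f.enc h1 h2))) (enc_norm (enc_add (pwb.enc h2) (enc_rat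 _ 25647 5000)))))))⟩
noncomputable def ffnl : Fn2 := ⟨_, _, fun h1 h2 => (enc_norm (enc_add (bdn.enc h1 h2) (enc_mul (kx.enc h2) (enc_norm (enc_sub (enc_mul (enc_norm (enc_add (enc_mul (n1f.enc h2) (ekl.enc h1 h2)) (enc_mul (mu.enc h2) (ebl.enc h1 h2)))) (enc_norm (enc_sub (enc_pnc _ 1) (enc_mul h2 h1)))) (enc_mul h2 (enc_norm (enc_mul (n1f.enc h2) (dwf.enc h2)))))))))⟩
noncomputable def ebr_8 : Fn2 := ⟨_, _, fun h1 h2 => (enc_mul (u3b.enc h2) (enc_norm (enc_add (enc_rat _ 1 2) (c1f.enc h1 h2))))⟩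
noncomputable def ebr : Fn2 := ⟨_, _, fun h1 h2 => (enc_norm (enc_sub (enc_add (enc_half (ebr_8.enc h1 h2)) (enc_scale 3 4 (enc_add (enc_mul (qdf.enc h1 h2) (enc_norm (enc_add (b0f.enc h2) (enc_mul h2 (enc_norm (enc_add (pbf.enc h2) (enc_mul (u3b.enc h2) (enc_norm (enc_sub (enc_subn 1 (swf.enc h1 h2)) (eh.enc h2)))))))))) (enc_mul (ig.enc h2) (enc_norm (enc_mul h2 (enc_norm (ebr_8.enc h1 h2)))))))) (enc_add (enc_add (enc_mul (b0f.enc h2) (c1f.enc h1 h2)) (enc_mul (enc_norm (enc_add (enc_pnc _ 1) (enc_mul h2 (xw0p.enc h1 h2)))) (enc_norm (enc_sub (enc_rat _ 25647 5000) (enc_scale 2 3 (pwb.enc h2)))))) (enc_mul (enc_norm (enc_mul h2 (c1f.enc h1 h2))) (enc_norm (enc_add (pwb.enc h2) (enc_rat _ 25647 5000)))))))⟩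
noncomputable def ffnr : Fn2 := ⟨_, _, fun h1 h2 => (enc_norm (enc_add (bdn.enc h1 h2) (enc_mul (kx.enc h2) (enc_norm (enc_sub (enc_mul (enc_norm (enc_add (enc_mul (n1f.enc h2) (ekr.enc h1 h2)) (enc_mul (mu.enc h2) (ebr.enc h1 h2)))) (enc_norm (enc_sub (enc_pnc _ 1) (enc_mul h2 h1)))) (enc_mul h2 (enc_norm (enc_mul (n1f.enc h2) (dwf.enc h2)))))))))⟩
noncomputable def lwn : Fn2 := ⟨_, _, fun h1 h2 => (enc_norm (enc_add (enc_mul (enc_norm (enc_subn 1 h1)) (ffnr.enc h1 h2)) (enc_rat _ 1 16)))⟩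
noncomputable def lon_2 : Fn2 := ⟨_, _, fun h1 h2 => (enc_inv h1)⟩
noncomputable def lon : Fn2 := ⟨_, _, fun h1 h2 => (enc_norm (enc_add (enc_add (enc_mul (enc_norm (enc_add (enc_pnc _ 32) (et.enc h2))) (enc_norm (enc_mul (enc_norm (enc_mul (enc_norm (enc_mul (enc_half h1) (bef.enc h2))) (lon_2.enc h1 h2))) (lon_2.enc h1 h2)))) (bdn.enc h1 h2)) (enc_mul (enc_norm (enc_sub (enc_sub (ffnr.enc h1 h2) (bdn.enc h1 h2)) (enc_mul (kx.enc h2) (enc_norm (enc_mul (n1f.enc h2) (enc_norm (enc_mul (enc_norm (enc_sub (enc_pnc _ 1) h2)) (dwf.enc h2)))))))) (lon_2.enc h1 h2))))⟩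
noncomputable def bw0_10 : Fn4 := ⟨_, _, fun h1 h2 h3 h4 => (enc_nat 2 (enc_add (pwb.enc h4) (enc_rat _ 21201 10000)))⟩
noncomputable def bw0_11 : Fn4 := ⟨_, _, fun h1 h2 h3 h4 => (enc_scale 2 3 (pwb.enc h4))⟩
noncomputable def bw0 : Fn4 := ⟨_, _, fun h1 h2 h3 h4 => (enc_norm (enc_add (enc_mul (b0f.enc h4) (xw0p.enc h1 h3)) (enc_mul (enc_norm (enc_add (enc_pnc _ 1) (enc_mul h3 (xw0p.enc h1 h3)))) (enc_norm (enc_add (enc_scale 25647 5000 h1) (enc_add (enc_add (enc_sub (enc_mul (enc_pos (enc_sub h1 (enc_half h2))) (enc_norm (enc_add (bw0_10.enc h1 h2 h3 h4) (enc_rat _ 21201 5000)))) (enc_scale 21201 5000 h1)) (enc_mul (enc_pos (enc_sub h1 h2)) (enc_norm (enc_sub (enc_neg (bw0_11.enc h1 h2 h3 h4)) (bw0_10.enc h1 h2 h3 h4))))) (enc_mul (enc_pos (enc_sub h1 (enc_scale 5 2 h2))) (bw0_11.enc h1 h2 h3 h4))))))))⟩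
noncomputable def nkf : Fn3 := ⟨_, _, fun h1 h2 h3 => (enc_norm (enc_add (enc_mul (n1f.enc h1) h2) (enc_mul (mu.enc h1) h3)))⟩
noncomputable def u1b : Fn1 := ⟨_, _, fun h1 => (enc_norm (enc_mul (enc_norm (enc_sub (enc_rat _ 18757 20000) (enc_nat 2 (b0f.enc h1)))) (enc_half (enc_sqrt (enc_pnc _ 3)))))⟩
noncomputable def u2b : Fn1 := ⟨_, _, fun h1 => (enc_norm (enc_scale 5 3 (enc_sub (enc_add (pbf.enc h1) (enc_mul (u3b.enc h1) (enc_norm (enc_sub (enc_rat _ 3 5) (eh.enc h1))))) (u1b.enc h1))))⟩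
noncomputable def u5b : Fn1 := ⟨_, _, fun h1 => (enc_norm (enc_mul (enc_norm (enc_sub (enc_rat _ 23151 3125) (enc_nat 2 (b0f.enc h1)))) (enc_half (enc_sqrt (enc_pnc _ 3)))))⟩
noncomputable def u4b : Fn1 := ⟨_, _, fun h1 => (enc_norm (enc_scale 10 3 (enc_sub (enc_sub (enc_scale 5 2 (u5b.enc h1)) (pbf.enc h1)) (enc_mul (u3b.enc h1) (enc_norm (enc_sub (enc_rat _ 6 5) (eh.enc h1)))))))⟩
noncomputable def kv_37 : Fn4 := ⟨_, _, fun h1 h2 h3 h4 => (enc_mul h3 (enc_norm (enc_mul (enc_half (enc_sqrt (enc_pnc _ 3))) h1)))⟩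
noncomputable def kv_45 : Fn4 := ⟨_, _, fun h1 h2 h3 h4 => (enc_subr 8487 100000 (enc_scale 4 5 (b0f.enc h4)))⟩
noncomputable def kv_50 : Fn4 := ⟨_, _, fun h1 h2 h3 h4 => (enc_scale 80 3 (enc_sub (kv_45.enc h1 h2 h3 h4) (enc_add (enc_scale 7 8 (b0f.enc h4)) (enc_rat _ 23151 50000))))⟩
noncomputable def kv : Fn4 := ⟨_, _, fun h1 h2 h3 h4 => (enc_norm (enc_add (enc_add (enc_add (enc_add (enc_add (enc_mul h1 (u1b.enc h4)) (enc_mul (enc_pos (enc_sub h1 h2)) (enc_norm (enc_sub (u2b.enc h4) (u1b.enc h4))))) (enc_mul (enc_pos (enc_sub h1 (enc_scale 8 5 h2))) (enc_norm (enc_sub (u3b.enc h4) (u2b.enc h4))))) (enc_mul (enc_pos (enc_sub h1 (enc_scale 11 5 h2))) (enc_norm (enc_sub (u4b.enc h4) (u3b.enc h4))))) (enc_mul (enc_pos (enc_sub h1 (enc_scale 5 2 h2))) (enc_norm (enc_sub (u5b.enc h4) (u4b.enc h4))))) (enc_mul (enc_norm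 (enc_add (enc_mul (enc_pos (enc_subr 1 16 (kv_37.enc h1 h2 h3 h4))) (enc_norm (enc_sub (kv_50.enc h1 h2 h3 h4) (enc_sub (enc_rat _ 23151 3125) (enc_nat 2 (b0f.enc h4)))))) (enc_mul (enc_pos (enc_subr 1 10 (kv_37.enc h1 h2 h3 h4))) (enc_norm (enc_sub (enc_neg (enc_nat 10 (kv_45.enc h1 h2 h3 h4))) (kv_50.enc h1 h2 h3 h4)))))) (enc_inv (enc_max h3 (enc_rat _ 1 100))))))⟩
noncomputable def b1m_6 : Fn4 := ⟨_, _, fun h1 h2 h3 h4 => (kv.enc (enc_neg (sg1.enc h1 h3)) h2 h3 h4)⟩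
noncomputable def b1m : Fn4 := ⟨_, _, fun h1 h2 h3 h4 => (enc_norm (enc_sub (enc_half (b1m_6.enc h1 h2 h3 h4)) (enc_scale 3 4 (enc_mul (enc_norm (enc_mul (sg1.enc h1 h3) (ic1.enc h1 h3))) (enc_norm (enc_add (b0f.enc h4) (enc_mul h3 (b1m_6.enc h1 h2 h3 h4))))))))⟩
noncomputable def ldn_5 : Fn2 := ⟨_, _, fun h1 h2 => (enc_neg h1)⟩
noncomputable def ldn : Fn2 := ⟨_, _, fun h1 h2 => (enc_norm (enc_add (enc_mul (n1f.enc h2) (enc_norm (enc_sub (enc_mul (enc_half h1) (qo.enc h2)) (enc_half (enc_add (enc_sq (xw0p.enc h1 h2)) (enc_scale 3 4 (enc_sq h1))))))) (enc_mul (kx.enc h2) (enc_norm (enc_mul (enc_norm (enc_subn 1 h1)) (enc_norm (enc_mul (enc_norm (enc_sub (nkf.enc h2 (k1m.enc (ldn_5.enc h1 h2) (enc_pnc _ 1) h2 h2) (b1m.enc (ldn_5.enc h1 h2) (enc_pnc _ 1) h2 h2)) (nkf.enc h2 (kw0.enc h1 (enc_pnc _ 1) h2 h2) (bw0.enc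 h1 (enc_pnc _ 1) h2 h2)))) (enc_norm (enc_sub (enc_pnc _ 1) (enc_mul h2 h1))))))))))⟩
noncomputable def zx : Fn2 := ⟨_, _, fun h1 h2 => (enc_norm (enc_neg (enc_mul h2 (om.enc h1 h2))))⟩
noncomputable def u_T1_A_P1m_P1W : Fn4 := ⟨_, _, fun h1 h2 h3 h4 => (enc_norm (enc_sub (enc_sub (zx.enc h1 h4) (xi1.enc h2 h4)) (xi1.enc (enc_norm (enc_add h1 h2)) h4)))⟩
noncomputable def nff_T1 : Fn3 := ⟨_, _, fun h1 h2 h3 => (enc_norm (enc_sub (enc_half h1) h2))⟩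
noncomputable def nuf_T1 : Fn3 := ⟨_, _, fun h1 h2 h3 => (enc_norm (enc_scale 3 2 (enc_sub h2 (enc_half h1))))⟩
noncomputable def bs_T1_AP1mf : Fn6 := ⟨_, _, fun h1 h2 h3 h4 h5 h6 => (enc_norm (enc_neg (enc_half (enc_add (enc_mul (om.enc h1 h5) (enc_norm (enc_add (enc_pnc _ 1) (enc_mul h5 h3)))) (enc_mul (enc_norm (enc_sub (zx.enc h1 h5) (xi1.enc h2 h5))) h1)))))⟩
noncomputable def ku_wp : Fn7 := ⟨_, _, fun h1 h2 h3 h4 h5 h6 h7 => (ku.enc h2 h5 h6 h7)⟩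
noncomputable def k1m_zn : Fn7 := ⟨_, _, fun h1 h2 h3 h4 h5 h6 h7 => (enc_neg (k1m.enc h3 h5 h6 h7))⟩
noncomputable def k1p_5 : Fn4 := ⟨_, _, fun h1 h2 h3 h4 => (ku.enc (sg1.enc h1 h3) h2 h3 h4)⟩
noncomputable def k1p : Fn4 := ⟨_, _, fun h1 h2 h3 h4 => (enc_norm (enc_sub (enc_half (k1p_5.enc h1 h2 h3 h4)) (enc_scale 3 4 (enc_mul (enc_norm (enc_mul (sg1.enc h1 h3) (ic1.enc h1 h3))) (enc_norm (enc_add (enc_pnc _ 1) (enc_mul h3 (k1p_5.enc h1 h2 h3 h4))))))))⟩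
noncomputable def kwu : Fn4 := ⟨_, _, fun h1 h2 h3 h4 => (enc_norm (enc_add (xiw.enc h1 h3) (enc_mul (enc_norm (enc_add (enc_rat _ 1 2) (enc_mul h3 (xiw.enc h1 h3)))) (enc_norm (enc_sub (enc_sub (enc_add (enc_sub (enc_scale 20923 2500 (enc_pos (enc_sub h1 (enc_half h2)))) (enc_scale 21419 2500 h1)) (enc_scale 7801 2500 (enc_pos (enc_sub h1 h2)))) (enc_scale 1461 500 (enc_pos (enc_sub h1 (enc_scale 5 2 h2))))) (enc_scale 2772 625 h1))))))⟩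
noncomputable def s1wk_6 : Fn4 := ⟨_, _, fun h1 h2 h3 h4 => (enc_add (enc_rat _ 1 2) (dd1.enc h1 h3))⟩
noncomputable def s1wk_10 : Fn4 := ⟨_, _, fun h1 h2 h3 h4 => (enc_mul h3 h1)⟩
noncomputable def s1wk_16 : Fn4 := ⟨_, _, fun h1 h2 h3 h4 => (enc_scale 3 4 (enc_mul (enc_norm (s1wk_10.enc h1 h2 h3 h4)) (enc_inv (enc_add (enc_pnc _ 1) (qw.enc h1 h3)))))⟩
noncomputable def s1wk_20 : Fn4 := ⟨_, _, fun h1 h2 h3 h4 => (enc_mul (enc_scale 109997 100000 (enc_sqrt (enc_pnc _ 3))) (enc_norm (s1wk_6.enc h1 h2 h3 h4)))⟩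
noncomputable def s1wk : Fn4 := ⟨_, _, fun h1 h2 h3 h4 => (enc_norm (enc_case (enc_sub h1 (enc_scale 2 5 h2)) (enc_mul (enc_norm (enc_sub (enc_sub (enc_neg (s1wk_16.enc h1 h2 h3 h4)) (enc_scale 32507 2500 (enc_sub (enc_rat _ 1 2) (enc_mul (enc_norm (s1wk_10.enc h1 h2 h3 h4)) (enc_norm (s1wk_16.enc h1 h2 h3 h4)))))) (enc_sub (enc_neg (enc_half (s1wk_20.enc h1 h2 h3 h4))) (enc_scale 3 4 (enc_mul (enc_norm (enc_mul (enc_norm (s1wk_6.enc h1 h2 h3 h4)) (ic1.enc h1 h3))) (enc_norm (enc_sub (enc_pnc _ 1) (enc_mul (enc_norm (s1wk_10.enc h1 h2 h3 h4)) (enc_norm (s1wk_20.enc h1 h2 h3 h4)))))))))) (enc_inv (enc_sub (dd1.enc h1 h3) (s1wk_16.enc h1 h2 h3 h4)))) (enc_mul (enc_norm (enc_sub (kwu.enc h1 h2 h3 h4) (k1p.enc h1 h2 h3 h4))) (enc_inv (enc_sub (xiw.enc h1 h3) (xi1.enc h1 h3))))))⟩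
noncomputable def tkP1W_tp : Fn7 := ⟨_, _, fun h1 h2 h3 h4 h5 h6 h7 => (enc_norm (enc_add (k1p.enc h4 h5 h6 h7) (enc_mul h1 (s1wk.enc h4 h5 h6 h7))))⟩
noncomputable def zr7 : Fn7 := ⟨_, _, fun h1 h2 h3 h4 h5 h6 h7 => (enc_pnc _ 0)⟩
noncomputable def xwu : Fn4 := ⟨_, _, fun h1 h2 h3 h4 => (enc_norm (enc_mul (enc_scale 3097 10000 (lmf.enc h4)) (enc_pos (enc_sub h1 (enc_scale 5 2 h2)))))⟩
noncomputable def qa1 : Fn4 := ⟨_, _, fun h1 h2 h3 h4 => (enc_norm (enc_case (enc_sub h1 (enc_scale 5 2 h2)) (enc_pnc _ 0) (enc_mul (xwu.enc h1 h2 h3 h4) (enc_inv (enc_sub (xiw.enc h1 h3) (xi1.enc h1 h3))))))⟩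
noncomputable def taP1W_tp : Fn7 := ⟨_, _, fun h1 h2 h3 h4 h5 h6 h7 => (enc_norm (enc_mul h1 (qa1.enc h4 h5 h6 h7)))⟩
noncomputable def lva : Fn4 := ⟨_, _, fun h1 h2 h3 h4 => (enc_norm (enc_mul (lmf.enc h4) (enc_norm (enc_mul (enc_norm (enc_sub (enc_rat _ 85937 100000) (enc_scale 10723 500 h4))) (enc_scale 3 4 (enc_sq (enc_norm (enc_mul (enc_pos (enc_sub h1 (enc_scale 167 50 h2))) (enc_inv (enc_sub (enc_rat _ 1 2) (enc_scale 167 50 (enc_mul (enc_half (enc_sqrt (enc_pnc _ 3))) h4))))))))))))⟩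
noncomputable def lva_wp : Fn7 := ⟨_, _, fun h1 h2 h3 h4 h5 h6 h7 => (lva.enc h2 h5 h6 h7)⟩
noncomputable def lvm_6 : Fn4 := ⟨_, _, fun h1 h2 h3 h4 => (enc_half (enc_sqrt (enc_pnc _ 3)))⟩
noncomputable def lvm_24 : Fn4 := ⟨_, _, fun h1 h2 h3 h4 => (enc_mul h3 (enc_norm (enc_mul (lvm_6.enc h1 h2 h3 h4) h1)))⟩
noncomputable def lvm_27 : Fn4 := ⟨_, _, fun h1 h2 h3 h4 => (enc_inv (enc_max h3 (enc_rat _ 1 100)))⟩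
noncomputable def lvm : Fn4 := ⟨_, _, fun h1 h2 h3 h4 => (enc_norm (enc_mul (lmf.enc h4) (enc_norm (enc_add (enc_add (enc_add (enc_mul (enc_norm (enc_sub (enc_rat _ 2661 12500) (enc_scale 8863 1000 h4))) (enc_scale 3 4 (enc_sq (enc_norm (enc_mul (enc_pos (enc_sub h1 (enc_scale 167 50 h2))) (enc_inv (enc_sub (enc_rat _ 1 2) (enc_scale 167 50 (enc_mul (lvm_6.enc h1 h2 h3 h4) h4))))))))) (enc_mul (enc_norm (enc_sub (enc_rat _ 14331 50000) (enc_scale 38949 1000 h4))) (enc_scale 160000 29241 (enc_sq (enc_norm (enc_mul (enc_pos (enc_subr 29 400 (lvm_24.enc h1 h2 h3 h4))) (lvm_27.enc h1 h2 h3 h4))))))) (enc_mul (enc_norm (enc_subr 13849 25000 (enc_scale 1359 20 h4))) (enc_scale 10000 1681 (enc_sq (enc_norm (enc_mul (enc_pos (enc_subr 9 100 (lvm_24.enc h1 h2 h3 h4))) (lvm_27.enc h1 h2 h3 h4))))))) (enc_mul (enc_norm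 (enc_sub (enc_rat _ 5519 50000) (enc_scale 25993 1000 h4))) (enc_scale 2500 361 (enc_sq (enc_norm (enc_mul (enc_pos (enc_subr 3 25 (lvm_24.enc h1 h2 h3 h4))) (lvm_27.enc h1 h2 h3 h4))))))))))⟩
noncomputable def l1m : Fn4 := ⟨_, _, fun h1 h2 h3 h4 => (lvm.enc (enc_neg (sg1.enc h1 h3)) h2 h3 h4)⟩
noncomputable def l1m_zn : Fn7 := ⟨_, _, fun h1 h2 h3 h4 h5 h6 h7 => (enc_neg (l1m.enc h3 h5 h6 h7))⟩
noncomputable def lvp_6 : Fn4 := ⟨_, _, fun h1 h2 h3 h4 => (enc_half (enc_sqrt (enc_pnc _ 3)))⟩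
noncomputable def lvp_24 : Fn4 := ⟨_, _, fun h1 h2 h3 h4 => (enc_mul h3 (enc_norm (enc_mul (lvp_6.enc h1 h2 h3 h4) h1)))⟩
noncomputable def lvp_27 : Fn4 := ⟨_, _, fun h1 h2 h3 h4 => (enc_inv (enc_max h3 (enc_rat _ 1 100)))⟩
noncomputable def lvp : Fn4 := ⟨_, _, fun h1 h2 h3 h4 => (enc_norm (enc_mul (lmf.enc h4) (enc_norm (enc_add (enc_add (enc_add (enc_mul (enc_norm (enc_sub (enc_rat _ 64649 100000) (enc_scale 12583 1000 h4))) (enc_scale 3 4 (enc_sq (enc_norm (enc_mul (enc_pos (enc_sub h1 (enc_scale 167 50 h2))) (enc_inv (enc_sub (enc_rat _ 1 2) (enc_scale 167 50 (enc_mul (lvp_6.enc h1 h2 h3 h4) h4))))))))) (enc_mul (enc_norm (enc_subr 15187 100000 (enc_neg (enc_scale 718 125 h4)))) (enc_scale 160000 29241 (enc_sq (enc_norm (enc_mul (enc_pos (enc_subr 29 400 (lvp_24.enc h1 h2 h3 h4))) (lvp_27.enc h1 h2 h3 h4)))))))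 (enc_mul (enc_norm (enc_subr 1083 50000 (enc_scale 16679 500 h4))) (enc_scale 10000 1681 (enc_sq (enc_norm (enc_mul (enc_pos (enc_subr 9 100 (lvp_24.enc h1 h2 h3 h4))) (lvp_27.enc h1 h2 h3 h4))))))) (enc_mul (enc_norm (enc_sub (enc_rat _ 3279 6250) (enc_scale 34967 1000 h4))) (enc_scale 2500 361 (enc_sq (enc_norm (enc_mul (enc_pos (enc_subr 3 25 (lvp_24.enc h1 h2 h3 h4))) (lvp_27.enc h1 h2 h3 h4))))))))))⟩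
noncomputable def l1p : Fn4 := ⟨_, _, fun h1 h2 h3 h4 => (lvp.enc (sg1.enc h1 h3) h2 h3 h4)⟩
noncomputable def qb1 : Fn4 := ⟨_, _, fun h1 h2 h3 h4 => (enc_norm (enc_case (enc_sub (sg1.enc h1 h3) (enc_scale 167 50 h2)) (enc_pnc _ 0) (enc_mul (l1p.enc h1 h2 h3 h4) (enc_inv (enc_sub (xiw.enc h1 h3) (xi1.enc h1 h3))))))⟩
noncomputable def tcP1W_tp : Fn7 := ⟨_, _, fun h1 h2 h3 h4 h5 h6 h7 => (enc_norm (enc_sub (l1p.enc h4 h5 h6 h7) (enc_mul h1 (qb1.enc h4 h5 h6 h7))))⟩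
noncomputable def lw : Fn3 := ⟨_, _, fun h1 h2 h3 => h1⟩
noncomputable def lt : Fn3 := ⟨_, _, fun h1 h2 h3 => h3⟩
noncomputable def lnz : Fn3 := ⟨_, _, fun h1 h2 h3 => (enc_neg h2)⟩
noncomputable def ov_A_P1W_4 : Fn4 := ⟨_, _, fun h1 h2 h3 h4 => (enc_add h1 h2)⟩
noncomputable def ov_A_P1W : Fn4 := ⟨_, _, fun h1 h2 h3 h4 => (enc_norm (enc_sub (xiw.enc (enc_norm (ov_A_P1W_4.enc h1 h2 h3 h4)) h4) (xi1.enc (enc_norm (ov_A_P1W_4.enc h1 h2 h3 h4)) h4)))⟩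
noncomputable def nfn_T1 : Fn3 := ⟨_, _, fun h1 h2 h3 => (enc_norm (enc_neg (enc_mul (bef.enc h3) (enc_norm (enc_sub h2 (enc_half h1))))))⟩
noncomputable def nun_T1 : Fn3 := ⟨_, _, fun h1 h2 h3 => (enc_norm (enc_mul (enc_norm (enc_add (enc_rat _ 1 2) (bef.enc h3))) (enc_norm (enc_sub h2 (enc_half h1)))))⟩
noncomputable def bs_T1_AP1mn : Fn6 := ⟨_, _, fun h1 h2 h3 h4 h5 h6 => (enc_norm (enc_neg (enc_mul (n1f.enc h6) (enc_norm (enc_half (enc_add (enc_mul (om.enc h1 h5) (enc_norm (enc_add (enc_pnc _ 1) (enc_mul h5 h3)))) (enc_mul (enc_norm (enc_sub (zx.enc h1 h5) (xi1.enc h2 h5))) h1)))))))⟩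
noncomputable def kv_wp : Fn7 := ⟨_, _, fun h1 h2 h3 h4 h5 h6 h7 => (kv.enc h2 h5 h6 h7)⟩
noncomputable def nku_wp : Fn7 := ⟨_, _, fun h1 h2 h3 h4 h5 h6 h7 => (nkf.enc h7 (ku_wp.enc h1 h2 h3 h4 h5 h6 h7) (kv_wp.enc h1 h2 h3 h4 h5 h6 h7))⟩
noncomputable def b1m_zn : Fn7 := ⟨_, _, fun h1 h2 h3 h4 h5 h6 h7 => (enc_neg (b1m.enc h3 h5 h6 h7))⟩
noncomputable def nk1m_zn : Fn7 := ⟨_, _, fun h1 h2 h3 h4 h5 h6 h7 => (nkf.enc h7 (k1m_zn.enc h1 h2 h3 h4 h5 h6 h7) (b1m_zn.enc h1 h2 h3 h4 h5 h6 h7))⟩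
noncomputable def b1p_5 : Fn4 := ⟨_, _, fun h1 h2 h3 h4 => (kv.enc (sg1.enc h1 h3) h2 h3 h4)⟩
noncomputable def b1p : Fn4 := ⟨_, _, fun h1 h2 h3 h4 => (enc_norm (enc_sub (enc_half (b1p_5.enc h1 h2 h3 h4)) (enc_scale 3 4 (enc_mul (enc_norm (enc_mul (sg1.enc h1 h3) (ic1.enc h1 h3))) (enc_norm (enc_add (b0f.enc h4) (enc_mul h3 (b1p_5.enc h1 h2 h3 h4))))))))⟩
noncomputable def bwu : Fn4 := ⟨_, _, fun h1 h2 h3 h4 => (enc_norm (enc_add (enc_mul (b0f.enc h4) (xiw.enc h1 h3)) (enc_mul (enc_norm (enc_add (enc_rat _ 1 2) (enc_mul h3 (xiw.enc h1 h3)))) (enc_norm (enc_add (enc_scale 4367 5000 h1) (enc_add (enc_add (enc_sub (enc_scale 55587 5000 h1) (enc_scale 24269 1250 (enc_pos (enc_sub h1 (enc_half h2))))) (enc_scale 110369 15000 (enc_pos (enc_sub h1 h2)))) (enc_scale 7049 7500 (enc_pos (enc_sub h1 (enc_scale 5 2 h2))))))))))⟩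
noncomputable def s1wb_6 : Fn4 := ⟨_, _, fun h1 h2 h3 h4 => (enc_add (enc_rat _ 1 2) (dd1.enc h1 h3))⟩
noncomputable def s1wb_10 : Fn4 := ⟨_, _, fun h1 h2 h3 h4 => (enc_mul h3 h1)⟩
noncomputable def s1wb_16 : Fn4 := ⟨_, _, fun h1 h2 h3 h4 => (enc_scale 3 4 (enc_mul (enc_norm (s1wb_10.enc h1 h2 h3 h4)) (enc_inv (enc_add (enc_pnc _ 1) (qw.enc h1 h3)))))⟩
noncomputable def s1wb_20 : Fn4 := ⟨_, _, fun h1 h2 h3 h4 => (enc_mul (u1b.enc h4) (enc_norm (s1wb_6.enc h1 h2 h3 h4)))⟩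
noncomputable def s1wb : Fn4 := ⟨_, _, fun h1 h2 h3 h4 => (enc_norm (enc_case (enc_sub h1 (enc_scale 2 5 h2)) (enc_mul (enc_norm (enc_sub (enc_sub (enc_scale 29977 2500 (enc_sub (enc_rat _ 1 2) (enc_mul (enc_norm (s1wb_10.enc h1 h2 h3 h4)) (enc_norm (s1wb_16.enc h1 h2 h3 h4))))) (enc_mul (b0f.enc h4) (enc_norm (s1wb_16.enc h1 h2 h3 h4)))) (enc_sub (enc_half (s1wb_20.enc h1 h2 h3 h4)) (enc_scale 3 4 (enc_mul (enc_norm (enc_mul (enc_norm (s1wb_6.enc h1 h2 h3 h4)) (ic1.enc h1 h3))) (enc_norm (enc_add (b0f.enc h4) (enc_mul (enc_norm (s1wb_10.enc h1 h2 h3 h4)) (enc_norm (s1wb_20.enc h1 h2 h3 h4)))))))))) (enc_inv (enc_sub (dd1.enc h1 h3) (s1wb_16.enc h1 h2 h3 h4)))) (enc_mul (enc_norm (enc_sub (bwu.enc h1 h2 h3 h4) (b1p.enc h1 h2 h3 h4))) (enc_inv (enc_sub (xiw.enc h1 h3) (xi1.enc h1 h3))))))⟩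
noncomputable def tbP1W_tp : Fn7 := ⟨_, _, fun h1 h2 h3 h4 h5 h6 h7 => (enc_norm (enc_add (b1p.enc h4 h5 h6 h7) (enc_mul h1 (s1wb.enc h4 h5 h6 h7))))⟩
noncomputable def ntkP1W_tp : Fn7 := ⟨_, _, fun h1 h2 h3 h4 h5 h6 h7 => (nkf.enc h7 (tkP1W_tp.enc h1 h2 h3 h4 h5 h6 h7) (tbP1W_tp.enc h1 h2 h3 h4 h5 h6 h7))⟩
noncomputable def u_T1_A_P1p_PW5 : Fn4 := ⟨_, _, fun h1 h2 h3 h4 => (enc_norm (enc_sub (enc_sub (zx.enc h1 h4) (xi1.enc h2 h4)) (xiw.enc (enc_norm (enc_add h1 h2)) h4)))⟩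
noncomputable def bs_T1_AP1pf : Fn6 := ⟨_, _, fun h1 h2 h3 h4 h5 h6 => (enc_norm (enc_neg (enc_half (enc_add (enc_mul (om.enc h1 h5) (enc_norm (enc_add (enc_pnc _ 1) (enc_mul h5 h3)))) (enc_mul (enc_norm (enc_sub (zx.enc h1 h5) (xi1.enc h2 h5))) h1)))))⟩
noncomputable def k1p_zn : Fn7 := ⟨_, _, fun h1 h2 h3 h4 h5 h6 h7 => (enc_neg (k1p.enc h3 h5 h6 h7))⟩
noncomputable def t5k : Fn2 := ⟨_, _, fun h1 h2 => (enc_norm (enc_sub (enc_add (enc_rat _ 451 2000) (enc_scale 231 20 h1)) (enc_scale 1 400 (enc_pos (enc_subr 1 25 h1)))))⟩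
noncomputable def s_W5k_10 : Fn4 := ⟨_, _, fun h1 h2 h3 h4 => (enc_scale 3 20 (dwu.enc h1 h3))⟩
noncomputable def s_W5k : Fn4 := ⟨_, _, fun h1 h2 h3 h4 => (enc_norm (enc_mul (enc_norm (enc_sub (enc_mul (enc_norm (enc_add (enc_add (enc_rat _ 1 2) (enc_mul h3 (xiw.enc h1 h3))) (s_W5k_10.enc h1 h2 h3 h4))) (t5k.enc (enc_norm (enc_mul h3 h1)) h4)) (enc_add (enc_rat _ 1 2) (enc_mul h3 (kwu.enc h1 h2 h3 h4))))) (enc_inv (s_W5k_10.enc h1 h2 h3 h4))))⟩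
noncomputable def tkPW5_tp : Fn7 := ⟨_, _, fun h1 h2 h3 h4 h5 h6 h7 => (enc_norm (enc_add (kwu.enc h4 h5 h6 h7) (enc_mul h1 (s_W5k.enc h4 h5 h6 h7))))⟩
noncomputable def t5x : Fn2 := ⟨_, _, fun h1 h2 => (enc_norm (enc_add (enc_add (enc_subr 84283 100000 (enc_scale 1481 500 h2)) (enc_mul h1 (enc_norm (enc_subr 817 4000 (enc_scale 349 8 h2))))) (enc_mul (enc_pos (enc_subr 1 25 h1)) (enc_norm (enc_sub (enc_rat _ 1 4000) (enc_scale 1489 40 h2))))))⟩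
noncomputable def s_W5x_10 : Fn4 := ⟨_, _, fun h1 h2 h3 h4 => (enc_scale 3 20 (dwu.enc h1 h3))⟩
noncomputable def s_W5x : Fn4 := ⟨_, _, fun h1 h2 h3 h4 => (enc_norm (enc_mul (enc_norm (enc_sub (enc_mul (lmf.enc h4) (enc_norm (enc_add (enc_mul (enc_norm (enc_add (enc_add (enc_rat _ 1 2) (enc_mul h3 (xiw.enc h1 h3))) (s_W5x_10.enc h1 h2 h3 h4))) (t5x.enc (enc_norm (enc_mul h3 h1)) h4)) (enc_rat _ 1 2)))) (enc_mul h3 (xwu.enc h1 h2 h3 h4)))) (enc_inv (s_W5x_10.enc h1 h2 h3 h4))))⟩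
noncomputable def taPW5_tp : Fn7 := ⟨_, _, fun h1 h2 h3 h4 h5 h6 h7 => (enc_norm (enc_add (xwu.enc h4 h5 h6 h7) (enc_mul h1 (s_W5x.enc h4 h5 h6 h7))))⟩
noncomputable def l1p_zn : Fn7 := ⟨_, _, fun h1 h2 h3 h4 h5 h6 h7 => (enc_neg (l1p.enc h3 h5 h6 h7))⟩
noncomputable def lz : Fn3 := ⟨_, _, fun h1 h2 h3 => h2⟩
noncomputable def bs_T1_AP1pn : Fn6 := ⟨_, _, fun h1 h2 h3 h4 h5 h6 => (enc_norm (enc_neg (enc_mul (n1f.enc h6) (enc_norm (enc_half (enc_add (enc_mul (om.enc h1 h5) (enc_norm (enc_add (enc_pnc _ 1) (enc_mul h5 h3)))) (enc_mul (enc_norm (enc_sub (zx.enc h1 h5) (xi1.enc h2 h5))) h1)))))))⟩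
noncomputable def b1p_zn : Fn7 := ⟨_, _, fun h1 h2 h3 h4 h5 h6 h7 => (enc_neg (b1p.enc h3 h5 h6 h7))⟩
noncomputable def nk1p_zn : Fn7 := ⟨_, _, fun h1 h2 h3 h4 h5 h6 h7 => (nkf.enc h7 (k1p_zn.enc h1 h2 h3 h4 h5 h6 h7) (b1p_zn.enc h1 h2 h3 h4 h5 h6 h7))⟩
noncomputable def t5b : Fn2 := ⟨_, _, fun h1 h2 => (enc_norm (enc_sub (enc_rat _ 6929 5000) (enc_scale 469 40 h1)))⟩
noncomputable def s_W5b_10 : Fn4 := ⟨_, _, fun h1 h2 h3 h4 => (enc_scale 3 20 (dwu.enc h1 h3))⟩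
noncomputable def s_W5b : Fn4 := ⟨_, _, fun h1 h2 h3 h4 => (enc_norm (enc_mul (enc_norm (enc_sub (enc_mul (enc_norm (enc_add (enc_add (enc_rat _ 1 2) (enc_mul h3 (xiw.enc h1 h3))) (s_W5b_10.enc h1 h2 h3 h4))) (t5b.enc (enc_norm (enc_mul h3 h1)) h4)) (enc_add (enc_half (b0f.enc h4)) (enc_mul h3 (bwu.enc h1 h2 h3 h4))))) (enc_inv (s_W5b_10.enc h1 h2 h3 h4))))⟩
noncomputable def tbPW5_tp : Fn7 := ⟨_, _, fun h1 h2 h3 h4 h5 h6 h7 => (enc_norm (enc_add (bwu.enc h4 h5 h6 h7) (enc_mul h1 (s_W5b.enc h4 h5 h6 h7))))⟩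
noncomputable def ntkPW5_tp : Fn7 := ⟨_, _, fun h1 h2 h3 h4 h5 h6 h7 => (nkf.enc h7 (tkPW5_tp.enc h1 h2 h3 h4 h5 h6 h7) (tbPW5_tp.enc h1 h2 h3 h4 h5 h6 h7))⟩
noncomputable def u_T1_A_PW_PW5 : Fn4 := ⟨_, _, fun h1 h2 h3 h4 => (enc_norm (enc_sub (enc_sub (zx.enc h1 h4) (xiw.enc h2 h4)) (xiw.enc (enc_norm (enc_add h1 h2)) h4)))⟩
noncomputable def bs_T1_APWf : Fn6 := ⟨_, _, fun h1 h2 h3 h4 h5 h6 => (enc_norm (enc_neg (enc_half (enc_add (enc_mul (om.enc h1 h5) (enc_norm (enc_add (enc_pnc _ 1) (enc_mul h5 h3)))) (enc_mul (enc_norm (enc_sub (zx.enc h1 h5) (xiw.enc h2 h5))) h1)))))⟩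
noncomputable def kwu_zn : Fn7 := ⟨_, _, fun h1 h2 h3 h4 h5 h6 h7 => (enc_neg (kwu.enc h3 h5 h6 h7))⟩
noncomputable def xwu_zn : Fn7 := ⟨_, _, fun h1 h2 h3 h4 h5 h6 h7 => (enc_neg (xwu.enc h3 h5 h6 h7))⟩
noncomputable def bs_T1_APWn : Fn6 := ⟨_, _, fun h1 h2 h3 h4 h5 h6 => (enc_norm (enc_neg (enc_mul (n1f.enc h6) (enc_norm (enc_half (enc_add (enc_mul (om.enc h1 h5) (enc_norm (enc_add (enc_pnc _ 1) (enc_mul h5 h3)))) (enc_mul (enc_norm (enc_sub (zx.enc h1 h5) (xiw.enc h2 h5))) h1)))))))⟩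
noncomputable def bwu_zn : Fn7 := ⟨_, _, fun h1 h2 h3 h4 h5 h6 h7 => (enc_neg (bwu.enc h3 h5 h6 h7))⟩
noncomputable def nkwu_zn : Fn7 := ⟨_, _, fun h1 h2 h3 h4 h5 h6 h7 => (nkf.enc h7 (kwu_zn.enc h1 h2 h3 h4 h5 h6 h7) (bwu_zn.enc h1 h2 h3 h4 h5 h6 h7))⟩
noncomputable def u_T1_B_P1p_P12 : Fn4 := ⟨_, _, fun h1 h2 h3 h4 => (enc_norm (enc_sub (enc_sub (zx.enc h1 h4) (xi1.enc (enc_norm (enc_add h1 h2)) h4)) (xi1.enc h2 h4)))⟩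
noncomputable def bs_T1_BP1pf : Fn6 := ⟨_, _, fun h1 h2 h3 h4 h5 h6 => (enc_norm (enc_neg (enc_half (enc_add (enc_mul (om.enc h1 h5) (enc_norm (enc_add (enc_pnc _ 1) (enc_mul h5 h3)))) (enc_mul (xi1.enc h3 h5) h1)))))⟩
noncomputable def t1k : Fn2 := ⟨_, _, fun h1 h2 => (enc_norm (enc_sub (enc_rat _ 2981 5000) (enc_scale 1791 400 h1)))⟩
noncomputable def s_12k_11 : Fn4 := ⟨_, _, fun h1 h2 h3 h4 => (enc_scale 1 5 (dwl.enc h1 h3))⟩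
noncomputable def s_12k : Fn4 := ⟨_, _, fun h1 h2 h3 h4 => (enc_norm (enc_mul (enc_norm (enc_sub (enc_mul (enc_norm (enc_add (enc_add (enc_rat _ 1 2) (enc_mul h3 (xi1.enc h1 h3))) (s_12k_11.enc h1 h2 h3 h4))) (t1k.enc (enc_norm (enc_neg (enc_mul h3 h1))) h4)) (enc_add (enc_rat _ 1 2) (enc_mul h3 (k1m.enc h1 h2 h3 h4))))) (enc_inv (s_12k_11.enc h1 h2 h3 h4))))⟩
noncomputable def tkP12_zn : Fn7 := ⟨_, _, fun h1 h2 h3 h4 h5 h6 h7 => (enc_norm (enc_neg (enc_add (k1m.enc h3 h5 h6 h7) (enc_mul h1 (s_12k.enc h3 h5 h6 h7)))))⟩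
noncomputable def k1p_tp : Fn7 := ⟨_, _, fun h1 h2 h3 h4 h5 h6 h7 => (k1p.enc h4 h5 h6 h7)⟩
noncomputable def t1x : Fn2 := ⟨_, _, fun h1 h2 => (enc_norm (enc_add (enc_add (enc_subr 80349 100000 (enc_scale 669 250 h2)) (enc_mul h1 (enc_norm (enc_sub (enc_rat _ 263 400) (enc_scale 371 10 h2))))) (enc_mul (enc_pos (enc_subr 1 25 h1)) (enc_norm (enc_subr 17 25 (enc_scale 447 40 h2))))))⟩
noncomputable def s_12x_11 : Fn4 := ⟨_, _, fun h1 h2 h3 h4 => (enc_scale 1 5 (dwl.enc h1 h3))⟩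
noncomputable def s_12x : Fn4 := ⟨_, _, fun h1 h2 h3 h4 => (enc_norm (enc_mul (enc_norm (enc_mul (lmf.enc h4) (enc_norm (enc_add (enc_mul (enc_norm (enc_add (enc_add (enc_rat _ 1 2) (enc_mul h3 (xi1.enc h1 h3))) (s_12x_11.enc h1 h2 h3 h4))) (t1x.enc (enc_norm (enc_neg (enc_mul h3 h1))) h4)) (enc_rat _ 1 2))))) (enc_inv (s_12x_11.enc h1 h2 h3 h4))))⟩
noncomputable def taP12_zn : Fn7 := ⟨_, _, fun h1 h2 h3 h4 h5 h6 h7 => (enc_norm (enc_neg (enc_mul h1 (s_12x.enc h3 h5 h6 h7))))⟩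
noncomputable def tcP12_zn : Fn7 := ⟨_, _, fun h1 h2 h3 h4 h5 h6 h7 => (enc_norm (enc_sub (enc_mul h1 (enc_norm (enc_mul (enc_norm (enc_mul h6 (l1m.enc h3 h5 h6 h7))) (enc_inv (enc_scale 1 5 (dwl.enc h3 h6)))))) (l1m.enc h3 h5 h6 h7)))⟩
noncomputable def l1p_tp : Fn7 := ⟨_, _, fun h1 h2 h3 h4 h5 h6 h7 => (l1p.enc h4 h5 h6 h7)⟩
noncomputable def bs_T1_BP1pn : Fn6 := ⟨_, _, fun h1 h2 h3 h4 h5 h6 => (enc_norm (enc_neg (enc_mul (n1f.enc h6) (enc_norm (enc_half (enc_add (enc_mul (om.enc h1 h5) (enc_norm (enc_add (enc_pnc _ 1) (enc_mul h5 h3)))) (enc_mul (xi1.enc h3 h5) h1)))))))⟩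
noncomputable def t1b : Fn2 := ⟨_, _, fun h1 h2 => (enc_norm (enc_add (enc_sub (enc_rat _ 12483 10000) (enc_scale 993 200 h1)) (enc_scale 1 400 (enc_pos (enc_subr 1 25 h1)))))⟩
noncomputable def s_12b_11 : Fn4 := ⟨_, _, fun h1 h2 h3 h4 => (enc_scale 1 5 (dwl.enc h1 h3))⟩
noncomputable def s_12b : Fn4 := ⟨_, _, fun h1 h2 h3 h4 => (enc_norm (enc_mul (enc_norm (enc_sub (enc_mul (enc_norm (enc_add (enc_add (enc_rat _ 1 2) (enc_mul h3 (xi1.enc h1 h3))) (s_12b_11.enc h1 h2 h3 h4))) (t1b.enc (enc_norm (enc_neg (enc_mul h3 h1))) h4)) (enc_add (enc_half (b0f.enc h4)) (enc_mul h3 (b1m.enc h1 h2 h3 h4))))) (enc_inv (s_12b_11.enc h1 h2 h3 h4))))⟩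
noncomputable def tbP12_zn : Fn7 := ⟨_, _, fun h1 h2 h3 h4 h5 h6 h7 => (enc_norm (enc_neg (enc_add (b1m.enc h3 h5 h6 h7) (enc_mul h1 (s_12b.enc h3 h5 h6 h7)))))⟩
noncomputable def ntkP12_zn : Fn7 := ⟨_, _, fun h1 h2 h3 h4 h5 h6 h7 => (nkf.enc h7 (tkP12_zn.enc h1 h2 h3 h4 h5 h6 h7) (tbP12_zn.enc h1 h2 h3 h4 h5 h6 h7))⟩
noncomputable def b1p_tp : Fn7 := ⟨_, _, fun h1 h2 h3 h4 h5 h6 h7 => (b1p.enc h4 h5 h6 h7)⟩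
noncomputable def nk1p_tp : Fn7 := ⟨_, _, fun h1 h2 h3 h4 h5 h6 h7 => (nkf.enc h7 (k1p_tp.enc h1 h2 h3 h4 h5 h6 h7) (b1p_tp.enc h1 h2 h3 h4 h5 h6 h7))⟩
noncomputable def u_T1_B_P1p_PW5 : Fn4 := ⟨_, _, fun h1 h2 h3 h4 => (enc_norm (enc_sub (enc_sub (zx.enc h1 h4) (xi1.enc (enc_norm (enc_add h1 h2)) h4)) (xiw.enc h2 h4)))⟩
noncomputable def tkPW5_zn : Fn7 := ⟨_, _, fun h1 h2 h3 h4 h5 h6 h7 => (enc_norm (enc_neg (enc_add (kwu.enc h3 h5 h6 h7) (enc_mul h1 (s_W5k.enc h3 h5 h6 h7)))))⟩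
noncomputable def taPW5_zn : Fn7 := ⟨_, _, fun h1 h2 h3 h4 h5 h6 h7 => (enc_norm (enc_neg (enc_add (xwu.enc h3 h5 h6 h7) (enc_mul h1 (s_W5x.enc h3 h5 h6 h7)))))⟩
noncomputable def tbPW5_zn : Fn7 := ⟨_, _, fun h1 h2 h3 h4 h5 h6 h7 => (enc_norm (enc_neg (enc_add (bwu.enc h3 h5 h6 h7) (enc_mul h1 (s_W5b.enc h3 h5 h6 h7)))))⟩
noncomputable def ntkPW5_zn : Fn7 := ⟨_, _, fun h1 h2 h3 h4 h5 h6 h7 => (nkf.enc h7 (tkPW5_zn.enc h1 h2 h3 h4 h5 h6 h7) (tbPW5_zn.enc h1 h2 h3 h4 h5 h6 h7))⟩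
noncomputable def u_T1_B_PW_PW5 : Fn4 := ⟨_, _, fun h1 h2 h3 h4 => (enc_norm (enc_sub (enc_sub (zx.enc h1 h4) (xiw.enc (enc_norm (enc_add h1 h2)) h4)) (xiw.enc h2 h4)))⟩
noncomputable def bs_T1_BPWf : Fn6 := ⟨_, _, fun h1 h2 h3 h4 h5 h6 => (enc_norm (enc_neg (enc_half (enc_add (enc_mul (om.enc h1 h5) (enc_norm (enc_add (enc_pnc _ 1) (enc_mul h5 h3)))) (enc_mul (xiw.enc h3 h5) h1)))))⟩
noncomputable def kwu_tp : Fn7 := ⟨_, _, fun h1 h2 h3 h4 h5 h6 h7 => (kwu.enc h4 h5 h6 h7)⟩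
noncomputable def xwu_tp : Fn7 := ⟨_, _, fun h1 h2 h3 h4 h5 h6 h7 => (xwu.enc h4 h5 h6 h7)⟩
noncomputable def bs_T1_BPWn : Fn6 := ⟨_, _, fun h1 h2 h3 h4 h5 h6 => (enc_norm (enc_neg (enc_mul (n1f.enc h6) (enc_norm (enc_half (enc_add (enc_mul (om.enc h1 h5) (enc_norm (enc_add (enc_pnc _ 1) (enc_mul h5 h3)))) (enc_mul (xiw.enc h3 h5) h1)))))))⟩
noncomputable def bwu_tp : Fn7 := ⟨_, _, fun h1 h2 h3 h4 h5 h6 h7 => (bwu.enc h4 h5 h6 h7)⟩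
noncomputable def nkwu_tp : Fn7 := ⟨_, _, fun h1 h2 h3 h4 h5 h6 h7 => (nkf.enc h7 (kwu_tp.enc h1 h2 h3 h4 h5 h6 h7) (bwu_tp.enc h1 h2 h3 h4 h5 h6 h7))⟩
noncomputable def u_T2_A_QW_PW5 : Fn4 := ⟨_, _, fun h1 h2 h3 h4 => (enc_norm (enc_sub (enc_sub (xiw.enc h2 h4) (zx.enc h1 h4)) (xiw.enc (enc_norm (enc_add h1 h2)) h4)))⟩
noncomputable def nff_T2 : Fn3 := ⟨_, _, fun h1 h2 h3 => (enc_norm (enc_neg (enc_add h2 (enc_half h1))))⟩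
noncomputable def nuf_T2 : Fn3 := ⟨_, _, fun h1 h2 h3 => (enc_norm (enc_scale 3 2 (enc_add h2 (enc_half h1))))⟩
noncomputable def bs_T2_AQWf : Fn6 := ⟨_, _, fun h1 h2 h3 h4 h5 h6 => (enc_norm (enc_neg (enc_half (enc_add (enc_mul (om.enc h1 h5) (enc_norm (enc_add (enc_pnc _ 1) (enc_mul h5 h3)))) (enc_mul (enc_norm (enc_sub (zx.enc h1 h5) (xiw.enc h2 h5))) h1)))))⟩
noncomputable def kwl_4 : Fn4 := ⟨_, _, fun h1 h2 h3 h4 => (enc_neg h1)⟩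
noncomputable def kwl : Fn4 := ⟨_, _, fun h1 h2 h3 h4 => (enc_norm (enc_add (xiw.enc h1 h3) (enc_mul (enc_norm (enc_add (enc_rat _ 3 2) (enc_mul h3 (xiw.enc h1 h3)))) (enc_norm (enc_add (enc_nat 6 h1) (enc_add (enc_sub (enc_sub (enc_neg (enc_scale 21447 5000 h1)) (enc_scale 4719 5000 (enc_pos (enc_sub (kwl_4.enc h1 h2 h3 h4) (enc_half h2))))) (enc_scale 29453 5000 (enc_pos (enc_sub (kwl_4.enc h1 h2 h3 h4) h2)))) (enc_scale 509 200 (enc_pos (enc_sub (kwl_4.enc h1 h2 h3 h4) (enc_scale 5 2 h2))))))))))⟩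
noncomputable def kwl_zn : Fn7 := ⟨_, _, fun h1 h2 h3 h4 h5 h6 h7 => (enc_neg (kwl.enc h3 h5 h6 h7))⟩
noncomputable def tkPW5_tn : Fn7 := ⟨_, _, fun h1 h2 h3 h4 h5 h6 h7 => (enc_norm (enc_neg (enc_add (kwu.enc h4 h5 h6 h7) (enc_mul h1 (s_W5k.enc h4 h5 h6 h7)))))⟩
noncomputable def xwl : Fn4 := ⟨_, _, fun h1 h2 h3 h4 => (enc_norm (enc_neg (enc_mul (enc_scale 559 2000 (lmf.enc h4)) (enc_pos (enc_sub (enc_neg h1) (enc_scale 5 2 h2))))))⟩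
noncomputable def xwl_zn : Fn7 := ⟨_, _, fun h1 h2 h3 h4 h5 h6 h7 => (enc_neg (xwl.enc h3 h5 h6 h7))⟩
noncomputable def taPW5_tn : Fn7 := ⟨_, _, fun h1 h2 h3 h4 h5 h6 h7 => (enc_norm (enc_neg (enc_add (xwu.enc h4 h5 h6 h7) (enc_mul h1 (s_W5x.enc h4 h5 h6 h7)))))⟩
noncomputable def nfn_T2 : Fn3 := ⟨_, _, fun h1 h2 h3 => (enc_norm (enc_neg (enc_mul (bef.enc h3) (enc_norm (enc_add h2 (enc_half h1))))))⟩
noncomputable def nun_T2 : Fn3 := ⟨_, _, fun h1 h2 h3 => (enc_norm (enc_mul (enc_norm (enc_add (enc_rat _ 1 2) (bef.enc h3))) (enc_norm (enc_add h2 (enc_half h1)))))⟩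
noncomputable def bs_T2_AQWn : Fn6 := ⟨_, _, fun h1 h2 h3 h4 h5 h6 => (enc_norm (enc_neg (enc_mul (n1f.enc h6) (enc_norm (enc_half (enc_add (enc_mul (om.enc h1 h5) (enc_norm (enc_add (enc_pnc _ 1) (enc_mul h5 h3)))) (enc_mul (enc_norm (enc_sub (zx.enc h1 h5) (xiw.enc h2 h5))) h1)))))))⟩
noncomputable def bwl_4 : Fn4 := ⟨_, _, fun h1 h2 h3 h4 => (enc_neg h1)⟩
noncomputable def bwl : Fn4 := ⟨_, _, fun h1 h2 h3 h4 => (enc_norm (enc_add (enc_mul (b0f.enc h4) (xiw.enc h1 h3)) (enc_mul (enc_norm (enc_add (enc_rat _ 3 2) (enc_mul h3 (xiw.enc h1 h3)))) (enc_norm (enc_sub (enc_sub (enc_add (enc_sub (enc_neg (enc_scale 51331 5000 h1)) (enc_scale 66087 2500 (enc_pos (enc_sub (bwl_4.enc h1 h2 h3 h4) (enc_half h2))))) (enc_scale 272041 15000 (enc_pos (enc_sub (bwl_4.enc h1 h2 h3 h4) h2)))) (enc_scale 3689 1875 (enc_pos (enc_sub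 (bwl_4.enc h1 h2 h3 h4) (enc_scale 5 2 h2))))) (enc_scale 40881 10000 h1))))))⟩
noncomputable def bwl_zn : Fn7 := ⟨_, _, fun h1 h2 h3 h4 h5 h6 h7 => (enc_neg (bwl.enc h3 h5 h6 h7))⟩
noncomputable def nkwl_zn : Fn7 := ⟨_, _, fun h1 h2 h3 h4 h5 h6 h7 => (nkf.enc h7 (kwl_zn.enc h1 h2 h3 h4 h5 h6 h7) (bwl_zn.enc h1 h2 h3 h4 h5 h6 h7))⟩
noncomputable def tbPW5_tn : Fn7 := ⟨_, _, fun h1 h2 h3 h4 h5 h6 h7 => (enc_norm (enc_neg (enc_add (bwu.enc h4 h5 h6 h7) (enc_mul h1 (s_W5b.enc h4 h5 h6 h7)))))⟩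
noncomputable def ntkPW5_tn : Fn7 := ⟨_, _, fun h1 h2 h3 h4 h5 h6 h7 => (nkf.enc h7 (tkPW5_tn.enc h1 h2 h3 h4 h5 h6 h7) (tbPW5_tn.enc h1 h2 h3 h4 h5 h6 h7))⟩
noncomputable def u_T2_A_Q3m_P12 : Fn4 := ⟨_, _, fun h1 h2 h3 h4 => (enc_norm (enc_sub (enc_sub (xi3.enc h2 h4) (zx.enc h1 h4)) (xi1.enc (enc_norm (enc_add h1 h2)) h4)))⟩
noncomputable def bs_T2_AQ3mf : Fn6 := ⟨_, _, fun h1 h2 h3 h4 h5 h6 => (enc_norm (enc_neg (enc_half (enc_add (enc_mul (om.enc h1 h5) (enc_norm (enc_add (enc_pnc _ 1) (enc_mul h5 h3)))) (enc_mul (enc_norm (enc_sub (zx.enc h1 h5) (xi3.enc h2 h5))) h1)))))⟩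
noncomputable def sg3 : Fn2 := ⟨_, _, fun h1 h2 => (enc_norm (enc_mul h1 (enc_norm (enc_add (enc_rat _ 1 2) (enc_scale 1 3 (dd3.enc h1 h2))))))⟩
noncomputable def ic3 : Fn2 := ⟨_, _, fun h1 h2 => (enc_inv (enc_add (enc_pnc _ 1) (enc_add (enc_half (cc3.enc h1 h2)) (enc_scale 1 4 (enc_add (enc_pnc _ 1) (enc_mul h2 h1))))))⟩
noncomputable def k3m_6 : Fn4 := ⟨_, _, fun h1 h2 h3 h4 => (ku.enc (enc_neg (sg3.enc h1 h3)) h2 h3 h4)⟩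
noncomputable def k3m : Fn4 := ⟨_, _, fun h1 h2 h3 h4 => (enc_norm (enc_sub (enc_scale 3 2 (k3m_6.enc h1 h2 h3 h4)) (enc_scale 3 4 (enc_mul (enc_norm (enc_mul (sg3.enc h1 h3) (ic3.enc h1 h3))) (enc_norm (enc_add (enc_pnc _ 1) (enc_mul h3 (k3m_6.enc h1 h2 h3 h4))))))))⟩
noncomputable def k3m_zn : Fn7 := ⟨_, _, fun h1 h2 h3 h4 h5 h6 h7 => (enc_neg (k3m.enc h3 h5 h6 h7))⟩
noncomputable def tkP12_tn : Fn7 := ⟨_, _, fun h1 h2 h3 h4 h5 h6 h7 => (enc_norm (enc_neg (enc_add (k1m.enc h4 h5 h6 h7) (enc_mul h1 (s_12k.enc h4 h5 h6 h7)))))⟩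
noncomputable def taP12_tn : Fn7 := ⟨_, _, fun h1 h2 h3 h4 h5 h6 h7 => (enc_norm (enc_neg (enc_mul h1 (s_12x.enc h4 h5 h6 h7))))⟩
noncomputable def lvn : Fn4 := ⟨_, _, fun h1 h2 h3 h4 => (enc_norm (enc_mul (lmf.enc h4) (enc_norm (enc_mul (enc_norm (enc_sub (enc_rat _ 4289 4000) (enc_scale 30309 1000 h4))) (enc_scale 3 4 (enc_sq (enc_norm (enc_mul (enc_pos (enc_sub h1 (enc_scale 167 50 h2))) (enc_inv (enc_sub (enc_rat _ 1 2) (enc_scale 167 50 (enc_mul (enc_half (enc_sqrt (enc_pnc _ 3))) h4))))))))))))⟩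
noncomputable def l3m : Fn4 := ⟨_, _, fun h1 h2 h3 h4 => (lvn.enc (enc_neg (sg3.enc h1 h3)) h2 h3 h4)⟩
noncomputable def l3m_zn : Fn7 := ⟨_, _, fun h1 h2 h3 h4 h5 h6 h7 => (enc_neg (l3m.enc h3 h5 h6 h7))⟩
noncomputable def tcP12_tn : Fn7 := ⟨_, _, fun h1 h2 h3 h4 h5 h6 h7 => (enc_norm (enc_sub (enc_mul h1 (enc_norm (enc_mul (enc_norm (enc_mul h6 (l1m.enc h4 h5 h6 h7))) (enc_inv (enc_scale 1 5 (dwl.enc h4 h6)))))) (l1m.enc h4 h5 h6 h7)))⟩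
noncomputable def lnt : Fn3 := ⟨_, _, fun h1 h2 h3 => (enc_neg h3)⟩
noncomputable def bs_T2_AQ3mn : Fn6 := ⟨_, _, fun h1 h2 h3 h4 h5 h6 => (enc_norm (enc_neg (enc_mul (n1f.enc h6) (enc_norm (enc_half (enc_add (enc_mul (om.enc h1 h5) (enc_norm (enc_add (enc_pnc _ 1) (enc_mul h5 h3)))) (enc_mul (enc_norm (enc_sub (zx.enc h1 h5) (xi3.enc h2 h5))) h1)))))))⟩
noncomputable def b3m_6 : Fn4 := ⟨_, _, fun h1 h2 h3 h4 => (kv.enc (enc_neg (sg3.enc h1 h3)) h2 h3 h4)⟩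
noncomputable def b3m : Fn4 := ⟨_, _, fun h1 h2 h3 h4 => (enc_norm (enc_sub (enc_scale 3 2 (b3m_6.enc h1 h2 h3 h4)) (enc_scale 3 4 (enc_mul (enc_norm (enc_mul (sg3.enc h1 h3) (ic3.enc h1 h3))) (enc_norm (enc_add (b0f.enc h4) (enc_mul h3 (b3m_6.enc h1 h2 h3 h4))))))))⟩
noncomputable def b3m_zn : Fn7 := ⟨_, _, fun h1 h2 h3 h4 h5 h6 h7 => (enc_neg (b3m.enc h3 h5 h6 h7))⟩
noncomputable def nk3m_zn : Fn7 := ⟨_, _, fun h1 h2 h3 h4 h5 h6 h7 => (nkf.enc h7 (k3m_zn.enc h1 h2 h3 h4 h5 h6 h7) (b3m_zn.enc h1 h2 h3 h4 h5 h6 h7))⟩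
noncomputable def tbP12_tn : Fn7 := ⟨_, _, fun h1 h2 h3 h4 h5 h6 h7 => (enc_norm (enc_neg (enc_add (b1m.enc h4 h5 h6 h7) (enc_mul h1 (s_12b.enc h4 h5 h6 h7)))))⟩
noncomputable def ntkP12_tn : Fn7 := ⟨_, _, fun h1 h2 h3 h4 h5 h6 h7 => (nkf.enc h7 (tkP12_tn.enc h1 h2 h3 h4 h5 h6 h7) (tbP12_tn.enc h1 h2 h3 h4 h5 h6 h7))⟩
noncomputable def u_T2_A_Q3m_PW5 : Fn4 := ⟨_, _, fun h1 h2 h3 h4 => (enc_norm (enc_sub (enc_sub (xi3.enc h2 h4) (zx.enc h1 h4)) (xiw.enc (enc_norm (enc_add h1 h2)) h4)))⟩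
noncomputable def u_T2_A_Q3p_P1W : Fn4 := ⟨_, _, fun h1 h2 h3 h4 => (enc_norm (enc_sub (enc_sub (xi3.enc h2 h4) (zx.enc h1 h4)) (xi1.enc (enc_norm (enc_add h1 h2)) h4)))⟩
noncomputable def bs_T2_AQ3pf : Fn6 := ⟨_, _, fun h1 h2 h3 h4 h5 h6 => (enc_norm (enc_neg (enc_half (enc_add (enc_mul (om.enc h1 h5) (enc_norm (enc_add (enc_pnc _ 1) (enc_mul h5 h3)))) (enc_mul (enc_norm (enc_sub (zx.enc h1 h5) (xi3.enc h2 h5))) h1)))))⟩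
noncomputable def k3p_5 : Fn4 := ⟨_, _, fun h1 h2 h3 h4 => (ku.enc (sg3.enc h1 h3) h2 h3 h4)⟩
noncomputable def k3p : Fn4 := ⟨_, _, fun h1 h2 h3 h4 => (enc_norm (enc_sub (enc_scale 3 2 (k3p_5.enc h1 h2 h3 h4)) (enc_scale 3 4 (enc_mul (enc_norm (enc_mul (sg3.enc h1 h3) (ic3.enc h1 h3))) (enc_norm (enc_add (enc_pnc _ 1) (enc_mul h3 (k3p_5.enc h1 h2 h3 h4))))))))⟩
noncomputable def k3p_zn : Fn7 := ⟨_, _, fun h1 h2 h3 h4 h5 h6 h7 => (enc_neg (k3p.enc h3 h5 h6 h7))⟩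
noncomputable def tkP1W_tn : Fn7 := ⟨_, _, fun h1 h2 h3 h4 h5 h6 h7 => (enc_norm (enc_neg (enc_add (k1p.enc h4 h5 h6 h7) (enc_mul h1 (s1wk.enc h4 h5 h6 h7)))))⟩
noncomputable def taP1W_tn : Fn7 := ⟨_, _, fun h1 h2 h3 h4 h5 h6 h7 => (enc_norm (enc_neg (enc_mul h1 (qa1.enc h4 h5 h6 h7))))⟩
noncomputable def lvq : Fn4 := ⟨_, _, fun h1 h2 h3 h4 => (enc_norm (enc_mul (lmf.enc h4) (enc_norm (enc_mul (enc_norm (enc_sub (enc_rat _ 75293 50000) (enc_scale 34029 1000 h4))) (enc_scale 3 4 (enc_sq (enc_norm (enc_mul (enc_pos (enc_sub h1 (enc_scale 167 50 h2))) (enc_inv (enc_sub (enc_rat _ 1 2) (enc_scale 167 50 (enc_mul (enc_half (enc_sqrt (enc_pnc _ 3))) h4))))))))))))⟩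
noncomputable def l3p : Fn4 := ⟨_, _, fun h1 h2 h3 h4 => (lvq.enc (sg3.enc h1 h3) h2 h3 h4)⟩
noncomputable def l3p_zn : Fn7 := ⟨_, _, fun h1 h2 h3 h4 h5 h6 h7 => (enc_neg (l3p.enc h3 h5 h6 h7))⟩
noncomputable def tcP1W_tn : Fn7 := ⟨_, _, fun h1 h2 h3 h4 h5 h6 h7 => (enc_norm (enc_sub (enc_mul h1 (qb1.enc h4 h5 h6 h7)) (l1p.enc h4 h5 h6 h7)))⟩
noncomputable def bs_T2_AQ3pn : Fn6 := ⟨_, _, fun h1 h2 h3 h4 h5 h6 => (enc_norm (enc_neg (enc_mul (n1f.enc h6) (enc_norm (enc_half (enc_add (enc_mul (om.enc h1 h5) (enc_norm (enc_add (enc_pnc _ 1) (enc_mul h5 h3)))) (enc_mul (enc_norm (enc_sub (zx.enc h1 h5) (xi3.enc h2 h5))) h1)))))))⟩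
noncomputable def b3p_5 : Fn4 := ⟨_, _, fun h1 h2 h3 h4 => (kv.enc (sg3.enc h1 h3) h2 h3 h4)⟩
noncomputable def b3p : Fn4 := ⟨_, _, fun h1 h2 h3 h4 => (enc_norm (enc_sub (enc_scale 3 2 (b3p_5.enc h1 h2 h3 h4)) (enc_scale 3 4 (enc_mul (enc_norm (enc_mul (sg3.enc h1 h3) (ic3.enc h1 h3))) (enc_norm (enc_add (b0f.enc h4) (enc_mul h3 (b3p_5.enc h1 h2 h3 h4))))))))⟩
noncomputable def b3p_zn : Fn7 := ⟨_, _, fun h1 h2 h3 h4 h5 h6 h7 => (enc_neg (b3p.enc h3 h5 h6 h7))⟩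
noncomputable def nk3p_zn : Fn7 := ⟨_, _, fun h1 h2 h3 h4 h5 h6 h7 => (nkf.enc h7 (k3p_zn.enc h1 h2 h3 h4 h5 h6 h7) (b3p_zn.enc h1 h2 h3 h4 h5 h6 h7))⟩
noncomputable def tbP1W_tn : Fn7 := ⟨_, _, fun h1 h2 h3 h4 h5 h6 h7 => (enc_norm (enc_neg (enc_add (b1p.enc h4 h5 h6 h7) (enc_mul h1 (s1wb.enc h4 h5 h6 h7)))))⟩
noncomputable def ntkP1W_tn : Fn7 := ⟨_, _, fun h1 h2 h3 h4 h5 h6 h7 => (nkf.enc h7 (tkP1W_tn.enc h1 h2 h3 h4 h5 h6 h7) (tbP1W_tn.enc h1 h2 h3 h4 h5 h6 h7))⟩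
noncomputable def u_T2_A_Q3p_PW5 : Fn4 := ⟨_, _, fun h1 h2 h3 h4 => (enc_norm (enc_sub (enc_sub (xi3.enc h2 h4) (zx.enc h1 h4)) (xiw.enc (enc_norm (enc_add h1 h2)) h4)))⟩
noncomputable def u_T2_B_P1m_QW3 : Fn4 := ⟨_, _, fun h1 h2 h3 h4 => (enc_norm (enc_sub (xi3.enc h2 h4) (enc_add (zx.enc h1 h4) (xi1.enc (enc_norm (enc_add h1 h2)) h4))))⟩
noncomputable def bs_T2_BP1mf : Fn6 := ⟨_, _, fun h1 h2 h3 h4 h5 h6 => (enc_norm (enc_neg (enc_half (enc_sub (enc_mul (om.enc h1 h5) (enc_norm (enc_add (enc_pnc _ 1) (enc_mul h5 h3)))) (enc_mul (xi1.enc h3 h5) h1)))))⟩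
noncomputable def sw3k_8 : Fn4 := ⟨_, _, fun h1 h2 h3 h4 => (enc_add (enc_rat _ 1 2) (enc_scale 1 3 (dd3.enc h1 h3)))⟩
noncomputable def sw3k_12 : Fn4 := ⟨_, _, fun h1 h2 h3 h4 => (enc_mul h3 h1)⟩
noncomputable def sw3k_20 : Fn4 := ⟨_, _, fun h1 h2 h3 h4 => (enc_scale 3 4 (enc_mul (enc_norm (sw3k_12.enc h1 h2 h3 h4)) (enc_inv (enc_add (enc_pnc _ 1) (qw.enc h1 h3)))))⟩
noncomputable def sw3k_25 : Fn4 := ⟨_, _, fun h1 h2 h3 h4 => (enc_mul (enc_scale 109997 100000 (enc_sqrt (enc_pnc _ 3))) (enc_norm (sw3k_8.enc h1 h2 h3 h4)))⟩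
noncomputable def sw3k : Fn4 := ⟨_, _, fun h1 h2 h3 h4 => (enc_norm (enc_case (enc_sub (enc_neg h1) (enc_scale 2 5 h2)) (enc_mul (enc_norm (enc_sub (enc_sub (enc_scale 3 4 (enc_mul (enc_norm (enc_mul (enc_norm (sw3k_8.enc h1 h2 h3 h4)) (ic3.enc h1 h3))) (enc_norm (enc_add (enc_pnc _ 1) (enc_mul (enc_norm (sw3k_12.enc h1 h2 h3 h4)) (enc_norm (sw3k_25.enc h1 h2 h3 h4))))))) (enc_scale 3 2 (sw3k_25.enc h1 h2 h3 h4))) (enc_sub (sw3k_20.enc h1 h2 h3 h4) (enc_scale 8553 5000 (enc_sub (enc_rat _ 3 2) (enc_mul (enc_norm (sw3k_12.enc h1 h2 h3 h4)) (enc_norm (sw3k_20.enc h1 h2 h3 h4)))))))) (enc_inv (enc_sub (dd3.enc h1 h3) (sw3k_20.enc h1 h2 h3 h4)))) (enc_mul (enc_norm (enc_sub (k3m.enc h1 h2 h3 h4) (kwl.enc h1 h2 h3 h4))) (enc_inv (enc_sub (xi3.enc h1 h3) (xiw.enc h1 h3))))))⟩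
noncomputable def tkQW3_zn : Fn7 := ⟨_, _, fun h1 h2 h3 h4 h5 h6 h7 => (enc_norm (enc_sub (enc_mul h1 (sw3k.enc h3 h5 h6 h7)) (k3m.enc h3 h5 h6 h7)))⟩
noncomputable def k1m_tn : Fn7 := ⟨_, _, fun h1 h2 h3 h4 h5 h6 h7 => (enc_neg (k1m.enc h4 h5 h6 h7))⟩
noncomputable def qa3 : Fn4 := ⟨_, _, fun h1 h2 h3 h4 => (enc_norm (enc_case (enc_sub (enc_neg h1) (enc_scale 5 2 h2)) (enc_pnc _ 0) (enc_mul (xwl.enc h1 h2 h3 h4) (enc_inv (enc_sub (xi3.enc h1 h3) (xiw.enc h1 h3))))))⟩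
noncomputable def taQW3_zn : Fn7 := ⟨_, _, fun h1 h2 h3 h4 h5 h6 h7 => (enc_norm (enc_neg (enc_mul h1 (qa3.enc h3 h5 h6 h7))))⟩
noncomputable def qb3 : Fn4 := ⟨_, _, fun h1 h2 h3 h4 => (enc_norm (enc_case (enc_sub (enc_neg (sg3.enc h1 h3)) (enc_scale 167 50 h2)) (enc_pnc _ 0) (enc_mul (l3m.enc h1 h2 h3 h4) (enc_inv (enc_sub (xi3.enc h1 h3) (xiw.enc h1 h3))))))⟩
noncomputable def tcQW3_zn : Fn7 := ⟨_, _, fun h1 h2 h3 h4 h5 h6 h7 => (enc_norm (enc_sub (enc_mul h1 (qb3.enc h3 h5 h6 h7)) (l3m.enc h3 h5 h6 h7)))⟩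
noncomputable def l1m_tn : Fn7 := ⟨_, _, fun h1 h2 h3 h4 h5 h6 h7 => (enc_neg (l1m.enc h4 h5 h6 h7))⟩
noncomputable def ov_B_QW3 : Fn4 := ⟨_, _, fun h1 h2 h3 h4 => (enc_norm (enc_sub (xi3.enc h2 h4) (xiw.enc h2 h4)))⟩
noncomputable def bs_T2_BP1mn : Fn6 := ⟨_, _, fun h1 h2 h3 h4 h5 h6 => (enc_norm (enc_neg (enc_mul (n1f.enc h6) (enc_norm (enc_half (enc_sub (enc_mul (om.enc h1 h5) (enc_norm (enc_add (enc_pnc _ 1) (enc_mul h5 h3)))) (enc_mul (xi1.enc h3 h5) h1)))))))⟩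
noncomputable def sw3b_8 : Fn4 := ⟨_, _, fun h1 h2 h3 h4 => (enc_add (enc_rat _ 1 2) (enc_scale 1 3 (dd3.enc h1 h3)))⟩
noncomputable def sw3b_12 : Fn4 := ⟨_, _, fun h1 h2 h3 h4 => (enc_mul h3 h1)⟩
noncomputable def sw3b_20 : Fn4 := ⟨_, _, fun h1 h2 h3 h4 => (enc_scale 3 4 (enc_mul (enc_norm (sw3b_12.enc h1 h2 h3 h4)) (enc_inv (enc_add (enc_pnc _ 1) (qw.enc h1 h3)))))⟩
noncomputable def sw3b_25 : Fn4 := ⟨_, _, fun h1 h2 h3 h4 => (enc_mul (u1b.enc h4) (enc_norm (sw3b_8.enc h1 h2 h3 h4)))⟩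
noncomputable def sw3b : Fn4 := ⟨_, _, fun h1 h2 h3 h4 => (enc_norm (enc_case (enc_sub (enc_neg h1) (enc_scale 2 5 h2)) (enc_mul (enc_norm (enc_sub (enc_add (enc_scale 3 2 (sw3b_25.enc h1 h2 h3 h4)) (enc_scale 3 4 (enc_mul (enc_norm (enc_mul (enc_norm (sw3b_8.enc h1 h2 h3 h4)) (ic3.enc h1 h3))) (enc_norm (enc_sub (b0f.enc h4) (enc_mul (enc_norm (sw3b_12.enc h1 h2 h3 h4)) (enc_norm (sw3b_25.enc h1 h2 h3 h4)))))))) (enc_add (enc_mul (b0f.enc h4) (enc_norm (sw3b_20.enc h1 h2 h3 h4))) (enc_scale 143543 10000 (enc_sub (enc_rat _ 3 2) (enc_mul (enc_norm (sw3b_12.enc h1 h2 h3 h4)) (enc_norm (sw3b_20.enc h1 h2 h3 h4)))))))) (enc_inv (enc_sub (dd3.enc h1 h3) (sw3b_20.enc h1 h2 h3 h4)))) (enc_mul (enc_norm (enc_sub (b3m.enc h1 h2 h3 h4) (bwl.enc h1 h2 h3 h4))) (enc_inv (enc_sub (xi3.enc h1 h3) (xiw.enc h1 h3))))))⟩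
noncomputable def tbQW3_zn : Fn7 := ⟨_, _, fun h1 h2 h3 h4 h5 h6 h7 => (enc_norm (enc_sub (enc_mul h1 (sw3b.enc h3 h5 h6 h7)) (b3m.enc h3 h5 h6 h7)))⟩
noncomputable def ntkQW3_zn : Fn7 := ⟨_, _, fun h1 h2 h3 h4 h5 h6 h7 => (nkf.enc h7 (tkQW3_zn.enc h1 h2 h3 h4 h5 h6 h7) (tbQW3_zn.enc h1 h2 h3 h4 h5 h6 h7))⟩
noncomputable def b1m_tn : Fn7 := ⟨_, _, fun h1 h2 h3 h4 h5 h6 h7 => (enc_neg (b1m.enc h4 h5 h6 h7))⟩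
noncomputable def nk1m_tn : Fn7 := ⟨_, _, fun h1 h2 h3 h4 h5 h6 h7 => (nkf.enc h7 (k1m_tn.enc h1 h2 h3 h4 h5 h6 h7) (b1m_tn.enc h1 h2 h3 h4 h5 h6 h7))⟩
noncomputable def u_T2_B_P1p_Q6W : Fn4 := ⟨_, _, fun h1 h2 h3 h4 => (enc_norm (enc_sub (xiw.enc h2 h4) (enc_add (zx.enc h1 h4) (xi1.enc (enc_norm (enc_add h1 h2)) h4))))⟩
noncomputable def bs_T2_BP1pf : Fn6 := ⟨_, _, fun h1 h2 h3 h4 h5 h6 => (enc_norm (enc_neg (enc_half (enc_sub (enc_mul (om.enc h1 h5) (enc_norm (enc_add (enc_pnc _ 1) (enc_mul h5 h3)))) (enc_mul (xi1.enc h3 h5) h1)))))⟩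
noncomputable def t2k : Fn2 := ⟨_, _, fun h1 h2 => (enc_norm (enc_add (enc_sub (enc_rat _ 1857 10000) (enc_scale 287 200 h1)) (enc_scale 1 400 (enc_pos (enc_subr 1 25 h1)))))⟩
noncomputable def s_6Wk_11 : Fn4 := ⟨_, _, fun h1 h2 h3 h4 => (enc_scale 2 5 (dwl.enc h1 h3))⟩
noncomputable def s_6Wk : Fn4 := ⟨_, _, fun h1 h2 h3 h4 => (enc_norm (enc_mul (enc_norm (enc_sub (enc_add (enc_rat _ 3 2) (enc_mul h3 (kwl.enc h1 h2 h3 h4))) (enc_mul (enc_norm (enc_sub (enc_add (enc_rat _ 3 2) (enc_mul h3 (xiw.enc h1 h3))) (s_6Wk_11.enc h1 h2 h3 h4))) (t2k.enc (enc_norm (enc_neg (enc_mul h3 h1))) h4)))) (enc_inv (s_6Wk_11.enc h1 h2 h3 h4))))⟩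
noncomputable def tkQ6W_zn : Fn7 := ⟨_, _, fun h1 h2 h3 h4 h5 h6 h7 => (enc_norm (enc_sub (enc_mul h1 (s_6Wk.enc h3 h5 h6 h7)) (kwl.enc h3 h5 h6 h7)))⟩
noncomputable def k1p_tn : Fn7 := ⟨_, _, fun h1 h2 h3 h4 h5 h6 h7 => (enc_neg (k1p.enc h4 h5 h6 h7))⟩
noncomputable def t2x : Fn2 := ⟨_, _, fun h1 h2 => (enc_norm (enc_add (enc_add (enc_subr 102219 100000 (enc_neg (enc_scale 77 25 h2))) (enc_mul h1 (enc_norm (enc_sub (enc_rat _ 2437 1000) (enc_scale 1191 20 h2))))) (enc_mul (enc_pos (enc_subr 1 25 h1)) (enc_norm (enc_subr 1297 800 (enc_scale 1853 20 h2))))))⟩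
noncomputable def s_6Wx_11 : Fn4 := ⟨_, _, fun h1 h2 h3 h4 => (enc_scale 2 5 (dwl.enc h1 h3))⟩
noncomputable def s_6Wx : Fn4 := ⟨_, _, fun h1 h2 h3 h4 => (enc_norm (enc_mul (enc_norm (enc_sub (enc_mul h3 (xwl.enc h1 h2 h3 h4)) (enc_mul (lmf.enc h4) (enc_norm (enc_add (enc_mul (enc_norm (enc_sub (enc_add (enc_rat _ 3 2) (enc_mul h3 (xiw.enc h1 h3))) (s_6Wx_11.enc h1 h2 h3 h4))) (t2x.enc (enc_norm (enc_neg (enc_mul h3 h1))) h4)) (enc_rat _ 3 2)))))) (enc_inv (s_6Wx_11.enc h1 h2 h3 h4))))⟩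
noncomputable def taQ6W_zn : Fn7 := ⟨_, _, fun h1 h2 h3 h4 h5 h6 h7 => (enc_norm (enc_sub (enc_mul h1 (s_6Wx.enc h3 h5 h6 h7)) (xwl.enc h3 h5 h6 h7)))⟩
noncomputable def l1p_tn : Fn7 := ⟨_, _, fun h1 h2 h3 h4 h5 h6 h7 => (enc_neg (l1p.enc h4 h5 h6 h7))⟩
noncomputable def bs_T2_BP1pn : Fn6 := ⟨_, _, fun h1 h2 h3 h4 h5 h6 => (enc_norm (enc_neg (enc_mul (n1f.enc h6) (enc_norm (enc_half (enc_sub (enc_mul (om.enc h1 h5) (enc_norm (enc_add (enc_pnc _ 1) (enc_mul h5 h3)))) (enc_mul (xi1.enc h3 h5) h1)))))))⟩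
noncomputable def t2b : Fn2 := ⟨_, _, fun h1 h2 => (enc_norm (enc_sub (enc_rat _ 14411 5000) (enc_scale 2957 200 h1)))⟩
noncomputable def s_6Wb_11 : Fn4 := ⟨_, _, fun h1 h2 h3 h4 => (enc_scale 2 5 (dwl.enc h1 h3))⟩
noncomputable def s_6Wb : Fn4 := ⟨_, _, fun h1 h2 h3 h4 => (enc_norm (enc_mul (enc_norm (enc_sub (enc_add (enc_scale 3 2 (b0f.enc h4)) (enc_mul h3 (bwl.enc h1 h2 h3 h4))) (enc_mul (enc_norm (enc_sub (enc_add (enc_rat _ 3 2) (enc_mul h3 (xiw.enc h1 h3))) (s_6Wb_11.enc h1 h2 h3 h4))) (t2b.enc (enc_norm (enc_neg (enc_mul h3 h1))) h4)))) (enc_inv (s_6Wb_11.enc h1 h2 h3 h4))))⟩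
noncomputable def tbQ6W_zn : Fn7 := ⟨_, _, fun h1 h2 h3 h4 h5 h6 h7 => (enc_norm (enc_sub (enc_mul h1 (s_6Wb.enc h3 h5 h6 h7)) (bwl.enc h3 h5 h6 h7)))⟩
noncomputable def ntkQ6W_zn : Fn7 := ⟨_, _, fun h1 h2 h3 h4 h5 h6 h7 => (nkf.enc h7 (tkQ6W_zn.enc h1 h2 h3 h4 h5 h6 h7) (tbQ6W_zn.enc h1 h2 h3 h4 h5 h6 h7))⟩
noncomputable def b1p_tn : Fn7 := ⟨_, _, fun h1 h2 h3 h4 h5 h6 h7 => (enc_neg (b1p.enc h4 h5 h6 h7))⟩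
noncomputable def nk1p_tn : Fn7 := ⟨_, _, fun h1 h2 h3 h4 h5 h6 h7 => (nkf.enc h7 (k1p_tn.enc h1 h2 h3 h4 h5 h6 h7) (b1p_tn.enc h1 h2 h3 h4 h5 h6 h7))⟩
noncomputable def u_T2_B_P1p_Q63 : Fn4 := ⟨_, _, fun h1 h2 h3 h4 => (enc_norm (enc_sub (xi3.enc h2 h4) (enc_add (zx.enc h1 h4) (xi1.enc (enc_norm (enc_add h1 h2)) h4))))⟩
noncomputable def t6k : Fn2 := ⟨_, _, fun h1 h2 => (enc_norm (enc_sub (enc_rat _ 357 625) (enc_scale 13 50 h1)))⟩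
noncomputable def s_63k_10 : Fn4 := ⟨_, _, fun h1 h2 h3 h4 => (enc_scale 2 5 (dwu.enc h1 h3))⟩
noncomputable def s_63k : Fn4 := ⟨_, _, fun h1 h2 h3 h4 => (enc_norm (enc_mul (enc_norm (enc_sub (enc_add (enc_rat _ 3 2) (enc_mul h3 (k3p.enc h1 h2 h3 h4))) (enc_mul (enc_norm (enc_sub (enc_add (enc_rat _ 3 2) (enc_mul h3 (xi3.enc h1 h3))) (s_63k_10.enc h1 h2 h3 h4))) (t6k.enc (enc_norm (enc_mul h3 h1)) h4)))) (enc_inv (s_63k_10.enc h1 h2 h3 h4))))⟩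
noncomputable def tkQ63_zn : Fn7 := ⟨_, _, fun h1 h2 h3 h4 h5 h6 h7 => (enc_norm (enc_sub (enc_mul h1 (s_63k.enc h3 h5 h6 h7)) (k3p.enc h3 h5 h6 h7)))⟩
noncomputable def t6x : Fn2 := ⟨_, _, fun h1 h2 => (enc_norm (enc_add (enc_add (enc_subr 20753 20000 (enc_neg (enc_scale 727 250 h2))) (enc_mul h1 (enc_norm (enc_subr 1407 4000 (enc_scale 1593 40 h2))))) (enc_mul (enc_pos (enc_subr 1 25 h1)) (enc_norm (enc_sub (enc_rat _ 1451 4000) (enc_scale 1293 20 h2))))))⟩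
noncomputable def s_63x_10 : Fn4 := ⟨_, _, fun h1 h2 h3 h4 => (enc_scale 2 5 (dwu.enc h1 h3))⟩
noncomputable def s_63x : Fn4 := ⟨_, _, fun h1 h2 h3 h4 => (enc_norm (enc_neg (enc_mul (enc_norm (enc_mul (lmf.enc h4) (enc_norm (enc_add (enc_mul (enc_norm (enc_sub (enc_add (enc_rat _ 3 2) (enc_mul h3 (xi3.enc h1 h3))) (s_63x_10.enc h1 h2 h3 h4))) (t6x.enc (enc_norm (enc_mul h3 h1)) h4)) (enc_rat _ 3 2))))) (enc_inv (s_63x_10.enc h1 h2 h3 h4)))))⟩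
noncomputable def taQ63_zn : Fn7 := ⟨_, _, fun h1 h2 h3 h4 h5 h6 h7 => (enc_norm (enc_mul h1 (s_63x.enc h3 h5 h6 h7)))⟩
noncomputable def tcQ63_zn : Fn7 := ⟨_, _, fun h1 h2 h3 h4 h5 h6 h7 => (enc_norm (enc_sub (enc_mul h1 (enc_norm (enc_mul (enc_norm (enc_mul h6 (l3p.enc h3 h5 h6 h7))) (enc_inv (enc_scale 2 5 (dwu.enc h3 h6)))))) (l3p.enc h3 h5 h6 h7)))⟩
noncomputable def t6b : Fn2 := ⟨_, _, fun h1 h2 => (enc_norm (enc_add (enc_sub (enc_rat _ 13217 10000) (enc_scale 2221 400 h1)) (enc_scale 1 400 (enc_pos (enc_subr 1 25 h1)))))⟩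
noncomputable def s_63b_10 : Fn4 := ⟨_, _, fun h1 h2 h3 h4 => (enc_scale 2 5 (dwu.enc h1 h3))⟩
noncomputable def s_63b : Fn4 := ⟨_, _, fun h1 h2 h3 h4 => (enc_norm (enc_mul (enc_norm (enc_sub (enc_add (enc_scale 3 2 (b0f.enc h4)) (enc_mul h3 (b3p.enc h1 h2 h3 h4))) (enc_mul (enc_norm (enc_sub (enc_add (enc_rat _ 3 2) (enc_mul h3 (xi3.enc h1 h3))) (s_63b_10.enc h1 h2 h3 h4))) (t6b.enc (enc_norm (enc_mul h3 h1)) h4)))) (enc_inv (s_63b_10.enc h1 h2 h3 h4))))⟩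
noncomputable def tbQ63_zn : Fn7 := ⟨_, _, fun h1 h2 h3 h4 h5 h6 h7 => (enc_norm (enc_sub (enc_mul h1 (s_63b.enc h3 h5 h6 h7)) (b3p.enc h3 h5 h6 h7)))⟩
noncomputable def ntkQ63_zn : Fn7 := ⟨_, _, fun h1 h2 h3 h4 h5 h6 h7 => (nkf.enc h7 (tkQ63_zn.enc h1 h2 h3 h4 h5 h6 h7) (tbQ63_zn.enc h1 h2 h3 h4 h5 h6 h7))⟩
noncomputable def u_T2_B_PW_Q6W : Fn4 := ⟨_, _, fun h1 h2 h3 h4 => (enc_norm (enc_sub (xiw.enc h2 h4) (enc_add (zx.enc h1 h4) (xiw.enc (enc_norm (enc_add h1 h2)) h4))))⟩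
noncomputable def bs_T2_BPWf : Fn6 := ⟨_, _, fun h1 h2 h3 h4 h5 h6 => (enc_norm (enc_neg (enc_half (enc_sub (enc_mul (om.enc h1 h5) (enc_norm (enc_add (enc_pnc _ 1) (enc_mul h5 h3)))) (enc_mul (xiw.enc h3 h5) h1)))))⟩
noncomputable def kwu_tn : Fn7 := ⟨_, _, fun h1 h2 h3 h4 h5 h6 h7 => (enc_neg (kwu.enc h4 h5 h6 h7))⟩
noncomputable def xwu_tn : Fn7 := ⟨_, _, fun h1 h2 h3 h4 h5 h6 h7 => (enc_neg (xwu.enc h4 h5 h6 h7))⟩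
noncomputable def bs_T2_BPWn : Fn6 := ⟨_, _, fun h1 h2 h3 h4 h5 h6 => (enc_norm (enc_neg (enc_mul (n1f.enc h6) (enc_norm (enc_half (enc_sub (enc_mul (om.enc h1 h5) (enc_norm (enc_add (enc_pnc _ 1) (enc_mul h5 h3)))) (enc_mul (xiw.enc h3 h5) h1)))))))⟩
noncomputable def bwu_tn : Fn7 := ⟨_, _, fun h1 h2 h3 h4 h5 h6 h7 => (enc_neg (bwu.enc h4 h5 h6 h7))⟩
noncomputable def nkwu_tn : Fn7 := ⟨_, _, fun h1 h2 h3 h4 h5 h6 h7 => (nkf.enc h7 (kwu_tn.enc h1 h2 h3 h4 h5 h6 h7) (bwu_tn.enc h1 h2 h3 h4 h5 h6 h7))⟩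
noncomputable def u_T2_B_PW_Q63 : Fn4 := ⟨_, _, fun h1 h2 h3 h4 => (enc_norm (enc_sub (xi3.enc h2 h4) (enc_add (zx.enc h1 h4) (xiw.enc (enc_norm (enc_add h1 h2)) h4))))⟩
noncomputable def u_T2p_A_P1p_Q63 : Fn4 := ⟨_, _, fun h1 h2 h3 h4 => (enc_norm (enc_sub (xi3.enc (enc_norm (enc_add h1 h2)) h4) (enc_add (zx.enc h1 h4) (xi1.enc h2 h4))))⟩
noncomputable def nff_T2p : Fn3 := ⟨_, _, fun h1 h2 h3 => (enc_norm (enc_sub (enc_scale 3 2 h1) h2))⟩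
noncomputable def nuf_T2p : Fn3 := ⟨_, _, fun h1 h2 h3 => (enc_norm (enc_scale 3 2 (enc_sub h2 (enc_scale 3 2 h1))))⟩
noncomputable def bs_T2p_AP1pf : Fn6 := ⟨_, _, fun h1 h2 h3 h4 h5 h6 => (enc_norm (enc_neg (enc_half (enc_add (enc_mul (om.enc h1 h5) (enc_norm (enc_add (enc_pnc _ 1) (enc_mul h5 h3)))) (enc_mul (enc_norm (enc_add (zx.enc h1 h5) (xi1.enc h2 h5))) h1)))))⟩
noncomputable def k1p_zp : Fn7 := ⟨_, _, fun h1 h2 h3 h4 h5 h6 h7 => (k1p.enc h3 h5 h6 h7)⟩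
noncomputable def tkQ63_tp : Fn7 := ⟨_, _, fun h1 h2 h3 h4 h5 h6 h7 => (enc_norm (enc_sub (k3p.enc h4 h5 h6 h7) (enc_mul h1 (s_63k.enc h4 h5 h6 h7))))⟩
noncomputable def taQ63_tp : Fn7 := ⟨_, _, fun h1 h2 h3 h4 h5 h6 h7 => (enc_norm (enc_neg (enc_mul h1 (s_63x.enc h4 h5 h6 h7))))⟩
noncomputable def l1p_zp : Fn7 := ⟨_, _, fun h1 h2 h3 h4 h5 h6 h7 => (l1p.enc h3 h5 h6 h7)⟩
noncomputable def tcQ63_tp : Fn7 := ⟨_, _, fun h1 h2 h3 h4 h5 h6 h7 => (enc_norm (enc_sub (l3p.enc h4 h5 h6 h7) (enc_mul h1 (enc_norm (enc_mul (enc_norm (enc_mul h6 (l3p.enc h4 h5 h6 h7))) (enc_inv (enc_scale 2 5 (dwu.enc h4 h6))))))))⟩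
noncomputable def nfn_T2p : Fn3 := ⟨_, _, fun h1 h2 h3 => (enc_norm (enc_neg (enc_mul (bef.enc h3) (enc_norm (enc_sub h2 (enc_scale 3 2 h1))))))⟩
noncomputable def nun_T2p : Fn3 := ⟨_, _, fun h1 h2 h3 => (enc_norm (enc_mul (enc_norm (enc_add (enc_rat _ 1 2) (bef.enc h3))) (enc_norm (enc_sub h2 (enc_scale 3 2 h1)))))⟩
noncomputable def bs_T2p_AP1pn : Fn6 := ⟨_, _, fun h1 h2 h3 h4 h5 h6 => (enc_norm (enc_neg (enc_mul (n1f.enc h6) (enc_norm (enc_half (enc_add (enc_mul (om.enc h1 h5) (enc_norm (enc_add (enc_pnc _ 1) (enc_mul h5 h3)))) (enc_mul (enc_norm (enc_add (zx.enc h1 h5) (xi1.enc h2 h5))) h1)))))))⟩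
noncomputable def b1p_zp : Fn7 := ⟨_, _, fun h1 h2 h3 h4 h5 h6 h7 => (b1p.enc h3 h5 h6 h7)⟩
noncomputable def nk1p_zp : Fn7 := ⟨_, _, fun h1 h2 h3 h4 h5 h6 h7 => (nkf.enc h7 (k1p_zp.enc h1 h2 h3 h4 h5 h6 h7) (b1p_zp.enc h1 h2 h3 h4 h5 h6 h7))⟩
noncomputable def tbQ63_tp : Fn7 := ⟨_, _, fun h1 h2 h3 h4 h5 h6 h7 => (enc_norm (enc_sub (b3p.enc h4 h5 h6 h7) (enc_mul h1 (s_63b.enc h4 h5 h6 h7))))⟩
noncomputable def ntkQ63_tp : Fn7 := ⟨_, _, fun h1 h2 h3 h4 h5 h6 h7 => (nkf.enc h7 (tkQ63_tp.enc h1 h2 h3 h4 h5 h6 h7) (tbQ63_tp.enc h1 h2 h3 h4 h5 h6 h7))⟩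
noncomputable def u_T2p_B_Q3p_P1W : Fn4 := ⟨_, _, fun h1 h2 h3 h4 => (enc_norm (enc_sub (enc_sub (xi3.enc (enc_norm (enc_add h1 h2)) h4) (zx.enc h1 h4)) (xi1.enc h2 h4)))⟩
noncomputable def bs_T2p_BQ3pf : Fn6 := ⟨_, _, fun h1 h2 h3 h4 h5 h6 => (enc_norm (enc_neg (enc_half (enc_add (enc_mul (om.enc h1 h5) (enc_norm (enc_add (enc_pnc _ 1) (enc_mul h5 h3)))) (enc_mul (xi3.enc h3 h5) h1)))))⟩
noncomputable def tkP1W_zp : Fn7 := ⟨_, _, fun h1 h2 h3 h4 h5 h6 h7 => (enc_norm (enc_add (k1p.enc h3 h5 h6 h7) (enc_mul h1 (s1wk.enc h3 h5 h6 h7))))⟩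
noncomputable def k3p_tp : Fn7 := ⟨_, _, fun h1 h2 h3 h4 h5 h6 h7 => (k3p.enc h4 h5 h6 h7)⟩
noncomputable def taP1W_zp : Fn7 := ⟨_, _, fun h1 h2 h3 h4 h5 h6 h7 => (enc_norm (enc_mul h1 (qa1.enc h3 h5 h6 h7)))⟩
noncomputable def tcP1W_zp : Fn7 := ⟨_, _, fun h1 h2 h3 h4 h5 h6 h7 => (enc_norm (enc_sub (l1p.enc h3 h5 h6 h7) (enc_mul h1 (qb1.enc h3 h5 h6 h7))))⟩
noncomputable def l3p_tp : Fn7 := ⟨_, _, fun h1 h2 h3 h4 h5 h6 h7 => (l3p.enc h4 h5 h6 h7)⟩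
noncomputable def ov_B_P1W : Fn4 := ⟨_, _, fun h1 h2 h3 h4 => (enc_norm (enc_sub (xiw.enc h2 h4) (xi1.enc h2 h4)))⟩
noncomputable def bs_T2p_BQ3pn : Fn6 := ⟨_, _, fun h1 h2 h3 h4 h5 h6 => (enc_norm (enc_neg (enc_mul (n1f.enc h6) (enc_norm (enc_half (enc_add (enc_mul (om.enc h1 h5) (enc_norm (enc_add (enc_pnc _ 1) (enc_mul h5 h3)))) (enc_mul (xi3.enc h3 h5) h1)))))))⟩
noncomputable def tbP1W_zp : Fn7 := ⟨_, _, fun h1 h2 h3 h4 h5 h6 h7 => (enc_norm (enc_add (b1p.enc h3 h5 h6 h7) (enc_mul h1 (s1wb.enc h3 h5 h6 h7))))⟩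
noncomputable def ntkP1W_zp : Fn7 := ⟨_, _, fun h1 h2 h3 h4 h5 h6 h7 => (nkf.enc h7 (tkP1W_zp.enc h1 h2 h3 h4 h5 h6 h7) (tbP1W_zp.enc h1 h2 h3 h4 h5 h6 h7))⟩
noncomputable def b3p_tp : Fn7 := ⟨_, _, fun h1 h2 h3 h4 h5 h6 h7 => (b3p.enc h4 h5 h6 h7)⟩
noncomputable def nk3p_tp : Fn7 := ⟨_, _, fun h1 h2 h3 h4 h5 h6 h7 => (nkf.enc h7 (k3p_tp.enc h1 h2 h3 h4 h5 h6 h7) (b3p_tp.enc h1 h2 h3 h4 h5 h6 h7))⟩
noncomputable def u_T1_U_P1p_O1W : Fn4 := ⟨_, _, fun h1 h2 h3 h4 => (enc_norm (enc_sub (enc_add (xi1.enc (enc_norm (enc_add h1 h2)) h4) (xi1.enc h2 h4)) (zx.enc h1 h4)))⟩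
noncomputable def nu0 : Fn3 := ⟨_, _, fun h1 h2 h3 => (enc_pnc _ 0)⟩
noncomputable def bs_T1_Uf : Fn6 := ⟨_, _, fun h1 h2 h3 h4 h5 h6 => (enc_norm (enc_sub (enc_half (enc_sub (enc_mul h3 (enc_norm (enc_add (xi1.enc h3 h5) (xi1.enc h2 h5)))) (enc_mul h1 (xi1.enc h3 h5)))) (enc_half (enc_add (enc_add (enc_sq (xi1.enc h3 h5)) (enc_sq (xi1.enc h2 h5))) (enc_scale 3 4 (enc_add (enc_sq h3) (enc_sq h2)))))))⟩
noncomputable def s0wk_5 : Fn4 := ⟨_, _, fun h1 h2 h3 h4 => (dd1.enc (enc_neg h1) h3)⟩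
noncomputable def s0wk_9 : Fn4 := ⟨_, _, fun h1 h2 h3 h4 => (enc_mul h3 h1)⟩
noncomputable def s0wk : Fn4 := ⟨_, _, fun h1 h2 h3 h4 => (enc_norm (enc_case (enc_sub h1 (enc_scale 2 5 h2)) (enc_mul (enc_norm (enc_add (enc_sub (s0wk_5.enc h1 h2 h3 h4) (enc_scale 5793 2500 (enc_add (enc_pnc _ 1) (enc_mul (enc_norm (s0wk_9.enc h1 h2 h3 h4)) (s0wk_5.enc h1 h2 h3 h4))))) (enc_scale 109997 100000 (enc_sqrt (enc_pnc _ 3))))) (enc_inv (enc_add (s0wk_5.enc h1 h2 h3 h4) (enc_scale 3 4 (enc_mul (enc_norm (s0wk_9.enc h1 h2 h3 h4)) (enc_inv (enc_add (enc_pnc _ 1) (qw.enc h1 h3)))))))) (enc_mul (enc_norm (enc_sub (kw0.enc h1 h2 h3 h4) (ku.enc h1 h2 h3 h4))) (enc_inv (enc_sub (xw0p.enc h1 h3) (zx.enc h1 h3))))))⟩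
noncomputable def tkO1W_wp : Fn7 := ⟨_, _, fun h1 h2 h3 h4 h5 h6 h7 => (enc_norm (enc_add (ku.enc h2 h5 h6 h7) (enc_mul h1 (s0wk.enc h2 h5 h6 h7))))⟩
noncomputable def xw0 : Fn4 := ⟨_, _, fun h1 h2 h3 h4 => (enc_norm (enc_mul (enc_scale 1 50 (lmf.enc h4)) (enc_pos (enc_sub h1 (enc_scale 5 2 h2)))))⟩
noncomputable def qa0 : Fn4 := ⟨_, _, fun h1 h2 h3 h4 => (enc_norm (enc_case (enc_sub h1 (enc_scale 5 2 h2)) (enc_pnc _ 0) (enc_mul (xw0.enc h1 h2 h3 h4) (enc_inv (enc_sub (xw0p.enc h1 h3) (zx.enc h1 h3))))))⟩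
noncomputable def taO1W_wp : Fn7 := ⟨_, _, fun h1 h2 h3 h4 h5 h6 h7 => (enc_norm (enc_mul h1 (qa0.enc h2 h5 h6 h7)))⟩
noncomputable def qb0 : Fn4 := ⟨_, _, fun h1 h2 h3 h4 => (enc_norm (enc_case (enc_sub h1 (enc_scale 167 50 h2)) (enc_pnc _ 0) (enc_mul (lva.enc h1 h2 h3 h4) (enc_inv (enc_sub (xw0p.enc h1 h3) (zx.enc h1 h3))))))⟩
noncomputable def tcO1W_wp : Fn7 := ⟨_, _, fun h1 h2 h3 h4 h5 h6 h7 => (enc_norm (enc_sub (lva.enc h2 h5 h6 h7) (enc_mul h1 (qb0.enc h2 h5 h6 h7))))⟩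
noncomputable def ov_U_O1W : Fn4 := ⟨_, _, fun h1 h2 h3 h4 => (enc_norm (enc_sub (xw0p.enc h1 h4) (zx.enc h1 h4)))⟩
noncomputable def u_T1_U_P1p_O1w : Fn4 := ⟨_, _, fun h1 h2 h3 h4 => (enc_norm (enc_sub (xw0p.enc h1 h4) (enc_add (xi1.enc (enc_norm (enc_add h1 h2)) h4) (xi1.enc h2 h4))))⟩
noncomputable def tkO1w_wp : Fn7 := ⟨_, _, fun h1 h2 h3 h4 h5 h6 h7 => (enc_norm (enc_sub (kw0.enc h2 h5 h6 h7) (enc_mul h1 (s0wk.enc h2 h5 h6 h7))))⟩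
noncomputable def taO1w_wp : Fn7 := ⟨_, _, fun h1 h2 h3 h4 h5 h6 h7 => (enc_norm (enc_sub (xw0.enc h2 h5 h6 h7) (enc_mul h1 (qa0.enc h2 h5 h6 h7))))⟩
noncomputable def tcO1w_wp : Fn7 := ⟨_, _, fun h1 h2 h3 h4 h5 h6 h7 => (enc_norm (enc_mul h1 (qb0.enc h2 h5 h6 h7)))⟩
noncomputable def ov_U_O1w : Fn4 := ⟨_, _, fun h1 h2 h3 h4 => (enc_norm (enc_sub (xw0p.enc h1 h4) (zx.enc h1 h4)))⟩
noncomputable def bs_T1_Un : Fn6 := ⟨_, _, fun h1 h2 h3 h4 h5 h6 => (enc_norm (enc_add (enc_mul (n1f.enc h6) (enc_norm (enc_sub (enc_half (enc_sub (enc_mul h3 (enc_norm (enc_add (xi1.enc h3 h5) (xi1.enc h2 h5)))) (enc_mul h1 (xi1.enc h3 h5)))) (enc_half (enc_add (enc_add (enc_sq (xi1.enc h3 h5)) (enc_sq (xi1.enc h2 h5))) (enc_scale 3 4 (enc_add (enc_sq h3) (enc_sq h2)))))))) (enc_mul (enc_norm (enc_mul (enc_norm (enc_mul (mu.enc h6)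 (lmf.enc h6))) (enc_norm (enc_mul h4 (enc_norm (enc_mul (qo.enc h6) (enc_inv (enc_nat 2 (eh.enc h6))))))))) (enc_norm (enc_sub h3 (enc_half h1))))))⟩
noncomputable def s0wb_5 : Fn4 := ⟨_, _, fun h1 h2 h3 h4 => (dd1.enc (enc_neg h1) h3)⟩
noncomputable def s0wb_9 : Fn4 := ⟨_, _, fun h1 h2 h3 h4 => (enc_mul h3 h1)⟩
noncomputable def s0wb : Fn4 := ⟨_, _, fun h1 h2 h3 h4 => (enc_norm (enc_case (enc_sub h1 (enc_scale 2 5 h2)) (enc_mul (enc_norm (enc_sub (enc_add (enc_mul (b0f.enc h4) (s0wb_5.enc h1 h2 h3 h4)) (enc_scale 2223 2500 (enc_add (enc_pnc _ 1) (enc_mul (enc_norm (s0wb_9.enc h1 h2 h3 h4)) (s0wb_5.enc h1 h2 h3 h4))))) (u1b.enc h4))) (enc_inv (enc_add (s0wb_5.enc h1 h2 h3 h4) (enc_scale 3 4 (enc_mul (enc_norm (s0wb_9.enc h1 h2 h3 h4)) (enc_inv (enc_add (enc_pnc _ 1) (qw.enc h1 h3)))))))) (enc_mul (enc_norm (enc_sub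 (bw0.enc h1 h2 h3 h4) (kv.enc h1 h2 h3 h4))) (enc_inv (enc_sub (xw0p.enc h1 h3) (zx.enc h1 h3))))))⟩
noncomputable def tbO1W_wp : Fn7 := ⟨_, _, fun h1 h2 h3 h4 h5 h6 h7 => (enc_norm (enc_add (kv.enc h2 h5 h6 h7) (enc_mul h1 (s0wb.enc h2 h5 h6 h7))))⟩
noncomputable def ntkO1W_wp : Fn7 := ⟨_, _, fun h1 h2 h3 h4 h5 h6 h7 => (nkf.enc h7 (tkO1W_wp.enc h1 h2 h3 h4 h5 h6 h7) (tbO1W_wp.enc h1 h2 h3 h4 h5 h6 h7))⟩
noncomputable def tbO1w_wp : Fn7 := ⟨_, _, fun h1 h2 h3 h4 h5 h6 h7 => (enc_norm (enc_sub (bw0.enc h2 h5 h6 h7) (enc_mul h1 (s0wb.enc h2 h5 h6 h7))))⟩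
noncomputable def ntkO1w_wp : Fn7 := ⟨_, _, fun h1 h2 h3 h4 h5 h6 h7 => (nkf.enc h7 (tkO1w_wp.enc h1 h2 h3 h4 h5 h6 h7) (tbO1w_wp.enc h1 h2 h3 h4 h5 h6 h7))⟩
noncomputable def u_T1_U_P1m_OWq : Fn4 := ⟨_, _, fun h1 h2 h3 h4 => (enc_norm (enc_sub (enc_add (xi1.enc (enc_norm (enc_add h1 h2)) h4) (xi1.enc h2 h4)) (xw0p.enc h1 h4)))⟩
noncomputable def hbk : Fn2 := ⟨_, _, fun h1 h2 => (enc_norm (enc_add (enc_sub (enc_add (enc_sub (enc_scale 8437 5000 h2) (enc_scale 41829 5000 h1)) (enc_scale 45263 2500 (enc_pos (enc_sub h1 (enc_half h2))))) (enc_scale 56611 5000 (enc_pos (enc_sub h1 h2)))) (enc_scale 3957 2500 (enc_pos (enc_sub h1 (enc_scale 5 2 h2))))))⟩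
noncomputable def swqk : Fn4 := ⟨_, _, fun h1 h2 h3 h4 => (enc_norm (enc_mul (enc_norm (enc_sub (enc_case (enc_sub (enc_scale 5 2 h2) h1) (enc_pnc _ 0) (enc_scale 5 11 (enc_mul (hbk.enc h1 h2) (enc_inv h2)))) (enc_add (enc_pnc _ 1) (enc_mul h3 (kw0.enc h1 h2 h3 h4))))) (enc_inv (c3w.enc h1 h3))))⟩
noncomputable def tkOWq_wp : Fn7 := ⟨_, _, fun h1 h2 h3 h4 h5 h6 h7 => (enc_norm (enc_add (kw0.enc h2 h5 h6 h7) (enc_mul h1 (swqk.enc h2 h5 h6 h7))))⟩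
noncomputable def k1m_tp : Fn7 := ⟨_, _, fun h1 h2 h3 h4 h5 h6 h7 => (k1m.enc h4 h5 h6 h7)⟩
noncomputable def taOWq_wp : Fn7 := ⟨_, _, fun h1 h2 h3 h4 h5 h6 h7 => (xw0.enc h2 h5 h6 h7)⟩
noncomputable def swqx : Fn4 := ⟨_, _, fun h1 h2 h3 h4 => (enc_norm (enc_neg (enc_mul (enc_norm (enc_mul (lmf.enc h4) (enc_scale 1571 10000 (enc_pos (enc_sub h1 (enc_scale 5 2 h2)))))) (enc_scale 20 3 (enc_inv (c3w.enc h1 h3))))))⟩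
noncomputable def tcOWq_wp : Fn7 := ⟨_, _, fun h1 h2 h3 h4 h5 h6 h7 => (enc_norm (enc_mul h1 (swqx.enc h2 h5 h6 h7)))⟩
noncomputable def l1m_tp : Fn7 := ⟨_, _, fun h1 h2 h3 h4 h5 h6 h7 => (l1m.enc h4 h5 h6 h7)⟩
noncomputable def ov_U_OWq : Fn4 := ⟨_, _, fun h1 h2 h3 h4 => (enc_norm (enc_mul (enc_scale 11 5 h3) (c3w.enc h1 h4)))⟩
noncomputable def hbb : Fn2 := ⟨_, _, fun h1 h2 => (enc_norm (enc_add (enc_add (enc_sub (enc_add (enc_scale 1019 1250 h2) (enc_scale 4372 625 h1)) (enc_scale 63603 5000 (enc_pos (enc_sub h1 (enc_half h2))))) (enc_scale 3569 750 (enc_pos (enc_sub h1 h2)))) (enc_scale 14501 15000 (enc_pos (enc_sub h1 (enc_scale 5 2 h2))))))⟩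
noncomputable def swqb : Fn4 := ⟨_, _, fun h1 h2 h3 h4 => (enc_norm (enc_mul (enc_norm (enc_sub (enc_case (enc_sub (enc_scale 5 2 h2) h1) (enc_pnc _ 0) (enc_scale 5 11 (enc_mul (hbb.enc h1 h2) (enc_inv h2)))) (enc_add (b0f.enc h4) (enc_mul h3 (bw0.enc h1 h2 h3 h4))))) (enc_inv (c3w.enc h1 h3))))⟩
noncomputable def tbOWq_wp : Fn7 := ⟨_, _, fun h1 h2 h3 h4 h5 h6 h7 => (enc_norm (enc_add (bw0.enc h2 h5 h6 h7) (enc_mul h1 (swqb.enc h2 h5 h6 h7))))⟩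
noncomputable def ntkOWq_wp : Fn7 := ⟨_, _, fun h1 h2 h3 h4 h5 h6 h7 => (nkf.enc h7 (tkOWq_wp.enc h1 h2 h3 h4 h5 h6 h7) (tbOWq_wp.enc h1 h2 h3 h4 h5 h6 h7))⟩
noncomputable def b1m_tp : Fn7 := ⟨_, _, fun h1 h2 h3 h4 h5 h6 h7 => (b1m.enc h4 h5 h6 h7)⟩
noncomputable def nk1m_tp : Fn7 := ⟨_, _, fun h1 h2 h3 h4 h5 h6 h7 => (nkf.enc h7 (k1m_tp.enc h1 h2 h3 h4 h5 h6 h7) (b1m_tp.enc h1 h2 h3 h4 h5 h6 h7))⟩
noncomputable def xq0p : Fn3 := ⟨_, _, fun h1 h2 h3 => (enc_norm (enc_add (xw0p.enc h1 h3) (enc_scale 11 5 (enc_mul h2 (c3w.enc h1 h3)))))⟩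
noncomputable def u_T1_U_P1m_Oq5 : Fn4 := ⟨_, _, fun h1 h2 h3 h4 => (enc_norm (enc_sub (enc_add (xi1.enc (enc_norm (enc_add h1 h2)) h4) (xi1.enc h2 h4)) (xq0p.enc h1 h3 h4)))⟩
noncomputable def kq0 : Fn4 := ⟨_, _, fun h1 h2 h3 h4 => (enc_norm (enc_add (enc_sub (enc_mul (enc_norm (enc_sub (enc_pnc _ 1) (enc_scale 11 5 h4))) (kw0.enc h1 h2 h3 h4)) (enc_scale 11 5 h2)) (hbk.enc h1 h2)))⟩
noncomputable def sq5k : Fn4 := ⟨_, _, fun h1 h2 h3 h4 => (enc_norm (enc_neg (enc_mul (enc_norm (enc_add (enc_pnc _ 1) (enc_mul h3 (kq0.enc h1 h2 h3 h4)))) (enc_inv (enc_mul (enc_norm (enc_sub (enc_pnc _ 1) (enc_scale 11 5 h4))) (c3w.enc h1 h3))))))⟩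
noncomputable def tkOq5_wp : Fn7 := ⟨_, _, fun h1 h2 h3 h4 h5 h6 h7 => (enc_norm (enc_add (kq0.enc h2 h5 h6 h7) (enc_mul h1 (sq5k.enc h2 h5 h6 h7))))⟩
noncomputable def xq0 : Fn4 := ⟨_, _, fun h1 h2 h3 h4 => (enc_norm (enc_mul (enc_norm (enc_mul (lmf.enc h4) (enc_norm (enc_sub (enc_rat _ 1 50) (enc_scale 17281 7500 h4))))) (enc_pos (enc_sub h1 (enc_scale 5 2 h2)))))⟩
noncomputable def taOq5_wp : Fn7 := ⟨_, _, fun h1 h2 h3 h4 h5 h6 h7 => (xq0.enc h2 h5 h6 h7)⟩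
noncomputable def tcOq5_wp : Fn7 := ⟨_, _, fun h1 h2 h3 h4 h5 h6 h7 => (enc_norm (enc_mul h1 (swqx.enc h2 h5 h6 h7)))⟩
noncomputable def bq0 : Fn4 := ⟨_, _, fun h1 h2 h3 h4 => (enc_norm (enc_add (enc_sub (enc_mul (enc_norm (enc_sub (enc_pnc _ 1) (enc_scale 11 5 h4))) (bw0.enc h1 h2 h3 h4)) (enc_scale 11 5 (enc_mul h2 (b0f.enc h4)))) (hbb.enc h1 h2)))⟩
noncomputable def sq5b : Fn4 := ⟨_, _, fun h1 h2 h3 h4 => (enc_norm (enc_neg (enc_mul (enc_norm (enc_add (b0f.enc h4) (enc_mul h3 (bq0.enc h1 h2 h3 h4)))) (enc_inv (enc_mul (enc_norm (enc_sub (enc_pnc _ 1) (enc_scale 11 5 h4))) (c3w.enc h1 h3))))))⟩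
noncomputable def tbOq5_wp : Fn7 := ⟨_, _, fun h1 h2 h3 h4 h5 h6 h7 => (enc_norm (enc_add (bq0.enc h2 h5 h6 h7) (enc_mul h1 (sq5b.enc h2 h5 h6 h7))))⟩
noncomputable def ntkOq5_wp : Fn7 := ⟨_, _, fun h1 h2 h3 h4 h5 h6 h7 => (nkf.enc h7 (tkOq5_wp.enc h1 h2 h3 h4 h5 h6 h7) (tbOq5_wp.enc h1 h2 h3 h4 h5 h6 h7))⟩
noncomputable def lnw : Fn3 := ⟨_, _, fun h1 h2 h3 => (enc_neg h1)⟩

end Pool.Agent.Strip051.LC.E1.Ch
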