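import Pool.Agent.Strip051.LC.E1.Ch.Val5
import Pool.Agent.Strip051.LC.E1.Ch.Rw

/-! # Rests near the full period: the rows and their functions -/

set_option linter.unusedVariables false
set_option linter.unusedSimpArgs false

namespace Pool.Agent.Strip051.LC.E1.Ch

open Pool.Agent.Strip051.PB
open Pool.Agent.Strip051.LC.E1.G (hg)

theorem g_t1a_c1_d_f {r lam w z xi : ℝ} (D : Dom .pnp r lam w z) (e_xi : xi = -(r * E0.G.om w r) -
    E0.G.xi1 z r) (h1 : E0.G.xi1 (w + z) r ≤ xi) (h2 : xi ≤ E0.G.xiw (w + z) r) :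
    Good R_t1a_c1_d_f w z lam r
      (RowT .far .pnp B1 r lam w z xi (-G.C1d r lam z) (G.Pw xi r lam (w + z))) := by
  obtain ⟨H1, H2, H3⟩ := hc_of D
  obtain ⟨ka, kb, kc⟩ : 0 ≤ w ∧ z ≤ 0 ∧ 0 ≤ w + z := D.ok
  have kw : 0 < w := D.l
  have hU : R_t1a_c1_d_f.U w z lam r = xi - E0.G.xi1 (w + z) r := by
    simp only [RowF.U, R_t1a_c1_d_f, u_T1_A_P1m_P1W, zx_val, xi1_val, xi3_val, xiw_val, xw0p_val,
      xq0p_val]
    linarith
  have hu0 : 0 ≤ R_t1a_c1_d_f.U w z lam r := by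
    rw [hU]
    linarith
  have hp : PatF .pnp R_t1a_c1_d_f := ⟨rfl, rfl, rfl, rfl⟩
  have hD := dm_of hp D hu0
  have th := th_P1W H3 D.l0 D.e (xi) (by linarith) (pw_0 h1 h2)
  have hn : R_t1a_c1_d_f.NF w z lam r = -B1.g w z := by
    simp only [RowF.NF, R_t1a_c1_d_f, nff_T1, bef_val]
    unfold Bs.g B1
    push_cast
    ring
  have hb : R_t1a_c1_d_f.NU w z lam r / r + R_t1a_c1_d_f.BS w z lam r = (3 / 2 * B1.g w z) / r +
    (-(E0.G.om w r / 2) + ((w + z) * (-(r * E0.G.om w r)) - w * (xi)) / 2) := by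
    subst e_xi
    simp only [RowF.NU, RowF.BS, R_t1a_c1_d_f, nuf_T1, bs_T1_AP1mf, bef_val, n1f_val, lmf_val,
      mu_val', qo_val, eh_val, om_val, zx_val, xi1_val, xi3_val, xiw_val]
    unfold Bs.g B1
    push_cast
    ring
  have k12 : R_t1a_c1_d_f.K12 w z lam r = ((G.S1 r lam w)).k := by
    unfold RowF.K12
    rw [hU]
    simp only [R_t1a_c1_d_f, ku_wp]
    rw [S1_k H1]
  have c12 : R_t1a_c1_d_f.A12 w z lam r / r + R_t1a_c1_d_f.B12 w z lam r = ((G.S1 r lam w)).c r :=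
    by
    unfold RowF.A12 RowF.B12
    rw [hU]
    simp only [R_t1a_c1_d_f, zr7, lva_wp]
    rw [cS1 H1]
    push_cast
    ring
  have k23 : R_t1a_c1_d_f.K23 w z lam r = ((-G.C1d r lam z)).k := by
    unfold RowF.K23
    rw [hU]
    simp only [R_t1a_c1_d_f, k1m_zn]
    rw [neg_k, k1m_val H2]
  have c23 : R_t1a_c1_d_f.A23 w z lam r / r + R_t1a_c1_d_f.B23 w z lam r = ((-G.C1d r lam z)).c r
    := by
    unfold RowF.A23 RowF.B23
    rw [hU]
    simp only [R_t1a_c1_d_f, zr7, l1m_zn]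
    rw [neg_c, cC1d H2]
    push_cast
    ring
  have k13 : R_t1a_c1_d_f.K13 w z lam r = ((G.Pw xi r lam (w + z))).k := by
    unfold RowF.K13
    rw [hU]
    simp only [R_t1a_c1_d_f, tkP1W_tp]
    rw [th.k]
    try ring
  have c13 : R_t1a_c1_d_f.A13 w z lam r / r + R_t1a_c1_d_f.B13 w z lam r = ((G.Pw xi r lam (w +
    z))).c r := by
    unfold RowF.A13 RowF.B13
    rw [hU]
    simp only [R_t1a_c1_d_f, taP1W_tp, tcP1W_tp, dwl_val, dwu_val]
    rw [th.c]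
    push_cast
    try ring
  exact far_good hp ⟨rfl, rfl⟩ hD hn hb ⟨k12, k23, k13, c12, c23, c13⟩

theorem g_t1a_c1_d_n {r lam w z xi : ℝ} (D : Dom .pnp r lam w z) (e_xi : xi = -(r * E0.G.om w r) -
    E0.G.xi1 z r) (h1 : E0.G.xi1 (w + z) r ≤ xi) (h2 : xi ≤ E0.G.xiw (w + z) r) :
    Good R_t1a_c1_d_n w z lam r
      (RowT .near .pnp B1 r lam w z xi (-G.C1d r lam z) (G.Pw xi r lam (w + z))) := by
  obtain ⟨H1, H2, H3⟩ := hc_of D
  obtain ⟨ka, kb, kc⟩ : 0 ≤ w ∧ z ≤ 0 ∧ 0 ≤ w + z := D.ok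
  have kw : 0 < w := D.l
  have hU : R_t1a_c1_d_n.U w z lam r = xi - E0.G.xi1 (w + z) r := by
    simp only [RowF.U, R_t1a_c1_d_n, u_T1_A_P1m_P1W, zx_val, xi1_val, xi3_val, xiw_val, xw0p_val,
      xq0p_val]
    linarith
  have hu0 : 0 ≤ R_t1a_c1_d_n.U w z lam r := by
    rw [hU]
    linarith
  have hp : PatF .pnp R_t1a_c1_d_n := ⟨rfl, rfl, rfl, rfl⟩
  have hD := dm_of hp D hu0
  have th := th_P1W H3 D.l0 D.e (xi) (by linarith) (pw_0 h1 h2)
  have hn : R_t1a_c1_d_n.NF w z lam r = -(G.be (lam * r) * B1.g w z) := by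
    simp only [RowF.NF, R_t1a_c1_d_n, nfn_T1, bef_val]
    unfold Bs.g B1
    push_cast
    ring
  have hb : R_t1a_c1_d_n.NU w z lam r / r + R_t1a_c1_d_n.BS w z lam r =
      (1 + G.LAM (lam * r) * G.mu (lam * r)) * (3 / 2 * B1.g w z) / r +
      ((1 + G.LAM (lam * r) * G.mu (lam * r)) * (-(E0.G.om w r / 2) + ((w + z) * (-(r * E0.G.om w
        r)) - w * (xi)) / 2) +
        G.mu (lam * r) * G.LAM (lam * r) * lam * G.q1 (lam * r) / (2 * G.eh (lam * r)) * B1.g w z)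
          := by
    subst e_xi
    have e := near_hb (g := B1.g w z) D.r0 D.l0 D.e
    simp only [RowF.NU, RowF.BS, R_t1a_c1_d_n, nun_T1, bs_T1_AP1mn, bef_val, n1f_val, lmf_val,
      mu_val', qo_val, eh_val, om_val, zx_val, xi1_val, xi3_val, xiw_val]
    unfold Bs.g B1 at e ⊢
    push_cast
    linear_combination e
  have k12 : R_t1a_c1_d_n.K12 w z lam r = G.nk (lam * r) ((G.S1 r lam w)).k ((G.S1 r lam w)).b := by
    unfold RowF.K12
    rw [hU]
    simp only [R_t1a_c1_d_n, nku_wp, ku_wp, kv_wp, nkf_val]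
    unfold G.nk
    rw [S1_k H1, S1_b H1]
  have c12 : R_t1a_c1_d_n.A12 w z lam r / r + R_t1a_c1_d_n.B12 w z lam r = ((G.S1 r lam w)).c r :=
    by
    unfold RowF.A12 RowF.B12
    rw [hU]
    simp only [R_t1a_c1_d_n, zr7, lva_wp]
    rw [cS1 H1]
    push_cast
    ring
  have k23 : R_t1a_c1_d_n.K23 w z lam r = G.nk (lam * r) ((-G.C1d r lam z)).k ((-G.C1d r lam z)).b
    := by
    unfold RowF.K23
    rw [hU]
    simp only [R_t1a_c1_d_n, nk1m_zn, k1m_zn, b1m_zn, nkf_val]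
    unfold G.nk
    rw [neg_k, neg_b, k1m_val H2, b1m_val H2]
  have c23 : R_t1a_c1_d_n.A23 w z lam r / r + R_t1a_c1_d_n.B23 w z lam r = ((-G.C1d r lam z)).c r
    := by
    unfold RowF.A23 RowF.B23
    rw [hU]
    simp only [R_t1a_c1_d_n, zr7, l1m_zn]
    rw [neg_c, cC1d H2]
    push_cast
    ring
  have k13 : R_t1a_c1_d_n.K13 w z lam r = G.nk (lam * r) ((G.Pw xi r lam (w + z))).k ((G.Pw xi r
    lam (w + z))).b := by
    unfold RowF.K13
    rw [hU]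
    simp only [R_t1a_c1_d_n, ntkP1W_tp, tkP1W_tp, tbP1W_tp, nkf_val]
    unfold G.nk
    rw [th.k, th.b]
    try ring
  have c13 : R_t1a_c1_d_n.A13 w z lam r / r + R_t1a_c1_d_n.B13 w z lam r = ((G.Pw xi r lam (w +
    z))).c r := by
    unfold RowF.A13 RowF.B13
    rw [hU]
    simp only [R_t1a_c1_d_n, taP1W_tp, tcP1W_tp, dwl_val, dwu_val]
    rw [th.c]
    push_cast
    try ring
  exact near_good hp ⟨rfl, rfl⟩ hD hn hb ⟨k12, k23, k13, c12, c23, c13⟩ rfl rfl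

theorem g_t1a_c1_u_f {r lam w z xi : ℝ} (D : Dom .pp r lam w z) (e_xi : xi = -(r * E0.G.om w r) -
    E0.G.xi1 z r) (h1 : E0.G.xiw (w + z) r ≤ xi) (h2 : 1 / 2 + r * xi ≤ G.xb (w + z) r) :
    Good R_t1a_c1_u_f w z lam r
      (RowT .far .pp B1 r lam w z xi (-G.C1u r lam z) (G.Pb xi r lam (w + z))) := by
  obtain ⟨H1, H2, H3⟩ := hc_of D
  obtain ⟨ka, kb⟩ : 0 ≤ w ∧ 0 ≤ z := D.ok
  have hU : R_t1a_c1_u_f.U w z lam r = xi - E0.G.xiw (w + z) r := by
    simp only [RowF.U, R_t1a_c1_u_f, u_T1_A_P1p_PW5, zx_val, xi1_val, xi3_val, xiw_val, xw0p_val,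
      xq0p_val]
    linarith
  have hu0 : 0 ≤ R_t1a_c1_u_f.U w z lam r := by
    rw [hU]
    linarith
  have hp : PatF .pp R_t1a_c1_u_f := ⟨rfl, rfl, rfl, rfl⟩
  have hD := dm_of hp D hu0
  have th := th_PW5 H3 (xi)
  have hn : R_t1a_c1_u_f.NF w z lam r = -B1.g w z := by
    simp only [RowF.NF, R_t1a_c1_u_f, nff_T1, bef_val]
    unfold Bs.g B1
    push_cast
    ring
  have hb : R_t1a_c1_u_f.NU w z lam r / r + R_t1a_c1_u_f.BS w z lam r = (3 / 2 * B1.g w z) / r +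
    (-(E0.G.om w r / 2) + ((w + z) * (-(r * E0.G.om w r)) - w * (xi)) / 2) := by
    subst e_xi
    simp only [RowF.NU, RowF.BS, R_t1a_c1_u_f, nuf_T1, bs_T1_AP1pf, bef_val, n1f_val, lmf_val,
      mu_val', qo_val, eh_val, om_val, zx_val, xi1_val, xi3_val, xiw_val]
    unfold Bs.g B1
    push_cast
    ring
  have k12 : R_t1a_c1_u_f.K12 w z lam r = ((G.S1 r lam w)).k := by
    unfold RowF.K12
    rw [hU]
    simp only [R_t1a_c1_u_f, ku_wp]
    rw [S1_k H1]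
  have c12 : R_t1a_c1_u_f.A12 w z lam r / r + R_t1a_c1_u_f.B12 w z lam r = ((G.S1 r lam w)).c r :=
    by
    unfold RowF.A12 RowF.B12
    rw [hU]
    simp only [R_t1a_c1_u_f, zr7, lva_wp]
    rw [cS1 H1]
    push_cast
    ring
  have k23 : R_t1a_c1_u_f.K23 w z lam r = ((-G.C1u r lam z)).k := by
    unfold RowF.K23
    rw [hU]
    simp only [R_t1a_c1_u_f, k1p_zn]
    rw [neg_k, k1p_val H2]
  have c23 : R_t1a_c1_u_f.A23 w z lam r / r + R_t1a_c1_u_f.B23 w z lam r = ((-G.C1u r lam z)).c r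
    := by
    unfold RowF.A23 RowF.B23
    rw [hU]
    simp only [R_t1a_c1_u_f, zr7, l1p_zn]
    rw [neg_c, cC1u H2]
    push_cast
    ring
  have k13 : R_t1a_c1_u_f.K13 w z lam r = ((G.Pb xi r lam (w + z))).k := by
    unfold RowF.K13
    rw [hU]
    simp only [R_t1a_c1_u_f, tkPW5_tp]
    rw [th.k]
    try ring
  have c13 : R_t1a_c1_u_f.A13 w z lam r / r + R_t1a_c1_u_f.B13 w z lam r = ((G.Pb xi r lam (w +
    z))).c r := by
    unfold RowF.A13 RowF.B13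
    rw [hU]
    simp only [R_t1a_c1_u_f, taPW5_tp, zr7, dwl_val, dwu_val]
    rw [th.c]
    push_cast
    try ring
  exact far_good hp ⟨rfl, rfl⟩ hD hn hb ⟨k12, k23, k13, c12, c23, c13⟩

theorem g_t1a_c1_u_n {r lam w z xi : ℝ} (D : Dom .pp r lam w z) (e_xi : xi = -(r * E0.G.om w r) -
    E0.G.xi1 z r) (h1 : E0.G.xiw (w + z) r ≤ xi) (h2 : 1 / 2 + r * xi ≤ G.xb (w + z) r) :
    Good R_t1a_c1_u_n w z lam r
      (RowT .near .pp B1 r lam w z xi (-G.C1u r lam z) (G.Pb xi r lam (w + z))) := by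
  obtain ⟨H1, H2, H3⟩ := hc_of D
  obtain ⟨ka, kb⟩ : 0 ≤ w ∧ 0 ≤ z := D.ok
  have hU : R_t1a_c1_u_n.U w z lam r = xi - E0.G.xiw (w + z) r := by
    simp only [RowF.U, R_t1a_c1_u_n, u_T1_A_P1p_PW5, zx_val, xi1_val, xi3_val, xiw_val, xw0p_val,
      xq0p_val]
    linarith
  have hu0 : 0 ≤ R_t1a_c1_u_n.U w z lam r := by
    rw [hU]
    linarith
  have hp : PatF .pp R_t1a_c1_u_n := ⟨rfl, rfl, rfl, rfl⟩
  have hD := dm_of hp D hu0
  have th := th_PW5 H3 (xi)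
  have hn : R_t1a_c1_u_n.NF w z lam r = -(G.be (lam * r) * B1.g w z) := by
    simp only [RowF.NF, R_t1a_c1_u_n, nfn_T1, bef_val]
    unfold Bs.g B1
    push_cast
    ring
  have hb : R_t1a_c1_u_n.NU w z lam r / r + R_t1a_c1_u_n.BS w z lam r =
      (1 + G.LAM (lam * r) * G.mu (lam * r)) * (3 / 2 * B1.g w z) / r +
      ((1 + G.LAM (lam * r) * G.mu (lam * r)) * (-(E0.G.om w r / 2) + ((w + z) * (-(r * E0.G.om w
        r)) - w * (xi)) / 2) +
        G.mu (lam * r) * G.LAM (lam * r) * lam * G.q1 (lam * r) / (2 * G.eh (lam * r)) * B1.g w z)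
          := by
    subst e_xi
    have e := near_hb (g := B1.g w z) D.r0 D.l0 D.e
    simp only [RowF.NU, RowF.BS, R_t1a_c1_u_n, nun_T1, bs_T1_AP1pn, bef_val, n1f_val, lmf_val,
      mu_val', qo_val, eh_val, om_val, zx_val, xi1_val, xi3_val, xiw_val]
    unfold Bs.g B1 at e ⊢
    push_cast
    linear_combination e
  have k12 : R_t1a_c1_u_n.K12 w z lam r = G.nk (lam * r) ((G.S1 r lam w)).k ((G.S1 r lam w)).b := by
    unfold RowF.K12
    rw [hU]
    simp only [R_t1a_c1_u_n, nku_wp, ku_wp, kv_wp, nkf_val]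
    unfold G.nk
    rw [S1_k H1, S1_b H1]
  have c12 : R_t1a_c1_u_n.A12 w z lam r / r + R_t1a_c1_u_n.B12 w z lam r = ((G.S1 r lam w)).c r :=
    by
    unfold RowF.A12 RowF.B12
    rw [hU]
    simp only [R_t1a_c1_u_n, zr7, lva_wp]
    rw [cS1 H1]
    push_cast
    ring
  have k23 : R_t1a_c1_u_n.K23 w z lam r = G.nk (lam * r) ((-G.C1u r lam z)).k ((-G.C1u r lam z)).b
    := by
    unfold RowF.K23
    rw [hU]
    simp only [R_t1a_c1_u_n, nk1p_zn, k1p_zn, b1p_zn, nkf_val]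
    unfold G.nk
    rw [neg_k, neg_b, k1p_val H2, b1p_val H2]
  have c23 : R_t1a_c1_u_n.A23 w z lam r / r + R_t1a_c1_u_n.B23 w z lam r = ((-G.C1u r lam z)).c r
    := by
    unfold RowF.A23 RowF.B23
    rw [hU]
    simp only [R_t1a_c1_u_n, zr7, l1p_zn]
    rw [neg_c, cC1u H2]
    push_cast
    ring
  have k13 : R_t1a_c1_u_n.K13 w z lam r = G.nk (lam * r) ((G.Pb xi r lam (w + z))).k ((G.Pb xi r
    lam (w + z))).b := by
    unfold RowF.K13
    rw [hU]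
    simp only [R_t1a_c1_u_n, ntkPW5_tp, tkPW5_tp, tbPW5_tp, nkf_val]
    unfold G.nk
    rw [th.k, th.b]
    try ring
  have c13 : R_t1a_c1_u_n.A13 w z lam r / r + R_t1a_c1_u_n.B13 w z lam r = ((G.Pb xi r lam (w +
    z))).c r := by
    unfold RowF.A13 RowF.B13
    rw [hU]
    simp only [R_t1a_c1_u_n, taPW5_tp, zr7, dwl_val, dwu_val]
    rw [th.c]
    push_cast
    try ring
  exact near_good hp ⟨rfl, rfl⟩ hD hn hb ⟨k12, k23, k13, c12, c23, c13⟩ rfl rfl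

theorem g_t1a_W_f {r lam w z xi : ℝ} (D : Dom .pp r lam w z) (e_xi : xi = -(r * E0.G.om w r) -
    E0.G.xiw z r) (h1 : E0.G.xiw (w + z) r ≤ xi) (h2 : 1 / 2 + r * xi ≤ G.xb (w + z) r) :
    Good R_t1a_W_f w z lam r
      (RowT .far .pp B1 r lam w z xi (-G.W2 r lam z) (G.Pb xi r lam (w + z))) := by
  obtain ⟨H1, H2, H3⟩ := hc_of D
  obtain ⟨ka, kb⟩ : 0 ≤ w ∧ 0 ≤ z := D.ok
  have hU : R_t1a_W_f.U w z lam r = xi - E0.G.xiw (w + z) r := by
    simp only [RowF.U, R_t1a_W_f, u_T1_A_PW_PW5, zx_val, xi1_val, xi3_val, xiw_val, xw0p_val,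
      xq0p_val]
    linarith
  have hu0 : 0 ≤ R_t1a_W_f.U w z lam r := by
    rw [hU]
    linarith
  have hp : PatF .pp R_t1a_W_f := ⟨rfl, rfl, rfl, rfl⟩
  have hD := dm_of hp D hu0
  have th := th_PW5 H3 (xi)
  have hn : R_t1a_W_f.NF w z lam r = -B1.g w z := by
    simp only [RowF.NF, R_t1a_W_f, nff_T1, bef_val]
    unfold Bs.g B1
    push_cast
    ring
  have hb : R_t1a_W_f.NU w z lam r / r + R_t1a_W_f.BS w z lam r = (3 / 2 * B1.g w z) / r +
    (-(E0.G.om w r / 2) + ((w + z) * (-(r * E0.G.om w r)) - w * (xi)) / 2) := by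
    subst e_xi
    simp only [RowF.NU, RowF.BS, R_t1a_W_f, nuf_T1, bs_T1_APWf, bef_val, n1f_val, lmf_val, mu_val',
      qo_val, eh_val, om_val, zx_val, xi1_val, xi3_val, xiw_val]
    unfold Bs.g B1
    push_cast
    ring
  have k12 : R_t1a_W_f.K12 w z lam r = ((G.S1 r lam w)).k := by
    unfold RowF.K12
    rw [hU]
    simp only [R_t1a_W_f, ku_wp]
    rw [S1_k H1]
  have c12 : R_t1a_W_f.A12 w z lam r / r + R_t1a_W_f.B12 w z lam r = ((G.S1 r lam w)).c r := by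
    unfold RowF.A12 RowF.B12
    rw [hU]
    simp only [R_t1a_W_f, zr7, lva_wp]
    rw [cS1 H1]
    push_cast
    ring
  have k23 : R_t1a_W_f.K23 w z lam r = ((-G.W2 r lam z)).k := by
    unfold RowF.K23
    rw [hU]
    simp only [R_t1a_W_f, kwu_zn]
    rw [neg_k, kwu_val]
  have c23 : R_t1a_W_f.A23 w z lam r / r + R_t1a_W_f.B23 w z lam r = ((-G.W2 r lam z)).c r := by
    unfold RowF.A23 RowF.B23
    rw [hU]
    simp only [R_t1a_W_f, xwu_zn, zr7]
    rw [neg_c, cW2]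
    push_cast
    ring
  have k13 : R_t1a_W_f.K13 w z lam r = ((G.Pb xi r lam (w + z))).k := by
    unfold RowF.K13
    rw [hU]
    simp only [R_t1a_W_f, tkPW5_tp]
    rw [th.k]
    try ring
  have c13 : R_t1a_W_f.A13 w z lam r / r + R_t1a_W_f.B13 w z lam r = ((G.Pb xi r lam (w + z))).c r
    := by
    unfold RowF.A13 RowF.B13
    rw [hU]
    simp only [R_t1a_W_f, taPW5_tp, zr7, dwl_val, dwu_val]
    rw [th.c]
    push_cast
    try ring
  exact far_good hp ⟨rfl, rfl⟩ hD hn hb ⟨k12, k23, k13, c12, c23, c13⟩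

theorem g_t1a_W_n {r lam w z xi : ℝ} (D : Dom .pp r lam w z) (e_xi : xi = -(r * E0.G.om w r) -
    E0.G.xiw z r) (h1 : E0.G.xiw (w + z) r ≤ xi) (h2 : 1 / 2 + r * xi ≤ G.xb (w + z) r) :
    Good R_t1a_W_n w z lam r
      (RowT .near .pp B1 r lam w z xi (-G.W2 r lam z) (G.Pb xi r lam (w + z))) := by
  obtain ⟨H1, H2, H3⟩ := hc_of D
  obtain ⟨ka, kb⟩ : 0 ≤ w ∧ 0 ≤ z := D.ok
  have hU : R_t1a_W_n.U w z lam r = xi - E0.G.xiw (w + z) r := by
    simp only [RowF.U, R_t1a_W_n, u_T1_A_PW_PW5, zx_val, xi1_val, xi3_val, xiw_val, xw0p_val,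
      xq0p_val]
    linarith
  have hu0 : 0 ≤ R_t1a_W_n.U w z lam r := by
    rw [hU]
    linarith
  have hp : PatF .pp R_t1a_W_n := ⟨rfl, rfl, rfl, rfl⟩
  have hD := dm_of hp D hu0
  have th := th_PW5 H3 (xi)
  have hn : R_t1a_W_n.NF w z lam r = -(G.be (lam * r) * B1.g w z) := by
    simp only [RowF.NF, R_t1a_W_n, nfn_T1, bef_val]
    unfold Bs.g B1
    push_cast
    ring
  have hb : R_t1a_W_n.NU w z lam r / r + R_t1a_W_n.BS w z lam r =
      (1 + G.LAM (lam * r) * G.mu (lam * r)) * (3 / 2 * B1.g w z) / r +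
      ((1 + G.LAM (lam * r) * G.mu (lam * r)) * (-(E0.G.om w r / 2) + ((w + z) * (-(r * E0.G.om w
        r)) - w * (xi)) / 2) +
        G.mu (lam * r) * G.LAM (lam * r) * lam * G.q1 (lam * r) / (2 * G.eh (lam * r)) * B1.g w z)
          := by
    subst e_xi
    have e := near_hb (g := B1.g w z) D.r0 D.l0 D.e
    simp only [RowF.NU, RowF.BS, R_t1a_W_n, nun_T1, bs_T1_APWn, bef_val, n1f_val, lmf_val, mu_val',
      qo_val, eh_val, om_val, zx_val, xi1_val, xi3_val, xiw_val]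
    unfold Bs.g B1 at e ⊢
    push_cast
    linear_combination e
  have k12 : R_t1a_W_n.K12 w z lam r = G.nk (lam * r) ((G.S1 r lam w)).k ((G.S1 r lam w)).b := by
    unfold RowF.K12
    rw [hU]
    simp only [R_t1a_W_n, nku_wp, ku_wp, kv_wp, nkf_val]
    unfold G.nk
    rw [S1_k H1, S1_b H1]
  have c12 : R_t1a_W_n.A12 w z lam r / r + R_t1a_W_n.B12 w z lam r = ((G.S1 r lam w)).c r := by
    unfold RowF.A12 RowF.B12
    rw [hU]
    simp only [R_t1a_W_n, zr7, lva_wp]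
    rw [cS1 H1]
    push_cast
    ring
  have k23 : R_t1a_W_n.K23 w z lam r = G.nk (lam * r) ((-G.W2 r lam z)).k ((-G.W2 r lam z)).b := by
    unfold RowF.K23
    rw [hU]
    simp only [R_t1a_W_n, nkwu_zn, kwu_zn, bwu_zn, nkf_val]
    unfold G.nk
    rw [neg_k, neg_b, kwu_val, bwu_val]
  have c23 : R_t1a_W_n.A23 w z lam r / r + R_t1a_W_n.B23 w z lam r = ((-G.W2 r lam z)).c r := by
    unfold RowF.A23 RowF.B23
    rw [hU]
    simp only [R_t1a_W_n, xwu_zn, zr7]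
    rw [neg_c, cW2]
    push_cast
    ring
  have k13 : R_t1a_W_n.K13 w z lam r = G.nk (lam * r) ((G.Pb xi r lam (w + z))).k ((G.Pb xi r lam
    (w + z))).b := by
    unfold RowF.K13
    rw [hU]
    simp only [R_t1a_W_n, ntkPW5_tp, tkPW5_tp, tbPW5_tp, nkf_val]
    unfold G.nk
    rw [th.k, th.b]
    try ring
  have c13 : R_t1a_W_n.A13 w z lam r / r + R_t1a_W_n.B13 w z lam r = ((G.Pb xi r lam (w + z))).c r
    := by
    unfold RowF.A13 RowF.B13
    rw [hU]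
    simp only [R_t1a_W_n, taPW5_tp, zr7, dwl_val, dwu_val]
    rw [th.c]
    push_cast
    try ring
  exact near_good hp ⟨rfl, rfl⟩ hD hn hb ⟨k12, k23, k13, c12, c23, c13⟩ rfl rfl

theorem g_t1b_c1_d_f {r lam w z xi xi' : ℝ} (D : Dom .pnp r lam w z) (e_xi : xi = E0.G.xi1 (w + z)
    r) (e_xip : xi' = -(r * E0.G.om w r) - xi) (h2 : E0.G.xi1 z r ≤ xi') (h3 : 1 / 2 + r * xi' ≤
      G.xa z r) :
    Good R_t1b_c1_d_f w z lam r
      (RowT .far .pnp B1 r lam w z xi (-G.Pa xi' r lam z) (G.C1u r lam (w + z))) := by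
  obtain ⟨H1, H2, H3⟩ := hc_of D
  obtain ⟨ka, kb, kc⟩ : 0 ≤ w ∧ z ≤ 0 ∧ 0 ≤ w + z := D.ok
  have kw : 0 < w := D.l
  have hU : R_t1b_c1_d_f.U w z lam r = xi' - E0.G.xi1 z r := by
    simp only [RowF.U, R_t1b_c1_d_f, u_T1_B_P1p_P12, zx_val, xi1_val, xi3_val, xiw_val, xw0p_val,
      xq0p_val]
    linarith
  have hu0 : 0 ≤ R_t1b_c1_d_f.U w z lam r := by
    rw [hU]
    linarith
  have hp : PatF .pnp R_t1b_c1_d_f := ⟨rfl, rfl, rfl, rfl⟩
  have hD := dm_of hp D hu0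
  have th := th_P12 H2 (xi')
  have hn : R_t1b_c1_d_f.NF w z lam r = -B1.g w z := by
    simp only [RowF.NF, R_t1b_c1_d_f, nff_T1, bef_val]
    unfold Bs.g B1
    push_cast
    ring
  have hb : R_t1b_c1_d_f.NU w z lam r / r + R_t1b_c1_d_f.BS w z lam r = (3 / 2 * B1.g w z) / r +
    (-(E0.G.om w r / 2) + ((w + z) * (-(r * E0.G.om w r)) - w * (xi)) / 2) := by
    subst e_xi
    subst e_xip
    simp only [RowF.NU, RowF.BS, R_t1b_c1_d_f, nuf_T1, bs_T1_BP1pf, bef_val, n1f_val, lmf_val,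
      mu_val', qo_val, eh_val, om_val, zx_val, xi1_val, xi3_val, xiw_val]
    unfold Bs.g B1
    push_cast
    ring
  have k12 : R_t1b_c1_d_f.K12 w z lam r = ((G.S1 r lam w)).k := by
    unfold RowF.K12
    rw [hU]
    simp only [R_t1b_c1_d_f, ku_wp]
    rw [S1_k H1]
  have c12 : R_t1b_c1_d_f.A12 w z lam r / r + R_t1b_c1_d_f.B12 w z lam r = ((G.S1 r lam w)).c r :=
    by
    unfold RowF.A12 RowF.B12
    rw [hU]
    simp only [R_t1b_c1_d_f, zr7, lva_wp]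
    rw [cS1 H1]
    push_cast
    ring
  have k23 : R_t1b_c1_d_f.K23 w z lam r = ((-G.Pa xi' r lam z)).k := by
    unfold RowF.K23
    rw [hU]
    simp only [R_t1b_c1_d_f, tkP12_zn]
    rw [neg_k, th.k]
    try ring
  have c23 : R_t1b_c1_d_f.A23 w z lam r / r + R_t1b_c1_d_f.B23 w z lam r = ((-G.Pa xi' r lam z)).c
    r := by
    unfold RowF.A23 RowF.B23
    rw [hU]
    simp only [R_t1b_c1_d_f, taP12_zn, tcP12_zn, dwl_val, dwu_val]
    rw [neg_c, th.c]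
    push_cast
    try ring
  have k13 : R_t1b_c1_d_f.K13 w z lam r = ((G.C1u r lam (w + z))).k := by
    unfold RowF.K13
    rw [hU]
    simp only [R_t1b_c1_d_f, k1p_tp]
    rw [k1p_val H3]
  have c13 : R_t1b_c1_d_f.A13 w z lam r / r + R_t1b_c1_d_f.B13 w z lam r = ((G.C1u r lam (w +
    z))).c r := by
    unfold RowF.A13 RowF.B13
    rw [hU]
    simp only [R_t1b_c1_d_f, zr7, l1p_tp]
    rw [cC1u H3]
    push_cast
    ring
  exact far_good hp ⟨rfl, rfl⟩ hD hn hb ⟨k12, k23, k13, c12, c23, c13⟩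

theorem g_t1b_c1_d_n {r lam w z xi xi' : ℝ} (D : Dom .pnp r lam w z) (e_xi : xi = E0.G.xi1 (w + z)
    r) (e_xip : xi' = -(r * E0.G.om w r) - xi) (h2 : E0.G.xi1 z r ≤ xi') (h3 : 1 / 2 + r * xi' ≤
      G.xa z r) :
    Good R_t1b_c1_d_n w z lam r
      (RowT .near .pnp B1 r lam w z xi (-G.Pa xi' r lam z) (G.C1u r lam (w + z))) := by
  obtain ⟨H1, H2, H3⟩ := hc_of D
  obtain ⟨ka, kb, kc⟩ : 0 ≤ w ∧ z ≤ 0 ∧ 0 ≤ w + z := D.ok
  have kw : 0 < w := D.l
  have hU : R_t1b_c1_d_n.U w z lam r = xi' - E0.G.xi1 z r := by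
    simp only [RowF.U, R_t1b_c1_d_n, u_T1_B_P1p_P12, zx_val, xi1_val, xi3_val, xiw_val, xw0p_val,
      xq0p_val]
    linarith
  have hu0 : 0 ≤ R_t1b_c1_d_n.U w z lam r := by
    rw [hU]
    linarith
  have hp : PatF .pnp R_t1b_c1_d_n := ⟨rfl, rfl, rfl, rfl⟩
  have hD := dm_of hp D hu0
  have th := th_P12 H2 (xi')
  have hn : R_t1b_c1_d_n.NF w z lam r = -(G.be (lam * r) * B1.g w z) := by
    simp only [RowF.NF, R_t1b_c1_d_n, nfn_T1, bef_val]
    unfold Bs.g B1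
    push_cast
    ring
  have hb : R_t1b_c1_d_n.NU w z lam r / r + R_t1b_c1_d_n.BS w z lam r =
      (1 + G.LAM (lam * r) * G.mu (lam * r)) * (3 / 2 * B1.g w z) / r +
      ((1 + G.LAM (lam * r) * G.mu (lam * r)) * (-(E0.G.om w r / 2) + ((w + z) * (-(r * E0.G.om w
        r)) - w * (xi)) / 2) +
        G.mu (lam * r) * G.LAM (lam * r) * lam * G.q1 (lam * r) / (2 * G.eh (lam * r)) * B1.g w z)
          := by
    subst e_xi
    subst e_xip
    have e := near_hb (g := B1.g w z) D.r0 D.l0 D.e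
    simp only [RowF.NU, RowF.BS, R_t1b_c1_d_n, nun_T1, bs_T1_BP1pn, bef_val, n1f_val, lmf_val,
      mu_val', qo_val, eh_val, om_val, zx_val, xi1_val, xi3_val, xiw_val]
    unfold Bs.g B1 at e ⊢
    push_cast
    linear_combination e
  have k12 : R_t1b_c1_d_n.K12 w z lam r = G.nk (lam * r) ((G.S1 r lam w)).k ((G.S1 r lam w)).b := by
    unfold RowF.K12
    rw [hU]
    simp only [R_t1b_c1_d_n, nku_wp, ku_wp, kv_wp, nkf_val]
    unfold G.nk
    rw [S1_k H1, S1_b H1]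
  have c12 : R_t1b_c1_d_n.A12 w z lam r / r + R_t1b_c1_d_n.B12 w z lam r = ((G.S1 r lam w)).c r :=
    by
    unfold RowF.A12 RowF.B12
    rw [hU]
    simp only [R_t1b_c1_d_n, zr7, lva_wp]
    rw [cS1 H1]
    push_cast
    ring
  have k23 : R_t1b_c1_d_n.K23 w z lam r = G.nk (lam * r) ((-G.Pa xi' r lam z)).k ((-G.Pa xi' r lam
    z)).b := by
    unfold RowF.K23
    rw [hU]
    simp only [R_t1b_c1_d_n, ntkP12_zn, tkP12_zn, tbP12_zn, nkf_val]
    unfold G.nk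
    rw [neg_k, neg_b, th.k, th.b]
    try ring
  have c23 : R_t1b_c1_d_n.A23 w z lam r / r + R_t1b_c1_d_n.B23 w z lam r = ((-G.Pa xi' r lam z)).c
    r := by
    unfold RowF.A23 RowF.B23
    rw [hU]
    simp only [R_t1b_c1_d_n, taP12_zn, tcP12_zn, dwl_val, dwu_val]
    rw [neg_c, th.c]
    push_cast
    try ring
  have k13 : R_t1b_c1_d_n.K13 w z lam r = G.nk (lam * r) ((G.C1u r lam (w + z))).k ((G.C1u r lam (w
    + z))).b := by
    unfold RowF.K13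
    rw [hU]
    simp only [R_t1b_c1_d_n, nk1p_tp, k1p_tp, b1p_tp, nkf_val]
    unfold G.nk
    rw [k1p_val H3, b1p_val H3]
  have c13 : R_t1b_c1_d_n.A13 w z lam r / r + R_t1b_c1_d_n.B13 w z lam r = ((G.C1u r lam (w +
    z))).c r := by
    unfold RowF.A13 RowF.B13
    rw [hU]
    simp only [R_t1b_c1_d_n, zr7, l1p_tp]
    rw [cC1u H3]
    push_cast
    ring
  exact near_good hp ⟨rfl, rfl⟩ hD hn hb ⟨k12, k23, k13, c12, c23, c13⟩ rfl rfl

theorem g_t1b_c1_u_f {r lam w z xi xi' : ℝ} (D : Dom .pp r lam w z) (e_xi : xi = E0.G.xi1 (w + z)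
    r) (e_xip : xi' = -(r * E0.G.om w r) - xi) (h2 : E0.G.xiw z r ≤ xi') (h3 : 1 / 2 + r * xi' ≤
      G.xb z r) :
    Good R_t1b_c1_u_f w z lam r
      (RowT .far .pp B1 r lam w z xi (-G.Pb xi' r lam z) (G.C1u r lam (w + z))) := by
  obtain ⟨H1, H2, H3⟩ := hc_of D
  obtain ⟨ka, kb⟩ : 0 ≤ w ∧ 0 ≤ z := D.ok
  have hU : R_t1b_c1_u_f.U w z lam r = xi' - E0.G.xiw z r := by
    simp only [RowF.U, R_t1b_c1_u_f, u_T1_B_P1p_PW5, zx_val, xi1_val, xi3_val, xiw_val, xw0p_val,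
      xq0p_val]
    linarith
  have hu0 : 0 ≤ R_t1b_c1_u_f.U w z lam r := by
    rw [hU]
    linarith
  have hp : PatF .pp R_t1b_c1_u_f := ⟨rfl, rfl, rfl, rfl⟩
  have hD := dm_of hp D hu0
  have th := th_PW5 H2 (xi')
  have hn : R_t1b_c1_u_f.NF w z lam r = -B1.g w z := by
    simp only [RowF.NF, R_t1b_c1_u_f, nff_T1, bef_val]
    unfold Bs.g B1
    push_cast
    ring
  have hb : R_t1b_c1_u_f.NU w z lam r / r + R_t1b_c1_u_f.BS w z lam r = (3 / 2 * B1.g w z) / r +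
    (-(E0.G.om w r / 2) + ((w + z) * (-(r * E0.G.om w r)) - w * (xi)) / 2) := by
    subst e_xi
    subst e_xip
    simp only [RowF.NU, RowF.BS, R_t1b_c1_u_f, nuf_T1, bs_T1_BP1pf, bef_val, n1f_val, lmf_val,
      mu_val', qo_val, eh_val, om_val, zx_val, xi1_val, xi3_val, xiw_val]
    unfold Bs.g B1
    push_cast
    ring
  have k12 : R_t1b_c1_u_f.K12 w z lam r = ((G.S1 r lam w)).k := by
    unfold RowF.K12
    rw [hU]
    simp only [R_t1b_c1_u_f, ku_wp]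
    rw [S1_k H1]
  have c12 : R_t1b_c1_u_f.A12 w z lam r / r + R_t1b_c1_u_f.B12 w z lam r = ((G.S1 r lam w)).c r :=
    by
    unfold RowF.A12 RowF.B12
    rw [hU]
    simp only [R_t1b_c1_u_f, zr7, lva_wp]
    rw [cS1 H1]
    push_cast
    ring
  have k23 : R_t1b_c1_u_f.K23 w z lam r = ((-G.Pb xi' r lam z)).k := by
    unfold RowF.K23
    rw [hU]
    simp only [R_t1b_c1_u_f, tkPW5_zn]
    rw [neg_k, th.k]
    try ring
  have c23 : R_t1b_c1_u_f.A23 w z lam r / r + R_t1b_c1_u_f.B23 w z lam r = ((-G.Pb xi' r lam z)).c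
    r := by
    unfold RowF.A23 RowF.B23
    rw [hU]
    simp only [R_t1b_c1_u_f, taPW5_zn, zr7, dwl_val, dwu_val]
    rw [neg_c, th.c]
    push_cast
    try ring
  have k13 : R_t1b_c1_u_f.K13 w z lam r = ((G.C1u r lam (w + z))).k := by
    unfold RowF.K13
    rw [hU]
    simp only [R_t1b_c1_u_f, k1p_tp]
    rw [k1p_val H3]
  have c13 : R_t1b_c1_u_f.A13 w z lam r / r + R_t1b_c1_u_f.B13 w z lam r = ((G.C1u r lam (w +
    z))).c r := by
    unfold RowF.A13 RowF.B13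
    rw [hU]
    simp only [R_t1b_c1_u_f, zr7, l1p_tp]
    rw [cC1u H3]
    push_cast
    ring
  exact far_good hp ⟨rfl, rfl⟩ hD hn hb ⟨k12, k23, k13, c12, c23, c13⟩

theorem g_t1b_c1_u_n {r lam w z xi xi' : ℝ} (D : Dom .pp r lam w z) (e_xi : xi = E0.G.xi1 (w + z)
    r) (e_xip : xi' = -(r * E0.G.om w r) - xi) (h2 : E0.G.xiw z r ≤ xi') (h3 : 1 / 2 + r * xi' ≤
      G.xb z r) :
    Good R_t1b_c1_u_n w z lam r
      (RowT .near .pp B1 r lam w z xi (-G.Pb xi' r lam z) (G.C1u r lam (w + z))) := by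
  obtain ⟨H1, H2, H3⟩ := hc_of D
  obtain ⟨ka, kb⟩ : 0 ≤ w ∧ 0 ≤ z := D.ok
  have hU : R_t1b_c1_u_n.U w z lam r = xi' - E0.G.xiw z r := by
    simp only [RowF.U, R_t1b_c1_u_n, u_T1_B_P1p_PW5, zx_val, xi1_val, xi3_val, xiw_val, xw0p_val,
      xq0p_val]
    linarith
  have hu0 : 0 ≤ R_t1b_c1_u_n.U w z lam r := by
    rw [hU]
    linarith
  have hp : PatF .pp R_t1b_c1_u_n := ⟨rfl, rfl, rfl, rfl⟩
  have hD := dm_of hp D hu0
  have th := th_PW5 H2 (xi')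
  have hn : R_t1b_c1_u_n.NF w z lam r = -(G.be (lam * r) * B1.g w z) := by
    simp only [RowF.NF, R_t1b_c1_u_n, nfn_T1, bef_val]
    unfold Bs.g B1
    push_cast
    ring
  have hb : R_t1b_c1_u_n.NU w z lam r / r + R_t1b_c1_u_n.BS w z lam r =
      (1 + G.LAM (lam * r) * G.mu (lam * r)) * (3 / 2 * B1.g w z) / r +
      ((1 + G.LAM (lam * r) * G.mu (lam * r)) * (-(E0.G.om w r / 2) + ((w + z) * (-(r * E0.G.om w
        r)) - w * (xi)) / 2) +
        G.mu (lam * r) * G.LAM (lam * r) * lam * G.q1 (lam * r) / (2 * G.eh (lam * r)) * B1.g w z)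
          := by
    subst e_xi
    subst e_xip
    have e := near_hb (g := B1.g w z) D.r0 D.l0 D.e
    simp only [RowF.NU, RowF.BS, R_t1b_c1_u_n, nun_T1, bs_T1_BP1pn, bef_val, n1f_val, lmf_val,
      mu_val', qo_val, eh_val, om_val, zx_val, xi1_val, xi3_val, xiw_val]
    unfold Bs.g B1 at e ⊢
    push_cast
    linear_combination e
  have k12 : R_t1b_c1_u_n.K12 w z lam r = G.nk (lam * r) ((G.S1 r lam w)).k ((G.S1 r lam w)).b := by
    unfold RowF.K12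
    rw [hU]
    simp only [R_t1b_c1_u_n, nku_wp, ku_wp, kv_wp, nkf_val]
    unfold G.nk
    rw [S1_k H1, S1_b H1]
  have c12 : R_t1b_c1_u_n.A12 w z lam r / r + R_t1b_c1_u_n.B12 w z lam r = ((G.S1 r lam w)).c r :=
    by
    unfold RowF.A12 RowF.B12
    rw [hU]
    simp only [R_t1b_c1_u_n, zr7, lva_wp]
    rw [cS1 H1]
    push_cast
    ring
  have k23 : R_t1b_c1_u_n.K23 w z lam r = G.nk (lam * r) ((-G.Pb xi' r lam z)).k ((-G.Pb xi' r lam
    z)).b := by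
    unfold RowF.K23
    rw [hU]
    simp only [R_t1b_c1_u_n, ntkPW5_zn, tkPW5_zn, tbPW5_zn, nkf_val]
    unfold G.nk
    rw [neg_k, neg_b, th.k, th.b]
    try ring
  have c23 : R_t1b_c1_u_n.A23 w z lam r / r + R_t1b_c1_u_n.B23 w z lam r = ((-G.Pb xi' r lam z)).c
    r := by
    unfold RowF.A23 RowF.B23
    rw [hU]
    simp only [R_t1b_c1_u_n, taPW5_zn, zr7, dwl_val, dwu_val]
    rw [neg_c, th.c]
    push_cast
    try ring
  have k13 : R_t1b_c1_u_n.K13 w z lam r = G.nk (lam * r) ((G.C1u r lam (w + z))).k ((G.C1u r lam (w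
    + z))).b := by
    unfold RowF.K13
    rw [hU]
    simp only [R_t1b_c1_u_n, nk1p_tp, k1p_tp, b1p_tp, nkf_val]
    unfold G.nk
    rw [k1p_val H3, b1p_val H3]
  have c13 : R_t1b_c1_u_n.A13 w z lam r / r + R_t1b_c1_u_n.B13 w z lam r = ((G.C1u r lam (w +
    z))).c r := by
    unfold RowF.A13 RowF.B13
    rw [hU]
    simp only [R_t1b_c1_u_n, zr7, l1p_tp]
    rw [cC1u H3]
    push_cast
    ring
  exact near_good hp ⟨rfl, rfl⟩ hD hn hb ⟨k12, k23, k13, c12, c23, c13⟩ rfl rfl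

theorem g_t1b_W_f {r lam w z xi xi' : ℝ} (D : Dom .pp r lam w z) (e_xi : xi = E0.G.xiw (w + z) r)
    (e_xip : xi' = -(r * E0.G.om w r) - xi) (h2 : E0.G.xiw z r ≤ xi') (h3 : 1 / 2 + r * xi' ≤ G.xb
      z r) :
    Good R_t1b_W_f w z lam r
      (RowT .far .pp B1 r lam w z xi (-G.Pb xi' r lam z) (G.W2 r lam (w + z))) := by
  obtain ⟨H1, H2, H3⟩ := hc_of D
  obtain ⟨ka, kb⟩ : 0 ≤ w ∧ 0 ≤ z := D.ok
  have hU : R_t1b_W_f.U w z lam r = xi' - E0.G.xiw z r := by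
    simp only [RowF.U, R_t1b_W_f, u_T1_B_PW_PW5, zx_val, xi1_val, xi3_val, xiw_val, xw0p_val,
      xq0p_val]
    linarith
  have hu0 : 0 ≤ R_t1b_W_f.U w z lam r := by
    rw [hU]
    linarith
  have hp : PatF .pp R_t1b_W_f := ⟨rfl, rfl, rfl, rfl⟩
  have hD := dm_of hp D hu0
  have th := th_PW5 H2 (xi')
  have hn : R_t1b_W_f.NF w z lam r = -B1.g w z := by
    simp only [RowF.NF, R_t1b_W_f, nff_T1, bef_val]
    unfold Bs.g B1
    push_cast
    ring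
  have hb : R_t1b_W_f.NU w z lam r / r + R_t1b_W_f.BS w z lam r = (3 / 2 * B1.g w z) / r +
    (-(E0.G.om w r / 2) + ((w + z) * (-(r * E0.G.om w r)) - w * (xi)) / 2) := by
    subst e_xi
    subst e_xip
    simp only [RowF.NU, RowF.BS, R_t1b_W_f, nuf_T1, bs_T1_BPWf, bef_val, n1f_val, lmf_val, mu_val',
      qo_val, eh_val, om_val, zx_val, xi1_val, xi3_val, xiw_val]
    unfold Bs.g B1
    push_cast
    ring
  have k12 : R_t1b_W_f.K12 w z lam r = ((G.S1 r lam w)).k := by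
    unfold RowF.K12
    rw [hU]
    simp only [R_t1b_W_f, ku_wp]
    rw [S1_k H1]
  have c12 : R_t1b_W_f.A12 w z lam r / r + R_t1b_W_f.B12 w z lam r = ((G.S1 r lam w)).c r := by
    unfold RowF.A12 RowF.B12
    rw [hU]
    simp only [R_t1b_W_f, zr7, lva_wp]
    rw [cS1 H1]
    push_cast
    ring
  have k23 : R_t1b_W_f.K23 w z lam r = ((-G.Pb xi' r lam z)).k := by
    unfold RowF.K23
    rw [hU]
    simp only [R_t1b_W_f, tkPW5_zn]
    rw [neg_k, th.k]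
    try ring
  have c23 : R_t1b_W_f.A23 w z lam r / r + R_t1b_W_f.B23 w z lam r = ((-G.Pb xi' r lam z)).c r := by
    unfold RowF.A23 RowF.B23
    rw [hU]
    simp only [R_t1b_W_f, taPW5_zn, zr7, dwl_val, dwu_val]
    rw [neg_c, th.c]
    push_cast
    try ring
  have k13 : R_t1b_W_f.K13 w z lam r = ((G.W2 r lam (w + z))).k := by
    unfold RowF.K13
    rw [hU]
    simp only [R_t1b_W_f, kwu_tp]
    rw [kwu_val]
  have c13 : R_t1b_W_f.A13 w z lam r / r + R_t1b_W_f.B13 w z lam r = ((G.W2 r lam (w + z))).c r :=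
    by
    unfold RowF.A13 RowF.B13
    rw [hU]
    simp only [R_t1b_W_f, xwu_tp, zr7]
    rw [cW2]
    push_cast
    ring
  exact far_good hp ⟨rfl, rfl⟩ hD hn hb ⟨k12, k23, k13, c12, c23, c13⟩

theorem g_t1b_W_n {r lam w z xi xi' : ℝ} (D : Dom .pp r lam w z) (e_xi : xi = E0.G.xiw (w + z) r)
    (e_xip : xi' = -(r * E0.G.om w r) - xi) (h2 : E0.G.xiw z r ≤ xi') (h3 : 1 / 2 + r * xi' ≤ G.xb
      z r) :
    Good R_t1b_W_n w z lam r
      (RowT .near .pp B1 r lam w z xi (-G.Pb xi' r lam z) (G.W2 r lam (w + z))) := by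
  obtain ⟨H1, H2, H3⟩ := hc_of D
  obtain ⟨ka, kb⟩ : 0 ≤ w ∧ 0 ≤ z := D.ok
  have hU : R_t1b_W_n.U w z lam r = xi' - E0.G.xiw z r := by
    simp only [RowF.U, R_t1b_W_n, u_T1_B_PW_PW5, zx_val, xi1_val, xi3_val, xiw_val, xw0p_val,
      xq0p_val]
    linarith
  have hu0 : 0 ≤ R_t1b_W_n.U w z lam r := by
    rw [hU]
    linarith
  have hp : PatF .pp R_t1b_W_n := ⟨rfl, rfl, rfl, rfl⟩
  have hD := dm_of hp D hu0
  have th := th_PW5 H2 (xi')
  have hn : R_t1b_W_n.NF w z lam r = -(G.be (lam * r) * B1.g w z) := by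
    simp only [RowF.NF, R_t1b_W_n, nfn_T1, bef_val]
    unfold Bs.g B1
    push_cast
    ring
  have hb : R_t1b_W_n.NU w z lam r / r + R_t1b_W_n.BS w z lam r =
      (1 + G.LAM (lam * r) * G.mu (lam * r)) * (3 / 2 * B1.g w z) / r +
      ((1 + G.LAM (lam * r) * G.mu (lam * r)) * (-(E0.G.om w r / 2) + ((w + z) * (-(r * E0.G.om w
        r)) - w * (xi)) / 2) +
        G.mu (lam * r) * G.LAM (lam * r) * lam * G.q1 (lam * r) / (2 * G.eh (lam * r)) * B1.g w z)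
          := by
    subst e_xi
    subst e_xip
    have e := near_hb (g := B1.g w z) D.r0 D.l0 D.e
    simp only [RowF.NU, RowF.BS, R_t1b_W_n, nun_T1, bs_T1_BPWn, bef_val, n1f_val, lmf_val, mu_val',
      qo_val, eh_val, om_val, zx_val, xi1_val, xi3_val, xiw_val]
    unfold Bs.g B1 at e ⊢
    push_cast
    linear_combination e
  have k12 : R_t1b_W_n.K12 w z lam r = G.nk (lam * r) ((G.S1 r lam w)).k ((G.S1 r lam w)).b := by
    unfold RowF.K12
    rw [hU]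
    simp only [R_t1b_W_n, nku_wp, ku_wp, kv_wp, nkf_val]
    unfold G.nk
    rw [S1_k H1, S1_b H1]
  have c12 : R_t1b_W_n.A12 w z lam r / r + R_t1b_W_n.B12 w z lam r = ((G.S1 r lam w)).c r := by
    unfold RowF.A12 RowF.B12
    rw [hU]
    simp only [R_t1b_W_n, zr7, lva_wp]
    rw [cS1 H1]
    push_cast
    ring
  have k23 : R_t1b_W_n.K23 w z lam r = G.nk (lam * r) ((-G.Pb xi' r lam z)).k ((-G.Pb xi' r lam
    z)).b := by
    unfold RowF.K23
    rw [hU]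
    simp only [R_t1b_W_n, ntkPW5_zn, tkPW5_zn, tbPW5_zn, nkf_val]
    unfold G.nk
    rw [neg_k, neg_b, th.k, th.b]
    try ring
  have c23 : R_t1b_W_n.A23 w z lam r / r + R_t1b_W_n.B23 w z lam r = ((-G.Pb xi' r lam z)).c r := by
    unfold RowF.A23 RowF.B23
    rw [hU]
    simp only [R_t1b_W_n, taPW5_zn, zr7, dwl_val, dwu_val]
    rw [neg_c, th.c]
    push_cast
    try ring
  have k13 : R_t1b_W_n.K13 w z lam r = G.nk (lam * r) ((G.W2 r lam (w + z))).k ((G.W2 r lam (w +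
    z))).b := by
    unfold RowF.K13
    rw [hU]
    simp only [R_t1b_W_n, nkwu_tp, kwu_tp, bwu_tp, nkf_val]
    unfold G.nk
    rw [kwu_val, bwu_val]
  have c13 : R_t1b_W_n.A13 w z lam r / r + R_t1b_W_n.B13 w z lam r = ((G.W2 r lam (w + z))).c r :=
    by
    unfold RowF.A13 RowF.B13
    rw [hU]
    simp only [R_t1b_W_n, xwu_tp, zr7]
    rw [cW2]
    push_cast
    ring
  exact near_good hp ⟨rfl, rfl⟩ hD hn hb ⟨k12, k23, k13, c12, c23, c13⟩ rfl rfl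

end Pool.Agent.Strip051.LC.E1.Ch
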