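import Pool.Agent.Strip051.LC.E1.Ch.Main
import Pool.Agent.Strip051.LC.E1.Ch.Fns
import Pool.Agent.Strip051.LC.E1.Rows

/-! # Rests near the full period: the rows and the statements of the charts -/

set_option linter.unusedVariables false

namespace Pool.Agent.Strip051.LC.E1.Ch

open Pool.Agent.Strip051.PB

/-! ### The slack depends on `nu / r + base` only -/

theorem slkS_congr {r lam a b l n gam del nu base nu' base' lev : ℝ}
    (h : nu / r + base = nu' / r + base')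
    (H : G.SlkS r lam a b l n gam del nu base lev) :
    G.SlkS r lam a b l n gam del nu' base' lev := by
  rcases H with ⟨h1, h2⟩ | ⟨h1, h2⟩ | ⟨h1, h2⟩ | ⟨h1, h2⟩
  · refine Or.inl ⟨h1, ?_⟩
    unfold G.FinS at h2 ⊢
    linarith
  · refine Or.inr (Or.inl ⟨h1, ?_⟩)
    unfold G.FoutS at h2 ⊢
    linarith
  · refine Or.inr (Or.inr (Or.inl ⟨h1, ?_⟩))
    unfold G.FcS at h2 ⊢
    linarith
  · refine Or.inr (Or.inr (Or.inr ⟨h1, ?_⟩))
    unfold G.FnS at h2 ⊢
    rw [add_div] at h2 ⊢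
    linarith

/-- The pattern of a row. -/
def PatF (P : Pat) (R : RowF) : Prop :=
  match P with
  | .pp => R.l = lt ∧ R.a = lw ∧ R.b = lz ∧ R.gm = gm1
  | .pnp => R.l = lw ∧ R.a = lt ∧ R.b = lnz ∧ R.gm = gm2
  | .pnn => R.l = lnz ∧ R.a = lnt ∧ R.b = lw ∧ R.gm = gm3
  | .npn => R.l = lnw ∧ R.a = lz ∧ R.b = lnt ∧ R.gm = gm2
  | .nn => R.l = lnt ∧ R.a = lnz ∧ R.b = lnw ∧ R.gm = gm1

theorem lt_val (w z t : ℝ) : lt.v w z t = t := by simp only [lt]
theorem lw_val (w z t : ℝ) : lw.v w z t = w := by simp only [lw]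
theorem lz_val (w z t : ℝ) : lz.v w z t = z := by simp only [lz]
theorem lnt_val (w z t : ℝ) : lnt.v w z t = -t := by simp only [lnt]
theorem lnw_val (w z t : ℝ) : lnw.v w z t = -w := by simp only [lnw]
theorem lnz_val (w z t : ℝ) : lnz.v w z t = -z := by simp only [lnz]

section

variable {P : Pat} {R : RowF} {B : Bs} {w z r m lev g nu base : ℝ}

theorem sk_slkP (hp : PatF P R) (hn : R.NF w z m r = -g)
    (hb : R.NU w z m r / r + R.BS w z m r = nu / r + base)
    (h : R.Sk w z m r lev) :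
    SlkP P r m w z g (R.K12 w z m r) (R.K23 w z m r) (R.K13 w z m r) nu base lev := by
  have eD : R.DL w z m r = -(R.K12 w z m r + R.K23 w z m r - R.K13 w z m r) := by
    unfold RowF.DL; rw [dln_val]; ring
  unfold RowF.Sk at h
  rw [hn, eD] at h
  have h' := slkS_congr hb h
  unfold RowF.A RowF.B RowF.L RowF.GM at h'
  rcases P with _ | _ | _ | _ | _ <;> obtain ⟨h1, h2, h3, h4⟩ := hp <;>
    rw [h1, h2, h3, h4] at h'
  · rw [lt_val, lw_val, lz_val, gm1_val] at h'
    exact h'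
  · rw [lt_val, lw_val, lnz_val, gm2_val] at h'
    exact h'
  · rw [lnt_val, lw_val, lnz_val, gm3_val] at h'
    exact h'
  · rw [lnt_val, lnw_val, lz_val, gm2_val] at h'
    exact h'
  · rw [lnt_val, lnw_val, lnz_val, gm1_val] at h'
    exact h'

theorem pat_len (hp : PatF P R) : R.L w z = P.len w z := by
  unfold RowF.L
  rcases P with _ | _ | _ | _ | _ <;> obtain ⟨h1, h2, h3, h4⟩ := hp <;> rw [h1]
  · exact lt_val _ _ _
  · exact lw_val _ _ _
  · exact lnz_val _ _ _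
  · exact lnw_val _ _ _
  · exact lnt_val _ _ _

theorem pat_ab (hp : PatF P R) (h : P.Ok w z) : 0 ≤ R.A w z ∧ 0 ≤ R.B w z := by
  unfold RowF.A RowF.B
  rcases P with _ | _ | _ | _ | _ <;> obtain ⟨h1, h2, h3, h4⟩ := hp <;> rw [h2, h3]
  · rw [lw_val, lz_val]
    exact h
  · rw [lt_val, lnz_val]
    obtain ⟨a, b, c⟩ : 0 ≤ w ∧ z ≤ 0 ∧ 0 ≤ w + z := h
    exact ⟨c, by linarith⟩
  · rw [lnt_val, lw_val]
    obtain ⟨a, b, c⟩ : 0 ≤ w ∧ z ≤ 0 ∧ w + z ≤ 0 := h
    exact ⟨by linarith, a⟩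
  · rw [lnt_val, lz_val]
    obtain ⟨a, b, c⟩ : w ≤ 0 ∧ 0 ≤ z ∧ w + z ≤ 0 := h
    exact ⟨b, by linarith⟩
  · rw [lnw_val, lnz_val]
    obtain ⟨a, b⟩ : w ≤ 0 ∧ z ≤ 0 := h
    exact ⟨by linarith, by linarith⟩

/-- The domain of a row. -/
theorem dm_of (hp : PatF P R) (D : Dom P r m w z) (u : 0 ≤ R.U w z m r) : Dm R w z m r := by
  obtain ⟨h1, h2⟩ := pat_ab (R := R) hp D.ok
  have h3 := pat_len (w := w) (z := z) hp
  refine ⟨D.r0, D.l0, D.e, h1, h2, by rw [h3]; exact D.l, ?_, u⟩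
  rw [h3]
  have := D.s
  linarith

/-- The far vertex. -/
structure FarF (R : RowF) : Prop where
  v1 : R.v1 = vf1
  v2 : R.v2 = vf2

/-- The near vertex. -/
structure NearF (R : RowF) : Prop where
  v1 : R.v1 = ml1
  v2 : R.v2 = ml2

/-- The values of a row at the far vertex. -/
structure ValF (R : RowF) (w z m r : ℝ) (a b c : Sv) : Prop where
  k12 : R.K12 w z m r = a.k
  k23 : R.K23 w z m r = b.k
  k13 : R.K13 w z m r = c.k
  c12 : R.A12 w z m r / r + R.B12 w z m r = a.c r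
  c23 : R.A23 w z m r / r + R.B23 w z m r = b.c r
  c13 : R.A13 w z m r / r + R.B13 w z m r = c.c r

/-- The values of a row at the near vertex. -/
structure ValN (R : RowF) (w z m r : ℝ) (a b c : Sv) : Prop where
  k12 : R.K12 w z m r = G.nk (m * r) a.k a.b
  k23 : R.K23 w z m r = G.nk (m * r) b.k b.b
  k13 : R.K13 w z m r = G.nk (m * r) c.k c.b
  c12 : R.A12 w z m r / r + R.B12 w z m r = a.c r
  c23 : R.A23 w z m r / r + R.B23 w z m r = b.c r
  c13 : R.A13 w z m r / r + R.B13 w z m r = c.c r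

theorem far_good {xi12 xi13 N S : ℝ} {a b c : Sv} (hp : PatF P R) (hf : FarF R)
    (D : Dm R w z m r) (hn : R.NF w z m r = -B.g w z)
    (hb : R.NU w z m r / r + R.BS w z m r = N / r + (S + ((w + z) * xi12 - w * xi13) / 2))
    (v : ValF R w z m r a b c) :
    Good R w z m r (RowC .far P B r m w z xi12 xi13 N S a b c) := by
  refine ⟨|a.c r + b.c r - c.c r| / 2, D, ?_, ?_⟩
  · intro F h1 h2
    unfold RowF.V1A RowF.V1B at h1
    unfold RowF.V2A RowF.V2B at h2
    rw [hf.v1, vf1_val, vf1_val] at h1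
    rw [hf.v2, vf2_val, vf2_val] at h2
    have e1 : -((R.A12 w z m r + R.A23 w z m r - R.A13 w z m r) / 2) / r +
        -((R.B12 w z m r + R.B23 w z m r - R.B13 w z m r) / 2) =
        -((a.c r + b.c r - c.c r) / 2) := by
      rw [← v.c12, ← v.c23, ← v.c13]; ring
    have e2 : (R.A12 w z m r + R.A23 w z m r - R.A13 w z m r) / 2 / r +
        (R.B12 w z m r + R.B23 w z m r - R.B13 w z m r) / 2 =
        (a.c r + b.c r - c.c r) / 2 := by
      rw [← v.c12, ← v.c23, ← v.c13]; ring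
    rw [e1] at h1
    rw [e2] at h2
    rcases abs_cases (a.c r + b.c r - c.c r) with ⟨h, _⟩ | ⟨h, _⟩ <;> rw [h] <;>
      linarith
  · intro h
    have := sk_slkP hp hn hb h
    rw [v.k12, v.k23, v.k13] at this
    exact this

theorem ml1_val (w z t r x a b c : ℝ) : ml1.v w z t r x a b c =
    G.mu x * ((4 - x) * (a + b - c) / 2 -
      (r * w * a + (1 + 2 * (r * w) + r * z) * b - (1 + r * t) * c) / 2) := by
  simp only [ml1, ml1_10, mu_val]
  unfold G.mu
  push_cast
  rw [one_div, add_comm (2 * G.gs x) 3]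

theorem ml2_val (w z t r x a b c : ℝ) : ml2.v w z t r x a b c =
    G.mu x * (((1 + r * z) * b + (2 * (1 + r * z) + r * w) * a - (1 + r * t) * c) / 2 -
      (4 - x) * (a + b - c) / 2) := by
  simp only [ml2, ml2_13, mu_val]
  unfold G.mu
  push_cast
  rw [one_div, add_comm (2 * G.gs x) 3]

theorem near_good {xi12 xi13 N S : ℝ} {a b c : Sv} (hp : PatF P R) (hf : NearF R)
    (D : Dm R w z m r) (hn : R.NF w z m r = -(G.be (m * r) * B.g w z))
    (hb : R.NU w z m r / r + R.BS w z m r = (1 + G.LAM (m * r) * G.mu (m * r)) * N / r +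
      ((1 + G.LAM (m * r) * G.mu (m * r)) * (S + ((w + z) * xi12 - w * xi13) / 2) +
        G.mu (m * r) * G.LAM (m * r) * m * G.q1 (m * r) / (2 * G.eh (m * r)) * B.g w z))
    (v : ValN R w z m r a b c) (hB : B.n = 0) (hB' : B.n' = 1) :
    Good R w z m r (RowC .near P B r m w z xi12 xi13 N S a b c) := by
  refine ⟨Pool.Agent.Strip051.LC.E1.lvn B r m w z (a.c r) (b.c r) (c.c r), D, ?_, ?_⟩
  · intro F h1 h2
    unfold RowF.V1A RowF.V1B at h1
    unfold RowF.V2A RowF.V2B at h2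
    rw [hf.v1, ml1_val, ml1_val] at h1
    rw [hf.v2, ml2_val, ml2_val] at h2
    have e1 : ∀ a12 a23 a13 b12 b23 b13 : ℝ,
        G.mu (m * r) * ((4 - m * r) * (a12 + a23 - a13) / 2 -
        (r * w * a12 + (1 + 2 * (r * w) + r * z) * a23 - (1 + r * (w + z)) * a13) / 2) / r +
        G.mu (m * r) * ((4 - m * r) * (b12 + b23 - b13) / 2 -
        (r * w * b12 + (1 + 2 * (r * w) + r * z) * b23 - (1 + r * (w + z)) * b13) / 2) =
        G.mu (m * r) * (((1 + r * z) * (a12 / r + b12) - r * w * (a23 / r + b23)) / 2 +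
          (3 - m * r - r * (w + z)) / 2 * ((a12 / r + b12) + (a23 / r + b23) -
            (a13 / r + b13))) := by
      intro a12 a23 a13 b12 b23 b13
      ring
    have e2 : ∀ a12 a23 a13 b12 b23 b13 : ℝ,
        G.mu (m * r) * (((1 + r * z) * a23 + (2 * (1 + r * z) + r * w) * a12 -
        (1 + r * (w + z)) * a13) / 2 - (4 - m * r) * (a12 + a23 - a13) / 2) / r +
        G.mu (m * r) * (((1 + r * z) * b23 + (2 * (1 + r * z) + r * w) * b12 -
        (1 + r * (w + z)) * b13) / 2 - (4 - m * r) * (b12 + b23 - b13) / 2) =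
        G.mu (m * r) * (((1 + r * z) * (a12 / r + b12) - r * w * (a23 / r + b23)) / 2 -
          (3 - m * r - r * (w + z)) / 2 * ((a12 / r + b12) + (a23 / r + b23) -
            (a13 / r + b13))) := by
      intro a12 a23 a13 b12 b23 b13
      ring
    rw [e1, v.c12, v.c23, v.c13] at h1
    rw [e2, v.c12, v.c23, v.c13] at h2
    unfold Pool.Agent.Strip051.LC.E1.lvn
    rw [hB, hB']
    rcases abs_cases (a.c r + b.c r - c.c r) with ⟨h, _⟩ | ⟨h, _⟩ <;> rw [h] <;>
      nlinarith [h1, h2]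
  · intro h
    have := sk_slkP hp hn hb h
    rw [v.k12, v.k23, v.k13] at this
    exact this

end

end Pool.Agent.Strip051.LC.E1.Ch
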