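import Pool.Agent.Strip051.LC.E1.Ch.Main
import Pool.Agent.Strip051.LC.E1.Ch.Fn6

/-! # Rests near the full period: one more row -/

set_option linter.unusedVariables false

namespace Pool.Agent.Strip051.LC.E1.Ch

open Pool.Agent.Strip051.PB

noncomputable def R_u6_n_f : RowF :=
  ⟨u_H4, nff_T1, nu0, bs_T1_Uf, tkkH4, k1m_zn, k1m_tp, taH4, zr7, zr7, zr7, l1m_zn, l1m_tp, vf1,
      vf2, lnz, lnt, lw, gm3⟩

noncomputable def B1_u6_n_f (h W Wd Z Zd M Q : ℕ) : Bool :=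
  body (fun c k s => dirT R_u6_n_f false c k s W Z M Q)
    noF noF noF (exits (exT R_u6_n_f W Z M Q) (exO R_u6_n_f ov_H4 W Z M Q) false) noF h

noncomputable def T1_u6_n_f : ℕ → ℕ → ℕ → ℕ → Bool := ch1 polpnn B1_u6_n_f

noncomputable def B2_u6_n_f (h W Wd Z Zd M Q : ℕ) : Bool :=
  body (fun c k s => dirT R_u6_n_f false c k s W Z M Q)
    noF noF noF (exits (exT R_u6_n_f W Z M Q) (exO R_u6_n_f ov_H4 W Z M Q) false) noF h

noncomputable def T2_u6_n_f : ℕ → ℕ → ℕ → ℕ → Bool := ch2 polpnn B2_u6_n_f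

noncomputable def R_u6_n_n : RowF :=
  ⟨u_H4, nfn_T1, nu0, bs_T1_Un, ntkkH4, nk1m_zn, nk1m_tp, taH4, zr7, zr7, zr7, l1m_zn, l1m_tp,
      ml1, ml2, lnz, lnt, lw, gm3⟩

noncomputable def B1_u6_n_n (h W Wd Z Zd M Q : ℕ) : Bool :=
  body (fun c k s => dirT R_u6_n_n false c k s W Z M Q)
    noF noF noF (exits (exT R_u6_n_n W Z M Q) (exO R_u6_n_n ov_H4 W Z M Q) false) noF h

noncomputable def T1_u6_n_n : ℕ → ℕ → ℕ → ℕ → Bool := ch1 polpnn B1_u6_n_n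

noncomputable def B2_u6_n_n (h W Wd Z Zd M Q : ℕ) : Bool :=
  body (fun c k s => dirT R_u6_n_n false c k s W Z M Q)
    noF noF noF (exits (exT R_u6_n_n W Z M Q) (exO R_u6_n_n ov_H4 W Z M Q) false) noF h

noncomputable def T2_u6_n_n : ℕ → ℕ → ℕ → ℕ → Bool := ch2 polpnn B2_u6_n_n

end Pool.Agent.Strip051.LC.E1.Ch
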