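import Pool.Agent.Strip051.LC.E1.Ch.Val5
import Pool.Agent.Strip051.LC.E1.Ch.Rw6

/-! # Rests near the full period: the last row of the first kind -/

set_option linter.unusedVariables false
set_option linter.unusedSimpArgs false

namespace Pool.Agent.Strip051.LC.E1.Ch

open Pool.Agent.Strip051.PB
open Pool.Agent.Strip051.LC.E1.G (hg)

theorem c5f_val (w m r : ℝ) : c5f.v w m (m * r) = G.c5 r m w := by
  simp only [c5f, lmf_val]
  unfold G.c5 hg
  push_cast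
  ring

theorem c6f_val (w m r : ℝ) : c6f.v w r (m * r) = G.c6 r m w := by
  simp only [c6f, lmf_val]
  unfold G.c6
  push_cast
  ring

theorem th_H4 {r m w z xi : ℝ} (hr : 0 < r) (x1 : m * r ≤ 1 / 40) (r1 : 1 / 100 ≤ r)
    (e : xi = E0.G.xi1 (w + z) r + E0.G.xi1 z r) {u1 u2 : ℝ} :
    (G.H4 xi r m w).k = tkkH4.v u1 w z (w + z) m r (m * r) ∧
    (G.H4 xi r m w).b = tkbH4.v u2 w z (w + z) m r (m * r) ∧
    (G.H4 xi r m w).c r = taH4.v (r * (xi - E0.G.xi1 (-w) r) - 3 / 20 * G.dQ r w) w z (w + z) m r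
      (m * r) / r := by
  refine ⟨?_, ?_, ?_⟩
  · show (G.H3 xi r m w).k = _
    simp only [tkkH4, kq0_val, xi1_val, xq0p_val]
    rw [← e]
    unfold G.H3
    push_cast
    simp only [sq5k, kq0_val, c3w_val]
    push_cast
    ring
  · show (G.H3 xi r m w).b = _
    simp only [tkbH4, bq0_val, xi1_val, xq0p_val]
    rw [← e]
    unfold G.H3
    simp only [sq5b, bq0_val, c3w_val, b0f_val]
    push_cast
    ring
  · simp only [taH4, c5f_val, c6f_val, c3w_val]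
    unfold G.H4 Sv.c
    push_cast
    rw [max_eq_left r1]
    simp only [div_eq_mul_inv, mul_inv]
    ring

theorem h4_r {r m w z xi : ℝ} (D : Dom .pnn r m w z) (e : xi = E0.G.xi1 (w + z) r + E0.G.xi1 z r)
    (h : 3 / 20 * G.dQ r w ≤ r * (xi - E0.G.xi1 (-w) r)) : 1 / 100 ≤ r := by
  by_contra hc
  push Not at hc
  obtain ⟨H1, H2, H3⟩ := hc_of D
  obtain ⟨ka, kb, kc⟩ : 0 ≤ w ∧ z ≤ 0 ∧ w + z ≤ 0 := D.ok
  have a1 := abs_le.1 (H1.b hc)
  have a2 := abs_le.1 (H2.b hc)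
  have a3 := abs_le.1 (H3.b hc)
  have d1 := D1_b H1.neg
  have d2 := D1_b H2
  have d3 := D1_b H3
  have s : 173 / 100 ≤ Real.sqrt (3 - 3 / 4 * (r * w) ^ 2) :=
    Real.le_sqrt_of_sq_le (by nlinarith)
  have e1 : r * E0.G.xi1 (-w) r = r * w * D1 (-w) r := by rw [xi1_D]; ring
  have e2 : r * E0.G.xi1 z r = -(r * z) * D1 z r := by rw [xi1_D]; ring
  have e3 : r * E0.G.xi1 (w + z) r = -(r * (w + z)) * D1 (w + z) r := by rw [xi1_D]; ring
  have w0 : 0 ≤ r * w := mul_nonneg H1.r0.le ka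
  have b1 : r * w * D1 (-w) r ≤ 7 / 160 := by nlinarith
  have b1' : 0 ≤ r * w * D1 (-w) r := mul_nonneg w0 d1.1
  have b2 : -(r * z) * D1 z r ≤ 7 / 160 := by
    have : 0 ≤ -(r * z) := by nlinarith [H1.r0]
    nlinarith
  have b3 : -(r * (w + z)) * D1 (w + z) r ≤ 7 / 160 := by
    have : 0 ≤ -(r * (w + z)) := by nlinarith [H1.r0]
    nlinarith
  unfold G.dQ at h
  have e4 : r * (E0.G.xi1 (w + z) r + E0.G.xi1 z r - E0.G.xi1 (-w) r) =
      r * E0.G.xi1 (w + z) r + r * E0.G.xi1 z r - r * E0.G.xi1 (-w) r := by ring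
  rw [e, e4, e1, e2, e3] at h
  linarith


theorem g_u6_n_f {r lam w z xi : ℝ} (D : Dom .pnn r lam w z) (e_xi : xi = E0.G.xi1 (w + z) r +
    E0.G.xi1 z r) (h1 : 3 / 20 * G.dQ r w ≤ r * (xi - E0.G.xi1 (-w) r)) (h2 : r * (xi - E0.G.xi1
      (-w) r) ≤ 3 / 5 * G.dQ r w) :
    Good R_u6_n_f w z lam r
      (RowU .far .pnn r lam w z xi (G.H4 xi r lam w) (-G.C1d r lam z) (G.C1d r lam (w + z))) := by
  obtain ⟨H1, H2, H3⟩ := hc_of D
  obtain ⟨ka, kb, kc⟩ : 0 ≤ w ∧ z ≤ 0 ∧ w + z ≤ 0 := D.ok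
  have hU : R_u6_n_f.U w z lam r = r * (xi - E0.G.xi1 (-w) r) - 3 / 20 * G.dQ r w := by
    simp only [RowF.U, R_u6_n_f, u_H4, xi1_val, xw0p_val, c3w_val]
    push_cast
    rw [e_xi]
    try ring
  have hu0 : 0 ≤ R_u6_n_f.U w z lam r := by
    rw [hU]
    linarith
  have hp : PatF .pnn R_u6_n_f := ⟨rfl, rfl, rfl, rfl⟩
  have hD := dm_of hp D hu0
  have th := th_H4 (u1 := R_u6_n_f.U w z lam r) (u2 := R_u6_n_f.U w z lam r) D.r0 D.e (h4_r D e_xi
    h1) e_xi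
  have hn : R_u6_n_f.NF w z lam r = -B1.g w z := by
    simp only [RowF.NF, R_u6_n_f, nff_T1, bef_val]
    unfold Bs.g B1
    push_cast
    ring
  have hb : R_u6_n_f.NU w z lam r / r + R_u6_n_f.BS w z lam r = 0 / r + (((G.x2 z r + G.x2 (w + z)
    r) / 2) + ((w + z) * (xi) - w * (E0.G.xi1 (w + z) r)) / 2) := by
    subst e_xi
    simp only [RowF.NU, RowF.BS, R_u6_n_f, nu0, bs_T1_Uf, bef_val, n1f_val, lmf_val, mu_val',
      qo_val, eh_val, om_val, zx_val, xi1_val, xi3_val, xiw_val]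
    rw [x2_eq H2, x2_eq H3]
    push_cast
    ring
  have k12 : R_u6_n_f.K12 w z lam r = ((G.H4 xi r lam w)).k := by
    show tkkH4.v _ _ _ _ _ _ _ = _
    rw [← th.1]
  have c12 : R_u6_n_f.A12 w z lam r / r + R_u6_n_f.B12 w z lam r = ((G.H4 xi r lam w)).c r := by
    show taH4.v (R_u6_n_f.U w z lam r) _ _ _ _ _ _ / r + zr7.v _ _ _ _ _ _ _ = _
    rw [hU, ← th.2.2]
    simp only [zr7]
    push_cast
    ring
  have k23 : R_u6_n_f.K23 w z lam r = ((-G.C1d r lam z)).k := by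
    unfold RowF.K23
    rw [hU]
    simp only [R_u6_n_f, k1m_zn]
    rw [neg_k, k1m_val H2]
  have c23 : R_u6_n_f.A23 w z lam r / r + R_u6_n_f.B23 w z lam r = ((-G.C1d r lam z)).c r := by
    unfold RowF.A23 RowF.B23
    rw [hU]
    simp only [R_u6_n_f, zr7, l1m_zn]
    rw [neg_c, cC1d H2]
    push_cast
    ring
  have k13 : R_u6_n_f.K13 w z lam r = ((G.C1d r lam (w + z))).k := by
    unfold RowF.K13
    rw [hU]
    simp only [R_u6_n_f, k1m_tp]
    rw [k1m_val H3]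
  have c13 : R_u6_n_f.A13 w z lam r / r + R_u6_n_f.B13 w z lam r = ((G.C1d r lam (w + z))).c r := by
    unfold RowF.A13 RowF.B13
    rw [hU]
    simp only [R_u6_n_f, zr7, l1m_tp]
    rw [cC1d H3]
    push_cast
    ring
  exact far_good hp ⟨rfl, rfl⟩ hD hn hb ⟨k12, k23, k13, c12, c23, c13⟩

theorem g_u6_n_n {r lam w z xi : ℝ} (D : Dom .pnn r lam w z) (e_xi : xi = E0.G.xi1 (w + z) r +
    E0.G.xi1 z r) (h1 : 3 / 20 * G.dQ r w ≤ r * (xi - E0.G.xi1 (-w) r)) (h2 : r * (xi - E0.G.xi1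
      (-w) r) ≤ 3 / 5 * G.dQ r w) :
    Good R_u6_n_n w z lam r
      (RowU .near .pnn r lam w z xi (G.H4 xi r lam w) (-G.C1d r lam z) (G.C1d r lam (w + z))) := by
  obtain ⟨H1, H2, H3⟩ := hc_of D
  obtain ⟨ka, kb, kc⟩ : 0 ≤ w ∧ z ≤ 0 ∧ w + z ≤ 0 := D.ok
  have hU : R_u6_n_n.U w z lam r = r * (xi - E0.G.xi1 (-w) r) - 3 / 20 * G.dQ r w := by
    simp only [RowF.U, R_u6_n_n, u_H4, xi1_val, xw0p_val, c3w_val]
    push_cast
    rw [e_xi]
    try ring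
  have hu0 : 0 ≤ R_u6_n_n.U w z lam r := by
    rw [hU]
    linarith
  have hp : PatF .pnn R_u6_n_n := ⟨rfl, rfl, rfl, rfl⟩
  have hD := dm_of hp D hu0
  have th := th_H4 (u1 := R_u6_n_n.U w z lam r) (u2 := R_u6_n_n.U w z lam r) D.r0 D.e (h4_r D e_xi
    h1) e_xi
  have hn : R_u6_n_n.NF w z lam r = -(G.be (lam * r) * B1.g w z) := by
    simp only [RowF.NF, R_u6_n_n, nfn_T1, bef_val]
    unfold Bs.g B1
    push_cast
    ring
  have hb : R_u6_n_n.NU w z lam r / r + R_u6_n_n.BS w z lam r =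
      (1 + G.LAM (lam * r) * G.mu (lam * r)) * 0 / r +
      ((1 + G.LAM (lam * r) * G.mu (lam * r)) * (((G.x2 z r + G.x2 (w + z) r) / 2) + ((w + z) *
        (xi) - w * (E0.G.xi1 (w + z) r)) / 2) +
        G.mu (lam * r) * G.LAM (lam * r) * lam * G.q1 (lam * r) / (2 * G.eh (lam * r)) * B1.g w z)
          := by
    subst e_xi
    simp only [RowF.NU, RowF.BS, R_u6_n_n, nu0, bs_T1_Un, bef_val, n1f_val, lmf_val, mu_val',
      qo_val, eh_val, om_val, zx_val, xi1_val, xi3_val, xiw_val]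
    rw [x2_eq H2, x2_eq H3]
    unfold Bs.g B1
    push_cast
    ring
  have k12 : R_u6_n_n.K12 w z lam r = G.nk (lam * r) ((G.H4 xi r lam w)).k ((G.H4 xi r lam w)).b :=
    by
    show nkf.v (lam * r) (tkkH4.v _ _ _ _ _ _ _) (tkbH4.v _ _ _ _ _ _ _) = _
    rw [nkf_val, ← th.1, ← th.2.1]
    rfl
  have c12 : R_u6_n_n.A12 w z lam r / r + R_u6_n_n.B12 w z lam r = ((G.H4 xi r lam w)).c r := by
    show taH4.v (R_u6_n_n.U w z lam r) _ _ _ _ _ _ / r + zr7.v _ _ _ _ _ _ _ = _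
    rw [hU, ← th.2.2]
    simp only [zr7]
    push_cast
    ring
  have k23 : R_u6_n_n.K23 w z lam r = G.nk (lam * r) ((-G.C1d r lam z)).k ((-G.C1d r lam z)).b := by
    unfold RowF.K23
    rw [hU]
    simp only [R_u6_n_n, nk1m_zn, k1m_zn, b1m_zn, nkf_val]
    unfold G.nk
    rw [neg_k, neg_b, k1m_val H2, b1m_val H2]
  have c23 : R_u6_n_n.A23 w z lam r / r + R_u6_n_n.B23 w z lam r = ((-G.C1d r lam z)).c r := by
    unfold RowF.A23 RowF.B23
    rw [hU]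
    simp only [R_u6_n_n, zr7, l1m_zn]
    rw [neg_c, cC1d H2]
    push_cast
    ring
  have k13 : R_u6_n_n.K13 w z lam r = G.nk (lam * r) ((G.C1d r lam (w + z))).k ((G.C1d r lam (w +
    z))).b := by
    unfold RowF.K13
    rw [hU]
    simp only [R_u6_n_n, nk1m_tp, k1m_tp, b1m_tp, nkf_val]
    unfold G.nk
    rw [k1m_val H3, b1m_val H3]
  have c13 : R_u6_n_n.A13 w z lam r / r + R_u6_n_n.B13 w z lam r = ((G.C1d r lam (w + z))).c r := by
    unfold RowF.A13 RowF.B13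
    rw [hU]
    simp only [R_u6_n_n, zr7, l1m_tp]
    rw [cC1d H3]
    push_cast
    ring
  exact near_good hp ⟨rfl, rfl⟩ hD hn hb ⟨k12, k23, k13, c12, c23, c13⟩ rfl rfl

end Pool.Agent.Strip051.LC.E1.Ch
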