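import Pool.Agent.Strip051.LC.E1.Ch.Lk
import Pool.Agent.Strip051.LC.E1.Ch.Te
import Pool.Agent.Strip051.LC.E1.Ch.U6
import Pool.Agent.Strip051.LC.E1.Ch.Cert.Q1

/-! # Rests near the full period: the last row of the first kind -/

set_option linter.unusedVariables false
set_option linter.unusedSimpArgs false

namespace Pool.Agent.Strip051.LC.E1.Ch

open Pool.Agent.Strip051.PB
open Pool.Agent.Strip051.LC.E0.Ch (onCell Tree)
open Pool.Agent.Strip051.LC.E1.G (hg)

theorem r_u6_n_f (t1 : Tree 0 2684354560 0 1073741824 0 26843546 T1_u6_n_f)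
    (t2 : Tree 0 1073741824 0 429496730 0 67108864 T2_u6_n_f) :
    ∀ r lam w z xi : ℝ, Dom .pnn r lam w z → xi = E0.G.xi1 (w + z) r + E0.G.xi1 z r → 3 / 20 *
        G.dQ r w ≤ r * (xi - E0.G.xi1 (-w) r) → r * (xi - E0.G.xi1 (-w) r) ≤ 3 / 5 * G.dQ r w →
    RowU .far .pnn r lam w z xi (G.H4 xi r lam w) (-G.C1d r lam z) (G.C1d r lam (w + z)) := by
  intro r lam w z xi D e_xi h1 h2
  have g := g_u6_n_f D e_xi h1 h2
  obtain ⟨H1, H2, H3⟩ := hc_of D
  have ho : R_u6_n_f.U w z lam r ≤ (ov_H4).v w z lam r := by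
    simp only [RowF.U, R_u6_n_f, u_H4, ov_H4, zx_val, xi1_val, xi3_val, xiw_val, xw0p_val,
        xq0p_val, c3w_val]
    try unfold G.xiq at *
    push_cast
    rw [e_xi] at h2
    linarith
  obtain ⟨ka, kb, kc⟩ : 0 ≤ w ∧ z ≤ 0 ∧ w + z ≤ 0 := D.ok
  refine charts t1 t2 (crd_pnn D) D.r0 D.l0 ?_ ?_
  · intro e1 r1 E h W Wd Z Zd M Q N wd zd kw kwd kz kzd km kr ew ez hN hh
    refine body_sound ?_ ?_ ?_ ?_ ?_ ?_ hh
    · exact fun c k s h0 => g.of_sk fun lev D' hl => dirT_sound kw kz km kr D' (fun e => absurd e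
        Bool.false_ne_true) hl h0
    · exact noF_sound
    · exact noF_sound
    · exact noF_sound
    · exact exits_sound (fun h0 => g.of_ex fun D' => exT_sound kw kz km kr D' h0) (fun h0 =>
        g.of_ex fun D' => exO_sound kw kz km kr ho h0) (fun h0 => absurd h0 Bool.false_ne_true)
    · exact noF_sound
  · intro E h W Wd Z Zd M Q N wd zd kw kwd kz kzd km kr ew ez hN hh
    refine body_sound ?_ ?_ ?_ ?_ ?_ ?_ hh
    · exact fun c k s h0 => g.of_sk fun lev D' hl => dirT_sound kw kz km kr D' (fun e => absurd e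
        Bool.false_ne_true) hl h0
    · exact noF_sound
    · exact noF_sound
    · exact noF_sound
    · exact exits_sound (fun h0 => g.of_ex fun D' => exT_sound kw kz km kr D' h0) (fun h0 =>
        g.of_ex fun D' => exO_sound kw kz km kr ho h0) (fun h0 => absurd h0 Bool.false_ne_true)
    · exact noF_sound

theorem r_u6_n_n (t1 : Tree 0 2684354560 0 1073741824 0 26843546 T1_u6_n_n)
    (t2 : Tree 0 1073741824 0 429496730 0 67108864 T2_u6_n_n) :
    ∀ r lam w z xi : ℝ, Dom .pnn r lam w z → xi = E0.G.xi1 (w + z) r + E0.G.xi1 z r → 3 / 20 *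
        G.dQ r w ≤ r * (xi - E0.G.xi1 (-w) r) → r * (xi - E0.G.xi1 (-w) r) ≤ 3 / 5 * G.dQ r w →
    RowU .near .pnn r lam w z xi (G.H4 xi r lam w) (-G.C1d r lam z) (G.C1d r lam (w + z)) := by
  intro r lam w z xi D e_xi h1 h2
  have g := g_u6_n_n D e_xi h1 h2
  obtain ⟨H1, H2, H3⟩ := hc_of D
  have ho : R_u6_n_n.U w z lam r ≤ (ov_H4).v w z lam r := by
    simp only [RowF.U, R_u6_n_n, u_H4, ov_H4, zx_val, xi1_val, xi3_val, xiw_val, xw0p_val,
        xq0p_val, c3w_val]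
    try unfold G.xiq at *
    push_cast
    rw [e_xi] at h2
    linarith
  obtain ⟨ka, kb, kc⟩ : 0 ≤ w ∧ z ≤ 0 ∧ w + z ≤ 0 := D.ok
  refine charts t1 t2 (crd_pnn D) D.r0 D.l0 ?_ ?_
  · intro e1 r1 E h W Wd Z Zd M Q N wd zd kw kwd kz kzd km kr ew ez hN hh
    refine body_sound ?_ ?_ ?_ ?_ ?_ ?_ hh
    · exact fun c k s h0 => g.of_sk fun lev D' hl => dirT_sound kw kz km kr D' (fun e => absurd e
        Bool.false_ne_true) hl h0
    · exact noF_sound
    · exact noF_sound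
    · exact noF_sound
    · exact exits_sound (fun h0 => g.of_ex fun D' => exT_sound kw kz km kr D' h0) (fun h0 =>
        g.of_ex fun D' => exO_sound kw kz km kr ho h0) (fun h0 => absurd h0 Bool.false_ne_true)
    · exact noF_sound
  · intro E h W Wd Z Zd M Q N wd zd kw kwd kz kzd km kr ew ez hN hh
    refine body_sound ?_ ?_ ?_ ?_ ?_ ?_ hh
    · exact fun c k s h0 => g.of_sk fun lev D' hl => dirT_sound kw kz km kr D' (fun e => absurd e
        Bool.false_ne_true) hl h0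
    · exact noF_sound
    · exact noF_sound
    · exact noF_sound
    · exact exits_sound (fun h0 => g.of_ex fun D' => exT_sound kw kz km kr D' h0) (fun h0 =>
        g.of_ex fun D' => exO_sound kw kz km kr ho h0) (fun h0 => absurd h0 Bool.false_ne_true)
    · exact noF_sound

theorem a_u6_n_f :
    ∀ r lam w z xi : ℝ, Dom .pnn r lam w z → xi = E0.G.xi1 (w + z) r + E0.G.xi1 z r → 3 / 20 *
        G.dQ r w ≤ r * (xi - E0.G.xi1 (-w) r) → r * (xi - E0.G.xi1 (-w) r) ≤ 3 / 5 * G.dQ r w →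
    RowU .far .pnn r lam w z xi (G.H4 xi r lam w) (-G.C1d r lam z) (G.C1d r lam (w + z)) :=
  r_u6_n_f x1_u6_n_f x2_u6_n_f

theorem a_u6_n_n :
    ∀ r lam w z xi : ℝ, Dom .pnn r lam w z → xi = E0.G.xi1 (w + z) r + E0.G.xi1 z r → 3 / 20 *
        G.dQ r w ≤ r * (xi - E0.G.xi1 (-w) r) → r * (xi - E0.G.xi1 (-w) r) ≤ 3 / 5 * G.dQ r w →
    RowU .near .pnn r lam w z xi (G.H4 xi r lam w) (-G.C1d r lam z) (G.C1d r lam (w + z)) :=
  r_u6_n_n x1_u6_n_n x2_u6_n_n

end Pool.Agent.Strip051.LC.E1.Ch
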