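import Pool.Agent.Strip051.LC.E1.Ch.Lin

/-! # Rests near the full period: leaves next to the line through the lattice shape -/

set_option linter.unusedVariables false

namespace Pool.Agent.Strip051.LC.E1.Ch

open Pool.Agent.Strip051.PB

attribute [local irreducible] padd psub pneg pmul psq pinv psqrt psqrtg pabs pps pmax pmin pphi
    plam
  pcase phf pnat prat pscale pnorm pdc pnc pone ppos pnn Enc

/-- inside the gap, with a margin if `mar` -/
noncomputable def inL (mar : Bool) (X Q M La Lb Ld LF LN Na Nb Nd Da Db Dd Pa V1d V2d : ℕ) : Bool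
    :=
  frc (psub (lnf_ccvvv.s X M La Lb Ld Na Nb Nd Da Db Dd) (ltf.t X Q La LF Da Pa)) fun F0 =>
  frc (Bool.rec (motive := fun _ => ℕ) F0 (psub F0 (prat 1 128)) mar) fun F =>
  band (pnn (padd F V1d)) (band (pnn (padd F V2d)) (pnn (cinf.t Q LN Da Pa)))

/-- beyond the gap -/
noncomputable def ouL (X Q M La Lb Ld LN NFa NFb NFd BRd Da Pa V1d V2d : ℕ) : Bool :=
  band (pnn NFa) (band (ppos (col.t Q La Da Pa))
    (frc (psub (padd (pnat 32 (padd (pmul NFa (m2f_cv.s M La Lb Ld)) (pmul NFd (m2f.t M Lb))))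
        BRd) (lab.t X M La LN Da Pa)) fun F =>
      band (pnn (padd F V1d)) (pnn (padd F V2d))))

/-- leaf at a line: `j = 0` inside, `j = 1` beyond, else both -/
noncomputable def lineT {R : RowF} {q : Bool} (S : RowS R q) (sd j W Z M Q NN : ℕ) : Bool :=
  band (pnn (psub W (pmul (prat 3 5) M))) (band (pnn (psub (pmul (prat 11 10) M) W))
    (band (pnn (psub (prat 1 10) NN))
    (frc (pneg W) fun Zb => frc (pnorm (pmul M Q)) fun X =>
    pval S false W W pzero Z Zb sd M Q fun Ua Ub Ud NUa NUb NUd NFa NFb NFd BSa BSb BSd La Lb Ld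
        Aa Ab Ad Ba Bb Bd GMa GMb GMd DSa DSb DSd GPa GPb GPd V1Aa V1Ab V1Ad V1Ba V1Bb V1Bd V2Aa
        V2Ab V2Ad V2Ba V2Bb V2Bd BNa BNb BNd =>
      band (pnn DSa)
        (Bool.rec (motive := fun _ => Bool)
          (Bool.rec (motive := fun _ => Bool)
            (band (inL true X Q M La Lb Ld Aa Ba BNa BNb BNd DSa DSb DSd GPa V1Bd V2Bd)
              (ouL X Q M La Lb Ld Ba NFa NFb NFd (brf_cccvvvvvv.s X Q M La Lb Ld (pnorm (psub Aa
                  Ba)) (pnorm (psub Ab Bb)) (pnorm (psub Ad Bd)) NFa NFb NFd GMa GMb GMd DSa DSb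
                  DSd BSa BSb BSd) DSa GPa V1Bd V2Bd))
            (band (pnn (psub (psub W (phf (phf (phf NN)))) M))
              (ouL X Q M La Lb Ld Ba NFa NFb NFd (brf_cccvvvvvv.s X Q M La Lb Ld (pnorm (psub Aa
                  Ba)) (pnorm (psub Ab Bb)) (pnorm (psub Ad Bd)) NFa NFb NFd GMa GMb GMd DSa DSb
                  DSd BSa BSb BSd) DSa GPa V1Bd V2Bd)) (Nat.beq j 1))
          (band (pnn (psub M W))
            (inL false X Q M La Lb Ld Aa Ba BNa BNb BNd DSa DSb DSd GPa V1Bd V2Bd)) (Nat.beq j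
                0)))))

/-- What is known at the line. -/
structure LineB (R : RowF) (t w z m r : ℝ) : Prop where
  i1 : 3 / 5 * m ≤ t → t ≤ m →
    0 ≤ lnf.v (m * r) m (R.L w z) (R.BN w z m r) (R.DS w z m r) + R.V1B w z m r
  i2 : 3 / 5 * m ≤ t → t ≤ m →
    0 ≤ lnf.v (m * r) m (R.L w z) (R.BN w z m r) (R.DS w z m r) + R.V2B w z m r
  w1 : m ≤ t → t ≤ m + 1 / 80 → -((t - m) / 16) ≤
    lnf.v (m * r) m (R.L w z) (R.BN w z m r) (R.DS w z m r) + R.V1B w z m r
  w2 : m ≤ t → t ≤ m + 1 / 80 → -((t - m) / 16) ≤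
    lnf.v (m * r) m (R.L w z) (R.BN w z m r) (R.DS w z m r) + R.V2B w z m r
  o1 : m ≤ t → t ≤ 11 / 10 * m →
    0 ≤ 32 * (R.NF w z m r * m2f.v m (R.L w z)) + R.BR w z m r + R.V1B w z m r
  o2 : m ≤ t → t ≤ 11 / 10 * m →
    0 ≤ 32 * (R.NF w z m r * m2f.v m (R.L w z)) + R.BR w z m r + R.V2B w z m r

theorem finf_lnf (x r m l lf bn ds gp : ℝ) :
    finf.v x r m l lf bn ds gp = lnf.v x m l bn ds - lf * ltf.v x r l lf ds gp := by
  rw [finf_val, lnf_val, ltf_val]; ring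

theorem abf_lab (x m l a b ds gp : ℝ) : abf.v x m l a b ds gp = a * lab.v x m l b ds gp := by
  rw [abf_val, lab_val]; ring

section

variable {E : Pt} {X Q M La Lb Ld LF LN Na Nb Nd Da Db Dd Pa V1d V2d : ℕ}
  {N x r m l l' ln bn bn' ds ds' gp v1 v1' v1d v2 v2' v2d : ℝ}

theorem inL_sound {mar : Bool} (hx : Enc E X x) (hr : Enc E Q r) (hm : Enc E M m)
    (hl : Pr E N La Lb Ld l l') (hf : Enc E LF N)
    (hn : Enc E LN ln) (hb : Pr E N Na Nb Nd bn bn') (hd : Pr E N Da Db Dd ds ds')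
    (hp : Enc E Pa gp) (k1 : Enc E V1d v1d) (k2 : Enc E V2d v2d)
    (e1 : v1 - v1' = N * v1d) (e2 : v2 - v2' = N * v2d) (hN : 0 ≤ N)
    (h : inL mar X Q M La Lb Ld LF LN Na Nb Nd Da Db Dd Pa V1d V2d = true)
    (g1 : (bif mar then -(N / 128) else 0) ≤ lnf.v x m l' bn' ds' + v1')
    (g2 : (bif mar then -(N / 128) else 0) ≤ lnf.v x m l' bn' ds' + v2') :
    InR x r m l N ln 0 bn ds gp v1 v2 := by
  unfold inL at h
  simp only [frc_eq] at h
  obtain ⟨t1, h⟩ := band_true h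
  obtain ⟨t2, t3⟩ := band_true h
  obtain ⟨d, kd, ed⟩ := (lnf_ccvvv.snd hx hm hl hb hd).d
  have kt := enc_sub kd (ltf.enc hx hr hl.l hf hd.l hp)
  have key : ∀ {v v' vd : ℝ} {VD : ℕ}, Enc E VD vd → v - v' = N * vd →
      pnn (padd (Bool.rec (motive := fun _ => ℕ) (psub (lnf_ccvvv.s X M La Lb Ld Na Nb Nd Da Db
          Dd)
        (ltf.t X Q La LF Da Pa)) (psub (psub (lnf_ccvvv.s X M La Lb Ld Na Nb Nd Da Db Dd)
        (ltf.t X Q La LF Da Pa)) (prat 1 128)) mar) VD) = true →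
      (bif mar then -(N / 128) else 0) ≤ lnf.v x m l' bn' ds' + v' →
      0 ≤ 0 + finf.v x r m l N bn ds gp + v := by
    intro v v' vd VD kv ev ht hg
    rw [finf_lnf, zero_add]
    cases mar
    · have h1 := pnn_sound (enc_add kt kv) ht
      simp only [cond_false] at hg
      have h2 := mul_nonneg hN h1
      nlinarith
    · have h1 := pnn_sound (enc_add (enc_sub kt (enc_rat E 1 128)) kv) ht
      simp only [cond_true] at hg
      have h2 := mul_nonneg hN h1
      push_cast at h2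
      nlinarith
  exact ⟨⟨key k1 e1 t1 g1, key k2 e2 t2 g2⟩, pnn_sound (cinf.enc hr hn hd.l hp) t3⟩

end

section

variable {E : Pt} {X Q M La Lb Ld LN NFa NFb NFd BRd Da Pa V1d V2d : ℕ}
  {N x r m l l' ln nf nf' br br' brd D gp v1 v1' v1d v2 v2' v2d : ℝ}

theorem ouL_sound (hx : Enc E X x) (hr : Enc E Q r) (hm : Enc E M m) (hl : Pr E N La Lb Ld l l')
    (hn : Enc E LN ln) (hG : Pr E N NFa NFb NFd nf nf')
    (hb : Enc E BRd brd) (hd : Enc E Da D) (hp : Enc E Pa gp)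
    (k1 : Enc E V1d v1d) (k2 : Enc E V2d v2d) (e0 : br - br' = N * brd)
    (e1 : v1 - v1' = N * v1d) (e2 : v2 - v2' = N * v2d) (hN : 0 ≤ N) (r0 : 0 < r) (r1 : r ≤ 1 /
        32)
    (h : ouL X Q M La Lb Ld LN NFa NFb NFd BRd Da Pa V1d V2d = true)
    (g1 : 0 ≤ 32 * (nf' * m2f.v m l') + br' + v1') (g2 : 0 ≤ 32 * (nf' * m2f.v m l') + br' + v2')
        :
    0 < gp - 9 * (r * D * l) ∧ P2 v1 v2 (nf / r * (1 - m / l) ^ 2 + br - N * lab.v x m l ln D gp)
        := by
  unfold ouL at h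
  simp only [frc_eq] at h
  obtain ⟨t0, h⟩ := band_true h
  obtain ⟨t3, h⟩ := band_true h
  obtain ⟨t1, t2⟩ := band_true h
  have hg := pnn_sound hG.l t0
  obtain ⟨d, kd, ed⟩ := (pr_mul hG (m2f_cv.snd hm hl)).d
  have kF := enc_sub (enc_add (enc_nat 32 kd) hb) (lab.enc hx hm hl.l hn hd hp)
  have le : 32 * (nf * m2f.v m l) ≤ nf / r * (1 - m / l) ^ 2 := by
    rw [m2f_val, div_eq_mul_inv m l, ← mul_assoc]
    refine mul_le_mul_of_nonneg_right ?_ (sq_nonneg _)
    rw [le_div_iff₀ r0]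
    nlinarith
  have key : ∀ {v v' vd : ℝ} {VD : ℕ}, Enc E VD vd → v - v' = N * vd →
      pnn (padd (psub (padd (pnat 32 (padd (pmul NFa (m2f_cv.s M La Lb Ld)) (pmul NFd (m2f.t M
          Lb)))) BRd) (lab.t X M La LN Da Pa)) VD) =
        true → 0 ≤ 32 * (nf' * m2f.v m l') + br' + v' →
        0 ≤ nf / r * (1 - m / l) ^ 2 + br - N * lab.v x m l ln D gp + v := by
    intro v v' vd VD kv ev ht hg
    have h1 := mul_nonneg hN (pnn_sound (enc_add kF kv) ht)
    push_cast at h1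
    nlinarith
  refine ⟨?_, key k1 e1 t1 g1, key k2 e2 t2 g2⟩
  have := ppos_sound (col.enc hr hl.l hd hp) t3
  rwa [col_val] at this

end

section

variable {E : Pt} {R : RowF} {q : Bool} {S : RowS R q}
  {j sd W Z M Q NN : ℕ} {w z m r sg lev : ℝ}

theorem lineT_sound (hw : Enc E W w) (hz : Enc E Z z) (hm : Enc E M m) (hr : Enc E Q r)
    (hs : Enc E sd sg) (hs1 : sg * sg = 1)
    (hn : Enc E NN (sg * (w + z))) (hN : 0 ≤ sg * (w + z)) (hq : q = true → R.U w (-w) m r = 0)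
    (D : Dm R w z m r) (B : LineB R w w (-w) m r) (um : Um R w z m r)
    (hA : R.A w z = sg * (w + z)) (hB : R.B w z ≤ R.L w z) (hL : w ≤ R.L w z) (hr1 : r ≤ 1 / 32)
    (hlev : R.Lv w z m r lev)
    (h : lineT S sd j W Z M Q NN = true) : R.Sk w z m r lev := by
  unfold lineT at h
  obtain ⟨r1, h⟩ := band_true h
  obtain ⟨r2, h⟩ := band_true h
  obtain ⟨r3, h⟩ := band_true h
  have hr1' := pnn_sound (enc_sub hw (enc_mul (enc_rat E 3 5) hm)) r1
  have hr2 := pnn_sound (enc_sub (enc_mul (enc_rat E 11 10) hm) hw) r2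
  have hr3 := pnn_sound (enc_sub (enc_rat E 1 10) hn) r3
  push_cast at hr1' hr2 hr3
  simp only [frc_eq] at h
  have hX : Enc E (pnorm (pmul M Q)) (m * r) := enc_norm (enc_mul hm hr)
  have hW : Pr E (sg * (w + z)) W W pzero w w := pr_const hw
  have hZ : Pr E (sg * (w + z)) Z (pneg W) sd z (-w) :=
    ⟨hz, enc_neg hw, sg, hs, by linear_combination (-(w + z)) * hs1⟩
  obtain ⟨Ua, Ub, Ud, NUa, NUb, NUd, NFa, NFb, NFd, BSa, BSb, BSd, La, Lb, Ld, Aa, Ab, Ad, Ba,
      Bb, Bd, GMa, GMb, GMd, DSa, DSb, DSd, GPa, GPb, GPd, V1Aa, V1Ab, V1Ad, V1Ba, V1Bb, V1Bd,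
      V2Aa, V2Ab, V2Ad, V2Ba, V2Bb, V2Bd, BNa, BNb, BNd, h, F⟩ := pval_sound hW hZ hm hr hq (fun
      e => absurd e Bool.false_ne_true) h
  set N := sg * (w + z) with hNd
  obtain ⟨t0, h⟩ := band_true h
  have h0 := pnn_sound F.ds.l t0
  obtain ⟨v1d, k1, e1⟩ := F.v1b.d
  obtain ⟨v2d, k2, e2⟩ := F.v2b.d
  have hAe : Enc E Aa N := by rw [← hA]; exact F.a.l
  obtain ⟨brd, kb, eb⟩ := (brf_cccvvvvvv.snd hX hr hm F.l (pr_norm (pr_sub F.a F.b)) F.nf F.gm
      F.ds
    F.bs).d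
  have hlv : ∀ F' : ℝ, 0 ≤ F' + R.V1B w z m r → 0 ≤ F' + R.V2B w z m r → 0 ≤ F' - lev := by
    intro F' g1 g2
    refine hlev F' ?_ ?_
    · rw [um.v1]; simpa using g1
    · rw [um.v2]; simpa using g2
  have IN : ∀ mar : Bool, (mar = false → w ≤ m) → (mar = true → w - m ≤ N / 8) →
      inL mar (pnorm (pmul M Q)) Q M La Lb Ld Aa Ba BNa BNb BNd DSa DSb DSd GPa V1Bd V2Bd = true →
      R.Sk w z m r lev := by
    intro mar m1 m2 hi
    have key : ∀ v : ℝ, (3 / 5 * m ≤ w → w ≤ m →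
        0 ≤ lnf.v (m * r) m (R.L w (-w)) (R.BN w (-w) m r) (R.DS w (-w) m r) + v) →
        (m ≤ w → w ≤ m + 1 / 80 → -((w - m) / 16) ≤
        lnf.v (m * r) m (R.L w (-w)) (R.BN w (-w) m r) (R.DS w (-w) m r) + v) →
        (bif mar then -(N / 128) else 0) ≤
        lnf.v (m * r) m (R.L w (-w)) (R.BN w (-w) m r) (R.DS w (-w) m r) + v := by
      intro v i1 w1
      cases mar
      · simp only [cond_false]
        exact i1 (by linarith) (m1 rfl)
      · simp only [cond_true]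
        have m4 := m2 rfl
        rcases le_or_gt w m with h1 | h1
        · have := i1 (by linarith) h1
          have : 0 ≤ N / 128 := by positivity
          linarith
        · have := w1 h1.le (by linarith)
          linarith
    have r1 := inL_sound (v1 := R.V1B w z m r) (v2 := R.V2B w z m r) hX hr hm F.l hAe F.b.l F.bn
      F.ds F.gp.l k1 k2 e1 e2 hN hi (key _ B.i1 B.w1) (key _ B.i2 B.w2)
    refine sk_of_res (nnr := 0) (fo := R.FO w z m r)
      (bs' := (R.NU w z m r + R.NF w z m r) / r + R.BS w z m r) D rfl rfl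
      (nr := 0) (bn' := R.BN w z m r) (by rw [um.nu]; simp) (by linarith) le_rfl hlv
      (Or.inl (Or.inr ⟨h0, ?_⟩))
    rw [hA]
    exact r1
  have OU : N / 8 ≤ w - m →
      ouL (pnorm (pmul M Q)) Q M La Lb Ld Ba NFa NFb NFd (brf_cccvvvvvv.s (pnorm (pmul M Q)) Q M
          La Lb Ld (pnorm (psub Aa Ba)) (pnorm (psub Ab Bb)) (pnorm (psub Ad Bd)) NFa NFb NFd GMa
          GMb GMd DSa DSb DSd BSa BSb BSd) DSa GPa V1Bd V2Bd = true → R.Sk w z m r lev := by
    intro m2 hi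
    have hN16 : 0 ≤ N / 8 := by positivity
    obtain ⟨f0, f1⟩ := ouL_sound (v1 := R.V1B w z m r) (v2 := R.V2B w z m r)
      hX hr hm F.l F.b.l F.nf kb F.ds.l F.gp.l k1 k2 eb e1 e2 hN D.r0 hr1 hi
      (B.o1 (by linarith) (by linarith)) (B.o2 (by linarith) (by linarith))
    have hd : 0 ≤ R.DS w z m r := h0
    have hrd : 0 ≤ r * R.DS w z m r := mul_nonneg D.r0.le hd
    have hl1 : m ≤ R.L w z := by linarith
    have hrl : r * R.DS w z m r * m ≤ r * R.DS w z m r * R.L w z :=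
      mul_le_mul_of_nonneg_left hl1 hrd
    have hrl0 : 0 ≤ r * R.DS w z m r * m := mul_nonneg hrd D.m0.le
    refine sk_of_res (nr := 0) (nnr := 0) (fo := R.FO w z m r)
      (bs' := (R.NU w z m r + R.NF w z m r) / r + R.BS w z m r) (bn' := R.BN w z m r) D rfl rfl
      (by rw [um.nu]; simp) (by linarith) le_rfl hlv (Or.inr (Or.inr (Or.inl ⟨Or.inr ⟨h0, ?_,
          ?_⟩, ?_⟩)))
    · rw [couf_val, hA]
      have hgp : 0 ≤ R.GP w z m r := by linarith
      have h3 : 0 ≤ N / 8 * (R.GP w z m r - 9 * (r * R.DS w z m r * R.L w z)) :=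
        mul_nonneg hN16 f0.le
      have h4 : 0 ≤ (R.L w z - m - N / 8) * R.GP w z m r := mul_nonneg (by linarith) hgp
      have h5 : 0 ≤ N * (r * R.DS w z m r * R.L w z - r * R.DS w z m r * m) :=
        mul_nonneg hN (by linarith)
      have h6 : 0 ≤ N * (r * R.DS w z m r * m) := mul_nonneg hN hrl0
      nlinarith
    · rw [cinf_val]
      have h6 : r * (R.DS w z m r * R.B w z) ≤ r * R.DS w z m r * R.L w z := by
        have := mul_le_mul_of_nonneg_left hB hrd
        nlinarith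
      linarith
    · have e5 : R.FO w z m r = R.NF w z m r / r * (1 - m / R.L w z) ^ 2 + R.BR w z m r -
          N * lab.v (m * r) m (R.L w z) (R.B w z) (R.DS w z m r) (R.GP w z m r) := by
        unfold RowF.FO
        rw [um.nu, abf_lab, hA]
        simp
      rw [e5]
      exact f1
  rcases j0 : Nat.beq j 0 with _ | _ <;> rw [j0] at h
  · rcases j1 : Nat.beq j 1 with _ | _ <;> rw [j1] at h
    · obtain ⟨q1, q2⟩ := band_true h
      rcases le_total (w - m) (N / 8) with h1 | h1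
      · exact IN true (fun e => absurd e.symm Bool.false_ne_true) (fun _ => h1) q1
      · exact OU h1 q2
    · obtain ⟨q1, q2⟩ := band_true h
      have hh : Enc E (phf (phf (phf NN))) (N / 2 / 2 / 2) :=
        enc_half (enc_half (enc_half hn))
      have h1 := pnn_sound (enc_sub (enc_sub hw hh) hm) q1
      exact OU (by linarith) q2
  · obtain ⟨q1, q2⟩ := band_true h
    have h1 := pnn_sound (enc_sub hm hw) q1
    exact IN false (fun _ => by linarith) (fun e => absurd e Bool.false_ne_true) q2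

end

end Pool.Agent.Strip051.LC.E1.Ch

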