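import Pool.Agent.Strip051.LC.E1.Ch.Val5
import Pool.Agent.Strip051.LC.E1.Ch.Line

/-! # Rests near the full period: the line through the lattice shape, geometry -/

set_option linter.unusedVariables false
set_option linter.unusedSimpArgs false

namespace Pool.Agent.Strip051.LC.E1.Ch

open Pool.Agent.Strip051.PB

namespace Lb

/-- The slope of the position. -/
noncomputable def c1 (w r : ℝ) : ℝ :=
  3 / 4 * (2 - r - r * w) / (E0.G.cc1 (-w) r + G.gs r)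

noncomputable def ic (w r : ℝ) : ℝ :=
  (1 + (E0.G.cc1 (-w) r / 2 + 3 / 4 * (1 - r * w)))⁻¹

/-- The slope of `s ic`. -/
noncomputable def qd (w r : ℝ) : ℝ :=
  (1 / 2 + c1 w r) * ic w r - G.ig r * ic w r * (r * (c1 w r / 2 - 3 / 4))

noncomputable def bd (w r : ℝ) : ℝ :=
  -(3 / 8 * ((G.gs r + (1 - r) * c1 w r) / (G.gs r * (E0.G.cc1 (-w) r + G.gs r))))

section

variable {w r : ℝ} (r0 : 0 < r) (r1 : r ≤ 1 / 40) (w0 : 3 / 5 ≤ w) (w1 : w ≤ 11 / 10)

include r0 r1 w0 w1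

theorem hc : Hc r 1 (-w) := by
  have h : |r * -w| ≤ 11 / 10 * r := by
    rw [abs_le]
    constructor <;> nlinarith
  exact ⟨r0, h.trans (by linarith), fun e => h.trans (by linarith), fun e => by linarith⟩

theorem cw_eq : E0.G.cc1 (-w) r = 1 / 2 + r * E0.G.xi1 (-w) r := by
  have H := hc r0 r1 w0 w1
  have h2 := cc1_ge H
  have h1 := abs_le.1 H.a
  have h3 : E0.G.cc1 (-w) r ^ 2 = 1 - 3 / 4 * (1 + r * -w) ^ 2 := Real.sq_sqrt (by nlinarith)
  have h4 : 1 / 2 + E0.G.cc1 (-w) r ≠ 0 := by linarith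
  have h5 : E0.G.xi1 (-w) r * (1 / 2 + E0.G.cc1 (-w) r) = -(3 / 4 * -w * (2 + r * -w)) := by
    unfold E0.G.xi1
    field_simp
  have : (E0.G.cc1 (-w) r - (1 / 2 + r * E0.G.xi1 (-w) r)) * (1 / 2 + E0.G.cc1 (-w) r) = 0 := by
    linear_combination h3 - r * h5
  rcases mul_eq_zero.1 this with h | h
  · linarith
  · exact absurd h h4

theorem c_eq : E0.G.xi1 (-w) r * (1 + r * E0.G.xi1 (-w) r) = 3 / 2 * w - 3 / 4 * r * w ^ 2 := by
  have h5 : E0.G.xi1 (-w) r * (1 / 2 + E0.G.cc1 (-w) r) = -(3 / 4 * -w * (2 + r * -w)) := by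
    have h2 := cc1_ge (hc r0 r1 w0 w1)
    unfold E0.G.xi1
    have : 1 / 2 + E0.G.cc1 (-w) r ≠ 0 := by linarith
    field_simp
  rw [cw_eq r0 r1 w0 w1] at h5
  linear_combination h5

theorem c_nn : 0 ≤ E0.G.xi1 (-w) r := by
  have h2 := cc1_ge (hc r0 r1 w0 w1)
  have h3 : E0.G.xi1 (-w) r = 3 / 4 * w * (2 - r * w) / (1 / 2 + E0.G.cc1 (-w) r) := by
    unfold E0.G.xi1
    ring
  rw [h3]
  apply div_nonneg
  · have : 0 ≤ 2 - r * w := by nlinarith
    positivity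
  · linarith

theorem c_le : E0.G.xi1 (-w) r ≤ 3 / 2 * w := by
  have h1 := c_eq r0 r1 w0 w1
  have h2 := c_nn r0 r1 w0 w1
  nlinarith [mul_nonneg r0.le (sq_nonneg (E0.G.xi1 (-w) r)), mul_nonneg r0.le (sq_nonneg w)]

omit w0 w1 in
theorem gs_xi : G.gs r = 1 / 2 + r * (G.eh r + 1 / 2) := by
  have h := one_sub_eh' r0.le (by linarith : r ≤ 1)
  have h2 := @ig_mul' r
  have h3 := gs_sq' r0.le (by linarith : r ≤ 1)
  have h4 : (G.gs r - 1 / 2) * (G.gs r + 1 / 2) = r * (3 / 2 - 3 / 4 * r) := by nlinarith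
  unfold G.eh
  calc G.gs r = 1 / 2 + (G.gs r - 1 / 2) * (G.ig r * (G.gs r + 1 / 2)) := by rw [h2]; ring
    _ = 1 / 2 + ((G.gs r - 1 / 2) * (G.gs r + 1 / 2)) * G.ig r := by ring
    _ = 1 / 2 + r * (3 / 2 - 3 / 4 * r) * G.ig r := by rw [h4]
    _ = _ := by ring

omit w0 w1 in
theorem xi_eq : (G.eh r + 1 / 2) * (1 + r * (G.eh r + 1 / 2)) = 3 / 2 - 3 / 4 * r := by
  have h := gs_xi r0 r1
  have h3 := gs_sq' r0.le (by linarith : r ≤ 1)
  rw [h] at h3
  have h4 : r * ((G.eh r + 1 / 2) * (1 + r * (G.eh r + 1 / 2))) = r * (3 / 2 - 3 / 4 * r) := by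
    linear_combination h3
  exact mul_left_cancel₀ r0.ne' h4

omit w0 w1 in
theorem gs_pos : 1 / 2 ≤ G.gs r := by
  unfold G.gs
  apply Real.le_sqrt_of_sq_le
  nlinarith

omit w0 w1 in
theorem q_eq : G.q1 r = (G.eh r + 1 / 2) ^ 2 + 3 / 4 := by
  have h := one_sub_eh' r0.le (by linarith : r ≤ 1)
  have h2 := xi_eq r0 r1
  have : r * G.q1 r = r * ((G.eh r + 1 / 2) ^ 2 + 3 / 4) := by linear_combination -h - h2
  exact mul_left_cancel₀ r0.ne' this

theorem c_sub : E0.G.xi1 (-w) r - (G.eh r + 1 / 2) = (w - 1) * c1 w r := by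
  have h1 := cw_eq r0 r1 w0 w1
  have h2 := gs_xi r0 r1
  have h3 := cc1_ge (hc r0 r1 w0 w1)
  have h4 := gs_pos r0 r1
  have h5 : 0 < E0.G.cc1 (-w) r + G.gs r := by linarith
  unfold c1
  rw [mul_div_assoc', eq_div_iff h5.ne', h1, h2]
  have h6 := c_eq r0 r1 w0 w1
  have h7 := xi_eq r0 r1
  linear_combination h6 - h7

theorem bd_eq : w / 2 * G.q1 r - (E0.G.xi1 (-w) r ^ 2 + 3 / 4 * w ^ 2) / 2 =
    -((w - 1) * (G.eh r * G.dW r)) + (w - 1) ^ 2 * bd w r := by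
  have hgx := gs_xi r0 r1
  have hg := gs_pos r0 r1
  have hG := cc1_ge (hc r0 r1 w0 w1)
  have hs : 0 < E0.G.cc1 (-w) r + G.gs r := by linarith
  have hq := q_eq r0 r1
  have he : G.eh r ≠ 0 := (eh_pos' r0 (by linarith)).ne'
  have hcs := c_sub r0 r1 w0 w1
  have hcw := cw_eq r0 r1 w0 w1
  have hc := c_eq r0 r1 w0 w1
  have hx := xi_eq r0 r1
  -- eh dW
  have hdw : G.eh r * G.dW r = G.q1 r / (4 * G.gs r) := by
    unfold G.dW
    rw [mul_div_assoc', div_eq_div_iff (by positivity) (by positivity)]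
    have : 3 / 4 + (G.eh r + 1 / 2) / 2 + (2 * (G.eh r + 1 / 2) - G.q1 r -
        2 * r * (G.eh r + 1 / 2) * G.q1 r) / 2 = G.q1 r / 2 := by
      have h8 := one_sub_eh' r0.le (by linarith : r ≤ 1)
      linear_combination (-1 : ℝ) * hq + (G.eh r + 1 / 2) * h8
    rw [this]
    ring
  -- the difference of the slopes
  have h1 : c1 w r * (E0.G.cc1 (-w) r + G.gs r) = 3 / 4 * (2 - r - r * w) := by
    unfold c1
    field_simp
  have h2 : G.gs r * (2 - r - r * w) - (1 - r) * (E0.G.cc1 (-w) r + G.gs r) =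
      -(r * (w - 1) * (G.gs r + (1 - r) * c1 w r)) := by
    have : E0.G.cc1 (-w) r - G.gs r = r * (w - 1) * c1 w r := by
      rw [hcw, hgx]; linear_combination r * hcs
    linear_combination (-(1 - r)) * this
  have h3 : c1 w r - 3 / 4 * (1 - r) / G.gs r = 2 * r * (w - 1) * bd w r := by
    unfold bd
    have e1 : c1 w r = 3 / 4 * (2 - r - r * w) / (E0.G.cc1 (-w) r + G.gs r) := rfl
    have hg0 : G.gs r ≠ 0 := by linarith
    have h3a : c1 w r - 3 / 4 * (1 - r) / G.gs r = 3 / 4 * (G.gs r * (2 - r - r * w) -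
        (1 - r) * (E0.G.cc1 (-w) r + G.gs r)) / (G.gs r * (E0.G.cc1 (-w) r + G.gs r)) := by
      rw [e1]
      field_simp
    rw [h3a, h2]
    ring
  have h4 : 3 / 4 * (1 - r) / G.gs r - (G.eh r + 1 / 2) = -(2 * r * (G.q1 r / (4 * G.gs r))) := by
    have hg0 : G.gs r ≠ 0 := by linarith
    have h8 := one_sub_eh' r0.le (by linarith : r ≤ 1)
    have key : 3 / 4 * (1 - r) - (G.eh r + 1 / 2) * G.gs r = -(r * G.q1 r / 2) := by
      linear_combination (-(G.eh r + 1 / 2)) * hgx - hx - h8 / 2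
    have h9 : 3 / 4 * (1 - r) / G.gs r - (G.eh r + 1 / 2) =
        (3 / 4 * (1 - r) - (G.eh r + 1 / 2) * G.gs r) / G.gs r := by
      field_simp
    rw [h9, key]
    ring
  have h5 : r * (G.q1 r * w - (E0.G.xi1 (-w) r ^ 2 + 3 / 4 * w ^ 2)) =
      (w - 1) * (c1 w r - (G.eh r + 1 / 2)) := by
    have h8 := one_sub_eh' r0.le (by linarith : r ≤ 1)
    linear_combination (-w) * h8 - hc + hcs
  have h6 : r * (w / 2 * G.q1 r - (E0.G.xi1 (-w) r ^ 2 + 3 / 4 * w ^ 2) / 2) =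
      r * (-((w - 1) * (G.eh r * G.dW r)) + (w - 1) ^ 2 * bd w r) := by
    rw [hdw]
    linear_combination h5 / 2 + (w - 1) / 2 * h3 + (w - 1) / 2 * h4
  exact mul_left_cancel₀ r0.ne' h6

theorem ic_pos : 0 < 1 + (E0.G.cc1 (-w) r / 2 + 3 / 4 * (1 - r * w)) := by
  have hG := cc1_ge (hc r0 r1 w0 w1)
  nlinarith

/-- `s ic` at `w` and at `1`. -/
theorem qd_eq : (w / 2 + E0.G.xi1 (-w) r) * ic w r - G.ig r = (w - 1) * qd w r := by
  have hp := ic_pos r0 r1 w0 w1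
  have hi : ic w r * (1 + (E0.G.cc1 (-w) r / 2 + 3 / 4 * (1 - r * w))) = 1 := by
    unfold ic
    exact inv_mul_cancel₀ hp.ne'
  have hcs := c_sub r0 r1 w0 w1
  have hcw := cw_eq r0 r1 w0 w1
  have hgx := gs_xi r0 r1
  have h2 := @ig_mul' r
  have hx := xi_eq r0 r1
  -- `(1 + eh) = ig (1 + gs / 2 + 3 / 4 (1 - r))`
  have h3 : G.eh r + 1 = G.ig r * (1 + (G.gs r / 2 + 3 / 4 * (1 - r))) := by
    have e : (G.eh r + 1) * (G.gs r + 1 / 2) = 1 + (G.gs r / 2 + 3 / 4 * (1 - r)) := by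
      rw [hgx]; linear_combination hx
    rw [← e]
    linear_combination (-(G.eh r + 1)) * h2
  unfold qd
  have h4 : E0.G.cc1 (-w) r - G.gs r = r * (w - 1) * c1 w r := by
    rw [hcw, hgx]; linear_combination r * hcs
  linear_combination ic w r * hcs + ic w r * h3 + G.ig r * hi + (-(G.ig r * ic w r / 2)) * h4

omit w0 w1 in
/-- `(1 + eh) (1 / 2 + 3 / 4 r ig) = 1`. -/
theorem half_eq : (G.eh r + 1) * (1 / 2 + 3 / 4 * (r * G.ig r)) = 1 := by
  have h8 := one_sub_eh' r0.le (by linarith : r ≤ 1)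
  unfold G.q1 at h8
  linear_combination (-1 / 2 : ℝ) * h8

omit w0 w1 in
theorem pin_K : G.pK r / 2 + 3 / 4 * (G.ig r * (1 + r * G.pK r)) -
    ((G.eh r + 1 / 2) * 1 + (1 + r * (G.eh r + 1 / 2)) * G.vW0 r) = G.dW r := by
  have h1 := half_eq r0 r1
  have h2 := @ig_mul' r
  have hgx := gs_xi r0 r1
  have he : G.eh r + 1 ≠ 0 := by
    have := eh_pos' r0 (by linarith : r < 1)
    linarith
  have h4 : (1 + r * (G.eh r + 1 / 2)) * G.ig r = 1 := by
    rw [hgx] at h2; linear_combination h2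
  have h5 : (G.q1 r / 2 + G.pK r) / (G.eh r + 1) = G.pK r / 2 +
      3 / 4 * (G.ig r * (1 + r * G.pK r)) := by
    rw [div_eq_iff he]
    unfold G.q1
    linear_combination (-G.pK r) * h1
  have h6 : (1 + r * (G.eh r + 1 / 2)) * G.vW0 r =
      (G.q1 r / 2 + G.pK r) / (G.eh r + 1) - G.dW r - (G.eh r + 1 / 2) := by
    unfold G.vW0
    linear_combination ((G.q1 r / 2 + G.pK r) / (G.eh r + 1) - G.dW r - (G.eh r + 1 / 2)) * h4
  rw [h6, h5]
  ring

omit w0 w1 in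
theorem pin_B : G.pB r / 2 + 3 / 4 * (G.ig r * (G.B0 r + r * G.pB r)) -
    ((G.eh r + 1 / 2) * G.B0 r + (1 + r * (G.eh r + 1 / 2)) *
      -(G.B0 r * (G.eh r + 1 / 2) * G.ig r)) = 0 := by
  have h1 := half_eq r0 r1
  have h2 := @ig_mul' r
  have hgx := gs_xi r0 r1
  have h4 : (1 + r * (G.eh r + 1 / 2)) * G.ig r = 1 := by
    rw [hgx] at h2; linear_combination h2
  unfold G.pB G.q1
  linear_combination (-(3 / 4) * G.B0 r * G.ig r) * h1 + (G.B0 r * (G.eh r + 1 / 2)) * h4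

theorem s_le : w / 2 + E0.G.xi1 (-w) r ≤ 11 / 5 := by
  have := c_le r0 r1 w0 w1
  linarith

theorem s_ge (hw : 17 / 20 ≤ w) : 8 / 5 ≤ w / 2 + E0.G.xi1 (-w) r := by
  have h1 := c_eq r0 r1 w0 w1
  have h2 := c_nn r0 r1 w0 w1
  by_contra h
  push Not at h
  set c := E0.G.xi1 (-w) r
  have h3 : c < 8 / 5 - w / 2 := by linarith
  have h4 : 0 ≤ 8 / 5 - w / 2 := by linarith
  have h5 : c * (1 + r * c) ≤ (8 / 5 - w / 2) * (1 + r * (8 / 5 - w / 2)) := by
    have : r * c ≤ r * (8 / 5 - w / 2) := mul_le_mul_of_nonneg_left h3.le r0.le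
    have h6 : 0 ≤ r * c := mul_nonneg r0.le h2
    exact mul_le_mul h3.le (by linarith) (by linarith) h4
  have h7 : (8 / 5 - w / 2) * (r * (8 / 5 - w / 2)) ≤ (8 / 5 - 17 / 40) ^ 2 * r := by
    have : (8 / 5 - w / 2) ^ 2 ≤ (8 / 5 - 17 / 40) ^ 2 := by
      apply pow_le_pow_left₀ h4; linarith
    nlinarith
  nlinarith [mul_nonneg r0.le (sq_nonneg w), sq_nonneg w]

/-- The kernel of the unit circle at `w`, relative to `1`. -/
theorem kdiff (k0 P u : ℝ) :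
    ((P + u * (w / 2 + E0.G.xi1 (-w) r - 1 - G.eh r)) / 2 + 3 / 4 *
      ((w / 2 + E0.G.xi1 (-w) r) * ic w r * (k0 + r * (P + u * (w / 2 + E0.G.xi1 (-w) r - 1 -
        G.eh r))))) - (P / 2 + 3 / 4 * (G.ig r * (k0 + r * P))) =
    (w - 1) * (u * (1 / 2 + c1 w r) / 2 + 3 / 4 * (qd w r * (k0 + r * (P + u *
      (w / 2 + E0.G.xi1 (-w) r - 1 - G.eh r))) + G.ig r * (r * (u * (1 / 2 + c1 w r))))) := by
  have h1 := c_sub r0 r1 w0 w1
  have h2 := qd_eq r0 r1 w0 w1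
  have h3 : w / 2 + E0.G.xi1 (-w) r - 1 - G.eh r = (w - 1) * (1 / 2 + c1 w r) := by
    linear_combination h1
  rw [h3]
  linear_combination (3 / 4 * (k0 + r * (P + u * ((w - 1) * (1 / 2 + c1 w r))))) * h2

/-- The kernel of `W` at `w`, relative to `1`. -/
theorem wdiff (k0 g s : ℝ) :
    (k0 * E0.G.xi1 (-w) r + (1 + r * E0.G.xi1 (-w) r) * (g + s * (w - 1))) -
      ((G.eh r + 1 / 2) * k0 + (1 + r * (G.eh r + 1 / 2)) * g) =
    (w - 1) * (k0 * c1 w r + (1 + r * E0.G.xi1 (-w) r) * s + r * c1 w r * g) := by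
  have h1 := c_sub r0 r1 w0 w1
  linear_combination (k0 + r * g) * h1

end

end Lb

/-! ### The conditions -/

/-- What is known at the line, from the values. -/
theorem lineB_of {R : RowF} {w r nf bs bn ds : ℝ} (r0 : 0 < r) (r1 : r ≤ 1 / 40)
    (hL : R.L w (-w) = w) (hA : R.A w (-w) = 0) (hB : R.B w (-w) = w)
    (hNF : R.NF w (-w) 1 r = nf) (hGM : R.GM w (-w) 1 r = 0) (hBS : R.BS w (-w) 1 r = bs)
    (hDS : R.DS w (-w) 1 r = ds) (h1 : w ≤ 11 / 10 → R.V1B w (-w) 1 r = 0)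
    (h2 : w ≤ 11 / 10 → R.V2B w (-w) 1 r = 0) (hbn : nf * G.q1 r + bs = bn)
    (H1 : 3 / 5 ≤ w → w ≤ 1 → 0 ≤ bn - G.eh r / (1 - r) * (ds * (1 - w)))
    (H2 : 1 ≤ w → w ≤ 81 / 80 → -((w - 1) / 16) ≤ bn - G.eh r / (1 - r) * (ds * (1 - w)))
    (H3 : 1 ≤ w → w ≤ 11 / 10 → 0 ≤ (32 + G.et r) * (nf * (1 - w⁻¹) ^ 2) + bn +
      G.eh r / (1 - r) * (ds * (1 - w⁻¹))) : LineB R w w (-w) 1 r := by
  have hBN : R.BN w (-w) 1 r = bn := by
    unfold RowF.BN
    rw [bnf_val, hNF, hGM, hBS]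
    rw [one_mul]
    linear_combination hbn
  have e1 : lnf.v (1 * r) 1 (R.L w (-w)) (R.BN w (-w) 1 r) (R.DS w (-w) 1 r) =
      bn - G.eh r / (1 - r) * (ds * (1 - w)) := by
    rw [lnf_val, hL, hBN, hDS, one_mul]
  have e2 : 1 ≤ w → 32 * (R.NF w (-w) 1 r * m2f.v 1 (R.L w (-w))) + R.BR w (-w) 1 r =
      (32 + G.et r) * (nf * (1 - w⁻¹) ^ 2) + bn + G.eh r / (1 - r) * (ds * (1 - w⁻¹)) := by
    intro hw
    have hw0 : w * w⁻¹ = 1 := mul_inv_cancel₀ (by linarith)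
    have hq := one_sub_eh' r0.le (by linarith : r ≤ 1)
    have hk : G.eh r / (1 - r) - G.et r = G.q1 r := by
      have hk' : (1 - r : ℝ) ≠ 0 := by linarith
      unfold G.et
      field_simp
      linear_combination -hq
    unfold RowF.BR
    rw [m2f_val, brf_val, hNF, hGM, hBS, hDS, hL, hA, hB]
    simp only [one_mul]
    linear_combination hbn + nf * hk + G.eh r / (1 - r) * (ds * (1 - w⁻¹)) * hw0
  refine ⟨?_, ?_, ?_, ?_, ?_, ?_⟩
  · intro a b
    rw [e1, h1 (by linarith), add_zero]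
    exact H1 (by linarith) b
  · intro a b
    rw [e1, h2 (by linarith), add_zero]
    exact H1 (by linarith) b
  · intro a b
    rw [e1, h1 (by linarith), add_zero]
    exact H2 a (by linarith)
  · intro a b
    rw [e1, h2 (by linarith), add_zero]
    exact H2 a (by linarith)
  · intro a b
    rw [e2 a, h1 (by linarith), add_zero]
    exact H3 a (by linarith)
  · intro a b
    rw [e2 a, h2 (by linarith), add_zero]
    exact H3 a (by linarith)

end Pool.Agent.Strip051.LC.E1.Ch
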