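import Pool.Agent.Strip051.LC.E1.Ch.Lb0
import Pool.Agent.Strip051.LC.E1.Ch.Rw

/-! # Rests near the full period: the line through the lattice shape, the kernels -/

set_option linter.unusedVariables false
set_option linter.unusedSimpArgs false

namespace Pool.Agent.Strip051.LC.E1.Ch

open Pool.Agent.Strip051.PB
open Pool.Agent.Strip051.LC.E1.G (hg)

theorem c1f_val (w r : ℝ) : c1f.v w r = Lb.c1 w r := by
  simp only [c1f, cwf, cc1_val, gs_val]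
  unfold Lb.c1
  push_cast
  ring

theorem icw_val (w r : ℝ) : icw.v w r = Lb.ic w r := by
  simp only [icw, cwf, cc1_val]
  unfold Lb.ic
  push_cast
  ring_nf

theorem swf_val (w r : ℝ) : swf.v w r = w / 2 + E0.G.xi1 (-w) r := by
  simp only [swf, xw0p_val]

theorem qdf_val (w r : ℝ) : qdf.v w r = Lb.qd w r := by
  simp only [qdf, c1f_val, icw_val, ig_val]
  unfold Lb.qd
  push_cast
  ring

theorem bdf_val (w r : ℝ) : bdf.v w r = Lb.bd w r := by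
  simp only [bdf, bdf_5, cc1_val, gs_val]
  unfold Lb.bd Lb.c1
  push_cast
  ring

theorem bdn_val (w r : ℝ) : bdn.v w r = (1 + G.LAM r * G.mu r) * Lb.bd w r := by
  simp only [bdn, bdf_val, n1f_val]

namespace Lb

/-- The slope of the difference of the kernels. -/
noncomputable def eK (s w r : ℝ) : ℝ :=
  G.u3 1 (-(359209 / 100000)) * (1 / 2 + c1 w r) / 2 + 3 / 4 * (qd w r * (1 + r * (G.pK r +
      G.u3 1 (-(359209 / 100000)) * (w / 2 + E0.G.xi1 (-w) r - 1 - G.eh r))) +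
      G.ig r * (r * (G.u3 1 (-(359209 / 100000)) * (1 / 2 + c1 w r)))) -
    (1 * c1 w r + (1 + r * E0.G.xi1 (-w) r) * s + r * c1 w r * G.vW0 r)

noncomputable def eB (s w r : ℝ) : ℝ :=
  G.u3 (G.B0 r) (-(280683 / 50000)) * (1 / 2 + c1 w r) / 2 + 3 / 4 * (qd w r * (G.B0 r + r *
      (G.pB r +
      G.u3 (G.B0 r) (-(280683 / 50000)) * (w / 2 + E0.G.xi1 (-w) r - 1 - G.eh r))) +
      G.ig r * (r * (G.u3 (G.B0 r) (-(280683 / 50000)) * (1 / 2 + c1 w r)))) -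
    (G.B0 r * c1 w r + (1 + r * E0.G.xi1 (-w) r) * s +
      r * c1 w r * -(G.B0 r * (G.eh r + 1 / 2) * G.ig r))

/-- The slopes of `W`. -/
noncomputable def sKl (r : ℝ) : ℝ := (-6) + 2 * (G.vW0 r - (-6)) - 2 * (9207 / 5000)
noncomputable def sKr (r : ℝ) : ℝ := (-6) - 2 / 3 * (G.vW0 r - (-6))
noncomputable def sBl (r : ℝ) : ℝ :=
  (25647 / 5000) + 2 * (-(G.B0 r * (G.eh r + 1 / 2) * G.ig r) - (25647 / 5000)) - 2 * (-(21201 /
      10000))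
noncomputable def sBr (r : ℝ) : ℝ :=
  (25647 / 5000) - 2 / 3 * (-(G.B0 r * (G.eh r + 1 / 2) * G.ig r) - (25647 / 5000))

end Lb

theorem ekl_val (w r : ℝ) : ekl.v w r = Lb.eK (Lb.sKl r) w r := by
  simp only [ekl, ekl_7, ekl_12, c1f_val, qdf_val, prf_val, swf_val, eh_val, ig_val, xw0p_val,
      pwk,
    vw0_val]
  unfold Lb.eK Lb.sKl G.u3
  push_cast
  ring

theorem ekr_val (w r : ℝ) : ekr.v w r = Lb.eK (Lb.sKr r) w r := by
  simp only [ekr, ekr_7, ekr_12, c1f_val, qdf_val, prf_val, swf_val, eh_val, ig_val, xw0p_val,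
      pwk,
    vw0_val]
  unfold Lb.eK Lb.sKr G.u3
  push_cast
  ring

theorem ebl_val (w r : ℝ) : ebl.v w r = Lb.eB (Lb.sBl r) w r := by
  simp only [ebl, ebl_8, u3b, c1f_val, qdf_val, pbf_val, swf_val, eh_val, ig_val, xw0p_val, pwb,
    b0f_val, hhf_val]
  unfold Lb.eB Lb.sBl G.u3
  push_cast
  ring

theorem ebr_val (w r : ℝ) : ebr.v w r = Lb.eB (Lb.sBr r) w r := by
  simp only [ebr, ebr_8, u3b, c1f_val, qdf_val, pbf_val, swf_val, eh_val, ig_val, xw0p_val, pwb,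
    b0f_val, hhf_val]
  unfold Lb.eB Lb.sBr G.u3
  push_cast
  ring

namespace Lb

/-- The second order of the slack. -/
noncomputable def ff (e w r : ℝ) : ℝ :=
  bd w r + G.eh r / (1 - r) * (e * (1 - r * w) - r * G.dW r)

noncomputable def fn (ek eb w r : ℝ) : ℝ :=
  (1 + G.LAM r * G.mu r) * bd w r + G.eh r / (1 - r) *
    (((1 + G.LAM r * G.mu r) * ek + G.mu r * eb) * (1 - r * w) -
      r * ((1 + G.LAM r * G.mu r) * G.dW r))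

end Lb

theorem fffl_val (w r : ℝ) : fffl.v w r = Lb.ff (Lb.eK (Lb.sKl r) w r) w r := by
  simp only [fffl, bdf_val, ekl_val, kx_val, dwf_val]
  unfold Lb.ff
  push_cast
  ring

theorem fffr_val (w r : ℝ) : fffr.v w r = Lb.ff (Lb.eK (Lb.sKr r) w r) w r := by
  simp only [fffr, bdf_val, ekr_val, kx_val, dwf_val]
  unfold Lb.ff
  push_cast
  ring

theorem ffnl_val (w r : ℝ) : ffnl.v w r =
    Lb.fn (Lb.eK (Lb.sKl r) w r) (Lb.eB (Lb.sBl r) w r) w r := by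
  simp only [ffnl, bdn_val, ekl_val, ebl_val, kx_val, dwf_val, n1f_val, mu_val']
  unfold Lb.fn
  push_cast
  ring

theorem ffnr_val (w r : ℝ) : ffnr.v w r =
    Lb.fn (Lb.eK (Lb.sKr r) w r) (Lb.eB (Lb.sBr r) w r) w r := by
  simp only [ffnr, bdn_val, ekr_val, ebr_val, kx_val, dwf_val, n1f_val, mu_val']
  unfold Lb.fn
  push_cast
  ring

theorem lwf_val (w r : ℝ) : lwf.v w r = (w - 1) * Lb.ff (Lb.eK (Lb.sKr r) w r) w r + 1 / 16 := by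
  simp only [lwf, fffr_val]
  push_cast
  ring

theorem lwn_val (w r : ℝ) : lwn.v w r =
    (w - 1) * Lb.fn (Lb.eK (Lb.sKr r) w r) (Lb.eB (Lb.sBr r) w r) w r + 1 / 16 := by
  simp only [lwn, ffnr_val]
  push_cast
  ring

theorem lof_val (w r : ℝ) : lof.v w r = (32 + G.et r) * (w / 2 * w⁻¹ * w⁻¹) + Lb.bd w r +
    (Lb.ff (Lb.eK (Lb.sKr r) w r) w r - Lb.bd w r -
      G.eh r / (1 - r) * ((1 - r) * G.dW r)) * w⁻¹ := by
  simp only [lof, lof_2, fffr_val, bdf_val, et_val, kx_val, dwf_val]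
  push_cast
  ring

theorem lon_val (w r : ℝ) : lon.v w r = (32 + G.et r) * (w / 2 * G.be r * w⁻¹ * w⁻¹) +
    (1 + G.LAM r * G.mu r) * Lb.bd w r +
    (Lb.fn (Lb.eK (Lb.sKr r) w r) (Lb.eB (Lb.sBr r) w r) w r -
      (1 + G.LAM r * G.mu r) * Lb.bd w r -
      G.eh r / (1 - r) * ((1 + G.LAM r * G.mu r) * ((1 - r) * G.dW r))) * w⁻¹ := by
  simp only [lon, lon_2, ffnr_val, bdn_val, et_val, kx_val, dwf_val, bef_val, n1f_val]
  push_cast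
  ring

/-! ### The kernels -/

section

variable {w r : ℝ} (r0 : 0 < r) (r1 : r ≤ 1 / 40) (w0 : 3 / 5 ≤ w) (w1 : w ≤ 11 / 10)

include r0 r1

theorem kU_m {t : ℝ} (h : 8 / 5 ≤ t) (h' : t ≤ 11 / 5) : G.kU r 1 t =
    G.pK r + G.u3 1 (-(359209 / 100000)) * (t - 1 - G.eh r) := by
  have h1 := rT_k r0 one_pos (by linarith : 1 * r ≤ 1 / 40) (by norm_num)
    (by linarith : t ≤ 11 / 5 * 1)
  unfold G.kU G.uR
  rw [hgz (a := 1) (b := 16) r0 (by norm_num) (h1.trans (by norm_num)),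
    hgz (a := 1) (b := 10) r0 (by norm_num) (h1.trans (by norm_num)),
    hg_ge (by linarith : 0 ≤ t - 1), hg_ge (by linarith : 0 ≤ t - 8 / 5 * 1),
    hg_le (by linarith : t - 11 / 5 * 1 ≤ 0), hg_le (by linarith : t - 5 / 2 * 1 ≤ 0)]
  simp only [one_mul]
  unfold G.u2
  ring

theorem bU_m {t : ℝ} (h : 8 / 5 ≤ t) (h' : t ≤ 11 / 5) : G.bU r 1 t =
    G.pB r + G.u3 (G.B0 r) (-(280683 / 50000)) * (t - 1 - G.eh r) := by
  have h1 := rT_k r0 one_pos (by linarith : 1 * r ≤ 1 / 40) (by norm_num)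
    (by linarith : t ≤ 11 / 5 * 1)
  unfold G.bU G.uR
  rw [hgz (a := 1) (b := 16) r0 (by norm_num) (h1.trans (by norm_num)),
    hgz (a := 1) (b := 10) r0 (by norm_num) (h1.trans (by norm_num)),
    hg_ge (by linarith : 0 ≤ t - 1), hg_ge (by linarith : 0 ≤ t - 8 / 5 * 1),
    hg_le (by linarith : t - 11 / 5 * 1 ≤ 0), hg_le (by linarith : t - 5 / 2 * 1 ≤ 0)]
  simp only [one_mul]
  unfold G.u2
  ring

omit r0 r1 in
theorem wK0_l (h : 1 / 2 ≤ w) (h' : w ≤ 1) : G.wK0 r 1 w = G.vW0 r + Lb.sKl r * (w - 1) := by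
  unfold G.wK0 G.tl Lb.sKl
  rw [hg_ge (by linarith : 0 ≤ w - 1 / 2), hg_le (by linarith : w - 1 ≤ 0),
    hg_le (by linarith : w - 5 / 2 * 1 ≤ 0)]
  simp only [one_mul]
  ring

omit r0 r1 in
theorem wK0_r (h : 1 ≤ w) (h' : w ≤ 5 / 2) : G.wK0 r 1 w = G.vW0 r + Lb.sKr r * (w - 1) := by
  unfold G.wK0 G.tl Lb.sKr
  rw [hg_ge (by linarith : 0 ≤ w - 1 / 2), hg_ge (by linarith : 0 ≤ w - 1),
    hg_le (by linarith : w - 5 / 2 * 1 ≤ 0)]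
  simp only [one_mul]
  ring

omit r0 r1 in
theorem wB0_l (h : 1 / 2 ≤ w) (h' : w ≤ 1) : G.wB0 r 1 w =
    -(G.B0 r * (G.eh r + 1 / 2) * G.ig r) + Lb.sBl r * (w - 1) := by
  unfold G.wB0 G.tl Lb.sBl
  rw [hg_ge (by linarith : 0 ≤ w - 1 / 2), hg_le (by linarith : w - 1 ≤ 0),
    hg_le (by linarith : w - 5 / 2 * 1 ≤ 0)]
  simp only [one_mul]
  ring

omit r0 r1 in
theorem wB0_r (h : 1 ≤ w) (h' : w ≤ 5 / 2) : G.wB0 r 1 w =
    -(G.B0 r * (G.eh r + 1 / 2) * G.ig r) + Lb.sBr r * (w - 1) := by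
  unfold G.wB0 G.tl Lb.sBr
  rw [hg_ge (by linarith : 0 ≤ w - 1 / 2), hg_ge (by linarith : 0 ≤ w - 1),
    hg_le (by linarith : w - 5 / 2 * 1 ≤ 0)]
  simp only [one_mul]
  ring

omit r0 r1 in
theorem sg1_b : -(E0.G.sg1 (-w) r) = w / 2 + E0.G.xi1 (-w) r := by
  unfold E0.G.sg1
  ring

omit r0 r1 in
theorem g1_b : G.g1 (-w) r = -(3 / 4 * ((w / 2 + E0.G.xi1 (-w) r) * Lb.ic w r)) := by
  unfold G.g1 Lb.ic E0.G.sg1
  rw [div_eq_mul_inv, show 1 + r * -w = 1 - r * w by ring]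
  ring

omit r0 r1 in
theorem C1d_k : (G.C1d r 1 (-w)).k = G.kU r 1 (w / 2 + E0.G.xi1 (-w) r) / 2 + 3 / 4 *
    ((w / 2 + E0.G.xi1 (-w) r) * Lb.ic w r * (1 + r * G.kU r 1 (w / 2 + E0.G.xi1 (-w) r))) := by
  unfold G.C1d
  dsimp only
  rw [sg1_b, g1_b]
  ring

omit r0 r1 in
theorem C1d_b : (G.C1d r 1 (-w)).b = G.bU r 1 (w / 2 + E0.G.xi1 (-w) r) / 2 + 3 / 4 *
    ((w / 2 + E0.G.xi1 (-w) r) * Lb.ic w r *
      (G.B0 r + r * G.bU r 1 (w / 2 + E0.G.xi1 (-w) r))) := by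
  unfold G.C1d
  dsimp only
  rw [sg1_b, g1_b, one_mul]
  ring

include w0 w1

theorem dK_l (hw : 17 / 20 ≤ w) (hw' : w ≤ 1) : (G.C1d r 1 (-w)).k - (G.W0 r 1 w).k =
    G.dW r + (w - 1) * Lb.eK (Lb.sKl r) w r := by
  have h1 := kU_m r0 r1 (Lb.s_ge r0 r1 w0 w1 hw) (Lb.s_le r0 r1 w0 w1)
  have h2 := Lb.kdiff r0 r1 w0 w1 1 (G.pK r) (G.u3 1 (-(359209 / 100000)))
  have h3 := Lb.wdiff r0 r1 w0 w1 1 (G.vW0 r) (Lb.sKl r)
  have h4 := Lb.pin_K r0 r1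
  rw [C1d_k, h1]
  unfold G.W0
  dsimp only
  rw [wK0_l (by linarith) hw']
  unfold Lb.eK
  linear_combination h2 - h3 + h4

theorem dK_r (hw : 1 ≤ w) : (G.C1d r 1 (-w)).k - (G.W0 r 1 w).k =
    G.dW r + (w - 1) * Lb.eK (Lb.sKr r) w r := by
  have h1 := kU_m r0 r1 (Lb.s_ge r0 r1 w0 w1 (by linarith)) (Lb.s_le r0 r1 w0 w1)
  have h2 := Lb.kdiff r0 r1 w0 w1 1 (G.pK r) (G.u3 1 (-(359209 / 100000)))
  have h3 := Lb.wdiff r0 r1 w0 w1 1 (G.vW0 r) (Lb.sKr r)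
  have h4 := Lb.pin_K r0 r1
  rw [C1d_k, h1]
  unfold G.W0
  dsimp only
  rw [wK0_r hw (by linarith)]
  unfold Lb.eK
  linear_combination h2 - h3 + h4

theorem dB_l (hw : 17 / 20 ≤ w) (hw' : w ≤ 1) : (G.C1d r 1 (-w)).b - (G.W0 r 1 w).b =
    (w - 1) * Lb.eB (Lb.sBl r) w r := by
  have h1 := bU_m r0 r1 (Lb.s_ge r0 r1 w0 w1 hw) (Lb.s_le r0 r1 w0 w1)
  have h2 := Lb.kdiff r0 r1 w0 w1 (G.B0 r) (G.pB r) (G.u3 (G.B0 r) (-(280683 / 50000)))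
  have h3 := Lb.wdiff r0 r1 w0 w1 (G.B0 r) (-(G.B0 r * (G.eh r + 1 / 2) * G.ig r)) (Lb.sBl r)
  have h4 := Lb.pin_B r0 r1
  rw [C1d_b, h1]
  unfold G.W0
  dsimp only
  rw [wB0_l (by linarith) hw']
  simp only [one_mul]
  unfold Lb.eB
  linear_combination h2 - h3 + h4

theorem dB_r (hw : 1 ≤ w) : (G.C1d r 1 (-w)).b - (G.W0 r 1 w).b =
    (w - 1) * Lb.eB (Lb.sBr r) w r := by
  have h1 := bU_m r0 r1 (Lb.s_ge r0 r1 w0 w1 (by linarith)) (Lb.s_le r0 r1 w0 w1)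
  have h2 := Lb.kdiff r0 r1 w0 w1 (G.B0 r) (G.pB r) (G.u3 (G.B0 r) (-(280683 / 50000)))
  have h3 := Lb.wdiff r0 r1 w0 w1 (G.B0 r) (-(G.B0 r * (G.eh r + 1 / 2) * G.ig r)) (Lb.sBr r)
  have h4 := Lb.pin_B r0 r1
  rw [C1d_b, h1]
  unfold G.W0
  dsimp only
  rw [wB0_r hw (by linarith)]
  simp only [one_mul]
  unfold Lb.eB
  linear_combination h2 - h3 + h4

end

/-! ### The rows -/

theorem ln_i {w r n1 mu ek eb bn k ds eh dw bd : ℝ} (hk : k * (1 - r) = eh)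
    (hb : bn = n1 * (-((w - 1) * (eh * dw)) + (w - 1) ^ 2 * bd))
    (hd : ds = (n1 * (dw + (w - 1) * ek) + mu * ((w - 1) * eb)) * (1 - r * w)) :
    bn - k * (ds * (1 - w)) = (w - 1) ^ 2 *
      (n1 * bd + k * ((n1 * ek + mu * eb) * (1 - r * w) - r * (n1 * dw))) := by
  rw [hb, hd]
  linear_combination ((w - 1) * n1 * dw) * hk

theorem ln_o {w r n1 mu ek eb bn k ds eh dw bd nf et F : ℝ} (hk : k * (1 - r) = eh)
    (hw : w ≠ 0)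
    (hF : F = n1 * bd + k * ((n1 * ek + mu * eb) * (1 - r * w) - r * (n1 * dw)))
    (hb : bn = n1 * (-((w - 1) * (eh * dw)) + (w - 1) ^ 2 * bd))
    (hd : ds = (n1 * (dw + (w - 1) * ek) + mu * ((w - 1) * eb)) * (1 - r * w)) :
    (32 + et) * (nf * (1 - w⁻¹) ^ 2) + bn + k * (ds * (1 - w⁻¹)) = (w - 1) ^ 2 *
      ((32 + et) * (nf * w⁻¹ * w⁻¹) + n1 * bd +
        (F - n1 * bd - k * (n1 * ((1 - r) * dw))) * w⁻¹) := by
  have h1 := ln_i (ek := ek) (eb := eb) (mu := mu) hk hb hd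
  rw [← hF] at h1
  have h2 : k * (ds * (1 - w)) = bn - (w - 1) ^ 2 * F := by linarith
  have h3 : (1 : ℝ) - w⁻¹ = (w - 1) * w⁻¹ := by
    rw [sub_mul, mul_inv_cancel₀ hw, one_mul]
  have h4 : k * (ds * (1 - w⁻¹)) = -((bn - (w - 1) ^ 2 * F) * w⁻¹) := by
    rw [h3, ← h2]; ring
  rw [h4, h3, hb]
  have h5 : w * w⁻¹ = 1 := mul_inv_cancel₀ hw
  linear_combination ((w - 1) * n1 * eh * dw) * h5 + (w - 1) ^ 2 * n1 * dw * w⁻¹ * hk

/-- The second order of the slack. -/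
noncomputable def Lb.fg (n1 mu ek eb w r : ℝ) : ℝ :=
  n1 * Lb.bd w r + G.eh r / (1 - r) *
    ((n1 * ek + mu * eb) * (1 - r * w) - r * (n1 * G.dW r))

theorem lineB_of' {R : RowF} {w r nf bs ds n1 mu : ℝ} (r0 : 0 < r) (r1 : r ≤ 1 / 40)
    (hL : R.L w (-w) = w) (hA : R.A w (-w) = 0) (hB : R.B w (-w) = w)
    (hNF : R.NF w (-w) 1 r = nf) (hGM : R.GM w (-w) 1 r = 0) (hBS : R.BS w (-w) 1 r = bs)
    (hDS : R.DS w (-w) 1 r = ds) (h1 : 3 / 5 ≤ w → w ≤ 11 / 10 → R.V1B w (-w) 1 r = 0)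
    (h2 : 3 / 5 ≤ w → w ≤ 11 / 10 → R.V2B w (-w) 1 r = 0)
    (hbn : nf * G.q1 r + bs = n1 * (w / 2 * G.q1 r - (E0.G.xi1 (-w) r ^ 2 + 3 / 4 * w ^ 2) / 2))
    (hds : ds = (n1 * ((G.C1d r 1 (-w)).k - (G.W0 r 1 w).k) + mu * ((G.C1d r 1 (-w)).b -
      (G.W0 r 1 w).b)) * (1 - r * w))
    (ci : 17 / 20 ≤ w → w ≤ 1 →
      0 ≤ Lb.fg n1 mu (Lb.eK (Lb.sKl r) w r) (Lb.eB (Lb.sBl r) w r) w r)
    (cd : 3 / 5 ≤ w → w ≤ 17 / 20 → 0 ≤ n1 * (w / 2 * G.q1 r - (E0.G.xi1 (-w) r ^ 2 +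
      3 / 4 * w ^ 2) / 2) + G.eh r / (1 - r) * ((w - 1) * ((n1 * ((G.C1d r 1 (-w)).k -
      (G.W0 r 1 w).k) + mu * ((G.C1d r 1 (-w)).b - (G.W0 r 1 w).b)) * (1 - r * w))))
    (cw : 1 ≤ w → w ≤ 81 / 80 →
      0 ≤ (w - 1) * Lb.fg n1 mu (Lb.eK (Lb.sKr r) w r) (Lb.eB (Lb.sBr r) w r) w r + 1 / 16)
    (co : 1 ≤ w → w ≤ 11 / 10 → 0 ≤ (32 + G.et r) * (nf * w⁻¹ * w⁻¹) + n1 * Lb.bd w r +
      (Lb.fg n1 mu (Lb.eK (Lb.sKr r) w r) (Lb.eB (Lb.sBr r) w r) w r - n1 * Lb.bd w r -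
        G.eh r / (1 - r) * (n1 * ((1 - r) * G.dW r))) * w⁻¹) : LineB R w w (-w) 1 r := by
  rcases lt_or_ge w (3 / 5) with hlt | w0
  · exact ⟨fun a _ => by linarith, fun a _ => by linarith, fun a _ => by linarith,
      fun a _ => by linarith, fun a _ => by linarith, fun a _ => by linarith⟩
  rcases lt_or_ge (11 / 10) w with hgt | w1
  · exact ⟨fun _ a => by linarith, fun _ a => by linarith, fun _ a => by linarith,
      fun _ a => by linarith, fun _ a => by linarith, fun _ a => by linarith⟩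
  have hbd := Lb.bd_eq r0 r1 w0 w1
  have hk : G.eh r / (1 - r) * (1 - r) = G.eh r := div_mul_cancel₀ _ (by linarith)
  have hb : n1 * (w / 2 * G.q1 r - (E0.G.xi1 (-w) r ^ 2 + 3 / 4 * w ^ 2) / 2) =
      n1 * (-((w - 1) * (G.eh r * G.dW r)) + (w - 1) ^ 2 * Lb.bd w r) := by rw [hbd]
  refine lineB_of r0 r1 hL hA hB hNF hGM hBS hDS (h1 w0) (h2 w0) hbn ?_ ?_ ?_
  · intro a b
    rcases le_total w (17 / 20) with h | h
    · have := cd a h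
      rw [← hds] at this
      linarith
    · have hd : ds = (n1 * (G.dW r + (w - 1) * Lb.eK (Lb.sKl r) w r) + mu * ((w - 1) *
          Lb.eB (Lb.sBl r) w r)) * (1 - r * w) := by
        rw [hds, dK_l r0 r1 w0 w1 h b, dB_l r0 r1 w0 w1 h b]
      rw [ln_i hk hb hd]
      exact mul_nonneg (sq_nonneg _) (ci h b)
  · intro a b
    have hd : ds = (n1 * (G.dW r + (w - 1) * Lb.eK (Lb.sKr r) w r) + mu * ((w - 1) *
        Lb.eB (Lb.sBr r) w r)) * (1 - r * w) := by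
      rw [hds, dK_r r0 r1 w0 w1 a, dB_r r0 r1 w0 w1 a]
    rw [ln_i hk hb hd]
    have h3 := cw a b
    unfold Lb.fg at h3
    have := mul_nonneg (sub_nonneg.2 a) h3
    linarith
  · intro a b
    have hd : ds = (n1 * (G.dW r + (w - 1) * Lb.eK (Lb.sKr r) w r) + mu * ((w - 1) *
        Lb.eB (Lb.sBr r) w r)) * (1 - r * w) := by
      rw [hds, dK_r r0 r1 w0 w1 a, dB_r r0 r1 w0 w1 a]
    rw [ln_o (F := Lb.fg n1 mu (Lb.eK (Lb.sKr r) w r) (Lb.eB (Lb.sBr r) w r) w r) hk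
      (by linarith : w ≠ 0) rfl hb hd]
    exact mul_nonneg (sq_nonneg _) (co a b)

theorem C1d_cB {w r : ℝ} (r0 : 0 < r) (r1 : r ≤ 1 / 40) (w0 : 3 / 5 ≤ w) (w1 : w ≤ 11 / 10) :
    (G.C1d r 1 (-w)).cB = 0 := by
  have hs := Lb.s_le r0 r1 w0 w1
  have h := ab_s r0 one_pos (by linarith : 1 * r ≤ 1 / 40)
    (by linarith : w / 2 + E0.G.xi1 (-w) r ≤ 167 / 50 * 1)
  unfold G.C1d
  dsimp only
  rw [sg1_b, show G.bL (1 * r) r 1 (w / 2 + E0.G.xi1 (-w) r) = 0 by linarith [h.2.2.1, h.2.2.2],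
    mul_zero]

end Pool.Agent.Strip051.LC.E1.Ch
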