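import Pool.Agent.Strip051.LC.E1.Ch.Lb1
import Pool.Agent.Strip051.LC.E1.Ch.Bk
import Pool.Agent.Strip051.LC.E0.Ch.Cell

/-! # Rests near the full period: the line through the lattice shape, the rows -/

set_option linter.unusedVariables false
set_option linter.unusedSimpArgs false

namespace Pool.Agent.Strip051.LC.E1.Ch

open Pool.Agent.Strip051.PB
open Pool.Agent.Strip051.LC.E0.Ch (onCell Tree)
open Pool.Agent.Strip051.LC.E1.G (hg)

/-- The inequalities at the line. -/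
structure LbC (fl lw lo ld : Fn2) : Prop where
  i : ∀ {w r : ℝ}, 17 / 20 ≤ w → w ≤ 1 → 0 ≤ r → r ≤ 1 / 40 → 0 ≤ fl.v w r
  d : ∀ {w r : ℝ}, 3 / 5 ≤ w → w ≤ 17 / 20 → 0 ≤ r → r ≤ 1 / 40 → 0 ≤ ld.v w r
  w : ∀ {w r : ℝ}, 1 ≤ w → w ≤ 81 / 80 → 0 ≤ r → r ≤ 1 / 40 → 0 ≤ lw.v w r
  o : ∀ {w r : ℝ}, 1 ≤ w → w ≤ 11 / 10 → 0 ≤ r → r ≤ 1 / 40 → 0 ≤ lo.v w r

/-- the test of an inequality -/
noncomputable def tnn (F : Fn2) (_ A _ C : ℕ) : Bool := pnn (F.t A C)

theorem tnn_sound {F : Fn2} {P1 W1 : ℕ} {a b : ℝ}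
    (t : Tree P1 W1 0 0 0 26843546 (tnn F)) (ha : (P1 : ℝ) / S ≤ a)
    (hb : b ≤ ((P1 : ℝ) + W1) / S) {w r : ℝ} (h1 : a ≤ w) (h2 : w ≤ b) (h3 : 0 ≤ r)
    (h4 : r ≤ 1 / 40) : 0 ≤ F.v w r := by
  refine t.sound (Q := fun w' _ r' => 0 ≤ F.v w' r') ?_ (p := w) (q := 0) (x := r)
    (ha.trans h1) (h2.trans hb) ?_ ?_ ?_ ?_
  · intro E h A B C p q x hA hB hC hh
    exact pnn_sound (F.enc hA hC) hh
  all_goals (unfold S; push_cast; linarith)

/-- From the trees. -/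
theorem LbC.of {fl lw lo ld : Fn2}
    (ti : Tree 912680550 161061274 0 0 0 26843546 (tnn fl)) (td : Tree 644245094 268435457 0 0 0
        26843546 (tnn ld))
    (tw : Tree 1073741824 13421773 0 0 0 26843546 (tnn lw)) (tp : Tree 1073741824 107374183 0 0 0
        26843546 (tnn lo)) :
    LbC fl lw lo ld :=
  ⟨tnn_sound ti (by unfold S; norm_num) (by unfold S; norm_num),
    tnn_sound td (by unfold S; norm_num) (by unfold S; norm_num),
    tnn_sound tw (by unfold S; norm_num) (by unfold S; norm_num),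
    tnn_sound tp (by unfold S; norm_num) (by unfold S; norm_num)⟩

theorem lb_u1w_p_f (hc : LbC fffl lwf lof ldf) {w r : ℝ} (r0 : 0 < r) (r1 : r ≤ 1 / 40) :
    LineB R_u1w_p_f w w (-w) 1 r := by
  rcases lt_or_ge w (3 / 5) with hlt | w0
  · exact ⟨fun a _ => by linarith, fun a _ => by linarith, fun a _ => by linarith, fun a _ => by
      linarith, fun a _ => by linarith, fun a _ => by linarith⟩
  rcases lt_or_ge (11 / 10) w with hgt | w1
  · exact ⟨fun _ a => by linarith, fun _ a => by linarith, fun _ a => by linarith, fun _ a => by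
      linarith, fun _ a => by linarith, fun _ a => by linarith⟩
  have H := Lb.hc r0 r1 w0 w1
  have x1 : 1 * r ≤ 1 / 40 := by linarith
  have hU : R_u1w_p_f.U w (-w) 1 r = 0 := by
    simp only [RowF.U, R_u1w_p_f, u_T1_U_P1p_O1w, zx_val, xi1_val, xi3_val, xiw_val, xw0p_val,
        xq0p_val, add_neg_cancel, xi1_0]
    ring
  have hL : R_u1w_p_f.L w (-w) = w := by
    show Fn3.v lw _ _ _ = _
    rw [lw_val]
  have hA : R_u1w_p_f.A w (-w) = 0 := by
    show Fn3.v lt _ _ _ = _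
    rw [lt_val]
    ring
  have hB : R_u1w_p_f.B w (-w) = w := by
    show Fn3.v lnz _ _ _ = _
    rw [lnz_val]
    ring
  have k12 : R_u1w_p_f.K12 w (-w) 1 r = (G.W0 r 1 w).k := by
    unfold RowF.K12
    rw [hU]
    simp only [R_u1w_p_f, tkO1w_wp, zero_mul, add_zero, sub_zero, kw0_val]
  have k23 : R_u1w_p_f.K23 w (-w) 1 r = -(G.C1d r 1 (-w)).k := by
    unfold RowF.K23
    simp only [R_u1w_p_f, k1m_zn, k1m_val H]
  have k13 : R_u1w_p_f.K13 w (-w) 1 r = 0 := by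
    unfold RowF.K13
    simp only [R_u1w_p_f, k1p_tp, add_neg_cancel, k1p_0 r0 one_pos x1, k1m_0 r0 one_pos x1, b1p_0
        r0 one_pos x1, b1m_0 r0 one_pos x1, l1p_0 r0 one_pos x1, l1m_0 r0 one_pos x1]
  have b12 : R_u1w_p_f.B12 w (-w) 1 r = 0 := by
    unfold RowF.B12
    rw [hU]
    simp only [R_u1w_p_f, tcO1w_wp, zero_mul]
  have b23 : R_u1w_p_f.B23 w (-w) 1 r = 0 := by
    unfold RowF.B23
    simp only [R_u1w_p_f, l1m_zn, l1m_val H]
    rw [C1d_cB r0 r1 w0 w1, neg_zero]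
  have b13 : R_u1w_p_f.B13 w (-w) 1 r = 0 := by
    unfold RowF.B13
    simp only [R_u1w_p_f, l1p_tp, add_neg_cancel, k1p_0 r0 one_pos x1, k1m_0 r0 one_pos x1, b1p_0
        r0 one_pos x1, b1m_0 r0 one_pos x1, l1p_0 r0 one_pos x1, l1m_0 r0 one_pos x1]
  have hGM : R_u1w_p_f.GM w (-w) 1 r = 0 := by
    unfold RowF.GM
    rw [k13]
    show Fn6.v gm2 _ _ _ _ _ _ = 0
    rw [gm2_val]
    ring
  have hNF : R_u1w_p_f.NF w (-w) 1 r = w / 2 := by
    simp only [RowF.NF, R_u1w_p_f, nff_T1]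
    push_cast
    ring
  have hBS : R_u1w_p_f.BS w (-w) 1 r = -((E0.G.xi1 (-w) r ^ 2 + 3 / 4 * w ^ 2) / 2) := by
    simp only [RowF.BS, R_u1w_p_f, bs_T1_Uf, xi1_val, add_neg_cancel, xi1_0]
    push_cast
    ring
  have hDS : R_u1w_p_f.DS w (-w) 1 r = (1 * ((G.C1d r 1 (-w)).k - (G.W0 r 1 w).k) + 0 * ((G.C1d r
      1 (-w)).b - (G.W0 r 1 w).b)) * (1 - r * w) := by
    unfold RowF.DS RowF.DL
    rw [dsf_val, dln_val, shf_val, hL, k12, k23, k13]
    ring
  have v1 : R_u1w_p_f.V1B w (-w) 1 r = 0 := by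
    unfold RowF.V1B
    rw [b12, b23, b13]
    show Fn8.v vf1 _ _ _ _ _ _ _ _ = 0
    rw [vf1_val]
    ring
  have v2 : R_u1w_p_f.V2B w (-w) 1 r = 0 := by
    unfold RowF.V2B
    rw [b12, b23, b13]
    show Fn8.v vf2 _ _ _ _ _ _ _ _ = 0
    rw [vf2_val]
    ring
  refine lineB_of' (n1 := 1) (mu := 0) r0 r1 hL hA hB hNF hGM hBS hDS (fun _ _ => v1) (fun _ _ =>
      v2) ?_ rfl ?_ ?_ ?_ ?_
  · ring
  · intro a b
    have h9 := hc.i a b r0.le r1
    rw [fffl_val] at h9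
    unfold Lb.ff at h9
    unfold Lb.fg
    linarith
  · intro a b
    have h9 := hc.d a b r0.le r1
    have e1 := k1m_val (m := 1) H
    have e2 := kw0_val w 1 r
    rw [one_mul] at e1 e2
    simp only [ldf, xw0p_val, kx_val, qo_val, nkf_val, n1f_val] at h9
    push_cast at h9
    rw [e1, e2] at h9
    linarith
  · intro a b
    have h9 := hc.w a b r0.le r1
    rw [lwf_val] at h9
    unfold Lb.ff at h9
    unfold Lb.fg
    linarith
  · intro a b
    have h9 := hc.o a b r0.le r1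
    rw [lof_val] at h9
    unfold Lb.ff at h9
    unfold Lb.fg
    linarith

theorem lb_u1w_p_n (hc : LbC ffnl lwn lon ldn) {w r : ℝ} (r0 : 0 < r) (r1 : r ≤ 1 / 40) :
    LineB R_u1w_p_n w w (-w) 1 r := by
  rcases lt_or_ge w (3 / 5) with hlt | w0
  · exact ⟨fun a _ => by linarith, fun a _ => by linarith, fun a _ => by linarith, fun a _ => by
      linarith, fun a _ => by linarith, fun a _ => by linarith⟩
  rcases lt_or_ge (11 / 10) w with hgt | w1
  · exact ⟨fun _ a => by linarith, fun _ a => by linarith, fun _ a => by linarith, fun _ a => by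
      linarith, fun _ a => by linarith, fun _ a => by linarith⟩
  have H := Lb.hc r0 r1 w0 w1
  have x1 : 1 * r ≤ 1 / 40 := by linarith
  have hU : R_u1w_p_n.U w (-w) 1 r = 0 := by
    simp only [RowF.U, R_u1w_p_n, u_T1_U_P1p_O1w, zx_val, xi1_val, xi3_val, xiw_val, xw0p_val,
        xq0p_val, add_neg_cancel, xi1_0]
    ring
  have hL : R_u1w_p_n.L w (-w) = w := by
    show Fn3.v lw _ _ _ = _
    rw [lw_val]
  have hA : R_u1w_p_n.A w (-w) = 0 := by
    show Fn3.v lt _ _ _ = _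
    rw [lt_val]
    ring
  have hB : R_u1w_p_n.B w (-w) = w := by
    show Fn3.v lnz _ _ _ = _
    rw [lnz_val]
    ring
  have k12 : R_u1w_p_n.K12 w (-w) 1 r = (1 + G.LAM r * G.mu r) * (G.W0 r 1 w).k + G.mu r * (G.W0
      r 1 w).b := by
    unfold RowF.K12
    rw [hU]
    simp only [R_u1w_p_n, ntkO1w_wp, tkO1w_wp, tbO1w_wp, zero_mul, add_zero, sub_zero, nkf_val,
        kw0_val, bw0_val]
    simp only [one_mul]
  have k23 : R_u1w_p_n.K23 w (-w) 1 r = -((1 + G.LAM r * G.mu r) * (G.C1d r 1 (-w)).k + G.mu r *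
      (G.C1d r 1 (-w)).b) := by
    unfold RowF.K23
    simp only [R_u1w_p_n, nk1m_zn, k1m_zn, b1m_zn, nkf_val, k1m_val H, b1m_val H]
    simp only [one_mul]
    ring
  have k13 : R_u1w_p_n.K13 w (-w) 1 r = 0 := by
    unfold RowF.K13
    simp only [R_u1w_p_n, nk1p_tp, k1p_tp, b1p_tp, nkf_val, add_neg_cancel, k1p_0 r0 one_pos x1,
        k1m_0 r0 one_pos x1, b1p_0 r0 one_pos x1, b1m_0 r0 one_pos x1, l1p_0 r0 one_pos x1, l1m_0
        r0 one_pos x1]
    ring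
  have b12 : R_u1w_p_n.B12 w (-w) 1 r = 0 := by
    unfold RowF.B12
    rw [hU]
    simp only [R_u1w_p_n, tcO1w_wp, zero_mul]
  have b23 : R_u1w_p_n.B23 w (-w) 1 r = 0 := by
    unfold RowF.B23
    simp only [R_u1w_p_n, l1m_zn, l1m_val H]
    rw [C1d_cB r0 r1 w0 w1, neg_zero]
  have b13 : R_u1w_p_n.B13 w (-w) 1 r = 0 := by
    unfold RowF.B13
    simp only [R_u1w_p_n, l1p_tp, add_neg_cancel, k1p_0 r0 one_pos x1, k1m_0 r0 one_pos x1, b1p_0
        r0 one_pos x1, b1m_0 r0 one_pos x1, l1p_0 r0 one_pos x1, l1m_0 r0 one_pos x1]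
  have hGM : R_u1w_p_n.GM w (-w) 1 r = 0 := by
    unfold RowF.GM
    rw [k13]
    show Fn6.v gm2 _ _ _ _ _ _ = 0
    rw [gm2_val]
    ring
  have hNF : R_u1w_p_n.NF w (-w) 1 r = w / 2 * G.be r := by
    simp only [RowF.NF, R_u1w_p_n, nfn_T1, bef_val]
    simp only [one_mul]
    push_cast
    ring
  have hBS : R_u1w_p_n.BS w (-w) 1 r = (1 + G.LAM r * G.mu r) * -((E0.G.xi1 (-w) r ^ 2 + 3 / 4 *
      w ^ 2) / 2) - G.mu r * G.LAM r * (G.q1 r / (2 * G.eh r)) * (w / 2) := by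
    simp only [RowF.BS, R_u1w_p_n, bs_T1_Un, xi1_val, add_neg_cancel, xi1_0, n1f_val, lmf_val,
        mu_val', qo_val, eh_val]
    simp only [one_mul]
    push_cast
    ring
  have hDS : R_u1w_p_n.DS w (-w) 1 r = ((1 + G.LAM r * G.mu r) * ((G.C1d r 1 (-w)).k - (G.W0 r 1
      w).k) + G.mu r * ((G.C1d r 1 (-w)).b - (G.W0 r 1 w).b)) * (1 - r * w) := by
    unfold RowF.DS RowF.DL
    rw [dsf_val, dln_val, shf_val, hL, k12, k23, k13]
    ring
  have v1 : R_u1w_p_n.V1B w (-w) 1 r = 0 := by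
    unfold RowF.V1B
    rw [b12, b23, b13]
    show Fn8.v ml1 _ _ _ _ _ _ _ _ = 0
    rw [ml1_val]
    ring
  have v2 : R_u1w_p_n.V2B w (-w) 1 r = 0 := by
    unfold RowF.V2B
    rw [b12, b23, b13]
    show Fn8.v ml2 _ _ _ _ _ _ _ _ = 0
    rw [ml2_val]
    ring
  refine lineB_of' (n1 := (1 + G.LAM r * G.mu r)) (mu := G.mu r) r0 r1 hL hA hB hNF hGM hBS hDS
      (fun _ _ => v1) (fun _ _ => v2) ?_ rfl ?_ ?_ ?_ ?_
  · unfold G.be G.B0
    ring
  · intro a b
    have h9 := hc.i a b r0.le r1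
    rw [ffnl_val] at h9
    unfold Lb.fn at h9
    unfold Lb.fg
    linarith
  · intro a b
    have h9 := hc.d a b r0.le r1
    have e1 := k1m_val (m := 1) H
    have e2 := kw0_val w 1 r
    rw [one_mul] at e1 e2
    have e3 := b1m_val (m := 1) H
    have e4 := bw0_val w 1 r
    rw [one_mul] at e3 e4
    simp only [ldn, ldn_5, xw0p_val, kx_val, qo_val, nkf_val, n1f_val] at h9
    push_cast at h9
    rw [e1, e2, e3, e4] at h9
    linarith
  · intro a b
    have h9 := hc.w a b r0.le r1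
    rw [lwn_val] at h9
    unfold Lb.fn at h9
    unfold Lb.fg
    linarith
  · intro a b
    have h9 := hc.o a b r0.le r1
    rw [lon_val] at h9
    unfold Lb.fn at h9
    unfold Lb.fg
    linarith

theorem lb_uq_n_f (hc : LbC fffl lwf lof ldf) {w r : ℝ} (r0 : 0 < r) (r1 : r ≤ 1 / 40) :
    LineB R_uq_n_f w w (-w) 1 r := by
  rcases lt_or_ge w (3 / 5) with hlt | w0
  · exact ⟨fun a _ => by linarith, fun a _ => by linarith, fun a _ => by linarith, fun a _ => by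
      linarith, fun a _ => by linarith, fun a _ => by linarith⟩
  rcases lt_or_ge (11 / 10) w with hgt | w1
  · exact ⟨fun _ a => by linarith, fun _ a => by linarith, fun _ a => by linarith, fun _ a => by
      linarith, fun _ a => by linarith, fun _ a => by linarith⟩
  have H := Lb.hc r0 r1 w0 w1
  have x1 : 1 * r ≤ 1 / 40 := by linarith
  have hU : R_uq_n_f.U w (-w) 1 r = 0 := by
    simp only [RowF.U, R_uq_n_f, u_T1_U_P1m_OWq, zx_val, xi1_val, xi3_val, xiw_val, xw0p_val,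
        xq0p_val, add_neg_cancel, xi1_0]
    ring
  have hL : R_uq_n_f.L w (-w) = w := by
    show Fn3.v lnz _ _ _ = _
    rw [lnz_val]
    ring
  have hA : R_uq_n_f.A w (-w) = 0 := by
    show Fn3.v lnt _ _ _ = _
    rw [lnt_val]
    ring
  have hB : R_uq_n_f.B w (-w) = w := by
    show Fn3.v lw _ _ _ = _
    rw [lw_val]
  have k12 : R_uq_n_f.K12 w (-w) 1 r = (G.W0 r 1 w).k := by
    unfold RowF.K12
    rw [hU]
    simp only [R_uq_n_f, tkOWq_wp, zero_mul, add_zero, sub_zero, kw0_val]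
  have k23 : R_uq_n_f.K23 w (-w) 1 r = -(G.C1d r 1 (-w)).k := by
    unfold RowF.K23
    simp only [R_uq_n_f, k1m_zn, k1m_val H]
  have k13 : R_uq_n_f.K13 w (-w) 1 r = 0 := by
    unfold RowF.K13
    simp only [R_uq_n_f, k1m_tp, add_neg_cancel, k1p_0 r0 one_pos x1, k1m_0 r0 one_pos x1, b1p_0
        r0 one_pos x1, b1m_0 r0 one_pos x1, l1p_0 r0 one_pos x1, l1m_0 r0 one_pos x1]
  have b12 : R_uq_n_f.B12 w (-w) 1 r = 0 := by
    unfold RowF.B12
    rw [hU]
    simp only [R_uq_n_f, tcOWq_wp, zero_mul]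
  have b23 : R_uq_n_f.B23 w (-w) 1 r = 0 := by
    unfold RowF.B23
    simp only [R_uq_n_f, l1m_zn, l1m_val H]
    rw [C1d_cB r0 r1 w0 w1, neg_zero]
  have b13 : R_uq_n_f.B13 w (-w) 1 r = 0 := by
    unfold RowF.B13
    simp only [R_uq_n_f, l1m_tp, add_neg_cancel, k1p_0 r0 one_pos x1, k1m_0 r0 one_pos x1, b1p_0
        r0 one_pos x1, b1m_0 r0 one_pos x1, l1p_0 r0 one_pos x1, l1m_0 r0 one_pos x1]
  have hGM : R_uq_n_f.GM w (-w) 1 r = 0 := by
    unfold RowF.GM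
    rw [k13]
    show Fn6.v gm3 _ _ _ _ _ _ = 0
    rw [gm3_val]
    ring
  have hNF : R_uq_n_f.NF w (-w) 1 r = w / 2 := by
    simp only [RowF.NF, R_uq_n_f, nff_T1]
    push_cast
    ring
  have hBS : R_uq_n_f.BS w (-w) 1 r = -((E0.G.xi1 (-w) r ^ 2 + 3 / 4 * w ^ 2) / 2) := by
    simp only [RowF.BS, R_uq_n_f, bs_T1_Uf, xi1_val, add_neg_cancel, xi1_0]
    push_cast
    ring
  have hDS : R_uq_n_f.DS w (-w) 1 r = (1 * ((G.C1d r 1 (-w)).k - (G.W0 r 1 w).k) + 0 * ((G.C1d r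
      1 (-w)).b - (G.W0 r 1 w).b)) * (1 - r * w) := by
    unfold RowF.DS RowF.DL
    rw [dsf_val, dln_val, shf_val, hL, k12, k23, k13]
    ring
  have v1 : R_uq_n_f.V1B w (-w) 1 r = 0 := by
    unfold RowF.V1B
    rw [b12, b23, b13]
    show Fn8.v vf1 _ _ _ _ _ _ _ _ = 0
    rw [vf1_val]
    ring
  have v2 : R_uq_n_f.V2B w (-w) 1 r = 0 := by
    unfold RowF.V2B
    rw [b12, b23, b13]
    show Fn8.v vf2 _ _ _ _ _ _ _ _ = 0
    rw [vf2_val]
    ring
  refine lineB_of' (n1 := 1) (mu := 0) r0 r1 hL hA hB hNF hGM hBS hDS (fun _ _ => v1) (fun _ _ =>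
      v2) ?_ rfl ?_ ?_ ?_ ?_
  · ring
  · intro a b
    have h9 := hc.i a b r0.le r1
    rw [fffl_val] at h9
    unfold Lb.ff at h9
    unfold Lb.fg
    linarith
  · intro a b
    have h9 := hc.d a b r0.le r1
    have e1 := k1m_val (m := 1) H
    have e2 := kw0_val w 1 r
    rw [one_mul] at e1 e2
    simp only [ldf, xw0p_val, kx_val, qo_val, nkf_val, n1f_val] at h9
    push_cast at h9
    rw [e1, e2] at h9
    linarith
  · intro a b
    have h9 := hc.w a b r0.le r1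
    rw [lwf_val] at h9
    unfold Lb.ff at h9
    unfold Lb.fg
    linarith
  · intro a b
    have h9 := hc.o a b r0.le r1
    rw [lof_val] at h9
    unfold Lb.ff at h9
    unfold Lb.fg
    linarith

theorem lb_uq_n_n (hc : LbC ffnl lwn lon ldn) {w r : ℝ} (r0 : 0 < r) (r1 : r ≤ 1 / 40) :
    LineB R_uq_n_n w w (-w) 1 r := by
  rcases lt_or_ge w (3 / 5) with hlt | w0
  · exact ⟨fun a _ => by linarith, fun a _ => by linarith, fun a _ => by linarith, fun a _ => by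
      linarith, fun a _ => by linarith, fun a _ => by linarith⟩
  rcases lt_or_ge (11 / 10) w with hgt | w1
  · exact ⟨fun _ a => by linarith, fun _ a => by linarith, fun _ a => by linarith, fun _ a => by
      linarith, fun _ a => by linarith, fun _ a => by linarith⟩
  have H := Lb.hc r0 r1 w0 w1
  have x1 : 1 * r ≤ 1 / 40 := by linarith
  have hU : R_uq_n_n.U w (-w) 1 r = 0 := by
    simp only [RowF.U, R_uq_n_n, u_T1_U_P1m_OWq, zx_val, xi1_val, xi3_val, xiw_val, xw0p_val,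
        xq0p_val, add_neg_cancel, xi1_0]
    ring
  have hL : R_uq_n_n.L w (-w) = w := by
    show Fn3.v lnz _ _ _ = _
    rw [lnz_val]
    ring
  have hA : R_uq_n_n.A w (-w) = 0 := by
    show Fn3.v lnt _ _ _ = _
    rw [lnt_val]
    ring
  have hB : R_uq_n_n.B w (-w) = w := by
    show Fn3.v lw _ _ _ = _
    rw [lw_val]
  have k12 : R_uq_n_n.K12 w (-w) 1 r = (1 + G.LAM r * G.mu r) * (G.W0 r 1 w).k + G.mu r * (G.W0 r
      1 w).b := by
    unfold RowF.K12
    rw [hU]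
    simp only [R_uq_n_n, ntkOWq_wp, tkOWq_wp, tbOWq_wp, zero_mul, add_zero, sub_zero, nkf_val,
        kw0_val, bw0_val]
    simp only [one_mul]
  have k23 : R_uq_n_n.K23 w (-w) 1 r = -((1 + G.LAM r * G.mu r) * (G.C1d r 1 (-w)).k + G.mu r *
      (G.C1d r 1 (-w)).b) := by
    unfold RowF.K23
    simp only [R_uq_n_n, nk1m_zn, k1m_zn, b1m_zn, nkf_val, k1m_val H, b1m_val H]
    simp only [one_mul]
    ring
  have k13 : R_uq_n_n.K13 w (-w) 1 r = 0 := by
    unfold RowF.K13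
    simp only [R_uq_n_n, nk1m_tp, k1m_tp, b1m_tp, nkf_val, add_neg_cancel, k1p_0 r0 one_pos x1,
        k1m_0 r0 one_pos x1, b1p_0 r0 one_pos x1, b1m_0 r0 one_pos x1, l1p_0 r0 one_pos x1, l1m_0
        r0 one_pos x1]
    ring
  have b12 : R_uq_n_n.B12 w (-w) 1 r = 0 := by
    unfold RowF.B12
    rw [hU]
    simp only [R_uq_n_n, tcOWq_wp, zero_mul]
  have b23 : R_uq_n_n.B23 w (-w) 1 r = 0 := by
    unfold RowF.B23
    simp only [R_uq_n_n, l1m_zn, l1m_val H]
    rw [C1d_cB r0 r1 w0 w1, neg_zero]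
  have b13 : R_uq_n_n.B13 w (-w) 1 r = 0 := by
    unfold RowF.B13
    simp only [R_uq_n_n, l1m_tp, add_neg_cancel, k1p_0 r0 one_pos x1, k1m_0 r0 one_pos x1, b1p_0
        r0 one_pos x1, b1m_0 r0 one_pos x1, l1p_0 r0 one_pos x1, l1m_0 r0 one_pos x1]
  have hGM : R_uq_n_n.GM w (-w) 1 r = 0 := by
    unfold RowF.GM
    rw [k13]
    show Fn6.v gm3 _ _ _ _ _ _ = 0
    rw [gm3_val]
    ring
  have hNF : R_uq_n_n.NF w (-w) 1 r = w / 2 * G.be r := by
    simp only [RowF.NF, R_uq_n_n, nfn_T1, bef_val]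
    simp only [one_mul]
    push_cast
    ring
  have hBS : R_uq_n_n.BS w (-w) 1 r = (1 + G.LAM r * G.mu r) * -((E0.G.xi1 (-w) r ^ 2 + 3 / 4 * w
      ^ 2) / 2) - G.mu r * G.LAM r * (G.q1 r / (2 * G.eh r)) * (w / 2) := by
    simp only [RowF.BS, R_uq_n_n, bs_T1_Un, xi1_val, add_neg_cancel, xi1_0, n1f_val, lmf_val,
        mu_val', qo_val, eh_val]
    simp only [one_mul]
    push_cast
    ring
  have hDS : R_uq_n_n.DS w (-w) 1 r = ((1 + G.LAM r * G.mu r) * ((G.C1d r 1 (-w)).k - (G.W0 r 1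
      w).k) + G.mu r * ((G.C1d r 1 (-w)).b - (G.W0 r 1 w).b)) * (1 - r * w) := by
    unfold RowF.DS RowF.DL
    rw [dsf_val, dln_val, shf_val, hL, k12, k23, k13]
    ring
  have v1 : R_uq_n_n.V1B w (-w) 1 r = 0 := by
    unfold RowF.V1B
    rw [b12, b23, b13]
    show Fn8.v ml1 _ _ _ _ _ _ _ _ = 0
    rw [ml1_val]
    ring
  have v2 : R_uq_n_n.V2B w (-w) 1 r = 0 := by
    unfold RowF.V2B
    rw [b12, b23, b13]
    show Fn8.v ml2 _ _ _ _ _ _ _ _ = 0
    rw [ml2_val]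
    ring
  refine lineB_of' (n1 := (1 + G.LAM r * G.mu r)) (mu := G.mu r) r0 r1 hL hA hB hNF hGM hBS hDS
      (fun _ _ => v1) (fun _ _ => v2) ?_ rfl ?_ ?_ ?_ ?_
  · unfold G.be G.B0
    ring
  · intro a b
    have h9 := hc.i a b r0.le r1
    rw [ffnl_val] at h9
    unfold Lb.fn at h9
    unfold Lb.fg
    linarith
  · intro a b
    have h9 := hc.d a b r0.le r1
    have e1 := k1m_val (m := 1) H
    have e2 := kw0_val w 1 r
    rw [one_mul] at e1 e2
    have e3 := b1m_val (m := 1) H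
    have e4 := bw0_val w 1 r
    rw [one_mul] at e3 e4
    simp only [ldn, ldn_5, xw0p_val, kx_val, qo_val, nkf_val, n1f_val] at h9
    push_cast at h9
    rw [e1, e2, e3, e4] at h9
    linarith
  · intro a b
    have h9 := hc.w a b r0.le r1
    rw [lwn_val] at h9
    unfold Lb.fn at h9
    unfold Lb.fg
    linarith
  · intro a b
    have h9 := hc.o a b r0.le r1
    rw [lon_val] at h9
    unfold Lb.fn at h9
    unfold Lb.fg
    linarith

end Pool.Agent.Strip051.LC.E1.Ch
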