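import Pool.Agent.Strip051.LC.E1.Ch.Slp

/-! # Rests near the full period: leaves with the chord of the quadratic term -/

set_option linter.unusedVariables false

namespace Pool.Agent.Strip051.LC.E1.Ch

open Pool.Agent.Strip051.PB

attribute [local irreducible] padd psub pneg pmul psq pinv psqrt psqrtg pabs pps pmax pmin pphi
    plam
  pcase phf pnat prat pscale pnorm pdc pnc pone ppos pnn Enc

/-- the test; `s0 / 4`, `s1 / 4` are the ends of the chord -/
noncomputable def linB (s0 s1 X Q M L lf ln D GP NFd BSd Ta Td Za Zd K23b K13b K12d K23d K13d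
    V1Bd V2Bd : ℕ) : Bool :=
  frc (padd GP (pmul (pnorm (pmul Q D)) lf)) fun XX =>
  band (pnn D) (band (ppos XX) (band (pnn (psub D (pscale s0 4 XX)))
  (band (pnn (psub (pscale s1 4 XX) D)) (band (pnn (cinf.t Q ln D GP))
  (frc (kx.t X) fun K => frc (pnorm (pmul Q lf)) fun RL =>
  frc (pnorm (pmul (pnorm (pmul K L)) RL)) fun C =>
  frc (pnorm (pscale (s0 * s1) 16 C)) fun MM =>
  frc (pnorm (padd (pmul K (pnorm (psub M L))) (pmul C (pnorm (psub (pscale (s0 + s1) 4 pone)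
      (pscale (s0 * s1) 16 RL)))))) fun LL =>
  frc (pnorm (pmul LL (shf.t Q L))) fun Ls =>
  frc (pnorm (psub (eh.t X) (pmul Q MM))) fun Eh =>
  frc (padd (padd (padd (psub (padd (pmul NFd (pnorm (padd (pmul M (qo.t X)) MM))) BSd)
      (pmul Eh (pnorm (psub (pmul Td K23b) (pmul Zd K13b)))))
      (pmul (pnorm K23d) (pnorm (psub Ls (pmul Eh Ta)))))
      (pmul (pnorm K13d) (pnorm (psub (pmul Eh Za) Ls)))) (pmul (pnorm K12d) Ls)) fun F =>
  band (pnn (padd F V1Bd)) (pnn (padd F V2Bd)))))))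

/-- leaf at a strip with the chord of the quadratic term -/
noncomputable def linT {R : RowF} {q : Bool} (S : RowS R q) (kw : Fn2)
    (sd s0 s1 W Z M Q : ℕ) : Bool :=
  frc (kw.t W Q) fun KW => frc (pneg KW) fun Zb => frc (pnorm (pmul M Q)) fun X =>
  frc (pnorm (padd W Z)) fun Ta => frc (pnorm (padd W Zb)) fun Tb => frc (pnorm (padd pzero sd))
      fun Td =>
  pval S true W W pzero Z Zb sd M Q fun Ua Ub Ud NUa NUb NUd NFa NFb NFd BSa BSb BSd La Lb Ld Aa
      Ab Ad Ba Bb Bd GMa GMb GMd DSa DSb DSd GPa GPb GPd V1Aa V1Ab V1Ad V1Ba V1Bb V1Bd V2Aa V2Ab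
      V2Ad V2Ba V2Bb V2Bd BNa BNb BNd =>
    band (ppos Ud)
    (frc (S.k12.s Ua Ub Ud W W pzero Z Zb sd Ta Tb Td M Q X) fun K12d =>
    frc (R.k23.t Ub W Zb Tb M Q X) fun K23b =>
    frc (S.k23.s Ua Ub Ud W W pzero Z Zb sd Ta Tb Td M Q X) fun K23d =>
    frc (R.k13.t Ub W Zb Tb M Q X) fun K13b =>
    frc (S.k13.s Ua Ub Ud W W pzero Z Zb sd Ta Tb Td M Q X) fun K13d =>
    linB s0 s1 X Q M La Aa Ba DSd GPd NFd BSd Ta Td Z sd K23b K13b K12d K23d K13d V1Bd V2Bd)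

theorem gs_le' {e : ℝ} (he : 0 ≤ e) (he1 : e ≤ 1) : G.gs e ≤ 1 := by
  unfold G.gs
  rw [Real.sqrt_le_one]
  nlinarith

theorem eh_nn {e : ℝ} (he : 0 ≤ e) (he1 : e ≤ 1 / 40) : 0 ≤ G.eh e := by
  have h1 := gs_le' he (by linarith)
  have h2 := @gs_nn e
  have h3 : 2 / 3 ≤ G.ig e := by
    unfold G.ig
    rw [div_le_div_iff₀ (by norm_num) (by linarith)]
    linarith
  unfold G.eh
  nlinarith

/-- the chord -/
theorem chord {D X s0 s1 : ℝ} (hX : 0 < X) (h0 : 0 ≤ D - s0 * X) (h1 : 0 ≤ s1 * X - D) :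
    D * D * X⁻¹ ≤ (s0 + s1) * D - s0 * s1 * X := by
  rw [← div_eq_mul_inv, div_le_iff₀ hX]
  nlinarith

section

variable {E : Pt}
  {s0 s1 X Q M L LF LN D GP NFd BSd Ta Td Za Zd K23b K13b K12d K23d K13d V1Bd V2Bd : ℕ}
  {r m l lf ln d gp nfd bsd ta td za zd k23b k13b k12d k23d k13d v1bd v2bd : ℝ}

theorem linB_sound (hX : Enc E X (m * r)) (hr : Enc E Q r) (hm : Enc E M m) (hl : Enc E L l)
    (hlf : Enc E LF lf) (hln : Enc E LN ln) (hd : Enc E D d) (hg : Enc E GP gp)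
    (hnf : Enc E NFd nfd) (hbs : Enc E BSd bsd) (hta : Enc E Ta ta) (htd : Enc E Td td)
    (hza : Enc E Za za) (hzd : Enc E Zd zd) (k1 : Enc E K23b k23b) (k2 : Enc E K13b k13b)
    (k3 : Enc E K12d k12d) (k4 : Enc E K23d k23d) (k5 : Enc E K13d k13d) (hv1 : Enc E V1Bd v1bd)
    (hv2 : Enc E V2Bd v2bd) (r0 : 0 < r) (m0 : 0 < m) (x1 : m * r ≤ 1 / 40) (l0 : 0 ≤ l)
    (lf0 : 0 ≤ lf)
    (egp : gp = nfd + r * (td * k23b + ta * k23d - zd * k13b - za * k13d))
    (ed : d = (k13d - k12d - k23d) * (1 - r * l))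
    (h : linB s0 s1 X Q M L LF LN D GP NFd BSd Ta Td Za Zd K23b K13b K12d K23d K13d V1Bd V2Bd =
        true) :
    0 ≤ d ∧ InR (m * r) r m l lf ln 0 (nfd * (m * G.q1 (m * r)) + bsd - G.eh (m * r) *
      (td * k23b + ta * k23d - zd * k13b - za * k13d)) d gp v1bd v2bd := by
  unfold linB at h
  rw [frc_eq] at h
  obtain ⟨t1, h⟩ := band_true h
  obtain ⟨t2, h⟩ := band_true h
  obtain ⟨t3, h⟩ := band_true h
  obtain ⟨t4, h⟩ := band_true h
  obtain ⟨t5, h⟩ := band_true h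
  simp only [frc_eq] at h
  obtain ⟨t6, t7⟩ := band_true h
  have hXX := enc_add hg (enc_mul (enc_norm (enc_mul hr hd)) hlf)
  have g1 := pnn_sound hd t1
  have g2 := ppos_sound hXX t2
  have g3 := pnn_sound (enc_sub hd (enc_scale s0 4 hXX)) t3
  have g4 := pnn_sound (enc_sub (enc_scale s1 4 hXX) hd) t4
  have g5 := pnn_sound (cinf.enc hr hln hd hg) t5
  have hK := kx.enc hX
  have hRL := enc_norm (enc_mul hr hlf)
  have hC := enc_norm (enc_mul (enc_norm (enc_mul hK hl)) hRL)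
  have hMM := enc_norm (enc_scale (s0 * s1) 16 hC)
  have hLL := enc_norm (enc_add (enc_mul hK (enc_norm (enc_sub hm hl))) (enc_mul hC (enc_norm
    (enc_sub (enc_scale (s0 + s1) 4 (enc_one E)) (enc_scale (s0 * s1) 16 hRL)))))
  have hLs := enc_norm (enc_mul hLL (shf.enc hr hl))
  have hEh := enc_norm (enc_sub (eh.enc hX) (enc_mul hr hMM))
  have hF := enc_add (enc_add (enc_add (enc_sub (enc_add (enc_mul hnf (enc_norm (enc_add
    (enc_mul hm (qo.enc hX)) hMM))) hbs)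
      (enc_mul hEh (enc_norm (enc_sub (enc_mul htd k1) (enc_mul hzd k2)))))
      (enc_mul (enc_norm k4) (enc_norm (enc_sub hLs (enc_mul hEh hta)))))
      (enc_mul (enc_norm k5) (enc_norm (enc_sub (enc_mul hEh hza) hLs)))) (enc_mul (enc_norm k3)
          hLs)
  have f1 := pnn_sound (enc_add hF hv1) t6
  have f2 := pnn_sound (enc_add hF hv2) t7
  have x0 : 0 < m * r := mul_pos m0 r0
  have hkp : 0 ≤ G.eh (m * r) / (1 - m * r) := div_nonneg (eh_nn x0.le x1) (by linarith)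
  have ch := chord (D := d) (X := gp + r * d * lf) (s0 := s0 / 4) (s1 := s1 / 4) g2
    (by push_cast at g3; linarith) (by push_cast at g4; linarith)
  have hc : 0 ≤ G.eh (m * r) / (1 - m * r) * l * (lf * r) := by positivity
  have ch2 := mul_le_mul_of_nonneg_left ch hc
  rw [kx_val, shf_val, eh_val, qo_val] at f1 f2
  push_cast at f1 f2
  have key : ∀ v : ℝ, 0 ≤ nfd * (m * G.q1 (m * r) + (s0 : ℝ) * s1 / 16 *
      (G.eh (m * r) / (1 - m * r) * l * (r * lf))) + bsd -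
      (G.eh (m * r) - r * ((s0 : ℝ) * s1 / 16 * (G.eh (m * r) / (1 - m * r) * l * (r * lf)))) *
        (td * k23b - zd * k13b) +
      k23d * ((G.eh (m * r) / (1 - m * r) * (m - l) + G.eh (m * r) / (1 - m * r) * l * (r * lf) *
        (((s0 : ℝ) + s1) / 4 * 1 - (s0 : ℝ) * s1 / 16 * (r * lf))) * (1 - r * l) -
        (G.eh (m * r) - r * ((s0 : ℝ) * s1 / 16 *
          (G.eh (m * r) / (1 - m * r) * l * (r * lf)))) * ta) +
      k13d * ((G.eh (m * r) - r * ((s0 : ℝ) * s1 / 16 *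
          (G.eh (m * r) / (1 - m * r) * l * (r * lf)))) * za -
        (G.eh (m * r) / (1 - m * r) * (m - l) + G.eh (m * r) / (1 - m * r) * l * (r * lf) *
        (((s0 : ℝ) + s1) / 4 * 1 - (s0 : ℝ) * s1 / 16 * (r * lf))) * (1 - r * l)) +
      k12d * ((G.eh (m * r) / (1 - m * r) * (m - l) + G.eh (m * r) / (1 - m * r) * l * (r * lf) *
        (((s0 : ℝ) + s1) / 4 * 1 - (s0 : ℝ) * s1 / 16 * (r * lf))) * (1 - r * l)) + v →
      0 ≤ 0 + finf.v (m * r) r m l lf
      (nfd * (m * G.q1 (m * r)) + bsd - G.eh (m * r) *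
      (td * k23b + ta * k23d - zd * k13b - za * k13d)) d gp + v := by
    intro v hv
    rw [finf_val]
    generalize G.eh (m * r) / (1 - m * r) = k at hv ch2 ⊢
    generalize hI : (gp + r * d * lf)⁻¹ = I at ch2 ⊢
    generalize G.eh (m * r) = e at hv ⊢
    generalize G.q1 (m * r) = q at hv ⊢
    have e1 : (k13d - k12d - k23d) * (1 - r * l) = d := ed.symm
    have e2 : nfd + r * (td * k23b + ta * k23d - zd * k13b - za * k13d) = gp := egp.symm
    have e3 : 0 + (nfd * (m * q) + bsd - e * (td * k23b + ta * k23d - zd * k13b - za * k13d) -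
        k * (d * (m - l)) - k * l * (lf * (r * d * d)) * I) + v =
      (nfd * (m * q + (s0 : ℝ) * s1 / 16 *
      (k * l * (r * lf))) + bsd -
      (e - r * ((s0 : ℝ) * s1 / 16 * (k * l * (r * lf)))) *
        (td * k23b - zd * k13b) +
      k23d * ((k * (m - l) + k * l * (r * lf) *
        (((s0 : ℝ) + s1) / 4 * 1 - (s0 : ℝ) * s1 / 16 * (r * lf))) * (1 - r * l) -
        (e - r * ((s0 : ℝ) * s1 / 16 *
          (k * l * (r * lf)))) * ta) +
      k13d * ((e - r * ((s0 : ℝ) * s1 / 16 *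
          (k * l * (r * lf)))) * za -
        (k * (m - l) + k * l * (r * lf) *
        (((s0 : ℝ) + s1) / 4 * 1 - (s0 : ℝ) * s1 / 16 * (r * lf))) * (1 - r * l)) +
      k12d * ((k * (m - l) + k * l * (r * lf) *
        (((s0 : ℝ) + s1) / 4 * 1 - (s0 : ℝ) * s1 / 16 * (r * lf))) * (1 - r * l)) + v) +
      (k * l * (lf * r) * (((s0 : ℝ) / 4 + (s1 : ℝ) / 4) * d - (s0 : ℝ) / 4 * ((s1 : ℝ) / 4) *
          (gp + r * d * lf)) -
        k * l * (lf * r) * (d * d * I)) := by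
      linear_combination (k * (m - l) + k * l * (r * lf) *
        (((s0 : ℝ) + s1) / 4 - (s0 : ℝ) * s1 / 16 * (r * lf))) * e1 -
        ((s0 : ℝ) * s1 / 16 * (k * l * (r * lf))) * e2
    rw [e3]
    linarith [hv, ch2]
  exact ⟨g1, ⟨key _ f1, key _ f2⟩, g5⟩

theorem linT_sound {R : RowF} {q : Bool} {S : RowS R q} {kw : Fn2} {sd s0 s1 W Z M Q : ℕ}
    {w z m r sg nb lev : ℝ} (hw : Enc E W w) (hz : Enc E Z z)
    (hm : Enc E M m) (hr : Enc E Q r) (hs : Enc E sd sg) (hs1 : sg * sg = 1) (D : Dm R w z m r)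
    (B : SBase R w (-kw.v w r) m r nb) (um : Um R w z m r) (um' : Um R w (-kw.v w r) m r)
    (hgm : R.gm = gm2) (hlev : R.Lv w z m r lev)
    (h : linT S kw sd s0 s1 W Z M Q = true) : R.Sk w z m r lev := by
  unfold linT at h
  simp only [frc_eq] at h
  have hK := kw.enc hw hr
  have hX : Enc E (pnorm (pmul M Q)) (m * r) := enc_norm (enc_mul hm hr)
  have hW : Pr E (sg * (z + kw.v w r)) W W pzero w w := pr_const hw
  have hZ : Pr E (sg * (z + kw.v w r)) Z (pneg (kw.t W Q)) sd z (-kw.v w r) :=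
    ⟨hz, enc_neg hK, sg, hs, by linear_combination (-(z + kw.v w r)) * hs1⟩
  have hT := pr_norm (pr_add hW hZ)
  obtain ⟨Ua, Ub, Ud, NUa, NUb, NUd, NFa, NFb, NFd, BSa, BSb, BSd, La, Lb, Ld, Aa, Ab, Ad, Ba,
      Bb, Bd, GMa, GMb, GMd, DSa, DSb, DSd, GPa, GPb, GPd, V1Aa, V1Ab, V1Ad, V1Ba, V1Bb, V1Bd,
      V2Aa, V2Ab, V2Ad, V2Ba, V2Bb, V2Bd, BNa, BNb, BNd, h, F⟩ := pval_sound hW hZ hm hr (fun _
      => B.u) (fun _ => B.d) h
  obtain ⟨h1, h⟩ := band_true h
  set N := sg * (z + kw.v w r) with hNd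
  have hN0 : 0 ≤ N := by
    obtain ⟨ud, kd, ed⟩ := F.u.d
    have h2 := ppos_sound kd h1
    rw [B.u, sub_zero] at ed
    have h3 : 0 ≤ N * ud := by rw [← ed]; exact D.u
    by_contra h4
    push Not at h4
    have := mul_neg_of_neg_of_pos h4 h2
    linarith
  rcases hN0.eq_or_lt with e0 | hN1
  · have f2 : z = -kw.v w r := by
      have : z - -kw.v w r = N * sg := by rw [hNd]; linear_combination (-(z + kw.v w r)) * hs1
      rw [← e0, zero_mul] at this
      linarith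
    rw [← f2] at B
    exact B.sk D hlev
  have hk12 := S.k12.snd F.u (fun _ => B.u) hW hZ hT hm hr hX
  have hk23 := S.k23.snd F.u (fun _ => B.u) hW hZ hT hm hr hX
  have hk13 := S.k13.snd F.u (fun _ => B.u) hW hZ hT hm hr hX
  obtain ⟨k12d, kk12, ek12⟩ := hk12.d
  obtain ⟨k23d, kk23, ek23⟩ := hk23.d
  obtain ⟨k13d, kk13, ek13⟩ := hk13.d
  obtain ⟨td, ktd, etd⟩ := hT.d
  obtain ⟨nfd, knf, enf⟩ := F.nf.d
  obtain ⟨bsd, kbs, ebs⟩ := F.bs.d
  obtain ⟨dsd, kds, eds⟩ := F.ds.d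
  obtain ⟨gpd, kgp, egp⟩ := F.gp.d
  obtain ⟨v1bd, k1b, e1b⟩ := F.v1b.d
  obtain ⟨v2bd, k2b, e2b⟩ := F.v2b.d
  rw [B.ds, sub_zero] at eds
  rw [B.gp, sub_zero] at egp
  have ek12' : R.K12 w z m r - R.K12 w (-kw.v w r) m r = N * k12d := ek12
  have ek23' : R.K23 w z m r - R.K23 w (-kw.v w r) m r = N * k23d := ek23
  have ek13' : R.K13 w z m r - R.K13 w (-kw.v w r) m r = N * k13d := ek13
  have ez : z - -kw.v w r = N * sg := by rw [hNd]; linear_combination (-(z + kw.v w r)) * hs1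
  set zb := -kw.v w r with hzb
  have gmw : ∀ a b : ℝ, R.GM a b m r = (a + b) * R.K23 a b m r - b * R.K13 a b m r := by
    intro a b
    unfold RowF.GM
    rw [hgm, gm2_val]
  have egm : R.GM w z m r - R.GM w zb m r = N * (td * R.K23 w zb m r + (w + z) * k23d -
      sg * R.K13 w zb m r - z * k13d) := by
    rw [gmw, gmw]
    linear_combination (w + z) * ek23' - z * ek13' + R.K23 w zb m r * etd - R.K13 w zb m r * ez
  have gpw : ∀ a b : ℝ, R.GP a b m r = R.NF a b m r + r * R.GM a b m r := fun a b => by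
    unfold RowF.GP; rw [gpf_val]
  have dlw : ∀ a b : ℝ, R.DL a b m r = R.K13 a b m r - R.K12 a b m r - R.K23 a b m r :=
    fun a b => by unfold RowF.DL; rw [dln_val]
  have bnw : ∀ a b : ℝ, R.BN a b m r = R.NF a b m r * m * G.q1 (m * r) + R.BS a b m r -
      G.eh (m * r) * R.GM a b m r := fun a b => by unfold RowF.BN; rw [bnf_val]
  have g0 : R.NF w zb m r + r * R.GM w zb m r = 0 := by rw [← gpw]; exact B.gp
  have d0 : R.K13 w zb m r - R.K12 w zb m r - R.K23 w zb m r = 0 := by rw [← dlw]; exact B.d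
  have egp' : gpd = nfd + r * (td * R.K23 w zb m r + (w + z) * k23d -
      sg * R.K13 w zb m r - z * k13d) := by
    refine mul_left_cancel₀ hN1.ne' ?_
    rw [← egp, gpw]
    linear_combination enf + r * egm + g0
  have ed' : dsd = (k13d - k12d - k23d) * (1 - r * R.L w z) := by
    refine mul_left_cancel₀ hN1.ne' ?_
    rw [← eds]
    unfold RowF.DS
    rw [dsf_val, shf_val, dlw]
    linear_combination (1 - r * R.L w z) * (ek13' - ek12' - ek23' + d0)
  obtain ⟨r0, r1⟩ := linB_sound hX hr hm F.l.l F.a.l F.b.l kds kgp knf kbs hT.l ktd hz hs hk23.r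
    hk13.r kk12 kk23 kk13 k1b k2b D.r0 D.m0 D.x1 D.l0.le D.a0 egp' ed' h
  refine B.of_res D hN1 (nud := 0) (v1ad := 0) (v2ad := 0) (nfd := nfd)
    (fo := R.FO w z m r / N) (by rw [um.nu, um'.nu]; ring) enf ebs eds egp (bnd := nfd *
      (m * G.q1 (m * r)) + bsd - G.eh (m * r) * (td * R.K23 w zb m r + (w + z) * k23d -
      sg * R.K13 w zb m r - z * k13d)) ?_
    (by rw [um.v1, um'.v1]; ring) e1b (by rw [um.v2, um'.v2]; ring) e2b ?_
    (le_of_eq (mul_div_cancel₀ _ hN1.ne')) hlev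
  · rw [bnw, bnw]
    linear_combination m * G.q1 (m * r) * enf + ebs - G.eh (m * r) * egm
  · simp only [zero_div, zero_add]
    exact Or.inl (Or.inr ⟨r0, r1⟩)

end

end Pool.Agent.Strip051.LC.E1.Ch
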