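import Pool.Agent.Strip051.LC.E1.Ch.Good

/-! # Rests near the full period: from the trees to the charts -/

set_option linter.unusedVariables false

namespace Pool.Agent.Strip051.LC.E1.Ch

open Pool.Agent.Strip051.PB
open Pool.Agent.Strip051.LC.E0.Ch (onCell Tree)

/-- The coordinate function `pol` gives `(w, z)`. -/
def Cov (pol : (ℕ → ℕ → ℕ → ℕ → Bool) → ℕ → ℕ → Bool) (N p w z : ℝ) : Prop :=
  ∀ {E : Pt} {f : ℕ → ℕ → ℕ → ℕ → Bool} {A B : ℕ}, Enc E A N → Enc E B p →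
    pol f A B = true → PolS f E N w z

/-- The coordinates of a point. -/
def Crd (pol : (ℕ → ℕ → ℕ → ℕ → Bool) → ℕ → ℕ → Bool) (r lam w z : ℝ) : Prop :=
  ∃ N p : ℝ, 0 < N ∧ 0 ≤ p ∧ p ≤ 1 ∧ Cov pol N p w z ∧
    ((lam = 1 ∧ N ≤ 5 / 2 ∧ r ≤ 1 / 40) ∨ (N = 1 ∧ lam ≤ 2 / 5 ∧ r ≤ 1 / 16))

section

variable {r lam w z : ℝ}

theorem dom_crd {P : Pat} (D : Dom P r lam w z) : ((lam = 1 ∧ P.len w z ≤ 5 / 2 ∧ r ≤ 1 / 40) ∨
    (P.len w z = 1 ∧ lam ≤ 2 / 5 ∧ r ≤ 1 / 16)) := by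
  have h1 := D.e
  have h2 := D.s
  rcases D.n with ⟨e, h⟩ | ⟨e, h⟩
  · rw [e] at h1
    exact Or.inl ⟨e, h, by linarith⟩
  · rw [e] at h2
    exact Or.inr ⟨e, h, by linarith⟩

theorem le5 {P : Pat} (D : Dom P r lam w z) (e : lam = 1) {y : ℝ} (h : y ≤ P.len w z) :
    y ≤ 5 / 2 * lam := by
  rcases D.n with ⟨_, h1⟩ | ⟨_, h1⟩ <;> rw [e] at *
  · linarith
  · linarith

theorem crd_pp (D : Dom .pp r lam w z) : Crd polpp r lam w z := by
  have hN : 0 < w + z := D.l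
  obtain ⟨h1, h2⟩ : 0 ≤ w ∧ 0 ≤ z := D.ok
  refine ⟨w + z, z / (w + z), hN, div_nonneg h2 hN.le, (div_le_one hN).2 (by linarith), ?_,
    dom_crd D⟩
  intro E f A B hA hB h
  have e1 : (w + z) * (z / (w + z)) = z := mul_div_cancel₀ _ hN.ne'
  have := polpp_sound hA hB h
  rw [mul_sub, e1, mul_one, add_sub_cancel_right] at this
  exact this

theorem crd_pnp (D : Dom .pnp r lam w z) : Crd polpnp r lam w z := by
  have hN : 0 < w := D.l
  obtain ⟨h1, h2, h3⟩ : 0 ≤ w ∧ z ≤ 0 ∧ 0 ≤ w + z := D.ok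
  refine ⟨w, -z / w, hN, div_nonneg (by linarith) hN.le, (div_le_one hN).2 (by linarith), ?_,
    dom_crd D⟩
  intro E f A B hA hB h
  have e1 : w * (-z / w) = -z := mul_div_cancel₀ _ hN.ne'
  have := polpnp_sound hA hB h
  rw [e1, neg_neg] at this
  exact this

theorem crd_pnn (D : Dom .pnn r lam w z) : Crd polpnn r lam w z := by
  have hN : 0 < -z := D.l
  obtain ⟨h1, h2, h3⟩ : 0 ≤ w ∧ z ≤ 0 ∧ w + z ≤ 0 := D.ok
  refine ⟨-z, w / -z, hN, div_nonneg h1 hN.le, (div_le_one hN).2 (by linarith), ?_, dom_crd D⟩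
  intro E f A B hA hB h
  have e1 : -z * (w / -z) = w := mul_div_cancel₀ _ hN.ne'
  have := polpnn_sound hA hB h
  rw [e1, neg_neg] at this
  exact this

/-- What a leaf has to give. -/
def Leaf (f : ℕ → ℕ → ℕ → ℕ → ℕ → ℕ → ℕ → Bool) (r lam w z : ℝ) (C : Prop) : Prop :=
  ∀ {E : Pt} {h W Wd Z Zd M Q : ℕ} {N wd zd : ℝ}, Enc E W w → Enc E Wd wd → Enc E Z z →
    Enc E Zd zd → Enc E M lam → Enc E Q r → w = N * wd → z = N * zd → 0 < N →
    f h W Wd Z Zd M Q = true → C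

/-- The two trees decide a row. -/
theorem charts {pol : (ℕ → ℕ → ℕ → ℕ → Bool) → ℕ → ℕ → Bool}
    {f1 f2 : ℕ → ℕ → ℕ → ℕ → ℕ → ℕ → ℕ → Bool} {C : Prop}
    (t1 : Tree 0 2684354560 0 1073741824 0 26843546 (ch1 pol f1))
    (t2 : Tree 0 1073741824 0 429496730 0 67108864 (ch2 pol f2))
    (hd : Crd pol r lam w z) (r0 : 0 < r) (l0 : 0 < lam)
    (l1 : lam = 1 → r ≤ 1 / 40 → Leaf f1 r lam w z C) (l2 : Leaf f2 r lam w z C) : C := by
  obtain ⟨N, p, hN, hp0, hp1, hc, ⟨e, hN1, hr⟩ | ⟨e, hl, hr⟩⟩ := hd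
  · refine t1.sound (Q := fun N' p' r' => N' = N → p' = p → r' = r → C) ?_ (p := N) (q := p)
      (x := r) ?_ ?_ ?_ ?_ ?_ ?_ rfl rfl rfl
    · rintro E h A B Q N' p' r' hA hB hQ hh rfl rfl rfl
      unfold ch1 at hh
      rw [frc_eq] at hh
      obtain ⟨W, Wd, Z, Zd, wd, zd, k1, k2, k3, k4, k5, k6, k7⟩ := hc hA hB hh
      refine l1 e hr k1 k2 k3 k4 ?_ hQ k5 k6 hN k7
      rw [e]
      exact enc_one E
    all_goals (unfold S; push_cast; linarith)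
  · refine t2.sound (Q := fun p' l' r' => p' = p → l' = lam → r' = r → C) ?_ (p := p) (q := lam)
      (x := r) ?_ ?_ ?_ ?_ ?_ ?_ rfl rfl rfl
    · rintro E h A B Q N' p' r' hA hB hQ hh rfl rfl rfl
      unfold ch2 at hh
      rw [frc_eq] at hh
      have h1 : Enc E pone N := by rw [e]; exact enc_one E
      obtain ⟨W, Wd, Z, Zd, wd, zd, k1, k2, k3, k4, k5, k6, k7⟩ := hc h1 hA hh
      exact l2 k1 k2 k3 k4 hB hQ k5 k6 hN k7
    all_goals (unfold S; push_cast; linarith)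

end

end Pool.Agent.Strip051.LC.E1.Ch
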