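import Pool.Agent.Strip051.LC.E1.Ch.Line
import Pool.Agent.Strip051.LC.E0.Ch.Cell

/-! # Rests near the full period: the leaves of a row -/

set_option linter.unusedVariables false

namespace Pool.Agent.Strip051.LC.E1.Ch

open Pool.Agent.Strip051.PB

attribute [local irreducible] padd psub pneg pmul psq pinv psqrt psqrtg pabs pps pmax pmin pphi plam
  pcase phf pnat prat pscale pnorm pdc pnc pone ppos pnn Enc

/-- The row `R` decides `C`. -/
def Good (R : RowF) (w z m r : ℝ) (C : Prop) : Prop :=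
  ∃ lev, Dm R w z m r ∧ R.Lv w z m r lev ∧ (R.Sk w z m r lev → C)

theorem Good.of_sk {R : RowF} {w z m r : ℝ} {C : Prop} (g : Good R w z m r C)
    (h : ∀ lev, Dm R w z m r → R.Lv w z m r lev → R.Sk w z m r lev) : C := by
  obtain ⟨lev, D, hl, hS⟩ := g
  exact hS (h lev D hl)

theorem Good.of_ex {R : RowF} {w z m r : ℝ} {C : Prop} (g : Good R w z m r C)
    (h : Dm R w z m r → False) : C := by
  obtain ⟨lev, D, hl, hS⟩ := g
  exact (h D).elim

/-! ### The code of a leaf -/

/-- the tests of the kinds 0 - 3, 4 - 7, 8 - 11, 12 - 14, 15, 16 -/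
noncomputable def body (fd fs fc fl fe fn : ℕ → ℕ → ℕ → Bool) (h : ℕ) : Bool :=
  frc (Nat.mod h 32) fun k => frc (Nat.div h 32) fun t =>
    Bool.rec (motive := fun _ => Bool)
      (Bool.rec (motive := fun _ => Bool)
        (Bool.rec (motive := fun _ => Bool)
          (Bool.rec (motive := fun _ => Bool)
            (Bool.rec (motive := fun _ => Bool)
              (frc (Nat.mod t 256) fun a => frc (Nat.div t 256) fun b => fn 0 a b)
              (fe 0 0 t) (Nat.ble k 15))
            (frc (Nat.sub k 12) fun j => fl 0 j 0) (Nat.ble k 14))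
          (frc (Nat.div t 4) fun c => frc (Nat.sub k 8) fun j => frc (Nat.mod t 4) fun s =>
            fc c j s) (Nat.ble k 11))
        (frc (Nat.div t 4) fun c => frc (Nat.sub k 4) fun j => frc (Nat.mod t 4) fun s =>
          fs c j s) (Nat.ble k 7))
      (frc (Nat.div t 4) fun c => frc (Nat.mod t 4) fun s => fd c k s) (Nat.ble k 3)

theorem body_sound {fd fs fc fl fe fn : ℕ → ℕ → ℕ → Bool} {h : ℕ} {C : Prop}
    (hd : ∀ c k s, fd c k s = true → C) (hs : ∀ c k s, fs c k s = true → C)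
    (hc : ∀ c k s, fc c k s = true → C) (hl : ∀ c k s, fl c k s = true → C)
    (he : ∀ c k s, fe c k s = true → C) (hn : ∀ c k s, fn c k s = true → C)
    (h0 : body fd fs fc fl fe fn h = true) : C := by
  unfold body at h0
  simp only [frc_eq] at h0
  rcases e0 : Nat.ble (Nat.mod h 32) 3 with _ | _ <;> rw [e0] at h0
  · rcases e1 : Nat.ble (Nat.mod h 32) 7 with _ | _ <;> rw [e1] at h0
    · rcases e2 : Nat.ble (Nat.mod h 32) 11 with _ | _ <;> rw [e2] at h0
      · rcases e3 : Nat.ble (Nat.mod h 32) 14 with _ | _ <;> rw [e3] at h0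
        · rcases e4 : Nat.ble (Nat.mod h 32) 15 with _ | _ <;> rw [e4] at h0
          · exact hn _ _ _ h0
          · exact he _ _ _ h0
        · exact hl _ _ _ h0
      · exact hc _ _ _ h0
    · exact hs _ _ _ h0
  · exact hd _ _ _ h0

/-- nothing -/
noncomputable def noF (_ _ _ : ℕ) : Bool := false

theorem noF_sound {C : Prop} : ∀ c k s, noF c k s = true → C :=
  fun _ _ _ h => absurd h Bool.false_ne_true

/-- the exits: `s = 0` by `u`, `s = 2` at the lattice point, `s = 1` by the other side -/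
noncomputable def exits (e0 e1 e2 : Bool) (_ _ s : ℕ) : Bool :=
  Bool.rec (motive := fun _ => Bool) (Bool.rec (motive := fun _ => Bool) e1 e2 (Nat.beq s 2)) e0
    (Nat.beq s 0)

theorem exits_sound {e0 e1 e2 : Bool} {C : Prop} (h0 : e0 = true → C) (h1 : e1 = true → C)
    (h2 : e2 = true → C) : ∀ c k s, exits e0 e1 e2 c k s = true → C := by
  intro c k s h
  unfold exits at h
  rcases e : Nat.beq s 0 with _ | _ <;> rw [e] at h
  · rcases e' : Nat.beq s 2 with _ | _ <;> rw [e'] at h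
    · exact h1 h
    · exact h2 h
  · exact h0 h

/-! ### Coordinates -/

/-- `w = N (1 - p)`, `z = N p` -/
noncomputable def polpp (f : ℕ → ℕ → ℕ → ℕ → Bool) (A B : ℕ) : Bool :=
  frc (psub pone B) fun O => frc (pnorm (pmul A O)) fun W => frc (pnorm (pmul A B)) fun Z =>
    f W O Z B

/-- `w = N`, `z = - N p` -/
noncomputable def polpnp (f : ℕ → ℕ → ℕ → ℕ → Bool) (A B : ℕ) : Bool :=
  frc (pnorm (pneg (pmul A B))) fun Z => frc (pneg B) fun B' => f A pone Z B'

/-- `w = N p`, `z = - N` -/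
noncomputable def polpnn (f : ℕ → ℕ → ℕ → ℕ → Bool) (A B : ℕ) : Bool :=
  frc (pnorm (pmul A B)) fun W => frc (pneg A) fun Z => f W B Z (pneg pone)

/-- What a coordinate function gives. -/
def PolS (f : ℕ → ℕ → ℕ → ℕ → Bool) (E : Pt) (N w z : ℝ) : Prop :=
  ∃ W Wd Z Zd : ℕ, ∃ wd zd : ℝ, Enc E W w ∧ Enc E Wd wd ∧ Enc E Z z ∧ Enc E Zd zd ∧
    w = N * wd ∧ z = N * zd ∧ f W Wd Z Zd = true

section

variable {E : Pt} {f : ℕ → ℕ → ℕ → ℕ → Bool} {A B : ℕ} {N p : ℝ}

theorem polpp_sound (hA : Enc E A N) (hB : Enc E B p) (h : polpp f A B = true) :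
    PolS f E N (N * (1 - p)) (N * p) := by
  unfold polpp at h
  simp only [frc_eq] at h
  have h1 := enc_sub (enc_one E) hB
  exact ⟨_, _, _, _, 1 - p, p, enc_norm (enc_mul hA h1), h1, enc_norm (enc_mul hA hB), hB, rfl, rfl, h⟩

theorem polpnp_sound (hA : Enc E A N) (hB : Enc E B p) (h : polpnp f A B = true) :
    PolS f E N N (-(N * p)) := by
  unfold polpnp at h
  simp only [frc_eq] at h
  exact ⟨_, _, _, _, 1, -p, hA, enc_one E, enc_norm (enc_neg (enc_mul hA hB)), enc_neg hB,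
    by ring, by ring, h⟩

theorem polpnn_sound (hA : Enc E A N) (hB : Enc E B p) (h : polpnn f A B = true) :
    PolS f E N (N * p) (-N) := by
  unfold polpnn at h
  simp only [frc_eq] at h
  exact ⟨_, _, _, _, p, -1, enc_norm (enc_mul hA hB), hB, enc_neg hA, enc_neg (enc_one E),
    by ring, by ring, h⟩

end

/-- the charts: `lam = 1` -/
noncomputable def ch1 (pol : (ℕ → ℕ → ℕ → ℕ → Bool) → ℕ → ℕ → Bool)
    (f : ℕ → ℕ → ℕ → ℕ → ℕ → ℕ → ℕ → Bool) (h A B C : ℕ) : Bool :=
  frc pone fun M => pol (fun W Wd Z Zd => f h W Wd Z Zd M C) A B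

/-- the charts: the largest coordinate is `1` -/
noncomputable def ch2 (pol : (ℕ → ℕ → ℕ → ℕ → Bool) → ℕ → ℕ → Bool)
    (f : ℕ → ℕ → ℕ → ℕ → ℕ → ℕ → ℕ → Bool) (h A B C : ℕ) : Bool :=
  frc pone fun M => pol (fun W Wd Z Zd => f h W Wd Z Zd B C) M A

end Pool.Agent.Strip051.LC.E1.Ch
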