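import Pool.Agent.Strip051.LC.E1.Ch.Bk

/-! # Rests near the full period: a sign at the base points -/

set_option linter.unusedVariables false
set_option linter.unusedSimpArgs false

namespace Pool.Agent.Strip051.LC.E1.Ch

open Pool.Agent.Strip051.PB
open Pool.Agent.Strip051.LC.E1.G (hg)
open Pool.Agent.Strip051.LC.E1.BaseR

theorem LAM_nn {e : ℝ} (h0 : 0 ≤ e) (h1 : e ≤ 1) : 0 ≤ G.LAM e := by
  have : G.gs e ≤ 1 := by
    unfold G.gs
    rw [Real.sqrt_le_iff]
    constructor
    · norm_num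
    · nlinarith [sq_nonneg (1 - e)]
  unfold G.LAM
  linarith

theorem mu_nn (e : ℝ) : 0 ≤ G.mu e := by
  unfold G.mu
  have : 0 ≤ G.gs e := Real.sqrt_nonneg _
  positivity

section

variable {r w m : ℝ} (hr : 0 < r) (hm : 0 < m) (x1 : m * r ≤ 1 / 40) (hw : 0 ≤ w)
  (hrw : r * w ≤ 1 / 16)

include hr hw hrw

theorem rom_le : r * E0.G.om w r ≤ w := by
  have h1 := om_mul hr hw hrw
  have h2 := qw_ge hr hw hrw
  have h3 := om_nn hr hw hrw
  have h4 : E0.G.om w r ≤ w ^ 2 := by nlinarith [sq_nonneg w]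
  have h5 : r * E0.G.om w r ≤ r * w ^ 2 := mul_le_mul_of_nonneg_left h4 hr.le
  nlinarith

include hm x1

theorem phi_nn : 0 ≤ (E0.G.qw w r - r * w / 2) * G.aL (m * r) r m w +
    r * w * G.bL (m * r) r m w := by
  have h' := hrw
  have x0 : 0 < m * r := mul_pos hm hr
  obtain ⟨a, b, S, ea, eb, hS, ha, hb⟩ : ∃ a b S : ℝ, G.aL (m * r) r m w = a * S ∧
      G.bL (m * r) r m w = b * S ∧ 0 ≤ S ∧ 3 / 10 ≤ a ∧ -1 ≤ b := by
    refine ⟨(85937 / 100000) + (-(10723 / 500)) * (m * r), (2661 / 12500) + (-(8863 / 1000)) * (m *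
      r),
      (Real.sqrt 3 / 2 * hg (w - 167 / 50 * m) / (1 / 2 - 167 / 50 * (Real.sqrt 3 / 2) * (m * r)))
        ^ 2,
      ?_, ?_, sq_nonneg _, ?_, ?_⟩
    · unfold G.aL
      rw [hgz (a := 29) (b := 400) hr (by norm_num) ((rT_le (by norm_num) h').trans (by norm_num)),
    hgz (a := 9) (b := 100) hr (by norm_num) ((rT_le (by norm_num) h').trans (by norm_num)),
    hgz (a := 3) (b := 25) hr (by norm_num) ((rT_le (by norm_num) h').trans (by norm_num))]
      ring
    · unfold G.bL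
      rw [hgz (a := 29) (b := 400) hr (by norm_num) ((rT_le (by norm_num) h').trans (by norm_num)),
    hgz (a := 9) (b := 100) hr (by norm_num) ((rT_le (by norm_num) h').trans (by norm_num)),
    hgz (a := 3) (b := 25) hr (by norm_num) ((rT_le (by norm_num) h').trans (by norm_num))]
      ring
    · linarith
    · linarith
  rw [ea, eb]
  have h2 := qw_ge hr hw hrw
  have h3 : 0 ≤ r * w := mul_nonneg hr.le hw
  have h4 : 0 ≤ (E0.G.qw w r - r * w / 2) * a + r * w * b := by nlinarith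
  have : (E0.G.qw w r - r * w / 2) * (a * S) + r * w * (b * S) =
      ((E0.G.qw w r - r * w / 2) * a + r * w * b) * S := by ring
  rw [this]
  exact mul_nonneg h4 hS

theorem phi_c : 0 ≤ G.mu (m * r) * G.LAM (m * r) / 2 *
    ((E0.G.qw w r - r * w / 2) * G.aL (m * r) r m w + r * w * G.bL (m * r) r m w) := by
  have x0 : 0 < m * r := mul_pos hm hr
  have h1 := LAM_nn x0.le (by linarith : m * r ≤ 1)
  have h2 := mu_nn (m * r)
  have h3 := phi_nn hr hm x1 hw hrw
  positivity

end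

end Pool.Agent.Strip051.LC.E1.Ch
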