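import Pool.Agent.Strip051.LC.E0.Ch.Pr

/-! # Rests near the full period: more slope structures -/

namespace Pool.Agent.Strip051.PB

/-- slopes; the kinds of the arguments are `vcc` -/
structure Sl_vcc (F : Fn3) where
  s : ℕ → ℕ → ℕ → ℕ → ℕ → ℕ
  snd : ∀ {E : Pt} {N : ℝ} {A1 B1 D1 C2 C3 : ℕ} {a1 b1 c2 c3 : ℝ}, Pr E N A1 B1 D1 a1 b1 → Enc E C2 c2 → Enc E C3 c3 →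
    Pr E N (F.t A1 C2 C3) (F.t B1 C2 C3) (s A1 B1 D1 C2 C3) (F.v a1 c2 c3) (F.v b1 c2 c3)

/-- slopes; the kinds of the arguments are `vccc` -/
structure Sl_vccc (F : Fn4) where
  s : ℕ → ℕ → ℕ → ℕ → ℕ → ℕ → ℕ
  snd : ∀ {E : Pt} {N : ℝ} {A1 B1 D1 C2 C3 C4 : ℕ} {a1 b1 c2 c3 c4 : ℝ}, Pr E N A1 B1 D1 a1 b1 → Enc E C2 c2 → Enc E C3 c3 → Enc E C4 c4 →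
    Pr E N (F.t A1 C2 C3 C4) (F.t B1 C2 C3 C4) (s A1 B1 D1 C2 C3 C4) (F.v a1 c2 c3 c4) (F.v b1 c2 c3 c4)

/-- slopes; the kinds of the arguments are `vvcc` -/
structure Sl_vvcc (F : Fn4) where
  s : ℕ → ℕ → ℕ → ℕ → ℕ → ℕ → ℕ → ℕ → ℕ
  snd : ∀ {E : Pt} {N : ℝ} {A1 B1 D1 A2 B2 D2 C3 C4 : ℕ} {a1 b1 a2 b2 c3 c4 : ℝ}, Pr E N A1 B1 D1 a1 b1 → Pr E N A2 B2 D2 a2 b2 → Enc E C3 c3 → Enc E C4 c4 →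
    Pr E N (F.t A1 A2 C3 C4) (F.t B1 B2 C3 C4) (s A1 B1 D1 A2 B2 D2 C3 C4) (F.v a1 a2 c3 c4) (F.v b1 b2 c3 c4)

/-- slopes; the kinds of the arguments are `ccvvv` -/
structure Sl_ccvvv (F : Fn5) where
  s : ℕ → ℕ → ℕ → ℕ → ℕ → ℕ → ℕ → ℕ → ℕ → ℕ → ℕ → ℕ
  snd : ∀ {E : Pt} {N : ℝ} {C1 C2 A3 B3 D3 A4 B4 D4 A5 B5 D5 : ℕ} {c1 c2 a3 b3 a4 b4 a5 b5 : ℝ}, Enc E C1 c1 → Enc E C2 c2 → Pr E N A3 B3 D3 a3 b3 → Pr E N A4 B4 D4 a4 b4 → Pr E N A5 B5 D5 a5 b5 →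
    Pr E N (F.t C1 C2 A3 A4 A5) (F.t C1 C2 B3 B4 B5) (s C1 C2 A3 B3 D3 A4 B4 D4 A5 B5 D5) (F.v c1 c2 a3 a4 a5) (F.v c1 c2 b3 b4 b5)

/-- slopes; the kinds of the arguments are `vvccc` -/
structure Sl_vvccc (F : Fn5) where
  s : ℕ → ℕ → ℕ → ℕ → ℕ → ℕ → ℕ → ℕ → ℕ → ℕ
  snd : ∀ {E : Pt} {N : ℝ} {A1 B1 D1 A2 B2 D2 C3 C4 C5 : ℕ} {a1 b1 a2 b2 c3 c4 c5 : ℝ}, Pr E N A1 B1 D1 a1 b1 → Pr E N A2 B2 D2 a2 b2 → Enc E C3 c3 → Enc E C4 c4 → Enc E C5 c5 →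
    Pr E N (F.t A1 A2 C3 C4 C5) (F.t B1 B2 C3 C4 C5) (s A1 B1 D1 A2 B2 D2 C3 C4 C5) (F.v a1 a2 c3 c4 c5) (F.v b1 b2 c3 c4 c5)

/-- slopes; the kinds of the arguments are `zvccc` -/
structure Sl_zvccc (F : Fn5) where
  s : ℕ → ℕ → ℕ → ℕ → ℕ → ℕ → ℕ → ℕ → ℕ → ℕ
  snd : ∀ {E : Pt} {N : ℝ} {A1 B1 D1 A2 B2 D2 C3 C4 C5 : ℕ} {a1 b1 a2 b2 c3 c4 c5 : ℝ}, Pr E N A1 B1 D1 a1 b1 → b1 = 0 → Pr E N A2 B2 D2 a2 b2 → Enc E C3 c3 → Enc E C4 c4 → Enc E C5 c5 →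
    Pr E N (F.t A1 A2 C3 C4 C5) (F.t B1 B2 C3 C4 C5) (s A1 B1 D1 A2 B2 D2 C3 C4 C5) (F.v a1 a2 c3 c4 c5) (F.v b1 b2 c3 c4 c5)

/-- slopes; the kinds of the arguments are `vvvccc` -/
structure Sl_vvvccc (F : Fn6) where
  s : ℕ → ℕ → ℕ → ℕ → ℕ → ℕ → ℕ → ℕ → ℕ → ℕ → ℕ → ℕ → ℕ
  snd : ∀ {E : Pt} {N : ℝ} {A1 B1 D1 A2 B2 D2 A3 B3 D3 C4 C5 C6 : ℕ} {a1 b1 a2 b2 a3 b3 c4 c5 c6 : ℝ}, Pr E N A1 B1 D1 a1 b1 → Pr E N A2 B2 D2 a2 b2 → Pr E N A3 B3 D3 a3 b3 → Enc E C4 c4 → Enc E C5 c5 → Enc E C6 c6 →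
    Pr E N (F.t A1 A2 A3 C4 C5 C6) (F.t B1 B2 B3 C4 C5 C6) (s A1 B1 D1 A2 B2 D2 A3 B3 D3 C4 C5 C6) (F.v a1 a2 a3 c4 c5 c6) (F.v b1 b2 b3 c4 c5 c6)

/-- slopes; the kinds of the arguments are `vvvvvv` -/
structure Sl_vvvvvv (F : Fn6) where
  s : ℕ → ℕ → ℕ → ℕ → ℕ → ℕ → ℕ → ℕ → ℕ → ℕ → ℕ → ℕ → ℕ → ℕ → ℕ → ℕ → ℕ → ℕ → ℕ
  snd : ∀ {E : Pt} {N : ℝ} {A1 B1 D1 A2 B2 D2 A3 B3 D3 A4 B4 D4 A5 B5 D5 A6 B6 D6 : ℕ} {a1 b1 a2 b2 a3 b3 a4 b4 a5 b5 a6 b6 : ℝ}, Pr E N A1 B1 D1 a1 b1 → Pr E N A2 B2 D2 a2 b2 → Pr E N A3 B3 D3 a3 b3 → Pr E N A4 B4 D4 a4 b4 → Pr E N A5 B5 D5 a5 b5 → Pr E N A6 B6 D6 a6 b6 →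
    Pr E N (F.t A1 A2 A3 A4 A5 A6) (F.t B1 B2 B3 B4 B5 B6) (s A1 B1 D1 A2 B2 D2 A3 B3 D3 A4 B4 D4 A5 B5 D5 A6 B6 D6) (F.v a1 a2 a3 a4 a5 a6) (F.v b1 b2 b3 b4 b5 b6)

/-- slopes; the kinds of the arguments are `vvvvccc` -/
structure Sl_vvvvccc (F : Fn7) where
  s : ℕ → ℕ → ℕ → ℕ → ℕ → ℕ → ℕ → ℕ → ℕ → ℕ → ℕ → ℕ → ℕ → ℕ → ℕ → ℕ
  snd : ∀ {E : Pt} {N : ℝ} {A1 B1 D1 A2 B2 D2 A3 B3 D3 A4 B4 D4 C5 C6 C7 : ℕ} {a1 b1 a2 b2 a3 b3 a4 b4 c5 c6 c7 : ℝ}, Pr E N A1 B1 D1 a1 b1 → Pr E N A2 B2 D2 a2 b2 → Pr E N A3 B3 D3 a3 b3 → Pr E N A4 B4 D4 a4 b4 → Enc E C5 c5 → Enc E C6 c6 → Enc E C7 c7 →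
    Pr E N (F.t A1 A2 A3 A4 C5 C6 C7) (F.t B1 B2 B3 B4 C5 C6 C7) (s A1 B1 D1 A2 B2 D2 A3 B3 D3 A4 B4 D4 C5 C6 C7) (F.v a1 a2 a3 a4 c5 c6 c7) (F.v b1 b2 b3 b4 c5 c6 c7)

/-- slopes; the kinds of the arguments are `zvvvccc` -/
structure Sl_zvvvccc (F : Fn7) where
  s : ℕ → ℕ → ℕ → ℕ → ℕ → ℕ → ℕ → ℕ → ℕ → ℕ → ℕ → ℕ → ℕ → ℕ → ℕ → ℕ
  snd : ∀ {E : Pt} {N : ℝ} {A1 B1 D1 A2 B2 D2 A3 B3 D3 A4 B4 D4 C5 C6 C7 : ℕ} {a1 b1 a2 b2 a3 b3 a4 b4 c5 c6 c7 : ℝ}, Pr E N A1 B1 D1 a1 b1 → b1 = 0 → Pr E N A2 B2 D2 a2 b2 → Pr E N A3 B3 D3 a3 b3 → Pr E N A4 B4 D4 a4 b4 → Enc E C5 c5 → Enc E C6 c6 → Enc E C7 c7 →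
    Pr E N (F.t A1 A2 A3 A4 C5 C6 C7) (F.t B1 B2 B3 B4 C5 C6 C7) (s A1 B1 D1 A2 B2 D2 A3 B3 D3 A4 B4 D4 C5 C6 C7) (F.v a1 a2 a3 a4 c5 c6 c7) (F.v b1 b2 b3 b4 c5 c6 c7)

/-- slopes; the kinds of the arguments are `vvvccvvv` -/
structure Sl_vvvccvvv (F : Fn8) where
  s : ℕ → ℕ → ℕ → ℕ → ℕ → ℕ → ℕ → ℕ → ℕ → ℕ → ℕ → ℕ → ℕ → ℕ → ℕ → ℕ → ℕ → ℕ → ℕ → ℕ → ℕ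
  snd : ∀ {E : Pt} {N : ℝ} {A1 B1 D1 A2 B2 D2 A3 B3 D3 C4 C5 A6 B6 D6 A7 B7 D7 A8 B8 D8 : ℕ} {a1 b1 a2 b2 a3 b3 c4 c5 a6 b6 a7 b7 a8 b8 : ℝ}, Pr E N A1 B1 D1 a1 b1 → Pr E N A2 B2 D2 a2 b2 → Pr E N A3 B3 D3 a3 b3 → Enc E C4 c4 → Enc E C5 c5 → Pr E N A6 B6 D6 a6 b6 → Pr E N A7 B7 D7 a7 b7 → Pr E N A8 B8 D8 a8 b8 →
    Pr E N (F.t A1 A2 A3 C4 C5 A6 A7 A8) (F.t B1 B2 B3 C4 C5 B6 B7 B8) (s A1 B1 D1 A2 B2 D2 A3 B3 D3 C4 C5 A6 B6 D6 A7 B7 D7 A8 B8 D8) (F.v a1 a2 a3 c4 c5 a6 a7 a8) (F.v b1 b2 b3 c4 c5 b6 b7 b8)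

/-- slopes; the kinds of the arguments are `cccvvvvvv` -/
structure Sl_cccvvvvvv (F : Fn9) where
  s : ℕ → ℕ → ℕ → ℕ → ℕ → ℕ → ℕ → ℕ → ℕ → ℕ → ℕ → ℕ → ℕ → ℕ → ℕ → ℕ → ℕ → ℕ → ℕ → ℕ → ℕ → ℕ
  snd : ∀ {E : Pt} {N : ℝ} {C1 C2 C3 A4 B4 D4 A5 B5 D5 A6 B6 D6 A7 B7 D7 A8 B8 D8 A9 B9 D9 : ℕ} {c1 c2 c3 a4 b4 a5 b5 a6 b6 a7 b7 a8 b8 a9 b9 : ℝ}, Enc E C1 c1 → Enc E C2 c2 → Enc E C3 c3 → Pr E N A4 B4 D4 a4 b4 → Pr E N A5 B5 D5 a5 b5 → Pr E N A6 B6 D6 a6 b6 → Pr E N A7 B7 D7 a7 b7 → Pr E N A8 B8 D8 a8 b8 → Pr E N A9 B9 D9 a9 b9 →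
    Pr E N (F.t C1 C2 C3 A4 A5 A6 A7 A8 A9) (F.t C1 C2 C3 B4 B5 B6 B7 B8 B9) (s C1 C2 C3 A4 B4 D4 A5 B5 D5 A6 B6 D6 A7 B7 D7 A8 B8 D8 A9 B9 D9) (F.v c1 c2 c3 a4 a5 a6 a7 a8 a9) (F.v c1 c2 c3 b4 b5 b6 b7 b8 b9)

end Pool.Agent.Strip051.PB
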