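import Pool.Agent.Strip051.LC.E1.Ch.Fa
import Pool.Agent.Strip051.LC.E1.Def

/-! # Rests near the full period: the values of the test functions -/

namespace Pool.Agent.Strip051.LC.E1.Ch

open Pool.Agent.Strip051.PB

theorem gs_val (x : ℝ) : gs.v x = G.gs x := by
  unfold gs G.gs
  dsimp only
  push_cast
  congr 1

theorem ig_val (x : ℝ) : ig.v x = G.ig x := by
  unfold ig G.ig
  dsimp only
  rw [gs_val]
  push_cast
  norm_num

theorem eh_val (x : ℝ) : eh.v x = G.eh x := by
  unfold eh G.eh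
  dsimp only
  rw [ig_val]
  push_cast
  ring

theorem qo_val (x : ℝ) : qo.v x = G.q1 x := by
  unfold qo G.q1
  dsimp only
  rw [ig_val, eh_val]
  push_cast
  ring

theorem ix_val (x : ℝ) : ix.v x = (1 - x)⁻¹ := by
  unfold ix
  dsimp only
  push_cast
  rfl

theorem kx_val (x : ℝ) : kx.v x = G.eh x / (1 - x) := by
  unfold kx
  dsimp only
  rw [eh_val, ix_val, div_eq_mul_inv]

theorem et_val (x : ℝ) : et.v x = G.et x := by
  unfold et G.et
  dsimp only
  rw [qo_val, ix_val]
  push_cast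
  rw [div_eq_mul_inv]

theorem dln_val (a b c : ℝ) : dln.v a b c = c - a - b := by simp only [dln]

theorem shf_val (r l : ℝ) : shf.v r l = 1 - r * l := by
  simp only [shf]; push_cast; rfl

theorem dsf_val (a b : ℝ) : dsf.v a b = a * b := by simp only [dsf]

theorem gpf_val (r n m : ℝ) : gpf.v r n m = n + r * m := by simp only [gpf]

theorem bnf_val (x m n bs gam : ℝ) :
    bnf.v x m n bs gam = n * m * G.q1 x + bs - G.eh x * gam := by
  simp only [bnf, qo_val, eh_val]; ring

theorem finf_val (x r m l lf bn ds gp : ℝ) : finf.v x r m l lf bn ds gp =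
    bn - G.eh x / (1 - x) * (ds * (m - l)) -
      G.eh x / (1 - x) * l * (lf * (r * ds * ds)) * (gp + r * ds * lf)⁻¹ := by
  simp only [finf, finf_9, kx_val]

theorem cinf_val (r ln ds gp : ℝ) : cinf.v r ln ds gp = gp - r * (ds * ln) := by
  simp only [cinf]

theorem fcrf_val (x m bn ds : ℝ) : fcrf.v x m bn ds = bn - m * (G.eh x / (1 - x)) * ds := by
  simp only [fcrf, kx_val]

theorem fngf_val (x m bs ds gp : ℝ) :
    fngf.v x m bs ds gp = bs - m * (G.eh x / (1 - x)) * (ds - gp) := by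
  simp only [fngf, kx_val]

theorem couf_val (x m l lf ds gp : ℝ) : couf.v x m l lf ds gp = (l - m) * gp - x * (ds * lf) := by
  simp only [couf]

theorem m2f_val (m l : ℝ) : m2f.v m l = (1 - m * l⁻¹) ^ 2 := by
  simp only [m2f]; push_cast; ring

theorem abf_val (x m l a b ds gp : ℝ) : abf.v x m l a b ds gp =
    m * (G.eh x / (1 - x)) * (a * l⁻¹ * (b * l⁻¹)) * (x * ds ^ 2 * gp⁻¹) := by
  simp only [abf, abf_7, kx_val]

theorem brf_val (x r m l ab n gam ds bs : ℝ) : brf.v x r m l ab n gam ds bs =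
    n * (m * (G.eh x / (1 - x)) - 2 * (G.et x * (m * (m * l⁻¹ * (1 - m * l⁻¹ / 2))))) + bs -
      2 * (m * (G.eh x / (1 - x)) * (gam * ((1 - m * l⁻¹ / 2 - r * l / 2) * l⁻¹) +
        ab * l⁻¹ * (ds * (1 - m * l⁻¹)) / 2)) := by
  simp only [brf, brf_9, brf_10, brf_13, brf_15, kx_val, et_val]; push_cast; ring

theorem lnf_val (x m l bn ds : ℝ) :
    lnf.v x m l bn ds = bn - G.eh x / (1 - x) * (ds * (m - l)) := by
  simp only [lnf, kx_val]

theorem ltf_val (x r l lf ds gp : ℝ) : ltf.v x r l lf ds gp =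
    G.eh x / (1 - x) * l * (r * ds * ds) * (gp + r * ds * lf)⁻¹ := by
  simp only [ltf, ltf_8, kx_val]

theorem lab_val (x m l ot ds gp : ℝ) : lab.v x m l ot ds gp =
    m * (G.eh x / (1 - x)) * (ot * l⁻¹ * l⁻¹) * (x * ds ^ 2 * gp⁻¹) := by
  simp only [lab, lab_8, kx_val]

theorem col_val (r l ds gp : ℝ) : col.v r l ds gp = gp - 9 * (r * ds * l) := by
  simp only [col]; push_cast; ring

theorem gm1_val (w z t a b c : ℝ) : gm1.v w z t a b c = w * b - z * a := by simp only [gm1]

theorem gm2_val (w z t a b c : ℝ) : gm2.v w z t a b c = t * b - z * c := by simp only [gm2]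

theorem gm3_val (w z t a b c : ℝ) : gm3.v w z t a b c = w * c - t * a := by simp only [gm3]

theorem mu_val (x : ℝ) : mu.v x = (2 * G.gs x + 3)⁻¹ := by
  simp only [mu, gs_val]; push_cast; rfl

theorem vf1_val (w z t r x a b c : ℝ) : vf1.v w z t r x a b c = -((a + b - c) / 2) := by
  simp only [vf1]

theorem vf2_val (w z t r x a b c : ℝ) : vf2.v w z t r x a b c = (a + b - c) / 2 := by
  simp only [vf2]

end Pool.Agent.Strip051.LC.E1.Ch
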