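import Pool.Agent.Strip051.LC.E1.Ch.Sa
import Pool.Agent.Strip051.LC.E1.Ch.Va

/-! # Rests near the full period: the tests of a leaf

The slack is `F1 / r + F0`; the number `c` is a lower bound for `1 / r`, and for `c = 0` the number
`I` encloses `1 / r`. -/

set_option linter.unusedVariables false

namespace Pool.Agent.Strip051.LC.E1.Ch

open Pool.Agent.Strip051.PB

attribute [local irreducible] padd psub pneg pmul psq pinv psqrt psqrtg pabs pps pmax pmin pphi plam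
  pcase phf pnat prat pscale pnorm pdc pnc pone ppos pnn Enc

/-! ### Tests of the levels -/

/-- `P / r` from below -/
noncomputable def mulc (c I P : ℕ) : ℕ :=
  Bool.rec (motive := fun _ => ℕ) (pnat c P) (pmul (pnorm P) I) (Nat.beq c 0)

/-- one level -/
noncomputable def lvT (c I F1 F0 VA VB : ℕ) : Bool :=
  frc (padd F1 VA) fun P =>
    Bool.rec (motive := fun _ => Bool)
      (band (pnn P) (pnn (padd (pnat c P) (padd F0 VB))))
      (pnn (padd (pmul (pnorm P) I) (padd F0 VB))) (Nat.beq c 0)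

/-- both levels -/
noncomputable def lv2 (c I F1 F0 V1A V1B V2A V2B : ℕ) : Bool :=
  frc F1 fun F1 => frc F0 fun F0 => band (lvT c I F1 F0 V1A V1B) (lvT c I F1 F0 V2A V2B)

/-- both levels, without a term of first order -/
noncomputable def lv0 (F0 V1B V2B : ℕ) : Bool :=
  frc F0 fun F0 => band (pnn (padd F0 V1B)) (pnn (padd F0 V2B))

/-- both levels, the term `F1` of first order is not negative, the levels have none -/
noncomputable def lv1 (c I F1 F0 V1B V2B : ℕ) : Bool :=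
  frc (padd (mulc c I F1) F0) fun F => band (pnn (padd F V1B)) (pnn (padd F V2B))

/-- Both levels. -/
def P2 (l1 l2 y : ℝ) : Prop := 0 ≤ y + l1 ∧ 0 ≤ y + l2

theorem P2.mono {l1 l2 y y' : ℝ} (h : P2 l1 l2 y) (hy : y ≤ y') : P2 l1 l2 y' :=
  ⟨by have := h.1; linarith, by have := h.2; linarith⟩

/-- What is known about `c`, `I`. -/
structure Rc (E : Pt) (c I : ℕ) (r : ℝ) : Prop where
  r0 : 0 < r
  cr : (c : ℝ) * r ≤ 1
  i : Nat.beq c 0 = true → Enc E I r⁻¹

section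

variable {E : Pt} {c I F1 F0 VA VB V1A V1B V2A V2B : ℕ} {r f1 f0 va vb v1a v1b v2a v2b : ℝ}

theorem Rc.le (h : Rc E c I r) {f : ℝ} (hf : 0 ≤ f) : (c : ℝ) * f ≤ f / r := by
  rw [le_div_iff₀ h.r0]
  nlinarith [h.cr]

theorem lvT_sound (hr : Rc E c I r) (h1 : Enc E F1 f1) (h0 : Enc E F0 f0) (ha : Enc E VA va)
    (hb : Enc E VB vb) (h : lvT c I F1 F0 VA VB = true) : 0 ≤ f1 / r + f0 + (va / r + vb) := by
  unfold lvT at h
  rw [frc_eq] at h
  have hp := enc_add h1 ha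
  rcases e : Nat.beq c 0 with _ | _ <;> rw [e] at h
  · obtain ⟨t1, t2⟩ := band_true h
    have k1 := hr.le (pnn_sound hp t1)
    have k2 := pnn_sound (enc_add (enc_nat c hp) (enc_add h0 hb)) t2
    have k3 : (f1 + va) / r = f1 / r + va / r := add_div _ _ _
    linarith
  · have k2 := pnn_sound (enc_add (enc_mul (enc_norm hp) (hr.i e)) (enc_add h0 hb)) h
    have k3 : (f1 + va) * r⁻¹ = f1 / r + va / r := by rw [← div_eq_mul_inv]; exact add_div _ _ _
    linarith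

theorem lv2_sound (hr : Rc E c I r) (h1 : Enc E F1 f1) (h0 : Enc E F0 f0) (ha : Enc E V1A v1a)
    (hb : Enc E V1B v1b) (hc : Enc E V2A v2a) (hd : Enc E V2B v2b)
    (h : lv2 c I F1 F0 V1A V1B V2A V2B = true) :
    P2 (v1a / r + v1b) (v2a / r + v2b) (f1 / r + f0) := by
  unfold lv2 at h
  simp only [frc_eq] at h
  obtain ⟨t1, t2⟩ := band_true h
  exact ⟨lvT_sound hr h1 h0 ha hb t1, lvT_sound hr h1 h0 hc hd t2⟩

theorem lv0_sound (h0 : Enc E F0 f0) (hb : Enc E V1B v1b) (hd : Enc E V2B v2b)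
    (h : lv0 F0 V1B V2B = true) : P2 v1b v2b f0 := by
  unfold lv0 at h
  rw [frc_eq] at h
  obtain ⟨t1, t2⟩ := band_true h
  exact ⟨pnn_sound (enc_add h0 hb) t1, pnn_sound (enc_add h0 hd) t2⟩

theorem lv1_sound (hr : Rc E c I r) (h1 : Enc E F1 f1) (hf : 0 ≤ f1) (h0 : Enc E F0 f0)
    (hb : Enc E V1B v1b) (hd : Enc E V2B v2b)
    (h : lv1 c I F1 F0 V1B V2B = true) : P2 v1b v2b (f1 / r + f0) := by
  unfold lv1 mulc at h
  rw [frc_eq] at h
  obtain ⟨t1, t2⟩ := band_true h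
  rcases e : Nat.beq c 0 with _ | _ <;> rw [e] at t1 t2
  · have k1 := hr.le hf
    have k2 := pnn_sound (enc_add (enc_add (enc_nat c h1) h0) hb) t1
    have k3 := pnn_sound (enc_add (enc_add (enc_nat c h1) h0) hd) t2
    exact ⟨by linarith, by linarith⟩
  · have hi := enc_mul (enc_norm h1) (hr.i e)
    have k2 := pnn_sound (enc_add (enc_add hi h0) hb) t1
    have k3 := pnn_sound (enc_add (enc_add hi h0) hd) t2
    rw [← div_eq_mul_inv] at k2 k3
    exact ⟨by linarith, by linarith⟩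

end

/-! ### Tests

`lv`, `lg` are the tests of the levels for a slack with the term `nu`, `nu + n` of first order, `lo`
is the test beyond the gap. -/

/-- the test inside the gap for one sign of the defect -/
noncomputable def inS (lv : ℕ → Bool) (X R M L lf ln BN DS GP : ℕ) : Bool :=
  band (lv (finf.t X R M L lf BN DS GP)) (pnn (cinf.t R ln DS GP))

/-- the test beyond the gap for one sign of the defect -/
noncomputable def ouS (X R M L lf ln DS GP : ℕ) : Bool :=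
  band (pnn (couf.t X M L lf DS GP)) (ppos (cinf.t R ln DS GP))

/-- `s = 0`: the defect is not positive, `s = 1`: not negative, else both signs are tested -/
noncomputable def sgS (s DS : ℕ) (n p : Bool) : Bool :=
  Bool.rec (motive := fun _ => Bool) (Bool.rec (motive := fun _ => Bool) (band n p)
    (band (pnn DS) p) (Nat.beq s 1)) (band (pnn (pneg DS)) n) (Nat.beq s 0)

/-- the sign of the second moment is not known: crude and negative second moment together -/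
noncomputable def cmb (lv lg : ℕ → Bool) (X M BN BS DS GP : ℕ) : Bool :=
  band (band (lv (fcrf.t X M BN (pneg DS))) (lv (fcrf.t X M BN DS)))
    (band (lg (fngf.t X M BS (pneg DS) GP)) (lg (fngf.t X M BS DS GP)))

/-- kind `k = 0`: inside the gap, `1`: crude, `2`: beyond, else: negative second moment;
`s = 3`: crude and negative second moment together -/
noncomputable def tst (lv lg : ℕ → Bool) (lo : Bool) (k s X R M L A B BN BS DS GP : ℕ) : Bool :=
  Bool.rec (motive := fun _ => Bool) (Bool.rec (motive := fun _ => Bool)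
    (Bool.rec (motive := fun _ => Bool)
    (Bool.rec (motive := fun _ => Bool)
    (band (sgS s DS (lg (fngf.t X M BS (pneg DS) GP)) (lg (fngf.t X M BS DS GP)))
      (pnn (pneg GP)))
    (band (sgS s DS (ouS X R M L B A (pneg DS) GP) (ouS X R M L A B DS GP)) lo) (Nat.beq k 2))
    (band (sgS s DS (lv (fcrf.t X M BN (pneg DS))) (lv (fcrf.t X M BN DS))) (pnn GP))
      (Nat.beq k 1))
    (sgS s DS (inS lv X R M L B A BN (pneg DS) GP) (inS lv X R M L A B BN DS GP)) (Nat.beq k 0))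
    (cmb lv lg X M BN BS DS GP) (Nat.beq s 3)

/-! ### What the tests give -/

def InR (x r m l lf ln nr bn ds gp l1 l2 : ℝ) : Prop :=
  P2 l1 l2 (nr + finf.v x r m l lf bn ds gp) ∧ 0 ≤ cinf.v r ln ds gp

def CrR (x m nr bn ds l1 l2 : ℝ) : Prop := P2 l1 l2 (nr + fcrf.v x m bn ds)

def OuR (x r m l lf ln ds gp : ℝ) : Prop := 0 ≤ couf.v x m l lf ds gp ∧ 0 < cinf.v r ln ds gp

def NgR (x m nnr bs ds gp l1 l2 : ℝ) : Prop := P2 l1 l2 (nnr + fngf.v x m bs ds gp)

/-- The alternatives; `nr` is `nu / r`, `nnr` is `(nu + n) / r`, `fo` the slack beyond the gap. -/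
def Res (x r m l a b nr nnr bn bs fo ds gp l1 l2 : ℝ) : Prop :=
  ((ds ≤ 0 ∧ InR x r m l b a nr bn (-ds) gp l1 l2) ∨
    (0 ≤ ds ∧ InR x r m l a b nr bn ds gp l1 l2)) ∨
  (((ds ≤ 0 ∧ CrR x m nr bn (-ds) l1 l2) ∨ (0 ≤ ds ∧ CrR x m nr bn ds l1 l2)) ∧ 0 ≤ gp) ∨
  (((ds ≤ 0 ∧ OuR x r m l b a (-ds) gp) ∨ (0 ≤ ds ∧ OuR x r m l a b ds gp)) ∧ P2 l1 l2 fo) ∨
  (((ds ≤ 0 ∧ NgR x m nnr bs (-ds) gp l1 l2) ∨ (0 ≤ ds ∧ NgR x m nnr bs ds gp l1 l2)) ∧ gp ≤ 0)

section

variable {E : Pt} {X R M L A B BN BS DS GP : ℕ} {lv lg : ℕ → Bool} {lo : Bool}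
  {x r m l a b nr nnr bn bs fo ds gp l1 l2 : ℝ}

theorem sgS_sound {s : ℕ} {n p : Bool} {P Q : Prop} (hd : Enc E DS ds)
    (hn : n = true → P) (hp : p = true → Q) (h : sgS s DS n p = true) :
    (ds ≤ 0 ∧ P) ∨ (0 ≤ ds ∧ Q) := by
  unfold sgS at h
  rcases e0 : Nat.beq s 0 with _ | _
  · rw [e0] at h
    rcases e1 : Nat.beq s 1 with _ | _
    · rw [e1] at h
      obtain ⟨t1, t2⟩ := band_true h
      rcases le_total ds 0 with h3 | h3
      · exact Or.inl ⟨h3, hn t1⟩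
      · exact Or.inr ⟨h3, hp t2⟩
    · rw [e1] at h
      obtain ⟨t1, t2⟩ := band_true h
      exact Or.inr ⟨pnn_sound hd t1, hp t2⟩
  · rw [e0] at h
    obtain ⟨t1, t2⟩ := band_true h
    have := pnn_sound (enc_neg hd) t1
    exact Or.inl ⟨by linarith, hn t2⟩

theorem tst_sound {k s : ℕ} (hx : Enc E X x) (hr : Enc E R r) (hm : Enc E M m) (hl : Enc E L l)
    (ha : Enc E A a) (hb : Enc E B b) (hbn : Enc E BN bn) (hbs : Enc E BS bs)
    (hd : Enc E DS ds) (hg : Enc E GP gp)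
    (hlv : ∀ {F0 : ℕ} {f0 : ℝ}, Enc E F0 f0 → lv F0 = true → P2 l1 l2 (nr + f0))
    (hlg : ∀ {F0 : ℕ} {f0 : ℝ}, Enc E F0 f0 → lg F0 = true → P2 l1 l2 (nnr + f0))
    (hlo : lo = true → P2 l1 l2 fo)
    (h : tst lv lg lo k s X R M L A B BN BS DS GP = true) :
    Res x r m l a b nr nnr bn bs fo ds gp l1 l2 := by
  unfold tst at h
  have IN : ∀ {LF LN D : ℕ} {lf ln d : ℝ}, Enc E LF lf → Enc E LN ln → Enc E D d →
      inS lv X R M L LF LN BN D GP = true → InR x r m l lf ln nr bn d gp l1 l2 := by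
    intro LF LN D lf ln d h1 h2 h3 h4
    unfold inS at h4
    obtain ⟨t1, t2⟩ := band_true h4
    exact ⟨hlv (finf.enc hx hr hm hl h1 hbn h3 hg) t1, pnn_sound (cinf.enc hr h2 h3 hg) t2⟩
  have OU : ∀ {LF LN D : ℕ} {lf ln d : ℝ}, Enc E LF lf → Enc E LN ln → Enc E D d →
      ouS X R M L LF LN D GP = true → OuR x r m l lf ln d gp := by
    intro LF LN D lf ln d h1 h2 h3 h4
    unfold ouS at h4
    obtain ⟨t1, t2⟩ := band_true h4
    exact ⟨pnn_sound (couf.enc hx hm hl h1 h3 hg) t1, ppos_sound (cinf.enc hr h2 h3 hg) t2⟩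
  rcases e3 : Nat.beq s 3 with _ | _ <;> rw [e3] at h
  swap
  · obtain ⟨t1, t2⟩ := band_true h
    obtain ⟨t3, t4⟩ := band_true t1
    obtain ⟨t5, t6⟩ := band_true t2
    rcases le_total 0 gp with g0 | g0
    · refine Or.inr (Or.inl ⟨?_, g0⟩)
      rcases le_total ds 0 with d0 | d0
      · exact Or.inl ⟨d0, hlv (fcrf.enc hx hm hbn (enc_neg hd)) t3⟩
      · exact Or.inr ⟨d0, hlv (fcrf.enc hx hm hbn hd) t4⟩
    · refine Or.inr (Or.inr (Or.inr ⟨?_, g0⟩))
      rcases le_total ds 0 with d0 | d0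
      · exact Or.inl ⟨d0, hlg (fngf.enc hx hm hbs (enc_neg hd) hg) t5⟩
      · exact Or.inr ⟨d0, hlg (fngf.enc hx hm hbs hd hg) t6⟩
  rcases e0 : Nat.beq k 0 with _ | _ <;> rw [e0] at h
  · rcases e1 : Nat.beq k 1 with _ | _ <;> rw [e1] at h
    · rcases e2 : Nat.beq k 2 with _ | _ <;> rw [e2] at h
      · obtain ⟨t1, t2⟩ := band_true h
        have := pnn_sound (enc_neg hg) t2
        exact Or.inr (Or.inr (Or.inr ⟨sgS_sound hd
          (hlg (fngf.enc hx hm hbs (enc_neg hd) hg))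
          (hlg (fngf.enc hx hm hbs hd hg)) t1, by linarith⟩))
      · obtain ⟨t1, t2⟩ := band_true h
        exact Or.inr (Or.inr (Or.inl ⟨sgS_sound hd (OU hb ha (enc_neg hd)) (OU ha hb hd) t1,
          hlo t2⟩))
    · obtain ⟨t1, t2⟩ := band_true h
      exact Or.inr (Or.inl ⟨sgS_sound hd (hlv (fcrf.enc hx hm hbn (enc_neg hd)))
        (hlv (fcrf.enc hx hm hbn hd)) t1, pnn_sound hg t2⟩)
  · exact Or.inl (sgS_sound hd (IN hb ha (enc_neg hd)) (IN ha hb hd) h)

end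

/-! ### Homogeneity -/

section

variable {x r m l lf ln a b nr nnr bn bs fo ds gp l1 l2 N : ℝ}

theorem inv_scale (hN : 0 < N) (y : ℝ) : N * N * (N * y)⁻¹ = N * y⁻¹ := by
  rw [mul_inv]
  have : N * N⁻¹ = 1 := mul_inv_cancel₀ hN.ne'
  calc N * N * (N⁻¹ * y⁻¹) = N * (N * N⁻¹) * y⁻¹ := by ring
    _ = N * y⁻¹ := by rw [this]; ring

theorem finf_scale (hN : 0 < N) :
    finf.v x r m l lf (N * bn) (N * ds) (N * gp) = N * finf.v x r m l lf bn ds gp := by
  rw [finf_val, finf_val]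
  have e : N * gp + r * (N * ds) * lf = N * (gp + r * ds * lf) := by ring
  rw [e]
  have k := inv_scale hN (gp + r * ds * lf)
  linear_combination (-(G.eh x / (1 - x) * l * (lf * (r * ds * ds)))) * k

theorem cinf_scale : cinf.v r ln (N * ds) (N * gp) = N * cinf.v r ln ds gp := by
  rw [cinf_val, cinf_val]; ring

theorem fcrf_scale : fcrf.v x m (N * bn) (N * ds) = N * fcrf.v x m bn ds := by
  rw [fcrf_val, fcrf_val]; ring

theorem fngf_scale : fngf.v x m (N * bs) (N * ds) (N * gp) = N * fngf.v x m bs ds gp := by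
  rw [fngf_val, fngf_val]; ring

theorem couf_scale : couf.v x m l lf (N * ds) (N * gp) = N * couf.v x m l lf ds gp := by
  rw [couf_val, couf_val]; ring

theorem abf_scale (hN : 0 < N) :
    abf.v x m l a b (N * ds) (N * gp) = N * abf.v x m l a b ds gp := by
  rw [abf_val, abf_val]
  have k := inv_scale hN gp
  linear_combination (m * (G.eh x / (1 - x)) * (a * l⁻¹ * (b * l⁻¹)) * (x * ds ^ 2)) * k

theorem P2.scale (hN : 0 < N) {y : ℝ} (h : P2 l1 l2 y) : P2 (N * l1) (N * l2) (N * y) := by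
  unfold P2
  rw [← mul_add, ← mul_add]
  exact ⟨mul_nonneg hN.le h.1, mul_nonneg hN.le h.2⟩

theorem InR.scale (hN : 0 < N) (h : InR x r m l lf ln nr bn ds gp l1 l2) :
    InR x r m l lf ln (N * nr) (N * bn) (N * ds) (N * gp) (N * l1) (N * l2) := by
  obtain ⟨h1, h2⟩ := h
  refine ⟨?_, ?_⟩
  · rw [finf_scale hN, ← mul_add]; exact h1.scale hN
  · rw [cinf_scale]; exact mul_nonneg hN.le h2

theorem CrR.scale (hN : 0 < N) (h : CrR x m nr bn ds l1 l2) :
    CrR x m (N * nr) (N * bn) (N * ds) (N * l1) (N * l2) := by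
  unfold CrR
  rw [fcrf_scale, ← mul_add]; exact P2.scale hN h

theorem NgR.scale (hN : 0 < N) (h : NgR x m nnr bs ds gp l1 l2) :
    NgR x m (N * nnr) (N * bs) (N * ds) (N * gp) (N * l1) (N * l2) := by
  unfold NgR
  rw [fngf_scale, ← mul_add]; exact P2.scale hN h

theorem OuR.scale (hN : 0 < N) (h : OuR x r m l lf ln ds gp) :
    OuR x r m l lf ln (N * ds) (N * gp) := by
  obtain ⟨h3, h4⟩ := h
  refine ⟨?_, ?_⟩
  · rw [couf_scale]; exact mul_nonneg hN.le h3
  · rw [cinf_scale]; exact mul_pos hN h4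

theorem sgn_scale {P Q P' Q' : Prop} (hN : 0 < N) (hp : P → P') (hq : Q → Q')
    (h : (ds ≤ 0 ∧ P) ∨ (0 ≤ ds ∧ Q)) : (N * ds ≤ 0 ∧ P') ∨ (0 ≤ N * ds ∧ Q') := by
  rcases h with ⟨h1, h2⟩ | ⟨h1, h2⟩
  · exact Or.inl ⟨mul_nonpos_of_nonneg_of_nonpos hN.le h1, hp h2⟩
  · exact Or.inr ⟨mul_nonneg hN.le h1, hq h2⟩

theorem Res.scale (hN : 0 < N) (h : Res x r m l a b nr nnr bn bs fo ds gp l1 l2) :
    Res x r m l a b (N * nr) (N * nnr) (N * bn) (N * bs) (N * fo) (N * ds) (N * gp) (N * l1)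
      (N * l2) := by
  have e : -(N * ds) = N * -ds := by ring
  unfold Res
  rw [e]
  rcases h with h | ⟨h, hg⟩ | ⟨h, hf⟩ | ⟨h, hg⟩
  · exact Or.inl (sgn_scale hN (InR.scale hN) (InR.scale hN) h)
  · exact Or.inr (Or.inl ⟨sgn_scale hN (CrR.scale hN) (CrR.scale hN) h, mul_nonneg hN.le hg⟩)
  · exact Or.inr (Or.inr (Or.inl ⟨sgn_scale hN (OuR.scale hN) (OuR.scale hN) h, hf.scale hN⟩))
  · exact Or.inr (Or.inr (Or.inr ⟨sgn_scale hN (NgR.scale hN) (NgR.scale hN) h,
      mul_nonpos_of_nonneg_of_nonpos hN.le hg⟩))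

end

end Pool.Agent.Strip051.LC.E1.Ch
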