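import Pool.Agent.Strip051.LC.E1.Ch.Row
import Pool.Agent.Strip051.LC.E1.Ch.Tst

/-! # Rests near the full period: the result of a leaf gives the slack -/

namespace Pool.Agent.Strip051.LC.E1.Ch

open Pool.Agent.Strip051.PB

theorem one_add_et' {e : ℝ} (he1 : e < 1)
    (hq : 1 - G.eh e = e * G.q1 e) : 1 + e * G.et e = G.eh e / (1 - e) := by
  have h2 : (1 - e : ℝ) ≠ 0 := by linarith
  unfold G.et
  field_simp
  linarith

section

variable {x r m l a b nu n gam del bs lev nr nnr bn' bs' fo l1 l2 : ℝ}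

theorem fin_eq (x r m l a b nu n gam del bs lev : ℝ) (hx : x = m * r) :
    nu / r + finf.v x r m l (if del ≤ 0 then b else a) (bnf.v x m n bs gam)
      (|del| * (1 - r * l)) (n + r * gam) - lev = G.FinS r m a b l n gam del nu bs lev := by
  unfold G.FinS
  rw [finf_val, bnf_val, ← sq_abs del, ← hx]
  generalize (if del ≤ 0 then b else a) = lf
  have e : n + r * gam + r * (|del| * (1 - r * l)) * lf =
      n + r * gam + r * lf * |del| * (1 - r * l) := by ring
  rw [e]
  simp only [div_eq_mul_inv, mul_inv]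
  generalize (n + r * gam + r * lf * |del| * (1 - r * l))⁻¹ = q
  ring

theorem fcr_eq (x r m l nu n gam del bs lev : ℝ) (hx : x = m * r) :
    nu / r + fcrf.v x m (bnf.v x m n bs gam) (|del| * (1 - r * l)) - lev =
      G.FcS r m l n gam del nu bs lev := by
  unfold G.FcS
  rw [fcrf_val, bnf_val, ← hx]
  ring

theorem fng_eq (x r m l nu n gam del bs lev : ℝ) (hx : x = m * r) :
    (nu + n) / r + fngf.v x m bs (|del| * (1 - r * l)) (n + r * gam) - lev =
      G.FnS r m l n gam del nu bs lev := by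
  unfold G.FnS
  rw [fngf_val, ← hx]
  ring

theorem fout_eq (x r m l a b nu n gam del bs lev : ℝ) (hx : x = m * r)
    (hk : 1 + x * G.et x = G.eh x / (1 - x)) :
    nu / r + n / r * (1 - m / l) ^ 2 +
      brf.v x r m l (a - b) n gam (del * (1 - r * l)) bs -
      abf.v x m l a b (del * (1 - r * l)) (n + r * gam) - lev =
      G.FoutS r m a b l n gam del nu bs lev := by
  unfold G.FoutS
  rw [brf_val, abf_val, ← hk, ← hx]
  simp only [div_eq_mul_inv, mul_inv]
  generalize (n + r * gam)⁻¹ = q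
  ring

/-- The result of a leaf gives the slack. -/
theorem slk_of_res (hr : 0 < r) (hm : 0 < m) (hx : x = m * r) (hx1 : x < 1)
    (hq1 : 1 - G.eh x = x * G.q1 x) (ha : 0 ≤ a) (hb : 0 ≤ b)
    (hl : 0 < l) (hrl : r * l < 1)
    (e1 : nr + bn' ≤ nu / r + bnf.v x m n bs gam)
    (e2 : nnr + bs' ≤ (nu + n) / r + bs)
    (e3 : fo ≤ nu / r + n / r * (1 - m / l) ^ 2 +
      brf.v x r m l (a - b) n gam (del * (1 - r * l)) bs -
      abf.v x m l a b (del * (1 - r * l)) (n + r * gam))
    (hlev : ∀ F : ℝ, 0 ≤ F + l1 → 0 ≤ F + l2 → 0 ≤ F - lev)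
    (h : Res x r m l a b nr nnr bn' bs' fo (del * (1 - r * l)) (n + r * gam) l1 l2) :
    G.SlkS r m a b l n gam del nu bs lev := by
  have hx0 : 0 < x := by rw [hx]; positivity
  have h1 : 0 < 1 - r * l := by linarith
  have hk := one_add_et' hx1 hq1
  have neg : del * (1 - r * l) ≤ 0 → del ≤ 0 := fun h => by
    by_contra hc
    push Not at hc
    have := mul_pos hc h1
    linarith
  have ps : 0 ≤ del * (1 - r * l) → 0 ≤ del := fun h => by
    by_contra hc
    push Not at hc
    have := mul_neg_of_neg_of_pos hc h1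
    linarith
  have L2 : ∀ {G F : ℝ}, P2 l1 l2 G → G ≤ F → 0 ≤ F - lev := fun h hF =>
    have h' := h.mono hF
    hlev _ h'.1 h'.2
  rcases h with h | h | h | h
  · -- inside
    refine Or.inl ?_
    have key : ∀ {lf D : ℝ}, P2 l1 l2 (nr + finf.v x r m l lf bn' D (n + r * gam)) →
        0 ≤ nu / r + finf.v x r m l lf (bnf.v x m n bs gam) D (n + r * gam) - lev := by
      intro lf D hf
      refine L2 hf ?_
      rw [finf_val, finf_val]
      linarith
    rcases h with ⟨hd, f, c1⟩ | ⟨hd, f, c1⟩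
    · have hn := neg hd
      have ea : -(del * (1 - r * l)) = |del| * (1 - r * l) := by rw [abs_of_nonpos hn]; ring
      rw [ea] at f c1
      refine ⟨⟨ha, hb, hl, hrl, ?_⟩, ?_⟩
      · rw [if_pos hn]
        rw [cinf_val] at c1
        nlinarith
      · rw [← fin_eq x r m l a b nu n gam del bs lev hx, if_pos hn]
        exact key f
    · have hn := ps hd
      rcases hn.eq_or_lt with h0 | h0
      · rw [← h0] at f c1 ⊢
        have k : ∀ lf : ℝ, finf.v x r m l lf (bnf.v x m n bs gam) (0 * (1 - r * l))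
            (n + r * gam) = finf.v x r m l a (bnf.v x m n bs gam) (0 * (1 - r * l))
            (n + r * gam) := fun lf => by
          rw [finf_val, finf_val]; simp
        refine ⟨⟨ha, hb, hl, hrl, ?_⟩, ?_⟩
        · rw [cinf_val] at c1
          simp at c1 ⊢
          exact c1
        · rw [← fin_eq x r m l a b nu n gam 0 bs lev hx, abs_zero, k]
          exact key f
      · have ea : del * (1 - r * l) = |del| * (1 - r * l) := by rw [abs_of_pos h0]
        rw [ea] at f c1
        refine ⟨⟨ha, hb, hl, hrl, ?_⟩, ?_⟩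
        · rw [if_neg h0.not_ge]
          rw [cinf_val] at c1
          nlinarith
        · rw [← fin_eq x r m l a b nu n gam del bs lev hx, if_neg h0.not_ge]
          exact key f
  · -- crude
    refine Or.inr (Or.inr (Or.inl ?_))
    obtain ⟨h, hgp⟩ := h
    refine ⟨⟨ha, hb, hl, hrl, hgp⟩, ?_⟩
    rw [← fcr_eq x r m l nu n gam del bs lev hx]
    have key : ∀ {D : ℝ}, P2 l1 l2 (nr + fcrf.v x m bn' D) →
        0 ≤ nu / r + fcrf.v x m (bnf.v x m n bs gam) D - lev := by
      intro D hf
      refine L2 hf ?_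
      rw [fcrf_val, fcrf_val]
      linarith
    rcases h with ⟨hd, f⟩ | ⟨hd, f⟩
    · unfold CrR at f
      rw [show -(del * (1 - r * l)) = |del| * (1 - r * l) by
        rw [abs_of_nonpos (neg hd)]; ring] at f
      exact key f
    · unfold CrR at f
      rw [show del * (1 - r * l) = |del| * (1 - r * l) by rw [abs_of_nonneg (ps hd)]] at f
      exact key f
  · -- beyond
    refine Or.inr (Or.inl ?_)
    obtain ⟨h, hfo⟩ := h
    have key : 0 ≤ G.FoutS r m a b l n gam del nu bs lev := by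
      rw [← fout_eq x r m l a b nu n gam del bs lev hx hk]
      exact L2 hfo e3
    rcases h with ⟨hd, c1, c2⟩ | ⟨hd, c1, c2⟩
    · refine ⟨?_, key⟩
      rw [couf_val] at c1
      rw [cinf_val] at c2
      have hd' : 0 ≤ -(del * (1 - r * l)) := by linarith
      have hm1 : 0 ≤ r * (-(del * (1 - r * l)) * a) := by positivity
      have hm2 : 0 ≤ r * (-(del * (1 - r * l)) * b) := by positivity
      have hgp : 0 < n + r * gam := by linarith
      have e1 : r * a * del * (1 - r * l) = -(r * (-(del * (1 - r * l)) * a)) := by ring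
      have e2 : r * b * del * (1 - r * l) = -(r * (-(del * (1 - r * l)) * b)) := by ring
      have e4 : x * (-(del * (1 - r * l)) * b) = m * (r * (-(del * (1 - r * l)) * b)) := by
        rw [hx]; ring
      rw [e4] at c1
      refine ⟨ha, hb, hl, hgp, by rw [e1]; linarith, by rw [e2]; linarith, ?_, ?_⟩
      · rw [e1]
        have := mul_nonneg hm.le hm1
        have := mul_nonneg hm.le hm2
        linarith
      · rw [e2]
        linarith
    · refine ⟨?_, key⟩
      rw [couf_val] at c1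
      rw [cinf_val] at c2
      have hm1 : 0 ≤ r * (del * (1 - r * l) * a) := by positivity
      have hm2 : 0 ≤ r * (del * (1 - r * l) * b) := by positivity
      have hgp : 0 < n + r * gam := by linarith
      have e1 : r * a * del * (1 - r * l) = r * (del * (1 - r * l) * a) := by ring
      have e2 : r * b * del * (1 - r * l) = r * (del * (1 - r * l) * b) := by ring
      have e4 : x * (del * (1 - r * l) * a) = m * (r * (del * (1 - r * l) * a)) := by
        rw [hx]; ring
      rw [e4] at c1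
      refine ⟨ha, hb, hl, hgp, by rw [e1]; linarith, by rw [e2]; linarith, ?_, ?_⟩
      · rw [e1]
        linarith
      · rw [e2]
        have := mul_nonneg hm.le hm1
        have := mul_nonneg hm.le hm2
        linarith
  · -- negative second moment
    refine Or.inr (Or.inr (Or.inr ?_))
    obtain ⟨h, hgp⟩ := h
    refine ⟨⟨ha, hb, hl, hrl, hgp⟩, ?_⟩
    rw [← fng_eq x r m l nu n gam del bs lev hx]
    have key : ∀ {D : ℝ}, P2 l1 l2 (nnr + fngf.v x m bs' D (n + r * gam)) →
        0 ≤ (nu + n) / r + fngf.v x m bs D (n + r * gam) - lev := by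
      intro D hf
      refine L2 hf ?_
      rw [fngf_val, fngf_val]
      linarith
    rcases h with ⟨hd, f⟩ | ⟨hd, f⟩
    · unfold NgR at f
      rw [show -(del * (1 - r * l)) = |del| * (1 - r * l) by
        rw [abs_of_nonpos (neg hd)]; ring] at f
      exact key f
    · unfold NgR at f
      rw [show del * (1 - r * l) = |del| * (1 - r * l) by rw [abs_of_nonneg (ps hd)]] at f
      exact key f

end

/-! ### Constants -/

theorem gs_sq' {e : ℝ} (he : 0 ≤ e) (he1 : e ≤ 1) :
    G.gs e ^ 2 = 1 / 4 + 3 / 2 * e - 3 / 4 * e ^ 2 :=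
  Real.sq_sqrt (by nlinarith)

theorem gs_nn {e : ℝ} : 0 ≤ G.gs e := Real.sqrt_nonneg _

theorem ig_mul' {e : ℝ} : G.ig e * (G.gs e + 1 / 2) = 1 := by
  unfold G.ig
  have := @gs_nn e
  field_simp

theorem one_sub_eh' {e : ℝ} (he : 0 ≤ e) (he1 : e ≤ 1) : 1 - G.eh e = e * G.q1 e := by
  have h := gs_sq' he he1
  have h2 := @ig_mul' e
  have h3 : (G.gs e - 1 / 2) * (G.gs e + 1 / 2) = e * (3 / 2 - 3 / 4 * e) := by nlinarith
  have h4 : G.gs e = 1 / 2 + e * ((3 / 2 - 3 / 4 * e) * G.ig e) := by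
    have : G.gs e - 1 / 2 = e * ((3 / 2 - 3 / 4 * e) * G.ig e) := by
      calc G.gs e - 1 / 2 = (G.gs e - 1 / 2) * (G.ig e * (G.gs e + 1 / 2)) := by rw [h2, mul_one]
        _ = ((G.gs e - 1 / 2) * (G.gs e + 1 / 2)) * G.ig e := by ring
        _ = e * ((3 / 2 - 3 / 4 * e) * G.ig e) := by rw [h3]; ring
    linarith
  unfold G.q1 G.eh
  rw [h4] at h2
  linear_combination (-3 / 2 : ℝ) * h2

/-! ### Rows -/

/-- The slack of a row at a point. -/
def RowF.Sk (R : RowF) (w z m r lev : ℝ) : Prop :=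
  G.SlkS r m (R.A w z) (R.B w z) (R.L w z) (R.NF w z m r) (R.GM w z m r) (R.DL w z m r)
    (R.NU w z m r) (R.BS w z m r) lev

/-- The domain of a row. -/
structure Dm (R : RowF) (w z m r : ℝ) : Prop where
  r0 : 0 < r
  m0 : 0 < m
  x1 : m * r ≤ 1 / 40
  a0 : 0 ≤ R.A w z
  b0 : 0 ≤ R.B w z
  l0 : 0 < R.L w z
  rl : r * R.L w z ≤ 1 / 2
  u : 0 ≤ R.U w z m r

/-- The level is at most the two bounds. -/
def RowF.Lv (R : RowF) (w z m r lev : ℝ) : Prop :=
  ∀ F : ℝ, 0 ≤ F + (R.V1A w z m r / r + R.V1B w z m r) →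
    0 ≤ F + (R.V2A w z m r / r + R.V2B w z m r) → 0 ≤ F - lev

theorem Dm.hq {R : RowF} {w z m r : ℝ} (D : Dm R w z m r) :
    0 < m * r ∧ m * r < 1 ∧ 1 - G.eh (m * r) = m * r * G.q1 (m * r) := by
  have h0 := mul_pos D.m0 D.r0
  have h1 := D.x1
  exact ⟨h0, by linarith, one_sub_eh' h0.le (by linarith)⟩

/-- The slack beyond the gap, without the levels. -/
noncomputable def RowF.FO (R : RowF) (w z m r : ℝ) : ℝ :=
  R.NU w z m r / r + R.NF w z m r / r * (1 - m / R.L w z) ^ 2 +
      R.BR w z m r - abf.v (m * r) m (R.L w z) (R.A w z) (R.B w z) (R.DS w z m r)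
        (R.GP w z m r)

/-- The slack from a result with other values of the constant parts. -/
theorem sk_of_res {R : RowF} {w z m r lev ds gp nr nnr bn' bs' fo l1 l2 : ℝ}
    (D : Dm R w z m r)
    (hds : R.DS w z m r = ds) (hgp : R.GP w z m r = gp)
    (e1 : nr + bn' ≤ R.NU w z m r / r + R.BN w z m r)
    (e2 : nnr + bs' ≤ (R.NU w z m r + R.NF w z m r) / r + R.BS w z m r)
    (e3 : fo ≤ R.FO w z m r)
    (hlev : ∀ F : ℝ, 0 ≤ F + l1 → 0 ≤ F + l2 → 0 ≤ F - lev)
    (h : Res (m * r) r m (R.L w z) (R.A w z) (R.B w z) nr nnr bn' bs' fo ds gp l1 l2) :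
    R.Sk w z m r lev := by
  subst hds hgp
  obtain ⟨h0, h1, h2⟩ := D.hq
  have k1 : R.DS w z m r = R.DL w z m r * (1 - r * R.L w z) := by
    unfold RowF.DS; rw [dsf_val, shf_val]
  have k2 : R.GP w z m r = R.NF w z m r + r * R.GM w z m r := by unfold RowF.GP; rw [gpf_val]
  have k3 : R.BR w z m r = brf.v (m * r) r m (R.L w z) (R.A w z - R.B w z) (R.NF w z m r)
      (R.GM w z m r) (R.DS w z m r) (R.BS w z m r) := rfl
  have k4 : R.BN w z m r = bnf.v (m * r) m (R.NF w z m r) (R.BS w z m r) (R.GM w z m r) := rfl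
  unfold RowF.FO at e3
  rw [k3] at e3
  rw [k1, k2] at e3 h
  rw [k4] at e1
  have := D.rl
  exact slk_of_res D.r0 D.m0 rfl h1 h2 D.a0 D.b0 D.l0 (by linarith) e1 e2 e3 hlev h

/-- At a point where the defect and the second moment vanish. -/
theorem sk_zero {R : RowF} {w z m r lev : ℝ} (D : Dm R w z m r) (e2 : R.DS w z m r = 0)
    (e3 : R.GP w z m r = 0) (e1 : 0 ≤ R.NU w z m r / r + R.BN w z m r - lev) :
    R.Sk w z m r lev := by
  refine sk_of_res (nr := R.NU w z m r / r) (nnr := 0) (bn' := R.BN w z m r)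
    (bs' := (R.NU w z m r + R.NF w z m r) / r + R.BS w z m r) (l1 := -lev) (l2 := -lev) D e2 e3
    le_rfl (by linarith) le_rfl (fun F h1 _ => by linarith) ?_
  refine Or.inl (Or.inl ⟨le_rfl, ?_, ?_⟩)
  · rw [finf_val]
    simp only [P2]
    constructor <;> simp <;> linarith
  · rw [cinf_val]; simp

end Pool.Agent.Strip051.LC.E1.Ch
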