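import Pool.Agent.Strip051.LC.E1.Ch.Sa

/-! # Rests near the full period: the functions of a row, values and pairs of values -/

set_option linter.unusedVariables false

namespace Pool.Agent.Strip051.LC.E1.Ch

open Pool.Agent.Strip051.PB

attribute [local irreducible] padd psub pneg pmul psq pinv psqrt psqrtg pabs pps pmax pmin pphi plam
  pcase phf pnat prat pscale pnorm pdc pnc pone ppos pnn Enc

/-- The functions of a row.  Arguments: `u w z m r`, `nf w t x`, `bs w z t m r x`,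
`k12 u w z t m r x`, `v1 w z t r x c12 c23 c13`, `gm w z t k12 k23 k13`; `x = m r`. -/
structure RowF where
  u : Fn4
  nf : Fn3
  nu : Fn3
  bs : Fn6

  k12 : Fn7
  k23 : Fn7
  k13 : Fn7
  a12 : Fn7
  a23 : Fn7
  a13 : Fn7
  b12 : Fn7
  b23 : Fn7
  b13 : Fn7
  v1 : Fn8
  v2 : Fn8
  l : Fn3
  a : Fn3
  b : Fn3
  gm : Fn6

namespace RowF

variable (R : RowF)

noncomputable def U (w z m r : ℝ) : ℝ := R.u.v w z m r
noncomputable def NF (w z m r : ℝ) : ℝ := R.nf.v w (w + z) (m * r)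
noncomputable def NU (w z m r : ℝ) : ℝ := R.nu.v w (w + z) (m * r)
noncomputable def BS (w z m r : ℝ) : ℝ := R.bs.v w z (w + z) m r (m * r)
noncomputable def K12 (w z m r : ℝ) : ℝ := R.k12.v (R.U w z m r) w z (w + z) m r (m * r)
noncomputable def K23 (w z m r : ℝ) : ℝ := R.k23.v (R.U w z m r) w z (w + z) m r (m * r)
noncomputable def K13 (w z m r : ℝ) : ℝ := R.k13.v (R.U w z m r) w z (w + z) m r (m * r)
noncomputable def A12 (w z m r : ℝ) : ℝ := R.a12.v (R.U w z m r) w z (w + z) m r (m * r)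
noncomputable def A23 (w z m r : ℝ) : ℝ := R.a23.v (R.U w z m r) w z (w + z) m r (m * r)
noncomputable def A13 (w z m r : ℝ) : ℝ := R.a13.v (R.U w z m r) w z (w + z) m r (m * r)
noncomputable def B12 (w z m r : ℝ) : ℝ := R.b12.v (R.U w z m r) w z (w + z) m r (m * r)
noncomputable def B23 (w z m r : ℝ) : ℝ := R.b23.v (R.U w z m r) w z (w + z) m r (m * r)
noncomputable def B13 (w z m r : ℝ) : ℝ := R.b13.v (R.U w z m r) w z (w + z) m r (m * r)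
noncomputable def DL (w z m r : ℝ) : ℝ := dln.v (R.K12 w z m r) (R.K23 w z m r) (R.K13 w z m r)
noncomputable def L (w z : ℝ) : ℝ := R.l.v w z (w + z)
noncomputable def A (w z : ℝ) : ℝ := R.a.v w z (w + z)
noncomputable def B (w z : ℝ) : ℝ := R.b.v w z (w + z)
noncomputable def GM (w z m r : ℝ) : ℝ :=
  R.gm.v w z (w + z) (R.K12 w z m r) (R.K23 w z m r) (R.K13 w z m r)
noncomputable def DS (w z m r : ℝ) : ℝ := dsf.v (R.DL w z m r) (shf.v r (R.L w z))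
noncomputable def GP (w z m r : ℝ) : ℝ := gpf.v r (R.NF w z m r) (R.GM w z m r)
noncomputable def V1A (w z m r : ℝ) : ℝ :=
  R.v1.v w z (w + z) r (m * r) (R.A12 w z m r) (R.A23 w z m r) (R.A13 w z m r)
noncomputable def V1B (w z m r : ℝ) : ℝ :=
  R.v1.v w z (w + z) r (m * r) (R.B12 w z m r) (R.B23 w z m r) (R.B13 w z m r)
noncomputable def V2A (w z m r : ℝ) : ℝ :=
  R.v2.v w z (w + z) r (m * r) (R.A12 w z m r) (R.A23 w z m r) (R.A13 w z m r)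
noncomputable def V2B (w z m r : ℝ) : ℝ :=
  R.v2.v w z (w + z) r (m * r) (R.B12 w z m r) (R.B23 w z m r) (R.B13 w z m r)
noncomputable def BN (w z m r : ℝ) : ℝ :=
  bnf.v (m * r) m (R.NF w z m r) (R.BS w z m r) (R.GM w z m r)
noncomputable def BR (w z m r : ℝ) : ℝ :=
  brf.v (m * r) r m (R.L w z) (R.A w z - R.B w z) (R.NF w z m r) (R.GM w z m r) (R.DS w z m r)
    (R.BS w z m r)

end RowF

/-! ### Values -/

/-- the values of a row, handed to `f` -/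
noncomputable def dval (R : RowF) (W Z M Q : ℕ)
    (f : (U NU NF BS L A B GM DS GP V1A V1B V2A V2B BN : ℕ) → Bool) : Bool :=
  frc (pnorm (padd W Z)) fun T => frc (pnorm (pmul M Q)) fun X => frc (R.u.t W Z M Q) fun U =>
  frc (R.nf.t W T X) fun NF => frc (R.nu.t W T X) fun NU => frc (R.bs.t W Z T M Q X) fun BS =>
  frc (R.k12.t U W Z T M Q X) fun K12 =>
  frc (R.k23.t U W Z T M Q X) fun K23 =>
  frc (R.k13.t U W Z T M Q X) fun K13 =>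
  frc (R.a12.t U W Z T M Q X) fun A12 =>
  frc (R.a23.t U W Z T M Q X) fun A23 =>
  frc (R.a13.t U W Z T M Q X) fun A13 =>
  frc (R.b12.t U W Z T M Q X) fun B12 =>
  frc (R.b23.t U W Z T M Q X) fun B23 =>
  frc (R.b13.t U W Z T M Q X) fun B13 =>
  frc (dln.t K12 K23 K13) fun DL => frc (R.l.t W Z T) fun L =>
  frc (R.a.t W Z T) fun A => frc (R.b.t W Z T) fun B =>
  frc (R.gm.t W Z T K12 K23 K13) fun GM => frc (dsf.t DL (shf.t Q L)) fun DS =>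
  frc (gpf.t Q NF GM) fun GP =>
  frc (R.v1.t W Z T Q X A12 A23 A13) fun V1A => frc (R.v1.t W Z T Q X B12 B23 B13) fun V1B =>
  frc (R.v2.t W Z T Q X A12 A23 A13) fun V2A => frc (R.v2.t W Z T Q X B12 B23 B13) fun V2B =>
  frc (bnf.t X M NF BS GM) fun BN => f U NU NF BS L A B GM DS GP V1A V1B V2A V2B BN

/-- what the values are -/
structure DF (E : Pt) (R : RowF) (w z m r : ℝ) (U NU NF BS L A B GM DS GP V1A V1B V2A V2B BN : ℕ) : Prop where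
  u : Enc E U (R.U w z m r)
  nu : Enc E NU (R.NU w z m r)
  nf : Enc E NF (R.NF w z m r)
  bs : Enc E BS (R.BS w z m r)
  l : Enc E L (R.L w z)
  a : Enc E A (R.A w z)
  b : Enc E B (R.B w z)
  gm : Enc E GM (R.GM w z m r)
  ds : Enc E DS (R.DS w z m r)
  gp : Enc E GP (R.GP w z m r)
  v1a : Enc E V1A (R.V1A w z m r)
  v1b : Enc E V1B (R.V1B w z m r)
  v2a : Enc E V2A (R.V2A w z m r)
  v2b : Enc E V2B (R.V2B w z m r)
  bn : Enc E BN (R.BN w z m r)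

theorem dval_sound {E : Pt} {R : RowF} {W Z M Q : ℕ} {w z m r : ℝ}
    {f : (U NU NF BS L A B GM DS GP V1A V1B V2A V2B BN : ℕ) → Bool} (hw : Enc E W w) (hz : Enc E Z z)
    (hm : Enc E M m) (hr : Enc E Q r) (h : dval R W Z M Q f = true) :
    ∃ U NU NF BS L A B GM DS GP V1A V1B V2A V2B BN : ℕ, f U NU NF BS L A B GM DS GP V1A V1B V2A V2B BN = true ∧
      DF E R w z m r U NU NF BS L A B GM DS GP V1A V1B V2A V2B BN := by
  unfold dval at h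
  simp only [frc_eq] at h
  have hT : Enc E (pnorm (padd W Z)) (w + z) := enc_norm (enc_add hw hz)
  have hX : Enc E (pnorm (pmul M Q)) (m * r) := enc_norm (enc_mul hm hr)
  have hU := R.u.enc hw hz hm hr
  have hN := R.nf.enc hw hT hX
  have hNU := R.nu.enc hw hT hX
  have hBS := R.bs.enc hw hz hT hm hr hX
  have hk12 := R.k12.enc hU hw hz hT hm hr hX
  have hk23 := R.k23.enc hU hw hz hT hm hr hX
  have hk13 := R.k13.enc hU hw hz hT hm hr hX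
  have ha12 := R.a12.enc hU hw hz hT hm hr hX
  have ha23 := R.a23.enc hU hw hz hT hm hr hX
  have ha13 := R.a13.enc hU hw hz hT hm hr hX
  have hb12 := R.b12.enc hU hw hz hT hm hr hX
  have hb23 := R.b23.enc hU hw hz hT hm hr hX
  have hb13 := R.b13.enc hU hw hz hT hm hr hX
  have hD := dln.enc hk12 hk23 hk13
  have hL := R.l.enc hw hz hT
  have hA := R.a.enc hw hz hT
  have hB := R.b.enc hw hz hT
  have hM := R.gm.enc hw hz hT hk12 hk23 hk13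
  have hDS := dsf.enc hD (shf.enc hr hL)
  have hGP := gpf.enc hr hN hM
  exact ⟨_, _, _, _, _, _, _, _, _, _, _, _, _, _, _, h, hU, hNU, hN, hBS, hL, hA, hB, hM, hDS, hGP,
    R.v1.enc hw hz hT hr hX ha12 ha23 ha13, R.v1.enc hw hz hT hr hX hb12 hb23 hb13,
    R.v2.enc hw hz hT hr hX ha12 ha23 ha13, R.v2.enc hw hz hT hr hX hb12 hb23 hb13,
    bnf.enc hX hm hN hBS hM⟩

/-! ### Pairs of values -/

/-- slopes of a function of `u`, `w`, `z`, `t`, `m`, `r`, `x`; for `q = true` the second value of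
`u` is zero -/
structure SlU (q : Bool) (F : Fn7) where
  s : ℕ → ℕ → ℕ → ℕ → ℕ → ℕ → ℕ → ℕ → ℕ → ℕ → ℕ → ℕ → ℕ → ℕ → ℕ → ℕ
  snd : ∀ {E : Pt} {N : ℝ} {A1 B1 D1 A2 B2 D2 A3 B3 D3 A4 B4 D4 C5 C6 C7 : ℕ}
    {a1 b1 a2 b2 a3 b3 a4 b4 c5 c6 c7 : ℝ},
    Pr E N A1 B1 D1 a1 b1 → (q = true → b1 = 0) → Pr E N A2 B2 D2 a2 b2 →
      Pr E N A3 B3 D3 a3 b3 → Pr E N A4 B4 D4 a4 b4 → Enc E C5 c5 → Enc E C6 c6 → Enc E C7 c7 →
      Pr E N (F.t A1 A2 A3 A4 C5 C6 C7) (F.t B1 B2 B3 B4 C5 C6 C7)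
        (s A1 B1 D1 A2 B2 D2 A3 B3 D3 A4 B4 D4 C5 C6 C7) (F.v a1 a2 a3 a4 c5 c6 c7)
        (F.v b1 b2 b3 b4 c5 c6 c7)

noncomputable def slz {F : Fn7} (S : Sl_zvvvccc F) : SlU true F :=
  ⟨S.s, fun h1 z h2 h3 h4 h5 h6 h7 => S.snd h1 (z rfl) h2 h3 h4 h5 h6 h7⟩

noncomputable def slv {F : Fn7} (S : Sl_vvvvccc F) : SlU false F :=
  ⟨S.s, fun h1 _ h2 h3 h4 h5 h6 h7 => S.snd h1 h2 h3 h4 h5 h6 h7⟩

/-- The slopes of the functions of a row. -/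
structure RowS (R : RowF) (q : Bool) where
  u : Sl_vvcc R.u
  nf : Sl_vvc R.nf
  nu : Sl_vvc R.nu
  bs : Sl_vvvccc R.bs
  k12 : SlU q R.k12
  k23 : SlU q R.k23
  k13 : SlU q R.k13
  a12 : SlU q R.a12
  a23 : SlU q R.a23
  a13 : SlU q R.a13
  b12 : SlU q R.b12
  b23 : SlU q R.b23
  b13 : SlU q R.b13
  v1 : Sl_vvvccvvv R.v1
  v2 : Sl_vvvccvvv R.v2
  l : Sl_vvv R.l
  a : Sl_vvv R.a
  b : Sl_vvv R.b
  gm : Sl_vvvvvv R.gm

/-- the pairs of a row, handed to `f` -/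
noncomputable def pval {q : Bool} {R : RowF} (S : RowS R q) (dz : Bool)
    (Wa Wb Wd Za Zb Zd M Q : ℕ)
    (f : (Ua Ub Ud NUa NUb NUd NFa NFb NFd BSa BSb BSd La Lb Ld Aa Ab Ad Ba Bb Bd GMa GMb GMd DSa
        DSb DSd GPa GPb GPd V1Aa V1Ab V1Ad V1Ba V1Bb V1Bd V2Aa V2Ab V2Ad V2Ba V2Bb V2Bd BNa BNb
        BNd : ℕ) → Bool) : Bool :=
  frc (pnorm (padd Wa Za)) fun Ta => frc (pnorm (padd Wb Zb)) fun Tb =>
  frc (pnorm (padd Wd Zd)) fun Td => frc (pnorm (pmul M Q)) fun X =>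
  frc (R.u.t Wa Za M Q) fun Ua => frc (R.u.t Wb Zb M Q) fun Ub =>
  frc (S.u.s Wa Wb Wd Za Zb Zd M Q) fun Ud =>
  frc (R.nf.t Wa Ta X) fun NFa => frc (R.nf.t Wb Tb X) fun NFb =>
  frc (S.nf.s Wa Wb Wd Ta Tb Td X) fun NFd =>
  frc (R.nu.t Wa Ta X) fun NUa => frc (R.nu.t Wb Tb X) fun NUb =>
  frc (S.nu.s Wa Wb Wd Ta Tb Td X) fun NUd =>
  frc (R.bs.t Wa Za Ta M Q X) fun BSa => frc (R.bs.t Wb Zb Tb M Q X) fun BSb =>
  frc (S.bs.s Wa Wb Wd Za Zb Zd Ta Tb Td M Q X) fun BSd =>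
  frc (R.k12.t Ua Wa Za Ta M Q X) fun K12a => frc (R.k12.t Ub Wb Zb Tb M Q X) fun K12b =>
  frc (S.k12.s Ua Ub Ud Wa Wb Wd Za Zb Zd Ta Tb Td M Q X) fun K12d =>
  frc (R.k23.t Ua Wa Za Ta M Q X) fun K23a => frc (R.k23.t Ub Wb Zb Tb M Q X) fun K23b =>
  frc (S.k23.s Ua Ub Ud Wa Wb Wd Za Zb Zd Ta Tb Td M Q X) fun K23d =>
  frc (R.k13.t Ua Wa Za Ta M Q X) fun K13a => frc (R.k13.t Ub Wb Zb Tb M Q X) fun K13b =>
  frc (S.k13.s Ua Ub Ud Wa Wb Wd Za Zb Zd Ta Tb Td M Q X) fun K13d =>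
  frc (R.a12.t Ua Wa Za Ta M Q X) fun A12a => frc (R.a12.t Ub Wb Zb Tb M Q X) fun A12b =>
  frc (S.a12.s Ua Ub Ud Wa Wb Wd Za Zb Zd Ta Tb Td M Q X) fun A12d =>
  frc (R.a23.t Ua Wa Za Ta M Q X) fun A23a => frc (R.a23.t Ub Wb Zb Tb M Q X) fun A23b =>
  frc (S.a23.s Ua Ub Ud Wa Wb Wd Za Zb Zd Ta Tb Td M Q X) fun A23d =>
  frc (R.a13.t Ua Wa Za Ta M Q X) fun A13a => frc (R.a13.t Ub Wb Zb Tb M Q X) fun A13b =>
  frc (S.a13.s Ua Ub Ud Wa Wb Wd Za Zb Zd Ta Tb Td M Q X) fun A13d =>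
  frc (R.b12.t Ua Wa Za Ta M Q X) fun B12a => frc (R.b12.t Ub Wb Zb Tb M Q X) fun B12b =>
  frc (S.b12.s Ua Ub Ud Wa Wb Wd Za Zb Zd Ta Tb Td M Q X) fun B12d =>
  frc (R.b23.t Ua Wa Za Ta M Q X) fun B23a => frc (R.b23.t Ub Wb Zb Tb M Q X) fun B23b =>
  frc (S.b23.s Ua Ub Ud Wa Wb Wd Za Zb Zd Ta Tb Td M Q X) fun B23d =>
  frc (R.b13.t Ua Wa Za Ta M Q X) fun B13a => frc (R.b13.t Ub Wb Zb Tb M Q X) fun B13b =>
  frc (S.b13.s Ua Ub Ud Wa Wb Wd Za Zb Zd Ta Tb Td M Q X) fun B13d =>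
  frc (dln.t K12a K23a K13a) fun DLa => frc (dln.t K12b K23b K13b) fun DLb =>
  frc (dln_vvv.s K12a K12b K12d K23a K23b K23d K13a K13b K13d) fun DLd =>
  frc (R.l.t Wa Za Ta) fun La => frc (R.l.t Wb Zb Tb) fun Lb =>
  frc (S.l.s Wa Wb Wd Za Zb Zd Ta Tb Td) fun Ld =>
  frc (R.a.t Wa Za Ta) fun Aa => frc (R.a.t Wb Zb Tb) fun Ab =>
  frc (S.a.s Wa Wb Wd Za Zb Zd Ta Tb Td) fun Ad =>
  frc (R.b.t Wa Za Ta) fun Ba => frc (R.b.t Wb Zb Tb) fun Bb =>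
  frc (S.b.s Wa Wb Wd Za Zb Zd Ta Tb Td) fun Bd =>
  frc (R.gm.t Wa Za Ta K12a K23a K13a) fun GMa => frc (R.gm.t Wb Zb Tb K12b K23b K13b) fun GMb =>
  frc (S.gm.s Wa Wb Wd Za Zb Zd Ta Tb Td K12a K12b K12d K23a K23b K23d K13a K13b K13d) fun GMd =>
  frc (shf.t Q La) fun Ha => frc (shf.t Q Lb) fun Hb => frc (shf_cv.s Q La Lb Ld) fun Hd =>
  frc (dsf.t DLa Ha) fun DSa => frc (dsf.t DLb Hb) fun DSb =>
  frc (Bool.rec (motive := fun _ => ℕ) (dsf_vv.s DLa DLb DLd Ha Hb Hd)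
    (dsf_zv.s DLa DLb DLd Ha Hb Hd) dz) fun DSd =>
  frc (gpf.t Q NFa GMa) fun GPa => frc (gpf.t Q NFb GMb) fun GPb =>
  frc (gpf_cvv.s Q NFa NFb NFd GMa GMb GMd) fun GPd =>
  frc (R.v1.t Wa Za Ta Q X A12a A23a A13a) fun V1Aa =>
  frc (R.v1.t Wb Zb Tb Q X A12b A23b A13b) fun V1Ab =>
  frc (S.v1.s Wa Wb Wd Za Zb Zd Ta Tb Td Q X A12a A12b A12d A23a A23b A23d A13a A13b A13d)
    fun V1Ad =>
  frc (R.v1.t Wa Za Ta Q X B12a B23a B13a) fun V1Ba =>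
  frc (R.v1.t Wb Zb Tb Q X B12b B23b B13b) fun V1Bb =>
  frc (S.v1.s Wa Wb Wd Za Zb Zd Ta Tb Td Q X B12a B12b B12d B23a B23b B23d B13a B13b B13d)
    fun V1Bd =>
  frc (R.v2.t Wa Za Ta Q X A12a A23a A13a) fun V2Aa =>
  frc (R.v2.t Wb Zb Tb Q X A12b A23b A13b) fun V2Ab =>
  frc (S.v2.s Wa Wb Wd Za Zb Zd Ta Tb Td Q X A12a A12b A12d A23a A23b A23d A13a A13b A13d)
    fun V2Ad =>
  frc (R.v2.t Wa Za Ta Q X B12a B23a B13a) fun V2Ba =>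
  frc (R.v2.t Wb Zb Tb Q X B12b B23b B13b) fun V2Bb =>
  frc (S.v2.s Wa Wb Wd Za Zb Zd Ta Tb Td Q X B12a B12b B12d B23a B23b B23d B13a B13b B13d)
    fun V2Bd =>
  frc (bnf.t X M NFa BSa GMa) fun BNa => frc (bnf.t X M NFb BSb GMb) fun BNb =>
  frc (bnf_ccvvv.s X M NFa NFb NFd BSa BSb BSd GMa GMb GMd) fun BNd =>
  f Ua Ub Ud NUa NUb NUd NFa NFb NFd BSa BSb BSd La Lb Ld Aa Ab Ad Ba Bb Bd GMa GMb GMd DSa DSb
      DSd GPa GPb GPd V1Aa V1Ab V1Ad V1Ba V1Bb V1Bd V2Aa V2Ab V2Ad V2Ba V2Bb V2Bd BNa BNb BNd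

/-- what the pairs are -/
structure PF (E : Pt) (N : ℝ) (R : RowF) (w z w' z' m r : ℝ)
    (Ua Ub Ud NUa NUb NUd NFa NFb NFd BSa BSb BSd La Lb Ld Aa Ab Ad Ba Bb Bd GMa GMb GMd DSa DSb
        DSd GPa GPb GPd V1Aa V1Ab V1Ad V1Ba V1Bb V1Bd V2Aa V2Ab V2Ad V2Ba V2Bb V2Bd BNa BNb BNd :
        ℕ) : Prop where

  u : Pr E N Ua Ub Ud (R.U w z m r) (R.U w' z' m r)
  nu : Pr E N NUa NUb NUd (R.NU w z m r) (R.NU w' z' m r)
  nf : Pr E N NFa NFb NFd (R.NF w z m r) (R.NF w' z' m r)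
  bs : Pr E N BSa BSb BSd (R.BS w z m r) (R.BS w' z' m r)
  l : Pr E N La Lb Ld (R.L w z) (R.L w' z')
  a : Pr E N Aa Ab Ad (R.A w z) (R.A w' z')
  b : Pr E N Ba Bb Bd (R.B w z) (R.B w' z')
  gm : Pr E N GMa GMb GMd (R.GM w z m r) (R.GM w' z' m r)
  ds : Pr E N DSa DSb DSd (R.DS w z m r) (R.DS w' z' m r)
  gp : Pr E N GPa GPb GPd (R.GP w z m r) (R.GP w' z' m r)
  v1a : Pr E N V1Aa V1Ab V1Ad (R.V1A w z m r) (R.V1A w' z' m r)
  v1b : Pr E N V1Ba V1Bb V1Bd (R.V1B w z m r) (R.V1B w' z' m r)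
  v2a : Pr E N V2Aa V2Ab V2Ad (R.V2A w z m r) (R.V2A w' z' m r)
  v2b : Pr E N V2Ba V2Bb V2Bd (R.V2B w z m r) (R.V2B w' z' m r)
  bn : Pr E N BNa BNb BNd (R.BN w z m r) (R.BN w' z' m r)

set_option maxRecDepth 4000 in
theorem pval_sound {E : Pt} {N : ℝ} {R : RowF} {q : Bool} {S : RowS R q} {dz : Bool}
    {Wa Wb Wd Za Zb Zd M Q : ℕ} {w z w' z' m r : ℝ}
    {f : (Ua Ub Ud NUa NUb NUd NFa NFb NFd BSa BSb BSd La Lb Ld Aa Ab Ad Ba Bb Bd GMa GMb GMd DSa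
        DSb DSd GPa GPb GPd V1Aa V1Ab V1Ad V1Ba V1Bb V1Bd V2Aa V2Ab V2Ad V2Ba V2Bb V2Bd BNa BNb
        BNd : ℕ) → Bool}
    (hw : Pr E N Wa Wb Wd w w') (hz : Pr E N Za Zb Zd z z') (hm : Enc E M m) (hr : Enc E Q r)
    (hq : q = true → R.U w' z' m r = 0) (hd : dz = true → R.DL w' z' m r = 0)
    (h : pval S dz Wa Wb Wd Za Zb Zd M Q f = true) :
    ∃ Ua Ub Ud NUa NUb NUd NFa NFb NFd BSa BSb BSd La Lb Ld Aa Ab Ad Ba Bb Bd GMa GMb GMd DSa DSb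
        DSd GPa GPb GPd V1Aa V1Ab V1Ad V1Ba V1Bb V1Bd V2Aa V2Ab V2Ad V2Ba V2Bb V2Bd BNa BNb BNd :
        ℕ,
      f Ua Ub Ud NUa NUb NUd NFa NFb NFd BSa BSb BSd La Lb Ld Aa Ab Ad Ba Bb Bd GMa GMb GMd DSa
          DSb DSd GPa GPb GPd V1Aa V1Ab V1Ad V1Ba V1Bb V1Bd V2Aa V2Ab V2Ad V2Ba V2Bb V2Bd BNa BNb
          BNd = true ∧
      PF E N R w z w' z' m r Ua Ub Ud NUa NUb NUd NFa NFb NFd BSa BSb BSd La Lb Ld Aa Ab Ad Ba Bb
          Bd GMa GMb GMd DSa DSb DSd GPa GPb GPd V1Aa V1Ab V1Ad V1Ba V1Bb V1Bd V2Aa V2Ab V2Ad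
          V2Ba V2Bb V2Bd BNa BNb BNd := by
  unfold pval at h
  simp only [frc_eq] at h
  have hT : Pr E N (pnorm (padd Wa Za)) (pnorm (padd Wb Zb)) (pnorm (padd Wd Zd)) (w + z)
      (w' + z') := pr_norm (pr_add hw hz)
  have hX : Enc E (pnorm (pmul M Q)) (m * r) := enc_norm (enc_mul hm hr)
  have hU := S.u.snd hw hz hm hr
  have hN := S.nf.snd hw hT hX
  have hNU := S.nu.snd hw hT hX
  have hBS := S.bs.snd hw hz hT hm hr hX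
  have hk12 := S.k12.snd hU hq hw hz hT hm hr hX
  have hk23 := S.k23.snd hU hq hw hz hT hm hr hX
  have hk13 := S.k13.snd hU hq hw hz hT hm hr hX
  have ha12 := S.a12.snd hU hq hw hz hT hm hr hX
  have ha23 := S.a23.snd hU hq hw hz hT hm hr hX
  have ha13 := S.a13.snd hU hq hw hz hT hm hr hX
  have hb12 := S.b12.snd hU hq hw hz hT hm hr hX
  have hb23 := S.b23.snd hU hq hw hz hT hm hr hX
  have hb13 := S.b13.snd hU hq hw hz hT hm hr hX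
  have hD := dln_vvv.snd hk12 hk23 hk13
  have hL := S.l.snd hw hz hT
  have hA := S.a.snd hw hz hT
  have hB := S.b.snd hw hz hT
  have hM := S.gm.snd hw hz hT hk12 hk23 hk13
  have hH := shf_cv.snd hr hL
  have hGP := gpf_cvv.snd hr hN hM
  have hv1a := S.v1.snd hw hz hT hr hX ha12 ha23 ha13
  have hv1b := S.v1.snd hw hz hT hr hX hb12 hb23 hb13
  have hv2a := S.v2.snd hw hz hT hr hX ha12 ha23 ha13
  have hv2b := S.v2.snd hw hz hT hr hX hb12 hb23 hb13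
  have hBN := bnf_ccvvv.snd hX hm hN hBS hM
  rcases dz with _ | _
  · exact ⟨_, _, _, _, _, _, _, _, _, _, _, _, _, _, _, _, _, _, _, _, _, _, _, _, _, _, _, _, _,
      _, _, _, _, _, _, _, _, _, _, _, _, _, _, _, _, h, hU, hNU, hN, hBS, hL, hA, hB, hM,
      dsf_vv.snd hD hH, hGP, hv1a, hv1b, hv2a, hv2b, hBN⟩
  · exact ⟨_, _, _, _, _, _, _, _, _, _, _, _, _, _, _, _, _, _, _, _, _, _, _, _, _, _, _, _, _,
      _, _, _, _, _, _, _, _, _, _, _, _, _, _, _, _, h, hU, hNU, hN, hBS, hL, hA, hB, hM,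
      dsf_zv.snd hD (hd rfl) hH, hGP, hv1a, hv1b, hv2a, hv2b, hBN⟩

end Pool.Agent.Strip051.LC.E1.Ch
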