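import Pool.Agent.Strip051.LC.E1.Ch.Fa

/-! # Rests near the full period: slopes of the test functions -/

set_option linter.unusedVariables false

namespace Pool.Agent.Strip051.LC.E1.Ch

open Pool.Agent.Strip051.PB

attribute [local irreducible] padd psub pneg pmul psq pinv psqrt psqrtg pabs pps pmax pmin pphi plam
  pcase phf pnat prat pscale pnorm pdc pnc pone ppos pnn Enc

noncomputable def shf_cv : Sl_cv shf := ⟨_, fun h1 h2 => (pr_norm (pr_csub (enc_pnc _ 1) (pr_cmul h1 h2)))⟩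
noncomputable def dsf_vv : Sl_vv dsf := ⟨_, fun h1 h2 => (pr_norm (pr_mul h1 h2))⟩
noncomputable def dsf_zv : Sl_zv dsf := ⟨_, fun h1 z1 h2 => (pr_norm (pr_mz z1 h1 h2))⟩
noncomputable def gpf_cvv : Sl_cvv gpf := ⟨_, fun h1 h2 h3 => (pr_norm (pr_add h2 (pr_cmul h1 h3)))⟩
noncomputable def bnf_ccvvv : Sl_ccvvv bnf := ⟨_, fun h1 h2 h3 h4 h5 => (pr_norm (pr_sub (pr_add (pr_mulc h3 (enc_norm (enc_mul h2 (qo.enc h1)))) h4) (pr_cmul (eh.enc h1) h5)))⟩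
noncomputable def m2f_cv : Sl_cv m2f := ⟨_, fun h1 h2 => (pr_sq (pr_norm (pr_csub (enc_pnc _ 1) (pr_cmul h1 (pr_nd (pr_inv h2))))))⟩
noncomputable def brf_9_cccvvvvvv : Sl_cccvvvvvv brf_9 := ⟨_, fun h1 h2 h3 h4 h5 h6 h7 h8 h9 => (pr_inv h4)⟩
noncomputable def brf_10_cccvvvvvv : Sl_cccvvvvvv brf_10 := ⟨_, fun h1 h2 h3 h4 h5 h6 h7 h8 h9 => (pr_cmul h3 (pr_nd (brf_9_cccvvvvvv.snd h1 h2 h3 h4 h5 h6 h7 h8 h9)))⟩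
noncomputable def brf_13_cccvvvvvv : Sl_cccvvvvvv brf_13 := ⟨_, fun h1 h2 h3 h4 h5 h6 h7 h8 h9 => (pr_csub (enc_pnc _ 1) (pr_half (brf_10_cccvvvvvv.snd h1 h2 h3 h4 h5 h6 h7 h8 h9)))⟩
noncomputable def brf_cccvvvvvv : Sl_cccvvvvvv brf := ⟨_, fun h1 h2 h3 h4 h5 h6 h7 h8 h9 => (pr_norm (pr_sub (pr_add (pr_mul h6 (pr_norm (pr_csub (brf_15.enc h1 h2 h3 h4.l h5.l h6.l h7.l h8.l h9.l) (pr_nat 2 (pr_cmul (et.enc h1) (pr_norm (pr_cmul h3 (pr_norm (pr_mul (pr_norm (brf_10_cccvvvvvv.snd h1 h2 h3 h4 h5 h6 h7 h8 h9)) (pr_norm (brf_13_cccvvvvvv.snd h1 h2 h3 h4 h5 h6 h7 h8 h9))))))))))) h9) (pr_nat 2 (pr_cmul (enc_norm (brf_15.enc h1 h2 h3 h4.l h5.l h6.l h7.l h8.l h9.l)) (pr_norm (pr_add (pr_mul h7 (pr_norm (pr_mul (pr_norm (pr_sub (brf_13_cccvvvvvv.snd h1 h2 h3 h4 h5 h6 h7 h8 h9) (pr_half (pr_cmul h2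 h4)))) (pr_nd (brf_9_cccvvvvvv.snd h1 h2 h3 h4 h5 h6 h7 h8 h9))))) (pr_half (pr_mul (pr_norm (pr_mul h5 (pr_nd (brf_9_cccvvvvvv.snd h1 h2 h3 h4 h5 h6 h7 h8 h9)))) (pr_norm (pr_mul h8 (pr_norm (pr_csub (enc_pnc _ 1) (brf_10_cccvvvvvv.snd h1 h2 h3 h4 h5 h6 h7 h8 h9)))))))))))))⟩
noncomputable def lnf_ccvvv : Sl_ccvvv lnf := ⟨_, fun h1 h2 h3 h4 h5 => (pr_norm (pr_sub h4 (pr_cmul (kx.enc h1) (pr_norm (pr_mul h5 (pr_norm (pr_csub h2 h3)))))))⟩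
noncomputable def vf1_vvvccvvv : Sl_vvvccvvv vf1 := ⟨_, fun h1 h2 h3 h4 h5 h6 h7 h8 => (pr_norm (pr_neg (pr_half (pr_sub (pr_add h6 h7) h8))))⟩
noncomputable def vf2_vvvccvvv : Sl_vvvccvvv vf2 := ⟨_, fun h1 h2 h3 h4 h5 h6 h7 h8 => (pr_norm (pr_half (pr_sub (pr_add h6 h7) h8)))⟩
noncomputable def ml1_10_vvvccvvv : Sl_vvvccvvv ml1_10 := ⟨_, fun h1 h2 h3 h4 h5 h6 h7 h8 => (pr_cmul h4 h1)⟩
noncomputable def ml1_vvvccvvv : Sl_vvvccvvv ml1 := ⟨_, fun h1 h2 h3 h4 h5 h6 h7 h8 => (pr_norm (pr_cmul (mu.enc h5) (pr_norm (pr_sub (pr_half (pr_cmul (enc_norm (enc_sub (enc_pnc _ 4) h5)) (pr_norm (pr_sub (pr_add h6 h7) h8)))) (pr_half (pr_sub (pr_add (pr_mul (pr_norm (ml1_10_vvvccvvv.snd h1 h2 h3 h4 h5 h6 h7 h8)) h6) (pr_mul (pr_norm (pr_add (pr_cadd (enc_pnc _ 1) (pr_nat 2 (ml1_10_vvvccvvv.snd h1 h2 h3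 h4 h5 h6 h7 h8))) (pr_cmul h4 h2))) h7)) (pr_mul (pr_norm (pr_cadd (enc_pnc _ 1) (pr_cmul h4 h3))) h8)))))))⟩
noncomputable def ml2_13_vvvccvvv : Sl_vvvccvvv ml2_13 := ⟨_, fun h1 h2 h3 h4 h5 h6 h7 h8 => (pr_cadd (enc_pnc _ 1) (pr_cmul h4 h2))⟩
noncomputable def ml2_vvvccvvv : Sl_vvvccvvv ml2 := ⟨_, fun h1 h2 h3 h4 h5 h6 h7 h8 => (pr_norm (pr_cmul (mu.enc h5) (pr_norm (pr_sub (pr_half (pr_sub (pr_add (pr_mul (pr_norm (ml2_13_vvvccvvv.snd h1 h2 h3 h4 h5 h6 h7 h8)) h7) (pr_mul (pr_norm (pr_add (pr_nat 2 (ml2_13_vvvccvvv.snd h1 h2 h3 h4 h5 h6 h7 h8)) (pr_cmul h4 h1))) h6)) (pr_mul (pr_norm (pr_cadd (enc_pnc _ 1) (pr_cmul h4 h3))) h8))) (pr_half (pr_cmul (enc_norm (enc_sub (enc_pnc _ 4) h5)) (pr_norm (pr_sub (pr_add h6 h7) h8))))))))⟩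
noncomputable def dln_vvv : Sl_vvv dln := ⟨_, fun h1 h2 h3 => (pr_norm (pr_sub (pr_sub h3 h1) h2))⟩
noncomputable def gm1_vvvvvv : Sl_vvvvvv gm1 := ⟨_, fun h1 h2 h3 h4 h5 h6 => (pr_norm (pr_sub (pr_mul h1 h5) (pr_mul h2 h4)))⟩
noncomputable def gm2_vvvvvv : Sl_vvvvvv gm2 := ⟨_, fun h1 h2 h3 h4 h5 h6 => (pr_norm (pr_sub (pr_mul h3 h5) (pr_mul h2 h6)))⟩
noncomputable def gm3_vvvvvv : Sl_vvvvvv gm3 := ⟨_, fun h1 h2 h3 h4 h5 h6 => (pr_norm (pr_sub (pr_mul h1 h6) (pr_mul h3 h4)))⟩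

end Pool.Agent.Strip051.LC.E1.Ch
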