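import Pool.Agent.Strip051.LC.E1.Ch.Dir

/-! # Rests near the full period: leaves which test slopes -/

set_option linter.unusedVariables false

namespace Pool.Agent.Strip051.LC.E1.Ch

open Pool.Agent.Strip051.PB

attribute [local irreducible] padd psub pneg pmul psq pinv psqrt psqrtg pabs pps pmax pmin pphi
    plam
  pcase phf pnat prat pscale pnorm pdc pnc pone ppos pnn Enc

/-- The base point of a slope. -/
structure SBase (R : RowF) (w z m r nb : ℝ) : Prop where
  u : R.U w z m r = 0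
  d : R.DL w z m r = 0
  gp : R.GP w z m r = 0
  nf : R.NF w z m r = r * nb
  i : 0 ≤ R.NU w z m r / r + R.BN w z m r
  g : 0 ≤ (R.NU w z m r + R.NF w z m r) / r + R.BS w z m r
  o : 0 ≤ R.NU w z m r / r + nb * m2f.v m (R.L w z) + R.BR w z m r
  v1 : 0 ≤ R.V1A w z m r / r + R.V1B w z m r
  v2 : 0 ≤ R.V2A w z m r / r + R.V2B w z m r

theorem SBase.ds {R : RowF} {w z m r nb : ℝ} (h : SBase R w z m r nb) : R.DS w z m r = 0 := by
  unfold RowF.DS
  rw [h.d, dsf_val, zero_mul]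

theorem SBase.sk {R : RowF} {w z m r nb lev : ℝ} (h : SBase R w z m r nb) (D : Dm R w z m r)
    (hlev : R.Lv w z m r lev) : R.Sk w z m r lev :=
  sk_zero D h.ds h.gp (hlev _ (by have := h.i; have := h.v1; linarith)
    (by have := h.i; have := h.v2; linarith))

theorem add_mul_div (a b N r : ℝ) : (a + N * b) / r = a / r + N * (b / r) := by
  rw [add_div, mul_div_assoc]

/-- The slack from a result for the slopes. -/
theorem SBase.of_res {R : RowF} {w z w' z' m r nb lev N nud nfd bsd dsd gpd bnd v1ad v1bd v2ad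
    v2bd fo : ℝ} (B : SBase R w' z' m r nb) (D : Dm R w z m r) (hN : 0 < N)
    (enu : R.NU w z m r - R.NU w' z' m r = N * nud) (enf : R.NF w z m r - R.NF w' z' m r = N *
        nfd)
    (ebs : R.BS w z m r - R.BS w' z' m r = N * bsd) (eds : R.DS w z m r = N * dsd)
    (egp : R.GP w z m r = N * gpd) (ebn : R.BN w z m r - R.BN w' z' m r = N * bnd)
    (e1a : R.V1A w z m r - R.V1A w' z' m r = N * v1ad)
    (e1b : R.V1B w z m r - R.V1B w' z' m r = N * v1bd)
    (e2a : R.V2A w z m r - R.V2A w' z' m r = N * v2ad)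
    (e2b : R.V2B w z m r - R.V2B w' z' m r = N * v2bd)
    (r1 : Res (m * r) r m (R.L w z) (R.A w z) (R.B w z) (nud / r) ((nud + nfd) / r) bnd bsd fo
      dsd gpd (v1ad / r + v1bd) (v2ad / r + v2bd)) (hfo : N * fo ≤ R.FO w z m r)
    (hlev : R.Lv w z m r lev) : R.Sk w z m r lev := by
  have r2 := r1.scale hN
  have fnu : R.NU w z m r = R.NU w' z' m r + N * nud := by linarith
  refine sk_of_res D eds egp ?_ ?_ hfo ?_ r2
  · rw [fnu, add_mul_div, show R.BN w z m r = R.BN w' z' m r + N * bnd by linarith]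
    have := B.i
    linarith
  · have e5 : R.NU w z m r + R.NF w z m r = (R.NU w' z' m r + R.NF w' z' m r) +
        N * (nud + nfd) := by linarith
    rw [e5, add_mul_div, show R.BS w z m r = R.BS w' z' m r + N * bsd by linarith]
    have := B.g
    linarith
  · intro F' g1 g2
    refine hlev F' ?_ ?_
    · have e7 : R.V1A w z m r / r = R.V1A w' z' m r / r + N * (v1ad / r) := by
        rw [← add_mul_div]; congr 1; linarith
      have e8 : R.V1B w z m r = R.V1B w' z' m r + N * v1bd := by linarith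
      rw [e7, e8]
      have := B.v1
      linarith
    · have e7 : R.V2A w z m r / r = R.V2A w' z' m r / r + N * (v2ad / r) := by
        rw [← add_mul_div]; congr 1; linarith
      have e8 : R.V2B w z m r = R.V2B w' z' m r + N * v2bd := by linarith
      rw [e7, e8]
      have := B.v2
      linarith

/-- leaf which tests slopes; `pu`: the slope of `u` is tested, `NB` is the value of `n / r` at
    the base point -/
noncomputable def slT {R : RowF} {q : Bool} (S : RowS R q) (u pu : Bool)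
    (c k s Wa Wb Wd Za Zb Zd M Q NB : ℕ) : Bool :=
  ckc c Q fun I =>
  pval S true Wa Wb Wd Za Zb Zd M Q fun Ua Ub Ud NUa NUb NUd NFa NFb NFd BSa BSb BSd La Lb Ld Aa
      Ab Ad Ba Bb Bd GMa GMb GMd DSa DSb DSd GPa GPb GPd V1Aa V1Ab V1Ad V1Ba V1Bb V1Bd V2Aa V2Ab
      V2Ad V2Ba V2Bb V2Bd BNa BNb BNd =>
    band (Bool.rec (motive := fun _ => Bool) true (ppos Ud) pu)
    (frc (pnorm (pmul M Q)) fun X =>
    tst (lvs u c I V1Ad V1Bd V2Ad V2Bd NUd) (lgs u c I V1Ad V1Bd V2Ad V2Bd (padd NUd NFd))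
      (los u c I V1Ad V1Bd V2Ad V2Bd NFd (padd NUd (pmul NFd (m2f.t M La)))
        (psub (padd (brf_cccvvvvvv.s X Q M La Lb Ld (pnorm (psub Aa Ba)) (pnorm (psub Ab Bb))
            (pnorm (psub Ad Bd)) NFa NFb NFd GMa GMb GMd DSa DSb DSd BSa BSb BSd)
          (pmul NB (m2f_cv.s M La Lb Ld))) (abf.t X M La Aa Ba DSd GPd)))
      k s X Q M La Aa Ba BNd BSd DSd GPd)

section

variable {E : Pt} {R : RowF} {q : Bool} {S : RowS R q} {u pu : Bool}
  {c k s Wa Wb Wd Za Zb Zd M Q NB : ℕ} {N w z w' z' m r nb lev : ℝ}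

theorem slT_sound (hw : Pr E N Wa Wb Wd w w') (hz : Pr E N Za Zb Zd z z') (hm : Enc E M m)
    (hr : Enc E Q r) (hnb : Enc E NB nb) (D : Dm R w z m r) (B : SBase R w' z' m r nb)
    (um : u = true → Um R w z m r) (um' : u = true → Um R w' z' m r)
    (hN : pu = false → 0 < N) (hlev : R.Lv w z m r lev)
    (h : slT S u pu c k s Wa Wb Wd Za Zb Zd M Q NB = true) : R.Sk w z m r lev := by
  obtain ⟨I, hI, h⟩ := ckc_sound hr D.r0 h
  obtain ⟨Ua, Ub, Ud, NUa, NUb, NUd, NFa, NFb, NFd, BSa, BSb, BSd, La, Lb, Ld, Aa, Ab, Ad, Ba,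
      Bb, Bd, GMa, GMb, GMd, DSa, DSb, DSd, GPa, GPb, GPd, V1Aa, V1Ab, V1Ad, V1Ba, V1Bb, V1Bd,
      V2Aa, V2Ab, V2Ad, V2Ba, V2Bb, V2Bd, BNa, BNb, BNd, h, F⟩ := pval_sound hw hz hm hr (fun _
      => B.u) (fun _ => B.d) h
  obtain ⟨h1, h⟩ := band_true h
  rw [frc_eq] at h
  have hN0 : 0 ≤ N := by
    rcases pu with _ | _
    · exact (hN rfl).le
    · obtain ⟨ud, kd, ed⟩ := F.u.d
      have h2 := ppos_sound kd h1
      rw [B.u, sub_zero] at ed
      have h3 : 0 ≤ N * ud := by rw [← ed]; exact D.u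
      by_contra h4
      push Not at h4
      have := mul_neg_of_neg_of_pos h4 h2
      linarith
  rcases hN0.eq_or_lt with e0 | hN1
  · obtain ⟨d1, _, e1⟩ := hw.d
    obtain ⟨d2, _, e2⟩ := hz.d
    rw [← e0, zero_mul] at e1 e2
    have f1 : w = w' := by linarith
    have f2 : z = z' := by linarith
    subst f1 f2
    exact B.sk D hlev
  have hX : Enc E (pnorm (pmul M Q)) (m * r) := enc_norm (enc_mul hm hr)
  obtain ⟨nud, knu, enu⟩ := F.nu.d
  obtain ⟨nfd, knf, enf⟩ := F.nf.d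
  obtain ⟨bsd, kbs, ebs⟩ := F.bs.d
  obtain ⟨dsd, kds, eds⟩ := F.ds.d
  obtain ⟨gpd, kgp, egp⟩ := F.gp.d
  obtain ⟨bnd, kbn, ebn⟩ := F.bn.d
  obtain ⟨v1ad, k1a, e1a⟩ := F.v1a.d
  obtain ⟨v1bd, k1b, e1b⟩ := F.v1b.d
  obtain ⟨v2ad, k2a, e2a⟩ := F.v2a.d
  obtain ⟨v2bd, k2b, e2b⟩ := F.v2b.d
  obtain ⟨m2d, km2, em2⟩ := (m2f_cv.snd hm F.l).d
  obtain ⟨brd, kbr, ebr⟩ := (brf_cccvvvvvv.snd hX hr hm F.l (pr_norm (pr_sub F.a F.b)) F.nf F.gm
    F.ds F.bs).d
  rw [B.ds, sub_zero] at eds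
  rw [B.gp, sub_zero] at egp
  rw [B.nf] at enf
  have z0 : ∀ {d : ℝ}, (0 : ℝ) - 0 = N * d → d = 0 := fun e => by
    rw [sub_zero] at e
    rcases mul_eq_zero.1 e.symm with h | h
    · exact absurd h hN1.ne'
    · exact h
  have umd : u = true → nud = 0 ∧ v1ad = 0 ∧ v2ad = 0 := fun e => by
    have a := um e
    have b := um' e
    rw [a.nu, b.nu] at enu
    rw [a.v1, b.v1] at e1a
    rw [a.v2, b.v2] at e2a
    exact ⟨z0 enu, z0 e1a, z0 e2a⟩
  have k1 := enc_add knu (enc_mul knf (m2f.enc hm F.l.l))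
  have k0 := enc_sub (enc_add kbr (enc_mul hnb km2)) (abf.enc hX hm F.l.l F.a.l F.b.l kds kgp)
  have r1 := tst_sound hX hr hm F.l.l F.a.l F.b.l kbn kbs kds kgp
    (fun h0 hh => lvs_sound hI k1a k1b k2a k2b knu umd h0 hh)
    (fun h0 hh => lgs_sound hI k1a k1b k2a k2b (enc_add knu knf) h0 hh)
    (los_sound hI k1a k1b k2a k2b knf k1
      (fun e => ⟨fun hn => by
        rw [(umd e).1, zero_add]
        refine mul_nonneg hn ?_
        rw [m2f_val]
        positivity, (umd e).2.1, (umd e).2.2⟩) k0) h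
  refine B.of_res D hN1 enu (by rw [B.nf]; exact enf) ebs eds egp ebn e1a e1b e2a e2b r1 ?_ hlev
  unfold RowF.FO
  have hm2 : (1 - m / R.L w z) ^ 2 = m2f.v m (R.L w z) := by
    rw [m2f_val, div_eq_mul_inv]
  have hbr : R.BR w z m r = R.BR w' z' m r + N * brd := by
    have : R.BR w z m r - R.BR w' z' m r = N * brd := ebr
    linarith
  have hr0 := D.r0.ne'
  have fnu : R.NU w z m r = R.NU w' z' m r + N * nud := by linarith
  have fnf : R.NF w z m r = r * nb + N * nfd := by linarith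
  have hnfr : R.NF w z m r / r = nb + N * (nfd / r) := by
    rw [fnf]
    field_simp
  rw [hm2, eds, egp, abf_scale hN1, hnfr, fnu, add_mul_div (R.NU w' z' m r) nud N r, hbr]
  have hm2b : nb * m2f.v m (R.L w z) = nb * m2f.v m (R.L w' z') + N * (nb * m2d) := by
    linear_combination nb * em2
  have h5 := B.o
  have e6 : (nud + nfd * m2f.v m (R.L w z)) / r = nud / r + nfd / r * m2f.v m (R.L w z) := by
    rw [add_div]; ring
  rw [e6]
  nlinarith [hm2b, h5]

end

/-! ### Strips and cones -/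

/-- leaf at a strip; `SD` is one or minus one -/
noncomputable def strT {R : RowF} {q : Bool} (S : RowS R q) (u : Bool) (kw : Fn2) (nb : Fn3)
    (sd c k s W Z M Q : ℕ) : Bool :=
  frc (kw.t W Q) fun KW => frc (pneg KW) fun Zb => frc (pnorm (pmul M Q)) fun X =>
  slT S u true c k s W W pzero Z Zb sd M Q (nb.t W Q X)

theorem strT_sound {E : Pt} {R : RowF} {q : Bool} {S : RowS R q} {u : Bool} {kw : Fn2} {nb : Fn3}
    {sd c k s W Z M Q : ℕ} {w z m r sg lev : ℝ} (hw : Enc E W w) (hz : Enc E Z z)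
    (hm : Enc E M m) (hr : Enc E Q r) (hs : Enc E sd sg) (hs1 : sg * sg = 1) (D : Dm R w z m r)
    (B : SBase R w (-kw.v w r) m r (nb.v w r (m * r)))
    (um : u = true → Um R w z m r) (um' : u = true → Um R w (-kw.v w r) m r)
    (hlev : R.Lv w z m r lev) (h : strT S u kw nb sd c k s W Z M Q = true) : R.Sk w z m r lev :=
        by
  unfold strT at h
  simp only [frc_eq] at h
  have hK := kw.enc hw hr
  refine slT_sound (N := sg * (z + kw.v w r)) (pr_const hw)
    ⟨hz, enc_neg hK, sg, hs, by linear_combination (-(z + kw.v w r)) * hs1⟩ hm hr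
    (nb.enc hw hr (enc_norm (enc_mul hm hr))) D B um um'
    (fun e => absurd e.symm Bool.false_ne_true) hlev h

/-- leaf at the lattice point -/
noncomputable def conT {R : RowF} {q : Bool} (S : RowS R q) (u : Bool)
    (c k s W Wd Z Zd M Q : ℕ) : Bool :=
  slT S u false c k s W pzero Wd Z pzero Zd M Q pzero

theorem conT_sound {E : Pt} {R : RowF} {q : Bool} {S : RowS R q} {u : Bool}
    {c k s W Wd Z Zd M Q : ℕ} {N w z m r wd zd lev : ℝ} (hw : Enc E W w) (hz : Enc E Z z)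
    (hwd : Enc E Wd wd) (hzd : Enc E Zd zd) (hm : Enc E M m) (hr : Enc E Q r)
    (ew : w = N * wd) (ez : z = N * zd) (hN : 0 < N) (D : Dm R w z m r)
    (B : SBase R 0 0 m r 0) (um : u = true → Um R w z m r) (um' : u = true → Um R 0 0 m r)
    (hlev : R.Lv w z m r lev) (h : conT S u c k s W Wd Z Zd M Q = true) : R.Sk w z m r lev :=
  slT_sound (N := N) ⟨hw, enc_zero E, wd, hwd, by linarith⟩ ⟨hz, enc_zero E, zd, hzd, by linarith⟩
    hm hr (enc_zero E) D B um um' (fun _ => hN) hlev h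

/-- exit at the lattice point -/
noncomputable def cexT {R : RowF} {q : Bool} (S : RowS R q) (W Wd Z Zd M Q : ℕ) : Bool :=
  ppos (pneg (S.u.s W pzero Wd Z pzero Zd M Q))

theorem cexT_sound {E : Pt} {R : RowF} {q : Bool} {S : RowS R q}
    {W Wd Z Zd M Q : ℕ} {N w z m r wd zd : ℝ} (hw : Enc E W w) (hz : Enc E Z z)
    (hwd : Enc E Wd wd) (hzd : Enc E Zd zd) (hm : Enc E M m) (hr : Enc E Q r)
    (ew : w = N * wd) (ez : z = N * zd) (hN : 0 < N) (D : Dm R w z m r)
    (hu : R.U 0 0 m r = 0) (h : cexT S W Wd Z Zd M Q = true) : False := by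
  unfold cexT at h
  obtain ⟨ud, ku, eu⟩ := (S.u.snd (N := N) ⟨hw, enc_zero E, wd, hwd, by linarith⟩
    ⟨hz, enc_zero E, zd, hzd, by linarith⟩ hm hr).d
  have h1 := ppos_sound (enc_neg ku) h
  have h2 : R.U w z m r - R.U 0 0 m r = N * ud := eu
  rw [hu, sub_zero] at h2
  have h3 := D.u
  have h4 : 0 < N * -ud := mul_pos hN h1
  linarith

end Pool.Agent.Strip051.LC.E1.Ch
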