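import Pool.Agent.Strip051.LC.E1.Ch.Fns
import Pool.Agent.Strip051.LC.E1.Ch.Va
import Pool.Agent.Strip051.LC.E1.Fn

/-! # Rests near the full period: the values of the functions of the rows

The constants, the positions, the unit kernels and the levels. -/

set_option linter.unusedVariables false
set_option linter.unusedSimpArgs false

namespace Pool.Agent.Strip051.LC.E1.Ch

open Pool.Agent.Strip051.PB
open Pool.Agent.Strip051.LC.E1.G (hg)

/-! ### Constants -/

theorem mu_val' (x : ℝ) : mu.v x = G.mu x := by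
  rw [mu_val]
  unfold G.mu
  rw [one_div, add_comm]

theorem lmf_val (x : ℝ) : lmf.v x = G.LAM x := by
  simp only [lmf, gs_val]
  push_cast
  unfold G.LAM
  try ring

theorem n1f_val (x : ℝ) : n1f.v x = 1 + G.LAM x * G.mu x := by
  simp only [n1f, lmf_val, mu_val']
  push_cast
  try ring

theorem b0f_val (x : ℝ) : b0f.v x = G.B0 x := by
  simp only [b0f, lmf_val, eh_val]
  push_cast
  unfold G.B0
  rw [div_eq_mul_inv]

theorem bef_val (x : ℝ) : bef.v x = G.be x := by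
  simp only [bef, n1f_val, mu_val', b0f_val]
  push_cast
  unfold G.be
  try ring

theorem tpf_val (x : ℝ) : tpf.v x = G.eh x + 1 := by
  simp only [tpf, eh_val]
  push_cast
  try ring

theorem hhf_val (x : ℝ) : hhf.v x = G.eh x + 1 / 2 := by
  simp only [hhf, eh_val]
  push_cast
  try ring

theorem prf_val (x : ℝ) : prf.v x = G.pK x := by
  simp only [prf, eh_val, qo_val, gs_val]
  push_cast
  unfold G.pK
  rw [div_eq_mul_inv _ (2 * (G.eh x * G.gs x))]
  try ring

theorem pbf_val (x : ℝ) : pbf.v x = G.pB x := by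
  simp only [pbf, b0f_val, qo_val]
  push_cast
  unfold G.pB
  try ring

theorem dwf_val (x : ℝ) : dwf.v x = G.dW x := by
  simp only [dwf, hhf_val, qo_val, gs_val, eh_val]
  push_cast
  unfold G.dW
  rw [div_eq_mul_inv _ (2 * (G.gs x * G.eh x))]
  try ring

theorem vw0_val (x : ℝ) : vw0.v x = G.vW0 x := by
  simp only [vw0, prf_val, tpf_val, hhf_val, qo_val, dwf_val, ig_val]
  push_cast
  unfold G.vW0
  rw [div_eq_mul_inv _ (G.eh x + 1)]
  try ring

/-! ### Positions -/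

theorem qw_val (w r : ℝ) : qw.v w r = E0.G.qw w r := by
  simp only [qw]
  push_cast
  unfold E0.G.qw
  congr 1
  try ring

theorem om_val (w r : ℝ) : om.v w r = E0.G.om w r := by
  simp only [om, qw_val]
  push_cast
  unfold E0.G.om
  rw [div_eq_mul_inv _ (1 + E0.G.qw w r)]
  try ring

theorem cc1_val (z r : ℝ) : cc1.v z r = E0.G.cc1 z r := by
  simp only [cc1]
  push_cast
  unfold E0.G.cc1
  congr 1
  try ring

theorem cc3_val (z r : ℝ) : cc3.v z r = E0.G.cc3 z r := by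
  simp only [cc3]
  push_cast
  unfold E0.G.cc3
  congr 1
  try ring

/-- `-xi1 / z`. -/
noncomputable def D1 (z r : ℝ) : ℝ := 3 / 4 * (2 + r * z) / (1 / 2 + E0.G.cc1 z r)

/-- `-xi3 / z`. -/
noncomputable def D3 (z r : ℝ) : ℝ := 3 / 4 * (2 + r * z) / (3 / 2 + E0.G.cc3 z r)

theorem xi1_D (z r : ℝ) : E0.G.xi1 z r = -(z * D1 z r) := by
  unfold E0.G.xi1 D1
  try ring

theorem xi3_D (z r : ℝ) : E0.G.xi3 z r = -(z * D3 z r) := by
  unfold E0.G.xi3 D3
  try ring

theorem sg1_D (z r : ℝ) : E0.G.sg1 z r = z * (1 / 2 + D1 z r) := by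
  unfold E0.G.sg1
  rw [xi1_D]
  try ring

theorem sg3_D (z r : ℝ) : E0.G.sg3 z r = z * (1 / 2 + D3 z r / 3) := by
  unfold E0.G.sg3
  rw [xi3_D]
  try ring

theorem dd1_val (z r : ℝ) : dd1.v z r = D1 z r := by
  simp only [dd1, cc1_val]
  push_cast
  unfold D1
  rw [div_eq_mul_inv _ (1 / 2 + E0.G.cc1 z r)]
  try ring

theorem dd3_val (z r : ℝ) : dd3.v z r = D3 z r := by
  simp only [dd3, cc3_val]
  push_cast
  unfold D3
  rw [div_eq_mul_inv _ (3 / 2 + E0.G.cc3 z r)]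
  try ring

theorem xi1_val (z r : ℝ) : xi1.v z r = E0.G.xi1 z r := by
  simp only [xi1, dd1_val]
  rw [xi1_D]

theorem xi3_val (z r : ℝ) : xi3.v z r = E0.G.xi3 z r := by
  simp only [xi3, dd3_val]
  rw [xi3_D]

theorem sg1_val (z r : ℝ) : sg1.v z r = E0.G.sg1 z r := by
  simp only [sg1, dd1_val]
  rw [sg1_D]
  push_cast
  try ring

theorem sg3_val (z r : ℝ) : sg3.v z r = E0.G.sg3 z r := by
  simp only [sg3, dd3_val]
  rw [sg3_D]
  push_cast
  try ring

theorem xiw_val (z r : ℝ) : xiw.v z r = E0.G.xiw z r := by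
  simp only [xiw, om_val]
  unfold E0.G.xiw
  push_cast
  try ring

theorem zx_val (w r : ℝ) : zx.v w r = -(r * E0.G.om w r) := by
  simp only [zx, om_val]

theorem dwl_val (z r : ℝ) : dwl.v z r = E0.G.dwl z r := by
  simp only [dwl, xiw_val, xi1_val]
  unfold E0.G.dwl
  push_cast
  try ring

theorem dwu_val (z r : ℝ) : dwu.v z r = E0.G.dwu z r := by
  simp only [dwu, xiw_val, xi3_val]
  unfold E0.G.dwu
  push_cast
  try ring

theorem xw0p_val (w r : ℝ) : xw0p.v w r = E0.G.xi1 (-w) r := by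
  simp only [xw0p, dd1_val]
  rw [xi1_D]
  try ring

theorem ic1_val (z r : ℝ) :
    ic1.v z r = (1 + (E0.G.cc1 z r / 2 + 3 / 4 * (1 + r * z)))⁻¹ := by
  simp only [ic1, cc1_val]
  push_cast
  congr 1
  try ring

theorem ic3_val (z r : ℝ) :
    ic3.v z r = (1 + (E0.G.cc3 z r / 2 + 1 / 4 * (1 + r * z)))⁻¹ := by
  simp only [ic3, cc3_val]
  push_cast
  congr 1
  try ring

/-! ### Hinges -/

theorem hg_le {x : ℝ} (h : x ≤ 0) : hg x = 0 := max_eq_right h

theorem hg_ge {x : ℝ} (h : 0 ≤ x) : hg x = x := max_eq_left h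

/-- `√3 / 2`. -/
theorem sh_lt : Real.sqrt 3 / 2 < 867 / 1000 := by
  have h : Real.sqrt 3 < 1734 / 1000 := by
    rw [Real.sqrt_lt' (by norm_num)]
    norm_num
  linarith

theorem sh_nn : 0 ≤ Real.sqrt 3 / 2 := by positivity

theorem sh_sq : (Real.sqrt 3 / 2) ^ 2 = 3 / 4 := by
  rw [div_pow, Real.sq_sqrt (by norm_num)]
  norm_num

/-- A hinge with a knot which does not depend on the scale. -/
theorem hgf0 {r X k c : ℝ} (hr : 0 < r) (h : r < c → r * X ≤ k) :
    hg (X - k / r) = max (r * X - k) 0 * (max r c)⁻¹ := by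
  rcases lt_or_ge r c with h1 | h1
  · have h2 := h h1
    have h3 : X ≤ k / r := by
      rw [le_div_iff₀ hr]
      linarith
    rw [hg_le (by linarith), max_eq_right (by linarith : r * X - k ≤ 0), zero_mul]
  · rw [max_eq_left h1]
    unfold hg
    rw [max_mul_of_nonneg _ _ (inv_nonneg.2 hr.le), zero_mul]
    congr 1
    field_simp

theorem hgf {r X k : ℝ} (hr : 0 < r) (h : r < 1 / 100 → r * X ≤ k) :
    hg (X - k / r) = max (r * X - k) 0 * (max r (1 / 100))⁻¹ := hgf0 hr h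

/-- The hinge in the other order of the factors. -/
theorem hgf' {r s a b : ℝ} (hr : 0 < r) (hb : 0 < b)
    (h : r < 1 / 100 → r * (Real.sqrt 3 / 2 * s) ≤ a / b) :
    hg (Real.sqrt 3 / 2 * s - a / (b * r)) =
      max (r * (Real.sqrt 3 / 2 * s) - a / b) 0 * (max r (1 / 100))⁻¹ := by
  rw [← hgf hr h]
  congr 2
  field_simp

theorem hgz {r s a b : ℝ} (hr : 0 < r) (hb : 0 < b) (h : r * (Real.sqrt 3 / 2 * s) ≤ a / b) :
    hg (Real.sqrt 3 / 2 * s - a / (b * r)) = 0 := by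
  apply hg_le
  have : a / (b * r) = a / b / r := by field_simp
  rw [this, sub_nonpos, le_div_iff₀ hr]
  linarith

theorem rT_le {r s c : ℝ} (hc : 0 ≤ c) (h : r * s ≤ c) :
    r * (Real.sqrt 3 / 2 * s) ≤ 867 / 1000 * c := by
  have h1 := sh_lt
  have h2 := sh_nn
  have h3 : r * (Real.sqrt 3 / 2 * s) = Real.sqrt 3 / 2 * (r * s) := by ring
  rw [h3]
  rcases le_or_gt (r * s) 0 with h4 | h4
  · nlinarith
  · nlinarith

/-! ### The unit kernels -/

section

variable {r : ℝ} (hr : 0 < r) (t m : ℝ)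

include hr

theorem ku_val (h : r < 1 / 100 → r * t ≤ 3 / 50) : ku.v t m r (m * r) = G.kU r m t := by
  unfold G.kU G.uR
  rw [hgf' (a := 1) (b := 16) hr (by norm_num) (fun h' => (rT_le (by norm_num) (h h')).trans
      (by norm_num)),
    hgf' (a := 1) (b := 10) hr (by norm_num) (fun h' => (rT_le (by norm_num) (h h')).trans
      (by norm_num))]
  simp only [ku, ku_5, ku_7, ku_10, ku_41, u2k, u2k_3, u4k, u4k_2, prf_val, eh_val]
  push_cast
  simp only [G.u1, G.u2, G.u3, G.u4, G.u5, G.u6, G.u7, hg]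
  try ring

theorem kv_val (h : r < 1 / 100 → r * t ≤ 3 / 50) : kv.v t m r (m * r) = G.bU r m t := by
  unfold G.bU G.uR
  rw [hgf' (a := 1) (b := 16) hr (by norm_num) (fun h' => (rT_le (by norm_num) (h h')).trans
      (by norm_num)),
    hgf' (a := 1) (b := 10) hr (by norm_num) (fun h' => (rT_le (by norm_num) (h h')).trans
      (by norm_num))]
  simp only [kv, kv_37, kv_45, kv_50, u1b, u2b, u3b, u4b, u5b, pbf_val, eh_val, b0f_val]
  push_cast
  simp only [G.u1, G.u2, G.u3, G.u4, G.u5, G.u6, G.u7, hg]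
  try ring

end

/-! ### Coordinates of heights -/

/-- A coordinate of a height. -/
structure Hc (r m h : ℝ) : Prop where
  r0 : 0 < r
  a : |r * h| ≤ 1 / 16
  b : r < 1 / 100 → |r * h| ≤ 1 / 40
  c : r < 1 / 1000 → 9 / 4 * |r * h| ≤ 17 / 5000 + 5 / 2 * (m * r)

theorem Hc.neg {r m h : ℝ} (H : Hc r m h) : Hc r m (-h) :=
  ⟨H.r0, by rw [mul_neg, abs_neg]; exact H.a, fun e => by rw [mul_neg, abs_neg]; exact H.b e,
    fun e => by rw [mul_neg, abs_neg]; exact H.c e⟩

theorem tn {r m t : ℝ} (h : |r * t| ≤ 17 / 5000 + 5 / 2 * (m * r)) :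
    r * (t - 5 / 2 * m) ≤ 17 / 5000 := by
  have := le_abs_self (r * t)
  linarith

section

variable {r m h : ℝ} (H : Hc r m h)

include H

theorem cc1_ge : 39 / 100 ≤ E0.G.cc1 h r := by
  have h1 := abs_le.1 H.a
  exact Real.le_sqrt_of_sq_le (by nlinarith)

theorem cc3_ge : 146 / 100 ≤ E0.G.cc3 h r := by
  have h1 := abs_le.1 H.a
  exact Real.le_sqrt_of_sq_le (by nlinarith)

theorem D1_b : 0 ≤ D1 h r ∧ D1 h r ≤ 7 / 4 := by
  have h1 := abs_le.1 H.a
  have h2 := cc1_ge H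
  unfold D1
  constructor
  · apply div_nonneg <;> linarith
  · rw [div_le_iff₀ (by linarith)]
    linarith

theorem D3_b : 0 ≤ D3 h r ∧ D3 h r ≤ 11 / 20 := by
  have h1 := abs_le.1 H.a
  have h2 := cc3_ge H
  unfold D3
  constructor
  · apply div_nonneg <;> linarith
  · rw [div_le_iff₀ (by linarith)]
    linarith

theorem rsg1_le {c : ℝ} (hc : |r * h| ≤ c) : |r * E0.G.sg1 h r| ≤ 9 / 4 * c := by
  have h1 := D1_b H
  have h2 : r * E0.G.sg1 h r = r * h * (1 / 2 + D1 h r) := by rw [sg1_D]; ring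
  have h3 : |1 / 2 + D1 h r| ≤ 9 / 4 := by rw [abs_le]; constructor <;> linarith
  rw [h2, abs_mul]
  have := abs_nonneg (r * h)
  have := abs_nonneg (1 / 2 + D1 h r)
  nlinarith

theorem rsg3_le {c : ℝ} (hc : |r * h| ≤ c) : |r * E0.G.sg3 h r| ≤ 137 / 200 * c := by
  have h1 := D3_b H
  have h2 : r * E0.G.sg3 h r = r * h * (1 / 2 + D3 h r / 3) := by rw [sg3_D]; ring
  have h3 : |1 / 2 + D3 h r / 3| ≤ 137 / 200 := by rw [abs_le]; constructor <;> linarith
  rw [h2, abs_mul]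
  have := abs_nonneg (r * h)
  have := abs_nonneg (1 / 2 + D3 h r / 3)
  nlinarith

theorem sg1_far : r < 1 / 100 → |r * E0.G.sg1 h r| ≤ 3 / 50 := fun e =>
  (rsg1_le H (H.b e)).trans (by norm_num)

theorem sg3_far : r < 1 / 100 → |r * E0.G.sg3 h r| ≤ 3 / 50 := fun e =>
  (rsg3_le H (H.b e)).trans (by norm_num)

theorem h_far : r < 1 / 100 → |r * h| ≤ 3 / 50 := fun e => (H.b e).trans (by norm_num)

theorem sg1_T : r < 1 / 1000 → |r * E0.G.sg1 h r| ≤ 17 / 5000 + 5 / 2 * (m * r) := fun e =>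
  (rsg1_le H le_rfl).trans (H.c e)

theorem sg3_T : r < 1 / 1000 → |r * E0.G.sg3 h r| ≤ 17 / 5000 + 5 / 2 * (m * r) := fun e => by
  have h1 := rsg3_le H le_rfl
  have h2 := H.c e
  have := abs_nonneg (r * h)
  linarith

theorem h_T : r < 1 / 1000 → |r * h| ≤ 17 / 5000 + 5 / 2 * (m * r) := fun e => by
  have h2 := H.c e
  have := abs_nonneg (r * h)
  linarith

end

/-! ### The circles -/

section

variable {r m z : ℝ} (H : Hc r m z)

include H

theorem k1p_val : k1p.v z m r (m * r) = (G.C1u r m z).k := by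
  have h := ku_val H.r0 (E0.G.sg1 z r) m (fun e => (le_abs_self _).trans (sg1_far H e))
  simp only [k1p, k1p_5, sg1_val, ic1_val, h]
  unfold G.C1u G.g1
  rw [div_eq_mul_inv _ (1 + (E0.G.cc1 z r / 2 + 3 / 4 * (1 + r * z)))]
  push_cast
  try ring

theorem k1m_val : k1m.v z m r (m * r) = (G.C1d r m z).k := by
  have h := ku_val H.r0 (-E0.G.sg1 z r) m (fun e => by
    rw [mul_neg]; exact (neg_le_abs _).trans (sg1_far H e))
  simp only [k1m, k1m_6, sg1_val, ic1_val, h]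
  unfold G.C1d G.g1
  rw [div_eq_mul_inv _ (1 + (E0.G.cc1 z r / 2 + 3 / 4 * (1 + r * z)))]
  push_cast
  try ring

theorem b1p_val : b1p.v z m r (m * r) = (G.C1u r m z).b := by
  have h := kv_val H.r0 (E0.G.sg1 z r) m (fun e => (le_abs_self _).trans (sg1_far H e))
  simp only [b1p, b1p_5, sg1_val, ic1_val, b0f_val, h]
  unfold G.C1u G.g1
  rw [div_eq_mul_inv _ (1 + (E0.G.cc1 z r / 2 + 3 / 4 * (1 + r * z)))]
  push_cast
  try ring

theorem b1m_val : b1m.v z m r (m * r) = (G.C1d r m z).b := by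
  have h := kv_val H.r0 (-E0.G.sg1 z r) m (fun e => by
    rw [mul_neg]; exact (neg_le_abs _).trans (sg1_far H e))
  simp only [b1m, b1m_6, sg1_val, ic1_val, b0f_val, h]
  unfold G.C1d G.g1
  rw [div_eq_mul_inv _ (1 + (E0.G.cc1 z r / 2 + 3 / 4 * (1 + r * z)))]
  push_cast
  try ring

theorem k3p_val : k3p.v z m r (m * r) = (G.C3u r m z).k := by
  have h := ku_val H.r0 (E0.G.sg3 z r) m (fun e => (le_abs_self _).trans (sg3_far H e))
  simp only [k3p, k3p_5, sg3_val, ic3_val, h]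
  unfold G.C3u G.g3
  rw [div_eq_mul_inv _ (1 + (E0.G.cc3 z r / 2 + 1 / 4 * (1 + r * z)))]
  push_cast
  try ring

theorem k3m_val : k3m.v z m r (m * r) = (G.C3d r m z).k := by
  have h := ku_val H.r0 (-E0.G.sg3 z r) m (fun e => by
    rw [mul_neg]; exact (neg_le_abs _).trans (sg3_far H e))
  simp only [k3m, k3m_6, sg3_val, ic3_val, h]
  unfold G.C3d G.g3
  rw [div_eq_mul_inv _ (1 + (E0.G.cc3 z r / 2 + 1 / 4 * (1 + r * z)))]
  push_cast
  try ring

theorem b3p_val : b3p.v z m r (m * r) = (G.C3u r m z).b := by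
  have h := kv_val H.r0 (E0.G.sg3 z r) m (fun e => (le_abs_self _).trans (sg3_far H e))
  simp only [b3p, b3p_5, sg3_val, ic3_val, b0f_val, h]
  unfold G.C3u G.g3
  rw [div_eq_mul_inv _ (1 + (E0.G.cc3 z r / 2 + 1 / 4 * (1 + r * z)))]
  push_cast
  try ring

theorem b3m_val : b3m.v z m r (m * r) = (G.C3d r m z).b := by
  have h := kv_val H.r0 (-E0.G.sg3 z r) m (fun e => by
    rw [mul_neg]; exact (neg_le_abs _).trans (sg3_far H e))
  simp only [b3m, b3m_6, sg3_val, ic3_val, b0f_val, h]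
  unfold G.C3d G.g3
  rw [div_eq_mul_inv _ (1 + (E0.G.cc3 z r / 2 + 1 / 4 * (1 + r * z)))]
  push_cast
  try ring

end

end Pool.Agent.Strip051.LC.E1.Ch
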