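import Pool.Agent.Strip051.LC.E1.Ch.Val1

/-! # Rests near the full period: the values of the functions of the rows

The levels, the curves `W`, the tables and the cells next to `h0`. -/

set_option linter.unusedVariables false
set_option linter.unusedSimpArgs false

namespace Pool.Agent.Strip051.LC.E1.Ch

open Pool.Agent.Strip051.PB
open Pool.Agent.Strip051.LC.E1.G (hg)

/-! ### Levels -/

theorem s3q (a b : ℝ) : (Real.sqrt 3 / 2 * a / b) ^ 2 = 3 / 4 * (a * b⁻¹) ^ 2 := by
  rw [mul_div_assoc, mul_pow, sh_sq, div_eq_mul_inv a b]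

section

variable {r : ℝ} (hr : 0 < r) (t m : ℝ)

include hr

theorem lva_val (h : r < 1 / 100 → r * t ≤ 3 / 50) (h' : r * t ≤ 1 / 16) :
    lva.v t m r (m * r) = G.LAM (m * r) * G.aL (m * r) r m t := by
  unfold G.aL
  simp only [s3q]
  rw [hgz (a := 29) (b := 400) hr (by norm_num) ((rT_le (by norm_num) h').trans (by norm_num)),
    hgz (a := 9) (b := 100) hr (by norm_num) ((rT_le (by norm_num) h').trans (by norm_num)),
    hgz (a := 3) (b := 25) hr (by norm_num) ((rT_le (by norm_num) h').trans (by norm_num))]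
  simp only [lva, lmf_val, hg]
  push_cast
  try ring

theorem lvm_val (h : r < 1 / 100 → r * t ≤ 3 / 50) :
    lvm.v t m r (m * r) = G.LAM (m * r) * G.bL (m * r) r m t := by
  unfold G.bL
  simp only [s3q]
  rw [hgf' (a := 29) (b := 400) hr (by norm_num) (fun e => (rT_le (by norm_num) (h e)).trans
      (by norm_num)),
    hgf' (a := 9) (b := 100) hr (by norm_num) (fun e => (rT_le (by norm_num) (h e)).trans
      (by norm_num)),
    hgf' (a := 3) (b := 25) hr (by norm_num) (fun e => (rT_le (by norm_num) (h e)).trans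
      (by norm_num))]
  simp only [lvm, lvm_6, lvm_24, lvm_27, lmf_val, hg]
  push_cast
  try ring

theorem lvp_val (h : r < 1 / 100 → r * t ≤ 3 / 50) :
    lvp.v t m r (m * r) = G.LAM (m * r) * (G.aL (m * r) r m t - G.bL (m * r) r m t) := by
  unfold G.aL G.bL
  simp only [s3q]
  rw [hgf' (a := 29) (b := 400) hr (by norm_num) (fun e => (rT_le (by norm_num) (h e)).trans
      (by norm_num)),
    hgf' (a := 9) (b := 100) hr (by norm_num) (fun e => (rT_le (by norm_num) (h e)).trans
      (by norm_num)),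
    hgf' (a := 3) (b := 25) hr (by norm_num) (fun e => (rT_le (by norm_num) (h e)).trans
      (by norm_num))]
  simp only [lvp, lvp_6, lvp_24, lvp_27, lmf_val, hg]
  push_cast
  try ring

theorem lvq_val (h' : r * t ≤ 1 / 16) :
    lvq.v t m r (m * r) = G.LAM (m * r) * (2 * G.aL (m * r) r m t - G.bL (m * r) r m t) := by
  unfold G.aL G.bL
  simp only [s3q]
  rw [hgz (a := 29) (b := 400) hr (by norm_num) ((rT_le (by norm_num) h').trans (by norm_num)),
    hgz (a := 9) (b := 100) hr (by norm_num) ((rT_le (by norm_num) h').trans (by norm_num)),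
    hgz (a := 3) (b := 25) hr (by norm_num) ((rT_le (by norm_num) h').trans (by norm_num))]
  simp only [lvq, lmf_val, hg]
  push_cast
  try ring

theorem lvn_val (h' : r * t ≤ 1 / 16) :
    lvn.v t m r (m * r) = G.LAM (m * r) * (G.aL (m * r) r m t + G.bL (m * r) r m t) := by
  unfold G.aL G.bL
  simp only [s3q]
  rw [hgz (a := 29) (b := 400) hr (by norm_num) ((rT_le (by norm_num) h').trans (by norm_num)),
    hgz (a := 9) (b := 100) hr (by norm_num) ((rT_le (by norm_num) h').trans (by norm_num)),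
    hgz (a := 3) (b := 25) hr (by norm_num) ((rT_le (by norm_num) h').trans (by norm_num))]
  simp only [lvn, lmf_val, hg]
  push_cast
  try ring

end

section

variable {r m z : ℝ} (H : Hc r m z)

include H

theorem l1p_val : l1p.v z m r (m * r) = (G.C1u r m z).cB := by
  have h := lvp_val H.r0 (E0.G.sg1 z r) m (fun e => (le_abs_self _).trans (sg1_far H e))
  simp only [l1p, sg1_val, h]
  unfold G.C1u
  try ring

theorem l1m_val : l1m.v z m r (m * r) = (G.C1d r m z).cB := by
  have h := lvm_val H.r0 (-E0.G.sg1 z r) m (fun e => by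
    rw [mul_neg]; exact (neg_le_abs _).trans (sg1_far H e))
  simp only [l1m, sg1_val, h]
  unfold G.C1d
  try ring

theorem l3p_val : l3p.v z m r (m * r) = (G.C3u r m z).cB := by
  have h := lvq_val H.r0 (E0.G.sg3 z r) m
    ((le_abs_self _).trans ((rsg3_le H H.a).trans (by norm_num)))
  simp only [l3p, sg3_val, h]
  unfold G.C3u
  try ring

theorem l3m_val : l3m.v z m r (m * r) = (G.C3d r m z).cB := by
  have h := lvn_val H.r0 (-E0.G.sg3 z r) m (by
    rw [mul_neg]; exact (neg_le_abs _).trans ((rsg3_le H H.a).trans (by norm_num)))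
  simp only [l3m, sg3_val, h]
  unfold G.C3d
  try ring

end

/-! ### The curves `W` -/

theorem kwu_val (z m r : ℝ) : kwu.v z m r (m * r) = (G.W2 r m z).k := by
  simp only [kwu, xiw_val]
  unfold G.W2 G.wK2 G.tl hg
  push_cast
  try ring

theorem bwu_val (z m r : ℝ) : bwu.v z m r (m * r) = (G.W2 r m z).b := by
  simp only [bwu, xiw_val, b0f_val]
  unfold G.W2 G.wB2 G.tl hg
  push_cast
  try ring

theorem xwu_val (z m r : ℝ) : xwu.v z m r (m * r) = (G.W2 r m z).cA := by
  simp only [xwu, lmf_val]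
  unfold G.W2 hg
  push_cast
  try ring

theorem kwl_val (z m r : ℝ) : kwl.v z m r (m * r) = (G.W1 r m z).k := by
  simp only [kwl, kwl_4, xiw_val]
  unfold G.W1 G.wK1 G.tl hg
  push_cast
  try ring

theorem bwl_val (z m r : ℝ) : bwl.v z m r (m * r) = (G.W1 r m z).b := by
  simp only [bwl, bwl_4, xiw_val, b0f_val]
  unfold G.W1 G.wB1 G.tl hg
  push_cast
  try ring

theorem xwl_val (z m r : ℝ) : xwl.v z m r (m * r) = (G.W1 r m z).cA := by
  simp only [xwl, lmf_val]
  unfold G.W1 hg
  push_cast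
  try ring

/-! ### The tables -/

theorem t1k_val (z m r : ℝ) : t1k.v (-(r * z)) (m * r) = G.fKa r z := by
  simp only [t1k]
  unfold G.fKa hg
  push_cast
  try ring

theorem t1b_val (z m r : ℝ) : t1b.v (-(r * z)) (m * r) = G.fBa r z := by
  simp only [t1b]
  unfold G.fBa hg
  push_cast
  try ring

theorem t1x_val (z m r : ℝ) : t1x.v (-(r * z)) (m * r) = G.fXa r m z := by
  simp only [t1x]
  unfold G.fXa hg
  push_cast
  try ring

theorem t2k_val (z m r : ℝ) : t2k.v (-(r * z)) (m * r) = G.fKc r z := by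
  simp only [t2k]
  unfold G.fKc hg
  push_cast
  try ring

theorem t2b_val (z m r : ℝ) : t2b.v (-(r * z)) (m * r) = G.fBc r z := by
  simp only [t2b]
  unfold G.fBc hg
  push_cast
  try ring

theorem t2x_val (z m r : ℝ) : t2x.v (-(r * z)) (m * r) = G.fXc r m z := by
  simp only [t2x]
  unfold G.fXc hg
  push_cast
  try ring

theorem t5k_val (z m r : ℝ) : t5k.v (r * z) (m * r) = G.fKb r z := by
  simp only [t5k]
  unfold G.fKb hg
  push_cast
  try ring

theorem t5b_val (z m r : ℝ) : t5b.v (r * z) (m * r) = G.fBb r z := by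
  simp only [t5b]
  unfold G.fBb hg
  push_cast
  try ring

theorem t5x_val (z m r : ℝ) : t5x.v (r * z) (m * r) = G.fXb r m z := by
  simp only [t5x]
  unfold G.fXb hg
  push_cast
  try ring

theorem t6k_val (z m r : ℝ) : t6k.v (r * z) (m * r) = G.fKd r z := by
  simp only [t6k]
  unfold G.fKd hg
  push_cast
  try ring

theorem t6b_val (z m r : ℝ) : t6b.v (r * z) (m * r) = G.fBd r z := by
  simp only [t6b]
  unfold G.fBd hg
  push_cast
  try ring

theorem t6x_val (z m r : ℝ) : t6x.v (r * z) (m * r) = G.fXd r m z := by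
  simp only [t6x]
  unfold G.fXd hg
  push_cast
  try ring

/-! ### The cells -/

/-- The values on a cell: `K`, `A`, `B`, `C` are the values at the side, `sK`, `sA`, `sB`, `sC` the
slopes. -/
structure Cel (s : Sv) (r u K A B C sK sA sB sC : ℝ) : Prop where
  k : s.k = K + u * sK
  b : s.b = C + u * sC
  c : s.c r = (A + u * sA) / r + (B + u * sB)

theorem Cel.of {s : Sv} {r u K A B C sK sA sB sC : ℝ} (k : s.k = K + u * sK)
    (a : s.cA = A + u * sA) (b : s.cB = B + u * sB) (c : s.b = C + u * sC) :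
    Cel s r u K A B C sK sA sB sC :=
  ⟨k, c, by unfold Sv.c; rw [a, b]⟩

theorem inv_c (c d : ℝ) : (c * d)⁻¹ = c⁻¹ * d⁻¹ := mul_inv c d

section

variable {r m z : ℝ} (H : Hc r m z) (xi : ℝ)

include H

theorem th_P12 : Cel (G.Pa xi r m z) r (xi - E0.G.xi1 z r) (k1m.v z m r (m * r)) 0
    (l1m.v z m r (m * r)) (b1m.v z m r (m * r)) (s_12k.v z m r (m * r)) (s_12x.v z m r (m * r))
    (-(r * l1m.v z m r (m * r) * (1 / 5 * E0.G.dwl z r)⁻¹)) (s_12b.v z m r (m * r)) := by
  apply Cel.of
  · simp only [s_12k, s_12k_11, k1m_val H, t1k_val, xi1_val, dwl_val]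
    unfold G.Pa G.xa
    simp only [div_eq_mul_inv, inv_c]
    push_cast
    try ring
  · simp only [s_12x, s_12x_11, lmf_val, t1x_val, xi1_val, dwl_val]
    unfold G.Pa G.xa
    simp only [div_eq_mul_inv, inv_c]
    push_cast
    try ring
  · rw [l1m_val H]
    unfold G.Pa
    simp only [div_eq_mul_inv, inv_c]
    try ring
  · simp only [s_12b, s_12b_11, b1m_val H, t1b_val, xi1_val, dwl_val, b0f_val]
    unfold G.Pa G.xa
    simp only [div_eq_mul_inv, inv_c]
    push_cast
    try ring

theorem th_PW5 : Cel (G.Pb xi r m z) r (xi - E0.G.xiw z r) (kwu.v z m r (m * r))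
    (xwu.v z m r (m * r)) 0 (bwu.v z m r (m * r)) (s_W5k.v z m r (m * r))
    (s_W5x.v z m r (m * r)) 0 (s_W5b.v z m r (m * r)) := by
  apply Cel.of
  · simp only [s_W5k, s_W5k_10, kwu_val, t5k_val, xiw_val, dwu_val]
    unfold G.Pb G.xb
    simp only [div_eq_mul_inv, inv_c]
    push_cast
    try ring
  · simp only [s_W5x, s_W5x_10, lmf_val, xwu_val, t5x_val, xiw_val, dwu_val]
    unfold G.Pb G.xb
    simp only [div_eq_mul_inv, inv_c]
    push_cast
    try ring
  · unfold G.Pb
    simp
  · simp only [s_W5b, s_W5b_10, bwu_val, t5b_val, xiw_val, dwu_val, b0f_val]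
    unfold G.Pb G.xb
    simp only [div_eq_mul_inv, inv_c]
    push_cast
    try ring

theorem th_Q6W : Cel (G.Pc xi r m z) r (E0.G.xiw z r - xi) (kwl.v z m r (m * r))
    (xwl.v z m r (m * r)) 0 (bwl.v z m r (m * r)) (-s_6Wk.v z m r (m * r))
    (-s_6Wx.v z m r (m * r)) 0 (-s_6Wb.v z m r (m * r)) := by
  apply Cel.of
  · simp only [s_6Wk, s_6Wk_11, kwl_val, t2k_val, xiw_val, dwl_val]
    unfold G.Pc G.xc
    simp only [div_eq_mul_inv, inv_c]
    push_cast
    try ring
  · simp only [s_6Wx, s_6Wx_11, lmf_val, xwl_val, t2x_val, xiw_val, dwl_val]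
    unfold G.Pc G.xc
    simp only [div_eq_mul_inv, inv_c]
    push_cast
    try ring
  · unfold G.Pc
    simp
  · simp only [s_6Wb, s_6Wb_11, bwl_val, t2b_val, xiw_val, dwl_val, b0f_val]
    unfold G.Pc G.xc
    simp only [div_eq_mul_inv, inv_c]
    push_cast
    try ring

theorem th_Q63 : Cel (G.Pd xi r m z) r (E0.G.xi3 z r - xi) (k3p.v z m r (m * r)) 0
    (l3p.v z m r (m * r)) (b3p.v z m r (m * r)) (-s_63k.v z m r (m * r))
    (-s_63x.v z m r (m * r)) (-(r * l3p.v z m r (m * r) * (2 / 5 * E0.G.dwu z r)⁻¹))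
    (-s_63b.v z m r (m * r)) := by
  apply Cel.of
  · simp only [s_63k, s_63k_10, k3p_val H, t6k_val, xi3_val, dwu_val]
    unfold G.Pd G.xd
    simp only [div_eq_mul_inv, inv_c]
    push_cast
    try ring
  · simp only [s_63x, s_63x_10, lmf_val, t6x_val, xi3_val, dwu_val]
    unfold G.Pd G.xd
    simp only [div_eq_mul_inv, inv_c]
    push_cast
    try ring
  · rw [l3p_val H]
    unfold G.Pd
    simp only [div_eq_mul_inv, inv_c]
    try ring
  · simp only [s_63b, s_63b_10, b3p_val H, t6b_val, xi3_val, dwu_val, b0f_val]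
    unfold G.Pd G.xd
    simp only [div_eq_mul_inv, inv_c]
    push_cast
    try ring

end

end Pool.Agent.Strip051.LC.E1.Ch
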