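import Pool.Agent.Strip051.LC.E1.Ch.Val2

/-! # Rests near the full period: the values of the functions of the rows

The cells whose sides meet at the lattice point. -/

set_option linter.unusedVariables false
set_option linter.unusedSimpArgs false

namespace Pool.Agent.Strip051.LC.E1.Ch

open Pool.Agent.Strip051.PB
open Pool.Agent.Strip051.LC.E1.G (hg)

section

variable {r m t : ℝ} (hr : 0 < r) (hm : 0 < m) (x1 : m * r ≤ 1 / 40) (h : t ≤ m)

include hr hm x1 h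

theorem rT_s : r * (Real.sqrt 3 / 2 * t) ≤ 1 / 40 := by
  refine (rT_le (c := 1 / 40) (by norm_num) ?_).trans (by norm_num)
  nlinarith

theorem kU_s : G.kU r m t = G.u1 1 (-(9997 / 50000)) * t := by
  have h1 := rT_s hr hm x1 h
  unfold G.kU G.uR
  rw [hgz (a := 1) (b := 16) hr (by norm_num) (h1.trans (by norm_num)),
    hgz (a := 1) (b := 10) hr (by norm_num) (h1.trans (by norm_num)),
    hg_le (by linarith : t - m ≤ 0), hg_le (by linarith : t - 8 / 5 * m ≤ 0),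
    hg_le (by linarith : t - 11 / 5 * m ≤ 0), hg_le (by linarith : t - 5 / 2 * m ≤ 0)]
  ring

theorem bU_s : G.bU r m t = G.u1 (G.B0 (m * r)) (18757 / 20000) * t := by
  have h1 := rT_s hr hm x1 h
  unfold G.bU G.uR
  rw [hgz (a := 1) (b := 16) hr (by norm_num) (h1.trans (by norm_num)),
    hgz (a := 1) (b := 10) hr (by norm_num) (h1.trans (by norm_num)),
    hg_le (by linarith : t - m ≤ 0), hg_le (by linarith : t - 8 / 5 * m ≤ 0),
    hg_le (by linarith : t - 11 / 5 * m ≤ 0), hg_le (by linarith : t - 5 / 2 * m ≤ 0)]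
  ring

end

theorem tl_s {b b' lam a : ℝ} (hl : 0 < lam) (h : a ≤ 2 / 5 * lam) : G.tl b b' lam a = 2 * b * a :=
    by
  unfold G.tl
  rw [hg_le (by linarith : a - lam / 2 ≤ 0), hg_le (by linarith : a - lam ≤ 0),
    hg_le (by linarith : a - 5 / 2 * lam ≤ 0)]
  ring

theorem xiw_z {z r : ℝ} : E0.G.xiw z r = z * -(3 / 4 * (r * z * (1 + E0.G.qw z r)⁻¹)) := by
  unfold E0.G.xiw E0.G.om
  rw [div_eq_mul_inv _ (1 + E0.G.qw z r)]
  ring

theorem om_z {z r : ℝ} : r * E0.G.om z r = z * (3 / 4 * (r * z * (1 + E0.G.qw z r)⁻¹)) := by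
  unfold E0.G.om
  rw [div_eq_mul_inv _ (1 + E0.G.qw z r)]
  ring

/-! ### Between the unit circle and `W`, above `h0` -/

section

variable {r z m : ℝ} (H : Hc r m z) (hm : 0 < m) (x1 : m * r ≤ 1 / 40)

include H hm

theorem sg1_s (h : z ≤ 2 / 5 * m) : E0.G.sg1 z r ≤ m := by
  have h1 := D1_b H
  rw [sg1_D]
  rcases le_or_gt z 0 with h2 | h2
  · nlinarith
  · nlinarith

include x1

theorem s1wk_val (hz : 0 < z) : s1wk.v z m r (m * r) =
    ((G.W2 r m z).k - (G.C1u r m z).k) / (E0.G.xiw z r - E0.G.xi1 z r) := by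
  simp only [s1wk, s1wk_6, s1wk_10, s1wk_16, s1wk_20, kwu_val, k1p_val H, xiw_val, xi1_val,
    dd1_val, ic1_val, qw_val]
  push_cast
  rcases le_or_gt (z - 2 / 5 * m) 0 with h | h
  · rw [if_pos h]
    have h1 := sg1_s H hm (by linarith : z ≤ 2 / 5 * m)
    have e1 : (G.W2 r m z).k - (G.C1u r m z).k = z *
        ((-(3 / 4 * (r * z * (1 + E0.G.qw z r)⁻¹)) +
          (-(32507 / 2500)) * (1 / 2 - r * z * (3 / 4 * (r * z * (1 + E0.G.qw z r)⁻¹)))) -
        ((1 / 2 + D1 z r) * G.u1 1 (-(9997 / 50000)) / 2 -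
          3 / 4 * ((1 / 2 + D1 z r) * (1 + (E0.G.cc1 z r / 2 + 3 / 4 * (1 + r * z)))⁻¹) *
            (1 + r * z * ((1 / 2 + D1 z r) * G.u1 1 (-(9997 / 50000)))))) := by
      unfold G.W2 G.C1u G.g1 G.wK2
      rw [tl_s hm (by linarith), kU_s H.r0 hm x1 h1, xiw_z, sg1_D,
        div_eq_mul_inv _ (1 + (E0.G.cc1 z r / 2 + 3 / 4 * (1 + r * z)))]
      ring
    have e2 : E0.G.xiw z r - E0.G.xi1 z r =
        z * (D1 z r - 3 / 4 * (r * z * (1 + E0.G.qw z r)⁻¹)) := by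
      rw [xiw_z, xi1_D]
      ring
    rw [e1, e2, mul_div_mul_left _ _ hz.ne', div_eq_mul_inv]
    unfold G.u1
    ring
  · rw [if_neg h.not_ge, div_eq_mul_inv]

theorem s1wb_val (hz : 0 < z) : s1wb.v z m r (m * r) =
    ((G.W2 r m z).b - (G.C1u r m z).b) / (E0.G.xiw z r - E0.G.xi1 z r) := by
  simp only [s1wb, s1wb_6, s1wb_10, s1wb_16, s1wb_20, u1b, bwu_val, b1p_val H, xiw_val, xi1_val,
    dd1_val, ic1_val, qw_val, b0f_val]
  push_cast
  rcases le_or_gt (z - 2 / 5 * m) 0 with h | h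
  · rw [if_pos h]
    have h1 := sg1_s H hm (by linarith : z ≤ 2 / 5 * m)
    have e1 : (G.W2 r m z).b - (G.C1u r m z).b = z *
        ((-(G.B0 (m * r) * (3 / 4 * (r * z * (1 + E0.G.qw z r)⁻¹))) +
          (29977 / 2500) * (1 / 2 - r * z * (3 / 4 * (r * z * (1 + E0.G.qw z r)⁻¹)))) -
        ((1 / 2 + D1 z r) * G.u1 (G.B0 (m * r)) (18757 / 20000) / 2 -
          3 / 4 * ((1 / 2 + D1 z r) * (1 + (E0.G.cc1 z r / 2 + 3 / 4 * (1 + r * z)))⁻¹) *
            (G.B0 (m * r) + r * z * ((1 / 2 + D1 z r) * G.u1 (G.B0 (m * r)) (18757 / 20000))))) :=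
              by
      unfold G.W2 G.C1u G.g1 G.wB2
      rw [tl_s hm (by linarith), bU_s H.r0 hm x1 h1, xiw_z, sg1_D,
        div_eq_mul_inv _ (1 + (E0.G.cc1 z r / 2 + 3 / 4 * (1 + r * z)))]
      ring
    have e2 : E0.G.xiw z r - E0.G.xi1 z r =
        z * (D1 z r - 3 / 4 * (r * z * (1 + E0.G.qw z r)⁻¹)) := by
      rw [xiw_z, xi1_D]
      ring
    rw [e1, e2, mul_div_mul_left _ _ hz.ne', div_eq_mul_inv]
    unfold G.u1
    ring
  · rw [if_neg h.not_ge, div_eq_mul_inv]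

theorem qa1_val : qa1.v z m r (m * r) = (G.W2 r m z).cA / (E0.G.xiw z r - E0.G.xi1 z r) := by
  simp only [qa1, xwu_val, xiw_val, xi1_val]
  push_cast
  rcases le_or_gt (z - 5 / 2 * m) 0 with h | h
  · rw [if_pos h]
    unfold G.W2
    simp only [hg_le h, mul_zero, zero_div]
  · rw [if_neg h.not_ge, div_eq_mul_inv]

end

/-! ### Levels next to the lattice points -/

section

variable {r m t : ℝ} (hr : 0 < r) (hm : 0 < m) (x1 : m * r ≤ 1 / 40)

include hr hm x1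

theorem rT_k {k : ℝ} (hk : 0 ≤ k) (h : t ≤ k * m) :
    r * (Real.sqrt 3 / 2 * t) ≤ 867 / 1000 * (k * (1 / 40)) := by
  refine rT_le (by positivity) ?_
  have h1 : r * t ≤ r * (k * m) := mul_le_mul_of_nonneg_left h hr.le
  have h2 : k * (m * r) ≤ k * (1 / 40) := mul_le_mul_of_nonneg_left x1 hk
  linarith

theorem ab_s (h : t ≤ 167 / 50 * m) :
    2 * G.aL (m * r) r m t - G.bL (m * r) r m t = 0 ∧
    G.aL (m * r) r m t - G.bL (m * r) r m t = 0 ∧ G.aL (m * r) r m t + G.bL (m * r) r m t = 0 ∧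
    G.aL (m * r) r m t = 0 := by
  have h1 := rT_k hr hm x1 (by norm_num) h
  unfold G.aL G.bL
  rw [hg_le (by linarith : t - 167 / 50 * m ≤ 0)]
  rw [hgz (a := 29) (b := 400) hr (by norm_num) (h1.trans (by norm_num)),
    hgz (a := 9) (b := 100) hr (by norm_num) (h1.trans (by norm_num)),
    hgz (a := 3) (b := 25) hr (by norm_num) (h1.trans (by norm_num))]
  refine ⟨?_, ?_, ?_, ?_⟩ <;> ring

end

/-! ### The cell between the unit circle and `W`, above `h0` -/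

section

variable {r z m : ℝ} (H : Hc r m z) (hm : 0 < m) (x1 : m * r ≤ 1 / 40)

include H hm x1

theorem qb1_val : qb1.v z m r (m * r) = (G.C1u r m z).cB / (E0.G.xiw z r - E0.G.xi1 z r) := by
  simp only [qb1, l1p_val H, xiw_val, xi1_val, sg1_val]
  push_cast
  rcases le_or_gt (E0.G.sg1 z r - 167 / 50 * m) 0 with h | h
  · rw [if_pos h]
    unfold G.C1u
    rw [(ab_s H.r0 hm x1 (by linarith)).2.1, mul_zero, zero_div]
  · rw [if_neg h.not_ge, div_eq_mul_inv]

theorem th_P1W (xi : ℝ) (hz : 0 ≤ z) (h0 : z = 0 → xi = 0) : Cel (G.Pw xi r m z) r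
    (xi - E0.G.xi1 z r) (k1p.v z m r (m * r)) 0 (l1p.v z m r (m * r)) (b1p.v z m r (m * r))
    (s1wk.v z m r (m * r)) (qa1.v z m r (m * r)) (-qb1.v z m r (m * r))
    (s1wb.v z m r (m * r)) := by
  rw [qa1_val H hm x1, qb1_val H hm x1, k1p_val H, b1p_val H, l1p_val H]
  rcases hz.eq_or_lt with e | h
  · subst e
    have e1 : E0.G.xi1 0 r = 0 := by unfold E0.G.xi1; ring
    rw [h0 rfl, e1, sub_zero]
    apply Cel.of <;> unfold G.Pw <;> simp only [e1] <;> ring
  · rw [s1wk_val H hm x1 h, s1wb_val H hm x1 h]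
    apply Cel.of <;> unfold G.Pw <;> simp only [div_eq_mul_inv] <;> ring

end

/-! ### The cell between `W` and the circle of radius `√3`, below `h0` -/

section

variable {r z m : ℝ} (H : Hc r m z) (hm : 0 < m) (x1 : m * r ≤ 1 / 40)

include H hm

theorem sg3_s (h : -z ≤ 2 / 5 * m) : -E0.G.sg3 z r ≤ m := by
  have h1 := D3_b H
  rw [sg3_D]
  rcases le_or_gt 0 z with h2 | h2
  · nlinarith
  · nlinarith

include x1

theorem sw3k_val (hz : z < 0) : sw3k.v z m r (m * r) =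
    ((G.C3d r m z).k - (G.W1 r m z).k) / (E0.G.xi3 z r - E0.G.xiw z r) := by
  simp only [sw3k, sw3k_8, sw3k_12, sw3k_20, sw3k_25, kwl_val, k3m_val H, xiw_val, xi3_val,
    dd3_val, ic3_val, qw_val]
  push_cast
  rcases le_or_gt (-z - 2 / 5 * m) 0 with h | h
  · rw [if_pos h]
    have h1 := sg3_s H hm (by linarith : -z ≤ 2 / 5 * m)
    have e1 : (G.C3d r m z).k - (G.W1 r m z).k = -z *
        ((3 / 2 * ((1 / 2 + D3 z r / 3) * G.u1 1 (-(9997 / 50000))) +
          3 / 4 * ((1 / 2 + D3 z r / 3) * (1 + (E0.G.cc3 z r / 2 + 1 / 4 * (1 + r * z)))⁻¹) *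
            (1 + r * -z * ((1 / 2 + D3 z r / 3) * G.u1 1 (-(9997 / 50000))))) -
        (-(3 / 4 * (r * -z * (1 + E0.G.qw z r)⁻¹)) +
          (-(8553 / 5000)) * (3 / 2 - r * -z * (3 / 4 * (r * -z * (1 + E0.G.qw z r)⁻¹))))) := by
      unfold G.W1 G.C3d G.g3 G.wK1
      rw [tl_s hm (by linarith), kU_s H.r0 hm x1 h1, xiw_z, sg3_D,
        div_eq_mul_inv _ (1 + (E0.G.cc3 z r / 2 + 1 / 4 * (1 + r * z)))]
      ring
    have e2 : E0.G.xi3 z r - E0.G.xiw z r =
        -z * (D3 z r + 3 / 4 * (r * -z * (1 + E0.G.qw z r)⁻¹)) := by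
      rw [xiw_z, xi3_D]
      ring
    rw [e1, e2, mul_div_mul_left _ _ (by linarith : -z ≠ 0), div_eq_mul_inv]
    unfold G.u1
    ring
  · rw [if_neg h.not_ge, div_eq_mul_inv]

theorem sw3b_val (hz : z < 0) : sw3b.v z m r (m * r) =
    ((G.C3d r m z).b - (G.W1 r m z).b) / (E0.G.xi3 z r - E0.G.xiw z r) := by
  simp only [sw3b, sw3b_8, sw3b_12, sw3b_20, sw3b_25, u1b, bwl_val, b3m_val H, xiw_val, xi3_val,
    dd3_val, ic3_val, qw_val, b0f_val]
  push_cast
  rcases le_or_gt (-z - 2 / 5 * m) 0 with h | h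
  · rw [if_pos h]
    have h1 := sg3_s H hm (by linarith : -z ≤ 2 / 5 * m)
    have e1 : (G.C3d r m z).b - (G.W1 r m z).b = -z *
        ((3 / 2 * ((1 / 2 + D3 z r / 3) * G.u1 (G.B0 (m * r)) (18757 / 20000)) +
          3 / 4 * ((1 / 2 + D3 z r / 3) * (1 + (E0.G.cc3 z r / 2 + 1 / 4 * (1 + r * z)))⁻¹) *
            (G.B0 (m * r) + r * -z * ((1 / 2 + D3 z r / 3) * G.u1 (G.B0 (m * r)) (18757 / 20000))))
              -
        (-(G.B0 (m * r) * (3 / 4 * (r * -z * (1 + E0.G.qw z r)⁻¹))) +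
          (143543 / 10000) * (3 / 2 - r * -z * (3 / 4 * (r * -z * (1 + E0.G.qw z r)⁻¹))))) := by
      unfold G.W1 G.C3d G.g3 G.wB1
      rw [tl_s hm (by linarith), bU_s H.r0 hm x1 h1, xiw_z, sg3_D,
        div_eq_mul_inv _ (1 + (E0.G.cc3 z r / 2 + 1 / 4 * (1 + r * z)))]
      ring
    have e2 : E0.G.xi3 z r - E0.G.xiw z r =
        -z * (D3 z r + 3 / 4 * (r * -z * (1 + E0.G.qw z r)⁻¹)) := by
      rw [xiw_z, xi3_D]
      ring
    rw [e1, e2, mul_div_mul_left _ _ (by linarith : -z ≠ 0), div_eq_mul_inv]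
    unfold G.u1
    ring
  · rw [if_neg h.not_ge, div_eq_mul_inv]

theorem qa3_val : qa3.v z m r (m * r) = (G.W1 r m z).cA / (E0.G.xi3 z r - E0.G.xiw z r) := by
  simp only [qa3, xwl_val, xiw_val, xi3_val]
  push_cast
  rcases le_or_gt (-z - 5 / 2 * m) 0 with h | h
  · rw [if_pos h]
    unfold G.W1
    simp only [hg_le h, mul_zero, zero_div]
  · rw [if_neg h.not_ge, div_eq_mul_inv]

theorem qb3_val : qb3.v z m r (m * r) = (G.C3d r m z).cB / (E0.G.xi3 z r - E0.G.xiw z r) := by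
  simp only [qb3, l3m_val H, xiw_val, xi3_val, sg3_val]
  push_cast
  rcases le_or_gt (-E0.G.sg3 z r - 167 / 50 * m) 0 with h | h
  · rw [if_pos h]
    unfold G.C3d
    rw [(ab_s H.r0 hm x1 (by linarith)).2.2.1, mul_zero, zero_div]
  · rw [if_neg h.not_ge, div_eq_mul_inv]

theorem th_QW3 (xi : ℝ) (hz : z ≤ 0) (h0 : z = 0 → xi = 0) : Cel (G.P3 xi r m z) r
    (E0.G.xi3 z r - xi) (k3m.v z m r (m * r)) 0 (l3m.v z m r (m * r)) (b3m.v z m r (m * r))
    (-sw3k.v z m r (m * r)) (qa3.v z m r (m * r)) (-qb3.v z m r (m * r))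
    (-sw3b.v z m r (m * r)) := by
  rw [qa3_val H hm x1, qb3_val H hm x1, k3m_val H, b3m_val H, l3m_val H]
  rcases hz.eq_or_lt with e | h
  · subst e
    have e1 : E0.G.xi3 0 r = 0 := by unfold E0.G.xi3; ring
    have e2 : E0.G.xiw 0 r = 0 := by unfold E0.G.xiw E0.G.om; ring
    have e3 : E0.G.sg3 0 r = 0 := by rw [sg3_D]; ring
    have e4 : G.kU r m 0 = 0 := by rw [kU_s H.r0 hm x1 hm.le]; ring
    have e5 : G.bU r m 0 = 0 := by rw [bU_s H.r0 hm x1 hm.le]; ring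
    have e6 := ab_s (t := 0) H.r0 hm x1 (by positivity)
    have c1 : (G.C3d r m 0).k = 0 := by unfold G.C3d G.g3; simp only [e3, neg_zero, e4]; ring
    have c2 : (G.C3d r m 0).b = 0 := by unfold G.C3d G.g3; simp only [e3, neg_zero, e5]; ring
    have c3 : (G.C3d r m 0).cB = 0 := by
      unfold G.C3d; simp only [e3, neg_zero]; rw [e6.2.2.1, mul_zero]
    have c4 : (G.W1 r m 0).k = 0 := by
      unfold G.W1 G.wK1; simp only [e2, neg_zero]; rw [tl_s hm (by positivity)]; ring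
    have c5 : (G.W1 r m 0).b = 0 := by
      unfold G.W1 G.wB1; simp only [e2, neg_zero]; rw [tl_s hm (by positivity)]; ring
    have c6 : (G.W1 r m 0).cA = 0 := by
      unfold G.W1; simp only [neg_zero, zero_sub]
      rw [hg_le (by linarith), mul_zero]
    rw [h0 rfl, e1, sub_zero]
    apply Cel.of <;> unfold G.P3 <;> simp only [c1, c2, c3, c4, c5, c6] <;> ring
  · have hd : E0.G.xi3 z r - E0.G.xiw z r ≠ 0 := by
      rw [xi3_D]
      have h1 := D3_b H
      have h2 : 0 < D3 z r := by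
        have h3 := abs_le.1 H.a
        have h4 := cc3_ge H
        unfold D3
        apply div_pos <;> linarith
      have h3 : 0 < -(z * D3 z r) := by nlinarith
      have h4 : E0.G.xiw z r ≤ 0 := by
        unfold E0.G.xiw E0.G.om
        have := H.r0
        have : 0 ≤ E0.G.qw z r := Real.sqrt_nonneg _
        have : 0 ≤ r * (3 / 4 * z ^ 2 / (1 + E0.G.qw z r)) := by positivity
        linarith
      linarith
    rw [sw3k_val H hm x1 h, sw3b_val H hm x1 h]
    have e1 : (xi - E0.G.xiw z r) / (E0.G.xi3 z r - E0.G.xiw z r) =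
        1 - (E0.G.xi3 z r - xi) / (E0.G.xi3 z r - E0.G.xiw z r) := by
      field_simp
      ring
    apply Cel.of <;> unfold G.P3 <;> simp only [e1] <;> ring

end

end Pool.Agent.Strip051.LC.E1.Ch
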