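import Pool.Agent.Strip051.LC.E1.Ch.Val3

/-! # Rests near the full period: the values of the functions of the rows

The cells next to the height `0`. -/

set_option linter.unusedVariables false
set_option linter.unusedSimpArgs false

namespace Pool.Agent.Strip051.LC.E1.Ch

open Pool.Agent.Strip051.PB
open Pool.Agent.Strip051.LC.E1.G (hg)

/-! ### `W` and the next curve -/

theorem kw0_val (w m r : ℝ) : kw0.v w m r (m * r) = (G.W0 r m w).k := by
  simp only [kw0, kw0_10, kw0_11, pwk, xw0p_val, vw0_val]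
  unfold G.W0 G.wK0 G.tl hg
  push_cast
  try ring

theorem bw0_val (w m r : ℝ) : bw0.v w m r (m * r) = (G.W0 r m w).b := by
  simp only [bw0, bw0_10, bw0_11, pwb, xw0p_val, b0f_val, hhf_val, ig_val]
  unfold G.W0 G.wB0 G.tl hg
  push_cast
  try ring

theorem xw0_val (w m r : ℝ) : xw0.v w m r (m * r) = (G.W0 r m w).cA := by
  simp only [xw0, lmf_val]
  unfold G.W0 hg
  push_cast
  try ring

theorem c3w_val (w r : ℝ) : c3w.v w r = G.dQ r w := by
  simp only [c3w, xw0p_val]
  unfold G.dQ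
  push_cast
  try ring

theorem xq0p_val (w m r : ℝ) : xq0p.v w m r = G.xiq r m w := by
  simp only [xq0p, xw0p_val, c3w_val]
  unfold G.xiq
  push_cast
  try ring

theorem kq0_val (w m r : ℝ) : kq0.v w m r (m * r) = (G.Q0 r m w).k := by
  simp only [kq0, hbk, kw0_val]
  unfold G.Q0 G.nt hg
  push_cast
  try ring

theorem bq0_val (w m r : ℝ) : bq0.v w m r (m * r) = (G.Q0 r m w).b := by
  simp only [bq0, hbb, bw0_val, b0f_val]
  unfold G.Q0 G.nt hg
  push_cast
  try ring

theorem xq0_val (w m r : ℝ) : xq0.v w m r (m * r) = (G.Q0 r m w).cA := by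
  simp only [xq0, lmf_val]
  unfold G.Q0 G.W0 G.c5 hg
  push_cast
  try ring

/-! ### The cell between the unit circle and `W` -/

section

variable {r w m : ℝ} (H : Hc r m w) (hm : 0 < m) (x1 : m * r ≤ 1 / 40)

include H

theorem S1_k : ku.v w m r (m * r) = (G.S1 r m w).k :=
  ku_val H.r0 w m (fun e => (le_abs_self _).trans (h_far H e))

theorem S1_b : kv.v w m r (m * r) = (G.S1 r m w).b :=
  kv_val H.r0 w m (fun e => (le_abs_self _).trans (h_far H e))

theorem S1_c : lva.v w m r (m * r) = (G.S1 r m w).cB :=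
  lva_val H.r0 w m (fun e => (le_abs_self _).trans (h_far H e)) ((le_abs_self _).trans H.a)

include hm x1

theorem s0wk_val (hw : 0 < w) : s0wk.v w m r (m * r) =
    ((G.W0 r m w).k - (G.S1 r m w).k) / (E0.G.xi1 (-w) r + r * E0.G.om w r) := by
  simp only [s0wk, s0wk_5, s0wk_9, kw0_val, S1_k H, xw0p_val, zx_val, dd1_val, qw_val]
  push_cast
  rcases le_or_gt (w - 2 / 5 * m) 0 with h | h
  · rw [if_pos h]
    have e1 : (G.W0 r m w).k - (G.S1 r m w).k = w *
        (D1 (-w) r + (1 + r * w * D1 (-w) r) * (-(5793 / 2500)) - G.u1 1 (-(9997 / 50000))) := by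
      unfold G.W0 G.S1 G.wK0
      rw [tl_s hm (by linarith), kU_s H.r0 hm x1 (by linarith), xi1_D]
      ring
    have e2 : E0.G.xi1 (-w) r + r * E0.G.om w r =
        w * (D1 (-w) r + 3 / 4 * (r * w * (1 + E0.G.qw w r)⁻¹)) := by
      rw [om_z, xi1_D]
      ring
    rw [e1, e2, mul_div_mul_left _ _ hw.ne', div_eq_mul_inv]
    unfold G.u1
    ring
  · rw [if_neg h.not_ge, div_eq_mul_inv, sub_neg_eq_add]

theorem s0wb_val (hw : 0 < w) : s0wb.v w m r (m * r) =
    ((G.W0 r m w).b - (G.S1 r m w).b) / (E0.G.xi1 (-w) r + r * E0.G.om w r) := by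
  simp only [s0wb, s0wb_5, s0wb_9, u1b, bw0_val, S1_b H, xw0p_val, zx_val, dd1_val, qw_val, b0f_val]
  push_cast
  rcases le_or_gt (w - 2 / 5 * m) 0 with h | h
  · rw [if_pos h]
    have e1 : (G.W0 r m w).b - (G.S1 r m w).b = w *
        (G.B0 (m * r) * D1 (-w) r + (G.B0 (m * r) + r * w * (G.B0 (m * r) * 0 + D1 (-w) r)) * 0 +
          (1 + r * w * D1 (-w) r) * (2223 / 2500) - G.u1 (G.B0 (m * r)) (18757 / 20000)) := by
      unfold G.W0 G.S1 G.wB0
      rw [tl_s hm (by linarith), bU_s H.r0 hm x1 (by linarith), xi1_D]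
      ring
    have e2 : E0.G.xi1 (-w) r + r * E0.G.om w r =
        w * (D1 (-w) r + 3 / 4 * (r * w * (1 + E0.G.qw w r)⁻¹)) := by
      rw [om_z, xi1_D]
      ring
    rw [e1, e2, mul_div_mul_left _ _ hw.ne', div_eq_mul_inv]
    unfold G.u1
    ring
  · rw [if_neg h.not_ge, div_eq_mul_inv, sub_neg_eq_add]

theorem qa0_val : qa0.v w m r (m * r) =
    (G.W0 r m w).cA / (E0.G.xi1 (-w) r + r * E0.G.om w r) := by
  simp only [qa0, xw0_val, xw0p_val, zx_val]
  push_cast
  rcases le_or_gt (w - 5 / 2 * m) 0 with h | h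
  · rw [if_pos h]
    unfold G.W0
    simp only [hg_le h, mul_zero, zero_div]
  · rw [if_neg h.not_ge, div_eq_mul_inv, sub_neg_eq_add]

theorem qb0_val : qb0.v w m r (m * r) =
    (G.S1 r m w).cB / (E0.G.xi1 (-w) r + r * E0.G.om w r) := by
  simp only [qb0, S1_c H, xw0p_val, zx_val]
  push_cast
  rcases le_or_gt (w - 167 / 50 * m) 0 with h | h
  · rw [if_pos h]
    unfold G.S1
    rw [(ab_s H.r0 hm x1 (by linarith)).2.2.2, mul_zero, zero_div]
  · rw [if_neg h.not_ge, div_eq_mul_inv, sub_neg_eq_add]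

theorem wd0_pos (hw : 0 < w) : 0 < E0.G.xi1 (-w) r + r * E0.G.om w r := by
  have h1 := cc1_ge H.neg
  have h3 := abs_le.1 H.a
  have h2 : 0 < D1 (-w) r := by
    unfold D1
    apply div_pos <;> linarith
  have h4 : 0 < -(-w * D1 (-w) r) := by nlinarith
  have h5 : 0 ≤ r * E0.G.om w r := by
    unfold E0.G.om
    have := H.r0
    have : 0 ≤ E0.G.qw w r := Real.sqrt_nonneg _
    positivity
  rw [xi1_D]
  linarith

theorem th_O1W (xi : ℝ) (hw : 0 ≤ w) (h0 : w = 0 → xi = 0) : Cel (G.H1 xi r m w) r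
    (xi + r * E0.G.om w r) (ku.v w m r (m * r)) 0 (lva.v w m r (m * r)) (kv.v w m r (m * r))
    (s0wk.v w m r (m * r)) (qa0.v w m r (m * r)) (-qb0.v w m r (m * r))
    (s0wb.v w m r (m * r)) := by
  rw [qa0_val H hm x1, qb0_val H hm x1, S1_k H, S1_b H, S1_c H]
  rcases hw.eq_or_lt with e | h
  · subst e
    have e1 : r * E0.G.om 0 r = 0 := by unfold E0.G.om; ring
    rw [h0 rfl, e1, add_zero]
    apply Cel.of <;> unfold G.H1 <;> simp only [e1] <;> ring
  · rw [s0wk_val H hm x1 h, s0wb_val H hm x1 h]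
    apply Cel.of <;> unfold G.H1 <;> simp only [div_eq_mul_inv] <;> ring

theorem th_O1w (xi : ℝ) (hw : 0 < w) : Cel (G.H1 xi r m w) r
    (E0.G.xi1 (-w) r - xi) (kw0.v w m r (m * r)) (xw0.v w m r (m * r)) 0 (bw0.v w m r (m * r))
    (-s0wk.v w m r (m * r)) (-qa0.v w m r (m * r)) (qb0.v w m r (m * r))
    (-s0wb.v w m r (m * r)) := by
  rw [qa0_val H hm x1, qb0_val H hm x1, s0wk_val H hm x1 hw, s0wb_val H hm x1 hw, kw0_val,
    xw0_val, bw0_val]
  have hd := (wd0_pos H hm x1 hw).ne'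
  have e1 : (xi + r * E0.G.om w r) / (E0.G.xi1 (-w) r + r * E0.G.om w r) =
      1 - (E0.G.xi1 (-w) r - xi) / (E0.G.xi1 (-w) r + r * E0.G.om w r) := by
    field_simp
    ring
  apply Cel.of <;> unfold G.H1 <;> simp only [e1] <;> ring

end

/-! ### The cells beyond `W` -/

section

variable {r w m : ℝ} (hr : 0 < r) (hm : 0 < m) (xi : ℝ)

include hr hm

theorem nt_case (n n' b a : ℝ) (h : 5 / 2 * m - a ≤ 0) : G.nt n n' b m a = 0 := by
  unfold G.nt
  rw [hg_ge (by linarith : 0 ≤ a - m / 2), hg_ge (by linarith : 0 ≤ a - m),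
    hg_ge (by linarith : 0 ≤ a - 5 / 2 * m)]
  ring

theorem th_OWq : Cel (G.H2 xi r m w) r (xi - E0.G.xi1 (-w) r) (kw0.v w m r (m * r))
    (xw0.v w m r (m * r)) 0 (bw0.v w m r (m * r)) (swqk.v w m r (m * r)) 0
    (swqx.v w m r (m * r)) (swqb.v w m r (m * r)) := by
  have hr' := hr.ne'
  have hm' := hm.ne'
  constructor
  · have key : swqk.v w m r (m * r) =
        (G.nt (8437 / 5000) (-(4991 / 2000)) (11871 / 5000) m w * (m⁻¹ * (5 / 11)) - (1 + r * (G.W0
          r m w).k)) *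
          (G.dQ r w)⁻¹ := by
      simp only [swqk, hbk, kw0_val, c3w_val]
      push_cast
      rcases le_or_gt (5 / 2 * m - w) 0 with h | h
      · rw [if_pos h, nt_case hr hm _ _ _ _ h]
        ring
      · rw [if_neg h.not_ge]
        unfold G.nt hg
        ring
    rw [key, kw0_val]
    unfold G.H2 G.Q0
    simp only [div_eq_mul_inv, inv_c]
    generalize (G.dQ r w)⁻¹ = I
    generalize G.nt _ _ _ m w = n
    field_simp
    ring
  · have key : swqb.v w m r (m * r) =
        (G.nt (1019 / 1250) (5391 / 1250) (14501 / 10000) m w * (m⁻¹ * (5 / 11)) -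
          (G.B0 (m * r) + r * (G.W0 r m w).b)) * (G.dQ r w)⁻¹ := by
      simp only [swqb, hbb, bw0_val, c3w_val, b0f_val]
      push_cast
      rcases le_or_gt (5 / 2 * m - w) 0 with h | h
      · rw [if_pos h, nt_case hr hm _ _ _ _ h]
        ring
      · rw [if_neg h.not_ge]
        unfold G.nt hg
        ring
    rw [key, bw0_val]
    unfold G.H2 G.Q0
    simp only [div_eq_mul_inv, inv_c]
    generalize (G.dQ r w)⁻¹ = I
    generalize G.nt _ _ _ m w = n
    field_simp
    ring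
  · rw [xw0_val]
    simp only [swqx, c3w_val, lmf_val]
    unfold Sv.c G.H2 G.Q0 G.W0 G.c5 hg
    simp only [div_eq_mul_inv, inv_c]
    generalize (G.dQ r w)⁻¹ = I
    generalize max (w - 5 / 2 * m) 0 = g
    push_cast
    field_simp
    ring

theorem th_Oq5 (x1 : m * r ≤ 1 / 40) : Cel (G.H3 xi r m w) r (xi - G.xiq r m w)
    (kq0.v w m r (m * r)) (xq0.v w m r (m * r)) 0 (bq0.v w m r (m * r)) (sq5k.v w m r (m * r)) 0
    (swqx.v w m r (m * r)) (sq5b.v w m r (m * r)) := by
  have hr' := hr.ne'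
  constructor
  · rw [kq0_val]
    simp only [sq5k, kq0_val, c3w_val]
    unfold G.H3
    push_cast
    ring
  · rw [bq0_val]
    simp only [sq5b, bq0_val, c3w_val, b0f_val]
    unfold G.H3
    push_cast
    ring
  · rw [xq0_val]
    have h1 : 3 / 20 - 11 / 5 * (m * r) ≠ 0 := by
      intro h
      linarith
    have e1 : G.c5 r m w - (G.Q0 r m w).cA =
        (3 / 20 - 11 / 5 * (m * r)) * (20 / 3 * (G.c5 r m w - (G.W0 r m w).cA)) := by
      unfold G.Q0
      ring
    have e2 : swqx.v w m r (m * r) =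
        20 / 3 * (G.c5 r m w - (G.W0 r m w).cA) * (G.dQ r w)⁻¹ := by
      simp only [swqx, c3w_val, lmf_val]
      unfold G.W0 G.c5 hg
      push_cast
      ring
    have key : r * (xi - G.xiq r m w) / ((3 / 20 - 11 / 5 * (m * r)) * G.dQ r w) *
        (G.c5 r m w - (G.Q0 r m w).cA) =
        r * ((xi - G.xiq r m w) * swqx.v w m r (m * r)) := by
      have h2 := mul_inv_cancel₀ h1
      rw [e1, e2, div_eq_mul_inv, mul_inv]
      linear_combination (r * (xi - G.xiq r m w) * (20 / 3 * (G.c5 r m w - (G.W0 r m w).cA)) *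
        (G.dQ r w)⁻¹) * h2
    unfold Sv.c G.H3
    simp only
    rw [mul_comm (G.c5 r m w - (G.Q0 r m w).cA), key]
    field_simp
    ring

end

end Pool.Agent.Strip051.LC.E1.Ch
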