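import Pool.Agent.Strip051.LC.E1.Ch.Val4
import Pool.Agent.Strip051.LC.E1.Ch.Good

/-! # Rests near the full period: the values of the functions of the rows

Facts for the rows. -/

set_option linter.unusedVariables false
set_option linter.unusedSimpArgs false

namespace Pool.Agent.Strip051.LC.E1.Ch

open Pool.Agent.Strip051.PB
open Pool.Agent.Strip051.LC.E1.G (hg)

theorem neg_k (s : Sv) : (-s).k = -s.k := rfl

theorem neg_b (s : Sv) : (-s).b = -s.b := rfl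

theorem neg_c (s : Sv) (r : ℝ) : (-s).c r = -s.c r := by
  show -s.cA / r + -s.cB = -(s.cA / r + s.cB)
  ring

/-! ### Coordinates -/

theorem hc_one {r m h : ℝ} {P : Pat} {w z : ℝ} (D : Dom P r m w z) (h1 : |h| ≤ P.len w z) :
    Hc r m h := by
  have hr := D.r0
  have h2 : |r * h| ≤ r * P.len w z := by
    rw [abs_mul, abs_of_pos hr]
    exact mul_le_mul_of_nonneg_left h1 hr.le
  refine ⟨hr, h2.trans D.s, fun e => h2.trans ?_, fun e => ?_⟩
  · rcases D.n with ⟨h3, h4⟩ | ⟨h3, h4⟩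
    · have := D.e
      rw [h3, one_mul] at this
      nlinarith
    · rw [h3]
      linarith
  · rcases D.n with ⟨h3, h4⟩ | ⟨h3, h4⟩
    · rw [h3]
      nlinarith
    · rw [h3] at h2
      have := D.l0
      have : 0 < m * r := mul_pos D.l0 hr
      linarith

theorem hc_of {r m : ℝ} {P : Pat} {w z : ℝ} (D : Dom P r m w z) :
    Hc r m w ∧ Hc r m z ∧ Hc r m (w + z) := by
  have ok := D.ok
  rcases P with _ | _ | _ | _ | _
  · obtain ⟨a, b⟩ : 0 ≤ w ∧ 0 ≤ z := ok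
    refine ⟨hc_one D ?_, hc_one D ?_, hc_one D ?_⟩ <;> show _ ≤ w + z <;> rw [abs_le] <;>
      constructor <;> linarith
  · obtain ⟨a, b, c⟩ : 0 ≤ w ∧ z ≤ 0 ∧ 0 ≤ w + z := ok
    refine ⟨hc_one D ?_, hc_one D ?_, hc_one D ?_⟩ <;> show _ ≤ w <;> rw [abs_le] <;>
      constructor <;> linarith
  · obtain ⟨a, b, c⟩ : 0 ≤ w ∧ z ≤ 0 ∧ w + z ≤ 0 := ok
    refine ⟨hc_one D ?_, hc_one D ?_, hc_one D ?_⟩ <;> show _ ≤ -z <;> rw [abs_le] <;>
      constructor <;> linarith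
  · obtain ⟨a, b, c⟩ : w ≤ 0 ∧ 0 ≤ z ∧ w + z ≤ 0 := ok
    refine ⟨hc_one D ?_, hc_one D ?_, hc_one D ?_⟩ <;> show _ ≤ -w <;> rw [abs_le] <;>
      constructor <;> linarith
  · obtain ⟨a, b⟩ : w ≤ 0 ∧ z ≤ 0 := ok
    refine ⟨hc_one D ?_, hc_one D ?_, hc_one D ?_⟩ <;> show _ ≤ -(w + z) <;> rw [abs_le] <;>
      constructor <;> linarith

theorem xi1_0 (r : ℝ) : E0.G.xi1 0 r = 0 := by unfold E0.G.xi1; ring

theorem xi3_0 (r : ℝ) : E0.G.xi3 0 r = 0 := by unfold E0.G.xi3; ring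

theorem om_0 (r : ℝ) : E0.G.om 0 r = 0 := by unfold E0.G.om; ring

theorem xiw_0 (r : ℝ) : E0.G.xiw 0 r = 0 := by unfold E0.G.xiw; rw [om_0]; ring

theorem pw_0 {r u xi : ℝ} (hl : E0.G.xi1 u r ≤ xi) (hu : xi ≤ E0.G.xiw u r) : u = 0 → xi = 0 := by
  rintro rfl
  rw [xi1_0] at hl
  rw [xiw_0] at hu
  linarith

theorem q3_0 {r u xi : ℝ} (hl : E0.G.xiw u r ≤ xi) (hu : xi ≤ E0.G.xi3 u r) : u = 0 → xi = 0 := by
  rintro rfl
  rw [xiw_0] at hl
  rw [xi3_0] at hu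
  linarith

/-! ### The values on the curves -/

section

variable {r m z : ℝ} (H : Hc r m z)

include H

theorem cS1 : (G.S1 r m z).c r = lva.v z m r (m * r) := by
  rw [S1_c H]
  unfold Sv.c G.S1
  simp

theorem cC1u : (G.C1u r m z).c r = l1p.v z m r (m * r) := by
  rw [l1p_val H]
  unfold Sv.c G.C1u
  simp

theorem cC1d : (G.C1d r m z).c r = l1m.v z m r (m * r) := by
  rw [l1m_val H]
  unfold Sv.c G.C1d
  simp

theorem cC3u : (G.C3u r m z).c r = l3p.v z m r (m * r) := by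
  rw [l3p_val H]
  unfold Sv.c G.C3u
  simp

theorem cC3d : (G.C3d r m z).c r = l3m.v z m r (m * r) := by
  rw [l3m_val H]
  unfold Sv.c G.C3d
  simp

end

theorem cW1 (r z m : ℝ) : (G.W1 r m z).c r = xwl.v z m r (m * r) / r := by
  rw [xwl_val]
  unfold Sv.c G.W1
  simp

theorem cW2 (r z m : ℝ) : (G.W2 r m z).c r = xwu.v z m r (m * r) / r := by
  rw [xwu_val]
  unfold Sv.c G.W2
  simp

theorem nkf_val (x k b : ℝ) : nkf.v x k b = (1 + G.LAM x * G.mu x) * k + G.mu x * b := by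
  simp only [nkf, n1f_val, mu_val']

theorem eh_pos' {e : ℝ} (he : 0 < e) (he1 : e < 1) : 0 < G.eh e := by
  have h1 : G.gs e ≤ 1 := by
    unfold G.gs
    rw [Real.sqrt_le_iff]
    constructor
    · norm_num
    · nlinarith [sq_nonneg (1 - e)]
  have h0 : 0 ≤ G.gs e := Real.sqrt_nonneg _
  have h2 : 2 / 3 ≤ G.ig e := by
    unfold G.ig
    rw [le_div_iff₀ (by linarith)]
    linarith
  unfold G.eh
  nlinarith

theorem near_hb {r m g : ℝ} (hr : 0 < r) (hm : 0 < m) (x1 : m * r ≤ 1 / 40) :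
    (1 / 2 + G.be (m * r)) * g / r = (1 + G.LAM (m * r) * G.mu (m * r)) * (3 / 2 * g) / r +
      G.mu (m * r) * G.LAM (m * r) * m * G.q1 (m * r) / (2 * G.eh (m * r)) * g := by
  have x0 : 0 < m * r := mul_pos hm hr
  have h := one_sub_eh' x0.le (by linarith : m * r ≤ 1)
  have h2 : G.eh (m * r) ≠ 0 := (eh_pos' x0 (by linarith)).ne'
  have h3 : G.LAM (m * r) * G.mu (m * r) / 2 * (1 / G.eh (m * r) - 1) =
      r * (G.mu (m * r) * G.LAM (m * r) * m * G.q1 (m * r) / (2 * G.eh (m * r))) := by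
    field_simp
    linear_combination G.LAM (m * r) * G.mu (m * r) * h
  unfold G.be G.B0
  field_simp
  field_simp at h3
  linear_combination g * h3

/-- `xi1 = -3 / 2 z + r x2`. -/
theorem x2_eq {r m z : ℝ} (H : Hc r m z) :
    G.x2 z r = -(E0.G.xi1 z r ^ 2 + 3 / 4 * z ^ 2) := by
  have h1 := abs_le.1 H.a
  have h2 := cc1_ge H
  have h3 : E0.G.cc1 z r ^ 2 = 1 - 3 / 4 * (1 + r * z) ^ 2 := Real.sq_sqrt (by nlinarith)
  have h4 : 1 / 2 + E0.G.cc1 z r ≠ 0 := by linarith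
  have h5 : E0.G.xi1 z r * (1 / 2 + E0.G.cc1 z r) = -(3 / 4 * z * (2 + r * z)) := by
    unfold E0.G.xi1
    field_simp
  have h6 : E0.G.cc1 z r = 1 / 2 + r * E0.G.xi1 z r := by
    have : (E0.G.cc1 z r - (1 / 2 + r * E0.G.xi1 z r)) * (1 / 2 + E0.G.cc1 z r) = 0 := by
      linear_combination h3 - r * h5
    rcases mul_eq_zero.1 this with h | h
    · linarith
    · exact absurd h h4
  unfold G.x2
  rw [div_eq_iff h4]
  rw [h6] at h5 ⊢
  linear_combination E0.G.xi1 z r * h5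

end Pool.Agent.Strip051.LC.E1.Ch
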